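import Pool.Agent.Lib_helper4.CFOdd
import Pool.Agent.Lib_helper5.E5

/-!
Odd cycles, and the cycle of length five, from the continued fraction of `ω_d`.
-/

namespace Pool.Agent.LibH4.CFO

open Real Function Pool.Agent.Lib_helper5

variable {m B : ℤ} {s : ℝ} {x : ℕ → ℝ} {c : ℕ → ℕ}

lemma c_zero (h : Data m B s x c) : (c 0 : ℤ) = B := by
  rw [h.fl 0, h.x0, Int.floor_eq_iff]
  constructor
  · linarith [h.Bs]
  · linarith [h.sB]

lemma QS_zero : QS m B c 0 = 1 := rfl
lemma QR_one (h : Data m B s x c) : QR m B c 1 = B := by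
  have := QR_succ (m := m) (B := B) (c := c) 0
  rw [c_zero h, QS_zero, show QR m B c 0 = B from rfl] at this
  rw [this]; ring
lemma QS_one (h : Data m B s x c) : QS m B c 1 = m := by
  have := QS_succ (m := m) (B := B) (c := c) 0
  rw [c_zero h, QS_zero, show QR m B c 0 = B from rfl, show QP m B c 0 = m from rfl] at this
  rw [this]; ring

/-- the odd cycle -/
theorem oddCyc (h : Data m B s x c) (hm : 0 < m) {I : ℕ}
    (hL : minimalPeriod gsh (x 1) = 2 * I + 1) :
    OddCyc m B I (QP m B c) (QR m B c) (QS m B c) c := by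
  have hfix : gsh^[2 * I + 1] (x 1) = x 1 := by
    have := isPeriodicPt_minimalPeriod gsh (x 1)
    rw [hL] at this
    exact this
  have hper := x_per h hfix
  have hper2 : ∀ k, x (k + 2 * (2 * I + 1)) = x k := by
    intro k
    rw [show k + 2 * (2 * I + 1) = (k + (2 * I + 1)) + (2 * I + 1) by ring, hper, hper]
  have h20 : x (2 * (2 * I + 1)) = x 0 := by have := hper2 0; rwa [zero_add] at this
  obtain ⟨z1, z2, z3⟩ := state_eq h h20
  exact {
    hP := fun k _ => QP_succ k
    hR := fun k _ => QR_succ k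
    hS := fun k _ => QS_succ k
    P0 := z1
    R0 := z2
    S0 := z3
    Spos := fun k _ => (inv_of h k).Spos
    Ppos0 := hm
    cpos := fun k _ => (inv_of h k).cpos
    Pm := rfl
    RB := rfl
    S1 := rfl
    perP := fun k _ => (state_eq h (hper k)).1
    perR := fun k _ => (state_eq h (hper k)).2.1
    perS := fun k _ => (state_eq h (hper k)).2.2
    perc := fun k _ => c_eq h (hper k)
    Pone := by
      intro i hi hi0 hone
      rw [add_comm, QP_succ] at hone
      by_cases hlt : 2 * i < 2 * I + 1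
      · exact S_ne_one h hL (by omega) hlt hone
      · have e : QS m B c (2 * i) = QS m B c (2 * i - (2 * I + 1)) := by
          have := (state_eq h (hper (2 * i - (2 * I + 1)))).2.2
          rw [Nat.sub_add_cancel (by omega)] at this
          exact this
        rw [e] at hone
        exact S_ne_one h hL (by omega) (by omega) hone }

/-- cycles of length five -/
theorem par_five (h : Data m B s x c) (hL : minimalPeriod gsh (x 1) = 5) :
    E5.Par (c 1) (c 2) (c 0) m (QS m B c 2) := by
  have hfix : gsh^[5] (x 1) = x 1 := by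
    have := isPeriodicPt_minimalPeriod gsh (x 1)
    rw [hL] at this
    exact this
  have hper := x_per h hfix
  obtain ⟨p1, -, -, -⟩ := palin h hper 2 3 rfl
  have s2 := QS_succ (m := m) (B := B) (c := c) 1
  have s3 := QS_succ (m := m) (B := B) (c := c) 2
  have r2 := QR_succ (m := m) (B := B) (c := c) 1
  have q1 := QP_succ (m := m) (B := B) (c := c) 0
  have q2 := QP_succ (m := m) (B := B) (c := c) 1
  rw [QR_one h, QS_one h] at r2
  rw [QS_one h] at q2
  rw [QS_zero] at q1
  have e0 := c_zero h
  exact {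
    ha := (inv_of h 1).cpos
    hb := (inv_of h 2).cpos
    hB := (inv_of h 0).cpos
    hm := by
      have h1 := (inv_of h 1).Spos
      have h2 := S_ne_one h hL (j := 1) (by norm_num) (by norm_num)
      rw [QS_one h] at h1 h2
      omega
    hm' := by
      have h1 := (inv_of h 2).Spos
      have h2 := S_ne_one h hL (j := 2) (by norm_num) (by norm_num)
      omega
    e1 := by
      have s2' := s2
      rw [show QP m B c 1 = 1 from q1, QR_one h, QS_one h] at s2'
      rw [e0]
      exact s2'
    e2 := by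
      have s3' := s3
      rw [show QP m B c 2 = m from q2, show QR m B c 2 = 2 * (c 1) * m - B from r2] at s3'
      rw [show QS m B c (2 + 1) = QS m B c 2 from p1] at s3'
      rw [e0]
      linarith }

/-- a squarefree integer whose `ω_d` has period length five -/
theorem exists_par_five (d : ℕ) (h1 : 1 < d) (hsq : Squarefree d)
    (hper : minimalPeriod gsh (gsh (omg d)) = 5) :
    ∃ (a b B : ℕ) (m m' : ℤ), E5.Par a b B m m' ∧
      ((d % 4 = 1 ∧ (d : ℤ) = (B : ℤ) ^ 2 + 4 * m ∧ B % 2 = 1) ∨
       (d % 4 ≠ 1 ∧ 4 * (d : ℤ) = (B : ℤ) ^ 2 + 4 * m ∧ B % 2 = 0)) := by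
  obtain ⟨m, B, s, x, c, h, hx1, hm, hB, hd⟩ := exists_data d h1 hsq
  rw [← hx1] at hper
  refine ⟨c 1, c 2, c 0, m, _, par_five h hper, ?_⟩
  have e0 := c_zero h
  rw [e0]
  rcases hd with ⟨a1, a2, a3⟩ | ⟨a1, a2, a3⟩
  · exact Or.inl ⟨a1, a2, by omega⟩
  · exact Or.inr ⟨a1, a2, by omega⟩

end Pool.Agent.LibH4.CFO
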