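import Mathlib

/-!
Period four: the parameters of the cycle `(B; a, b, a)`.
-/

namespace Pool.Agent.Lib_helper5.E4

/-- parameters of a cycle of length four -/
structure Par (a b B : ℕ) (m r : ℤ) : Prop where
  ha : 1 ≤ a
  hb : 1 ≤ b
  hB : 1 ≤ B
  hm : 1 < m
  hr : 1 < r
  e1 : r = 1 + B * a - m * (a : ℤ) ^ 2
  e2 : (b : ℤ) * r = 2 * a * m - B

end Pool.Agent.Lib_helper5.E4
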