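import Pool.Agent.Lib_helper4.CFPeriod
import Pool.Agent.Lib_helper5.ConesOdd

/-!
The cycle of forms attached to the continued fraction of `ω_d`, for any period length.
-/

namespace Pool.Agent.LibH4.CFO

open Real Function Pool.Agent.Lib_helper5

/-- state of the continued fraction algorithm -/
def qst (m B : ℤ) (c : ℕ → ℕ) : ℕ → ℤ × ℤ × ℤ
  | 0 => (m, B, 1)
  | k + 1 => ((qst m B c k).2.2, 2 * c k * (qst m B c k).2.2 - (qst m B c k).2.1,
      (qst m B c k).1 + (qst m B c k).2.1 * c k - (qst m B c k).2.2 * (c k : ℤ) ^ 2)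

/-- first coefficient -/
def QP (m B : ℤ) (c : ℕ → ℕ) (k : ℕ) : ℤ := (qst m B c k).1
/-- middle coefficient -/
def QR (m B : ℤ) (c : ℕ → ℕ) (k : ℕ) : ℤ := (qst m B c k).2.1
/-- last coefficient -/
def QS (m B : ℤ) (c : ℕ → ℕ) (k : ℕ) : ℤ := (qst m B c k).2.2

/-- the data of a continued fraction expansion of `(B + s) / 2` -/
structure Data (m B : ℤ) (s : ℝ) (x : ℕ → ℝ) (c : ℕ → ℕ) : Prop where
  irr : Irrational s
  sq : s ^ 2 = ((B ^ 2 + 4 * m : ℤ) : ℝ)
  x0 : x 0 = (B + s) / 2
  step : ∀ k, x (k + 1) = gsh (x k)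
  fl : ∀ k, (c k : ℤ) = ⌊x k⌋
  Bs : (B : ℝ) < s
  sB : s < B + 2
  x0pos : 1 < x 0

section
variable {m B : ℤ} {s : ℝ} {x : ℕ → ℝ} {c : ℕ → ℕ}

lemma QP_succ (k : ℕ) : QP m B c (k + 1) = QS m B c k := rfl
lemma QR_succ (k : ℕ) : QR m B c (k + 1) = 2 * c k * QS m B c k - QR m B c k := rfl
lemma QS_succ (k : ℕ) :
    QS m B c (k + 1) = QP m B c k + QR m B c k * c k - QS m B c k * (c k : ℤ) ^ 2 := rfl

/-- the invariants -/
structure Inv (m B : ℤ) (s : ℝ) (x : ℕ → ℝ) (c : ℕ → ℕ) (k : ℕ) : Prop where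
  Spos : 0 < QS m B c k
  disc : QR m B c k ^ 2 + 4 * QP m B c k * QS m B c k = B ^ 2 + 4 * m
  xe : x k = (QR m B c k + s) / (2 * QS m B c k)
  Rs : (QR m B c k : ℝ) < s
  sR : s < QR m B c k + 2 * QS m B c k
  x1 : 1 < x k
  xi : Irrational (x k)
  cpos : 1 ≤ c k
  frac : s - QR m B c (k + 1) < 2 * QS m B c k
  par : QR m B c k % 2 = B % 2

lemma inv_of (h : Data m B s x c) (k : ℕ) : Inv m B s x c k := by
  have frac_of : ∀ k, 0 < QS m B c k → x k = (QR m B c k + s) / (2 * QS m B c k) →
      s - QR m B c (k + 1) < 2 * QS m B c k ∧ 0 < s - QR m B c (k + 1) := by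
    intro k hS hx
    have hS' : (0 : ℝ) < QS m B c k := by exact_mod_cast hS
    have h1 : x k < ⌊x k⌋ + 1 := Int.lt_floor_add_one _
    have h2 := Int.floor_le (x k)
    rw [← h.fl k, hx] at h1 h2
    rw [div_lt_iff₀ (by positivity)] at h1
    rw [le_div_iff₀ (by positivity)] at h2
    rw [QR_succ]
    push_cast at h1 h2 ⊢
    refine ⟨by linarith, ?_⟩
    have h3 : s - (2 * c k * QS m B c k - QR m B c k) ≠ 0 := by
      intro h0
      apply h.irr
      refine ⟨((2 * c k * QS m B c k - QR m B c k : ℤ) : ℚ), ?_⟩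
      push_cast
      linarith
    have h4 : 0 ≤ s - (2 * c k * QS m B c k - QR m B c k) := by linarith
    exact lt_of_le_of_ne h4 (Ne.symm h3)
  have cpos_of : ∀ k, 1 < x k → 1 ≤ c k := by
    intro k hk
    have : (1 : ℤ) ≤ ⌊x k⌋ := Int.le_floor.2 (by push_cast; exact hk.le)
    rw [← h.fl k] at this
    exact_mod_cast this
  induction k with
  | zero =>
    have e : x 0 = (QR m B c 0 + s) / (2 * QS m B c 0) := by
      rw [h.x0]
      change _ = ((B : ℤ) + s) / (2 * ((1 : ℤ) : ℝ))
      push_cast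
      rw [mul_one]
    have hi : Irrational (x 0) := by
      rw [h.x0]
      have := (h.irr.intCast_add B).div_natCast (m := 2) (by norm_num)
      exact_mod_cast this
    exact {
      Spos := by change (0 : ℤ) < 1; norm_num
      disc := by change B ^ 2 + 4 * m * 1 = _; ring
      xe := e
      Rs := h.Bs
      sR := by
        change s < (B : ℝ) + 2 * ((1 : ℤ) : ℝ)
        push_cast
        linarith [h.sB]
      x1 := h.x0pos
      xi := hi
      cpos := cpos_of 0 h.x0pos
      frac := (frac_of 0 (by change (0 : ℤ) < 1; norm_num) e).1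
      par := rfl }
  | succ k ih =>
    obtain ⟨hS, hD, hx, hRs, hsR, hx1, hxi, hc, hfr, hpar⟩ := ih
    obtain ⟨p1, p2, p3⟩ := gsh_pos hxi
    rw [← h.step k] at p1 p2 p3
    rw [← h.fl k] at p3
    have hS' : (0 : ℝ) < QS m B c k := by exact_mod_cast hS
    have hc' : (1 : ℝ) ≤ c k := by exact_mod_cast hc
    obtain ⟨-, hpos⟩ := frac_of k hS hx
    have y0 : x (k + 1) ≠ 0 := by positivity
    have hR' : (QR m B c (k + 1) : ℝ) = 2 * c k * QS m B c k - QR m B c k := by
      rw [QR_succ]; push_cast; ring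
    have e1 : x (k + 1) * (s - QR m B c (k + 1)) = 2 * QS m B c k := by
      have e2 : (QR m B c k + s) / (2 * QS m B c k) - c k =
          (s - QR m B c (k + 1)) / (2 * QS m B c k) := by
        rw [hR']; field_simp; ring
      have e3 : (x (k + 1))⁻¹ = (s - QR m B c (k + 1)) / (2 * QS m B c k) := by
        rw [← e2, ← hx]
        push_cast at p3
        linarith
      have e4 : x (k + 1) * (x (k + 1))⁻¹ = 1 := mul_inv_cancel₀ y0
      rw [e3] at e4
      field_simp at e4
      linarith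
    have dI : QR m B c (k + 1) ^ 2 + 4 * QP m B c (k + 1) * QS m B c (k + 1) = B ^ 2 + 4 * m := by
      rw [← hD, QR_succ, QP_succ, QS_succ]; ring
    have dR : (s - QR m B c (k + 1)) * (s + QR m B c (k + 1)) =
        4 * QS m B c k * QS m B c (k + 1) := by
      have := congrArg (fun z : ℤ => (z : ℝ)) dI
      rw [QP_succ] at this
      push_cast at this
      have hs := h.sq
      push_cast at hs
      linear_combination hs - this
    have hsum : 2 * (QS m B c k : ℝ) < s + QR m B c (k + 1) := by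
      rw [hR']
      have : (QS m B c k : ℝ) ≤ c k * QS m B c k := by nlinarith
      linarith
    have hSS : (0 : ℝ) < QS m B c (k + 1) := by
      by_contra hneg
      push Not at hneg
      have h1 : 0 < (s - QR m B c (k + 1)) * (s + QR m B c (k + 1)) :=
        mul_pos hpos (by linarith)
      rw [dR] at h1
      nlinarith
    have hxe : x (k + 1) = (QR m B c (k + 1) + s) / (2 * QS m B c (k + 1)) := by
      rw [eq_div_iff (by positivity)]
      have h1 : 2 * (QS m B c k : ℝ) * (x (k + 1) * (2 * QS m B c (k + 1))) =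
          2 * QS m B c k * (QR m B c (k + 1) + s) := by
        linear_combination (s + QR m B c (k + 1)) * e1 - x (k + 1) * dR
      exact mul_left_cancel₀ (by positivity) h1
    have hSI : 0 < QS m B c (k + 1) := by exact_mod_cast hSS
    exact {
      Spos := hSI
      disc := dI
      xe := hxe
      Rs := by linarith
      sR := by
        by_contra hneg
        push Not at hneg
        have h1 : 2 * (QS m B c (k + 1) : ℝ) ≤ s - QR m B c (k + 1) := by linarith
        have h2 : 2 * (QS m B c (k + 1) : ℝ) * (s + QR m B c (k + 1)) ≤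
            (s - QR m B c (k + 1)) * (s + QR m B c (k + 1)) :=
          mul_le_mul_of_nonneg_right h1 (by linarith)
        rw [dR] at h2
        nlinarith
      x1 := p1
      xi := p2
      cpos := cpos_of _ p1
      frac := (frac_of _ hSI hxe).1
      par := by rw [QR_succ, mul_assoc]; omega }

/-- equal complete quotients have equal states -/
lemma state_eq (h : Data m B s x c) {j k : ℕ} (hjk : x j = x k) :
    QP m B c j = QP m B c k ∧ QR m B c j = QR m B c k ∧ QS m B c j = QS m B c k := by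
  have ij := inv_of h j
  have ik := inv_of h k
  have hSj : (0 : ℝ) < QS m B c j := by exact_mod_cast ij.Spos
  have hSk : (0 : ℝ) < QS m B c k := by exact_mod_cast ik.Spos
  have e := hjk
  rw [ij.xe, ik.xe, div_eq_div_iff (by positivity) (by positivity)] at e
  have e1 : ((QR m B c j * QS m B c k - QR m B c k * QS m B c j : ℤ) : ℝ) +
      s * ((QS m B c k - QS m B c j : ℤ) : ℝ) = 0 := by
    push_cast
    linear_combination e / 2
  obtain ⟨h1, h2⟩ := irr_lin h.irr e1
  have hS : QS m B c j = QS m B c k := by linarith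
  rw [hS] at h2
  have hR : QR m B c j = QR m B c k := by
    have h3 : (QR m B c j - QR m B c k) * QS m B c k = 0 := by linarith
    rcases mul_eq_zero.1 h3 with h4 | h4
    · linarith
    · have := ik.Spos; omega
  refine ⟨?_, hR, hS⟩
  have h3 := ij.disc
  have h4 := ik.disc
  rw [hR, hS] at h3
  have h5 : (QP m B c j - QP m B c k) * QS m B c k = 0 := by linarith
  rcases mul_eq_zero.1 h5 with h6 | h6
  · linarith
  · have := ik.Spos; omega

lemma x_eq_of_state (h : Data m B s x c) {j k : ℕ} (hR : QR m B c j = QR m B c k)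
    (hS : QS m B c j = QS m B c k) : x j = x k := by
  rw [(inv_of h j).xe, (inv_of h k).xe, hR, hS]

lemma int_eq_of {S a b : ℤ} {s : ℝ} (t : ℤ) (hab : a - b = 2 * t * S)
    (ha : (a : ℝ) < s) (ha' : s < a + 2 * S) (hb : (b : ℝ) < s) (hb' : s < b + 2 * S) : t = 0 := by
  have h1 : ((a - b : ℤ) : ℝ) < 2 * S := by push_cast; linarith
  have h2 : -(2 * S : ℝ) < ((a - b : ℤ) : ℝ) := by push_cast; linarith
  have h3 : a - b < 2 * S := by exact_mod_cast h1
  have h4 : -(2 * S) < a - b := by exact_mod_cast h2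
  have hS : 0 < S := by linarith
  rw [hab] at h3 h4
  have h5 : t < 1 := by
    by_contra hc
    push Not at hc
    nlinarith
  have h6 : -1 < t := by
    by_contra hc
    push Not at hc
    nlinarith
  omega

/-- one step back -/
lemma back (h : Data m B s x c) {j k : ℕ} (hjk : x (j + 1) = x (k + 1)) : x j = x k := by
  obtain ⟨hP, hR, -⟩ := state_eq h hjk
  have ij := inv_of h j
  have ik := inv_of h k
  rw [QP_succ, QP_succ] at hP
  rw [QR_succ, QR_succ, hP] at hR
  have sj := ij.sR
  rw [hP] at sj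
  have ht := int_eq_of (S := QS m B c k) (a := QR m B c j) (b := QR m B c k)
    ((c j : ℤ) - c k) (by linear_combination -hR) ij.Rs sj ik.Rs ik.sR
  have hc : (c j : ℤ) = c k := by linarith
  rw [hc] at hR
  exact x_eq_of_state h (by linarith) hP

lemma iter (h : Data m B s x c) (k j : ℕ) : gsh^[k] (x j) = x (j + k) := by
  induction k with
  | zero => rfl
  | succ k ih => rw [iterate_succ_apply', ih, ← h.step]; rfl

/-- periodicity from the start -/
lemma x_per (h : Data m B s x c) {L : ℕ} (hL : gsh^[L] (x 1) = x 1) (k : ℕ) :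
    x (k + L) = x k := by
  have h0 : x (0 + L) = x 0 := by
    apply back h
    rw [iter h, add_comm] at hL
    rw [zero_add]
    exact hL
  induction k with
  | zero => exact h0
  | succ k ih =>
    rw [show k + 1 + L = (k + L) + 1 by ring, h.step, ih, ← h.step]

lemma c_eq (h : Data m B s x c) {j k : ℕ} (hjk : x j = x k) : c j = c k := by
  have h1 := h.fl j
  rw [hjk, ← h.fl k] at h1
  exact_mod_cast h1

/-- the last coefficient is one only at multiples of the period -/
lemma S_ne_one (h : Data m B s x c) {L : ℕ} (hL : minimalPeriod gsh (x 1) = L) {j : ℕ}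
    (hj : 0 < j) (hjL : j < L) : QS m B c j ≠ 1 := by
  intro h1
  have ij := inv_of h j
  have i0 := inv_of h 0
  have hpar := ij.par
  have S0 : QS m B c 0 = 1 := rfl
  have R0 : QR m B c 0 = B := rfl
  obtain ⟨t, ht⟩ : ∃ t, QR m B c j - B = 2 * t * 1 := ⟨(QR m B c j - B) / 2, by omega⟩
  have sj := ij.sR
  rw [h1] at sj
  have ht0 := int_eq_of t ht ij.Rs sj h.Bs (by push_cast; linarith [h.sB])
  have hR : QR m B c j = QR m B c 0 := by rw [R0]; rw [ht0] at ht; linarith
  have hx := x_eq_of_state h hR (by rw [h1, S0])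
  have hx1 : gsh^[j] (x 1) = x 1 := by
    rw [iter h, add_comm, h.step, hx, ← h.step]
  have := IsPeriodicPt.minimalPeriod_le hj hx1
  omega

/-- the palindrome -/
lemma palin (h : Data m B s x c) {L : ℕ} (hper : ∀ k, x (k + L) = x k) (k j : ℕ)
    (hkj : k + j = L) : QS m B c j = QS m B c k ∧ QR m B c j = QR m B c (k + 1) ∧
      QP m B c j = QS m B c (k + 1) ∧ c j = c k := by
  have key : ∀ k j, k + j = L → QP m B c (j + 1) = QS m B c k ∧ QR m B c (j + 1) = QR m B c k ∧
      QS m B c (j + 1) = QP m B c k ∧ QS m B c j = QS m B c k ∧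
      QR m B c j = QR m B c (k + 1) ∧ QP m B c j = QS m B c (k + 1) ∧ c j = c k := by
    intro k
    induction k with
    | zero =>
      intro j hj
      rw [zero_add] at hj
      subst hj
      have e0 : x j = x 0 := by have := hper 0; rwa [zero_add] at this
      have hc0 : (c 0 : ℤ) = B := by
        rw [h.fl 0, h.x0, Int.floor_eq_iff]
        constructor
        · linarith [h.Bs]
        · linarith [h.sB]
      obtain ⟨a1, a2, a3⟩ := state_eq h e0
      have b1 : QS m B c 0 = 1 := rfl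
      have b2 : QR m B c 0 = B := rfl
      have b3 : QP m B c 0 = m := rfl
      have c1 := c_eq h e0
      have hcj : (c j : ℤ) = B := by rw [c1]; exact hc0
      have d1 : QR m B c (0 + 1) = B := by rw [QR_succ, hc0, b1, b2]; ring
      have d2 : QS m B c (0 + 1) = m := by rw [QS_succ, hc0, b1, b2, b3]; ring
      refine ⟨?_, ?_, ?_, a3, ?_, ?_, c1⟩
      · rw [QP_succ, a3]
      · rw [QR_succ, hcj, a2, a3, b1, b2]; ring
      · rw [QS_succ, hcj, a1, a2, a3, b1, b2, b3]; ring
      · rw [a2, d1, b2]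
      · rw [a1, d2, b3]
    | succ k ih =>
      intro j hj
      obtain ⟨p1, p2, p3, p4, p5, p6, p7⟩ := ih (j + 1) (by omega)
      -- from index `k` with partner `j+1`
      have ij := inv_of h j
      have ik := inv_of h (k + 1)
      have r1 : QP m B c (j + 1) = QS m B c (k + 1) := p6
      have r2 : QR m B c (j + 1) = QR m B c (k + 1) := p5
      have r3 : QS m B c (j + 1) = QP m B c (k + 1) := by rw [QP_succ]; exact p4
      have s1 : QS m B c j = QS m B c (k + 1) := by rw [← r1, QP_succ]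
      have hb : QR m B c j = 2 * c j * QS m B c (k + 1) - QR m B c (k + 1) := by
        have := QR_succ (m := m) (B := B) (c := c) j
        rw [r2, s1] at this
        linarith
      have hb2 := QR_succ (m := m) (B := B) (c := c) (k + 1)
      have sj := ij.sR
      rw [s1] at sj
      have ik2 := inv_of h (k + 1 + 1)
      have hfr := ik.frac
      have ht := int_eq_of (S := QS m B c (k + 1)) (a := QR m B c j)
        (b := QR m B c (k + 1 + 1)) ((c j : ℤ) - c (k + 1))
        (by rw [hb, hb2]; ring) ij.Rs sj ik2.Rs (by linarith)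
      have hc : c j = c (k + 1) := by
        have : (c j : ℤ) = c (k + 1) := by linarith
        exact_mod_cast this
      have t1 : QR m B c j = QR m B c (k + 1 + 1) := by rw [hb, hb2, hc]
      have t2 : QP m B c j = QS m B c (k + 1 + 1) := by
        have h3 := ij.disc
        have h4 := ik2.disc
        rw [t1, s1] at h3
        rw [QP_succ] at h4
        have h5 : (QP m B c j - QS m B c (k + 1 + 1)) * QS m B c (k + 1) = 0 := by linarith
        rcases mul_eq_zero.1 h5 with h6 | h6
        · linarith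
        · have := ik.Spos; omega
      exact ⟨r1, r2, r3, s1, t1, t2, hc⟩
  obtain ⟨-, -, -, p4, p5, p6, p7⟩ := key k j hkj
  exact ⟨p4, p5, p6, p7⟩

end

/-- the data attached to a squarefree integer -/
theorem exists_data (d : ℕ) (h1 : 1 < d) (hsq : Squarefree d) :
    ∃ (m B : ℤ) (s : ℝ) (x : ℕ → ℝ) (c : ℕ → ℕ), Data m B s x c ∧ x 1 = gsh (omg d) ∧
      0 < m ∧ 1 ≤ B ∧
      ((d % 4 = 1 ∧ (d : ℤ) = B ^ 2 + 4 * m ∧ B % 2 = 1) ∨
       (d % 4 ≠ 1 ∧ 4 * (d : ℤ) = B ^ 2 + 4 * m ∧ B % 2 = 0)) := by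
  have hirr := irrational_sqrt_sqfree h1 hsq
  obtain ⟨s, σ, D, hs, hD, hω, hσ, hs0⟩ : ∃ (s : ℝ) (σ D : ℤ), Irrational s ∧ s ^ 2 = D ∧
      omg d = (σ + s) / 2 ∧ ((d % 4 = 1 ∧ σ = 1 ∧ D = d) ∨ (d % 4 ≠ 1 ∧ σ = 0 ∧ D = 4 * d)) ∧
      0 < s := by
    have hpos : 0 < √(d : ℝ) := sqrt_pos.2 (by positivity)
    by_cases h4 : d % 4 = 1
    · refine ⟨√(d : ℝ), 1, d, hirr, ?_, ?_, Or.inl ⟨h4, rfl, rfl⟩, hpos⟩
      · rw [sq_sqrt (by positivity)]; push_cast; rfl
      · unfold omg; rw [if_pos h4]; push_cast; ring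
    · refine ⟨2 * √(d : ℝ), 0, 4 * d, ?_, ?_, ?_, Or.inr ⟨h4, rfl, rfl⟩, by positivity⟩
      · have := hirr.natCast_mul (m := 2) (by norm_num)
        exact_mod_cast this
      · rw [mul_pow, sq_sqrt (by positivity)]; push_cast; ring
      · unfold omg; rw [if_neg h4]; push_cast; ring
  have hωirr : Irrational (omg d) := by
    rw [hω]
    have := (hs.intCast_add σ).div_natCast (m := 2) (by norm_num)
    exact_mod_cast this
  have hω1 : 1 < omg d := by
    have hd1 : (1 : ℝ) < √(d : ℝ) := by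
      rw [lt_sqrt (by norm_num)]
      have : (1 : ℝ) < d := by exact_mod_cast h1
      linarith
    unfold omg
    split_ifs
    · linarith
    · exact hd1
  obtain ⟨g1, g2, g3⟩ := gsh_pos hωirr
  set q : ℤ := ⌊omg d⌋ with hq
  have hq1 : 1 ≤ q := Int.le_floor.2 (by push_cast; exact hω1.le)
  set B : ℤ := 2 * q - σ with hB
  have hfr : Int.fract (omg d) = (s - B) / 2 := by
    have : Int.fract (omg d) = omg d - q := rfl
    rw [this, hω, hB]; push_cast; ring
  have hf0 : 0 < Int.fract (omg d) := by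
    have : (0 : ℝ) < (gsh (omg d))⁻¹ := by positivity
    unfold gsh at this
    rwa [inv_inv] at this
  have hf1 := Int.fract_lt_one (omg d)
  rw [hfr] at hf0 hf1
  have hσ1 : σ ≤ 1 ∧ 0 ≤ σ := by rcases hσ with ⟨-, h, -⟩ | ⟨-, h, -⟩ <;> omega
  have hB1 : 1 ≤ B := by omega
  have hBR : (1 : ℝ) ≤ B := by exact_mod_cast hB1
  obtain ⟨m, hm⟩ : ∃ m : ℤ, D = B ^ 2 + 4 * m := by
    rcases hσ with ⟨h4, hσ1, hD1⟩ | ⟨h4, hσ0, hD0⟩
    · have hBo : B % 2 = 1 := by omega
      obtain ⟨c, hc⟩ : ∃ c, B = 2 * c + 1 := ⟨B / 2, by omega⟩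
      obtain ⟨k, hk⟩ : ∃ k : ℤ, D = 4 * k + 1 := ⟨D / 4, by omega⟩
      exact ⟨k - c ^ 2 - c, by rw [hk, hc]; ring⟩
    · obtain ⟨c, hc⟩ : ∃ c, B = 2 * c := ⟨B / 2, by omega⟩
      exact ⟨d - c ^ 2, by rw [hD0, hc]; ring⟩
  have hBs : (B : ℝ) < s := by linarith
  have hm0 : 0 < m := by
    have h2 : (B : ℝ) ^ 2 < s ^ 2 := by nlinarith
    rw [hD, hm] at h2
    push_cast at h2
    have h3 : (0 : ℝ) < m := by linarith
    exact_mod_cast h3
  set x0 : ℝ := (B + s) / 2 with hx0
  have hx0i : Irrational x0 := by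
    have := (hs.intCast_add B).div_natCast (m := 2) (by norm_num)
    exact_mod_cast this
  have hx01 : 1 < x0 := by rw [hx0]; linarith
  have hx0fr : Int.fract x0 = Int.fract (omg d) := by
    have : x0 = omg d + ((q - σ : ℤ) : ℝ) := by
      rw [hx0, hω, hB]; push_cast; ring
    rw [this, Int.fract_add_intCast]
  have hgt : ∀ k, Irrational (gsh^[k] x0) ∧ 1 < gsh^[k] x0 := by
    intro k
    induction k with
    | zero => exact ⟨hx0i, hx01⟩
    | succ k ih =>
      rw [iterate_succ_apply']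
      obtain ⟨a1, a2, -⟩ := gsh_pos ih.1
      exact ⟨a2, a1⟩
  refine ⟨m, B, s, fun k => gsh^[k] x0, fun k => ⌊gsh^[k] x0⌋.toNat, ?_, ?_, hm0, hB1, ?_⟩
  · exact {
      irr := hs
      sq := by rw [hD, hm]
      x0 := rfl
      step := fun k => iterate_succ_apply' gsh k x0
      fl := by
        intro k
        have : (0 : ℤ) ≤ ⌊gsh^[k] x0⌋ := Int.le_floor.2 (by
          push_cast; linarith [(hgt k).2])
        exact Int.toNat_of_nonneg this
      Bs := hBs
      sB := by linarith
      x0pos := hx01 }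
  · change gsh x0 = gsh (omg d)
    unfold gsh
    rw [hx0fr]
  · rcases hσ with ⟨h4, hσ1, hD1⟩ | ⟨h4, hσ0, hD0⟩
    · exact Or.inl ⟨h4, by rw [← hm, hD1], by omega⟩
    · exact Or.inr ⟨h4, by rw [← hm, hD0], by omega⟩

end Pool.Agent.LibH4.CFO
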