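import Pool.Agent.Lib_helper4.PeriodThreeMain

/-!
The period three theorem in terms of continued fractions.
-/

namespace Pool.Agent.LibH4

open scoped NumberField
open Real Cone

/-- the Gauss shift on complete quotients -/
noncomputable def gsh (x : ℝ) : ℝ := (Int.fract x)⁻¹

/-- the integral basis element -/
noncomputable def omg (d : ℕ) : ℝ := if d % 4 = 1 then (1 + √(d : ℝ)) / 2 else √(d : ℝ)

/-- `QI d` in the coordinates `4 d = B² + 4m`, `B` even. -/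
lemma exists_equiv_QI_even {d : ℕ} {m B : ℤ} (hd : 4 * (d : ℤ) = B ^ 2 + 4 * m) (h4 : d % 4 ≠ 1)
    (hB : B % 2 = 0) : Nonempty (QI d ≃+* QuadraticAlgebra ℤ m B) := by
  obtain ⟨c, hc⟩ : ∃ c, B = 2 * c := ⟨B / 2, by omega⟩
  have hBq : Bq d = 0 := by simp [Bq, h4]
  have hAq : Aq d = d := by simp [Aq, h4]
  refine ⟨shiftEquiv (Aq d) (Bq d) c m B (by rw [hBq, hc]; ring) ?_⟩
  rw [hAq, hBq]
  have : 4 * m = 4 * ((d : ℤ) - c ^ 2) := by rw [mul_sub, hd, hc]; ring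
  linarith

/-- for even `B` there is no unique factorisation -/
theorem not_ufd_even (a t : ℕ) (ha : 1 ≤ a) (ht : 1 ≤ t) (hB : ((a ^ 2 + 1) * t + a) % 2 = 0)
    [IsDomain (QuadraticAlgebra ℤ ((1 + a * t : ℕ) : ℤ) (((a ^ 2 + 1) * t + a : ℕ) : ℤ))]
    [UniqueFactorizationMonoid
      (QuadraticAlgebra ℤ ((1 + a * t : ℕ) : ℤ) (((a ^ 2 + 1) * t + a : ℕ) : ℤ))] : False := by
  obtain ⟨r, hr⟩ := exists_norm_of_root (m := ((1 + a * t : ℕ) : ℤ))
    (B := (((a ^ 2 + 1) * t + a : ℕ) : ℤ)) Nat.prime_two (x := ((1 + a * t : ℕ) : ℤ)) (by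
      obtain ⟨c, hc⟩ := Nat.dvd_of_mod_eq_zero hB
      rw [hc]
      have h1 : 2 ∣ ((1 + a * t : ℕ) : ℤ) * (((1 + a * t : ℕ) : ℤ) - 1) := by
        have := Int.even_mul_pred_self ((1 + a * t : ℕ) : ℤ)
        exact this.two_dvd
      have h2 : (2 : ℤ) ∣ ((2 * c : ℕ) : ℤ) * ((1 + a * t : ℕ) : ℤ) := by
        push_cast
        exact ⟨c * (1 + a * t), by ring⟩
      have h3 : (((1 + a * t : ℕ) : ℤ)) ^ 2 + ((2 * c : ℕ) : ℤ) * ((1 + a * t : ℕ) : ℤ)
          - ((1 + a * t : ℕ) : ℤ) = ((1 + a * t : ℕ) : ℤ) * (((1 + a * t : ℕ) : ℤ) - 1)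
          + ((2 * c : ℕ) : ℤ) * ((1 + a * t : ℕ) : ℤ) := by ring
      rw [h3]
      exact_mod_cast dvd_add h1 h2)
  have ha' : (1 : ℤ) ≤ a := by exact_mod_cast ha
  have ht' : (1 : ℤ) ≤ t := by exact_mod_cast ht
  have em : ((1 + a * t : ℕ) : ℤ) = 1 + (a : ℤ) * t := by push_cast; ring
  have eB : (((a ^ 2 + 1) * t + a : ℕ) : ℤ) = ((a : ℤ) ^ 2 + 1) * t + a := by push_cast; ring
  have : ∃ r : RC a t, r.norm.natAbs = 2 := by
    have h : ∃ r : QuadraticAlgebra ℤ ((1 + a * t : ℕ) : ℤ) (((a ^ 2 + 1) * t + a : ℕ) : ℤ),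
      r.norm.natAbs = 2 := ⟨r, hr⟩
    rw [em, eB] at h
    exact h
  obtain ⟨ρ, hρ⟩ := this
  have hne : ρ.norm ≠ 0 := by
    intro h
    rw [h] at hρ
    simp at hρ
  rcases norm_isSquare_or_ge a t ha' ht' ρ hne with h | h
  · rw [hρ] at h
    obtain ⟨r, hr⟩ := h
    exact Nat.prime_two.prime.irreducible.not_isSquare ⟨r, hr⟩
  · rw [hρ] at h
    have h2 : a * t ≤ 1 := by
      have : (a : ℤ) * t ≤ 1 := by push_cast at h; linarith
      exact_mod_cast this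
    have h3 : a = 1 := by nlinarith
    have h4 : t = 1 := by nlinarith
    subst h3 h4
    norm_num at hB

section CF

lemma gsh_pos {x : ℝ} (hx : Irrational x) : 1 < gsh x ∧ Irrational (gsh x) ∧
    x = ⌊x⌋ + (gsh x)⁻¹ := by
  have hf : Irrational (Int.fract x) := by
    unfold Int.fract
    exact hx.sub_intCast _
  have h0 : 0 < Int.fract x := lt_of_le_of_ne (Int.fract_nonneg x) (fun h => hf.ne_zero h.symm)
  have h1 : Int.fract x < 1 := Int.fract_lt_one x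
  refine ⟨(one_lt_inv₀ h0).2 h1, hf.inv, ?_⟩
  unfold gsh
  rw [inv_inv]
  exact (Int.floor_add_fract x).symm

lemma irr_lin {s : ℝ} (hs : Irrational s) {A C : ℤ} (h : (A : ℝ) + s * C = 0) : C = 0 ∧ A = 0 := by
  have hC : C = 0 := by
    by_contra hC
    have hC' : (C : ℝ) ≠ 0 := by exact_mod_cast hC
    apply hs
    refine ⟨-(A : ℚ) / C, ?_⟩
    push_cast
    field_simp
    linarith
  subst hC
  refine ⟨rfl, ?_⟩
  simpa using h

/-- arithmetic of a complete quotient of period three -/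
lemma cf_alg {s x1 x2 x3 : ℝ} (hs : Irrational s) {D σ q0 q1 q2 q3 : ℤ} (hD : s ^ 2 = D)
    (h0 : (σ + s) / 2 = q0 + x1⁻¹) (h1 : x1 = q1 + x2⁻¹) (h2 : x2 = q2 + x3⁻¹)
    (h3 : x3 = q3 + x1⁻¹) (p1 : 1 < x1) (p2 : 1 < x2) (p3 : 1 < x3) (hq1 : 1 ≤ q1) (hq2 : 1 ≤ q2)
    (_hq3 : 1 ≤ q3) :
    q1 = q2 ∧ q3 = 2 * q0 - σ ∧ (q1 ^ 2 + 1) * (D - q3 ^ 2) = 4 * (q1 * q3 + 1) := by
  have e1 : x1 ≠ 0 := by positivity
  have e2 : x2 ≠ 0 := by positivity
  have e3 : x3 ≠ 0 := by positivity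
  set z : ℝ := x1⁻¹ with hz
  have hz1 : z * x1 = 1 := inv_mul_cancel₀ e1
  have k2 : x2 * x3 = q2 * x3 + 1 := by
    rw [h2]; field_simp
  have k1 : x1 * x2 = q1 * x2 + 1 := by
    rw [h1]; field_simp
  -- x1 * (q2 x3 + 1) = q1 (q2 x3 + 1) + x3
  have k3 : x1 * (q2 * x3 + 1) = q1 * (q2 * x3 + 1) + x3 := by
    rw [← k2]
    linear_combination x3 * k1
  have k4 : (q1 * q2 + 1) * z ^ 2 + ((q1 * q2 + 1) * q3 + q1 - q2) * z - (q2 * q3 + 1) = 0 := by
    have k5 : q2 * x3 + 1 = z * (q1 * (q2 * x3 + 1) + x3) := by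
      rw [← k3, ← mul_assoc, hz1, one_mul]
    rw [h3] at k5
    linear_combination (-1) * k5
  have k6 : 2 * z = ((σ - 2 * q0 : ℤ) : ℝ) + s := by
    push_cast
    linear_combination (-2) * h0
  set u : ℤ := σ - 2 * q0 with hu
  have k7 : (((q1 * q2 + 1) * (u ^ 2 + D) + 2 * ((q1 * q2 + 1) * q3 + q1 - q2) * u
      - 4 * (q2 * q3 + 1) : ℤ) : ℝ)
      + s * (((2 * (q1 * q2 + 1) * u + 2 * ((q1 * q2 + 1) * q3 + q1 - q2) : ℤ)) : ℝ) = 0 := by
    have k8 : z = ((u : ℝ) + s) / 2 := by linarith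
    rw [k8] at k4
    push_cast
    linear_combination 4 * k4 - (q1 * q2 + 1) * hD
  obtain ⟨k8, k9⟩ := irr_lin hs k7
  have k10 : (q1 * q2 + 1) * (u + q3) = q2 - q1 := by linarith
  have k11 : u + q3 = 0 := by
    by_contra hne
    have hα : 0 < q1 * q2 + 1 := by positivity
    rcases lt_or_gt_of_ne hne with h | h
    · have : (q1 * q2 + 1) * (u + q3) ≤ -(q1 * q2 + 1) := by nlinarith
      nlinarith
    · have : (q1 * q2 + 1) ≤ (q1 * q2 + 1) * (u + q3) := by nlinarith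
      nlinarith
  have k12 : q1 = q2 := by
    rw [k11] at k10
    linarith
  refine ⟨k12, by linarith, ?_⟩
  subst k12
  have k13 : q3 = -u := by linarith
  rw [k13] at k9 ⊢
  linarith

lemma irrational_sqrt_sqfree {d : ℕ} (h1 : 1 < d) (hsq : Squarefree d) : Irrational √(d : ℝ) := by
  rw [irrational_sqrt_natCast_iff]
  rintro ⟨r, hr⟩
  have := hsq r ⟨1, by rw [hr]; ring⟩
  rw [Nat.isUnit_iff] at this
  subst this
  omega

/-- a field of period three belongs to the family -/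
theorem params_of_period (d : ℕ) (h1 : 1 < d) (hsq : Squarefree d)
    (hper : Function.minimalPeriod gsh (gsh (omg d)) = 3) :
    ∃ a t : ℕ, 1 ≤ a ∧ 1 ≤ t ∧
      ((d % 4 = 1 ∧ d = ((a ^ 2 + 1) * t + a) ^ 2 + 4 * (1 + a * t)) ∨
       (d % 4 ≠ 1 ∧ 4 * d = ((a ^ 2 + 1) * t + a) ^ 2 + 4 * (1 + a * t) ∧
        ((a ^ 2 + 1) * t + a) % 2 = 0)) := by
  have hirr := irrational_sqrt_sqfree h1 hsq
  -- uniform description
  obtain ⟨s, σ, D, hs, hD, hω, hσ⟩ : ∃ (s : ℝ) (σ D : ℤ), Irrational s ∧ s ^ 2 = D ∧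
      omg d = (σ + s) / 2 ∧ ((d % 4 = 1 ∧ σ = 1 ∧ D = d) ∨ (d % 4 ≠ 1 ∧ σ = 0 ∧ D = 4 * d)) := by
    by_cases h4 : d % 4 = 1
    · refine ⟨√(d : ℝ), 1, d, hirr, ?_, ?_, Or.inl ⟨h4, rfl, rfl⟩⟩
      · rw [sq_sqrt (by positivity)]; push_cast; rfl
      · unfold omg; rw [if_pos h4]; push_cast; ring
    · refine ⟨2 * √(d : ℝ), 0, 4 * d, ?_, ?_, ?_, Or.inr ⟨h4, rfl, rfl⟩⟩
      · have := hirr.natCast_mul (m := 2) (by norm_num)
        exact_mod_cast this
      · rw [mul_pow, sq_sqrt (by positivity)]; push_cast; ring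
      · unfold omg; rw [if_neg h4]; push_cast; ring
  have hωirr : Irrational (omg d) := by
    rw [hω]
    have := (hs.intCast_add σ).div_natCast (m := 2) (by norm_num)
    exact_mod_cast this
  obtain ⟨p1, i1, f0⟩ := gsh_pos hωirr
  obtain ⟨p2, i2, f1⟩ := gsh_pos i1
  obtain ⟨p3, i3, f2⟩ := gsh_pos i2
  obtain ⟨p4, i4, f3⟩ := gsh_pos i3
  have hperiodic : gsh (gsh (gsh (gsh (omg d)))) = gsh (omg d) := by
    have := Function.isPeriodicPt_minimalPeriod gsh (gsh (omg d))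
    rw [hper] at this
    exact this
  rw [hperiodic] at f3
  set x1 := gsh (omg d) with hx1
  set x2 := gsh x1 with hx2
  set x3 := gsh x2 with hx3
  have g1 : 1 ≤ ⌊x1⌋ := Int.le_floor.2 (by push_cast; exact p1.le)
  have g2 : 1 ≤ ⌊x2⌋ := Int.le_floor.2 (by push_cast; exact p2.le)
  have g3 : 1 ≤ ⌊x3⌋ := Int.le_floor.2 (by push_cast; exact p3.le)
  have hω' : ((σ : ℝ) + s) / 2 = (⌊omg d⌋ : ℝ) + x1⁻¹ := by rw [← hω]; exact f0
  obtain ⟨r1, r2, r3⟩ := cf_alg hs hD hω' f1 f2 f3 p1 p2 p3 g1 g2 g3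
  set a : ℤ := ⌊x1⌋ with ha
  set B : ℤ := ⌊x3⌋ with hB
  -- divisibility by four
  obtain ⟨m, hm⟩ : ∃ m : ℤ, D = B ^ 2 + 4 * m := by
    rcases hσ with ⟨h4, hσ1, hD1⟩ | ⟨h4, hσ0, hD0⟩
    · have hBo : B % 2 = 1 := by omega
      obtain ⟨c, hc⟩ : ∃ c, B = 2 * c + 1 := ⟨B / 2, by omega⟩
      obtain ⟨k, hk⟩ : ∃ k : ℤ, D = 4 * k + 1 := ⟨D / 4, by omega⟩
      exact ⟨k - c ^ 2 - c, by rw [hk, hc]; ring⟩
    · obtain ⟨c, hc⟩ : ∃ c, B = 2 * c := ⟨B / 2, by omega⟩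
      exact ⟨d - c ^ 2, by rw [hD0, hc]; ring⟩
  have r4 : (a ^ 2 + 1) * m = a * B + 1 := by
    rw [hm] at r3
    linarith
  set t : ℤ := B - a * m with ht
  have hBt : B = (a ^ 2 + 1) * t + a := by
    rw [ht]
    linear_combination a * r4
  have hmt : m = 1 + a * t := by
    have hα : (a ^ 2 + 1) ≠ 0 := by positivity
    have : (a ^ 2 + 1) * m = (a ^ 2 + 1) * (1 + a * t) := by
      rw [r4, hBt]; ring
    exact mul_left_cancel₀ hα this
  have ht0 : 0 ≤ t := by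
    by_contra hneg
    push Not at hneg
    have : (a ^ 2 + 1) * t ≤ -(a ^ 2 + 1) := by nlinarith
    nlinarith
  have ht1 : t ≠ 0 := by
    intro h0
    have hBa : B = a := by rw [hBt, h0]; ring
    have hm1 : m = 1 := by rw [hmt, h0]; ring
    -- `x1` is a fixed point
    have hfix : gsh x1 = x1 := by
      have hz : x1⁻¹ = (s - a) / 2 := by
        have e : (B : ℝ) = 2 * (⌊omg d⌋ : ℝ) - σ := by exact_mod_cast r2
        rw [hBa] at e
        linarith
      have hs2 : s ^ 2 = (a : ℝ) ^ 2 + 4 := by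
        rw [hD, hm, hBa, hm1]; push_cast; ring
      have e1 : x1 ≠ 0 := by positivity
      have hfr : Int.fract x1 = x1⁻¹ := by
        have e2 : x1 = a + x1⁻¹ := by
          have e3 : x1⁻¹ * (a + x1⁻¹) = 1 := by
            rw [hz]; linear_combination (1 / 4 : ℝ) * hs2
          have e4 : x1⁻¹ ≠ 0 := inv_ne_zero e1
          have e5 : x1⁻¹ * x1 = 1 := inv_mul_cancel₀ e1
          exact mul_left_cancel₀ e4 (e5.trans e3.symm)
        have e6 : Int.fract x1 = x1 - a := rfl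
        rw [e6]
        linarith
      unfold gsh
      rw [hfr, inv_inv]
    have := Function.minimalPeriod_eq_one_iff_isFixedPt.2 hfix
    rw [this] at hper
    norm_num at hper
  have ht2 : 1 ≤ t := by omega
  refine ⟨a.toNat, t.toNat, by omega, by omega, ?_⟩
  have ea : ((a.toNat : ℕ) : ℤ) = a := Int.toNat_of_nonneg (by omega)
  have et : ((t.toNat : ℕ) : ℤ) = t := Int.toNat_of_nonneg (by omega)
  rcases hσ with ⟨h4, hσ1, hD1⟩ | ⟨h4, hσ0, hD0⟩
  · left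
    refine ⟨h4, ?_⟩
    have : (d : ℤ) = ((((a.toNat) ^ 2 + 1) * t.toNat + a.toNat) ^ 2 + 4 * (1 + a.toNat * t.toNat) : ℕ) := by
      push_cast
      rw [ea, et, ← hBt, ← hmt, ← hm, hD1]
    exact_mod_cast this
  · right
    refine ⟨h4, ?_, ?_⟩
    · have : 4 * (d : ℤ) = ((((a.toNat) ^ 2 + 1) * t.toNat + a.toNat) ^ 2 + 4 * (1 + a.toNat * t.toNat) : ℕ) := by
        push_cast
        rw [ea, et, ← hBt, ← hmt, ← hm, hD0]
      exact_mod_cast this
    · have : ((((a.toNat) ^ 2 + 1) * t.toNat + a.toNat : ℕ) : ℤ) = B := by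
        push_cast
        rw [ea, et, ← hBt]
      omega

/-- the family has period three -/
theorem period_of_params (a t d : ℕ) (ha : 1 ≤ a) (ht : 1 ≤ t)
    (hd : d = ((a ^ 2 + 1) * t + a) ^ 2 + 4 * (1 + a * t)) (hB : ((a ^ 2 + 1) * t + a) % 2 = 1) :
    Function.minimalPeriod gsh (gsh (omg d)) = 3 := by
  set s : ℝ := √(d : ℝ) with hs
  have hs0 : 0 ≤ s := sqrt_nonneg _
  have hs2 : s ^ 2 = d := sq_sqrt (by positivity)
  obtain ⟨B, hBdef⟩ : ∃ B : ℕ, B = (a ^ 2 + 1) * t + a := ⟨_, rfl⟩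
  obtain ⟨m, hmdef⟩ : ∃ m : ℕ, m = 1 + a * t := ⟨_, rfl⟩
  rw [← hBdef] at hd hB
  rw [← hmdef] at hd
  have haR : (1 : ℝ) ≤ a := by exact_mod_cast ha
  have htR : (1 : ℝ) ≤ t := by exact_mod_cast ht
  have hBR : (B : ℝ) = ((a : ℝ) ^ 2 + 1) * t + a := by rw [hBdef]; push_cast; ring
  have hmR : (m : ℝ) = 1 + a * t := by rw [hmdef]; push_cast; ring
  set R : ℝ := (a : ℝ) ^ 2 * t - t + a with hR
  have hdR : s ^ 2 = (B : ℝ) ^ 2 + 4 * m := by rw [hs2, hd]; push_cast; ring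
  have hdR2 : s ^ 2 = R ^ 2 + 4 * (m : ℝ) ^ 2 := by
    rw [hdR, hBR, hmR, hR]; ring
  have hB1 : (1 : ℝ) ≤ B := by rw [hBR]; nlinarith [sq_nonneg (a : ℝ)]
  have hm1 : (1 : ℝ) ≤ m := by rw [hmR]; nlinarith
  have hR1 : (1 : ℝ) ≤ R := by rw [hR]; nlinarith
  have hBs : (B : ℝ) < s := by
    apply lt_of_pow_lt_pow_left₀ 2 hs0
    rw [hdR]; linarith
  have hsB : s < B + 2 := by
    apply lt_of_pow_lt_pow_left₀ 2 (by positivity)
    have : (m : ℝ) < B + 1 := by rw [hmR, hBR]; nlinarith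
    rw [hdR]; nlinarith
  have hRs : R < s := by
    apply lt_of_pow_lt_pow_left₀ 2 hs0
    rw [hdR2]; nlinarith
  have hsR : s < R + 2 * m := by
    apply lt_of_pow_lt_pow_left₀ 2 (by positivity)
    rw [hdR2]; nlinarith
  have hm0 : (m : ℝ) ≠ 0 := by positivity
  have n1 : s - B ≠ 0 := by
    intro h; linarith
  have n2 : s - R ≠ 0 := by
    intro h; linarith
  -- floor data
  have hd4 : d % 4 = 1 := by
    obtain ⟨c, hc⟩ : ∃ c, B = 2 * c + 1 := ⟨B / 2, by omega⟩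
    rw [hd, hc]
    have : (2 * c + 1) ^ 2 + 4 * m = 4 * (c ^ 2 + c + m) + 1 := by ring
    rw [this]
    omega
  have e0 : Int.fract (omg d) = (s - B) / 2 := by
    rw [Int.fract_eq_iff]
    refine ⟨by linarith, by linarith, ?_⟩
    obtain ⟨c, hc⟩ : ∃ c, B = 2 * c + 1 := ⟨B / 2, by omega⟩
    refine ⟨c + 1, ?_⟩
    unfold omg
    rw [if_pos hd4, ← hs, hc]
    push_cast
    ring
  have e1 : gsh (omg d) = (s + B) / (2 * m) := by
    unfold gsh
    rw [e0, inv_div, div_eq_div_iff n1 (by positivity)]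
    linear_combination (-1) * hdR
  have f1 : Int.fract ((s + B) / (2 * m)) = (s - R) / (2 * m) := by
    rw [Int.fract_eq_iff]
    refine ⟨by apply div_nonneg <;> linarith, ?_, a, ?_⟩
    · rw [div_lt_one (by positivity)]; linarith
    · rw [← sub_div, div_eq_iff (by positivity), hR]
      push_cast
      rw [hBR, hmR]
      ring
  have e2 : gsh ((s + B) / (2 * m)) = (s + R) / (2 * m) := by
    unfold gsh
    rw [f1, inv_div, div_eq_div_iff n2 (by positivity)]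
    linear_combination (-1) * hdR2
  have f2 : Int.fract ((s + R) / (2 * m)) = (s - B) / (2 * m) := by
    rw [Int.fract_eq_iff]
    refine ⟨by apply div_nonneg <;> linarith, ?_, a, ?_⟩
    · rw [div_lt_one (by positivity)]; linarith
    · rw [← sub_div, div_eq_iff (by positivity), hR]
      push_cast
      rw [hBR, hmR]
      ring
  have e3 : gsh ((s + R) / (2 * m)) = (s + B) / 2 := by
    unfold gsh
    rw [f2, inv_div, div_eq_div_iff n1 (by positivity)]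
    linear_combination (-1) * hdR
  have f3 : Int.fract ((s + B) / 2) = (s - B) / 2 := by
    rw [Int.fract_eq_iff]
    refine ⟨by linarith, by linarith, B, ?_⟩
    push_cast
    ring
  have e4 : gsh ((s + B) / 2) = (s + B) / (2 * m) := by
    unfold gsh
    rw [f3, inv_div, div_eq_div_iff n1 (by positivity)]
    linear_combination (-1) * hdR
  rw [e1]
  have hp : Function.IsPeriodicPt gsh 3 ((s + B) / (2 * m)) := by
    show gsh (gsh (gsh ((s + B) / (2 * m)))) = (s + B) / (2 * m)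
    rw [e2, e3, e4]
  have hdvd := hp.minimalPeriod_dvd
  rcases (Nat.dvd_prime Nat.prime_three).1 hdvd with h | h
  · exfalso
    rw [Function.minimalPeriod_eq_one_iff_isFixedPt] at h
    have h' : gsh ((s + B) / (2 * m)) = (s + B) / (2 * m) := h
    rw [e2, div_left_inj' (by positivity)] at h'
    have : R = B := by linarith
    rw [hR, hBR] at this
    nlinarith
  · exact h

end CF

/-- class number one and period three -/
theorem period_three_iff (d : ℕ) (h1 : 1 < d) (hsq : Squarefree d) :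
    (Function.minimalPeriod gsh (gsh (omg d)) = 3 ∧ UniqueFactorizationMonoid (𝓞 (KQ d))) ↔
      d ∈ discs := by
  constructor
  · rintro ⟨hper, hU⟩
    obtain ⟨a, t, ha, ht, h | h⟩ := params_of_period d h1 hsq hper
    · exact (periodThree a t d ha ht h.2 hsq).1 hU
    · exfalso
      obtain ⟨h4, hd, hB⟩ := h
      have hd' : 4 * (d : ℤ) = (((a ^ 2 + 1) * t + a : ℕ) : ℤ) ^ 2 + 4 * ((1 + a * t : ℕ) : ℤ) := by
        have := congrArg (fun n : ℕ => (n : ℤ)) hd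
        push_cast at this ⊢
        linarith
      obtain ⟨e⟩ := exists_equiv_QI_even hd' h4 (by exact_mod_cast hB)
      have e' := e.symm.trans (eqvO hsq h1)
      have i1 : IsDomain (QuadraticAlgebra ℤ ((1 + a * t : ℕ) : ℤ)
        (((a ^ 2 + 1) * t + a : ℕ) : ℤ)) := e'.toMulEquiv.isDomain
      have i2 : UniqueFactorizationMonoid (QuadraticAlgebra ℤ ((1 + a * t : ℕ) : ℤ)
        (((a ^ 2 + 1) * t + a : ℕ) : ℤ)) := e'.symm.toMulEquiv.uniqueFactorizationMonoid hU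
      exact not_ufd_even a t ha ht hB
  · intro h
    refine ⟨?_, ufd_of_disc h hsq⟩
    obtain ⟨a, t, hp, hd, hB⟩ := pair_of_disc h
    have hpos : ∀ p ∈ pairs, 1 ≤ p.1 ∧ 1 ≤ p.2 := by decide
    obtain ⟨ha, ht⟩ := hpos _ hp
    exact period_of_params a t d ha ht hd hB

end Pool.Agent.LibH4
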