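import Pool.Agent.Lib_helper4.P5Small

/-!
Period seven: the palindromic cycle `(B; a, b, c, c, b, a)`.
-/

namespace Pool.Agent.LibH4.E7

open Finset (range)
open Pool.Agent.LibH4 Pool.Agent.LibH4.FA Pool.Agent.Lib_helper5 Pool.Agent.Lib_helper5.CG

/-- parameters of a cycle of length seven -/
structure Par (a b c B : ℕ) (m m2 m3 : ℤ) : Prop where
  ha : 1 ≤ a
  hb : 1 ≤ b
  hc : 1 ≤ c
  hB : 1 ≤ B
  hm : 1 < m
  hm2 : 1 < m2
  hm3 : 1 < m3
  e1 : m2 = 1 + B * a - m * (a : ℤ) ^ 2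
  e2 : m3 = m + (2 * a * m - B) * b - m2 * (b : ℤ) ^ 2
  e3 : m3 * (1 + (c : ℤ) ^ 2) = m2 + (2 * b * m2 - (2 * a * m - B)) * c

/-- the first coefficients -/
def P (m m2 m3 : ℤ) (k : ℕ) : ℤ :=
  match k % 7 with
  | 1 => 1
  | 3 => m2
  | 4 => m3
  | 5 => m3
  | 6 => m2
  | _ => m

/-- the middle coefficients -/
def R (a b c B : ℕ) (m m2 m3 : ℤ) (k : ℕ) : ℤ :=
  match k % 7 with
  | 2 => 2 * a * m - B
  | 3 => 2 * b * m2 - (2 * a * m - B)
  | 4 => 2 * c * m3 - (2 * b * m2 - (2 * a * m - B))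
  | 5 => 2 * b * m2 - (2 * a * m - B)
  | 6 => 2 * a * m - B
  | _ => B

/-- the last coefficients -/
def S (m m2 m3 : ℤ) (k : ℕ) : ℤ :=
  match k % 7 with
  | 0 => 1
  | 2 => m2
  | 3 => m3
  | 4 => m3
  | 5 => m2
  | _ => m

/-- the multipliers -/
def C (a b c B : ℕ) (k : ℕ) : ℕ :=
  match k % 7 with
  | 0 => B
  | 2 => b
  | 3 => c
  | 4 => c
  | 5 => b
  | _ => a

variable {a b c B : ℕ} {m m2 m3 : ℤ}

theorem cyc (h : Par a b c B m m2 m3) :
    OddCyc m B 3 (P m m2 m3) (R a b c B m m2 m3) (S m m2 m3) (C a b c B) where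
  hP k hk := by
    have hk' : k < 14 := hk
    clear hk
    interval_cases k <;> rfl
  hR k hk := by
    have hk' : k < 14 := hk
    clear hk
    interval_cases k <;> simp [R, S, C] <;> ring
  hS k hk := by
    have hk' : k < 14 := hk
    have s1 := h.e1
    have s2 := h.e2
    have s3 := h.e3
    clear hk
    interval_cases k <;> simp only [P, R, S, C, Nat.reduceMod, Nat.reduceAdd] <;> linarith
  P0 := rfl
  R0 := rfl
  S0 := rfl
  Spos k hk := by
    have h1 := h.hm
    have h2 := h.hm2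
    have h3 := h.hm3
    unfold S
    split <;> omega
  Ppos0 := by
    have h1 := h.hm
    simp only [P, Nat.zero_mod]
    omega
  cpos k hk := by
    have h1 := h.ha
    have h2 := h.hb
    have h3 := h.hc
    have h4 := h.hB
    unfold C
    split <;> omega
  Pm := rfl
  RB := rfl
  S1 := rfl
  perP k hk := by unfold P; rw [show k + (2 * 3 + 1) = k + 7 by ring, Nat.add_mod_right]
  perR k hk := by unfold R; rw [show k + (2 * 3 + 1) = k + 7 by ring, Nat.add_mod_right]
  perS k hk := by unfold S; rw [show k + (2 * 3 + 1) = k + 7 by ring, Nat.add_mod_right]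
  perc k hk := by unfold C; rw [show k + (2 * 3 + 1) = k + 7 by ring, Nat.add_mod_right]
  Pone i hi hi0 := by
    have h1 := h.hm
    have h2 := h.hm2
    have h3 := h.hm3
    have hi' : i < 7 := hi
    clear hi
    interval_cases i
    · omega
    all_goals simp only [P, Nat.reduceMod, Nat.reduceAdd, Nat.reduceMul]; omega

/-- elements of small norm have square norm -/
lemma isSquare_of_small (h : Par a b c B m m2 m3) {n : ℕ} (hn : n ≠ 0) (h1 : (n : ℤ) < m)
    (h2 : (n : ℤ) < m2) (h3 : (n : ℤ) < m3) (β : QuadraticAlgebra ℤ m (B : ℤ))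
    (hβ : β.norm.natAbs = n) : IsSquare n := by
  have hm0 : 0 < m := by have := h.hm; omega
  have hm1 := h.hm
  have hm2 := h.hm2
  have hm3 := h.hm3
  obtain ⟨k, hk, x, y, hx, hy, he⟩ := P5.odd_repr hm0 (cyc h) β n hn hβ
  have hC := (cyc h).toCycM
  have hk5 : k < 7 := hk
  have hx' : (1 : ℤ) ≤ x := by exact_mod_cast hx
  have hxx : (1 : ℤ) ≤ (x : ℤ) ^ 2 := by nlinarith
  rcases Nat.eq_zero_or_pos y with hy0 | hy0
  · subst hy0
    have he' : P m m2 m3 k * (x : ℤ) ^ 2 = n := by rw [← he]; push_cast; ring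
    have hP : P m m2 m3 k = 1 ∨ P m m2 m3 k = m ∨ P m m2 m3 k = m2 ∨ P m m2 m3 k = m3 := by
      clear hk
      interval_cases k <;> simp [P]
    rcases hP with hP | hP | hP | hP
    · rw [hP, one_mul] at he'
      have : x ^ 2 = n := by exact_mod_cast he'
      exact ⟨x, by rw [← this]; ring⟩
    · exfalso
      rw [hP] at he'
      nlinarith
    · exfalso
      rw [hP] at he'
      nlinarith
    · exfalso
      rw [hP] at he'
      nlinarith
  · exfalso
    have hy1 : (1 : ℤ) ≤ y := by exact_mod_cast hy0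
    have hyc : (y : ℤ) + 1 ≤ C a b c B k * x := by exact_mod_cast hy
    rcases Nat.eq_zero_or_pos k with hk0 | hk0
    · subst hk0
      simp only [P, R, S, C, Nat.zero_mod] at he hyc
      have h1 : m ≤ m * (x : ℤ) ^ 2 := by nlinarith
      have h2 : 0 ≤ (y : ℤ) * (B * x - y) := mul_nonneg (by linarith) (by linarith)
      nlinarith
    · have h4 := E5.edge_gt (hC.cpos k (by omega)) (hC.toCyc.Ppos (by omega)) (hC.Spos k (by omega))
        (hAend hC k (by omega)) hy1 hyc
      rw [he] at h4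
      clear hk
      interval_cases k <;> simp only [S, Nat.reduceMod] at h4 <;> omega

/-- primes below `min m m2 m3` are inert -/
theorem no_root (h : Par a b c B m m2 m3)
    [IsDomain (QuadraticAlgebra ℤ m (B : ℤ))]
    [UniqueFactorizationMonoid (QuadraticAlgebra ℤ m (B : ℤ))]
    {p : ℕ} (hp : p.Prime) (h1 : (p : ℤ) < m) (h2 : (p : ℤ) < m2) (h3 : (p : ℤ) < m3) (x : ℤ) :
    ¬ (p : ℤ) ∣ x ^ 2 + B * x - m := by
  intro hx
  obtain ⟨π, hπ⟩ := exists_norm_of_root hp hx
  obtain ⟨r, hr⟩ := isSquare_of_small h hp.ne_zero h1 h2 h3 π hπ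
  exact hp.prime.irreducible.not_isSquare ⟨r, hr⟩

end Pool.Agent.LibH4.E7
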