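import Pool.Agent.Lib_helper5.P5Rel
import Pool.Agent.Lib_helper5.K4.Sys
import Pool.Agent.Lib_helper4.E7

/-!
Period seven: forms, relations and the system of conditions on the parameters.
-/

namespace Pool.Agent.LibH4.S7

open Finset Pool.Agent.Lib_helper5 Pool.Agent.Lib_helper5.LK Pool.Agent.LibH4
  Pool.Agent.LibH4.Ker Pool.Agent.LibH4.T6 Pool.Agent.LibH4.KF

/-! ### polynomials -/

/-- `m₂` -/
def y2 (a B m : ℤ) : ℤ := 1 + B * a - m * (a * a)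
/-- the second middle coefficient -/
def r2 (a B m : ℤ) : ℤ := 2 * (a * m) - B
/-- `m₃` -/
def y3 (a b B m : ℤ) : ℤ := m + r2 a B m * b - y2 a B m * (b * b)
/-- the third middle coefficient -/
def r3 (a b B m : ℤ) : ℤ := 2 * (b * y2 a B m) - r2 a B m
/-- the fourth middle coefficient -/
def r4 (a b c B m : ℤ) : ℤ := 2 * (c * y3 a b B m) - r3 a b B m
/-- the discriminant -/
def dd (B m : ℤ) : ℤ := B * B + 4 * m

/-- the closing condition -/
def Cl (a b c B m : ℤ) : Prop :=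
  y3 a b B m * (1 + c * c) = y2 a B m + r3 a b B m * c

/-- the forms -/
def J7 (a b c B m : ℤ) : List Fm :=
  [⟨m, B, -1, 0, -B⟩,
   ⟨1, B, -m, 6, -(2 * a)⟩,
   ⟨m, r2 a B m, -y2 a B m, 6, -(2 * b)⟩,
   ⟨y2 a B m, r3 a b B m, -y3 a b B m, 6, -(2 * c)⟩,
   ⟨y3 a b B m, r4 a b c B m, -y3 a b B m, 3, 0⟩]

lemma disc2 (a B m : ℤ) : r2 a B m ^ 2 + 4 * m * y2 a B m = dd B m := by
  unfold r2 y2 dd; ring

lemma disc3 (a b B m : ℤ) : r3 a b B m ^ 2 + 4 * y2 a B m * y3 a b B m = dd B m := by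
  have h := disc2 a B m
  unfold r3 y3
  linear_combination h

lemma disc4 {a b c B m : ℤ} (h : Cl a b c B m) :
    r4 a b c B m ^ 2 + 4 * y3 a b B m * y3 a b B m = dd B m := by
  have h3 := disc3 a b B m
  unfold Cl at h
  unfold r4
  linear_combination h3 + 4 * y3 a b B m * h

lemma J7_ok {a b c B m : ℤ} (h : Cl a b c B m) : JOk (dd B m) (J7 a b c B m) where
  ne := by simp [J7]
  hκ := by
    intro j hj
    simp only [J7, List.mem_cons, List.not_mem_nil, or_false] at hj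
    rcases hj with rfl | rfl | rfl | rfl | rfl <;> simp
  hD := by
    have h2 := disc2 a B m
    have h3 := disc3 a b B m
    have h4 := disc4 h
    intro j hj
    simp only [J7, List.mem_cons, List.not_mem_nil, or_false] at hj
    rcases hj with rfl | rfl | rfl | rfl | rfl
    · simp only [dd]; ring
    · simp only [dd]; ring
    · simp only; linear_combination h2
    · simp only; linear_combination h3
    · simp only; linear_combination h4

/-! ### signs of the parameters -/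

lemma y2_neg (a B m : ℤ) : y2 (-a) (-B) m = y2 a B m := by unfold y2; ring
lemma r2_neg (a B m : ℤ) : r2 (-a) (-B) m = -r2 a B m := by unfold r2; ring
lemma y3_neg (a b B m : ℤ) : y3 (-a) (-b) (-B) m = y3 a b B m := by
  unfold y3; rw [y2_neg, r2_neg]; ring
lemma r3_neg (a b B m : ℤ) : r3 (-a) (-b) (-B) m = -r3 a b B m := by
  unfold r3; rw [y2_neg, r2_neg]; ring
lemma r4_neg (a b c B m : ℤ) : r4 (-a) (-b) (-c) (-B) m = -r4 a b c B m := by
  unfold r4; rw [y3_neg, r3_neg]; ring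
lemma dd_neg (B m : ℤ) : dd (-B) m = dd B m := by unfold dd; ring

lemma Cl.neg {a b c B m : ℤ} (h : Cl a b c B m) : Cl (-a) (-b) (-c) (-B) m := by
  unfold Cl at h ⊢
  rw [y3_neg, y2_neg, r3_neg]
  linear_combination h

lemma Rel_neg {N q : ℕ} [NeZero q] (χ : ZMod q → ZMod N) {a b c B m : ℤ}
    (h : LK.Rel N χ (J7 a b c B m)) : LK.Rel N χ (J7 (-a) (-b) (-c) (-B) m) := by
  unfold LK.Rel J7 at h ⊢
  simp only [List.map_cons, List.map_nil, List.sum_cons, List.sum_nil, add_zero] at h ⊢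
  rw [y2_neg, r2_neg, y3_neg, r3_neg, r4_neg]
  simp only [K5.XX_neg, K5.YX_neg]
  push_cast at h ⊢
  linear_combination (-1 : ZMod N) * h

/-! ### the relations -/

section Main

variable {a b c B : ℕ} {m m2 m3 : ℤ}

lemma y2_eq (h : E7.Par a b c B m m2 m3) : y2 a B m = m2 := by
  unfold y2; rw [h.e1]; ring

lemma r2_eq : r2 a B m = 2 * a * m - B := by unfold r2; ring

lemma y3_eq (h : E7.Par a b c B m m2 m3) : y3 a b B m = m3 := by
  unfold y3; rw [y2_eq h, r2_eq, h.e2]; ring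

lemma r3_eq (h : E7.Par a b c B m m2 m3) :
    r3 a b B m = 2 * b * m2 - (2 * a * m - B) := by
  unfold r3; rw [y2_eq h, r2_eq]; ring

lemma r4_eq (h : E7.Par a b c B m m2 m3) :
    r4 a b c B m = 2 * c * m3 - (2 * b * m2 - (2 * a * m - B)) := by
  unfold r4; rw [y3_eq h, r3_eq h]; ring

lemma cl_of (h : E7.Par a b c B m m2 m3) : Cl a b c B m := by
  unfold Cl
  rw [y3_eq h, y2_eq h, r3_eq h]
  linear_combination h.e3

variable [IsDomain (QuadraticAlgebra ℤ m (B : ℤ))]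
  [UniqueFactorizationMonoid (QuadraticAlgebra ℤ m (B : ℤ))]

/-- primes below `min m m2 m3` are inert -/
theorem inert (h : E7.Par a b c B m m2 m3) {d : ℕ} (hd : (d : ℤ) = (B : ℤ) ^ 2 + 4 * m)
    (h8 : d % 8 = 5) (p : ℕ) (hp : p.Prime) (hp2 : p ≠ 2) (h1 : (p : ℤ) < m) (h2 : (p : ℤ) < m2)
    (h3 : (p : ℤ) < m3) : jacobiSym d p = -1 := by
  by_contra hj
  obtain ⟨x, hx⟩ := exists_root_of_ne hd hp hp2 hj
  exact E7.no_root h hp h1 h2 h3 x hx

/-- inert primes -/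
lemma in_of (h : E7.Par a b c B m m2 m3) {d : ℕ} (hd : (d : ℤ) = (B : ℤ) ^ 2 + 4 * m)
    (h8 : d % 8 = 5) {p : ℕ} (hp : p.Prime) (hp2 : p ≠ 2) (g1 : (p : ℤ) < m) (g2 : (p : ℤ) < m2)
    (g3 : (p : ℤ) < m3) : K5.In p (dd B m) := by
  have h1 := inert h hd h8 p hp hp2 g1 g2 g3
  have : Fact p.Prime := ⟨hp⟩
  have h2 : ((jacobiSym d p : ℤ) : ZMod p) = (d : ZMod p) ^ (p / 2) := by
    rw [← jacobiSym.legendreSym.to_jacobiSym, legendreSym.eq_pow]
    push_cast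
    rfl
  have h3 : ((rs p (dd B m) : ℕ) : ZMod p) = (d : ZMod p) := by
    have e : dd B m = (d : ℤ) := by unfold dd; rw [hd]; ring
    rw [rs_cast, e]
    push_cast
    rfl
  have h4 : (((rs p (dd B m)) ^ (p / 2) : ℕ) : ZMod p) = ((p - 1 : ℕ) : ZMod p) := by
    rw [Nat.cast_pow, h3, ← h2, h1, K5.cast_pred]
    push_cast
    rfl
  have h5 := (ZMod.natCast_eq_natCast_iff' _ _ p).1 h4
  have hp1 := hp.two_le
  rw [Nat.mod_eq_of_lt (show p - 1 < p by omega)] at h5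
  have h6 : Nat.mod (Nat.pow (rs p (dd B m)) (p / 2)) p = p - 1 := h5
  unfold K5.In
  rw [h6]
  exact Nat.beq_refl _

/-- the relations hold -/
theorem rel_of (h : E7.Par a b c B m m2 m3) (hm2 : m % 2 = 1) (hB2 : B % 2 = 1) {d : ℕ}
    (hd : (d : ℤ) = (B : ℤ) ^ 2 + 4 * m) (h8 : d % 8 = 5)
    {q N : ℕ} [NeZero q] (hcop : Nat.Coprime q d) (hN2 : N % 2 = 1) (hNd : Nat.Coprime d N)
    (χ : ZMod q → ZMod N) (hodd : ∀ x, χ (-x) = - χ x) (hmul : ∀ x y, χ (x * y) = χ x * χ y)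
    (hsum : (∑ u ∈ range q, (u : ZMod N) * χ (u : ZMod q)) * (q : ZMod N) = 0) :
    LK.Rel N χ (J7 a b c B m) := by
  have hm0 : 0 < m := by have := h.hm; omega
  have key := odd_T5N m B hm0 hm2 (by exact_mod_cast hB2) (E7.cyc h) hd h8 q N
    (Nat.pos_of_ne_zero (NeZero.ne q)) hcop hN2 hNd χ hodd hmul (by
      intro z
      linear_combination (3 * z) * hsum)
  simp only [KF.range_term] at key
  simp only [Nat.reduceMul, Nat.reduceAdd, Finset.sum_range_succ,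
    Finset.sum_range_zero (M := ZMod N), zero_add, E7.P, E7.R, E7.S, E7.C, Nat.zero_mod,
    Nat.reduceMod] at key
  have s1 : KF.XX χ m B (-1) = KF.XX χ 1 B (-m) := by
    have := KF.XX_swap χ hodd 1 B (-m)
    rw [neg_neg] at this
    exact this
  have s2 : KF.XX χ m2 (2 * a * m - B) (-m) = KF.XX χ m (2 * a * m - B) (-m2) := by
    have := KF.XX_swap χ hodd m (2 * a * m - B) (-m2)
    rw [neg_neg] at this
    exact this
  have s3 : KF.XX χ m3 (2 * b * m2 - (2 * a * m - B)) (-m2) =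
      KF.XX χ m2 (2 * b * m2 - (2 * a * m - B)) (-m3) := by
    have := KF.XX_swap χ hodd m2 (2 * b * m2 - (2 * a * m - B)) (-m3)
    rw [neg_neg] at this
    exact this
  have t1 : KF.YX χ m2 (2 * a * m - B) (-m) = KF.YX χ 1 B (-m) := by
    have h1 := KF.YX_swap χ hodd m (2 * a * m - B) (-m2)
    rw [neg_neg] at h1
    have h2 := K5.YY_step χ hodd 1 B m a
    have e : -(1 + (B : ℤ) * a - m * (a : ℤ) ^ 2) = -m2 := by rw [h.e1]
    rw [e] at h2
    rw [h1, h2, neg_neg]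
  have t2 : KF.YX χ m3 (2 * b * m2 - (2 * a * m - B)) (-m2) =
      KF.YX χ m (2 * a * m - B) (-m2) := by
    have h1 := KF.YX_swap χ hodd m2 (2 * b * m2 - (2 * a * m - B)) (-m3)
    rw [neg_neg] at h1
    have h2 := K5.YY_step χ hodd m (2 * a * m - B) m2 b
    have e : -(m + (2 * a * m - B) * b - m2 * (b : ℤ) ^ 2) = -m3 := by rw [h.e2]
    rw [e] at h2
    rw [h1, h2, neg_neg]
  have t3 : KF.YX χ m3 (2 * c * m3 - (2 * b * m2 - (2 * a * m - B))) (-m3) =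
      KF.YX χ m2 (2 * b * m2 - (2 * a * m - B)) (-m3) := by
    have h1 := KF.YX_swap χ hodd m3 (2 * c * m3 - (2 * b * m2 - (2 * a * m - B))) (-m3)
    rw [neg_neg] at h1
    have h2 := K5.YY_step χ hodd m2 (2 * b * m2 - (2 * a * m - B)) m3 c
    have e : -(m2 + (2 * b * m2 - (2 * a * m - B)) * c - m3 * (c : ℤ) ^ 2) = -m3 := by
      have := h.e3
      linear_combination this
    rw [e] at h2
    rw [h1, h2, neg_neg]
  unfold LK.Rel J7
  simp only [List.map_cons, List.map_nil, List.sum_cons, List.sum_nil, add_zero]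
  rw [r4_eq h, r3_eq h, y3_eq h, y2_eq h, r2_eq]
  rw [s1, s2, s3, t1, t2, t3] at key
  push_cast
  linear_combination key

end Main

/-! ### the system -/

/-- the modulus of the relations -/
def M0 : ℕ := 38798760

/-- the second sums of the forms of a discriminant are killed by `l` -/
def YK {q N : ℕ} [NeZero q] (χ : ZMod q → ZMod N) (l : ℕ) (D : ℤ) : Prop :=
  ∀ P R S : ℤ, (q : ℤ) ∣ R ^ 2 - 4 * P * S - D → (8 : ℤ) ∣ R ^ 2 - 4 * P * S - D →
    (l : ZMod N) * KF.YX χ P R S = 0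

/-- all relations -/
def AllRel (Q : ℕ) (a b c B m : ℤ) : Prop :=
  ∀ (n1 n2 n3 N l T1 T2 T3 : ℕ) [NeZero n1] [NeZero n2] [NeZero n3] [NeZero (n1 * n2)]
    [NeZero (n1 * n2 * n3)], relOk n1 n2 n3 N T1 T2 T3 = true → tabCk n1 N T1 = true →
    tabCk n2 N T2 = true → tabCk n3 N T3 = true → N % 2 = 1 →
    (n1 * n2 * n3 * N) ∣ Q ^ 6 → n1 * n2 * n3 ∣ M0 → l ∣ M0 →
    YK (tri (tabc n1 N T1) (tabc n2 N T2) (tabc n3 N T3)) l (dd B m) →
    LK.Rel N (tri (tabc n1 N T1) (tabc n2 N T2) (tabc n3 N T3)) (J7 a b c B m)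

/-- the system of conditions -/
structure Sys (Q : ℕ) (a b c B m : ℤ) : Prop where
  oB : B % 2 = 1
  om : m % 2 = 1
  cl : Cl a b c B m
  inr : ∀ p : ℕ, p.Prime → p ≠ 2 → p ∣ Q → K5.In p (dd B m)
  rel : AllRel Q a b c B m

lemma Sys.neg {Q : ℕ} {a b c B m : ℤ} (h : Sys Q a b c B m) : Sys Q (-a) (-b) (-c) (-B) m where
  oB := by have := h.oB; omega
  om := h.om
  cl := h.cl.neg
  inr := by rw [dd_neg]; exact h.inr
  rel := fun n1 n2 n3 N l T1 T2 T3 _ _ _ _ _ h1 h2 h3 h4 h5 h6 h7 h8 h9 =>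
    Rel_neg _ (h.rel n1 n2 n3 N l T1 T2 T3 h1 h2 h3 h4 h5 h6 h7 h8 (by rwa [dd_neg] at h9))

lemma Sys.mono {Q Q' : ℕ} {a b c B m : ℤ} (h : Sys Q a b c B m) (hQ : Q' ∣ Q) :
    Sys Q' a b c B m where
  oB := h.oB
  om := h.om
  cl := h.cl
  inr := fun p hp hp2 hd => h.inr p hp hp2 (hd.trans hQ)
  rel := fun n1 n2 n3 N l T1 T2 T3 _ _ _ _ _ h1 h2 h3 h4 h5 h6 =>
    h.rel n1 n2 n3 N l T1 T2 T3 h1 h2 h3 h4 h5 (h6.trans (pow_dvd_pow_of_dvd hQ 6))

section Odd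

variable {a b c B m : ℤ}

/-- all discriminants are `5` modulo `8` -/
lemma odd_mul {R x y D : ℤ} (h : R ^ 2 + 4 * x * y = D) (hD : D % 8 = 5) :
    R % 2 = 1 ∧ x % 2 = 1 ∧ y % 2 = 1 := by
  have hR : R % 2 = 1 := by
    rcases Int.emod_two_eq_zero_or_one R with h0 | h0
    · exfalso
      obtain ⟨k, hk⟩ : ∃ k : ℤ, R = 2 * k := ⟨R / 2, by omega⟩
      have e : D = 4 * (k ^ 2 + x * y) := by rw [← h, hk]; ring
      omega
    · exact h0
  obtain ⟨j, hj⟩ : ∃ j : ℤ, R = 2 * j + 1 := ⟨R / 2, by omega⟩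
  obtain ⟨k, hk⟩ : ∃ k : ℤ, j * (j + 1) = 2 * k := by
    have := Int.even_mul_succ_self j
    obtain ⟨k, hk⟩ := this
    exact ⟨k, by omega⟩
  have e : D = 8 * k + 1 + 4 * (x * y) := by
    rw [← h, hj]
    linear_combination 4 * hk
  have hxy : (x * y) % 2 = 1 := by omega
  rw [Int.mul_emod] at hxy
  rcases Int.emod_two_eq_zero_or_one x with h1 | h1 <;>
    rcases Int.emod_two_eq_zero_or_one y with h2 | h2 <;> simp [h1, h2] at hxy
  exact ⟨hR, h1, h2⟩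

lemma dd_mod8 {B m : ℤ} (hB : B % 2 = 1) (hm : m % 2 = 1) : dd B m % 8 = 5 := by
  obtain ⟨j, hj⟩ : ∃ j : ℤ, B = 2 * j + 1 := ⟨B / 2, by omega⟩
  obtain ⟨i, hi⟩ : ∃ i : ℤ, m = 2 * i + 1 := ⟨m / 2, by omega⟩
  obtain ⟨k, hk⟩ : ∃ k : ℤ, j * (j + 1) = 2 * k := by
    have := Int.even_mul_succ_self j
    obtain ⟨k, hk⟩ := this
    exact ⟨k, by omega⟩
  have e : dd B m = 8 * (k + i) + 5 := by
    unfold dd
    rw [hj, hi]
    linear_combination 4 * hk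
  omega

/-- all coefficients are odd -/
lemma Sys.odd {Q : ℕ} (h : Sys Q a b c B m) :
    y2 a B m % 2 = 1 ∧ y3 a b B m % 2 = 1 ∧ r2 a B m % 2 = 1 ∧ r3 a b B m % 2 = 1 ∧
      r4 a b c B m % 2 = 1 := by
  have h8 := dd_mod8 h.oB h.om
  obtain ⟨e1, _, e2⟩ := odd_mul (disc2 a B m) h8
  obtain ⟨e3, _, e4⟩ := odd_mul (disc3 a b B m) h8
  obtain ⟨e5, _, _⟩ := odd_mul (disc4 h.cl) h8
  exact ⟨e2, e4, e1, e3, e5⟩

end Odd

theorem sys_of {a b c B : ℕ} {m m2 m3 : ℤ} (h : E7.Par a b c B m m2 m3) (hm2 : m % 2 = 1)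
    (hB2 : B % 2 = 1)
    [IsDomain (QuadraticAlgebra ℤ m (B : ℤ))]
    [UniqueFactorizationMonoid (QuadraticAlgebra ℤ m (B : ℤ))] {Q : ℕ} (hQ0 : Q ≠ 0)
    (hQ : ∀ p : ℕ, p.Prime → p ≠ 2 → p ∣ Q → (p : ℤ) < m ∧ (p : ℤ) < m2 ∧ (p : ℤ) < m3) :
    Sys Q a b c B m := by
  obtain ⟨d, hd⟩ : ∃ d : ℕ, (d : ℤ) = (B : ℤ) ^ 2 + 4 * m := by
    refine ⟨((B : ℤ) ^ 2 + 4 * m).toNat, Int.toNat_of_nonneg ?_⟩
    have : (0 : ℤ) ≤ (B : ℤ) ^ 2 := sq_nonneg _
    have := h.hm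
    omega
  have hBz : (B : ℤ) % 2 = 1 := by exact_mod_cast hB2
  have h8 : d % 8 = 5 := by
    have h1 := dd_mod8 hBz hm2
    have e : dd B m = (d : ℤ) := by unfold dd; rw [hd]; ring
    rw [e] at h1
    exact_mod_cast h1
  have cop : ∀ p : ℕ, p.Prime → p ∣ Q → ¬ p ∣ d := by
    intro p hp hpQ hdvd
    rcases eq_or_ne p 2 with rfl | hp2
    · omega
    obtain ⟨g1, g2, g3⟩ := hQ p hp hp2 hpQ
    have h1 := inert h hd h8 p hp hp2 g1 g2 g3
    have h2 : jacobiSym (d : ℤ) p ≠ 0 := by rw [h1]; norm_num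
    apply h2
    have : Fact p.Prime := ⟨hp⟩
    rw [← jacobiSym.legendreSym.to_jacobiSym, legendreSym.eq_zero_iff]
    have : ((d : ℕ) : ZMod p) = 0 := by rw [ZMod.natCast_eq_zero_iff]; exact hdvd
    exact_mod_cast this
  have hcopP : Nat.Coprime d (Q ^ 6) := by
    apply Nat.Coprime.pow_right
    by_contra hc
    obtain ⟨p, hp, h1, h2⟩ := Nat.Prime.not_coprime_iff_dvd.1 hc
    exact cop p hp h2 h1
  refine ⟨hBz, hm2, cl_of h, ?_, ?_⟩
  · intro p hp hp2 hpQ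
    obtain ⟨g1, g2, g3⟩ := hQ p hp hp2 hpQ
    exact in_of h hd h8 hp hp2 g1 g2 g3
  intro n1 n2 n3 N l T1 T2 T3 _ _ _ _ _ h1 h2 h3 h4 hN2 h5 _ _ _
  have hN : 0 < N := by omega
  obtain ⟨ho, hs⟩ := K4.relOk_spec hN h1 h2 h3 h4
  have hdq : Nat.Coprime (n1 * n2 * n3) d :=
    (Nat.Coprime.coprime_dvd_right ((Dvd.intro _ rfl).trans h5) hcopP).symm
  have hdN : Nat.Coprime d N := Nat.Coprime.coprime_dvd_right ((Dvd.intro_left _ rfl).trans h5) hcopP
  have hc := tri_char (n1 := n1) (n2 := n2) (n3 := n3) (tabCk_char h2) (tabCk_char h3)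
    (tabCk_char h4)
  exact rel_of h hm2 hB2 hd h8 hdq hN2 hdN _ ho hc.mul hs

end Pool.Agent.LibH4.S7
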