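import Pool.Agent.Lib_helper4.Inert
import Pool.Agent.Lib_helper4.E4Par

/-!
Genus theory for period four: the middle value is congruent to three modulo four.
-/

namespace Pool.Agent.LibH4.G4

open Pool.Agent.LibH4 Pool.Agent.Lib_helper5

/-- an odd squarefree number greater than one has a class with Jacobi symbol minus one -/
lemma exists_neg {n : ℕ} (h1 : 1 < n) (hodd : n % 2 = 1) (hsq : Squarefree n) :
    ∃ a : ℕ, jacobiSym a n = -1 := by
  obtain ⟨p, hp, n', rfl⟩ := Nat.exists_prime_and_dvd (by omega : n ≠ 1)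
  have hFp : Fact p.Prime := ⟨hp⟩
  have hp2 : p ≠ 2 := by
    rintro rfl
    omega
  have hn' : n' ≠ 0 := by
    rintro rfl
    omega
  have hcop : Nat.Coprime p n' := by
    rw [Nat.squarefree_mul_iff] at hsq
    exact hsq.1
  obtain ⟨a0, ha0⟩ := FiniteField.exists_nonsquare (F := ZMod p) (by
    rw [ZMod.ringChar_zmod_n]; exact hp2)
  obtain ⟨k, hk1, hk2⟩ := Nat.chineseRemainder hcop a0.val 1
  refine ⟨k, ?_⟩
  rw [jacobiSym.mul_right' _ hp.ne_zero hn']
  have e1 : jacobiSym (k : ℤ) p = -1 := by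
    rw [← jacobiSym.legendreSym.to_jacobiSym, legendreSym.eq_neg_one_iff]
    have : ((k : ℤ) : ZMod p) = a0 := by
      have h := (ZMod.natCast_eq_natCast_iff _ _ _).2 hk1
      push_cast
      rw [h]
      exact ZMod.natCast_zmod_val a0
    rw [this]
    exact ha0
  have e2 : jacobiSym (k : ℤ) n' = 1 := by
    rw [jacobiSym.mod_left' (a₂ := ((1 : ℕ) : ℤ)) (by exact_mod_cast hk2)]
    rw [Nat.cast_one, jacobiSym.one_left]
  rw [e1, e2]
  norm_num

/-- a prime with prescribed symbols -/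
lemma exists_prime {R s : ℕ} (hR1 : 1 < R) (hs1 : 1 < s) (hR : R % 2 = 1) (hs : s % 2 = 1)
    (hsqR : Squarefree R) (hsqs : Squarefree s) (hcop : Nat.Coprime R s) :
    ∃ l : ℕ, l.Prime ∧ 2 < l ∧ l % 4 = 1 ∧ jacobiSym l R = -1 ∧ jacobiSym l s = -1 := by
  obtain ⟨a, ha⟩ := exists_neg hR1 hR hsqR
  obtain ⟨b, hb⟩ := exists_neg hs1 hs hsqs
  obtain ⟨k, hk1, hk2⟩ := Nat.chineseRemainder hcop a b
  have hR' : Nat.Coprime R 4 := by
    have : Nat.Coprime R 2 := Nat.coprime_two_right.2 (Nat.odd_iff.2 hR)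
    exact Nat.Coprime.pow_right 2 this
  have hs' : Nat.Coprime s 4 := by
    have : Nat.Coprime s 2 := Nat.coprime_two_right.2 (Nat.odd_iff.2 hs)
    exact Nat.Coprime.pow_right 2 this
  have h4 : Nat.Coprime (R * s) 4 := Nat.Coprime.mul_left hR' hs'
  obtain ⟨j, hj1, hj2⟩ := Nat.chineseRemainder h4 k 1
  have jR : j ≡ a [MOD R] := (hj1.of_mul_right s).trans hk1
  have js : j ≡ b [MOD s] := (hj1.of_mul_left R).trans hk2
  have symR : ∀ l : ℕ, l ≡ j [MOD R] → jacobiSym l R = -1 := by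
    intro l hl
    rw [← ha]
    exact jacobiSym.mod_left' (by exact_mod_cast hl.trans jR)
  have syms : ∀ l : ℕ, l ≡ j [MOD s] → jacobiSym l s = -1 := by
    intro l hl
    rw [← hb]
    exact jacobiSym.mod_left' (by exact_mod_cast hl.trans js)
  have cR : Nat.Coprime j R := by
    by_contra h
    have : NeZero R := ⟨by omega⟩
    have h0 : jacobiSym (j : ℤ) R = 0 := by
      rw [jacobiSym.eq_zero_iff_not_coprime]
      simpa [Int.gcd_natCast_natCast, Nat.Coprime] using h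
    rw [symR j rfl] at h0
    norm_num at h0
  have cs : Nat.Coprime j s := by
    by_contra h
    have : NeZero s := ⟨by omega⟩
    have h0 : jacobiSym (j : ℤ) s = 0 := by
      rw [jacobiSym.eq_zero_iff_not_coprime]
      simpa [Int.gcd_natCast_natCast, Nat.Coprime] using h
    rw [syms j rfl] at h0
    norm_num at h0
  have c4 : Nat.Coprime j 4 := by
    have : j % 4 = 1 := hj2
    have h2 : Nat.Coprime j 2 :=
      Nat.coprime_two_right.2 (Nat.odd_iff.2 (by omega))
    exact Nat.Coprime.pow_right 2 h2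
  have call : Nat.Coprime j (R * s * 4) :=
    Nat.Coprime.mul_right (Nat.Coprime.mul_right cR cs) c4
  obtain ⟨l, hl2, hlp, hl⟩ := Nat.forall_exists_prime_gt_and_modEq 2
    (q := R * s * 4) (a := j) (by positivity) call
  have l1 : l ≡ j [MOD R * s] := hl.of_mul_right 4
  have l4 : l ≡ j [MOD 4] := hl.of_mul_left (R * s)
  refine ⟨l, hlp, hl2, ?_, symR l (l1.of_mul_right s), syms l (l1.of_mul_left R)⟩
  exact l4.trans hj2

/-- **genus theory for period four** -/
theorem mod_four {a b B : ℕ} {m r : ℤ} (h : E4.Par a b B m r) (hm2 : m % 2 = 1) (hB2 : B % 2 = 1)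
    [IsDomain (QuadraticAlgebra ℤ m (B : ℤ))]
    [UniqueFactorizationMonoid (QuadraticAlgebra ℤ m (B : ℤ))]
    (hsq : Squarefree ((B : ℤ) ^ 2 + 4 * m)) : r % 4 = 3 := by
  have hr := h.hr
  have hm := h.hm
  have e1 := h.e1
  have e2 := h.e2
  obtain ⟨R, rfl⟩ := Int.eq_ofNat_of_zero_le (by omega : 0 ≤ r)
  obtain ⟨M, rfl⟩ := Int.eq_ofNat_of_zero_le (by omega : 0 ≤ m)
  have hdec : (B : ℤ) ^ 2 + 4 * M = R * ((b : ℤ) ^ 2 * R + 4 * M) := by
    linear_combination (-((b : ℤ) * R + 2 * a * M - B)) * e2 + (-4 * (M : ℤ)) * e1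
  obtain ⟨s, hs⟩ : ∃ s : ℕ, s = b ^ 2 * R + 4 * M := ⟨_, rfl⟩
  have hs' : (s : ℤ) = (b : ℤ) ^ 2 * R + 4 * M := by rw [hs]; push_cast; ring
  rw [← hs'] at hdec
  -- parity
  have hBb : (b * R) % 2 = 1 := by
    have h3 : ((b * R : ℕ) : ℤ) % 2 = 1 := by
      push_cast
      rw [e2]
      have : (2 * (a : ℤ) * M) % 2 = 0 := by rw [mul_assoc, Int.mul_emod_right]
      omega
    exact_mod_cast h3
  have hR2 : R % 2 = 1 := by
    by_contra hc
    have : R % 2 = 0 := by omega
    rw [Nat.mul_mod, this] at hBb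
    omega
  have hb2 : b % 2 = 1 := by
    by_contra hc
    have : b % 2 = 0 := by omega
    rw [Nat.mul_mod, this] at hBb
    omega
  by_contra hR3
  have hR4 : R % 4 = 1 := by omega
  have hbb : b ^ 2 % 4 = 1 := by
    obtain ⟨k, hk⟩ : ∃ k, b = 2 * k + 1 := ⟨b / 2, by omega⟩
    rw [hk]
    have : (2 * k + 1) ^ 2 = 4 * (k ^ 2 + k) + 1 := by ring
    omega
  have hs4 : s % 4 = 1 := by
    rw [hs, Nat.add_mul_mod_self_left, Nat.mul_mod, hbb, hR4]
  have hsqd : Squarefree (R * s) := by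
    rw [hdec] at hsq
    exact Int.squarefree_natCast.1 (by push_cast; exact hsq)
  rw [Nat.squarefree_mul_iff] at hsqd
  obtain ⟨hcop, hsR, hss⟩ := hsqd
  have hR1 : 1 < R := by exact_mod_cast hr
  have hs1 : 1 < s := by
    rw [hs]
    have : 1 < M := by exact_mod_cast hm
    have h5 : 0 < b ^ 2 * R := by have := h.hb; positivity
    omega
  obtain ⟨l, hlp, hl2, hl4, hlR, hls⟩ := exists_prime hR1 hs1 hR2 (by omega) hsR hss hcop
  have hodl : Odd l := Nat.odd_iff.2 (by omega)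
  have hj : jacobiSym ((R * s : ℕ) : ℤ) l = 1 := by
    push_cast
    rw [jacobiSym.mul_left, ← jacobiSym.quadratic_reciprocity_one_mod_four hl4
      (Nat.odd_iff.2 hR2), ← jacobiSym.quadratic_reciprocity_one_mod_four hl4
      (Nat.odd_iff.2 (by omega : s % 2 = 1)), hlR, hls]
    norm_num
  obtain ⟨x, hx⟩ := exists_root_of_ne (m := (M : ℤ)) (B := (B : ℤ)) (d := R * s)
    (by rw [hdec]; push_cast; ring) hlp (by omega) (by rw [hj]; norm_num)
  obtain ⟨π, hπ⟩ := exists_norm_of_root hlp hx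
  -- four times the norm is a square modulo `R`
  have hN : 4 * π.norm = (2 * π.re + B * π.im) ^ 2 - R * s * π.im ^ 2 := by
    rw [QuadraticAlgebra.norm_def, ← hdec]
    ring
  have hsym : jacobiSym (4 * π.norm) R = jacobiSym ((2 * π.re + B * π.im) ^ 2) R := by
    apply jacobiSym.mod_left'
    rw [hN, Int.sub_emod, mul_assoc, Int.mul_emod_right]
    simp
  rw [jacobiSym.mul_left, jacobiSym.at_four (Nat.odd_iff.2 hR2), one_mul, jacobiSym.pow_left]
    at hsym
  have hneg : jacobiSym (-1) R = 1 := by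
    rw [jacobiSym.at_neg_one (Nat.odd_iff.2 hR2), ZMod.χ₄_nat_one_mod_four hR4]
  have hval : jacobiSym π.norm R = -1 := by
    rcases Int.natAbs_eq π.norm with h7 | h7
    · rw [h7, hπ, hlR]
    · rw [h7, hπ, neg_eq_neg_one_mul, jacobiSym.mul_left, hneg, hlR, one_mul]
  rw [hval] at hsym
  nlinarith [sq_nonneg (jacobiSym (2 * π.re + B * π.im) R)]

end Pool.Agent.LibH4.G4
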