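import Pool.Agent.Lib_helper4.ElevenFields

/-!
Unique factorisation in explicit real quadratic fields, `d ≡ 1` modulo `4`, `d < 40000`, from a
finite check with witnesses.
-/

namespace Pool.Agent.LibH4.FU

open scoped NumberField
open Pool.Agent.LibH4

/-- the primes below one hundred -/
def prs : List ℕ := [2, 3, 5, 7, 11, 13, 17, 19, 23, 29, 31, 37, 41, 43, 47, 53, 59, 61, 67, 71, 73,
  79, 83, 89, 97]

lemma mem_prs {p : ℕ} (hp : p.Prime) (h : p < 100) : p ∈ prs := by
  interval_cases p <;> first | decide | (exfalso; revert hp; norm_num)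

/-- the check, with witnesses `(p, r, i)` -/
def chk (d : ℕ) (W : List (ℕ × ℤ × ℤ)) : Bool :=
  decide (d % 4 = 1) && (decide (d < 40000) && prs.all fun p => decide (d < 4 * p ^ 2) ||
    (W.any (fun w => decide (w.1 = p) &&
      decide ((w.2.1 ^ 2 + w.2.1 * w.2.2 - ((d : ℤ) - 1) / 4 * w.2.2 ^ 2).natAbs = p)) ||
    (List.range p).all fun x => decide ((x * x + x) % p ≠ ((d - 1) / 4) % p)))

theorem ufd_of_chk {d : ℕ} {W : List (ℕ × ℤ × ℤ)} (h : chk d W = true) (hsq : Squarefree d)
    (h1 : 1 < d) : UniqueFactorizationMonoid (𝓞 (KQ d)) := by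
  unfold chk at h
  rw [Bool.and_eq_true, Bool.and_eq_true, decide_eq_true_eq, decide_eq_true_eq,
    List.all_eq_true] at h
  obtain ⟨hmod, hlt, hall⟩ := h
  have hBq : Bq d = 1 := by simp [Bq, hmod]
  have hAq : Aq d = ((d : ℤ) - 1) / 4 := by
    unfold Aq
    rw [if_pos hmod]
  have hDq : Dq d = d := by simp [Dq, hmod]
  have hpid : IsPrincipalIdealRing (𝓞 (KQ d)) := by
    apply isPrincipalIdealRing_of_small hsq h1
    intro p hp h4 x hx hdvd
    rw [hDq] at h4
    rw [hBq, hAq, one_mul] at hdvd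
    have h4' : 4 * p ^ 2 ≤ d := by exact_mod_cast h4
    have hp100 : p < 100 := by
      by_contra hge
      push Not at hge
      nlinarith
    have h5 := hall p (mem_prs hp hp100)
    rw [Bool.or_eq_true, Bool.or_eq_true, decide_eq_true_eq, List.any_eq_true,
      List.all_eq_true] at h5
    rcases h5 with h5 | ⟨w, -, h5⟩ | h5
    · omega
    · rw [Bool.and_eq_true, decide_eq_true_eq, decide_eq_true_eq] at h5
      refine ⟨⟨w.2.1, w.2.2⟩, ?_⟩
      rw [QuadraticAlgebra.norm_def, hBq, hAq, ← h5.2]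
      congr 1
      simp only
      ring
    · exfalso
      have hp0 : (0 : ℤ) < p := by exact_mod_cast hp.pos
      obtain ⟨y, hy⟩ : ∃ y : ℕ, (y : ℤ) = x % p :=
        ⟨(x % p).toNat, Int.toNat_of_nonneg (Int.emod_nonneg _ hp0.ne')⟩
      have hyp : y < p := by
        have := Int.emod_lt_of_pos x hp0
        rw [← hy] at this
        exact_mod_cast this
      have h6 := h5 y (List.mem_range.2 hyp)
      rw [decide_eq_true_eq] at h6
      apply h6
      have hA : (((d - 1) / 4 : ℕ) : ℤ) = ((d : ℤ) - 1) / 4 := by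
        rw [Int.natCast_div, Nat.cast_sub (by omega)]
        norm_num
      have h7 : (p : ℤ) ∣ ((y * y + y : ℕ) : ℤ) - (((d - 1) / 4 : ℕ) : ℤ) := by
        have e : (x : ℤ) ≡ y [ZMOD p] := by
          rw [hy]; exact (Int.mod_modEq x p).symm
        have e2 : x ^ 2 + x - ((d : ℤ) - 1) / 4 ≡ (y : ℤ) ^ 2 + y - ((d : ℤ) - 1) / 4 [ZMOD p] :=
          ((e.pow 2).add e).sub_right _
        rw [hA]
        have h8 := (Int.ModEq.dvd_iff e2).1 hdvd
        have h9 : ((y * y + y : ℕ) : ℤ) = (y : ℤ) ^ 2 + y := by push_cast; ring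
        rw [h9]
        exact h8
      exact ((Nat.modEq_iff_dvd (n := p) (a := (d - 1) / 4) (b := y * y + y)).2 h7).symm
  infer_instance

end Pool.Agent.LibH4.FU
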