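import Pool.Agent.Lib_helper4.P7Small
import Pool.Agent.Lib_helper4.PerOf
import Pool.Agent.Lib_helper4.FieldsU

/-!
Seventeen real quadratic fields with unique factorisation and period length seven.
-/

namespace Pool.Agent.LibH4.P7

open scoped NumberField
open Function Pool.Agent.LibH4 Pool.Agent.Lib_helper5

/-- a field of the family -/
lemma field {a b c B : ℕ} {m m2 m3 : ℤ} {d : ℕ} (h : E7.Par a b c B m m2 m3)
    (hd : (d : ℤ) = (B : ℤ) ^ 2 + 4 * m) (hB : B % 2 = 1) (h1 : 1 < d) (hsq : Squarefree d)
    (hred : ∀ k < 7, E7.S m m2 m3 (k + 1) < E7.R a b c B m m2 m3 (k + 1) + E7.S m m2 m3 k)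
    (W : List (ℕ × ℤ × ℤ)) (hW : FU.chk d W = true) :
    minimalPeriod gsh (gsh (omg d)) = 7 ∧ UniqueFactorizationMonoid (𝓞 (KQ d)) :=
  ⟨PO.period_of_cyc (E7.cyc h) hd h1 hsq (by exact_mod_cast hB) hred, FU.ufd_of_chk hW hsq h1⟩

/-- **the seventeen fields** -/
theorem fields {d : ℕ} (h : d ∈ l17) (hsq : Squarefree d) :
    minimalPeriod gsh (gsh (omg d)) = 7 ∧ UniqueFactorizationMonoid (𝓞 (KQ d)) := by
  simp only [l17, List.mem_cons, List.not_mem_nil, or_false] at h
  rcases h with rfl | rfl | rfl | rfl | rfl | rfl | rfl | rfl | rfl | rfl | rfl | rfl |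
    rfl | rfl | rfl | rfl | rfl
  · exact field (a := 4) (b := 1) (c := 1) (B := 9) (m := 2) (m2 := 5) (m3 := 4)
      ⟨by norm_num, by norm_num, by norm_num, by norm_num, by norm_num, by norm_num, by norm_num,
        by norm_num, by norm_num, by norm_num⟩ (by norm_num) (by norm_num) (by norm_num) hsq
      (by decide) [(2, -5, 1)] (by decide +kernel)
  · exact field (a := 1) (b := 2) (c := 1) (B := 9) (m := 7) (m2 := 3) (m3 := 5)
      ⟨by norm_num, by norm_num, by norm_num, by norm_num, by norm_num, by norm_num, by norm_num,
        by norm_num, by norm_num, by norm_num⟩ (by norm_num) (by norm_num) (by norm_num) hsq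
      (by decide) [(3, -6, 1), (5, -17, 3)] (by decide +kernel)
  · exact field (a := 1) (b := 4) (c := 2) (B := 9) (m := 8) (m2 := 2) (m3 := 4)
      ⟨by norm_num, by norm_num, by norm_num, by norm_num, by norm_num, by norm_num, by norm_num,
        by norm_num, by norm_num, by norm_num⟩ (by norm_num) (by norm_num) (by norm_num) hsq
      (by decide) [(2, -6, 1)] (by decide +kernel)
  · exact field (a := 2) (b := 1) (c := 5) (B := 11) (m := 4) (m2 := 7) (m3 := 2)
      ⟨by norm_num, by norm_num, by norm_num, by norm_num, by norm_num, by norm_num, by norm_num,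
        by norm_num, by norm_num, by norm_num⟩ (by norm_num) (by norm_num) (by norm_num) hsq
      (by decide) [(2, -19, 3)] (by decide +kernel)
  · exact field (a := 6) (b := 2) (c := 1) (B := 19) (m := 3) (m2 := 7) (m3 := 9)
      ⟨by norm_num, by norm_num, by norm_num, by norm_num, by norm_num, by norm_num, by norm_num,
        by norm_num, by norm_num, by norm_num⟩ (by norm_num) (by norm_num) (by norm_num) hsq
      (by decide) [(3, -10, 1), (7, -61, 6)] (by decide +kernel)
  · exact field (a := 2) (b := 1) (c := 3) (B := 19) (m := 7) (m2 := 11) (m3 := 5)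
      ⟨by norm_num, by norm_num, by norm_num, by norm_num, by norm_num, by norm_num, by norm_num,
        by norm_num, by norm_num, by norm_num⟩ (by norm_num) (by norm_num) (by norm_num) hsq
      (by decide) [(5, -31, 3), (7, -10, 1)] (by decide +kernel)
  · exact field (a := 1) (b := 3) (c := 1) (B := 21) (m := 17) (m2 := 5) (m3 := 11)
      ⟨by norm_num, by norm_num, by norm_num, by norm_num, by norm_num, by norm_num, by norm_num,
        by norm_num, by norm_num, by norm_num⟩ (by norm_num) (by norm_num) (by norm_num) hsq
      (by decide) [(5, -12, 1), (11, -47, 4)] (by decide +kernel)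
  · exact field (a := 3) (b := 1) (c := 1) (B := 25) (m := 7) (m2 := 13) (m3 := 11)
      ⟨by norm_num, by norm_num, by norm_num, by norm_num, by norm_num, by norm_num, by norm_num,
        by norm_num, by norm_num, by norm_num⟩ (by norm_num) (by norm_num) (by norm_num) hsq
      (by decide) [(7, -13, 1), (11, -53, 4)] (by decide +kernel)
  · exact field (a := 1) (b := 1) (c := 1) (B := 27) (m := 17) (m2 := 11) (m3 := 13)
      ⟨by norm_num, by norm_num, by norm_num, by norm_num, by norm_num, by norm_num, by norm_num,
        by norm_num, by norm_num, by norm_num⟩ (by norm_num) (by norm_num) (by norm_num) hsq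
      (by decide) [(11, -15, 1), (13, -29, 2)] (by decide +kernel)
  · exact field (a := 9) (b := 1) (c := 2) (B := 29) (m := 3) (m2 := 19) (m3 := 9)
      ⟨by norm_num, by norm_num, by norm_num, by norm_num, by norm_num, by norm_num, by norm_num,
        by norm_num, by norm_num, by norm_num⟩ (by norm_num) (by norm_num) (by norm_num) hsq
      (by decide) [(3, -15, 1)] (by decide +kernel)
  · exact field (a := 3) (b := 2) (c := 10) (B := 31) (m := 9) (m2 := 13) (m3 := 3)
      ⟨by norm_num, by norm_num, by norm_num, by norm_num, by norm_num, by norm_num, by norm_num,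
        by norm_num, by norm_num, by norm_num⟩ (by norm_num) (by norm_num) (by norm_num) hsq
      (by decide) [(3, -114, 7), (13, -49, 3)] (by decide +kernel)
  · exact field (a := 1) (b := 4) (c := 1) (B := 37) (m := 31) (m2 := 7) (m3 := 19)
      ⟨by norm_num, by norm_num, by norm_num, by norm_num, by norm_num, by norm_num, by norm_num,
        by norm_num, by norm_num, by norm_num⟩ (by norm_num) (by norm_num) (by norm_num) hsq
      (by decide) [(7, -20, 1), (19, -99, 5)] (by decide +kernel)
  · exact field (a := 1) (b := 5) (c := 2) (B := 43) (m := 37) (m2 := 7) (m3 := 17)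
      ⟨by norm_num, by norm_num, by norm_num, by norm_num, by norm_num, by norm_num, by norm_num,
        by norm_num, by norm_num, by norm_num⟩ (by norm_num) (by norm_num) (by norm_num) hsq
      (by decide) [(7, -23, 1), (17, -137, 6)] (by decide +kernel)
  · exact field (a := 1) (b := 1) (c := 9) (B := 47) (m := 25) (m2 := 23) (m3 := 5)
      ⟨by norm_num, by norm_num, by norm_num, by norm_num, by norm_num, by norm_num, by norm_num,
        by norm_num, by norm_num, by norm_num⟩ (by norm_num) (by norm_num) (by norm_num) hsq
      (by decide) [(5, -49, 2), (23, -25, 1)] (by decide +kernel)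
  · exact field (a := 10) (b := 4) (c := 1) (B := 51) (m := 5) (m2 := 11) (m3 := 25)
      ⟨by norm_num, by norm_num, by norm_num, by norm_num, by norm_num, by norm_num, by norm_num,
        by norm_num, by norm_num, by norm_num⟩ (by norm_num) (by norm_num) (by norm_num) hsq
      (by decide) [(5, -26, 1), (11, -261, 10)] (by decide +kernel)
  · exact field (a := 3) (b := 4) (c := 2) (B := 61) (m := 19) (m2 := 13) (m3 := 23)
      ⟨by norm_num, by norm_num, by norm_num, by norm_num, by norm_num, by norm_num, by norm_num,
        by norm_num, by norm_num, by norm_num⟩ (by norm_num) (by norm_num) (by norm_num) hsq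
      (by decide) [(13, -94, 3), (19, -31, 1), (23, -407, 13)] (by decide +kernel)
  · exact field (a := 1) (b := 3) (c := 6) (B := 69) (m := 53) (m2 := 17) (m3 := 11)
      ⟨by norm_num, by norm_num, by norm_num, by norm_num, by norm_num, by norm_num, by norm_num,
        by norm_num, by norm_num, by norm_num⟩ (by norm_num) (by norm_num) (by norm_num) hsq
      (by decide) [(11, -143, 4), (17, -36, 1)] (by decide +kernel)

end Pool.Agent.LibH4.P7
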