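import Pool.Agent.Lib_helper4.Counting

/-!
Cone decomposition for the period three family: `m = 1 + a t`, `B = (a² + 1) t + a`.
-/

namespace Pool.Agent.LibH4

namespace Cone

/-- the ring, parametrised by integers `a t` -/
abbrev RC (a t : ℤ) := QuadraticAlgebra ℤ (1 + a * t) ((a ^ 2 + 1) * t + a)

variable {a t : ℤ}

/-- `√d` -/
noncomputable def sd (a t : ℤ) : ℝ :=
  Real.sqrt (((((a ^ 2 + 1) * t + a) ^ 2 + 4 * (1 + a * t) : ℤ)) : ℝ)

/-- `α` -/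
noncomputable def al (a t : ℤ) : ℝ := (((a : ℝ) ^ 2 + 1) * t + a + sd a t) / 2

/-- `α'` -/
noncomputable def al' (a t : ℤ) : ℝ := (((a : ℝ) ^ 2 + 1) * t + a - sd a t) / 2

lemma sd_sq (ha : 1 ≤ a) (ht : 1 ≤ t) :
    sd a t ^ 2 = (((a : ℝ) ^ 2 + 1) * t + a) ^ 2 + 4 * (1 + a * t) := by
  unfold sd
  rw [Real.sq_sqrt]
  · push_cast; ring
  · have : 0 ≤ a * t := by positivity
    have h : (0 : ℤ) ≤ (((a ^ 2 + 1) * t + a) ^ 2 + 4 * (1 + a * t) : ℤ) := by positivity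
    exact_mod_cast h

lemma al_sq (ha : 1 ≤ a) (ht : 1 ≤ t) :
    al a t * al a t = (1 + a * t) + (((a : ℝ) ^ 2 + 1) * t + a) * al a t := by
  have := sd_sq ha ht
  unfold al
  linear_combination this / 4

lemma al'_sq (ha : 1 ≤ a) (ht : 1 ≤ t) :
    al' a t * al' a t = (1 + a * t) + (((a : ℝ) ^ 2 + 1) * t + a) * al' a t := by
  have := sd_sq ha ht
  unfold al'
  linear_combination this / 4

/-- first real embedding -/
noncomputable def s1 (ha : 1 ≤ a) (ht : 1 ≤ t) : RC a t →ₐ[ℤ] ℝ :=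
  QuadraticAlgebra.lift ⟨al a t, by rw [al_sq ha ht]; simp⟩

/-- second real embedding -/
noncomputable def s2 (ha : 1 ≤ a) (ht : 1 ≤ t) : RC a t →ₐ[ℤ] ℝ :=
  QuadraticAlgebra.lift ⟨al' a t, by rw [al'_sq ha ht]; simp⟩

lemma s1_apply (ha : 1 ≤ a) (ht : 1 ≤ t) (z : RC a t) :
    s1 ha ht z = (z.re : ℝ) + z.im * al a t := by
  simp [s1, QuadraticAlgebra.lift]

lemma s2_apply (ha : 1 ≤ a) (ht : 1 ≤ t) (z : RC a t) :
    s2 ha ht z = (z.re : ℝ) + z.im * al' a t := by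
  simp [s2, QuadraticAlgebra.lift]

lemma al_add (a t : ℤ) : al a t + al' a t = ((a : ℝ) ^ 2 + 1) * t + a := by
  unfold al al'; ring

lemma al_mul (ha : 1 ≤ a) (ht : 1 ≤ t) : al a t * al' a t = -(1 + a * t) := by
  have := sd_sq ha ht
  unfold al al'
  linear_combination -this / 4

lemma norm_eq_s1_mul_s2 (ha : 1 ≤ a) (ht : 1 ≤ t) (z : RC a t) :
    ((z.norm : ℤ) : ℝ) = s1 ha ht z * s2 ha ht z := by
  rw [s1_apply, s2_apply, QuadraticAlgebra.norm_def]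
  push_cast
  have h1 := al_add a t
  have h2 := al_mul ha ht
  linear_combination (-(z.re : ℝ) * z.im) * h1 - (z.im : ℝ) ^ 2 * h2

/-- `ξ = -α' = r₁` -/
lemma xi_pos (ha : 1 ≤ a) (ht : 1 ≤ t) : 0 < - al' a t := by
  have h := sd_sq ha ht
  have ha' : (1 : ℝ) ≤ a := by exact_mod_cast ha
  have ht' : (1 : ℝ) ≤ t := by exact_mod_cast ht
  have hs : 0 ≤ sd a t := Real.sqrt_nonneg _
  unfold al'
  have h3 : 0 < (a : ℝ) * t := by positivity
  have h4 : 0 < ((a : ℝ) ^ 2 + 1) * t + a := by positivity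
  nlinarith

lemma al_pos (ha : 1 ≤ a) (ht : 1 ≤ t) : 0 < al a t := by
  have ha' : (1 : ℝ) ≤ a := by exact_mod_cast ha
  have ht' : (1 : ℝ) ≤ t := by exact_mod_cast ht
  have hs : 0 ≤ sd a t := Real.sqrt_nonneg _
  unfold al
  positivity

/-- the polynomial of `ξ` -/
lemma xi_poly (ha : 1 ≤ a) (ht : 1 ≤ t) :
    (- al' a t) ^ 2 + (((a : ℝ) ^ 2 + 1) * t + a) * (- al' a t) - (1 + a * t) = 0 := by
  have := al'_sq ha ht
  linear_combination this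

lemma xi_lt (ha : 1 ≤ a) (ht : 1 ≤ t) : a * (- al' a t) < 1 := by
  have h := xi_poly ha ht
  have hp := xi_pos ha ht
  have ha' : (1 : ℝ) ≤ a := by exact_mod_cast ha
  have ht' : (1 : ℝ) ≤ t := by exact_mod_cast ht
  by_contra hge
  push Not at hge
  set x := - al' a t with hx
  have h1 : (a : ℝ) * x * (((a : ℝ) ^ 2 + 1) * t + a) ≥ 1 * (((a : ℝ) ^ 2 + 1) * t + a) := by
    apply mul_le_mul_of_nonneg_right hge
    positivity
  have h2 : (a : ℝ) * x ^ 2 > 0 := by positivity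
  nlinarith

lemma lt_xi (ha : 1 ≤ a) (ht : 1 ≤ t) : (a : ℝ) < ((a : ℝ) ^ 2 + 1) * (- al' a t) := by
  have h := xi_poly ha ht
  have hp := xi_pos ha ht
  have ha' : (1 : ℝ) ≤ a := by exact_mod_cast ha
  have ht' : (1 : ℝ) ≤ t := by exact_mod_cast ht
  by_contra hge
  push Not at hge
  set x := - al' a t with hx
  set c : ℝ := (a : ℝ) ^ 2 + 1 with hc
  have hcpos : 0 < c := by positivity
  have h1 : c ^ 2 * x ^ 2 ≤ (a : ℝ) ^ 2 := by
    have : (c * x) ^ 2 ≤ (a : ℝ) ^ 2 := pow_le_pow_left₀ (by positivity) hge 2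
    nlinarith
  have h2 : c ^ 2 * (x ^ 2 + (c * t + a) * x - (1 + a * t)) = 0 := by rw [h, mul_zero]
  have h3 : c * ((c * t + a) * (c * x)) ≤ c * ((c * t + a) * a) := by
    apply mul_le_mul_of_nonneg_left _ hcpos.le
    apply mul_le_mul_of_nonneg_left hge
    positivity
  nlinarith

/-- `r₁ = α - B` -/
def r1 (a t : ℤ) : RC a t := ⟨-((a ^ 2 + 1) * t + a), 1⟩
/-- `r₂ = 1 - a r₁` -/
def r2 (a t : ℤ) : RC a t := ⟨1 + a * ((a ^ 2 + 1) * t + a), -a⟩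
/-- `r₃ = r₁ - a r₂` -/
def r3 (a t : ℤ) : RC a t := ⟨-((a ^ 2 + 1) * ((a ^ 2 + 1) * t + a) + a), a ^ 2 + 1⟩

lemma r2_eq (a t : ℤ) : r2 a t = 1 - (a : RC a t) * r1 a t := by
  ext
  · simp [r1, r2, QuadraticAlgebra.re_one]; ring
  · simp [r1, r2, QuadraticAlgebra.im_one]

lemma r3_eq (a t : ℤ) : r3 a t = r1 a t - (a : RC a t) * r2 a t := by
  ext
  · simp [r1, r2, r3]; ring
  · simp [r1, r2, r3]; ring

/-- `r₄ = r₃ r₁ = r₂ - B r₃` -/
lemma r4_eq (a t : ℤ) : r3 a t * r1 a t =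
    r2 a t - (((a ^ 2 + 1) * t + a : ℤ) : RC a t) * r3 a t := by
  ext
  · simp only [r1, r2, r3, QuadraticAlgebra.re_mul, QuadraticAlgebra.re_sub,
      QuadraticAlgebra.re_intCast, QuadraticAlgebra.im_intCast, Int.cast_id]
    ring
  · simp only [r1, r2, r3, QuadraticAlgebra.im_mul, QuadraticAlgebra.im_sub,
      QuadraticAlgebra.re_intCast, QuadraticAlgebra.im_intCast, Int.cast_id]
    ring

/-- `r₅ = r₃ r₂ = r₃ - a r₄` -/
lemma r5_eq (a t : ℤ) : r3 a t * r2 a t = r3 a t - (a : RC a t) * (r3 a t * r1 a t) := by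
  rw [r2_eq]; ring

/-- `r₆ = r₃² = r₄ - a r₅` -/
lemma r6_eq (a t : ℤ) : r3 a t * r3 a t =
    r3 a t * r1 a t - (a : RC a t) * (r3 a t * r2 a t) := by
  have h := r3_eq a t
  linear_combination (r3 a t) * h

lemma norm_r3 (a t : ℤ) : (r3 a t).norm = -1 := by
  rw [QuadraticAlgebra.norm_def]
  simp only [r3]
  ring

lemma isUnit_r3 (a t : ℤ) : IsUnit (r3 a t) := by
  rw [QuadraticAlgebra.isUnit_iff_norm_isUnit, norm_r3]
  exact isUnit_one.neg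

lemma s1_r1 (ha : 1 ≤ a) (ht : 1 ≤ t) : s1 ha ht (r1 a t) = - al' a t := by
  rw [s1_apply]
  have := al_add a t
  simp only [r1]
  push_cast
  linear_combination this

lemma s2_r1 (ha : 1 ≤ a) (ht : 1 ≤ t) : s2 ha ht (r1 a t) = - al a t := by
  rw [s2_apply]
  have := al_add a t
  simp only [r1]
  push_cast
  linear_combination this

lemma s1_r1_pos (ha : 1 ≤ a) (ht : 1 ≤ t) : 0 < s1 ha ht (r1 a t) := by
  rw [s1_r1]; exact xi_pos ha ht

lemma s2_r1_neg (ha : 1 ≤ a) (ht : 1 ≤ t) : s2 ha ht (r1 a t) < 0 := by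
  rw [s2_r1]
  have := al_pos ha ht
  linarith

lemma s1_r2_pos (ha : 1 ≤ a) (ht : 1 ≤ t) : 0 < s1 ha ht (r2 a t) := by
  rw [r2_eq, map_sub, map_mul, map_one, map_intCast, s1_r1]
  have := xi_lt ha ht
  linarith

lemma s2_r2_pos (ha : 1 ≤ a) (ht : 1 ≤ t) : 0 < s2 ha ht (r2 a t) := by
  rw [r2_eq, map_sub, map_mul, map_one, map_intCast, s2_r1]
  have := al_pos ha ht
  have ha' : (1 : ℝ) ≤ a := by exact_mod_cast ha
  nlinarith

lemma s1_r3_pos (ha : 1 ≤ a) (ht : 1 ≤ t) : 0 < s1 ha ht (r3 a t) := by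
  rw [r3_eq, r2_eq, map_sub, map_mul, map_sub, map_mul, map_one, map_intCast, s1_r1]
  have := lt_xi ha ht
  nlinarith

lemma s2_r3_neg (ha : 1 ≤ a) (ht : 1 ≤ t) : s2 ha ht (r3 a t) < 0 := by
  rw [r3_eq, map_sub, map_mul, map_intCast]
  have h1 := s2_r1_neg ha ht
  have h2 := s2_r2_pos ha ht
  have ha' : (1 : ℝ) ≤ a := by exact_mod_cast ha
  nlinarith

lemma s12_r3 (ha : 1 ≤ a) (ht : 1 ≤ t) : s1 ha ht (r3 a t) * s2 ha ht (r3 a t) = -1 := by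
  rw [← norm_eq_s1_mul_s2, norm_r3]; norm_num

/-- `r₃ < 1` -/
lemma s1_r3_lt_one (ha : 1 ≤ a) (ht : 1 ≤ t) : s1 ha ht (r3 a t) < 1 := by
  rw [r3_eq, map_sub, map_mul, map_intCast]
  have h2 := s1_r2_pos ha ht
  have h1 := xi_lt ha ht
  have ha' : (1 : ℝ) ≤ a := by exact_mod_cast ha
  have h3 : s1 ha ht (r1 a t) < 1 := by
    rw [s1_r1]
    have := xi_pos ha ht
    nlinarith
  nlinarith

/-- A basic cone statement. `v`, `w` a pair with `v ≫ 0`, `w > 0 > w'`, `next = v - n w ≫ 0`. -/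
lemma cone_iff (v1 v2 w1 w2 n x y : ℝ) (hn : 0 < n) (hv1 : 0 < v1) (hv2 : 0 < v2) (hw1 : 0 < w1)
    (hw2 : w2 < 0) (hs1 : 0 < v1 - n * w1) :
    ((0 < x * v1 - y * w1 ∧ 0 < x * v2 - y * w2) ∧
      (v1 - n * w1) * (x * v2 - y * w2) < (x * v1 - y * w1) * (v2 - n * w2) ∧
      (x * v1 - y * w1) * v2 ≤ v1 * (x * v2 - y * w2)) ↔ 0 ≤ y ∧ y < n * x := by
  have hD : v1 * w2 - w1 * v2 < 0 := by nlinarith
  have hs2 : 0 < v2 - n * w2 := by nlinarith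
  have e1 : (x * v1 - y * w1) * v2 - v1 * (x * v2 - y * w2) = y * (v1 * w2 - w1 * v2) := by ring
  have e2 : (v1 - n * w1) * (x * v2 - y * w2) - (x * v1 - y * w1) * (v2 - n * w2) =
      (n * x - y) * (v1 * w2 - w1 * v2) := by ring
  constructor
  · rintro ⟨_, h2, h3⟩
    constructor
    · by_contra hy
      push Not at hy
      have : 0 < y * (v1 * w2 - w1 * v2) := mul_pos_of_neg_of_neg hy hD
      linarith
    · by_contra hy
      push Not at hy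
      have : 0 ≤ (n * x - y) * (v1 * w2 - w1 * v2) :=
        mul_nonneg_of_nonpos_of_nonpos (by linarith) hD.le
      linarith
  · rintro ⟨hy, hyx⟩
    have h4 : 0 < n * x - y := by linarith
    have hx : 0 < x := by
      by_contra hx
      push Not at hx
      nlinarith
    refine ⟨⟨?_, ?_⟩, ?_, ?_⟩
    · have e : n * (x * v1 - y * w1) = (n * x - y) * v1 + y * (v1 - n * w1) := by ring
      have h5 : 0 < n * (x * v1 - y * w1) := by
        rw [e]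
        exact add_pos_of_pos_of_nonneg (mul_pos h4 hv1) (mul_nonneg hy hs1.le)
      exact (mul_pos_iff_of_pos_left hn).mp h5
    · nlinarith
    · have : (n * x - y) * (v1 * w2 - w1 * v2) < 0 := mul_neg_of_pos_of_neg h4 hD
      linarith
    · have : y * (v1 * w2 - w1 * v2) ≤ 0 := mul_nonpos_of_nonneg_of_nonpos hy hD.le
      linarith

/-! ### integer coordinates on the three edges -/

/-- edge 1 -/
def p1 (a t : ℤ) (z : ℤ × ℤ) : RC a t := (z.1 : RC a t) - (z.2 : RC a t) * r1 a t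
/-- edge 2 -/
def p2 (a t : ℤ) (z : ℤ × ℤ) : RC a t := (z.1 : RC a t) * r2 a t - (z.2 : RC a t) * r3 a t
/-- edge 3 -/
def p3 (a t : ℤ) (z : ℤ × ℤ) : RC a t :=
  (z.1 : RC a t) * (r3 a t * r1 a t) - (z.2 : RC a t) * (r3 a t * r2 a t)

lemma p1_re (a t : ℤ) (z : ℤ × ℤ) : (p1 a t z).re = z.1 + z.2 * ((a ^ 2 + 1) * t + a) := by
  simp [p1, r1]; ring

lemma p1_im (a t : ℤ) (z : ℤ × ℤ) : (p1 a t z).im = - z.2 := by
  simp [p1, r1]

lemma p1_inj (a t : ℤ) : Function.Injective (p1 a t) := by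
  intro z w h
  have h1 := congrArg QuadraticAlgebra.re h
  have h2 := congrArg QuadraticAlgebra.im h
  rw [p1_re, p1_re] at h1
  rw [p1_im, p1_im] at h2
  have e2 : z.2 = w.2 := by linarith
  rw [e2] at h1
  exact Prod.ext (by linarith) e2

lemma p1_surj (a t : ℤ) : Function.Surjective (p1 a t) := by
  intro β
  refine ⟨(β.re + β.im * ((a ^ 2 + 1) * t + a), - β.im), ?_⟩
  ext
  · rw [p1_re]; ring
  · rw [p1_im]; ring

lemma p2_eq (a t : ℤ) (z : ℤ × ℤ) :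
    p2 a t z = p1 a t (z.1 + a * z.2, a * z.1 + (1 + a ^ 2) * z.2) := by
  have h2 := r2_eq a t
  have h3 := r3_eq a t
  simp only [p1, p2]
  push_cast
  linear_combination ((z.1 : RC a t) + z.2 * a) * h2 - (z.2 : RC a t) * h3

lemma p2_inj (a t : ℤ) : Function.Injective (p2 a t) := by
  intro z w h
  rw [p2_eq, p2_eq] at h
  have h' := p1_inj a t h
  rw [Prod.mk.injEq] at h'
  obtain ⟨h1, h2⟩ := h'
  have e2 : z.2 = w.2 := by linear_combination h2 - a * h1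
  have e1 : z.1 = w.1 := by linear_combination h1 - a * e2
  exact Prod.ext e1 e2

lemma p2_surj (a t : ℤ) : Function.Surjective (p2 a t) := by
  intro β
  obtain ⟨w, rfl⟩ := p1_surj a t β
  refine ⟨((1 + a ^ 2) * w.1 - a * w.2, w.2 - a * w.1), ?_⟩
  rw [p2_eq]
  congr 1
  ext
  · simp only; ring
  · simp only; ring

lemma p3_eq (a t : ℤ) (z : ℤ × ℤ) :
    p3 a t z = p2 a t (z.1 + a * z.2,
      ((a ^ 2 + 1) * t + a) * z.1 + (1 + a * ((a ^ 2 + 1) * t + a)) * z.2) := by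
  have h4 := r4_eq a t
  have h5 := r5_eq a t
  simp only [p2, p3]
  push_cast at h4 ⊢
  linear_combination ((z.1 : RC a t) + z.2 * a) * h4 - (z.2 : RC a t) * h5

lemma p3_inj (a t : ℤ) : Function.Injective (p3 a t) := by
  intro z w h
  rw [p3_eq, p3_eq] at h
  have h' := p2_inj a t h
  rw [Prod.mk.injEq] at h'
  obtain ⟨h1, h2⟩ := h'
  have e2 : z.2 = w.2 := by linear_combination h2 - ((a ^ 2 + 1) * t + a) * h1
  have e1 : z.1 = w.1 := by linear_combination h1 - a * e2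
  exact Prod.ext e1 e2

lemma p3_surj (a t : ℤ) : Function.Surjective (p3 a t) := by
  intro β
  obtain ⟨w, rfl⟩ := p2_surj a t β
  refine ⟨((1 + a * ((a ^ 2 + 1) * t + a)) * w.1 - a * w.2,
    w.2 - ((a ^ 2 + 1) * t + a) * w.1), ?_⟩
  rw [p3_eq]
  congr 1
  ext
  · simp only; ring
  · simp only; ring

lemma norm_p1 (a t : ℤ) (z : ℤ × ℤ) : (p1 a t z).norm =
    z.1 ^ 2 + ((a ^ 2 + 1) * t + a) * z.1 * z.2 - (1 + a * t) * z.2 ^ 2 := by
  rw [QuadraticAlgebra.norm_def, p1_re, p1_im]; ring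

lemma norm_p2 (a t : ℤ) (z : ℤ × ℤ) : (p2 a t z).norm =
    (1 + a * t) * z.1 ^ 2 + ((a ^ 2 + 1) * t + a) * z.1 * z.2 - z.2 ^ 2 := by
  rw [p2_eq, norm_p1]; ring

lemma norm_p3 (a t : ℤ) (z : ℤ × ℤ) : (p3 a t z).norm =
    (1 + a * t) * z.1 ^ 2 + (2 * (1 + a * t) * a - ((a ^ 2 + 1) * t + a)) * z.1 * z.2
      - (1 + a * t) * z.2 ^ 2 := by
  rw [p3_eq, norm_p2]; ring

/-! ### lower bounds for the forms -/

/-- basic inequality on the first edge -/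
lemma form_ge (ha : 1 ≤ a) (ht : 1 ≤ t) {x z : ℤ} (hz : 1 ≤ z) (hx : 1 ≤ x) (hzx : z ≤ a * x) :
    1 + a * t ≤ x ^ 2 + ((a ^ 2 + 1) * t + a) * x * z - (1 + a * t) * z ^ 2 := by
  have hm : 0 < 1 + a * t := by positivity
  have h1 : 0 ≤ (1 + a * t) * ((z - 1) * (a * x - z)) :=
    mul_nonneg hm.le (mul_nonneg (by linarith) (by linarith))
  rcases le_total (1 + a * t) (t * x) with h | h
  · -- increasing
    have h2 : 0 ≤ (z - 1) * (t * x - (1 + a * t)) := mul_nonneg (by linarith) (by linarith)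
    have h3 : 0 ≤ (t * x - (1 + a * t)) := by linarith
    have h4 : 0 ≤ (1 + a * t) * (a * x - 1) := mul_nonneg hm.le (by nlinarith)
    nlinarith [sq_nonneg x]
  · have h2 : 0 ≤ (a * x - z) * ((1 + a * t) - t * x) := mul_nonneg (by linarith) (by linarith)
    have h3 : 0 ≤ (1 + a * t) * (x ^ 2 - 1) := mul_nonneg hm.le (by nlinarith)
    nlinarith

lemma form1_ge (ha : 1 ≤ a) (ht : 1 ≤ t) {x y : ℤ} (hx : 1 ≤ x) (hy : 0 ≤ y) (hyx : y < a * x) :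
    x ^ 2 ≤ x ^ 2 + ((a ^ 2 + 1) * t + a) * x * y - (1 + a * t) * y ^ 2 := by
  have hm : 0 < 1 + a * t := by positivity
  have h1 : 0 ≤ (1 + a * t) * (y * (a * x - y)) :=
    mul_nonneg hm.le (mul_nonneg hy (by linarith))
  have h2 : 0 ≤ t * x * y := by positivity
  nlinarith

lemma form2_ge {x y : ℤ} (hy : 0 ≤ y)
    (hyx : y < ((a ^ 2 + 1) * t + a) * x) :
    (1 + a * t) * x ^ 2 ≤ (1 + a * t) * x ^ 2 + ((a ^ 2 + 1) * t + a) * x * y - y ^ 2 := by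
  have h1 : 0 ≤ y * (((a ^ 2 + 1) * t + a) * x - y) := mul_nonneg hy (by linarith)
  nlinarith

lemma form3_ge (ha : 1 ≤ a) (ht : 1 ≤ t) {x y : ℤ} (hx : 1 ≤ x) (hy : 0 ≤ y) (hyx : y < a * x) :
    1 + a * t ≤ (1 + a * t) * x ^ 2 + (2 * (1 + a * t) * a - ((a ^ 2 + 1) * t + a)) * x * y
      - (1 + a * t) * y ^ 2 := by
  have := form_ge ha ht (x := x) (z := a * x - y) (by linarith) hx (by linarith)
  nlinarith

lemma form3_ge' (ha : 1 ≤ a) (ht : 1 ≤ t) {x y : ℤ} (hx : 1 ≤ x) (hy : 0 ≤ y) (hyx : y < a * x) :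
    x ^ 2 ≤ (1 + a * t) * x ^ 2 + (2 * (1 + a * t) * a - ((a ^ 2 + 1) * t + a)) * x * y
      - (1 + a * t) * y ^ 2 := by
  have hm : 0 < 1 + a * t := by positivity
  have h1 : 0 ≤ (1 + a * t) * (y * (a * x - y)) :=
    mul_nonneg hm.le (mul_nonneg hy (by linarith))
  have h2 : 0 ≤ t * x * (a * x - y) := mul_nonneg (by positivity) (by linarith)
  nlinarith

/-! ### cones -/

/-- slope -/
noncomputable def sl (ha : 1 ≤ a) (ht : 1 ≤ t) (β : RC a t) : ℝ := s1 ha ht β / s2 ha ht β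

/-- half open cone -/
def cone (ha : 1 ≤ a) (ht : 1 ≤ t) (v w : RC a t) : Set (RC a t) :=
  {β | (0 < s1 ha ht β ∧ 0 < s2 ha ht β) ∧ sl ha ht w < sl ha ht β ∧ sl ha ht β ≤ sl ha ht v}

lemma cone_mem (ha : 1 ≤ a) (ht : 1 ≤ t) (v w next : RC a t) (n : ℤ) (hn : 1 ≤ n)
    (hv1 : 0 < s1 ha ht v) (hv2 : 0 < s2 ha ht v) (hw1 : 0 < s1 ha ht w) (hw2 : s2 ha ht w < 0)
    (hnext : next = v - (n : RC a t) * w) (hs : 0 < s1 ha ht next) (x y : ℤ) :
    (x : RC a t) * v - (y : RC a t) * w ∈ cone ha ht v next ↔ 0 ≤ y ∧ y < n * x := by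
  have hn' : (0 : ℝ) < n := by
    have : 0 < n := by linarith
    exact_mod_cast this
  have e1 : s1 ha ht next = s1 ha ht v - n * s1 ha ht w := by
    rw [hnext, map_sub, map_mul, map_intCast]
  have e2 : s2 ha ht next = s2 ha ht v - n * s2 ha ht w := by
    rw [hnext, map_sub, map_mul, map_intCast]
  have hs2 : 0 < s2 ha ht next := by
    rw [e2]
    nlinarith
  have key := cone_iff (s1 ha ht v) (s2 ha ht v) (s1 ha ht w) (s2 ha ht w) n x y hn' hv1 hv2 hw1 hw2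
    (by rw [← e1]; exact hs)
  have f1 : s1 ha ht ((x : RC a t) * v - (y : RC a t) * w) = x * s1 ha ht v - y * s1 ha ht w := by
    rw [map_sub, map_mul, map_mul, map_intCast, map_intCast]
  have f2 : s2 ha ht ((x : RC a t) * v - (y : RC a t) * w) = x * s2 ha ht v - y * s2 ha ht w := by
    rw [map_sub, map_mul, map_mul, map_intCast, map_intCast]
  have hR : (0 ≤ y ∧ y < n * x) ↔ ((0 : ℝ) ≤ y ∧ (y : ℝ) < n * x) := by
    constructor
    · rintro ⟨h1, h2⟩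
      exact ⟨by exact_mod_cast h1, by exact_mod_cast h2⟩
    · rintro ⟨h1, h2⟩
      exact ⟨by exact_mod_cast h1, by exact_mod_cast h2⟩
  rw [hR, ← key, ← e1, ← e2, ← f1, ← f2]
  unfold cone sl
  simp only [Set.mem_ofPred_eq]
  constructor
  · rintro ⟨⟨h1, h2⟩, h3, h4⟩
    refine ⟨⟨h1, h2⟩, ?_, ?_⟩
    · rwa [div_lt_div_iff₀ hs2 h2] at h3
    · rwa [div_le_div_iff₀ h2 hv2] at h4
  · rintro ⟨⟨h1, h2⟩, h3, h4⟩
    refine ⟨⟨h1, h2⟩, ?_, ?_⟩
    · rwa [div_lt_div_iff₀ hs2 h2]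
    · rwa [div_le_div_iff₀ h2 hv2]

lemma slope_lt (ha : 1 ≤ a) (ht : 1 ≤ t) (v w next : RC a t) (n : ℤ) (hn : 1 ≤ n)
    (hv1 : 0 < s1 ha ht v) (hv2 : 0 < s2 ha ht v) (hw1 : 0 < s1 ha ht w) (hw2 : s2 ha ht w < 0)
    (hnext : next = v - (n : RC a t) * w) : sl ha ht next < sl ha ht v := by
  have hn' : (0 : ℝ) < n := by
    have : 0 < n := by linarith
    exact_mod_cast this
  have e1 : s1 ha ht next = s1 ha ht v - n * s1 ha ht w := by
    rw [hnext, map_sub, map_mul, map_intCast]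
  have e2 : s2 ha ht next = s2 ha ht v - n * s2 ha ht w := by
    rw [hnext, map_sub, map_mul, map_intCast]
  have hs2 : 0 < s2 ha ht next := by
    rw [e2]
    nlinarith
  unfold sl
  rw [div_lt_div_iff₀ hs2 hv2, e1, e2]
  have : 0 < n * (s1 ha ht w * s2 ha ht v - s1 ha ht v * s2 ha ht w) := by
    apply mul_pos hn'
    nlinarith
  linarith

lemma B_pos (ha : 1 ≤ a) (ht : 1 ≤ t) : 1 ≤ (a ^ 2 + 1) * t + a := by nlinarith [sq_nonneg a]

lemma p1_mem (ha : 1 ≤ a) (ht : 1 ≤ t) (z : ℤ × ℤ) :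
    p1 a t z ∈ cone ha ht 1 (r2 a t) ↔ 0 ≤ z.2 ∧ z.2 < a * z.1 := by
  have := cone_mem ha ht 1 (r1 a t) (r2 a t) a ha (by simp) (by simp) (s1_r1_pos ha ht)
    (s2_r1_neg ha ht) (r2_eq a t) (s1_r2_pos ha ht) z.1 z.2
  rw [mul_one] at this
  exact this

lemma p2_mem (ha : 1 ≤ a) (ht : 1 ≤ t) (z : ℤ × ℤ) :
    p2 a t z ∈ cone ha ht (r2 a t) (r3 a t * r1 a t) ↔
      0 ≤ z.2 ∧ z.2 < ((a ^ 2 + 1) * t + a) * z.1 :=
  cone_mem ha ht (r2 a t) (r3 a t) (r3 a t * r1 a t) ((a ^ 2 + 1) * t + a) (B_pos ha ht)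
    (s1_r2_pos ha ht) (s2_r2_pos ha ht) (s1_r3_pos ha ht) (s2_r3_neg ha ht) (r4_eq a t)
    (by rw [map_mul]; exact mul_pos (s1_r3_pos ha ht) (s1_r1_pos ha ht)) z.1 z.2

lemma p3_mem (ha : 1 ≤ a) (ht : 1 ≤ t) (z : ℤ × ℤ) :
    p3 a t z ∈ cone ha ht (r3 a t * r1 a t) (r3 a t * r3 a t) ↔ 0 ≤ z.2 ∧ z.2 < a * z.1 :=
  cone_mem ha ht (r3 a t * r1 a t) (r3 a t * r2 a t) (r3 a t * r3 a t) a ha
    (by rw [map_mul]; exact mul_pos (s1_r3_pos ha ht) (s1_r1_pos ha ht))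
    (by rw [map_mul]; exact mul_pos_of_neg_of_neg (s2_r3_neg ha ht) (s2_r1_neg ha ht))
    (by rw [map_mul]; exact mul_pos (s1_r3_pos ha ht) (s1_r2_pos ha ht))
    (by rw [map_mul]; exact mul_neg_of_neg_of_pos (s2_r3_neg ha ht) (s2_r2_pos ha ht))
    (r6_eq a t)
    (by rw [map_mul]; exact mul_pos (s1_r3_pos ha ht) (s1_r3_pos ha ht)) z.1 z.2

lemma sl_one (ha : 1 ≤ a) (ht : 1 ≤ t) : sl ha ht 1 = 1 := by simp [sl]

lemma sl1 (ha : 1 ≤ a) (ht : 1 ≤ t) : sl ha ht (r2 a t) < sl ha ht 1 :=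
  slope_lt ha ht 1 (r1 a t) (r2 a t) a ha (by simp) (by simp) (s1_r1_pos ha ht)
    (s2_r1_neg ha ht) (r2_eq a t)

lemma sl2 (ha : 1 ≤ a) (ht : 1 ≤ t) : sl ha ht (r3 a t * r1 a t) < sl ha ht (r2 a t) :=
  slope_lt ha ht (r2 a t) (r3 a t) (r3 a t * r1 a t) ((a ^ 2 + 1) * t + a) (B_pos ha ht)
    (s1_r2_pos ha ht) (s2_r2_pos ha ht) (s1_r3_pos ha ht) (s2_r3_neg ha ht) (r4_eq a t)

lemma sl3 (ha : 1 ≤ a) (ht : 1 ≤ t) : sl ha ht (r3 a t * r3 a t) < sl ha ht (r3 a t * r1 a t) :=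
  slope_lt ha ht (r3 a t * r1 a t) (r3 a t * r2 a t) (r3 a t * r3 a t) a ha
    (by rw [map_mul]; exact mul_pos (s1_r3_pos ha ht) (s1_r1_pos ha ht))
    (by rw [map_mul]; exact mul_pos_of_neg_of_neg (s2_r3_neg ha ht) (s2_r1_neg ha ht))
    (by rw [map_mul]; exact mul_pos (s1_r3_pos ha ht) (s1_r2_pos ha ht))
    (by rw [map_mul]; exact mul_neg_of_neg_of_pos (s2_r3_neg ha ht) (s2_r2_pos ha ht))
    (r6_eq a t)

/-- the fundamental domain -/
def FD (ha : 1 ≤ a) (ht : 1 ≤ t) : Set (RC a t) := cone ha ht 1 (r3 a t * r3 a t)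

lemma FD_eq (ha : 1 ≤ a) (ht : 1 ≤ t) : FD ha ht = cone ha ht 1 (r2 a t) ∪
    cone ha ht (r2 a t) (r3 a t * r1 a t) ∪ cone ha ht (r3 a t * r1 a t) (r3 a t * r3 a t) := by
  have h1 := sl1 ha ht
  have h2 := sl2 ha ht
  have h3 := sl3 ha ht
  ext β
  simp only [FD, cone, Set.mem_union, Set.mem_ofPred_eq]
  constructor
  · rintro ⟨h, h4, h5⟩
    rcases lt_or_ge (sl ha ht (r2 a t)) (sl ha ht β) with h6 | h6
    · left; left; exact ⟨h, h6, h5⟩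
    · rcases lt_or_ge (sl ha ht (r3 a t * r1 a t)) (sl ha ht β) with h7 | h7
      · left; right; exact ⟨h, h7, h6⟩
      · right; exact ⟨h, h4, h7⟩
  · rintro ((⟨h, h4, h5⟩ | ⟨h, h4, h5⟩) | ⟨h, h4, h5⟩)
    · exact ⟨h, by linarith, by linarith⟩
    · exact ⟨h, by linarith, by linarith⟩
    · exact ⟨h, by linarith, by linarith⟩

lemma disj12 (ha : 1 ≤ a) (ht : 1 ≤ t) : Disjoint (cone ha ht 1 (r2 a t))
    (cone ha ht (r2 a t) (r3 a t * r1 a t)) := by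
  rw [Set.disjoint_left]
  rintro β ⟨_, h1, _⟩ ⟨_, _, h2⟩
  linarith

lemma disj123 (ha : 1 ≤ a) (ht : 1 ≤ t) : Disjoint (cone ha ht 1 (r2 a t) ∪
    cone ha ht (r2 a t) (r3 a t * r1 a t)) (cone ha ht (r3 a t * r1 a t) (r3 a t * r3 a t)) := by
  rw [Set.disjoint_left]
  have h2' := sl2 ha ht
  rintro β (⟨_, h1, _⟩ | ⟨_, h1, _⟩) ⟨_, _, h2⟩
  · linarith
  · linarith

/-- a unit of norm one in the fundamental domain is `1` -/
lemma eq_one_of_norm_one (ha : 1 ≤ a) (ht : 1 ≤ t) (u : RC a t) (hu : u ∈ FD ha ht)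
    (hN : u.norm = 1) : u = 1 := by
  have hm : 1 < 1 + a * t := by nlinarith
  rw [FD_eq] at hu
  rcases hu with (hu | hu) | hu
  · obtain ⟨z, rfl⟩ := p1_surj a t u
    rw [p1_mem] at hu
    obtain ⟨h0, h1⟩ := hu
    have hx : 1 ≤ z.1 := by
      by_contra hx
      push Not at hx
      have : z.1 ≤ 0 := by linarith
      nlinarith
    rw [norm_p1] at hN
    rcases eq_or_lt_of_le h0 with h | h
    · rw [← h] at hN
      have hx1 : z.1 = 1 := by nlinarith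
      rw [p1, ← h, hx1]
      simp
    · have := form_ge ha ht (x := z.1) (z := z.2) (by linarith) hx h1.le
      linarith
  · obtain ⟨z, rfl⟩ := p2_surj a t u
    rw [p2_mem] at hu
    obtain ⟨h0, h1⟩ := hu
    have hB := B_pos ha ht
    have hx : 1 ≤ z.1 := by
      by_contra hx
      push Not at hx
      have : z.1 ≤ 0 := by linarith
      nlinarith
    rw [norm_p2] at hN
    have := form2_ge (x := z.1) h0 h1
    nlinarith
  · obtain ⟨z, rfl⟩ := p3_surj a t u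
    rw [p3_mem] at hu
    obtain ⟨h0, h1⟩ := hu
    have hx : 1 ≤ z.1 := by
      by_contra hx
      push Not at hx
      have : z.1 ≤ 0 := by linarith
      nlinarith
    rw [norm_p3] at hN
    have := form3_ge ha ht (x := z.1) (y := z.2) hx h0 h1
    linarith

lemma s1_zpow (ha : 1 ≤ a) (ht : 1 ≤ t) (v : (RC a t)ˣ) (k : ℤ) :
    s1 ha ht ((v ^ k : (RC a t)ˣ) : RC a t) = (s1 ha ht (v : RC a t)) ^ k := by
  have h := map_zpow (Units.map ((s1 ha ht : RC a t →ₐ[ℤ] ℝ) : RC a t →* ℝ)) v k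
  have h' := congrArg (fun u : ℝˣ => (u : ℝ)) h
  simp only [Units.val_zpow_eq_zpow_val] at h'
  exact h'

lemma s2_zpow (ha : 1 ≤ a) (ht : 1 ≤ t) (v : (RC a t)ˣ) (k : ℤ) :
    s2 ha ht ((v ^ k : (RC a t)ˣ) : RC a t) = (s2 ha ht (v : RC a t)) ^ k := by
  have h := map_zpow (Units.map ((s2 ha ht : RC a t →ₐ[ℤ] ℝ) : RC a t →* ℝ)) v k
  have h' := congrArg (fun u : ℝˣ => (u : ℝ)) h
  simp only [Units.val_zpow_eq_zpow_val] at h'
  exact h'

lemma exists_assoc_pos (ha : 1 ≤ a) (ht : 1 ≤ t) (β : RC a t) (h1 : 0 < s1 ha ht β)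
    (h2 : 0 < s2 ha ht β) : ∃ γ ∈ FD ha ht, Associated γ β := by
  obtain ⟨u, hu⟩ : IsUnit (r3 a t * r3 a t) := (isUnit_r3 a t).mul (isUnit_r3 a t)
  have hu1 : 0 < s1 ha ht (u : RC a t) := by
    rw [hu, map_mul]; exact mul_pos (s1_r3_pos ha ht) (s1_r3_pos ha ht)
  have hu2 : 0 < s2 ha ht (u : RC a t) := by
    rw [hu, map_mul]; exact mul_pos_of_neg_of_neg (s2_r3_neg ha ht) (s2_r3_neg ha ht)
  have hsu : sl ha ht (u : RC a t) < 1 := by
    have e1 := sl1 ha ht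
    have e2 := sl2 ha ht
    have e3 := sl3 ha ht
    rw [sl_one] at e1
    rw [hu]
    linarith
  have hsu0 : 0 < sl ha ht (u : RC a t) := div_pos hu1 hu2
  have hsb0 : 0 < sl ha ht β := div_pos h1 h2
  have hy : 1 < (sl ha ht (u : RC a t))⁻¹ := (one_lt_inv₀ hsu0).mpr hsu
  obtain ⟨n, hn1, hn2⟩ := exists_mem_Ioc_zpow hsb0 hy
  refine ⟨β * ((u ^ (n + 1) : (RC a t)ˣ) : RC a t), ?_, ?_⟩
  · have f1 : s1 ha ht (β * ((u ^ (n + 1) : (RC a t)ˣ) : RC a t)) =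
        s1 ha ht β * (s1 ha ht (u : RC a t)) ^ (n + 1) := by rw [map_mul, s1_zpow]
    have f2 : s2 ha ht (β * ((u ^ (n + 1) : (RC a t)ˣ) : RC a t)) =
        s2 ha ht β * (s2 ha ht (u : RC a t)) ^ (n + 1) := by rw [map_mul, s2_zpow]
    have f3 : sl ha ht (β * ((u ^ (n + 1) : (RC a t)ˣ) : RC a t)) =
        sl ha ht β * (sl ha ht (u : RC a t)) ^ (n + 1) := by
      unfold sl
      rw [f1, f2, div_zpow]
      field_simp
    refine ⟨⟨?_, ?_⟩, ?_, ?_⟩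
    · rw [f1]; positivity
    · rw [f2]; positivity
    · rw [f3, ← hu]
      have hk : 0 < (sl ha ht (u : RC a t)) ^ (n + 1) := by positivity
      have := mul_lt_mul_of_pos_right hn1 hk
      rw [inv_zpow, zpow_add₀ hsu0.ne', zpow_one] at this
      have e : ((sl ha ht (u : RC a t)) ^ n)⁻¹ * ((sl ha ht (u : RC a t)) ^ n *
          sl ha ht (u : RC a t)) = sl ha ht (u : RC a t) := by
        field_simp
      rw [e] at this
      rwa [zpow_add₀ hsu0.ne', zpow_one]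
    · rw [f3, sl_one]
      have hk : 0 < (sl ha ht (u : RC a t)) ^ (n + 1) := by positivity
      have := mul_le_mul_of_nonneg_right hn2 hk.le
      rw [inv_zpow, inv_mul_cancel₀ hk.ne'] at this
      exact this
  · exact (associated_mul_unit_left β _ (Units.isUnit _))

lemma exists_assoc (ha : 1 ≤ a) (ht : 1 ≤ t) (β : RC a t) (hβ : β.norm ≠ 0) :
    ∃ γ ∈ FD ha ht, Associated γ β := by
  have hne : s1 ha ht β * s2 ha ht β ≠ 0 := by
    rw [← norm_eq_s1_mul_s2]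
    exact_mod_cast hβ
  have hne1 : s1 ha ht β ≠ 0 := left_ne_zero_of_mul hne
  have hne2 : s2 ha ht β ≠ 0 := right_ne_zero_of_mul hne
  -- reduce to `s1 > 0`
  obtain ⟨β', hβ', hassoc, hne2'⟩ : ∃ β', 0 < s1 ha ht β' ∧ Associated β' β ∧
      s2 ha ht β' ≠ 0 := by
    rcases lt_or_gt_of_ne hne1 with h | h
    · refine ⟨-β, ?_, (Associated.refl β).neg_left, ?_⟩
      · rw [map_neg]; linarith
      · rw [map_neg]; exact neg_ne_zero.mpr hne2
    · exact ⟨β, h, Associated.refl β, hne2⟩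
  rcases lt_or_gt_of_ne hne2' with h | h
  · obtain ⟨γ, hγ, hγ'⟩ := exists_assoc_pos ha ht (β' * r3 a t)
      (by rw [map_mul]; exact mul_pos hβ' (s1_r3_pos ha ht))
      (by rw [map_mul]; exact mul_pos_of_neg_of_neg h (s2_r3_neg ha ht))
    exact ⟨γ, hγ, (hγ'.trans (associated_mul_unit_left β' _ (isUnit_r3 a t))).trans hassoc⟩
  · obtain ⟨γ, hγ, hγ'⟩ := exists_assoc_pos ha ht β' hβ' h
    exact ⟨γ, hγ, hγ'.trans hassoc⟩

lemma unit_aux (ha : 1 ≤ a) (ht : 1 ≤ t) (β γ : RC a t) (hβ : β ∈ FD ha ht) (hγ : γ ∈ FD ha ht)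
    (u : (RC a t)ˣ) (hu : β * u = γ) (hle : sl ha ht γ ≤ sl ha ht β) : β = γ := by
  obtain ⟨⟨b1, b2⟩, b3, b4⟩ := hβ
  obtain ⟨⟨c1, c2⟩, c3, c4⟩ := hγ
  have e1 : s1 ha ht β * s1 ha ht (u : RC a t) = s1 ha ht γ := by rw [← map_mul, hu]
  have e2 : s2 ha ht β * s2 ha ht (u : RC a t) = s2 ha ht γ := by rw [← map_mul, hu]
  have hu1 : 0 < s1 ha ht (u : RC a t) := by
    rw [← e1] at c1
    exact (mul_pos_iff_of_pos_left b1).mp c1
  have hu2 : 0 < s2 ha ht (u : RC a t) := by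
    rw [← e2] at c2
    exact (mul_pos_iff_of_pos_left b2).mp c2
  have hsl : sl ha ht β * sl ha ht (u : RC a t) = sl ha ht γ := by
    unfold sl
    rw [← e1, ← e2]
    field_simp
  have hb0 : 0 < sl ha ht β := div_pos b1 b2
  have hu0 : 0 < sl ha ht (u : RC a t) := div_pos hu1 hu2
  have hmem : (u : RC a t) ∈ FD ha ht := by
    refine ⟨⟨hu1, hu2⟩, ?_, ?_⟩
    · rw [sl_one] at b4
      rw [← hsl] at c3
      nlinarith
    · rw [sl_one]
      rw [← hsl] at hle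
      by_contra hgt
      push Not at hgt
      nlinarith
  have hN : (u : RC a t).norm = 1 := by
    have h := QuadraticAlgebra.isUnit_iff_norm_isUnit.mp u.isUnit
    rcases Int.isUnit_iff.mp h with h | h
    · exact h
    · exfalso
      have := norm_eq_s1_mul_s2 ha ht (u : RC a t)
      rw [h] at this
      have h3 : 0 < s1 ha ht (u : RC a t) * s2 ha ht (u : RC a t) := mul_pos hu1 hu2
      rw [← this] at h3
      norm_num at h3
  have := eq_one_of_norm_one ha ht (u : RC a t) hmem hN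
  rw [← hu, this, mul_one]

lemma FD_injOn (ha : 1 ≤ a) (ht : 1 ≤ t) (β γ : RC a t) (hβ : β ∈ FD ha ht) (hγ : γ ∈ FD ha ht)
    (h : Associated β γ) : β = γ := by
  rcases le_total (sl ha ht γ) (sl ha ht β) with hle | hle
  · obtain ⟨u, hu⟩ := h
    exact unit_aux ha ht β γ hβ hγ u hu hle
  · obtain ⟨u, hu⟩ := h.symm
    exact (unit_aux ha ht γ β hγ hβ u hu hle).symm

lemma FD_norm_pos (ha : 1 ≤ a) (ht : 1 ≤ t) (β : RC a t) (hβ : β ∈ FD ha ht) : 0 < β.norm := by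
  have := norm_eq_s1_mul_s2 ha ht β
  have h : (0 : ℝ) < ((β.norm : ℤ) : ℝ) := by
    rw [this]; exact mul_pos hβ.1.1 hβ.1.2
  exact_mod_cast h

/-! ### the count, with integer parameters -/

/-- edge 1 points -/
def I1 (a t : ℤ) (n : ℕ) : Set (ℤ × ℤ) := {z | (0 ≤ z.2 ∧ z.2 < a * z.1) ∧
  z.1 ^ 2 + ((a ^ 2 + 1) * t + a) * z.1 * z.2 - (1 + a * t) * z.2 ^ 2 = n}
/-- edge 2 points -/
def I2 (a t : ℤ) (n : ℕ) : Set (ℤ × ℤ) := {z | (0 ≤ z.2 ∧ z.2 < ((a ^ 2 + 1) * t + a) * z.1) ∧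
  (1 + a * t) * z.1 ^ 2 + ((a ^ 2 + 1) * t + a) * z.1 * z.2 - z.2 ^ 2 = n}
/-- edge 3 points -/
def I3 (a t : ℤ) (n : ℕ) : Set (ℤ × ℤ) := {z | (0 ≤ z.2 ∧ z.2 < a * z.1) ∧
  (1 + a * t) * z.1 ^ 2 + (2 * (1 + a * t) * a - ((a ^ 2 + 1) * t + a)) * z.1 * z.2
      - (1 + a * t) * z.2 ^ 2 = n}

lemma pos_of_cone {N x y : ℤ} (hN : 1 ≤ N) (h0 : 0 ≤ y) (h1 : y < N * x) : 1 ≤ x := by
  by_contra hx
  push Not at hx
  have : x ≤ 0 := by linarith
  nlinarith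

lemma finite_aux (N : ℤ) (n : ℕ) (hN : 1 ≤ N) (S : Set (ℤ × ℤ))
    (h : ∀ z ∈ S, 0 ≤ z.2 ∧ z.2 < N * z.1 ∧ z.1 ^ 2 ≤ n) : S.Finite := by
  apply Set.Finite.subset (Set.Finite.prod (Set.finite_Icc (0 : ℤ) n) (Set.finite_Icc (0 : ℤ) (N * n)))
  intro z hz
  obtain ⟨h0, h1, h2⟩ := h z hz
  have hx := pos_of_cone hN h0 h1
  have hxn : z.1 ≤ n := by nlinarith
  refine ⟨⟨by linarith, hxn⟩, ⟨h0, ?_⟩⟩
  nlinarith

lemma I1_finite (ha : 1 ≤ a) (ht : 1 ≤ t) (n : ℕ) : (I1 a t n).Finite := by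
  apply finite_aux a n ha
  rintro z ⟨⟨h0, h1⟩, h2⟩
  have hx := pos_of_cone ha h0 h1
  have := form1_ge ha ht hx h0 h1
  exact ⟨h0, h1, by linarith⟩

lemma I2_finite (ha : 1 ≤ a) (ht : 1 ≤ t) (n : ℕ) : (I2 a t n).Finite := by
  apply finite_aux ((a ^ 2 + 1) * t + a) n (B_pos ha ht)
  rintro z ⟨⟨h0, h1⟩, h2⟩
  have hx := pos_of_cone (B_pos ha ht) h0 h1
  have := form2_ge (x := z.1) h0 h1
  refine ⟨h0, h1, ?_⟩
  have : 0 ≤ a * t * z.1 ^ 2 := by positivity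
  nlinarith

lemma I3_finite (ha : 1 ≤ a) (ht : 1 ≤ t) (n : ℕ) : (I3 a t n).Finite := by
  apply finite_aux a n ha
  rintro z ⟨⟨h0, h1⟩, h2⟩
  have hx := pos_of_cone ha h0 h1
  have := form3_ge' ha ht hx h0 h1
  exact ⟨h0, h1, by linarith⟩

/-- elements of the fundamental domain of norm `n` -/
def G (ha : 1 ≤ a) (ht : 1 ≤ t) (n : ℕ) : Set (RC a t) := {β | β ∈ FD ha ht ∧ β.norm = n}

lemma G_eq (ha : 1 ≤ a) (ht : 1 ≤ t) (n : ℕ) : G ha ht n =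
    p1 a t '' I1 a t n ∪ p2 a t '' I2 a t n ∪ p3 a t '' I3 a t n := by
  ext β
  simp only [G, FD_eq, Set.mem_ofPred_eq, Set.mem_union, Set.mem_image, I1, I2, I3]
  constructor
  · rintro ⟨(h | h) | h, hN⟩
    · obtain ⟨z, rfl⟩ := p1_surj a t β
      left; left
      exact ⟨z, ⟨(p1_mem ha ht z).mp h, by rw [← norm_p1]; exact hN⟩, rfl⟩
    · obtain ⟨z, rfl⟩ := p2_surj a t β
      left; right
      exact ⟨z, ⟨(p2_mem ha ht z).mp h, by rw [← norm_p2]; exact hN⟩, rfl⟩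
    · obtain ⟨z, rfl⟩ := p3_surj a t β
      right
      exact ⟨z, ⟨(p3_mem ha ht z).mp h, by rw [← norm_p3]; exact hN⟩, rfl⟩
  · rintro ((⟨z, ⟨h, hN⟩, rfl⟩ | ⟨z, ⟨h, hN⟩, rfl⟩) | ⟨z, ⟨h, hN⟩, rfl⟩)
    · exact ⟨Or.inl (Or.inl ((p1_mem ha ht z).mpr h)), by rw [norm_p1]; exact hN⟩
    · exact ⟨Or.inl (Or.inr ((p2_mem ha ht z).mpr h)), by rw [norm_p2]; exact hN⟩
    · exact ⟨Or.inr ((p3_mem ha ht z).mpr h), by rw [norm_p3]; exact hN⟩

lemma G_ncard (ha : 1 ≤ a) (ht : 1 ≤ t) (n : ℕ) : (G ha ht n).ncard =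
    (I1 a t n).ncard + (I2 a t n).ncard + (I3 a t n).ncard := by
  have f1 := (I1_finite ha ht n).image (p1 a t)
  have f2 := (I2_finite ha ht n).image (p2 a t)
  have f3 := (I3_finite ha ht n).image (p3 a t)
  have d12 : Disjoint (p1 a t '' I1 a t n) (p2 a t '' I2 a t n) := by
    apply Set.disjoint_of_subset _ _ (disj12 ha ht)
    · rintro _ ⟨z, ⟨h, _⟩, rfl⟩; exact (p1_mem ha ht z).mpr h
    · rintro _ ⟨z, ⟨h, _⟩, rfl⟩; exact (p2_mem ha ht z).mpr h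
  have d123 : Disjoint (p1 a t '' I1 a t n ∪ p2 a t '' I2 a t n) (p3 a t '' I3 a t n) := by
    apply Set.disjoint_of_subset _ _ (disj123 ha ht)
    · rintro _ (⟨z, ⟨h, _⟩, rfl⟩ | ⟨z, ⟨h, _⟩, rfl⟩)
      · left; exact (p1_mem ha ht z).mpr h
      · right; exact (p2_mem ha ht z).mpr h
    · rintro _ ⟨z, ⟨h, _⟩, rfl⟩; exact (p3_mem ha ht z).mpr h
  rw [G_eq, Set.ncard_union_eq d123 (f1.union f2) f3, Set.ncard_union_eq d12 f1 f2,
    Set.ncard_image_of_injective _ (p1_inj a t), Set.ncard_image_of_injective _ (p2_inj a t),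
    Set.ncard_image_of_injective _ (p3_inj a t)]

lemma image_G (ha : 1 ≤ a) (ht : 1 ≤ t) (n : ℕ) (hn : n ≠ 0) :
    Associates.mk '' G ha ht n = SN (1 + a * t) ((a ^ 2 + 1) * t + a) n := by
  ext c
  constructor
  · rintro ⟨β, ⟨_, hN⟩, rfl⟩
    change absN _ = n
    rw [absN_mk, hN]
    simp
  · intro hc
    obtain ⟨β, rfl⟩ := Associates.mk_surjective c
    have hc' : β.norm.natAbs = n := hc
    have hβ : β.norm ≠ 0 := by
      intro h
      rw [h] at hc'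
      exact hn (by simpa using hc'.symm)
    obtain ⟨γ, hγ, hγβ⟩ := exists_assoc ha ht β hβ
    refine ⟨γ, ⟨hγ, ?_⟩, Associates.mk_eq_mk_iff_associated.mpr hγβ⟩
    have h1 := FD_norm_pos ha ht γ hγ
    have h2 : γ.norm.natAbs = β.norm.natAbs := by
      have := congrArg absN (Associates.mk_eq_mk_iff_associated.mpr hγβ)
      rwa [absN_mk, absN_mk] at this
    rw [hc'] at h2
    omega

/-- the count with integer parameters -/
theorem count_int (ha : 1 ≤ a) (ht : 1 ≤ t) (n : ℕ) (hn : n ≠ 0) :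
    (SN (1 + a * t) ((a ^ 2 + 1) * t + a) n).ncard =
      (I1 a t n).ncard + (I2 a t n).ncard + (I3 a t n).ncard := by
  rw [← image_G ha ht n hn, ← G_ncard ha ht n]
  apply Set.InjOn.ncard_image
  intro β hβ γ hγ h
  exact FD_injOn ha ht β γ hβ.1 hγ.1 (Associates.mk_eq_mk_iff_associated.mp h)

/-! ### natural parameters -/

/-- points on the first edge -/
def E1 (a t n : ℕ) : Set (ℕ × ℕ) := {z | 1 ≤ z.1 ∧ z.2 < a * z.1 ∧
  (z.1 : ℤ) ^ 2 + (((a ^ 2 + 1) * t + a : ℕ) : ℤ) * z.1 * z.2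
    - ((1 + a * t : ℕ) : ℤ) * (z.2 : ℤ) ^ 2 = n}
/-- points on the second edge -/
def E2 (a t n : ℕ) : Set (ℕ × ℕ) := {z | 1 ≤ z.1 ∧ z.2 < ((a ^ 2 + 1) * t + a) * z.1 ∧
  ((1 + a * t : ℕ) : ℤ) * (z.1 : ℤ) ^ 2 + (((a ^ 2 + 1) * t + a : ℕ) : ℤ) * z.1 * z.2
    - (z.2 : ℤ) ^ 2 = n}
/-- points on the third edge -/
def E3 (a t n : ℕ) : Set (ℕ × ℕ) := {z | 1 ≤ z.1 ∧ z.2 < a * z.1 ∧
  ((1 + a * t : ℕ) : ℤ) * (z.1 : ℤ) ^ 2
    + (2 * ((1 + a * t : ℕ) : ℤ) * a - (((a ^ 2 + 1) * t + a : ℕ) : ℤ)) * z.1 * z.2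
    - ((1 + a * t : ℕ) : ℤ) * (z.2 : ℤ) ^ 2 = n}

/-- cast of pairs -/
def cst (z : ℕ × ℕ) : ℤ × ℤ := ((z.1 : ℤ), (z.2 : ℤ))

lemma cst_inj : Function.Injective cst := by
  intro z w h
  simp only [cst, Prod.mk.injEq, Nat.cast_inj] at h
  exact Prod.ext h.1 h.2

lemma image_cst (N : ℕ) (hN : 1 ≤ N) (f : ℤ → ℤ → ℤ) (n : ℕ) :
    cst '' {z : ℕ × ℕ | 1 ≤ z.1 ∧ z.2 < N * z.1 ∧ f z.1 z.2 = n} =
      {z : ℤ × ℤ | (0 ≤ z.2 ∧ z.2 < N * z.1) ∧ f z.1 z.2 = n} := by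
  ext w
  simp only [Set.mem_image, Set.mem_ofPred_eq]
  constructor
  · rintro ⟨z, ⟨_, h1, h2⟩, rfl⟩
    refine ⟨⟨?_, ?_⟩, h2⟩
    · simp [cst]
    · simp only [cst]; exact_mod_cast h1
  · rintro ⟨⟨h0, h1⟩, h2⟩
    have hx := pos_of_cone (by exact_mod_cast hN : (1 : ℤ) ≤ N) h0 h1
    obtain ⟨x, hx'⟩ := Int.eq_ofNat_of_zero_le (by linarith : 0 ≤ w.1)
    obtain ⟨y, hy'⟩ := Int.eq_ofNat_of_zero_le h0
    refine ⟨(x, y), ⟨?_, ?_, ?_⟩, ?_⟩
    · simp only; omega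
    · simp only
      rw [hx', hy'] at h1
      exact_mod_cast h1
    · simp only
      rw [hx', hy'] at h2
      exact h2
    · simp only [cst]
      rw [← hx', ← hy']

end Cone

open Cone in
/-- **T3**: the number of classes of norm `n` is the number of lattice points on the three edges -/
theorem cone_count (a t n : ℕ) (ha : 1 ≤ a) (ht : 1 ≤ t) (hn : n ≠ 0) :
    ((E1 a t n).Finite ∧ (E2 a t n).Finite ∧ (E3 a t n).Finite) ∧
    (SN ((1 + a * t : ℕ) : ℤ) (((a ^ 2 + 1) * t + a : ℕ) : ℤ) n).ncard =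
      (E1 a t n).ncard + (E2 a t n).ncard + (E3 a t n).ncard := by
  have ha' : (1 : ℤ) ≤ a := by exact_mod_cast ha
  have ht' : (1 : ℤ) ≤ t := by exact_mod_cast ht
  have em : ((1 + a * t : ℕ) : ℤ) = 1 + (a : ℤ) * t := by push_cast; ring
  have eB : (((a ^ 2 + 1) * t + a : ℕ) : ℤ) = ((a : ℤ) ^ 2 + 1) * t + a := by push_cast; ring
  have hB : 1 ≤ (a ^ 2 + 1) * t + a := by omega
  have i1 : cst '' E1 a t n = I1 a t n := by
    have := image_cst a ha (fun x y => x ^ 2 + (((a ^ 2 + 1) * t + a : ℕ) : ℤ) * x * y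
      - ((1 + a * t : ℕ) : ℤ) * y ^ 2) n
    simp only [em, eB] at this
    simp only [E1, I1, em, eB]
    exact this
  have i2 : cst '' E2 a t n = I2 a t n := by
    have := image_cst ((a ^ 2 + 1) * t + a) hB (fun x y => ((1 + a * t : ℕ) : ℤ) * x ^ 2
      + (((a ^ 2 + 1) * t + a : ℕ) : ℤ) * x * y - y ^ 2) n
    simp only [em, eB] at this
    simp only [E2, I2, em, eB]
    exact this
  have i3 : cst '' E3 a t n = I3 a t n := by
    have := image_cst a ha (fun x y => ((1 + a * t : ℕ) : ℤ) * x ^ 2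
      + (2 * ((1 + a * t : ℕ) : ℤ) * a - (((a ^ 2 + 1) * t + a : ℕ) : ℤ)) * x * y
      - ((1 + a * t : ℕ) : ℤ) * y ^ 2) n
    simp only [em, eB] at this
    simp only [E3, I3, em, eB]
    exact this
  refine ⟨⟨?_, ?_, ?_⟩, ?_⟩
  · exact Set.Finite.of_finite_image (i1 ▸ I1_finite ha' ht' n) cst_inj.injOn
  · exact Set.Finite.of_finite_image (i2 ▸ I2_finite ha' ht' n) cst_inj.injOn
  · exact Set.Finite.of_finite_image (i3 ▸ I3_finite ha' ht' n) cst_inj.injOn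
  · rw [← Set.ncard_image_of_injective _ cst_inj, ← Set.ncard_image_of_injective (E2 a t n) cst_inj,
      ← Set.ncard_image_of_injective (E3 a t n) cst_inj, i1, i2, i3, em, eB]
    exact count_int ha' ht' n hn

end Pool.Agent.LibH4
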