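import Mathlib

/-!
Counting elements of given norm in a quadratic order with unique factorisation.
-/

namespace Pool.Agent.LibH4

variable {m B : ℤ}

/-- absolute norm on classes of associates -/
def absN (c : Associates (QuadraticAlgebra ℤ m B)) : ℕ :=
  Quotient.liftOn c (fun z => z.norm.natAbs) (by
    rintro z _ ⟨u, rfl⟩
    have hu : IsUnit (u : QuadraticAlgebra ℤ m B).norm :=
      QuadraticAlgebra.isUnit_iff_norm_isUnit.mp u.isUnit
    rw [Int.isUnit_iff_natAbs_eq] at hu
    change z.norm.natAbs = (z * u).norm.natAbs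
    rw [map_mul, Int.natAbs_mul, hu, mul_one])

@[simp] lemma absN_mk (z : QuadraticAlgebra ℤ m B) : absN (Associates.mk z) = z.norm.natAbs := rfl

lemma absN_mul (c c' : Associates (QuadraticAlgebra ℤ m B)) :
    absN (c * c') = absN c * absN c' := by
  obtain ⟨z, rfl⟩ := Associates.mk_surjective c
  obtain ⟨z', rfl⟩ := Associates.mk_surjective c'
  rw [Associates.mk_mul_mk]
  simp [Int.natAbs_mul]

lemma absN_eq_one_iff (c : Associates (QuadraticAlgebra ℤ m B)) : absN c = 1 ↔ c = 1 := by
  obtain ⟨z, rfl⟩ := Associates.mk_surjective c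
  rw [absN_mk, Associates.mk_eq_one, QuadraticAlgebra.isUnit_iff_norm_isUnit,
    Int.isUnit_iff_natAbs_eq]

/-- divisibility of coordinates -/
lemma intCast_dvd_quad (p : ℤ) (z : QuadraticAlgebra ℤ m B) :
    ((p : QuadraticAlgebra ℤ m B) ∣ z) ↔ p ∣ z.re ∧ p ∣ z.im := by
  constructor
  · rintro ⟨w, rfl⟩
    constructor
    · exact ⟨w.re, by simp⟩
    · exact ⟨w.im, by simp⟩
  · rintro ⟨⟨u, hu⟩, ⟨v, hv⟩⟩
    exact ⟨⟨u, v⟩, by ext <;> simp [hu, hv]⟩

lemma intCast_norm_eq (z : QuadraticAlgebra ℤ m B) :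
    ((z.norm : ℤ) : QuadraticAlgebra ℤ m B) = z * star z := by
  have := QuadraticAlgebra.algebraMap_norm_eq_mul_star z
  simpa using this

lemma four_norm (z : QuadraticAlgebra ℤ m B) :
    4 * z.norm = (2 * z.re + B * z.im) ^ 2 - (B ^ 2 + 4 * m) * z.im ^ 2 := by
  rw [QuadraticAlgebra.norm_def]; ring

/-- the divisor sum -/
def sig (d n : ℕ) : ℤ := ∑ l ∈ n.divisors, jacobiSym l d

lemma sig_one (d : ℕ) : sig d 1 = 1 := by
  simp [sig]

lemma divisors_prime_mul {p n : ℕ} (hp : p.Prime) (hn : n ≠ 0) :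
    (p * n).divisors = n.divisors ∪ n.divisors.image (fun l => p * l) := by
  ext l
  simp only [Nat.mem_divisors, Finset.mem_union, Finset.mem_image]
  constructor
  · rintro ⟨hl, _⟩
    by_cases hpl : p ∣ l
    · right
      obtain ⟨l', rfl⟩ := hpl
      exact ⟨l', ⟨Nat.dvd_of_mul_dvd_mul_left hp.pos hl, hn⟩, rfl⟩
    · left
      exact ⟨(((Nat.Prime.coprime_iff_not_dvd hp).mpr hpl).symm).dvd_of_dvd_mul_left hl, hn⟩
  · rintro (⟨h, _⟩ | ⟨l', ⟨h, _⟩, rfl⟩)
    · exact ⟨h.mul_left p, mul_ne_zero hp.ne_zero hn⟩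
    · exact ⟨Nat.mul_dvd_mul_left p h, mul_ne_zero hp.ne_zero hn⟩

lemma sig_rec (d : ℕ) {p n : ℕ} (hp : p.Prime) (hn : n ≠ 0) :
    sig d (p * n) = (1 + jacobiSym p d) * sig d n -
      jacobiSym p d * (if p ∣ n then sig d (n / p) else 0) := by
  have hinter : n.divisors ∩ n.divisors.image (fun l => p * l) =
      if p ∣ n then (n / p).divisors.image (fun l => p * l) else ∅ := by
    split_ifs with h
    · obtain ⟨n', rfl⟩ := h
      have hn' : n' ≠ 0 := by rintro rfl; simp at hn
      rw [Nat.mul_div_cancel_left _ hp.pos]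
      ext l
      simp only [Nat.mem_divisors, Finset.mem_inter, Finset.mem_image]
      constructor
      · rintro ⟨⟨h1, h2⟩, l', ⟨h3, _⟩, rfl⟩
        exact ⟨l', ⟨Nat.dvd_of_mul_dvd_mul_left hp.pos h1, hn'⟩, rfl⟩
      · rintro ⟨l', ⟨h1, _⟩, rfl⟩
        exact ⟨⟨Nat.mul_dvd_mul_left p h1, hn⟩, l', ⟨h1.mul_left p, hn⟩, rfl⟩
    · rw [Finset.eq_empty_iff_forall_notMem]
      intro l hl
      simp only [Nat.mem_divisors, Finset.mem_inter, Finset.mem_image] at hl
      obtain ⟨⟨h1, _⟩, l', _, rfl⟩ := hl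
      exact h ((Dvd.intro l' rfl).trans h1)
  have hsum := Finset.sum_union_inter (s₁ := n.divisors) (s₂ := n.divisors.image (fun l => p * l))
    (f := fun l => jacobiSym (l : ℤ) d)
  rw [← divisors_prime_mul hp hn, hinter] at hsum
  have hinj : Set.InjOn (fun l => p * l) (n.divisors : Set ℕ) := by
    intro a _ b _ hab
    exact Nat.eq_of_mul_eq_mul_left hp.pos hab
  rw [Finset.sum_image hinj] at hsum
  have himg : ∑ x ∈ n.divisors, jacobiSym ((p * x : ℕ) : ℤ) d = jacobiSym p d * sig d n := by
    rw [sig, Finset.mul_sum]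
    apply Finset.sum_congr rfl
    intro x _
    push_cast
    rw [jacobiSym.mul_left]
  rw [himg] at hsum
  have hlast : ∑ x ∈ (if p ∣ n then (n / p).divisors.image (fun l => p * l) else ∅),
      jacobiSym (x : ℤ) d = jacobiSym p d * (if p ∣ n then sig d (n / p) else 0) := by
    split_ifs with h
    · have hinj' : Set.InjOn (fun l => p * l) ((n / p).divisors : Set ℕ) := by
        intro a _ b _ hab
        exact Nat.eq_of_mul_eq_mul_left hp.pos hab
      rw [Finset.sum_image hinj', sig, Finset.mul_sum]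
      apply Finset.sum_congr rfl
      intro x _
      push_cast
      rw [jacobiSym.mul_left]
    · simp
  rw [hlast] at hsum
  unfold sig at *
  linarith


/-- For an odd prime `p`, the Jacobi symbol `(p/d)` equals the Legendre symbol `(d/p)`. -/
lemma jacobi_eq_legendre {d p : ℕ} (h8 : d % 8 = 5) [hp : Fact p.Prime] (hp2 : p ≠ 2) :
    jacobiSym p d = legendreSym p d := by
  have hodd : Odd p := hp.out.odd_of_ne_two hp2
  rw [← jacobiSym.quadratic_reciprocity_one_mod_four (by omega) hodd,
    jacobiSym.legendreSym.to_jacobiSym]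

lemma jacobi_two {d : ℕ} (h8 : d % 8 = 5) : jacobiSym (2 : ℕ) d = -1 := by
  have hodd : Odd d := by rw [Nat.odd_iff]; omega
  have h := jacobiSym.at_two hodd
  have h2 : ((2 : ℕ) : ℤ) = 2 := rfl
  rw [h2, h]
  have : (d : ZMod 8) = 5 := by
    have : ((d : ℕ) : ZMod 8) = ((d % 8 : ℕ) : ZMod 8) := by simp
    rw [this, h8]
    rfl
  rw [this]
  decide

lemma parity {d : ℕ} (hd : (d : ℤ) = B ^ 2 + 4 * m) (h8 : d % 8 = 5) : B % 2 = 1 ∧ m % 2 = 1 := by
  have hB : B % 2 = 1 := by
    by_contra hB
    have hB0 : B % 2 = 0 := by omega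
    obtain ⟨b, hb⟩ : (2 : ℤ) ∣ B := Int.dvd_of_emod_eq_zero hB0
    rw [hb] at hd
    have : (d : ℤ) = 4 * (b ^ 2 + m) := by rw [hd]; ring
    omega
  refine ⟨hB, ?_⟩
  obtain ⟨b, hb⟩ : ∃ b, B = 2 * b + 1 := ⟨B / 2, by omega⟩
  have h2 : (2 : ℤ) ∣ b * (b + 1) := by
    rcases Int.emod_two_eq_zero_or_one b with h | h
    · exact (Int.dvd_of_emod_eq_zero h).mul_right _
    · exact (Int.dvd_of_emod_eq_zero (by omega : (b + 1) % 2 = 0)).mul_left _
  obtain ⟨c, hc⟩ := h2
  have : (d : ℤ) = 8 * c + 1 + 4 * m := by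
    rw [hd, hb]
    have : (2 * b + 1) ^ 2 = 4 * (b * (b + 1)) + 1 := by ring
    rw [this, hc]; ring
  omega

/-- inert primes divide an element as soon as they divide its norm -/
lemma dvd_of_dvd_norm {d p : ℕ} (hd : (d : ℤ) = B ^ 2 + 4 * m) (h8 : d % 8 = 5)
    (hp : p.Prime) (hj : jacobiSym p d = -1) (z : QuadraticAlgebra ℤ m B)
    (hz : (p : ℤ) ∣ z.norm) : ((p : ℕ) : QuadraticAlgebra ℤ m B) ∣ z := by
  have hpp : Prime (p : ℤ) := Nat.prime_iff_prime_int.mp hp
  have key : (p : ℤ) ∣ z.im := by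
    by_contra him
    rcases eq_or_ne p 2 with rfl | hp2
    · obtain ⟨hB, hm⟩ := parity hd h8
      have him' : z.im % 2 = 1 := by
        have : ¬ (2 : ℤ) ∣ z.im := by exact_mod_cast him
        omega
      rw [QuadraticAlgebra.norm_def] at hz
      have hz' : (z.re * z.re + B * z.re * z.im - m * z.im * z.im) % 2 = 0 :=
        Int.emod_eq_zero_of_dvd (by exact_mod_cast hz)
      rcases Int.emod_two_eq_zero_or_one z.re with h | h
      · simp [Int.sub_emod, Int.add_emod, Int.mul_emod, h, hB, hm, him'] at hz'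
      · simp [Int.sub_emod, Int.add_emod, Int.mul_emod, h, hB, hm, him'] at hz'
    · have : Fact p.Prime := ⟨hp⟩
      rw [jacobi_eq_legendre h8 hp2, legendreSym.eq_neg_one_iff] at hj
      apply hj
      have him0 : (z.im : ZMod p) ≠ 0 := by
        rw [Ne, ZMod.intCast_zmod_eq_zero_iff_dvd]; exact him
      have h4 : ((4 * z.norm : ℤ) : ZMod p) = 0 := by
        rw [ZMod.intCast_zmod_eq_zero_iff_dvd]
        exact hz.mul_left 4
      rw [four_norm, ← hd] at h4
      push_cast at h4
      refine ⟨(2 * (z.re : ZMod p) + B * z.im) / z.im, ?_⟩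
      have h5 : (2 * (z.re : ZMod p) + B * z.im) ^ 2 = d * (z.im : ZMod p) ^ 2 := by
        linear_combination h4
      push_cast
      field_simp
      linear_combination -h5
  have hre2 : (p : ℤ) ∣ z.re * z.re := by
    have e : z.re * z.re = z.norm - z.im * (B * z.re - m * z.im) := by
      rw [QuadraticAlgebra.norm_def]; ring
    rw [e]
    exact dvd_sub hz (key.mul_right _)
  have hre : (p : ℤ) ∣ z.re := by
    rcases hpp.dvd_or_dvd hre2 with h | h <;> exact h
  have h := (intCast_dvd_quad (p : ℤ) z).mpr ⟨hre, key⟩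
  exact_mod_cast h

lemma natAbs_norm_natCast (p : ℕ) :
    ((p : ℕ) : QuadraticAlgebra ℤ m B).norm.natAbs = p ^ 2 := by
  rw [QuadraticAlgebra.norm_natCast, Int.natAbs_pow, Int.natAbs_natCast]

lemma natCast_ne_zero {p : ℕ} (hp : p.Prime) : ((p : ℕ) : QuadraticAlgebra ℤ m B) ≠ 0 := by
  intro h
  have := congrArg QuadraticAlgebra.re h
  simp only [QuadraticAlgebra.re_natCast, QuadraticAlgebra.re_zero] at this
  exact hp.ne_zero (by exact_mod_cast this)

lemma natCast_not_unit {p : ℕ} (hp : p.Prime) : ¬ IsUnit ((p : ℕ) : QuadraticAlgebra ℤ m B) := by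
  rw [QuadraticAlgebra.isUnit_iff_norm_isUnit, Int.isUnit_iff_natAbs_eq, natAbs_norm_natCast]
  intro h
  have := hp.one_lt
  nlinarith

/-- inert primes are prime elements -/
lemma prime_of_inert {d p : ℕ} (hd : (d : ℤ) = B ^ 2 + 4 * m) (h8 : d % 8 = 5)
    (hp : p.Prime) (hj : jacobiSym p d = -1) : Prime ((p : ℕ) : QuadraticAlgebra ℤ m B) := by
  refine ⟨natCast_ne_zero hp, natCast_not_unit hp, ?_⟩
  intro z w hzw
  have hpp : Prime (p : ℤ) := Nat.prime_iff_prime_int.mp hp
  have h1 : (p : ℤ) ∣ z.norm * w.norm := by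
    obtain ⟨v, hv⟩ := hzw
    rw [← map_mul, hv, map_mul, QuadraticAlgebra.norm_natCast]
    exact (dvd_pow_self _ two_ne_zero).mul_right _
  rcases hpp.dvd_or_dvd h1 with h | h
  · left; exact dvd_of_dvd_norm hd h8 hp hj z h
  · right; exact dvd_of_dvd_norm hd h8 hp hj w h

/-- the element `x + ω` -/
def lin (x : ℤ) : QuadraticAlgebra ℤ m B := ⟨x, 1⟩

lemma norm_lin (x : ℤ) : (lin x : QuadraticAlgebra ℤ m B).norm = x ^ 2 + B * x - m := by
  rw [QuadraticAlgebra.norm_def]; simp [lin]; ring

lemma not_dvd_lin {p : ℕ} (hp : p.Prime) (x : ℤ) :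
    ¬ ((p : ℕ) : QuadraticAlgebra ℤ m B) ∣ lin x := by
  intro h
  have h' : (((p : ℕ) : ℤ) : QuadraticAlgebra ℤ m B) ∣ lin x := by exact_mod_cast h
  rw [intCast_dvd_quad] at h'
  have h1 : ((p : ℕ) : ℤ) ∣ 1 := h'.2
  have h2 : p ∣ 1 := by exact_mod_cast h1
  exact hp.one_lt.ne' (Nat.dvd_one.mp h2)

lemma not_dvd_star_lin {p : ℕ} (hp : p.Prime) (x : ℤ) :
    ¬ ((p : ℕ) : QuadraticAlgebra ℤ m B) ∣ star (lin x) := by
  intro h
  have h' : (((p : ℕ) : ℤ) : QuadraticAlgebra ℤ m B) ∣ star (lin x) := by exact_mod_cast h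
  rw [intCast_dvd_quad] at h'
  have h1 : ((p : ℕ) : ℤ) ∣ -1 := h'.2
  have h2 : ((p : ℕ) : ℤ) ∣ 1 := by simpa using h1
  have h3 : p ∣ 1 := by exact_mod_cast h2
  exact hp.one_lt.ne' (Nat.dvd_one.mp h3)

lemma exists_root {d p : ℕ} (hd : (d : ℤ) = B ^ 2 + 4 * m) (h8 : d % 8 = 5)
    (hp : p.Prime) (hj : jacobiSym p d ≠ -1) : ∃ x : ℤ, (p : ℤ) ∣ x ^ 2 + B * x - m := by
  have hp2 : p ≠ 2 := by
    rintro rfl
    exact hj (jacobi_two h8)
  have : Fact p.Prime := ⟨hp⟩
  rw [jacobi_eq_legendre h8 hp2, Ne, legendreSym.eq_neg_one_iff, not_not] at hj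
  obtain ⟨s, hs⟩ := hj
  have h2 : (2 : ZMod p) ≠ 0 := by
    intro h2
    have : ((2 : ℕ) : ZMod p) = 0 := by exact_mod_cast h2
    rw [ZMod.natCast_eq_zero_iff] at this
    exact hp2 ((Nat.prime_dvd_prime_iff_eq hp Nat.prime_two).mp this)
  obtain ⟨x, hx⟩ := ZMod.intCast_surjective ((s - B) / 2 : ZMod p)
  refine ⟨x, ?_⟩
  rw [← ZMod.intCast_zmod_eq_zero_iff_dvd]
  push_cast
  have h3 : (2 * (x : ZMod p) + B) ^ 2 = d := by
    rw [hx]
    have : 2 * ((s - B) / 2) + (B : ZMod p) = s := by
      field_simp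
      ring
    rw [this, sq, ← hs]
    push_cast
    rfl
  have h4 : ((d : ℕ) : ZMod p) = (B : ZMod p) ^ 2 + 4 * m := by
    have := congrArg (fun t : ℤ => (t : ZMod p)) hd
    push_cast at this
    exact this
  rw [h4] at h3
  have h5 : (4 : ZMod p) * ((x : ZMod p) ^ 2 + B * x - m) = 0 := by linear_combination h3
  have h6 : (4 : ZMod p) ≠ 0 := by
    have : (4 : ZMod p) = 2 * 2 := by norm_num
    rw [this]
    exact mul_ne_zero h2 h2
  exact (mul_eq_zero.mp h5).resolve_left h6

lemma irreducible_of_prime_norm {p : ℕ} (hp : p.Prime) (z : QuadraticAlgebra ℤ m B)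
    (hz : z.norm.natAbs = p) : Irreducible z := by
  refine ⟨?_, ?_⟩
  · rw [QuadraticAlgebra.isUnit_iff_norm_isUnit, Int.isUnit_iff_natAbs_eq, hz]
    exact hp.one_lt.ne'
  · intro u v huv
    rw [huv, map_mul, Int.natAbs_mul] at hz
    rw [QuadraticAlgebra.isUnit_iff_norm_isUnit, QuadraticAlgebra.isUnit_iff_norm_isUnit,
      Int.isUnit_iff_natAbs_eq, Int.isUnit_iff_natAbs_eq]
    rcases (Nat.prime_mul_iff.mp (hz ▸ hp)) with h | h
    · right; exact h.2
    · left; exact h.2

/-- noninert primes: existence of a prime element of norm `±p` -/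
lemma exists_prime_elem [IsDomain (QuadraticAlgebra ℤ m B)]
    [UniqueFactorizationMonoid (QuadraticAlgebra ℤ m B)] {d p : ℕ} (hd : (d : ℤ) = B ^ 2 + 4 * m) (h8 : d % 8 = 5)
    (hp : p.Prime) (hj : jacobiSym p d ≠ -1) :
    ∃ π : QuadraticAlgebra ℤ m B, Prime π ∧ Prime (star π) ∧ π.norm.natAbs = p := by
  obtain ⟨x, hx⟩ := exists_root hd h8 hp hj
  have hnp : ¬ Prime ((p : ℕ) : QuadraticAlgebra ℤ m B) := by
    intro hprime
    have h1 : ((p : ℕ) : QuadraticAlgebra ℤ m B) ∣ lin x * star (lin x) := by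
      rw [← intCast_norm_eq, norm_lin]
      have := (Int.cast_dvd_cast (α := QuadraticAlgebra ℤ m B) _ _ hx)
      exact_mod_cast this
    rcases hprime.dvd_or_dvd h1 with h | h
    · exact not_dvd_lin hp x h
    · exact not_dvd_star_lin hp x h
  rw [← UniqueFactorizationMonoid.irreducible_iff_prime] at hnp
  have hu := natCast_not_unit (m := m) (B := B) hp
  have : ∃ u v : QuadraticAlgebra ℤ m B, ((p : ℕ) : QuadraticAlgebra ℤ m B) = u * v ∧ ¬ IsUnit u ∧ ¬ IsUnit v := by
    by_contra hcon
    push Not at hcon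
    apply hnp
    refine ⟨hu, ?_⟩
    intro a b hab
    by_contra hh
    push Not at hh
    exact hh.2 (hcon a b hab hh.1)
  obtain ⟨u, v, huv, hu', hv'⟩ := this
  have hN : u.norm.natAbs * v.norm.natAbs = p ^ 2 := by
    rw [← Int.natAbs_mul, ← map_mul, ← huv, natAbs_norm_natCast]
  rw [QuadraticAlgebra.isUnit_iff_norm_isUnit, Int.isUnit_iff_natAbs_eq] at hu' hv'
  have hup : u.norm.natAbs = p := by
    have := (Nat.Prime.mul_eq_prime_sq_iff hp hu' hv').mp hN
    exact this.1
  refine ⟨u, ?_, ?_, hup⟩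
  · rw [← UniqueFactorizationMonoid.irreducible_iff_prime]
    exact irreducible_of_prime_norm hp u hup
  · rw [← UniqueFactorizationMonoid.irreducible_iff_prime]
    exact irreducible_of_prime_norm hp _ (by rw [QuadraticAlgebra.norm_star]; exact hup)

lemma dvd_natCast_of_norm {p : ℕ} (π : QuadraticAlgebra ℤ m B) (hπ : π.norm.natAbs = p) :
    Associated (π * star π) ((p : ℕ) : QuadraticAlgebra ℤ m B) := by
  rw [← intCast_norm_eq]
  rcases Int.natAbs_eq π.norm with h | h
  · rw [hπ] at h
    rw [h]; simp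
  · rw [hπ] at h
    rw [h]
    push_cast
    exact (Associated.refl _).neg_left

/-- split primes -/
lemma not_associated_star {d p : ℕ} (hd : (d : ℤ) = B ^ 2 + 4 * m) (h8 : d % 8 = 5)
    (hp : p.Prime) (hj : jacobiSym p d = 1) (π : QuadraticAlgebra ℤ m B)
    (hπ : π.norm.natAbs = p) (hprime : Prime π) : ¬ π ∣ star π := by
  intro hdvd
  have hp2 : p ≠ 2 := by
    rintro rfl
    rw [jacobi_two h8] at hj
    norm_num at hj
  have hpp : Prime (p : ℤ) := Nat.prime_iff_prime_int.mp hp
  -- trace
  set T : ℤ := 2 * π.re + B * π.im with hT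
  have hTr : ((T : ℤ) : QuadraticAlgebra ℤ m B) = π + star π := by
    ext
    · rw [QuadraticAlgebra.re_intCast, QuadraticAlgebra.re_add, QuadraticAlgebra.re_star, hT,
        Int.cast_id]
      ring
    · simp
  have hπT : π ∣ ((T : ℤ) : QuadraticAlgebra ℤ m B) := by
    rw [hTr]; exact dvd_add (dvd_refl _) hdvd
  have hπp : π ∣ (((p : ℕ) : ℤ) : QuadraticAlgebra ℤ m B) := by
    have := (dvd_natCast_of_norm π hπ).dvd_iff_dvd_right.mp (Dvd.intro _ rfl : π ∣ π * star π)
    exact_mod_cast this
  have hpT : (p : ℤ) ∣ T := by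
    by_contra hpT
    have hcop : IsCoprime (p : ℤ) T := (Irreducible.coprime_iff_not_dvd hpp.irreducible).mpr hpT
    obtain ⟨a, b, hab⟩ := hcop
    apply hprime.not_isUnit
    apply isUnit_of_dvd_one
    have : (1 : QuadraticAlgebra ℤ m B) = (a : QuadraticAlgebra ℤ m B) * (((p : ℕ) : ℤ) : QuadraticAlgebra ℤ m B)
        + (b : QuadraticAlgebra ℤ m B) * ((T : ℤ) : QuadraticAlgebra ℤ m B) := by
      have := congrArg (fun t : ℤ => (t : QuadraticAlgebra ℤ m B)) hab
      push_cast at this ⊢
      exact this.symm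
    rw [this]
    exact dvd_add (hπp.mul_left _) (hπT.mul_left _)
  have h4 := four_norm π
  rw [← hd, ← hT] at h4
  have hpN : (p : ℤ) ∣ π.norm := by
    rw [Int.natCast_dvd, hπ]
  have hpd : (p : ℤ) ∣ d * π.im ^ 2 := by
    have e : (d : ℤ) * π.im ^ 2 = T ^ 2 - 4 * π.norm := by rw [h4]; ring
    rw [e]
    exact dvd_sub (dvd_pow hpT two_ne_zero) (hpN.mul_left 4)
  have hpd' : ¬ (p : ℤ) ∣ d := by
    intro h
    have h' : p ∣ d := by exact_mod_cast h
    have hz : jacobiSym p d = 0 := by
      rw [jacobiSym.eq_zero_iff]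
      refine ⟨by omega, ?_⟩
      rw [Int.gcd_natCast_natCast, Nat.gcd_eq_left h']
      exact hp.one_lt.ne'
    rw [hz] at hj
    norm_num at hj
  have hpim : (p : ℤ) ∣ π.im := hpp.dvd_of_dvd_pow ((hpp.dvd_or_dvd hpd).resolve_left hpd')
  have hp2N : (p : ℤ) ^ 2 ∣ 4 * π.norm := by
    rw [h4]
    exact dvd_sub (pow_dvd_pow_of_dvd hpT 2) ((pow_dvd_pow_of_dvd hpim 2).mul_left _)
  have hp2N' : p ^ 2 ∣ 4 * p := by
    have := Int.natAbs_dvd_natAbs.mpr hp2N
    rw [Int.natAbs_mul, hπ] at this
    simpa [Int.natAbs_pow] using this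
  have hp4 : p ∣ 4 := by
    rw [sq] at hp2N'
    exact Nat.dvd_of_mul_dvd_mul_right hp.pos hp2N'
  have : p ∣ 2 := by
    have : p ∣ 2 * 2 := by norm_num; exact hp4
    rcases (Nat.Prime.dvd_mul hp).mp this with h | h <;> exact h
  exact hp2 ((Nat.prime_dvd_prime_iff_eq hp Nat.prime_two).mp this)

/-- ramified primes -/
lemma dvd_star_of_ramified {d p : ℕ} (hd : (d : ℤ) = B ^ 2 + 4 * m)
    (hp : p.Prime) (hj : jacobiSym p d = 0) (π : QuadraticAlgebra ℤ m B)
    (hπ : π.norm.natAbs = p) : π ∣ star π := by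
  have hpp : Prime (p : ℤ) := Nat.prime_iff_prime_int.mp hp
  have hpd : (p : ℤ) ∣ d := by
    rw [jacobiSym.eq_zero_iff, Int.gcd_natCast_natCast] at hj
    have h : p ∣ d := by
      by_contra h
      exact hj.2 ((Nat.Prime.coprime_iff_not_dvd hp).mpr h)
    exact_mod_cast h
  set T : ℤ := 2 * π.re + B * π.im with hT
  have hTr : ((T : ℤ) : QuadraticAlgebra ℤ m B) = π + star π := by
    ext
    · rw [QuadraticAlgebra.re_intCast, QuadraticAlgebra.re_add, QuadraticAlgebra.re_star, hT,
        Int.cast_id]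
      ring
    · simp
  have h4 := four_norm π
  rw [← hd, ← hT] at h4
  have hpN : (p : ℤ) ∣ π.norm := by
    rw [Int.natCast_dvd, hπ]
  have hpT2 : (p : ℤ) ∣ T ^ 2 := by
    have e : T ^ 2 = 4 * π.norm + d * π.im ^ 2 := by rw [h4]; ring
    rw [e]
    exact dvd_add (hpN.mul_left 4) (hpd.mul_right _)
  have hpT : (p : ℤ) ∣ T := hpp.dvd_of_dvd_pow hpT2
  have hπp : π ∣ (((p : ℕ) : ℤ) : QuadraticAlgebra ℤ m B) := by
    have := (dvd_natCast_of_norm π hπ).dvd_iff_dvd_right.mp (Dvd.intro _ rfl : π ∣ π * star π)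
    exact_mod_cast this
  have hπT : π ∣ ((T : ℤ) : QuadraticAlgebra ℤ m B) :=
    hπp.trans (Int.cast_dvd_cast (α := QuadraticAlgebra ℤ m B) _ _ hpT)
  rw [hTr] at hπT
  exact (dvd_add_right (dvd_refl π)).mp hπT

section Count

/-- classes of norm `n` -/
def SN (m B : ℤ) (n : ℕ) : Set (Associates (QuadraticAlgebra ℤ m B)) := {c | absN c = n}

lemma absN_ne_zero_iff (c : Associates (QuadraticAlgebra ℤ m B))
    (hN : ∀ z : QuadraticAlgebra ℤ m B, z ≠ 0 → z.norm ≠ 0) : absN c ≠ 0 ↔ c ≠ 0 := by
  obtain ⟨z, rfl⟩ := Associates.mk_surjective c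
  rw [absN_mk, Associates.mk_ne_zero, Ne, Int.natAbs_eq_zero]
  constructor
  · rintro h rfl; exact h (by simp)
  · exact hN z

lemma absN_mk_natCast (p : ℕ) :
    absN (Associates.mk ((p : ℕ) : QuadraticAlgebra ℤ m B)) = p ^ 2 := by
  rw [absN_mk, natAbs_norm_natCast]

/-- the elements of `SN (q*n)` divisible by a class `P` of norm `q` are `P * SN n` -/
lemma image_mul_SN (P : Associates (QuadraticAlgebra ℤ m B)) (q n : ℕ) (hq : absN P = q)
    (hq0 : q ≠ 0) : (fun c => P * c) '' (SN m B n) = {c ∈ SN m B (q * n) | P ∣ c} := by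
  ext c
  constructor
  · rintro ⟨c', hc', rfl⟩
    refine ⟨?_, Dvd.intro _ rfl⟩
    change absN (P * c') = q * n
    rw [absN_mul, hq, hc']
  · rintro ⟨hc, c', rfl⟩
    refine ⟨c', ?_, rfl⟩
    change absN (P * c') = q * n at hc
    rw [absN_mul, hq] at hc
    exact Nat.eq_of_mul_eq_mul_left (Nat.pos_of_ne_zero hq0) hc

lemma mul_injective_assoc [IsDomain (QuadraticAlgebra ℤ m B)] (P : Associates (QuadraticAlgebra ℤ m B)) (hP : P ≠ 0) :
    Function.Injective (fun c => P * c) := mul_right_injective₀ hP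

lemma exists_dvd_of_mem {p n : ℕ} (hp : p.Prime) (π : QuadraticAlgebra ℤ m B)
    (hπ : π.norm.natAbs = p) (hprime : Prime π)
    (c : Associates (QuadraticAlgebra ℤ m B)) (hc : c ∈ SN m B (p * n)) :
    Associates.mk π ∣ c ∨ Associates.mk (star π) ∣ c := by
  obtain ⟨z, rfl⟩ := Associates.mk_surjective c
  change (z.norm).natAbs = p * n at hc
  have hdvd : π ∣ z * star z := by
    rw [← intCast_norm_eq]
    have h1 : (p : ℤ) ∣ z.norm := by
      rw [Int.natCast_dvd, hc]; exact Dvd.intro _ rfl
    have h2 : π ∣ (((p : ℕ) : ℤ) : QuadraticAlgebra ℤ m B) := by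
      have := (dvd_natCast_of_norm π hπ).dvd_iff_dvd_right.mp (Dvd.intro _ rfl : π ∣ π * star π)
      exact_mod_cast this
    exact h2.trans (Int.cast_dvd_cast (α := QuadraticAlgebra ℤ m B) _ _ h1)
  rcases hprime.dvd_or_dvd hdvd with h | h
  · left; exact Associates.mk_dvd_mk.mpr h
  · right
    obtain ⟨w, hw⟩ := h
    refine Associates.mk_dvd_mk.mpr ⟨star w, ?_⟩
    rw [← star_star z, hw, star_mul, mul_comm]

/-- recursion, inert case -/
lemma SN_inert [IsDomain (QuadraticAlgebra ℤ m B)] {d p n : ℕ} (hd : (d : ℤ) = B ^ 2 + 4 * m)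
    (h8 : d % 8 = 5) (hp : p.Prime) (hj : jacobiSym p d = -1) :
    SN m B (p * n) = if p ∣ n then (fun c => Associates.mk ((p : ℕ) : QuadraticAlgebra ℤ m B) * c) ''
      (SN m B (n / p)) else ∅ := by
  have key : ∀ c ∈ SN m B (p * n), ∃ c', c = Associates.mk ((p : ℕ) : QuadraticAlgebra ℤ m B) * c' ∧
      n = p * absN c' := by
    intro c hc
    obtain ⟨z, rfl⟩ := Associates.mk_surjective c
    change (z.norm).natAbs = p * n at hc
    have h1 : (p : ℤ) ∣ z.norm := by
      rw [Int.natCast_dvd, hc]; exact Dvd.intro _ rfl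
    obtain ⟨w, hw⟩ := dvd_of_dvd_norm hd h8 hp hj z h1
    refine ⟨Associates.mk w, by rw [hw, Associates.mk_mul_mk], ?_⟩
    rw [absN_mk]
    have h2 : p * n = p ^ 2 * w.norm.natAbs := by
      rw [← hc, hw, map_mul, Int.natAbs_mul, natAbs_norm_natCast]
    have h3 : p * n = p * (p * w.norm.natAbs) := by rw [h2]; ring
    exact Nat.eq_of_mul_eq_mul_left hp.pos h3
  split_ifs with h
  · obtain ⟨n', rfl⟩ := h
    rw [Nat.mul_div_cancel_left _ hp.pos]
    ext c
    constructor
    · intro hc
      obtain ⟨c', rfl, hc'⟩ := key c hc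
      exact ⟨c', (Nat.eq_of_mul_eq_mul_left hp.pos hc').symm, rfl⟩
    · rintro ⟨c', hc', rfl⟩
      change absN _ = _
      rw [absN_mul, absN_mk_natCast, hc']
      ring
  · rw [Set.eq_empty_iff_forall_notMem]
    intro c hc
    obtain ⟨c', -, hc'⟩ := key c hc
    exact h ⟨_, hc'⟩

/-- The number of classes of associates of absolute norm `n`. -/
theorem ncard_SN [IsDomain (QuadraticAlgebra ℤ m B)]
    [UniqueFactorizationMonoid (QuadraticAlgebra ℤ m B)] {d : ℕ} (hd : (d : ℤ) = B ^ 2 + 4 * m)
    (h8 : d % 8 = 5) (n : ℕ) (hn : n ≠ 0) :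
    (SN m B n).Finite ∧ ((SN m B n).ncard : ℤ) = sig d n := by
  induction n using Nat.strong_induction_on with
  | _ n IH =>
    rcases eq_or_ne n 1 with rfl | hn1
    · have : SN m B 1 = {1} := by
        ext c
        exact absN_eq_one_iff c
      rw [this, sig_one]
      simp
    · obtain ⟨p, hp, n', rfl⟩ : ∃ p, p.Prime ∧ ∃ n', n = p * n' := by
        obtain ⟨p, hp, h⟩ := Nat.exists_prime_and_dvd hn1
        exact ⟨p, hp, h⟩
      have hn' : n' ≠ 0 := by rintro rfl; simp at hn
      have hlt : n' < p * n' := by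
        have := hp.one_lt
        nlinarith [Nat.pos_of_ne_zero hn']
      obtain ⟨hfin, hcard⟩ := IH n' hlt hn'
      rw [sig_rec d hp hn']
      rcases jacobiSym.trichotomy (p : ℤ) d with hj | hj | hj
      · -- ramified
        obtain ⟨π, hπ, hπ', hπn⟩ := exists_prime_elem (m := m) (B := B) hd h8 hp (by rw [hj]; norm_num)
        have hdvd := dvd_star_of_ramified hd hp hj π hπn
        have hass : Associates.mk π ∣ Associates.mk (star π) := Associates.mk_dvd_mk.mpr hdvd
        have hSN : SN m B (p * n') = (fun c => Associates.mk π * c) '' SN m B n' := by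
          rw [image_mul_SN (Associates.mk π) p n' hπn hp.ne_zero]
          ext c
          constructor
          · intro hc
            refine ⟨hc, ?_⟩
            rcases exists_dvd_of_mem hp π hπn hπ c hc with h | h
            · exact h
            · exact hass.trans h
          · exact fun h => h.1
        have hinj := mul_injective_assoc (Associates.mk π) (Associates.mk_ne_zero.mpr hπ.ne_zero)
        rw [hSN, hj]
        refine ⟨hfin.image _, ?_⟩
        rw [Set.ncard_image_of_injective _ hinj, hcard]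
        ring
      · -- split
        obtain ⟨π, hπ, hπ', hπn⟩ := exists_prime_elem (m := m) (B := B) hd h8 hp (by rw [hj]; norm_num)
        have hnd := not_associated_star hd h8 hp hj π hπn hπ
        have hπn' : absN (Associates.mk (star π)) = p := by
          rw [absN_mk, QuadraticAlgebra.norm_star, hπn]
        have hSN : SN m B (p * n') = (fun c => Associates.mk π * c) '' SN m B n' ∪
            (fun c => Associates.mk (star π) * c) '' SN m B n' := by
          rw [image_mul_SN (Associates.mk π) p n' hπn hp.ne_zero,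
            image_mul_SN (Associates.mk (star π)) p n' hπn' hp.ne_zero]
          ext c
          constructor
          · intro hc
            rcases exists_dvd_of_mem hp π hπn hπ c hc with h | h
            · left; exact ⟨hc, h⟩
            · right; exact ⟨hc, h⟩
          · rintro (h | h)
            · exact h.1
            · exact h.1
        have hinj := mul_injective_assoc (Associates.mk π) (Associates.mk_ne_zero.mpr hπ.ne_zero)
        have hinj' := mul_injective_assoc (Associates.mk (star π)) (Associates.mk_ne_zero.mpr hπ'.ne_zero)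
        have hinter : (fun c => Associates.mk π * c) '' SN m B n' ∩
            (fun c => Associates.mk (star π) * c) '' SN m B n' =
            if p ∣ n' then (fun c => Associates.mk ((p : ℕ) : QuadraticAlgebra ℤ m B) * c) ''
              (SN m B (n' / p)) else ∅ := by
          rw [image_mul_SN (Associates.mk π) p n' hπn hp.ne_zero,
            image_mul_SN (Associates.mk (star π)) p n' hπn' hp.ne_zero]
          have key : ∀ c, c ∈ SN m B (p * n') → Associates.mk π ∣ c → Associates.mk (star π) ∣ c →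
              ∃ c', c = Associates.mk ((p : ℕ) : QuadraticAlgebra ℤ m B) * c' ∧ n' = p * absN c' := by
            intro c hc h1 h2
            obtain ⟨z, rfl⟩ := Associates.mk_surjective c
            rw [Associates.mk_dvd_mk] at h1 h2
            obtain ⟨w, hw⟩ := h1
            rw [hw] at h2
            have h3 : star π ∣ w := by
              rcases hπ'.dvd_or_dvd h2 with h | h
              · exfalso
                apply hnd
                have := (hπ'.irreducible.associated_of_dvd hπ.irreducible h)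
                exact this.symm.dvd
              · exact h
            obtain ⟨v, hv⟩ := h3
            have h4 : Associated z (((p : ℕ) : QuadraticAlgebra ℤ m B) * v) := by
              rw [hw, hv, ← mul_assoc]
              exact (dvd_natCast_of_norm π hπn).mul_right v
            have h5 : Associates.mk z = Associates.mk ((p : ℕ) : QuadraticAlgebra ℤ m B) * Associates.mk v := by
              rw [Associates.mk_mul_mk, Associates.mk_eq_mk_iff_associated]
              exact h4
            refine ⟨Associates.mk v, h5, ?_⟩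
            change absN (Associates.mk z) = p * n' at hc
            rw [h5, absN_mul, absN_mk_natCast] at hc
            have h6 : p * n' = p * (p * absN (Associates.mk v)) := by rw [← hc]; ring
            exact Nat.eq_of_mul_eq_mul_left hp.pos h6
          split_ifs with h
          · obtain ⟨n'', rfl⟩ := h
            rw [Nat.mul_div_cancel_left _ hp.pos]
            ext c
            constructor
            · rintro ⟨⟨hc, h1⟩, ⟨-, h2⟩⟩
              obtain ⟨c', rfl, hc'⟩ := key c hc h1 h2
              exact ⟨c', (Nat.eq_of_mul_eq_mul_left hp.pos hc').symm, rfl⟩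
            · rintro ⟨c', hc', rfl⟩
              have hmem : Associates.mk ((p : ℕ) : QuadraticAlgebra ℤ m B) * c' ∈ SN m B (p * (p * n'')) := by
                change absN _ = _
                rw [absN_mul, absN_mk_natCast, hc']
                ring
              have hmk : Associates.mk ((p : ℕ) : QuadraticAlgebra ℤ m B) =
                  Associates.mk π * Associates.mk (star π) := by
                rw [Associates.mk_mul_mk, Associates.mk_eq_mk_iff_associated]
                exact (dvd_natCast_of_norm π hπn).symm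
              refine ⟨⟨hmem, ?_⟩, ⟨hmem, ?_⟩⟩
              · rw [hmk]
                exact (Dvd.intro _ rfl : Associates.mk π ∣ Associates.mk π * Associates.mk (star π)).mul_right c'
              · rw [hmk]
                exact (Dvd.intro_left _ rfl : Associates.mk (star π) ∣ Associates.mk π * Associates.mk (star π)).mul_right c'
          · rw [Set.eq_empty_iff_forall_notMem]
            rintro c ⟨⟨hc, h1⟩, ⟨-, h2⟩⟩
            obtain ⟨c', -, hc'⟩ := key c hc h1 h2
            exact h ⟨_, hc'⟩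
        have hcardinter : (((fun c => Associates.mk π * c) '' SN m B n' ∩
            (fun c => Associates.mk (star π) * c) '' SN m B n').ncard : ℤ) =
            if p ∣ n' then sig d (n' / p) else 0 := by
          rw [hinter]
          split_ifs with h
          · have hmkne : Associates.mk ((p : ℕ) : QuadraticAlgebra ℤ m B) ≠ 0 :=
              Associates.mk_ne_zero.mpr (natCast_ne_zero hp)
            rw [Set.ncard_image_of_injective _ (mul_injective_assoc _ hmkne)]
            obtain ⟨n'', rfl⟩ := h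
            rw [Nat.mul_div_cancel_left _ hp.pos]
            have hn'' : n'' ≠ 0 := by rintro rfl; simp at hn'
            exact (IH n'' (by
              have := hp.one_lt
              have := Nat.pos_of_ne_zero hn''
              nlinarith [Nat.mul_le_mul_left n'' hp.one_lt.le]) hn'').2
          · simp
        have hunion := Set.ncard_union_add_ncard_inter ((fun c => Associates.mk π * c) '' SN m B n')
          ((fun c => Associates.mk (star π) * c) '' SN m B n') (hfin.image _) (hfin.image _)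
        rw [Set.ncard_image_of_injective _ hinj, Set.ncard_image_of_injective _ hinj'] at hunion
        refine ⟨?_, ?_⟩
        · rw [hSN]; exact (hfin.image _).union (hfin.image _)
        · rw [← hSN] at hunion
          have hunion' : ((SN m B (p * n')).ncard : ℤ) + (((fun c => Associates.mk π * c) '' SN m B n' ∩
            (fun c => Associates.mk (star π) * c) '' SN m B n').ncard : ℤ) = (SN m B n').ncard + (SN m B n').ncard := by
            exact_mod_cast hunion
          rw [hcardinter, hcard] at hunion'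
          rw [hj]
          linarith
      · -- inert
        rw [SN_inert hd h8 hp hj, hj]
        split_ifs with h
        · have hmkne : Associates.mk ((p : ℕ) : QuadraticAlgebra ℤ m B) ≠ 0 :=
            Associates.mk_ne_zero.mpr (natCast_ne_zero hp)
          obtain ⟨n'', rfl⟩ := h
          rw [Nat.mul_div_cancel_left _ hp.pos]
          have hn'' : n'' ≠ 0 := by rintro rfl; simp at hn'
          obtain ⟨hf, hc⟩ := IH n'' (by
              have := hp.one_lt
              have := Nat.pos_of_ne_zero hn''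
              nlinarith [Nat.mul_le_mul_left n'' hp.one_lt.le]) hn''
          refine ⟨hf.image _, ?_⟩
          rw [Set.ncard_image_of_injective _ (mul_injective_assoc _ hmkne), hc]
          ring
        · refine ⟨Set.finite_empty, ?_⟩
          simp

end Count

end Pool.Agent.LibH4
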