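import Pool.Agent.Lib_helper4.Transfer

/-!
Elementary descent: the ring of integers of `ℚ(√d)` is a PID as soon as every noninert prime `p`
with `4 p² ≤ D` is the absolute norm of an element.
-/

namespace Pool.Agent.LibH4

open scoped NumberField
open Ideal

variable {d : ℕ} (hd : Squarefree d) (h1 : 1 < d)

lemma norm_int_eqvO (z : QI d) : Algebra.norm ℤ (eqvO hd h1 z) = z.norm := by
  have h := norm_eqvO hd h1 z
  rw [← Algebra.coe_norm_int] at h
  exact_mod_cast h

lemma absNorm_span_eqvO (z : QI d) :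
    absNorm (span {eqvO hd h1 z}) = z.norm.natAbs := by
  rw [Ideal.absNorm_span_singleton, norm_int_eqvO]

lemma intCast_norm_QI (z : QI d) : ((z.norm : ℤ) : QI d) = z * star z := by
  have := QuadraticAlgebra.algebraMap_norm_eq_mul_star z
  simpa using this

lemma Dq_pos (h1 : 1 < d) : 0 < Dq d := by
  unfold Dq
  split_ifs <;> omega

lemma four_mul_norm_lin (x : ℤ) :
    4 * ((⟨x, 1⟩ : QI d).norm) = (2 * x + Bq d) ^ 2 - Dq d := by
  rw [QuadraticAlgebra.norm_def, ← Bq_Aq]
  ring

lemma norm_lin_eq (x : ℤ) : ((⟨x, 1⟩ : QI d).norm) = x ^ 2 + Bq d * x - Aq d := by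
  rw [QuadraticAlgebra.norm_def]
  ring

/-- nonzero prime ideals contain a rational prime, which divides the absolute norm -/
lemma exists_prime_mem {R : Type*} [CommRing R] (P : Ideal R) (hP : P.IsPrime) (n : ℕ)
    (hn : n ≠ 0) (hmem : (n : R) ∈ P) : ∃ p : ℕ, p.Prime ∧ p ∣ n ∧ (p : R) ∈ P := by
  induction n using Nat.strong_induction_on with
  | _ n IH =>
    rcases eq_or_ne n 1 with rfl | hn1
    · exfalso
      apply hP.ne_top
      rw [Ideal.eq_top_iff_one]
      simpa using hmem
    · obtain ⟨p, hp, n', rfl⟩ : ∃ p, p.Prime ∧ ∃ n', n = p * n' := by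
        obtain ⟨p, hp, h⟩ := Nat.exists_prime_and_dvd hn1
        exact ⟨p, hp, h⟩
      have hn' : n' ≠ 0 := by rintro rfl; simp at hn
      rw [Nat.cast_mul] at hmem
      rcases hP.mem_or_mem hmem with h | h
      · exact ⟨p, hp, Dvd.intro _ rfl, h⟩
      · obtain ⟨q, hq, hqn, hqP⟩ := IH n' (by
          have := hp.one_lt
          nlinarith [Nat.pos_of_ne_zero hn']) hn' h
        exact ⟨q, hq, hqn.mul_left p, hqP⟩

/-- an integer in a prime ideal containing `p` is divisible by `p` -/
lemma dvd_of_intCast_mem {R : Type*} [CommRing R] (P : Ideal R) (hP : P.IsPrime) (p : ℕ)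
    (hp : p.Prime) (hpP : (p : R) ∈ P) (a : ℤ) (ha : (a : R) ∈ P) : (p : ℤ) ∣ a := by
  by_contra h
  have hcop : IsCoprime (p : ℤ) a :=
    (Irreducible.coprime_iff_not_dvd (Nat.prime_iff_prime_int.mp hp).irreducible).mpr h
  obtain ⟨u, v, huv⟩ := hcop
  apply hP.ne_top
  rw [Ideal.eq_top_iff_one]
  have : (1 : R) = (u : R) * (p : R) + (v : R) * (a : R) := by
    have := congrArg (fun t : ℤ => (t : R)) huv
    push_cast at this
    exact this.symm
  rw [this]
  exact P.add_mem (P.mul_mem_left _ hpP) (P.mul_mem_left _ ha)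

/-- prime ideals containing an element of prime norm -/
lemma eq_span_of_mem (P : Ideal (𝓞 (KQ d))) (hP : P.IsPrime) (z : QI d) {p : ℕ} (hp : p.Prime)
    (hz : z.norm.natAbs = p) (hmem : eqvO hd h1 z ∈ P) : P = span {eqvO hd h1 z} := by
  have hprime : (span {eqvO hd h1 z} : Ideal (𝓞 (KQ d))).IsPrime := by
    apply Ideal.isPrime_of_irreducible_absNorm
    rw [absNorm_span_eqvO, hz]
    exact hp
  have hne : (span {eqvO hd h1 z} : Ideal (𝓞 (KQ d))) ≠ ⊥ := by
    intro h
    have := absNorm_span_eqvO hd h1 z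
    rw [h, Ideal.absNorm_bot, hz] at this
    exact hp.ne_zero this.symm
  have hmax := hprime.isMaximal hne
  exact (hmax.eq_of_le hP.ne_top ((Ideal.span_singleton_le_iff_mem _).mpr hmem)).symm

include hd h1 in
/-- If `p` is the absolute norm of an element then all primes above `p` are principal. -/
lemma principal_of_norm (P : Ideal (𝓞 (KQ d))) (hP : P.IsPrime) (z : QI d) {p : ℕ} (hp : p.Prime)
    (hz : z.norm.natAbs = p) (hpP : (p : 𝓞 (KQ d)) ∈ P) : Submodule.IsPrincipal P := by
  have hmem : eqvO hd h1 (z * star z) ∈ P := by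
    rw [← intCast_norm_QI, map_intCast]
    rcases Int.natAbs_eq z.norm with h | h
    · rw [h, hz]; simpa using hpP
    · rw [h, hz]
      rw [Int.cast_neg]
      exact P.neg_mem (by simpa using hpP)
  rw [map_mul] at hmem
  rcases hP.mem_or_mem hmem with h | h
  · rw [eq_span_of_mem hd h1 P hP z hp hz h]
    exact ⟨⟨_, rfl⟩⟩
  · rw [eq_span_of_mem hd h1 P hP (star z) hp (by rw [QuadraticAlgebra.norm_star]; exact hz) h]
    exact ⟨⟨_, rfl⟩⟩

/-- No `x + θ` in `P`: then `P = (p)`. -/
lemma eq_span_natCast (P : Ideal (𝓞 (KQ d))) (hP : P.IsPrime) {p : ℕ} (hp : p.Prime)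
    (hpP : (p : 𝓞 (KQ d)) ∈ P) (hno : ¬ ∃ x : ℤ, eqvO hd h1 ⟨x, 1⟩ ∈ P) :
    P = span {(p : 𝓞 (KQ d))} := by
  apply le_antisymm
  · intro y hy
    obtain ⟨z, rfl⟩ := (eqvO hd h1).surjective y
    have him : (p : ℤ) ∣ z.im := by
      by_contra h
      have hcop : IsCoprime (p : ℤ) z.im :=
        (Irreducible.coprime_iff_not_dvd (Nat.prime_iff_prime_int.mp hp).irreducible).mpr h
      obtain ⟨u, v, huv⟩ := hcop
      apply hno
      refine ⟨v * z.re, ?_⟩
      have e : (⟨v * z.re, 1⟩ : QI d) = (v : QI d) * z + (p : QI d) * ⟨0, u⟩ := by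
        ext
        · simp
        · simp; linarith
      rw [e, map_add, map_mul, map_mul, map_natCast]
      exact P.add_mem (P.mul_mem_left _ hy) (P.mul_mem_right _ hpP)
    obtain ⟨c, hc⟩ := him
    have hre : ((z.re : ℤ) : 𝓞 (KQ d)) ∈ P := by
      have e : ((z.re : ℤ) : QI d) = z - (p : QI d) * ⟨0, c⟩ := by
        ext
        · simp
        · simp [hc]
      have := congrArg (eqvO hd h1) e
      rw [map_intCast, map_sub, map_mul, map_natCast] at this
      rw [this]
      exact P.sub_mem hy (P.mul_mem_right _ hpP)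
    obtain ⟨b, hb⟩ := dvd_of_intCast_mem P hP p hp hpP _ hre
    rw [Ideal.mem_span_singleton]
    have e : z = (p : QI d) * ⟨b, c⟩ := by
      ext
      · simp [hb]
      · simp [hc]
    rw [e, map_mul, map_natCast]
    exact Dvd.intro _ rfl
  · rwa [Ideal.span_singleton_le_iff_mem]

/-- cancelling a principal factor -/
lemma principal_of_mul_principal {R : Type*} [CommRing R] [IsDedekindDomain R]
    (P J : Ideal R) (α : R) (hα : α ≠ 0) (h : span {α} = P * J) (hJ : Submodule.IsPrincipal J) :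
    Submodule.IsPrincipal P := by
  obtain ⟨⟨γ, hγ⟩⟩ := hJ
  have hγ' : J = span {γ} := hγ
  have hγ0 : γ ≠ 0 := by
    rintro rfl
    apply hα
    rw [hγ'] at h
    have : span {(0 : R)} = (0 : Ideal R) := by simp
    rw [this, mul_zero] at h
    simpa using h
  have hαγ : γ ∣ α := by
    have h1 : α ∈ P * J := by rw [← h]; exact Ideal.mem_span_singleton_self α
    have hle : P * J ≤ J := Ideal.mul_le_right
    have : α ∈ J := hle h1
    rwa [hγ', Ideal.mem_span_singleton] at this
  obtain ⟨β, hβ⟩ := hαγ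
  have h6 : span {γ} * P = span {γ} * span {β} := by
    rw [Ideal.span_singleton_mul_span_singleton, ← hβ, h, hγ', mul_comm]
  have h7 : (span {γ} : Ideal R) ≠ 0 := by
    rw [Ideal.zero_eq_bot, Ne, Ideal.span_singleton_eq_bot]; exact hγ0
  have hPβ : P = span {β} := mul_left_cancel₀ h7 h6
  rw [hPβ]
  exact ⟨⟨_, rfl⟩⟩

/-- shift `x` modulo `p` so that `|2x + b| ≤ p` -/
lemma exists_shift (b : ℤ) (p : ℕ) (hp : 0 < p) (x : ℤ) :
    ∃ x' k : ℤ, x' = x + k * p ∧ |2 * x' + b| ≤ p := by
  refine ⟨x - p * ((2 * x + b + p) / (2 * p)), -((2 * x + b + p) / (2 * p)), by ring, ?_⟩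
  have h2 : (0 : ℤ) < 2 * p := by positivity
  have h3 := Int.emod_add_mul_ediv (2 * x + b + p) (2 * p)
  have h4 := Int.emod_nonneg (2 * x + b + p) h2.ne'
  have h5 := Int.emod_lt_of_pos (2 * x + b + p) h2
  rw [abs_le]
  constructor <;> nlinarith

include hd h1 in
/-- Main descent. -/
theorem principal_of_small (H : ∀ p : ℕ, p.Prime → 4 * (p : ℤ) ^ 2 ≤ Dq d →
      ∀ x : ℤ, |2 * x + Bq d| ≤ p → (p : ℤ) ∣ x ^ 2 + Bq d * x - Aq d →
      ∃ z : QI d, z.norm.natAbs = p)
    (p : ℕ) (hp : p.Prime) (P : Ideal (𝓞 (KQ d))) (hP : P.IsPrime)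
    (hpP : (p : 𝓞 (KQ d)) ∈ P) : Submodule.IsPrincipal P := by
  induction p using Nat.strong_induction_on generalizing P with
  | _ p IH =>
    by_cases hx : ∃ x : ℤ, eqvO hd h1 ⟨x, 1⟩ ∈ P
    · obtain ⟨x₀, hx₀⟩ := hx
      obtain ⟨x, k, hxk, hxabs⟩ := exists_shift (Bq d) p hp.pos x₀
      have hmem : eqvO hd h1 ⟨x, 1⟩ ∈ P := by
        have e : (⟨x, 1⟩ : QI d) = ⟨x₀, 1⟩ + (k : QI d) * (p : QI d) := by
          ext
          · simp [hxk]
          · simp
        rw [e, map_add, map_mul, map_natCast]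
        exact P.add_mem hx₀ (P.mul_mem_left _ hpP)
      have hnormP : (((⟨x, 1⟩ : QI d).norm : ℤ) : 𝓞 (KQ d)) ∈ P := by
        have e := congrArg (eqvO hd h1) (intCast_norm_QI (⟨x, 1⟩ : QI d))
        rw [map_intCast, map_mul] at e
        rw [e]
        exact P.mul_mem_right _ hmem
      have hpdvd : (p : ℤ) ∣ (⟨x, 1⟩ : QI d).norm := dvd_of_intCast_mem P hP p hp hpP _ hnormP
      by_cases hsmall : 4 * (p : ℤ) ^ 2 ≤ Dq d
      · rw [norm_lin_eq] at hpdvd
        obtain ⟨z, hz⟩ := H p hp hsmall x hxabs hpdvd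
        exact principal_of_norm hd h1 P hP z hp hz hpP
      · push Not at hsmall
        set α : 𝓞 (KQ d) := eqvO hd h1 ⟨x, 1⟩ with hα
        have hN := four_mul_norm_lin (d := d) x
        have hlt : |(⟨x, 1⟩ : QI d).norm| < (p : ℤ) ^ 2 := by
          have hsq : (2 * x + Bq d) ^ 2 ≤ (p : ℤ) ^ 2 := by
            rw [sq_le_sq]
            rwa [abs_of_nonneg (by positivity : (0 : ℤ) ≤ p)]
          have hDpos := Dq_pos h1
          rw [abs_lt]
          constructor <;> nlinarith [sq_nonneg (2 * x + Bq d)]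
        have hα0 : α ≠ 0 := by
          intro h
          have : (⟨x, 1⟩ : QI d) = 0 := (eqvO hd h1).injective (by rw [map_zero]; exact h)
          have := congrArg QuadraticAlgebra.im this
          simp at this
        have hspan0 : (span {α} : Ideal (𝓞 (KQ d))) ≠ 0 := by
          rw [Ideal.zero_eq_bot, Ne, Ideal.span_singleton_eq_bot]; exact hα0
        have hdvd : P ∣ span {α} := by
          rw [Ideal.dvd_span_singleton]; exact hmem
        obtain ⟨J, hJ⟩ := hdvd
        have hP0 : P ≠ 0 := by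
          rintro rfl
          rw [zero_mul] at hJ
          exact hspan0 hJ
        have hJ0 : J ≠ 0 := by
          rintro rfl
          rw [mul_zero] at hJ
          exact hspan0 hJ
        have habs : absNorm P * absNorm J = (⟨x, 1⟩ : QI d).norm.natAbs := by
          rw [← map_mul, ← hJ, hα, absNorm_span_eqvO]
        have hPge : p ≤ absNorm P := by
          have hn0 : absNorm P ≠ 0 := by
            rw [Ne, Ideal.absNorm_eq_zero_iff]; exact hP0
          have := dvd_of_intCast_mem P hP p hp hpP (absNorm P : ℕ) (by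
            simpa using Ideal.absNorm_mem P)
          exact Nat.le_of_dvd (Nat.pos_of_ne_zero hn0) (by exact_mod_cast this)
        have hJlt : absNorm J < p := by
          by_contra hge
          push Not at hge
          have h3 : p * p ≤ absNorm P * absNorm J := Nat.mul_le_mul hPge hge
          rw [habs] at h3
          have h4 : ((⟨x, 1⟩ : QI d).norm.natAbs : ℤ) < (p : ℤ) ^ 2 := by
            rw [Int.natCast_natAbs]; exact hlt
          have h5 : (⟨x, 1⟩ : QI d).norm.natAbs < p ^ 2 := by exact_mod_cast h4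
          nlinarith
        have hJn0 : absNorm J ≠ 0 := by
          rw [Ne, Ideal.absNorm_eq_zero_iff]; exact hJ0
        have hJprinc : Submodule.IsPrincipal J := by
          rw [← Ideal.mem_isPrincipalSubmonoid_iff,
            ← Ideal.prod_normalizedFactors_eq_self hJ0]
          refine Submonoid.multiset_prod_mem _ _ (fun Q hQ ↦ Ideal.mem_isPrincipalSubmonoid_iff.mp ?_)
          rw [Ideal.mem_isPrincipalSubmonoid_iff]
          have hQprime : Q.IsPrime := ((Ideal.mem_normalizedFactors_iff hJ0).mp hQ).1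
          have hQdvd : Q ∣ J := UniqueFactorizationMonoid.dvd_of_mem_normalizedFactors hQ
          have hQn : absNorm Q ∣ absNorm J := map_dvd absNorm hQdvd
          have hQn0 : absNorm Q ≠ 0 := fun h => hJn0 (Nat.eq_zero_of_zero_dvd (h ▸ hQn))
          obtain ⟨q, hq, hqn, hqQ⟩ := exists_prime_mem Q hQprime (absNorm Q) hQn0
            (Ideal.absNorm_mem Q)
          have hqlt : q < p := lt_of_le_of_lt
            ((Nat.le_of_dvd (Nat.pos_of_ne_zero hQn0) hqn).trans
              (Nat.le_of_dvd (Nat.pos_of_ne_zero hJn0) hQn)) hJlt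
          exact IH q hqlt hq Q hQprime hqQ
        exact principal_of_mul_principal P J α hα0 hJ hJprinc
    · rw [eq_span_natCast hd h1 P hP hp hpP hx]
      exact ⟨⟨_, rfl⟩⟩

include hd h1 in
theorem isPrincipalIdealRing_of_small (H : ∀ p : ℕ, p.Prime → 4 * (p : ℤ) ^ 2 ≤ Dq d →
      ∀ x : ℤ, |2 * x + Bq d| ≤ p → (p : ℤ) ∣ x ^ 2 + Bq d * x - Aq d →
      ∃ z : QI d, z.norm.natAbs = p) : IsPrincipalIdealRing (𝓞 (KQ d)) := by
  apply IsPrincipalIdealRing.of_prime
  intro P hP
  by_cases hP0 : P = 0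
  · rw [hP0]
    exact bot_isPrincipal
  · have hn0 : absNorm P ≠ 0 := by
      rw [Ne, Ideal.absNorm_eq_zero_iff]; exact hP0
    obtain ⟨p, hp, _, hpP⟩ := exists_prime_mem P hP (absNorm P) hn0 (Ideal.absNorm_mem P)
    exact principal_of_small hd h1 H p hp P hP hpP

end Pool.Agent.LibH4
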