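import Pool.Agent.Lib_helper4.Descent

/-!
`T8`: the ring of integers of a quadratic field as `QuadraticAlgebra ℤ m B`, `d = B² + 4m`.
`T9`: eleven explicit rings with unique factorisation.
-/

namespace Pool.Agent.LibH4

open scoped NumberField

/-- change of generator `ω' = ω + c` -/
def shiftEquiv (a b c m B : ℤ) (hB : B = b + 2 * c) (hm : m = a - b * c - c ^ 2) :
    QuadraticAlgebra ℤ a b ≃+* QuadraticAlgebra ℤ m B where
  toFun z := ⟨z.re - c * z.im, z.im⟩
  invFun w := ⟨w.re + c * w.im, w.im⟩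
  left_inv z := by ext <;> simp
  right_inv w := by ext <;> simp
  map_mul' z w := by
    subst hB hm
    ext
    · simp; ring
    · simp; ring
  map_add' z w := by
    ext
    · simp; ring
    · simp

/-- `QI d` in the coordinates `d = B² + 4m`, `B` odd. -/
lemma exists_equiv_QI {d : ℕ} {m B : ℤ} (hd : (d : ℤ) = B ^ 2 + 4 * m) (hB : B % 2 = 1) :
    Nonempty (QI d ≃+* QuadraticAlgebra ℤ m B) := by
  obtain ⟨c, hc⟩ : ∃ c, B = 2 * c + 1 := ⟨B / 2, by omega⟩
  have hd' : (d : ℤ) = 4 * (c ^ 2 + c + m) + 1 := by rw [hd, hc]; ring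
  have hmod : d % 4 = 1 := by omega
  have hBq : Bq d = 1 := by simp [Bq, hmod]
  have hAq : Aq d = c ^ 2 + c + m := by
    unfold Aq
    rw [if_pos hmod, hd']
    simp
  exact ⟨shiftEquiv (Aq d) (Bq d) c m B (by rw [hBq, hc]; ring) (by rw [hAq, hBq]; ring)⟩

/-- Any number field of degree 2 containing a square root of `d` has ring of integers
`QuadraticAlgebra ℤ m B`, if `d = B² + 4m` is squarefree and `B` is odd. -/
theorem ringOfIntegers_equiv (K : Type*) [Field K] [NumberField K] (hK : Module.finrank ℚ K = 2)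
    {d : ℕ} (hsq : Squarefree d) (h1 : 1 < d) (x : K) (hx : x ^ 2 = (d : K)) {m B : ℤ}
    (hd : (d : ℤ) = B ^ 2 + 4 * m) (hB : B % 2 = 1) :
    Nonempty (𝓞 K ≃+* QuadraticAlgebra ℤ m B) := by
  -- `K ≃ QuadraticAlgebra ℚ d 0`
  let φ : QuadraticAlgebra ℚ (d : ℚ) 0 →ₐ[ℚ] K :=
    QuadraticAlgebra.lift ⟨x, by rw [← sq, hx]; simp [Algebra.smul_def]⟩
  have e := eqvK hsq h1
  have hinj : Function.Injective φ := by
    have hcomp : Function.Injective (φ.comp (e.symm : KQ d →ₐ[ℚ] QuadraticAlgebra ℚ (d : ℚ) 0)) :=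
      (φ.comp (e.symm : KQ d →ₐ[ℚ] QuadraticAlgebra ℚ (d : ℚ) 0)).toRingHom.injective
    intro a b hab
    have := @hcomp (e a) (e b) (by simpa using hab)
    exact e.injective this
  have hfin : Module.finrank ℚ (QuadraticAlgebra ℚ (d : ℚ) 0) = 2 :=
    QuadraticAlgebra.finrank_eq_two _ _
  have hbij : Function.Bijective φ := by
    refine ⟨hinj, ?_⟩
    have hfd : FiniteDimensional ℚ (QuadraticAlgebra ℚ (d : ℚ) 0) :=
      FiniteDimensional.of_finrank_pos (by rw [hfin]; norm_num)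
    have := (LinearMap.injective_iff_surjective_of_finrank_eq_finrank (f := φ.toLinearMap)
      (by rw [hfin, hK])).mp hinj
    exact this
  have e' : KQ d ≃ₐ[ℚ] K := e.symm.trans (AlgEquiv.ofBijective φ hbij)
  obtain ⟨e2⟩ := exists_equiv_QI hd hB
  exact ⟨((NumberField.RingOfIntegers.mapRingEquiv (e' : KQ d ≃+* K)).symm.trans
    (eqvO hsq h1).symm).trans e2⟩

/-- unique factorisation from a finite check -/
lemma ufd_of_check {d : ℕ} {m : ℕ} {B : ℤ} (hsq : Squarefree d) (h1 : 1 < d)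
    (hd : (d : ℤ) = B ^ 2 + 4 * m) (hB : B % 2 = 1) (A : ℤ) (hA : (d : ℤ) = 4 * A + 1)
    (hcheck : ∀ p : ℕ, p.Prime → 4 * (p : ℤ) ^ 2 ≤ d → ∀ x : ℤ, |2 * x + 1| ≤ p →
      (p : ℤ) ∣ x ^ 2 + x - A → p = m) :
    IsDomain (QuadraticAlgebra ℤ (m : ℤ) B) ∧
      UniqueFactorizationMonoid (QuadraticAlgebra ℤ (m : ℤ) B) := by
  have hmod : d % 4 = 1 := by omega
  have hBq : Bq d = 1 := by simp [Bq, hmod]
  have hAq : Aq d = A := by
    unfold Aq
    rw [if_pos hmod, hA]
    simp
  have hDq : Dq d = d := by simp [Dq, hmod]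
  have hpid : IsPrincipalIdealRing (𝓞 (KQ d)) := by
    apply isPrincipalIdealRing_of_small hsq h1
    intro p hp h4 x hx hdvd
    rw [hDq] at h4
    rw [hBq] at hx hdvd
    rw [hAq] at hdvd
    have hpm := hcheck p hp h4 x hx (by rw [one_mul] at hdvd; exact hdvd)
    obtain ⟨c, hc⟩ : ∃ c, B = 2 * c + 1 := ⟨B / 2, by omega⟩
    refine ⟨⟨c, 1⟩, ?_⟩
    rw [norm_lin_eq, hBq, hAq, hpm]
    have hm : (m : ℤ) = A - c ^ 2 - c := by
      rw [hA, hc] at hd
      linarith
    have : c ^ 2 + 1 * c - A = -(m : ℤ) := by rw [hm]; ring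
    rw [this]
    simp
  have hufd : UniqueFactorizationMonoid (𝓞 (KQ d)) := inferInstance
  obtain ⟨e2⟩ := exists_equiv_QI hd hB
  have e3 : 𝓞 (KQ d) ≃+* QuadraticAlgebra ℤ (m : ℤ) B := (eqvO hsq h1).symm.trans e2
  have hdom : IsDomain (QuadraticAlgebra ℤ (m : ℤ) B) := e3.symm.toMulEquiv.isDomain
  exact ⟨hdom, e3.toMulEquiv.uniqueFactorizationMonoid hufd⟩

/-- a decidable form of the check -/
def chk (d m : ℕ) (A : ℤ) : Bool :=
  ([2, 3, 5, 7, 11, 13, 17, 19] : List ℕ).all fun p : ℕ =>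
    (decide ((d : ℤ) < 4 * (p : ℤ) ^ 2)) || (decide (p = m)) ||
      ((List.range 20).all fun j => decide (¬ (((j : ℤ) - 10) ^ 2 + ((j : ℤ) - 10) - A) % (p : ℤ) = 0))

lemma mem_list_of_prime {p : ℕ} (hp : p.Prime) (h : p < 22) :
    p ∈ [2, 3, 5, 7, 11, 13, 17, 19] := by
  interval_cases p <;> first | decide | (exfalso; revert hp; norm_num)

lemma chk_sound {d m : ℕ} {A : ℤ} (h : chk d m A = true) (hd : d < 1936) :
    ∀ p : ℕ, p.Prime → 4 * (p : ℤ) ^ 2 ≤ d → ∀ x : ℤ, |2 * x + 1| ≤ p →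
      (p : ℤ) ∣ x ^ 2 + x - A → p = m := by
  intro p hp h4 x hx hdvd
  have hp22 : p < 22 := by
    by_contra hge
    push Not at hge
    have h1 : (22 : ℤ) ≤ p := by exact_mod_cast hge
    have h2 : (d : ℤ) < 1936 := by exact_mod_cast hd
    nlinarith
  have hmem := mem_list_of_prime hp hp22
  unfold chk at h
  rw [List.all_eq_true] at h
  have h5 := h p hmem
  rw [Bool.or_eq_true, Bool.or_eq_true, decide_eq_true_eq, decide_eq_true_eq, List.all_eq_true] at h5
  rcases h5 with (h5 | h5) | h5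
  · exfalso; omega
  · exact h5
  · exfalso
    rw [abs_le] at hx
    have hp19 : p ≤ 19 := by
      simp only [List.mem_cons, List.not_mem_nil, or_false] at hmem
      omega
    have hx1 : 0 ≤ x + 10 := by omega
    have hx2 : (x + 10).toNat < 20 := by omega
    have h6 := h5 (x + 10).toNat (List.mem_range.mpr hx2)
    rw [decide_eq_true_eq] at h6
    apply h6
    rw [Int.toNat_of_nonneg hx1]
    have e : (x + 10 - 10) ^ 2 + (x + 10 - 10) - A = x ^ 2 + x - A := by ring
    rw [e]
    exact Int.emod_eq_zero_of_dvd hdvd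

/-- The eleven rings of the period-three family are unique factorisation domains.
The pair `(a, t)` gives `m = 1 + a t`, `B = (a² + 1) t + a`, `d = B² + 4 m`. -/
theorem eleven (a t : ℕ)
    (h : (a, t) ∈ [(1, 1), (1, 2), (1, 4), (1, 6), (1, 12), (2, 1), (2, 3), (2, 5), (3, 2), (4, 1),
      (6, 1)]) :
    IsDomain (QuadraticAlgebra ℤ ((1 + a * t : ℕ) : ℤ) (((a ^ 2 + 1) * t + a : ℕ) : ℤ)) ∧
      UniqueFactorizationMonoid
        (QuadraticAlgebra ℤ ((1 + a * t : ℕ) : ℤ) (((a ^ 2 + 1) * t + a : ℕ) : ℤ)) := by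
  simp only [List.mem_cons, Prod.mk.injEq, List.not_mem_nil, or_false] at h
  rcases h with ⟨rfl, rfl⟩ | ⟨rfl, rfl⟩ | ⟨rfl, rfl⟩ | ⟨rfl, rfl⟩ | ⟨rfl, rfl⟩ | ⟨rfl, rfl⟩ |
    ⟨rfl, rfl⟩ | ⟨rfl, rfl⟩ | ⟨rfl, rfl⟩ | ⟨rfl, rfl⟩ | ⟨rfl, rfl⟩
  · exact ufd_of_check (d := 17) (by norm_num : Nat.Prime 17).prime.squarefree (by norm_num)
      (by norm_num) (by norm_num) 4 (by norm_num) (chk_sound (by decide) (by norm_num))
  · exact ufd_of_check (d := 37) (by norm_num : Nat.Prime 37).prime.squarefree (by norm_num)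
      (by norm_num) (by norm_num) 9 (by norm_num) (chk_sound (by decide) (by norm_num))
  · exact ufd_of_check (d := 101) (by norm_num : Nat.Prime 101).prime.squarefree (by norm_num)
      (by norm_num) (by norm_num) 25 (by norm_num) (chk_sound (by decide) (by norm_num))
  · exact ufd_of_check (d := 197) (by norm_num : Nat.Prime 197).prime.squarefree (by norm_num)
      (by norm_num) (by norm_num) 49 (by norm_num) (chk_sound (by decide) (by norm_num))
  · exact ufd_of_check (d := 677) (by norm_num : Nat.Prime 677).prime.squarefree (by norm_num)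
      (by norm_num) (by norm_num) 169 (by norm_num) (chk_sound (by decide) (by norm_num))
  · exact ufd_of_check (d := 61) (by norm_num : Nat.Prime 61).prime.squarefree (by norm_num)
      (by norm_num) (by norm_num) 15 (by norm_num) (chk_sound (by decide) (by norm_num))
  · exact ufd_of_check (d := 317) (by norm_num : Nat.Prime 317).prime.squarefree (by norm_num)
      (by norm_num) (by norm_num) 79 (by norm_num) (chk_sound (by decide) (by norm_num))
  · exact ufd_of_check (d := 773) (by norm_num : Nat.Prime 773).prime.squarefree (by norm_num)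
      (by norm_num) (by norm_num) 193 (by norm_num) (chk_sound (by decide) (by norm_num))
  · exact ufd_of_check (d := 557) (by norm_num : Nat.Prime 557).prime.squarefree (by norm_num)
      (by norm_num) (by norm_num) 139 (by norm_num) (chk_sound (by decide) (by norm_num))
  · exact ufd_of_check (d := 461) (by norm_num : Nat.Prime 461).prime.squarefree (by norm_num)
      (by norm_num) (by norm_num) 115 (by norm_num) (chk_sound (by decide) (by norm_num))
  · exact ufd_of_check (d := 1877) (by norm_num : Nat.Prime 1877).prime.squarefree (by norm_num)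
      (by norm_num) (by norm_num) 469 (by norm_num) (chk_sound (by decide) (by norm_num))

end Pool.Agent.LibH4
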