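import Mathlib

/-!
Shared definitions for the hand-ins on real quadratic fields with unique factorisation.
-/

namespace Pool.Agent.LibH4

/-- The real quadratic field `K_d = ℚ(√d)`, as a subfield of `ℝ`. -/
noncomputable abbrev KQ (d : ℕ) : IntermediateField ℚ ℝ :=
  IntermediateField.adjoin ℚ {Real.sqrt (d : ℝ)}

/-- `a` factors uniquely: `a` is, up to a unit, a finite product of irreducible elements, and any two
such factorisations of `a` agree up to order and units. -/
def FactorsUniquely {R : Type*} [CommRing R] (a : R) : Prop :=
  (∃ f : Multiset R, (∀ x ∈ f, Irreducible x) ∧ Associated f.prod a) ∧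
    ∀ f g : Multiset R, (∀ x ∈ f, Irreducible x) → (∀ x ∈ g, Irreducible x) →
      Associated f.prod a → Associated g.prod a → Multiset.Rel Associated f g

end Pool.Agent.LibH4
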