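import Pool.Agent.Lib_helper4.Quad

namespace Pool.Agent.LibH4

open scoped NumberField

lemma rel_map_equiv {R S : Type*} [CommRing R] [CommRing S] (e : R ≃+* S) {f g : Multiset R}
    (h : Multiset.Rel Associated (f.map e) (g.map e)) : Multiset.Rel Associated f g := by
  rw [Multiset.rel_map] at h
  refine h.mono ?_
  intro a _ b _ hab
  have := hab.map (e.symm : S →* R)
  simpa using this

lemma factorsUniquely_of_equiv {R S : Type*} [CommRing R] [CommRing S] (e : R ≃+* S) {a : R}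
    (h : FactorsUniquely a) : FactorsUniquely (e a) := by
  obtain ⟨⟨f, hf, hfa⟩, huniq⟩ := h
  refine ⟨⟨f.map e, ?_, ?_⟩, ?_⟩
  · intro x hx
    obtain ⟨y, hy, rfl⟩ := Multiset.mem_map.mp hx
    exact (MulEquiv.irreducible_iff e).mpr (hf y hy)
  · rw [← map_multiset_prod]
    exact hfa.map (e : R →* S)
  · intro f' g' hf' hg' hfa' hga'
    have key : ∀ f' : Multiset S, (∀ x ∈ f', Irreducible x) → Associated f'.prod (e a) →
        (∀ x ∈ f'.map e.symm, Irreducible x) ∧ Associated (f'.map e.symm).prod a := by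
      intro f' hf' hfa'
      constructor
      · intro x hx
        obtain ⟨y, hy, rfl⟩ := Multiset.mem_map.mp hx
        exact (MulEquiv.irreducible_iff e.symm).mpr (hf' y hy)
      · rw [← map_multiset_prod]
        have := hfa'.map (e.symm : S →* R)
        simpa using this
    obtain ⟨h1, h2⟩ := key f' hf' hfa'
    obtain ⟨h3, h4⟩ := key g' hg' hga'
    exact rel_map_equiv e.symm (huniq _ _ h1 h3 h2 h4)

lemma factorsUniquely_equiv_iff {R S : Type*} [CommRing R] [CommRing S] (e : R ≃+* S) {a : R} :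
    FactorsUniquely (e a) ↔ FactorsUniquely a := by
  refine ⟨fun h => ?_, factorsUniquely_of_equiv e⟩
  have := factorsUniquely_of_equiv e.symm h
  simpa using this

/-- `QI d` is an integral domain. -/
lemma isDomain_QI {d : ℕ} (hd : Squarefree d) (h1 : 1 < d) : IsDomain (QI d) :=
  (eqvO hd h1).toMulEquiv.isDomain

lemma natCast_dvd_iff {a b : ℤ} (m : ℕ) (z : QuadraticAlgebra ℤ a b) :
    ((m : QuadraticAlgebra ℤ a b) ∣ z) ↔ (m : ℤ) ∣ z.re ∧ (m : ℤ) ∣ z.im := by
  constructor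
  · rintro ⟨w, rfl⟩
    constructor
    · exact ⟨w.re, by simp⟩
    · exact ⟨w.im, by simp⟩
  · rintro ⟨⟨u, hu⟩, ⟨v, hv⟩⟩
    exact ⟨⟨u, v⟩, by ext <;> simp [hu, hv]⟩

lemma isUnit_iff_norm {a b : ℤ} (z : QuadraticAlgebra ℤ a b) :
    IsUnit z ↔ |z.norm| = 1 := by
  rw [QuadraticAlgebra.isUnit_iff_norm_isUnit, Int.isUnit_iff_abs_eq]

lemma abs_norm_eq_of_associated {a b : ℤ} {z w : QuadraticAlgebra ℤ a b} (h : Associated z w) :
    |z.norm| = |w.norm| := by
  obtain ⟨u, rfl⟩ := h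
  have hu := (isUnit_iff_norm (u : QuadraticAlgebra ℤ a b)).mp u.isUnit
  rw [map_mul, abs_mul, hu, mul_one]

lemma norm_natCast' {a b : ℤ} (m : ℕ) :
    (m : QuadraticAlgebra ℤ a b).norm = (m : ℤ) ^ 2 := by
  simp

end Pool.Agent.LibH4
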