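import Pool.Agent.Lib_helper4.T6Small
import Pool.Agent.Lib_helper4.ElevenFields
import Pool.Agent.Lib_helper4.Transfer

/-!
Assembly of the period three theorem, from the relations of the analytic part.
-/

namespace Pool.Agent.LibH4

open scoped NumberField
open T6

/-- unique factorisation forces the parameters to be in the list -/
theorem mem_pairs_of_ufd (a t d : ℕ) (ha : 1 ≤ a) (ht : 1 ≤ t)
    (hd : d = ((a ^ 2 + 1) * t + a) ^ 2 + 4 * (1 + a * t)) (hsq : Squarefree d)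
    [IsDomain (QuadraticAlgebra ℤ ((1 + a * t : ℕ) : ℤ) (((a ^ 2 + 1) * t + a : ℕ) : ℤ))]
    [UniqueFactorizationMonoid
      (QuadraticAlgebra ℤ ((1 + a * t : ℕ) : ℤ) (((a ^ 2 + 1) * t + a : ℕ) : ℤ))]
    (hT5 : d % 8 = 5 → T5All a t d) : (a, t) ∈ pairs := by
  rcases le_or_gt (1 + a * t) 17 with hm | hm
  · exact small_case a t d ha ht hd hsq hm
  · exfalso
    obtain ⟨h8, hmo, hBo⟩ := d_mod_eight_of_ufd a t d ha ht hd hsq (by omega)
    have hj : ∀ p : ℕ, p.Prime → p ≤ 17 → p ≠ 2 → jacobiSym d p = -1 := fun p hp hp17 hp2 =>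
      (small_primes_inert a t d ha ht hd hsq p hp (by omega)).1 hp2
    exact no_large a t d hd hBo hmo (hj 3 (by norm_num) (by norm_num) (by norm_num))
      (hj 5 (by norm_num) (by norm_num) (by norm_num))
      (hj 7 (by norm_num) (by norm_num) (by norm_num))
      (hj 11 (by norm_num) (by norm_num) (by norm_num))
      (hj 13 (by norm_num) (by norm_num) (by norm_num))
      (hj 17 (by norm_num) (by norm_num) (by norm_num)) (hT5 h8)

/-- the eleven discriminants -/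
def discs : List ℕ := [17, 37, 61, 101, 197, 317, 461, 557, 677, 773, 1877]

lemma disc_of_pair {a t : ℕ} (h : (a, t) ∈ pairs) :
    ((a ^ 2 + 1) * t + a) ^ 2 + 4 * (1 + a * t) ∈ discs := by
  simp only [pairs, List.mem_cons, Prod.mk.injEq, List.not_mem_nil, or_false] at h
  rcases h with ⟨rfl, rfl⟩ | ⟨rfl, rfl⟩ | ⟨rfl, rfl⟩ | ⟨rfl, rfl⟩ | ⟨rfl, rfl⟩ | ⟨rfl, rfl⟩ |
    ⟨rfl, rfl⟩ | ⟨rfl, rfl⟩ | ⟨rfl, rfl⟩ | ⟨rfl, rfl⟩ | ⟨rfl, rfl⟩ <;> decide

lemma pair_of_disc {d : ℕ} (h : d ∈ discs) : ∃ a t : ℕ, (a, t) ∈ pairs ∧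
    d = ((a ^ 2 + 1) * t + a) ^ 2 + 4 * (1 + a * t) ∧ ((a ^ 2 + 1) * t + a) % 2 = 1 := by
  simp only [discs, List.mem_cons, List.not_mem_nil, or_false] at h
  rcases h with rfl | rfl | rfl | rfl | rfl | rfl | rfl | rfl | rfl | rfl | rfl
  · exact ⟨1, 1, by decide, by norm_num, by norm_num⟩
  · exact ⟨1, 2, by decide, by norm_num, by norm_num⟩
  · exact ⟨2, 1, by decide, by norm_num, by norm_num⟩
  · exact ⟨1, 4, by decide, by norm_num, by norm_num⟩
  · exact ⟨1, 6, by decide, by norm_num, by norm_num⟩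
  · exact ⟨2, 3, by decide, by norm_num, by norm_num⟩
  · exact ⟨4, 1, by decide, by norm_num, by norm_num⟩
  · exact ⟨3, 2, by decide, by norm_num, by norm_num⟩
  · exact ⟨1, 12, by decide, by norm_num, by norm_num⟩
  · exact ⟨2, 5, by decide, by norm_num, by norm_num⟩
  · exact ⟨6, 1, by decide, by norm_num, by norm_num⟩

/-- the eleven fields have unique factorisation -/
theorem ufd_of_disc {d : ℕ} (h : d ∈ discs) (hsq : Squarefree d) :
    UniqueFactorizationMonoid (𝓞 (KQ d)) := by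
  obtain ⟨a, t, hp, hd, hB⟩ := pair_of_disc h
  have h1 : 1 < d := by rw [hd]; nlinarith [Nat.zero_le (((a ^ 2 + 1) * t + a) ^ 2), Nat.zero_le (a * t)]
  have hd' : (d : ℤ) = (((a ^ 2 + 1) * t + a : ℕ) : ℤ) ^ 2 + 4 * ((1 + a * t : ℕ) : ℤ) := by
    rw [hd]; push_cast; ring
  obtain ⟨e⟩ := exists_equiv_QI hd' (by exact_mod_cast hB)
  obtain ⟨h2, h3⟩ := eleven a t hp
  exact (e.symm.trans (eqvO hsq h1)).toMulEquiv.uniqueFactorizationMonoid h3

/-- **the period three theorem**, given the relations of the analytic part -/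
theorem finalT (hT5 : ∀ (a t d : ℕ), 1 ≤ a → 1 ≤ t →
      d = ((a ^ 2 + 1) * t + a) ^ 2 + 4 * (1 + a * t) → Squarefree d → d % 8 = 5 →
      ∀ [IsDomain (QuadraticAlgebra ℤ ((1 + a * t : ℕ) : ℤ) (((a ^ 2 + 1) * t + a : ℕ) : ℤ))]
        [UniqueFactorizationMonoid
          (QuadraticAlgebra ℤ ((1 + a * t : ℕ) : ℤ) (((a ^ 2 + 1) * t + a : ℕ) : ℤ))],
        T5All a t d)
    (a t d : ℕ) (ha : 1 ≤ a) (ht : 1 ≤ t)
    (hd : d = ((a ^ 2 + 1) * t + a) ^ 2 + 4 * (1 + a * t)) (hsq : Squarefree d) :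
    UniqueFactorizationMonoid (𝓞 (KQ d)) ↔ d ∈ discs := by
  constructor
  · intro hU
    have h1 : 1 < d := by rw [hd]; nlinarith [Nat.zero_le (((a ^ 2 + 1) * t + a) ^ 2), Nat.zero_le (a * t)]
    have hB := B_odd hd hsq
    have hd' : (d : ℤ) = (((a ^ 2 + 1) * t + a : ℕ) : ℤ) ^ 2 + 4 * ((1 + a * t : ℕ) : ℤ) := by
      rw [hd]; push_cast; ring
    obtain ⟨e⟩ := exists_equiv_QI hd' (by exact_mod_cast hB)
    have e' := e.symm.trans (eqvO hsq h1)
    have i1 : IsDomain (QuadraticAlgebra ℤ ((1 + a * t : ℕ) : ℤ)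
      (((a ^ 2 + 1) * t + a : ℕ) : ℤ)) := e'.toMulEquiv.isDomain
    have i2 : UniqueFactorizationMonoid (QuadraticAlgebra ℤ ((1 + a * t : ℕ) : ℤ)
      (((a ^ 2 + 1) * t + a : ℕ) : ℤ)) := e'.symm.toMulEquiv.uniqueFactorizationMonoid hU
    have hp := mem_pairs_of_ufd a t d ha ht hd hsq (fun h8 => hT5 a t d ha ht hd hsq h8)
    rw [hd]
    exact disc_of_pair hp
  · intro h
    exact ufd_of_disc h hsq

end Pool.Agent.LibH4
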