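import Pool.Agent.Lib_helper5.Psi

/-!
T4: finite algebra of the Dedekind type sums attached to the three edges.
-/

namespace Pool.Agent.LibH4

open Pool.Agent.Lib_helper5 Finset

namespace FA

variable {q : ℕ} [NeZero q]

/-- `bet` on residues -/
noncomputable def b (z : ZMod q) : ℝ := bet q z.val

/-- `B2` on residues -/
noncomputable def c (z : ZMod q) : ℝ := B2 ((z.val : ℝ) / q)

lemma q_pos : (0 : ℝ) < q := by
  have : 0 < q := Nat.pos_of_ne_zero (NeZero.ne q)
  exact_mod_cast this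

/-- the three term relation -/
lemma id3 (r s u : ℕ) (hr : r < q) (hs : s < q) (hu : u < q)
    (h : r + s + u = 0 ∨ r + s + u = q ∨ r + s + u = 2 * q) :
    bet q r * bet q s + bet q s * bet q u + bet q u * bet q r =
      -1 / 2 * (B2 ((r : ℝ) / q) + B2 ((s : ℝ) / q) + B2 ((u : ℝ) / q)) +
        (if r = 0 ∧ s = 0 then 1 / 4 else 0) := by
  have hq := q_pos (q := q)
  have hrs : r + s + u = 0 → r = 0 ∧ s = 0 ∧ u = 0 := by omega
  rcases h with h | h | h
  · obtain ⟨rfl, rfl, rfl⟩ := hrs h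
    simp [bet, B2]; norm_num
  · have hw : (u : ℝ) / q = 1 - (r : ℝ) / q - (s : ℝ) / q := by
      have : (r : ℝ) + s + u = q := by exact_mod_cast h
      field_simp
      linarith
    unfold bet
    by_cases hr0 : r = 0
    · have hs0 : s ≠ 0 := by omega
      have hu0 : u ≠ 0 := by omega
      rw [if_pos hr0, if_neg hs0, if_neg hu0, if_neg (by tauto), hw]
      subst hr0
      unfold B2
      push_cast
      ring
    · by_cases hs0 : s = 0
      · have hu0 : u ≠ 0 := by omega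
        rw [if_neg hr0, if_pos hs0, if_neg hu0, if_neg (by tauto), hw]
        subst hs0
        unfold B2
        push_cast
        ring
      · by_cases hu0 : u = 0
        · rw [if_neg hr0, if_neg hs0, if_pos hu0, if_neg (by tauto)]
          have hs' : (s : ℝ) / q = 1 - (r : ℝ) / q := by
            subst hu0
            simp only [Nat.cast_zero, zero_div] at hw
            linarith
          subst hu0
          rw [hs']
          unfold B2
          push_cast
          ring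
        · rw [if_neg hr0, if_neg hs0, if_neg hu0, if_neg (by tauto), hw]
          unfold B2
          ring
  · have hw : (u : ℝ) / q = 2 - (r : ℝ) / q - (s : ℝ) / q := by
      have : (r : ℝ) + s + u = 2 * q := by exact_mod_cast h
      field_simp
      linarith
    have hr0 : r ≠ 0 := by omega
    have hs0 : s ≠ 0 := by omega
    have hu0 : u ≠ 0 := by omega
    unfold bet
    rw [if_neg hr0, if_neg hs0, if_neg hu0, if_neg (by tauto), hw]
    unfold B2
    ring

lemma id3' (X Z W : ZMod q) (h : X + Z + W = 0) :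
    b X * b Z + b Z * b W + b W * b X =
      -1 / 2 * (c X + c Z + c W) + (if X = 0 ∧ Z = 0 then 1 / 4 else 0) := by
  have hX := ZMod.val_lt X
  have hZ := ZMod.val_lt Z
  have hW := ZMod.val_lt W
  have hdvd : q ∣ X.val + Z.val + W.val := by
    rw [← ZMod.natCast_eq_zero_iff]
    push_cast
    rw [ZMod.natCast_zmod_val, ZMod.natCast_zmod_val, ZMod.natCast_zmod_val]
    exact h
  have hsum : X.val + Z.val + W.val = 0 ∨ X.val + Z.val + W.val = q ∨
      X.val + Z.val + W.val = 2 * q := by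
    obtain ⟨k, hk⟩ := hdvd
    have hk3 : k < 3 := by
      by_contra hk3
      push Not at hk3
      have : q * 3 ≤ q * k := Nat.mul_le_mul_left q hk3
      omega
    interval_cases k
    · left; omega
    · right; left; omega
    · right; right; omega
  have key := id3 X.val Z.val W.val hX hZ hW hsum
  simp only [ZMod.val_eq_zero] at key
  exact key

lemma b_neg (z : ZMod q) : b (-z) = - b z := by
  unfold b
  by_cases hz : z = 0
  · subst hz; simp [bet]
  · have hz' : z.val ≠ 0 := by rwa [Ne, ZMod.val_eq_zero]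
    have := ZMod.val_lt z
    have e : (-z).val = q - z.val := by
      rw [ZMod.neg_val, if_neg hz]
    rw [e]
    unfold bet
    have hq := q_pos (q := q)
    rw [if_neg hz', if_neg (by omega), Nat.cast_sub this.le]
    field_simp
    ring

lemma c_neg (z : ZMod q) : c (-z) = c z := by
  unfold c
  by_cases hz : z = 0
  · subst hz; simp
  · have := ZMod.val_lt z
    have e : (-z).val = q - z.val := by
      rw [ZMod.neg_val, if_neg hz]
    rw [e]
    unfold B2
    have hq := q_pos (q := q)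
    rw [Nat.cast_sub this.le]
    field_simp
    ring

/-- sum over pairs of residues -/
noncomputable def S2 (g : ZMod q → ZMod q → ℝ) : ℝ := ∑ z : ZMod q × ZMod q, g z.1 z.2

lemma S2_congr {g h : ZMod q → ZMod q → ℝ} (H : ∀ x y, g x y = h x y) : S2 g = S2 h := by
  unfold S2
  exact Finset.sum_congr rfl (fun z _ => H z.1 z.2)

lemma S2_add (g h : ZMod q → ZMod q → ℝ) : S2 (fun x y => g x y + h x y) = S2 g + S2 h := by
  unfold S2
  exact Finset.sum_add_distrib

lemma S2_smul (k : ℝ) (g : ZMod q → ZMod q → ℝ) : S2 (fun x y => k * g x y) = k * S2 g := by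
  unfold S2
  rw [Finset.mul_sum]

lemma S2_comp (e : (ZMod q × ZMod q) ≃ (ZMod q × ZMod q)) (g : ZMod q → ZMod q → ℝ) :
    S2 (fun x y => g (e (x, y)).1 (e (x, y)).2) = S2 g := by
  unfold S2
  exact Equiv.sum_comp e (fun z => g z.1 z.2)

/-- the first substitution -/
def eq1 (i : ZMod q) : (ZMod q × ZMod q) ≃ (ZMod q × ZMod q) where
  toFun z := ((i + 1) * z.1 - z.2, z.2 - i * z.1)
  invFun z := (z.1 + z.2, i * z.1 + (i + 1) * z.2)
  left_inv z := by ext <;> simp <;> ring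
  right_inv z := by ext <;> simp <;> ring

/-- the second substitution -/
def eq2 (i : ZMod q) : (ZMod q × ZMod q) ≃ (ZMod q × ZMod q) where
  toFun z := (z.1, i * z.1 - z.2)
  invFun z := (z.1, i * z.1 - z.2)
  left_inv z := by ext <;> simp
  right_inv z := by ext <;> simp

/-- the third substitution -/
def eq3 : (ZMod q × ZMod q) ≃ (ZMod q × ZMod q) where
  toFun z := (z.2, - z.1)
  invFun z := (- z.2, z.1)
  left_inv z := by ext <;> simp
  right_inv z := by ext <;> simp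

/-- the fifth substitution -/
def eq5 (i : ZMod q) : (ZMod q × ZMod q) ≃ (ZMod q × ZMod q) where
  toFun z := (z.1 + i * z.2, i * z.1 + (1 + i ^ 2) * z.2)
  invFun z := ((1 + i ^ 2) * z.1 - i * z.2, z.2 - i * z.1)
  left_inv z := by ext <;> simp <;> ring
  right_inv z := by ext <;> simp <;> ring

/-- a quadratic form on residues -/
def QQ (P R S : ZMod q) (x y : ZMod q) : ZMod q := P * x ^ 2 + R * x * y - S * y ^ 2

variable (F : ZMod q → ℝ)

/-- the `T` sum -/
noncomputable def TT (P R S i : ZMod q) : ℝ := S2 fun x y => F (QQ P R S x y) * (b x * b (y - (i : ZMod q) * x))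
/-- the `M` sum -/
noncomputable def MM (P R S i : ZMod q) : ℝ := S2 fun x y => F (QQ P R S x y) * c (y - (i : ZMod q) * x)
/-- the `M` sum for the first coordinate -/
noncomputable def MW (P R S : ZMod q) : ℝ := S2 fun x y => F (QQ P R S x y) * c x

/-- the sum `Λ` on residues -/
noncomputable def LamZ (A C E : ℤ) : ℝ := S2 fun (u v : ZMod q) =>
  F ((A : ZMod q) * u ^ 2 + (C : ZMod q) * u * v + (E : ZMod q) * v ^ 2) *
    (b u * b v + (C : ℝ) / (4 * A) * c v + (C : ℝ) / (4 * E) * c u)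

/-- coefficient `A_i` -/
def Ai (P R S i : ℤ) : ℤ := P + R * i - S * i ^ 2
/-- coefficient `C_i` -/
def Ci (P R S i : ℤ) : ℤ := 2 * P + R * (2 * i + 1) - 2 * S * i * (i + 1)

lemma LamZ_step (hF : F 0 = 0) (P R S i : ℤ) :
    LamZ F (Ai P R S i) (Ci P R S i) (Ai P R S (i + 1)) =
      TT F P R S i - TT F P R S (i + 1) -
        1 / 2 * (MW F P R S + MM F P R S i + MM F P R S (i + 1)) +
        (Ci P R S i : ℝ) / (4 * Ai P R S i) * MM F P R S i +
        (Ci P R S i : ℝ) / (4 * Ai P R S (i + 1)) * MM F P R S (i + 1) := by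
  unfold LamZ
  rw [← S2_comp (eq1 (i : ZMod q))]
  simp only [eq1, Equiv.coe_fn_mk]
  have hfun : ∀ x y : ZMod q,
      F (((Ai P R S i : ℤ) : ZMod q) * (((i : ZMod q) + 1) * x - y) ^ 2 +
        ((Ci P R S i : ℤ) : ZMod q) * (((i : ZMod q) + 1) * x - y) * (y - (i : ZMod q) * x) +
        ((Ai P R S (i + 1) : ℤ) : ZMod q) * (y - (i : ZMod q) * x) ^ 2) *
      (b (((i : ZMod q) + 1) * x - y) * b (y - (i : ZMod q) * x) +
        (Ci P R S i : ℝ) / (4 * Ai P R S i) * c (y - (i : ZMod q) * x) +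
        (Ci P R S i : ℝ) / (4 * Ai P R S (i + 1)) * c (((i : ZMod q) + 1) * x - y)) =
      F (QQ (P : ZMod q) R S x y) * (b x * b (y - (i : ZMod q) * x)) +
      (-1) * (F (QQ (P : ZMod q) R S x y) * (b x * b (y - ((i : ZMod q) + 1) * x))) +
      (-1 / 2) * (F (QQ (P : ZMod q) R S x y) * c x) +
      (-1 / 2 + (Ci P R S i : ℝ) / (4 * Ai P R S i)) * (F (QQ (P : ZMod q) R S x y) * c (y - (i : ZMod q) * x)) +
      (-1 / 2 + (Ci P R S i : ℝ) / (4 * Ai P R S (i + 1))) *
        (F (QQ (P : ZMod q) R S x y) * c (y - ((i : ZMod q) + 1) * x)) := by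
    intro x y
    have eQ : ((Ai P R S i : ℤ) : ZMod q) * (((i : ZMod q) + 1) * x - y) ^ 2 +
        ((Ci P R S i : ℤ) : ZMod q) * (((i : ZMod q) + 1) * x - y) * (y - (i : ZMod q) * x) +
        ((Ai P R S (i + 1) : ℤ) : ZMod q) * (y - (i : ZMod q) * x) ^ 2 = QQ (P : ZMod q) R S x y := by
      unfold Ai Ci QQ
      push_cast
      ring
    rw [eQ]
    have eb : b (((i : ZMod q) + 1) * x - y) = - b (y - ((i : ZMod q) + 1) * x) := by
      rw [← b_neg]; congr 1; ring
    have ec : c (((i : ZMod q) + 1) * x - y) = c (y - ((i : ZMod q) + 1) * x) := by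
      rw [← c_neg]; congr 1; ring
    rw [eb, ec]
    have h3 := id3' x (y - ((i : ZMod q) + 1) * x) (-(y - (i : ZMod q) * x)) (by ring)
    rw [b_neg, c_neg] at h3
    by_cases h0 : x = 0 ∧ y - ((i : ZMod q) + 1) * x = 0
    · have hx := h0.1
      have hy : y = 0 := by
        have := h0.2
        rw [hx] at this
        simpa using this
      have hQ0 : QQ (P : ZMod q) R S x y = 0 := by
        rw [hx, hy]; simp [QQ]
      rw [hQ0, hF]
      ring
    · rw [if_neg h0] at h3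
      linear_combination (F (QQ (P : ZMod q) R S x y)) * h3
  rw [S2_congr hfun]
  rw [S2_add, S2_add, S2_add, S2_add, S2_smul, S2_smul, S2_smul, S2_smul]
  unfold TT MM MW
  ring

/-- telescoping along one edge -/
lemma edge_sum (hF : F 0 = 0) (P R S : ℤ) (n : ℕ) (hA : ∀ i : ℕ, i ≤ n → Ai P R S i ≠ 0) :
    ∑ i ∈ range n, LamZ F (Ai P R S i) (Ci P R S i) (Ai P R S (i + 1)) =
      TT F (P : ZMod q) R S 0 - TT F P R S n - (n : ℝ) / 2 * MW F P R S
        + (R : ℝ) / (4 * P) * MM F P R S 0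
        + (2 * (S : ℝ) * n - R) / (4 * Ai P R S n) * MM F P R S n := by
  induction n with
  | zero =>
    simp only [range_zero, sum_empty, Nat.cast_zero, zero_div, zero_mul, sub_zero, mul_zero]
    have e : Ai P R S 0 = P := by simp [Ai]
    rw [e]
    ring
  | succ n IH =>
    rw [sum_range_succ, IH (fun i hi => hA i (by omega)), LamZ_step F hF]
    have h1 : (Ai P R S n : ℝ) ≠ 0 := by exact_mod_cast hA n (by omega)
    have h2 : (Ai P R S ((n : ℤ) + 1) : ℝ) ≠ 0 := by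
      have := hA (n + 1) le_rfl
      push_cast at this
      exact_mod_cast this
    have e1 : (2 * (S : ℝ) * n - R) / (4 * Ai P R S n) =
        1 / 2 - (Ci P R S n : ℝ) / (4 * Ai P R S n) := by
      field_simp
      unfold Ai Ci
      push_cast
      ring
    have e2 : (2 * (S : ℝ) * ((n + 1 : ℕ) : ℝ) - R) / (4 * Ai P R S ((n + 1 : ℕ) : ℤ)) =
        (Ci P R S n : ℝ) / (4 * Ai P R S ((n : ℤ) + 1)) - 1 / 2 := by
      push_cast
      field_simp
      unfold Ai Ci
      push_cast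
      ring
    rw [e1, e2]
    push_cast
    ring

variable {F}

/-- the relations between the sums on the three edges -/
lemma rel_MW2 (hodd : ∀ x, F (-x) = -F x) (m B : ZMod q) :
    MW F m B 1 = - MM F 1 B m 0 := by
  unfold MW MM
  rw [← S2_comp eq3 (fun x y => F (QQ 1 B m x y) * c (y - 0 * x)), neg_eq_neg_one_mul, ← S2_smul]
  apply S2_congr
  intro x y
  simp only [eq3, Equiv.coe_fn_mk]
  have e : QQ 1 B m y (-x) = - QQ m B 1 x y := by unfold QQ; ring
  rw [e, hodd, zero_mul, sub_zero, c_neg]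
  ring

lemma rel_MM2 (hodd : ∀ x, F (-x) = -F x) (m B : ZMod q) :
    MM F m B 1 0 = - MW F 1 B m := by
  unfold MW MM
  rw [← S2_comp eq3 (fun x y => F (QQ 1 B m x y) * c x), neg_eq_neg_one_mul, ← S2_smul]
  apply S2_congr
  intro x y
  simp only [eq3, Equiv.coe_fn_mk]
  have e : QQ 1 B m y (-x) = - QQ m B 1 x y := by unfold QQ; ring
  rw [e, hodd, zero_mul, sub_zero]
  ring

lemma rel_TT2 (hodd : ∀ x, F (-x) = -F x) (m B : ZMod q) :
    TT F m B 1 0 = TT F 1 B m 0 := by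
  unfold TT
  rw [← S2_comp eq3 (fun x y => F (QQ 1 B m x y) * (b x * b (y - 0 * x)))]
  apply S2_congr
  intro x y
  simp only [eq3, Equiv.coe_fn_mk]
  have e : QQ 1 B m y (-x) = - QQ m B 1 x y := by unfold QQ; ring
  rw [e, hodd, zero_mul, zero_mul, sub_zero, sub_zero, b_neg]
  ring

lemma rel_TT2' (m B : ZMod q) : TT F m B 1 B = - TT F m B 1 0 := by
  unfold TT
  rw [← S2_comp (eq2 B) (fun x y => F (QQ m B 1 x y) * (b x * b (y - B * x))),
    neg_eq_neg_one_mul, ← S2_smul]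
  apply S2_congr
  intro x y
  simp only [eq2, Equiv.coe_fn_mk]
  have e : QQ m B 1 x (B * x - y) = QQ m B 1 x y := by unfold QQ; ring
  have e' : B * x - y - B * x = -y := by ring
  rw [e, e', zero_mul, sub_zero, b_neg]
  ring

lemma rel_MM2' (m B : ZMod q) : MM F m B 1 B = MM F m B 1 0 := by
  unfold MM
  rw [← S2_comp (eq2 B) (fun x y => F (QQ m B 1 x y) * c (y - B * x))]
  apply S2_congr
  intro x y
  simp only [eq2, Equiv.coe_fn_mk]
  have e : QQ m B 1 x (B * x - y) = QQ m B 1 x y := by unfold QQ; ring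
  have e' : B * x - y - B * x = -y := by ring
  rw [e, e', zero_mul, sub_zero, c_neg]

omit [NeZero q] in
/-- relation between edge 1 and edge 3 -/
lemma QQ13 (a t x y : ZMod q) :
    QQ (1 + a * t) (2 * (1 + a * t) * a - ((a ^ 2 + 1) * t + a)) (1 + a * t) x (a * x - y) =
      QQ 1 ((a ^ 2 + 1) * t + a) (1 + a * t) x y := by
  unfold QQ; ring

omit [NeZero q] in
lemma QQ31 (a t x y : ZMod q) :
    QQ 1 ((a ^ 2 + 1) * t + a) (1 + a * t) x (a * x - y) =
    QQ (1 + a * t) (2 * (1 + a * t) * a - ((a ^ 2 + 1) * t + a)) (1 + a * t) x y := by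
  unfold QQ; ring

lemma rel_TT3 (a t : ZMod q) :
    TT F (1 + a * t) (2 * (1 + a * t) * a - ((a ^ 2 + 1) * t + a)) (1 + a * t) a =
      - TT F 1 ((a ^ 2 + 1) * t + a) (1 + a * t) 0 := by
  unfold TT
  rw [← S2_comp (eq2 a) (fun x y => F (QQ (1 + a * t) (2 * (1 + a * t) * a -
      ((a ^ 2 + 1) * t + a)) (1 + a * t) x y) * (b x * b (y - a * x))),
    neg_eq_neg_one_mul, ← S2_smul]
  apply S2_congr
  intro x y
  simp only [eq2, Equiv.coe_fn_mk]
  have e' : a * x - y - a * x = -y := by ring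
  rw [QQ13, e', zero_mul, sub_zero, b_neg]
  ring

lemma rel_TT1 (a t : ZMod q) :
    TT F 1 ((a ^ 2 + 1) * t + a) (1 + a * t) a =
      - TT F (1 + a * t) (2 * (1 + a * t) * a - ((a ^ 2 + 1) * t + a)) (1 + a * t) 0 := by
  unfold TT
  rw [← S2_comp (eq2 a) (fun x y => F (QQ 1 ((a ^ 2 + 1) * t + a) (1 + a * t) x y) *
      (b x * b (y - a * x))), neg_eq_neg_one_mul, ← S2_smul]
  apply S2_congr
  intro x y
  simp only [eq2, Equiv.coe_fn_mk]
  have e' : a * x - y - a * x = -y := by ring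
  rw [QQ31, e', zero_mul, sub_zero, b_neg]
  ring

lemma rel_MW3 (a t : ZMod q) :
    MW F (1 + a * t) (2 * (1 + a * t) * a - ((a ^ 2 + 1) * t + a)) (1 + a * t) =
      MW F 1 ((a ^ 2 + 1) * t + a) (1 + a * t) := by
  unfold MW
  rw [← S2_comp (eq2 a) (fun x y => F (QQ (1 + a * t) (2 * (1 + a * t) * a -
      ((a ^ 2 + 1) * t + a)) (1 + a * t) x y) * c x)]
  apply S2_congr
  intro x y
  simp only [eq2, Equiv.coe_fn_mk]
  rw [QQ13]

lemma rel_MM3 (a t : ZMod q) :
    MM F (1 + a * t) (2 * (1 + a * t) * a - ((a ^ 2 + 1) * t + a)) (1 + a * t) 0 =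
      MM F 1 ((a ^ 2 + 1) * t + a) (1 + a * t) a := by
  unfold MM
  rw [← S2_comp (eq2 a) (fun x y => F (QQ (1 + a * t) (2 * (1 + a * t) * a -
      ((a ^ 2 + 1) * t + a)) (1 + a * t) x y) * c (y - 0 * x))]
  apply S2_congr
  intro x y
  simp only [eq2, Equiv.coe_fn_mk]
  have e' : c (a * x - y) = c (y - a * x) := by rw [← c_neg]; congr 1; ring
  rw [QQ13, zero_mul, sub_zero, e']

lemma rel_MM3' (a t : ZMod q) :
    MM F (1 + a * t) (2 * (1 + a * t) * a - ((a ^ 2 + 1) * t + a)) (1 + a * t) a =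
      MM F 1 ((a ^ 2 + 1) * t + a) (1 + a * t) 0 := by
  unfold MM
  rw [← S2_comp (eq2 a) (fun x y => F (QQ (1 + a * t) (2 * (1 + a * t) * a -
      ((a ^ 2 + 1) * t + a)) (1 + a * t) x y) * c (y - a * x))]
  apply S2_congr
  intro x y
  simp only [eq2, Equiv.coe_fn_mk]
  have e' : a * x - y - a * x = -y := by ring
  rw [QQ13, zero_mul, sub_zero, e', c_neg]

/-- relation between edge 1 and edge 2 -/
lemma rel_MM12 (a t : ZMod q) :
    MM F 1 ((a ^ 2 + 1) * t + a) (1 + a * t) a =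
      MM F (1 + a * t) ((a ^ 2 + 1) * t + a) 1 0 := by
  unfold MM
  rw [← S2_comp (eq5 a) (fun x y => F (QQ 1 ((a ^ 2 + 1) * t + a) (1 + a * t) x y) *
      c (y - a * x))]
  apply S2_congr
  intro x y
  simp only [eq5, Equiv.coe_fn_mk]
  have e : QQ 1 ((a ^ 2 + 1) * t + a) (1 + a * t) (x + a * y) (a * x + (1 + a ^ 2) * y) =
      QQ (1 + a * t) ((a ^ 2 + 1) * t + a) 1 x y := by unfold QQ; ring
  have e' : a * x + (1 + a ^ 2) * y - a * (x + a * y) = y := by ring
  rw [e, e', zero_mul, sub_zero]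

lemma sum_range_zmod (g : ℕ → ℝ) : ∑ r ∈ range q, g r = ∑ z : ZMod q, g z.val := by
  refine Finset.sum_nbij' (fun r => (r : ZMod q)) (fun z => z.val) ?_ ?_ ?_ ?_ ?_
  · intro r _; exact mem_univ _
  · intro z _; exact mem_range.mpr (ZMod.val_lt z)
  · intro r hr; exact ZMod.val_cast_of_lt (mem_range.mp hr)
  · intro z _; exact ZMod.natCast_zmod_val z
  · intro r hr; simp only [ZMod.val_cast_of_lt (mem_range.mp hr)]

lemma sum_range_S2 (g : ℕ → ℕ → ℝ) :
    ∑ r ∈ range q, ∑ s ∈ range q, g r s = S2 (fun x y : ZMod q => g x.val y.val) := by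
  rw [sum_range_zmod]
  unfold S2
  rw [Fintype.sum_prod_type]
  apply Finset.sum_congr rfl
  intro x _
  exact sum_range_zmod _

/-- the function on residues attached to a periodic function -/
noncomputable def Fq (q : ℕ) (f : ℤ → ℝ) (z : ZMod q) : ℝ := f z.val

lemma per_mul {q : ℕ} {f : ℤ → ℝ} (hper : ∀ x, f (x + q) = f x) (x k : ℤ) : f (x + k * q) = f x := by
  induction k using Int.induction_on with
  | zero => simp
  | succ i ih =>
    rw [← ih, ← hper (x + i * q)]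
    congr 1; ring
  | pred i ih =>
    rw [← ih, ← hper (x + (-(i : ℤ) - 1) * q)]
    congr 1; ring

lemma Fq_intCast {f : ℤ → ℝ} (hper : ∀ x, f (x + q) = f x) (n : ℤ) :
    Fq q f (n : ZMod q) = f n := by
  unfold Fq
  rw [ZMod.val_intCast]
  have h := per_mul hper (n % q) (n / q)
  have e : n % q + n / q * q = n := by rw [mul_comm]; exact Int.emod_add_mul_ediv n q
  rw [e] at h
  exact h.symm

lemma Fq_neg {f : ℤ → ℝ} (hper : ∀ x, f (x + q) = f x) (hodd : ∀ x, f (-x) = - f x) (z : ZMod q) :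
    Fq q f (-z) = - Fq q f z := by
  obtain ⟨n, rfl⟩ := ZMod.intCast_surjective z
  rw [← Int.cast_neg, Fq_intCast hper, Fq_intCast hper, hodd]

end FA

/-- the finite sum `Λ` -/
noncomputable def Lam (q : ℕ) (f : ℤ → ℝ) (A C E : ℤ) : ℝ :=
  ∑ r ∈ range q, ∑ s ∈ range q, f (A * (r : ℤ) ^ 2 + C * r * s + E * (s : ℤ) ^ 2) *
    (bet q r * bet q s + (C : ℝ) / (4 * A) * B2 ((s : ℝ) / q) +
      (C : ℝ) / (4 * E) * B2 ((r : ℝ) / q))

/-- sum along an edge of a product of two sawtooth functions -/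
noncomputable def SS (q : ℕ) (f : ℤ → ℝ) (P R S : ℤ) : ℝ :=
  ∑ r ∈ range q, ∑ s ∈ range q, f (P * (r : ℤ) ^ 2 + R * r * s - S * (s : ℤ) ^ 2) *
    (bet q r * bet q s)

/-- sum along an edge of a second Bernoulli function -/
noncomputable def MS (q : ℕ) (f : ℤ → ℝ) (P R S : ℤ) : ℝ :=
  ∑ r ∈ range q, ∑ s ∈ range q, f (P * (r : ℤ) ^ 2 + R * r * s - S * (s : ℤ) ^ 2) *
    B2 ((s : ℝ) / q)

namespace FA

variable {q : ℕ} [NeZero q] {f : ℤ → ℝ}

lemma Lam_eq (hper : ∀ x, f (x + q) = f x) (A C E : ℤ) :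
    Lam q f A C E = LamZ (Fq q f) A C E := by
  unfold Lam LamZ
  rw [sum_range_S2 (q := q) (fun r s => f (A * (r : ℤ) ^ 2 + C * r * s + E * (s : ℤ) ^ 2) *
    (bet q r * bet q s + (C : ℝ) / (4 * A) * B2 ((s : ℝ) / q) +
      (C : ℝ) / (4 * E) * B2 ((r : ℝ) / q)))]
  apply S2_congr
  intro x y
  rw [← Fq_intCast hper]
  push_cast
  rw [ZMod.natCast_zmod_val, ZMod.natCast_zmod_val]
  rfl

lemma SS_eq (hper : ∀ x, f (x + q) = f x) (P R S : ℤ) :
    SS q f P R S = TT (Fq q f) P R S 0 := by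
  unfold SS TT
  rw [sum_range_S2 (q := q) (fun r s => f (P * (r : ℤ) ^ 2 + R * r * s - S * (s : ℤ) ^ 2) *
    (bet q r * bet q s))]
  apply S2_congr
  intro x y
  rw [← Fq_intCast hper]
  push_cast
  rw [ZMod.natCast_zmod_val, ZMod.natCast_zmod_val, zero_mul, sub_zero]
  rfl

lemma MS_eq (hper : ∀ x, f (x + q) = f x) (P R S : ℤ) :
    MS q f P R S = MM (Fq q f) P R S 0 := by
  unfold MS MM
  rw [sum_range_S2 (q := q) (fun r s => f (P * (r : ℤ) ^ 2 + R * r * s - S * (s : ℤ) ^ 2) *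
    B2 ((s : ℝ) / q))]
  apply S2_congr
  intro x y
  rw [← Fq_intCast hper]
  push_cast
  rw [ZMod.natCast_zmod_val, ZMod.natCast_zmod_val, zero_mul, sub_zero]
  rfl

/-- `M2` is the first coordinate sum on edge one -/
lemma MW_eq (F : ZMod q → ℝ) (B m : ZMod q) : MM F (-m) B (-1) 0 = MW F 1 B m := by
  unfold MM MW S2
  rw [← Equiv.sum_comp (Equiv.prodComm (ZMod q) (ZMod q))]
  apply Finset.sum_congr rfl
  intro z _
  simp only [Equiv.prodComm_apply, Prod.fst_swap, Prod.snd_swap]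
  have e : QQ (-m) B (-1) z.2 z.1 = QQ 1 B m z.1 z.2 := by unfold QQ; ring
  rw [e, zero_mul, sub_zero]

lemma A1_ne (a t : ℕ) (ha : 1 ≤ a) (i : ℕ) (hi : i ≤ a) :
    Ai 1 (((a : ℤ) ^ 2 + 1) * t + a) (1 + a * t) i ≠ 0 := by
  unfold Ai
  have hi' : (i : ℤ) ≤ a := by exact_mod_cast hi
  have hi0 : (0 : ℤ) ≤ i := by positivity
  have ht0 : (0 : ℤ) ≤ t := by positivity
  have ha0 : (0 : ℤ) ≤ a := by positivity
  have h1 : 0 ≤ (1 + (a : ℤ) * t) * (i * (a - i)) := by
    apply mul_nonneg (by positivity)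
    apply mul_nonneg hi0 (by linarith)
  have h2 : 0 ≤ (t : ℤ) * i := by positivity
  intro h
  nlinarith

lemma A2_ne (a t : ℕ) (ha : 1 ≤ a) (i : ℕ) (hi : i ≤ (a ^ 2 + 1) * t + a) :
    Ai (1 + a * t) (((a : ℤ) ^ 2 + 1) * t + a) 1 i ≠ 0 := by
  unfold Ai
  have hi' : (i : ℤ) ≤ ((a : ℤ) ^ 2 + 1) * t + a := by exact_mod_cast hi
  have hi0 : (0 : ℤ) ≤ i := by positivity
  have h1 : 0 ≤ (i : ℤ) * (((a : ℤ) ^ 2 + 1) * t + a - i) := mul_nonneg hi0 (by linarith)
  have h2 : 0 ≤ (a : ℤ) * t := by positivity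
  intro h
  nlinarith

lemma A3_ne (a t : ℕ) (ha : 1 ≤ a) (i : ℕ) (hi : i ≤ a) :
    Ai (1 + a * t) (2 * (1 + a * t) * a - (((a : ℤ) ^ 2 + 1) * t + a)) (1 + a * t) i ≠ 0 := by
  unfold Ai
  have hi' : (i : ℤ) ≤ a := by exact_mod_cast hi
  have hi0 : (0 : ℤ) ≤ i := by positivity
  have ht0 : (0 : ℤ) ≤ t := by positivity
  have ha0 : (0 : ℤ) ≤ a := by positivity
  have h1 : 0 ≤ (1 + (a : ℤ) * t) * (i * (a - i)) := by
    apply mul_nonneg (by positivity)
    apply mul_nonneg hi0 (by linarith)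
  have h2 : 0 ≤ (t : ℤ) * (a - i) := mul_nonneg ht0 (by linarith)
  intro h
  nlinarith

end FA

open FA in
/-- **T4** -/
theorem finite_alg (a t q : ℕ) (ha : 1 ≤ a) (hq : 0 < q) (f : ℤ → ℝ)
    (hodd : ∀ x, f (-x) = - f x) (hper : ∀ x, f (x + q) = f x) (m B : ℤ)
    (hm : m = 1 + a * t) (hB : B = ((a : ℤ) ^ 2 + 1) * t + a) :
    ∑ i ∈ range a, Lam q f (Ai 1 B m i) (Ci 1 B m i) (Ai 1 B m (i + 1)) +
    ∑ i ∈ range ((a ^ 2 + 1) * t + a), Lam q f (Ai m B 1 i) (Ci m B 1 i) (Ai m B 1 (i + 1)) +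
    ∑ i ∈ range a, Lam q f (Ai m (2 * m * a - B) m i) (Ci m (2 * m * a - B) m i)
      (Ai m (2 * m * a - B) m (i + 1)) =
    4 * SS q f 1 B m + 2 * SS q f m (2 * m * a - B) m + B * MS q f 1 B m
      - 2 * a * MS q f (-m) B (-1) := by
  have : NeZero q := ⟨hq.ne'⟩
  have hF := Fq_neg hper hodd
  have hF0 : Fq q f 0 = 0 := by
    have := hF 0
    rw [neg_zero] at this
    linarith
  have hm0 : (m : ℝ) ≠ 0 := by
    have h : m ≠ 0 := by
      have : 0 ≤ (a : ℤ) * t := by positivity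
      intro h
      linarith
    exact_mod_cast h
  simp only [Lam_eq hper, SS_eq hper, MS_eq hper]
  rw [edge_sum _ hF0 _ _ _ _ (by rw [hm, hB]; exact A1_ne a t ha),
    edge_sum _ hF0 _ _ _ _ (by rw [hm, hB]; exact A2_ne a t ha),
    edge_sum _ hF0 _ _ _ _ (by rw [hm, hB]; exact A3_ne a t ha)]
  have cB : (((((a ^ 2 + 1) * t + a : ℕ)) : ℕ) : ZMod q) = ((B : ℤ) : ZMod q) := by
    rw [hB]; push_cast; ring
  have cB' : (((((a ^ 2 + 1) * t + a : ℕ)) : ℕ) : ℤ) = B := by
    rw [hB]; push_cast; ring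
  have cB'' : (((((a ^ 2 + 1) * t + a : ℕ)) : ℕ) : ℝ) = (B : ℝ) := by
    rw [← cB']; push_cast; ring
  have cm : ((m : ℤ) : ZMod q) = 1 + (a : ZMod q) * t := by rw [hm]; push_cast; ring
  have cBz : ((B : ℤ) : ZMod q) = ((a : ZMod q) ^ 2 + 1) * t + a := by rw [hB]; push_cast; ring
  have c3 : ((2 * m * a - B : ℤ) : ZMod q) =
      2 * (1 + (a : ZMod q) * t) * a - (((a : ZMod q) ^ 2 + 1) * t + a) := by
    push_cast; rw [cm, cBz]
  rw [cB, cB', cB'']
  have cn1 : ((-m : ℤ) : ZMod q) = - ((m : ℤ) : ZMod q) := by push_cast; ring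
  have cn2 : ((-1 : ℤ) : ZMod q) = - 1 := by push_cast; ring
  have c1 : ((1 : ℤ) : ZMod q) = 1 := by push_cast; ring
  rw [cn1, cn2, c1, MW_eq]
  have A1 : (Ai 1 B m a : ℝ) = m := by
    unfold Ai
    rw [hm, hB]
    push_cast
    ring
  have A2 : (Ai m B 1 B : ℝ) = m := by
    unfold Ai
    push_cast
    ring
  have A3 : (Ai m (2 * m * a - B) m a : ℝ) = 1 := by
    unfold Ai
    rw [hm, hB]
    push_cast
    ring
  rw [A1, A2, A3]
  have q1 := rel_MW2 hF (m : ZMod q) B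
  have q2 := rel_MM2 hF (m : ZMod q) B
  have q3 := rel_TT2 hF (m : ZMod q) B
  have q4 := rel_TT2' (F := Fq q f) (m : ZMod q) B
  have q5 := rel_MM2' (F := Fq q f) (m : ZMod q) B
  have q6 := rel_TT3 (F := Fq q f) (a : ZMod q) t
  have q7 := rel_TT1 (F := Fq q f) (a : ZMod q) t
  have q8 := rel_MW3 (F := Fq q f) (a : ZMod q) t
  have q9 := rel_MM3 (F := Fq q f) (a : ZMod q) t
  have q10 := rel_MM3' (F := Fq q f) (a : ZMod q) t
  have q11 := rel_MM12 (F := Fq q f) (a : ZMod q) t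
  rw [← c3, ← cm, ← cBz] at q6 q7 q8 q9 q10
  rw [← cm, ← cBz] at q11
  rw [q4, q5, q3, q2, q1, q6, q7, q8, q9, q10, q11, q2]
  push_cast
  field_simp
  ring

end Pool.Agent.LibH4
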