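import Pool.Agent.Lib_helper4.Cones

/-!
T7: in the period three family, unique factorisation forces every prime below `m` to be inert.
-/

namespace Pool.Agent.LibH4

open Cone

/-- a nonzero element with small norm has norm a perfect square up to sign -/
theorem norm_isSquare_or_ge (a t : ℤ) (ha : 1 ≤ a) (ht : 1 ≤ t) (β : RC a t) (hβ : β.norm ≠ 0) :
    IsSquare β.norm.natAbs ∨ 1 + a * t ≤ β.norm.natAbs := by
  obtain ⟨γ, hγ, hγβ⟩ := exists_assoc ha ht β hβ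
  have h2 : γ.norm.natAbs = β.norm.natAbs := by
    have := congrArg absN (Associates.mk_eq_mk_iff_associated.mpr hγβ)
    rwa [absN_mk, absN_mk] at this
  have h1 := FD_norm_pos ha ht γ hγ
  rw [← h2]
  have h3 : ((γ.norm.natAbs : ℕ) : ℤ) = γ.norm := by omega
  rw [h3]
  have hm : 0 < 1 + a * t := by positivity
  rw [FD_eq] at hγ
  rcases hγ with (hu | hu) | hu
  · obtain ⟨z, rfl⟩ := p1_surj a t γ
    rw [p1_mem] at hu
    obtain ⟨h0, h4⟩ := hu
    have hx := pos_of_cone ha h0 h4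
    rcases eq_or_lt_of_le h0 with h | h
    · left
      rw [norm_p1, ← h]
      refine ⟨z.1.natAbs, ?_⟩
      rw [← Int.natAbs_mul]
      congr 1
      ring
    · right
      rw [norm_p1]
      exact form_ge ha ht (x := z.1) (z := z.2) (by linarith) hx h4.le
  · right
    obtain ⟨z, rfl⟩ := p2_surj a t γ
    rw [p2_mem] at hu
    obtain ⟨h0, h4⟩ := hu
    have hx := pos_of_cone (B_pos ha ht) h0 h4
    rw [norm_p2]
    have h5 := form2_ge (x := z.1) h0 h4
    have h6 : 0 ≤ (1 + a * t) * (z.1 ^ 2 - 1) := mul_nonneg hm.le (by nlinarith)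
    nlinarith
  · right
    obtain ⟨z, rfl⟩ := p3_surj a t γ
    rw [p3_mem] at hu
    obtain ⟨h0, h4⟩ := hu
    have hx := pos_of_cone ha h0 h4
    rw [norm_p3]
    exact form3_ge ha ht (x := z.1) (y := z.2) hx h0 h4

section

variable {m B : ℤ}

/-- a root modulo `p` gives an element of norm `±p` -/
lemma exists_norm_of_root [IsDomain (QuadraticAlgebra ℤ m B)]
    [UniqueFactorizationMonoid (QuadraticAlgebra ℤ m B)] {p : ℕ} (hp : p.Prime) {x : ℤ}
    (hx : (p : ℤ) ∣ x ^ 2 + B * x - m) :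
    ∃ π : QuadraticAlgebra ℤ m B, π.norm.natAbs = p := by
  have hnp : ¬ Prime ((p : ℕ) : QuadraticAlgebra ℤ m B) := by
    intro hprime
    have h1 : ((p : ℕ) : QuadraticAlgebra ℤ m B) ∣ lin x * star (lin x) := by
      rw [← intCast_norm_eq, norm_lin]
      have := (Int.cast_dvd_cast (α := QuadraticAlgebra ℤ m B) _ _ hx)
      exact_mod_cast this
    rcases hprime.dvd_or_dvd h1 with h | h
    · exact not_dvd_lin hp x h
    · exact not_dvd_star_lin hp x h
  rw [← UniqueFactorizationMonoid.irreducible_iff_prime] at hnp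
  have hu := natCast_not_unit (m := m) (B := B) hp
  have : ∃ u v : QuadraticAlgebra ℤ m B, ((p : ℕ) : QuadraticAlgebra ℤ m B) = u * v ∧ ¬ IsUnit u ∧ ¬ IsUnit v := by
    by_contra hcon
    push Not at hcon
    apply hnp
    refine ⟨hu, ?_⟩
    intro a b hab
    by_contra hh
    push Not at hh
    exact hh.2 (hcon a b hab hh.1)
  obtain ⟨u, v, huv, hu', hv'⟩ := this
  have hN : u.norm.natAbs * v.norm.natAbs = p ^ 2 := by
    rw [← Int.natAbs_mul, ← map_mul, ← huv, natAbs_norm_natCast]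
  rw [QuadraticAlgebra.isUnit_iff_norm_isUnit, Int.isUnit_iff_natAbs_eq] at hu' hv'
  exact ⟨u, ((Nat.Prime.mul_eq_prime_sq_iff hp hu' hv').mp hN).1⟩

/-- a root modulo an odd prime, from quadratic residuosity -/
lemma exists_root_of_ne {d p : ℕ} (hd : (d : ℤ) = B ^ 2 + 4 * m) (hp : p.Prime) (hp2 : p ≠ 2)
    (hj : jacobiSym d p ≠ -1) : ∃ x : ℤ, (p : ℤ) ∣ x ^ 2 + B * x - m := by
  have : Fact p.Prime := ⟨hp⟩
  rw [← jacobiSym.legendreSym.to_jacobiSym, Ne, legendreSym.eq_neg_one_iff, not_not] at hj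
  obtain ⟨s, hs⟩ := hj
  have h2 : (2 : ZMod p) ≠ 0 := by
    intro h2
    have : ((2 : ℕ) : ZMod p) = 0 := by exact_mod_cast h2
    rw [ZMod.natCast_eq_zero_iff] at this
    exact hp2 ((Nat.prime_dvd_prime_iff_eq hp Nat.prime_two).mp this)
  obtain ⟨x, hx⟩ := ZMod.intCast_surjective ((s - B) / 2 : ZMod p)
  refine ⟨x, ?_⟩
  rw [← ZMod.intCast_zmod_eq_zero_iff_dvd]
  push_cast
  have h3 : (2 * (x : ZMod p) + B) ^ 2 = d := by
    rw [hx]
    have : 2 * ((s - B) / 2) + (B : ZMod p) = s := by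
      field_simp
      ring
    rw [this, sq, ← hs]
    push_cast
    rfl
  have h4 : ((d : ℕ) : ZMod p) = (B : ZMod p) ^ 2 + 4 * m := by
    have := congrArg (fun t : ℤ => (t : ZMod p)) hd
    push_cast at this
    exact this
  rw [h4] at h3
  have h5 : (4 : ZMod p) * ((x : ZMod p) ^ 2 + B * x - m) = 0 := by linear_combination h3
  have h6 : (4 : ZMod p) ≠ 0 := by
    have : (4 : ZMod p) = 2 * 2 := by norm_num
    rw [this]
    exact mul_ne_zero h2 h2
  exact (mul_eq_zero.mp h5).resolve_left h6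

end

/-- `B` is odd when `d` is squarefree -/
lemma B_odd {d B m : ℕ} (hd : d = B ^ 2 + 4 * m) (hsq : Squarefree d) : B % 2 = 1 := by
  by_contra h
  have h0 : B % 2 = 0 := by omega
  have h2 : 2 * 2 ∣ d := by
    obtain ⟨k, rfl⟩ := Nat.dvd_of_mod_eq_zero h0
    rw [hd]
    exact ⟨k ^ 2 + m, by ring⟩
  have := hsq 2 h2
  rw [Nat.isUnit_iff] at this
  omega

lemma d_mod_eight {d B m : ℕ} (hd : d = B ^ 2 + 4 * m) (hB : B % 2 = 1) :
    (m % 2 = 1 → d % 8 = 5) ∧ (m % 2 = 0 → d % 8 = 1) := by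
  have h1 : B ^ 2 % 8 = 1 := by
    have : B % 8 = 1 ∨ B % 8 = 3 ∨ B % 8 = 5 ∨ B % 8 = 7 := by omega
    rw [Nat.pow_mod]
    rcases this with h | h | h | h <;> rw [h]
  constructor <;> intro h <;> omega

/-- **T7** : small primes are inert -/
theorem small_primes_inert (a t d : ℕ) (ha : 1 ≤ a) (ht : 1 ≤ t)
    (hd : d = ((a ^ 2 + 1) * t + a) ^ 2 + 4 * (1 + a * t)) (hsq : Squarefree d)
    [IsDomain (QuadraticAlgebra ℤ ((1 + a * t : ℕ) : ℤ) (((a ^ 2 + 1) * t + a : ℕ) : ℤ))]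
    [UniqueFactorizationMonoid
      (QuadraticAlgebra ℤ ((1 + a * t : ℕ) : ℤ) (((a ^ 2 + 1) * t + a : ℕ) : ℤ))]
    (p : ℕ) (hp : p.Prime) (hpm : p < 1 + a * t) :
    (p ≠ 2 → jacobiSym d p = -1) ∧ (p = 2 → d % 8 = 5) := by
  have ha' : (1 : ℤ) ≤ a := by exact_mod_cast ha
  have ht' : (1 : ℤ) ≤ t := by exact_mod_cast ht
  have key : ∀ x : ℤ, ¬ (p : ℤ) ∣ x ^ 2 + (((a ^ 2 + 1) * t + a : ℕ) : ℤ) * x -
      ((1 + a * t : ℕ) : ℤ) := by
    intro x hx
    obtain ⟨π, hπ⟩ := exists_norm_of_root hp hx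
    have em : ((1 + a * t : ℕ) : ℤ) = 1 + (a : ℤ) * t := by push_cast; ring
    have eB : (((a ^ 2 + 1) * t + a : ℕ) : ℤ) = ((a : ℤ) ^ 2 + 1) * t + a := by push_cast; ring
    have : ∃ π : RC a t, π.norm.natAbs = p := by
      have h : ∃ π : QuadraticAlgebra ℤ ((1 + a * t : ℕ) : ℤ) (((a ^ 2 + 1) * t + a : ℕ) : ℤ),
        π.norm.natAbs = p := ⟨π, hπ⟩
      rw [em, eB] at h
      exact h
    obtain ⟨ρ, hρ⟩ := this
    have hne : ρ.norm ≠ 0 := by
      intro h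
      rw [h] at hρ
      exact hp.ne_zero (by simpa using hρ.symm)
    rcases norm_isSquare_or_ge a t ha' ht' ρ hne with h | h
    · rw [hρ] at h
      obtain ⟨r, hr⟩ := h
      exact hp.prime.irreducible.not_isSquare ⟨r, hr⟩
    · rw [hρ] at h
      have : 1 + a * t ≤ p := by exact_mod_cast h
      omega
  constructor
  · intro hp2
    by_contra hj
    have hd' : (d : ℤ) = (((a ^ 2 + 1) * t + a : ℕ) : ℤ) ^ 2 + 4 * ((1 + a * t : ℕ) : ℤ) := by
      rw [hd]; push_cast; ring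
    obtain ⟨x, hx⟩ := exists_root_of_ne hd' hp hp2 hj
    exact key x hx
  · rintro rfl
    have hB := B_odd hd hsq
    have h8 := d_mod_eight hd hB
    by_contra hd5
    have hm : (1 + a * t) % 2 = 0 := by
      by_contra h
      exact hd5 (h8.1 (by omega))
    apply key 0
    have h2 : (2 : ℤ) ∣ ((1 + a * t : ℕ) : ℤ) := by
      have : 2 ∣ (1 + a * t) := Nat.dvd_of_mod_eq_zero hm
      exact_mod_cast this
    have e : (0 : ℤ) ^ 2 + (((a ^ 2 + 1) * t + a : ℕ) : ℤ) * 0 - ((1 + a * t : ℕ) : ℤ) =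
        - ((1 + a * t : ℕ) : ℤ) := by ring
    rw [e]
    exact (dvd_neg).mpr (by exact_mod_cast h2)

/-- consequence : `d ≡ 5 mod 8` as soon as `m > 2` -/
theorem d_mod_eight_of_ufd (a t d : ℕ) (ha : 1 ≤ a) (ht : 1 ≤ t)
    (hd : d = ((a ^ 2 + 1) * t + a) ^ 2 + 4 * (1 + a * t)) (hsq : Squarefree d)
    [IsDomain (QuadraticAlgebra ℤ ((1 + a * t : ℕ) : ℤ) (((a ^ 2 + 1) * t + a : ℕ) : ℤ))]
    [UniqueFactorizationMonoid
      (QuadraticAlgebra ℤ ((1 + a * t : ℕ) : ℤ) (((a ^ 2 + 1) * t + a : ℕ) : ℤ))]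
    (hm : 2 < 1 + a * t) :
    d % 8 = 5 ∧ (1 + a * t) % 2 = 1 ∧ ((a ^ 2 + 1) * t + a) % 2 = 1 := by
  have h5 := (small_primes_inert a t d ha ht hd hsq 2 Nat.prime_two hm).2 rfl
  have hB := B_odd hd hsq
  have h8 := d_mod_eight hd hB
  refine ⟨h5, ?_, hB⟩
  by_contra h
  have := h8.2 (by omega)
  omega

end Pool.Agent.LibH4
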