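import Pool.Agent.Lib_helper4.KE1

/-!
The family `d = (an)² + 4a`: relations and final checks.
-/

namespace Pool.Agent.LibH4.KF

open Finset Ker T6 Pool.Agent.Lib_helper5

/-- `an` modulo `N` -/
def bR (N a n : ℕ) : ℕ := Nat.mod (Nat.mul a n) N

/-- the form -/
def cfB : CF (ℕ × ℕ) := fun N c k => strict (bR N c.1 c.2) fun R => k c.1 R (Nat.sub N (nat_lit 1))

/-- the form with its weights -/
def formsB : List (WF (ℕ × ℕ)) := [(cfB, nat_lit 6, nat_lit 281474976710656, nat_lit 16777216)]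

lemma repB {N : ℕ} [NeZero N] (a n : ℕ) : Rep cfB N (a % N, n % N) (a : ℤ) ((a : ℤ) * n) (-1) := by
  refine ⟨a % N, bR N (a % N) (n % N), N - 1, ?_, ?_, ?_, ?_⟩
  · intro k
    unfold cfB
    rw [strict_eq]
    rfl
  · rw [ZMod.natCast_mod]; push_cast; rfl
  · have : bR N (a % N) (n % N) = (a % N * (n % N)) % N := rfl
    rw [this, ZMod.natCast_mod]
    push_cast
    rw [ZMod.natCast_mod, ZMod.natCast_mod]
  · rw [cast_pred]; push_cast; ring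

/-- final check -/
def chkB (l e a n : ℕ) : Bool := strict e fun e => strict (Nat.mod (Nat.mul a n) l) fun an =>
  Nat.beq (Nat.mod (Nat.add (dg (nat_lit 4) e (nat_lit 0)) (Nat.add (Nat.mul (Nat.sub l (nat_lit 1))
    (Nat.mul an (dg (nat_lit 4) e (nat_lit 1))))
      (Nat.mul n (dg (nat_lit 4) e (nat_lit 2))))) l) (nat_lit 0)

/-- the relation of the family -/
def RelB (a n q l : ℕ) [NeZero q] (chi : ZMod q → ZMod l) : Prop :=
  6 * XX chi (a : ℤ) ((a : ℤ) * n) (-1) - a * n * YX chi (a : ℤ) ((a : ℤ) * n) (-1) +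
    n * YY chi (a : ℤ) ((a : ℤ) * n) (-1) = 0

/-- all relations -/
def AllB (a n d : ℕ) : Prop := ∀ (q l : ℕ) [NeZero q], l.Prime → Nat.Coprime q d →
  ¬ l ∣ 6 → ¬ l ∣ d → ∀ chi : ZMod q → ZMod l, (∀ x, chi (-x) = - chi x) →
  (∀ x y, chi (x * y) = chi x * chi y) →
  (∑ u ∈ range q, (u : ZMod l) * chi (u : ZMod q) = 0) → RelB a n q l chi

theorem allB (a n : ℕ) (ha : 2 ≤ a) (ha2 : a % 2 = 1) (hn2 : n % 2 = 1)
    [IsDomain (QuadraticAlgebra ℤ (a : ℤ) (a * n))]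
    [UniqueFactorizationMonoid (QuadraticAlgebra ℤ (a : ℤ) (a * n))]
    {d : ℕ} (hd : (d : ℤ) = ((a : ℤ) * n) ^ 2 + 4 * a) : AllB a n d := by
  intro q l _ hl hco hl6 hld chi hodd hmul hsum
  have : Fact l.Prime := ⟨hl⟩
  have h := BL.T5 a n ha ha2 hn2 hd q l (Nat.pos_of_ne_zero (NeZero.ne q)) hco hl6 hld chi
    hodd hmul hsum
  rw [range_term, range_term] at h
  have s1 := XX_swap chi hodd (a : ℤ) ((a : ℤ) * n) (-1)
  have s2 := YX_swap chi hodd (a : ℤ) ((a : ℤ) * n) (-1)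
  rw [neg_neg] at s1 s2
  rw [s1, s2] at h
  unfold RelB
  linear_combination h

section EntryB

variable {n1 n2 l e1 e2 T1 T2 : ℕ} {L1 L2 : List (ℕ × ℕ)} [NeZero n1] [NeZero n2]
    [NeZero (n1 * n2)]

lemma entB_digits (H : Hyp n1 n2 l e1 e2 T1 T2 L1 L2) (c c2 : ℕ × ℕ) (h1 : CFok cfB n2 c2) :
    entA n1 n2 l e1 e2 T1 T2 L1 L2 formsB c c2 =
      6 * zW n1 n2 l T1 T2 L1 L2 (wD n1 n2 l e1 e2 T1 T2) cfB c c2 +
      2 ^ 24 * zW n1 n2 l T1 T2 L1 L2 (wE2 n1 n2 l e1 e2 T1 T2) cfB c c2 +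
      2 ^ 48 * zW n1 n2 l T1 T2 L1 L2 (wE1 n1 n2 l e1 e2 T1 T2) cfB c c2 ∧
    6 * zW n1 n2 l T1 T2 L1 L2 (wD n1 n2 l e1 e2 T1 T2) cfB c c2 < 2 ^ 24 ∧
    zW n1 n2 l T1 T2 L1 L2 (wE2 n1 n2 l e1 e2 T1 T2) cfB c c2 < 2 ^ 24 ∧
    zW n1 n2 l T1 T2 L1 L2 (wE1 n1 n2 l e1 e2 T1 T2) cfB c c2 < 2 ^ 24 := by
  have b1 := zW_lt (n1 := n1) (T1 := T1) (T2 := T2) (L1 := L1) (c := c) H.l3 H.l16 H.len2
    (wD n1 n2 l e1 e2 T1 T2) h1
  have b2 := zW_lt (n1 := n1) (T1 := T1) (T2 := T2) (L1 := L1) (c := c) H.l3 H.l16 H.len2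
    (wE1 n1 n2 l e1 e2 T1 T2) h1
  have b3 := zW_lt (n1 := n1) (T1 := T1) (T2 := T2) (L1 := L1) (c := c) H.l3 H.l16 H.len2
    (wE2 n1 n2 l e1 e2 T1 T2) h1
  refine ⟨?_, by norm_num; omega, by norm_num; omega, by norm_num; omega⟩
  unfold entA formsB
  simp only [List.map_cons, List.map_nil, List.sum_cons, List.sum_nil]
  unfold entF
  simp only
  ring

/-- **soundness** for the family `(an)² + 4a` -/
theorem soundB (H : Hyp n1 n2 l e1 e2 T1 T2 L1 L2) {W : ℕ} {D1 D2 : List (ℕ × ℕ)} {TB : ℕ}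
    {DRs : List ((ℕ × ℕ) × ℕ)} (hDR : DRs = DRstd n1 n2 l e1 e2 T1 T2 L1 L2)
    (hc : checkR W n1 n2 l T1 T2 DRs formsB L2 D1 D2 TB = true) {a n : ℕ}
    (hrel : RelB a n (n1 * n2) l (chiF n1 n2 l T1 T2)) {i j : ℕ} (hi : i < D1.length)
    (hj : j < D2.length) (h1 : D1[i] = (a % n1, n % n1)) (h2 : D2[j] = (a % n2, n % n2)) :
    chkB l (dg 12 (dg W TB i) j) (a % l) (n % l) = true := by
  have hok : ∀ (N : ℕ) (c : ℕ × ℕ), CFok cfB N c := by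
    intro N c
    refine ⟨c.1, bR N c.1 c.2, N - 1, ?_⟩
    intro k
    unfold cfB
    rw [strict_eq]
    rfl
  rw [checkR_spec H.l3 H.l16 H.qle H.len1 hDR ?_ ?_ hc i j hi hj, h1, h2]
  · obtain ⟨e, l0, l1, l2⟩ := entB_digits H (a % n1, n % n1) (a % n2, n % n2) (hok _ _)
    have hlpos : 1 ≤ l := by have := H.l3; omega
    obtain ⟨g0, g1, g2⟩ := red_digits hlpos H.l16 l0 l1 l2
    unfold chkB
    rw [strict_eq, strict_eq, e]
    change Nat.beq ((dg 4 _ 0 + ((l - 1) * ((a % l * (n % l)) % l * dg 4 _ 1) +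
      n % l * dg 4 _ 2)) % l) 0 = true
    rw [g0, g1, g2, Nat.beq_eq, ← Nat.dvd_iff_mod_eq_zero, ← ZMod.natCast_eq_zero_iff]
    have r1 := repB (N := n1) a n
    have r2 := repB (N := n2) a n
    push_cast [Nat.cast_sub hlpos]
    simp only [ZMod.natCast_mod]
    push_cast
    rw [z0_cast H r1 r2, z1_cast H r1 r2, z2_cast H r1 r2]
    rw [ZMod.natCast_self]
    simp only [ZMod.natCast_mod]
    unfold RelB at hrel
    linear_combination hrel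
  · intro c _ f hf
    unfold formsB at hf
    simp only [List.mem_cons, List.not_mem_nil, or_false] at hf
    rw [hf]
    exact hok _ _
  · intro c _ c2 _
    obtain ⟨e, l0, l1, l2⟩ := entB_digits H c c2 (hok _ _)
    rw [e]
    norm_num at l0 l1 l2 ⊢
    omega

end EntryB

end Pool.Agent.LibH4.KF
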