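import Pool.Agent.Lib_helper4.KBL

/-!
Classes of parameters for the families `(an)² ∓ 4a`.
-/

namespace Pool.Agent.LibH4.KF

open Finset Ker T6 Pool.Agent.Lib_helper5

/-- discriminant of the first family modulo `p` -/
def dE (p u v : ℕ) : ℕ := Nat.mod (Nat.add (Nat.mul (Nat.mul u v) (Nat.mul u v))
  (Nat.mul (Nat.sub p (nat_lit 1)) (Nat.mul (nat_lit 4) u))) p
/-- discriminant of the second family modulo `p` -/
def dB (p u v : ℕ) : ℕ := Nat.mod (Nat.add (Nat.mul (Nat.mul u v) (Nat.mul u v))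
  (Nat.mul (nat_lit 4) u)) p
/-- not a square modulo `p` -/
def nsq (p d : ℕ) : Bool :=
  allR (fun x => @Bool.rec (fun _ => Bool) true false (Nat.beq (Nat.mod (Nat.mul x x) p) d)) p
/-- inert classes -/
def clE (p u v : ℕ) : Bool := strict (dE p u v) fun d => nsq p d
/-- inert classes -/
def clB (p u v : ℕ) : Bool := strict (dB p u v) fun d => nsq p d
/-- odd classes -/
def cl2 (u v : ℕ) : Bool := Nat.beq (Nat.mod (Nat.mul u v) (nat_lit 2)) (nat_lit 1)
/-- classes with prescribed first entry -/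
def spc (u0 : ℕ) (f : ℕ → ℕ → Bool) (u v : ℕ) : Bool :=
  @Bool.rec (fun _ => Bool) false (f u v) (Nat.beq u u0)

lemma nsq_of {p d e : ℕ} (hp : p.Prime) (he : (e : ZMod p) = d)
    (hj : jacobiSym d p = -1) : nsq p e = true := by
  apply allR_of
  intro x hx
  have : Fact p.Prime := ⟨hp⟩
  have hne : ¬ (x * x % p = e) := by
    intro h
    rw [← jacobiSym.legendreSym.to_jacobiSym, legendreSym.eq_neg_one_iff] at hj
    apply hj
    refine ⟨(x : ZMod p), ?_⟩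
    have h1 := congrArg (fun y : ℕ => (y : ZMod p)) h
    simp only [ZMod.natCast_mod] at h1
    push_cast at h1 ⊢
    rw [h1, he]
  cases hb : Nat.beq (Nat.mod (Nat.mul x x) p) e with
  | false => rfl
  | true => exact absurd (Nat.eq_of_beq_eq_true hb) hne

lemma cast_mod {p n : ℕ} (hpn : p ∣ n) (a : ℕ) : ((a % n : ℕ) : ZMod p) = (a : ZMod p) := by
  rw [ZMod.natCast_eq_natCast_iff]
  exact (Nat.mod_modEq a n).of_dvd hpn

lemma clE_of {p n a t d : ℕ} (hp : p.Prime) (hpn : p ∣ n)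
    (hd : (d : ℤ) = ((a : ℤ) * t) ^ 2 - 4 * a) (hj : jacobiSym d p = -1) :
    clE p (a % n) (t % n) = true := by
  unfold clE
  rw [strict_eq]
  have : NeZero p := ⟨hp.ne_zero⟩
  have e : dE p (a % n) (t % n) = (a % n * (t % n) * (a % n * (t % n)) +
    (p - 1) * (4 * (a % n))) % p := rfl
  apply nsq_of hp _ hj
  rw [e, ZMod.natCast_mod]
  push_cast
  rw [cast_pred, cast_mod hpn, cast_mod hpn]
  have h2 := congrArg (fun x : ℤ => (x : ZMod p)) hd
  push_cast at h2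
  rw [h2]
  ring

lemma clB_of {p n a t d : ℕ} (hp : p.Prime) (hpn : p ∣ n)
    (hd : (d : ℤ) = ((a : ℤ) * t) ^ 2 + 4 * a) (hj : jacobiSym d p = -1) :
    clB p (a % n) (t % n) = true := by
  unfold clB
  rw [strict_eq]
  have e : dB p (a % n) (t % n) = (a % n * (t % n) * (a % n * (t % n)) + 4 * (a % n)) % p := rfl
  apply nsq_of hp _ hj
  rw [e, ZMod.natCast_mod]
  push_cast
  rw [cast_mod hpn, cast_mod hpn]
  have h2 := congrArg (fun x : ℤ => (x : ZMod p)) hd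
  push_cast at h2
  rw [h2]
  ring

lemma cl2_of {n a t : ℕ} (h2n : 2 ∣ n) (ha : a % 2 = 1) (ht : t % 2 = 1) :
    cl2 (a % n) (t % n) = true := by
  unfold cl2
  rw [Nat.beq_eq]
  change a % n * (t % n) % 2 = 1
  rw [Nat.mul_mod, Nat.mod_mod_of_dvd _ h2n, Nat.mod_mod_of_dvd _ h2n, ha, ht]

lemma spc_of {u0 u v : ℕ} {f : ℕ → ℕ → Bool} (h : f u v = true) (hu : u = u0) :
    spc u0 f u v = true := by
  unfold spc
  rw [hu, Nat.beq_refl, ← hu]
  exact h

lemma nd_of {p d : ℕ} (hp : p.Prime) (hj : jacobiSym d p = -1) : ¬ p ∣ d := by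
  intro hdvd
  have : jacobiSym d p = 0 := by
    rw [jacobiSym.eq_zero_iff]
    refine ⟨hp.ne_zero, ?_⟩
    rw [Int.gcd_natCast_natCast, Nat.gcd_eq_right hdvd]
    exact hp.one_lt.ne'
  rw [this] at hj
  norm_num at hj

lemma cop_of {p k d : ℕ} (hp : p.Prime) (h : ¬ p ∣ d) : Nat.Coprime (p ^ k) d :=
  ((Nat.Prime.coprime_iff_not_dvd hp).mpr h).pow_left k

lemma d2_E {a t d : ℕ} (hd : (d : ℤ) = ((a : ℤ) * t) ^ 2 - 4 * a) (ha : a % 2 = 1)
    (ht : t % 2 = 1) : ¬ 2 ∣ d := by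
  intro h
  have h1 : (((a : ℤ) * t) ^ 2) % 2 = 1 := by
    have e1 : (a : ℤ) % 2 = 1 := by omega
    have e2 : (t : ℤ) % 2 = 1 := by omega
    rw [sq, Int.mul_emod, Int.mul_emod (a : ℤ) t 2, e1, e2]
    norm_num
  omega

lemma d2_B {a t d : ℕ} (hd : (d : ℤ) = ((a : ℤ) * t) ^ 2 + 4 * a) (ha : a % 2 = 1)
    (ht : t % 2 = 1) : ¬ 2 ∣ d := by
  intro h
  have h1 : (((a : ℤ) * t) ^ 2) % 2 = 1 := by
    have e1 : (a : ℤ) % 2 = 1 := by omega
    have e2 : (t : ℤ) % 2 = 1 := by omega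
    rw [sq, Int.mul_emod, Int.mul_emod (a : ℤ) t 2, e1, e2]
    norm_num
  omega

section Rel

variable {n1 n2 l e1 e2 T1 T2 : ℕ} {L1 L2 : List (ℕ × ℕ)} [NeZero n1] [NeZero n2]
    [NeZero (n1 * n2)]

lemma chkE_of (H : Hyp n1 n2 l e1 e2 T1 T2 L1 L2) {W : ℕ} {D1 D2 : List (ℕ × ℕ)} {TB : ℕ}
    {DRs : List ((ℕ × ℕ) × ℕ)} (hDR : DRs = DRstd n1 n2 l e1 e2 T1 T2 L1 L2)
    (hc : checkR W n1 n2 l T1 T2 DRs formsE L2 D1 D2 TB = true) {a n d : ℕ}
    (hT : AllE a n d) (hl : l.Prime) (hl6 : ¬ l ∣ 6) (hco : Nat.Coprime (n1 * n2) d)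
    (hld : ¬ l ∣ d) {i j : ℕ} (hi : i < D1.length)
    (hj : j < D2.length) (h1 : D1[i] = (a % n1, n % n1)) (h2 : D2[j] = (a % n2, n % n2)) :
    chkE l (dg 12 (dg W TB i) j) (a % l) (n % l) = true :=
  soundE H hDR hc (hT (n1 * n2) l hl hco hl6 hld _ (chiF_neg H) (chiF_mul H) (chiF_bern H))
    hi hj h1 h2

lemma chkB_of (H : Hyp n1 n2 l e1 e2 T1 T2 L1 L2) {W : ℕ} {D1 D2 : List (ℕ × ℕ)} {TB : ℕ}
    {DRs : List ((ℕ × ℕ) × ℕ)} (hDR : DRs = DRstd n1 n2 l e1 e2 T1 T2 L1 L2)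
    (hc : checkR W n1 n2 l T1 T2 DRs formsB L2 D1 D2 TB = true) {a n d : ℕ}
    (hT : AllB a n d) (hl : l.Prime) (hl6 : ¬ l ∣ 6) (hco : Nat.Coprime (n1 * n2) d)
    (hld : ¬ l ∣ d) {i j : ℕ} (hi : i < D1.length)
    (hj : j < D2.length) (h1 : D1[i] = (a % n1, n % n1)) (h2 : D2[j] = (a % n2, n % n2)) :
    chkB l (dg 12 (dg W TB i) j) (a % l) (n % l) = true :=
  soundB H hDR hc (hT (n1 * n2) l hl hco hl6 hld _ (chiF_neg H) (chiF_mul H) (chiF_bern H))
    hi hj h1 h2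

end Rel

lemma allI_get {α : Type} {p : ℕ → α → Bool} {L : List α} (h : allI p L 0 = true)
    {j : ℕ} (hj : j < L.length) : p j L[j] = true := by
  have := allI_spec h j hj
  rw [zero_add] at this
  exact this

lemma allI_take {α : Type} {p : ℕ → α → Bool} {L : List α} {k s : ℕ}
    (h : allI p ((L.drop k).take s) k = true) {i : ℕ} (hi : i < L.length) (h1 : k ≤ i)
    (h2 : i < k + s) : p i L[i] = true := by
  have hlen : i - k < ((L.drop k).take s).length := by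
    rw [List.length_take, List.length_drop]
    omega
  have h3 := allI_spec h (i - k) hlen
  have e : ((L.drop k).take s)[i - k] = L[i] := by
    rw [List.getElem_take, List.getElem_drop]
    congr 1
    omega
  rw [e] at h3
  have e2 : k + (i - k) = i := by omega
  rw [e2] at h3
  exact h3

end Pool.Agent.LibH4.KF
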