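import Pool.Agent.Lib_helper4.KData

/-! generated data -/

namespace Pool.Agent.LibH4.KF

open Ker T6

/-- classes -/
def CB_16 : List (ℕ × ℕ) := [((nat_lit 1), (nat_lit 1)),((nat_lit 1), (nat_lit 3)),((nat_lit 1), (nat_lit 5)),((nat_lit 1), (nat_lit 7)),((nat_lit 1), (nat_lit 9)),((nat_lit 1), (nat_lit 11)),((nat_lit 1), (nat_lit 13)),((nat_lit 1), (nat_lit 15)),((nat_lit 3), (nat_lit 1)),((nat_lit 3), (nat_lit 3)),((nat_lit 3), (nat_lit 5)),((nat_lit 3), (nat_lit 7)),((nat_lit 3), (nat_lit 9)),((nat_lit 3), (nat_lit 11)),((nat_lit 3), (nat_lit 13)),((nat_lit 3), (nat_lit 15)),((nat_lit 5), (nat_lit 1)),((nat_lit 5), (nat_lit 3)),((nat_lit 5), (nat_lit 5)),((nat_lit 5), (nat_lit 7)),((nat_lit 5), (nat_lit 9)),((nat_lit 5), (nat_lit 11)),((nat_lit 5), (nat_lit 13)),((nat_lit 5), (nat_lit 15)),((nat_lit 7), (nat_lit 1)),((nat_lit 7), (nat_lit 3)),((nat_lit 7), (nat_lit 5)),((nat_lit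 7), (nat_lit 7)),((nat_lit 7), (nat_lit 9)),((nat_lit 7), (nat_lit 11)),((nat_lit 7), (nat_lit 13)),((nat_lit 7), (nat_lit 15)),((nat_lit 9), (nat_lit 1)),((nat_lit 9), (nat_lit 3)),((nat_lit 9), (nat_lit 5)),((nat_lit 9), (nat_lit 7)),((nat_lit 9), (nat_lit 9)),((nat_lit 9), (nat_lit 11)),((nat_lit 9), (nat_lit 13)),((nat_lit 9), (nat_lit 15)),((nat_lit 11), (nat_lit 1)),((nat_lit 11), (nat_lit 3)),((nat_lit 11), (nat_lit 5)),((nat_lit 11), (nat_lit 7)),((nat_lit 11), (nat_lit 9)),((nat_lit 11), (nat_lit 11)),((nat_lit 11), (nat_lit 13)),((nat_lit 11), (nat_lit 15)),((nat_lit 13), (nat_lit 1)),((nat_lit 13), (nat_lit 3)),((nat_lit 13), (nat_lit 5)),((nat_lit 13), (nat_lit 7)),((nat_lit 13), (nat_lit 9)),((nat_lit 13), (nat_lit 11)),((nat_lit 13), (nat_lit 13)),((nat_lit 13), (nat_lit 15)),((nat_lit 15), (nat_lit 1)),((nat_lit 15), (nat_lit 3)),((nat_lit 15), (nat_lit 5)),((nat_lit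 15), (nat_lit 7)),((nat_lit 15), (nat_lit 9)),((nat_lit 15), (nat_lit 11)),((nat_lit 15), (nat_lit 13)),((nat_lit 15), (nat_lit 15))]

lemma memB_16 : memCheck (nat_lit 16) cl2 CB_16 = true := by decide +kernel

/-- classes -/
def CB_13 : List (ℕ × ℕ) := [((nat_lit 1), (nat_lit 1)),((nat_lit 1), (nat_lit 2)),((nat_lit 1), (nat_lit 4)),((nat_lit 1), (nat_lit 9)),((nat_lit 1), (nat_lit 11)),((nat_lit 1), (nat_lit 12)),((nat_lit 2), (nat_lit 0)),((nat_lit 2), (nat_lit 2)),((nat_lit 2), (nat_lit 3)),((nat_lit 2), (nat_lit 4)),((nat_lit 2), (nat_lit 9)),((nat_lit 2), (nat_lit 10)),((nat_lit 2), (nat_lit 11)),((nat_lit 3), (nat_lit 1)),((nat_lit 3), (nat_lit 3)),((nat_lit 3), (nat_lit 6)),((nat_lit 3), (nat_lit 7)),((nat_lit 3), (nat_lit 10)),((nat_lit 3), (nat_lit 12)),((nat_lit 4), (nat_lit 1)),((nat_lit 4), (nat_lit 2)),((nat_lit 4), (nat_lit 6)),((nat_lit 4), (nat_lit 7)),((nat_lit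 4), (nat_lit 11)),((nat_lit 4), (nat_lit 12)),((nat_lit 5), (nat_lit 0)),((nat_lit 5), (nat_lit 1)),((nat_lit 5), (nat_lit 3)),((nat_lit 5), (nat_lit 5)),((nat_lit 5), (nat_lit 8)),((nat_lit 5), (nat_lit 10)),((nat_lit 5), (nat_lit 12)),((nat_lit 6), (nat_lit 0)),((nat_lit 6), (nat_lit 1)),((nat_lit 6), (nat_lit 4)),((nat_lit 6), (nat_lit 6)),((nat_lit 6), (nat_lit 7)),((nat_lit 6), (nat_lit 9)),((nat_lit 6), (nat_lit 12)),((nat_lit 7), (nat_lit 0)),((nat_lit 7), (nat_lit 4)),((nat_lit 7), (nat_lit 5)),((nat_lit 7), (nat_lit 6)),((nat_lit 7), (nat_lit 7)),((nat_lit 7), (nat_lit 8)),((nat_lit 7), (nat_lit 9)),((nat_lit 8), (nat_lit 0)),((nat_lit 8), (nat_lit 1)),((nat_lit 8), (nat_lit 2)),((nat_lit 8), (nat_lit 5)),((nat_lit 8), (nat_lit 8)),((nat_lit 8), (nat_lit 11)),((nat_lit 8), (nat_lit 12)),((nat_lit 9), (nat_lit 3)),((nat_lit 9), (nat_lit 4)),((nat_lit 9), (nat_lit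 5)),((nat_lit 9), (nat_lit 8)),((nat_lit 9), (nat_lit 9)),((nat_lit 9), (nat_lit 10)),((nat_lit 10), (nat_lit 2)),((nat_lit 10), (nat_lit 4)),((nat_lit 10), (nat_lit 5)),((nat_lit 10), (nat_lit 8)),((nat_lit 10), (nat_lit 9)),((nat_lit 10), (nat_lit 11)),((nat_lit 11), (nat_lit 0)),((nat_lit 11), (nat_lit 2)),((nat_lit 11), (nat_lit 3)),((nat_lit 11), (nat_lit 6)),((nat_lit 11), (nat_lit 7)),((nat_lit 11), (nat_lit 10)),((nat_lit 11), (nat_lit 11)),((nat_lit 12), (nat_lit 3)),((nat_lit 12), (nat_lit 5)),((nat_lit 12), (nat_lit 6)),((nat_lit 12), (nat_lit 7)),((nat_lit 12), (nat_lit 8)),((nat_lit 12), (nat_lit 10))]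

lemma memB_13 : memCheck (nat_lit 13) (clB (nat_lit 13)) CB_13 = true := by decide +kernel

/-- classes -/
def CB_5 : List (ℕ × ℕ) := [((nat_lit 1), (nat_lit 2)),((nat_lit 1), (nat_lit 3)),((nat_lit 2), (nat_lit 0)),((nat_lit 2), (nat_lit 1)),((nat_lit 2), (nat_lit 4)),((nat_lit 3), (nat_lit 0)),((nat_lit 3), (nat_lit 2)),((nat_lit 3), (nat_lit 3)),((nat_lit 4), (nat_lit 1)),((nat_lit 4), (nat_lit 4))]

lemma memB_5 : memCheck (nat_lit 5) (clB (nat_lit 5)) CB_5 = true := by decide +kernel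

/-- classes -/
def CB_7 : List (ℕ × ℕ) := [((nat_lit 1), (nat_lit 1)),((nat_lit 1), (nat_lit 3)),((nat_lit 1), (nat_lit 4)),((nat_lit 1), (nat_lit 6)),((nat_lit 2), (nat_lit 1)),((nat_lit 2), (nat_lit 2)),((nat_lit 2), (nat_lit 5)),((nat_lit 2), (nat_lit 6)),((nat_lit 3), (nat_lit 0)),((nat_lit 3), (nat_lit 2)),((nat_lit 3), (nat_lit 5)),((nat_lit 4), (nat_lit 2)),((nat_lit 4), (nat_lit 3)),((nat_lit 4), (nat_lit 4)),((nat_lit 4), (nat_lit 5)),((nat_lit 5), (nat_lit 0)),((nat_lit 5), (nat_lit 1)),((nat_lit 5), (nat_lit 6)),((nat_lit 6), (nat_lit 0)),((nat_lit 6), (nat_lit 3)),((nat_lit 6), (nat_lit 4))]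

lemma memB_7 : memCheck (nat_lit 7) (clB (nat_lit 7)) CB_7 = true := by decide +kernel

/-- classes -/
def CB_9 : List (ℕ × ℕ) := [((nat_lit 1), (nat_lit 1)),((nat_lit 1), (nat_lit 2)),((nat_lit 1), (nat_lit 4)),((nat_lit 1), (nat_lit 5)),((nat_lit 1), (nat_lit 7)),((nat_lit 1), (nat_lit 8)),((nat_lit 2), (nat_lit 0)),((nat_lit 2), (nat_lit 3)),((nat_lit 2), (nat_lit 6)),((nat_lit 4), (nat_lit 1)),((nat_lit 4), (nat_lit 2)),((nat_lit 4), (nat_lit 4)),((nat_lit 4), (nat_lit 5)),((nat_lit 4), (nat_lit 7)),((nat_lit 4), (nat_lit 8)),((nat_lit 5), (nat_lit 0)),((nat_lit 5), (nat_lit 3)),((nat_lit 5), (nat_lit 6)),((nat_lit 7), (nat_lit 1)),((nat_lit 7), (nat_lit 2)),((nat_lit 7), (nat_lit 4)),((nat_lit 7), (nat_lit 5)),((nat_lit 7), (nat_lit 7)),((nat_lit 7), (nat_lit 8)),((nat_lit 8), (nat_lit 0)),((nat_lit 8), (nat_lit 3)),((nat_lit 8), (nat_lit 6))]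

lemma memB_9 : memCheck (nat_lit 9) (clB (nat_lit 3)) CB_9 = true := by decide +kernel

/-- classes -/
def CB_11 : List (ℕ × ℕ) := [((nat_lit 1), (nat_lit 2)),((nat_lit 1), (nat_lit 3)),((nat_lit 1), (nat_lit 5)),((nat_lit 1), (nat_lit 6)),((nat_lit 1), (nat_lit 8)),((nat_lit 1), (nat_lit 9)),((nat_lit 2), (nat_lit 0)),((nat_lit 2), (nat_lit 2)),((nat_lit 2), (nat_lit 4)),((nat_lit 2), (nat_lit 7)),((nat_lit 2), (nat_lit 9)),((nat_lit 3), (nat_lit 1)),((nat_lit 3), (nat_lit 4)),((nat_lit 3), (nat_lit 5)),((nat_lit 3), (nat_lit 6)),((nat_lit 3), (nat_lit 7)),((nat_lit 3), (nat_lit 10)),((nat_lit 4), (nat_lit 1)),((nat_lit 4), (nat_lit 3)),((nat_lit 4), (nat_lit 4)),((nat_lit 4), (nat_lit 7)),((nat_lit 4), (nat_lit 8)),((nat_lit 4), (nat_lit 10)),((nat_lit 5), (nat_lit 2)),((nat_lit 5), (nat_lit 4)),((nat_lit 5), (nat_lit 5)),((nat_lit 5), (nat_lit 6)),((nat_lit 5), (nat_lit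 7)),((nat_lit 5), (nat_lit 9)),((nat_lit 6), (nat_lit 0)),((nat_lit 6), (nat_lit 3)),((nat_lit 6), (nat_lit 4)),((nat_lit 6), (nat_lit 7)),((nat_lit 6), (nat_lit 8)),((nat_lit 7), (nat_lit 0)),((nat_lit 7), (nat_lit 3)),((nat_lit 7), (nat_lit 5)),((nat_lit 7), (nat_lit 6)),((nat_lit 7), (nat_lit 8)),((nat_lit 8), (nat_lit 0)),((nat_lit 8), (nat_lit 1)),((nat_lit 8), (nat_lit 2)),((nat_lit 8), (nat_lit 9)),((nat_lit 8), (nat_lit 10)),((nat_lit 9), (nat_lit 1)),((nat_lit 9), (nat_lit 2)),((nat_lit 9), (nat_lit 3)),((nat_lit 9), (nat_lit 8)),((nat_lit 9), (nat_lit 9)),((nat_lit 9), (nat_lit 10)),((nat_lit 10), (nat_lit 0)),((nat_lit 10), (nat_lit 1)),((nat_lit 10), (nat_lit 5)),((nat_lit 10), (nat_lit 6)),((nat_lit 10), (nat_lit 10))]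

lemma memB_11 : memCheck (nat_lit 11) (clB (nat_lit 11)) CB_11 = true := by decide +kernel

/-- classes -/
def CB_17 : List (ℕ × ℕ) := [((nat_lit 1), (nat_lit 1)),((nat_lit 1), (nat_lit 4)),((nat_lit 1), (nat_lit 5)),((nat_lit 1), (nat_lit 6)),((nat_lit 1), (nat_lit 11)),((nat_lit 1), (nat_lit 12)),((nat_lit 1), (nat_lit 13)),((nat_lit 1), (nat_lit 16)),((nat_lit 2), (nat_lit 1)),((nat_lit 2), (nat_lit 2)),((nat_lit 2), (nat_lit 3)),((nat_lit 2), (nat_lit 5)),((nat_lit 2), (nat_lit 12)),((nat_lit 2), (nat_lit 14)),((nat_lit 2), (nat_lit 15)),((nat_lit 2), (nat_lit 16)),((nat_lit 3), (nat_lit 0)),((nat_lit 3), (nat_lit 2)),((nat_lit 3), (nat_lit 4)),((nat_lit 3), (nat_lit 7)),((nat_lit 3), (nat_lit 8)),((nat_lit 3), (nat_lit 9)),((nat_lit 3), (nat_lit 10)),((nat_lit 3), (nat_lit 13)),((nat_lit 3), (nat_lit 15)),((nat_lit 4), (nat_lit 2)),((nat_lit 4), (nat_lit 3)),((nat_lit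 4), (nat_lit 6)),((nat_lit 4), (nat_lit 8)),((nat_lit 4), (nat_lit 9)),((nat_lit 4), (nat_lit 11)),((nat_lit 4), (nat_lit 14)),((nat_lit 4), (nat_lit 15)),((nat_lit 5), (nat_lit 0)),((nat_lit 5), (nat_lit 1)),((nat_lit 5), (nat_lit 3)),((nat_lit 5), (nat_lit 4)),((nat_lit 5), (nat_lit 8)),((nat_lit 5), (nat_lit 9)),((nat_lit 5), (nat_lit 13)),((nat_lit 5), (nat_lit 14)),((nat_lit 5), (nat_lit 16)),((nat_lit 6), (nat_lit 0)),((nat_lit 6), (nat_lit 4)),((nat_lit 6), (nat_lit 5)),((nat_lit 6), (nat_lit 6)),((nat_lit 6), (nat_lit 7)),((nat_lit 6), (nat_lit 10)),((nat_lit 6), (nat_lit 11)),((nat_lit 6), (nat_lit 12)),((nat_lit 6), (nat_lit 13)),((nat_lit 7), (nat_lit 0)),((nat_lit 7), (nat_lit 2)),((nat_lit 7), (nat_lit 3)),((nat_lit 7), (nat_lit 5)),((nat_lit 7), (nat_lit 6)),((nat_lit 7), (nat_lit 11)),((nat_lit 7), (nat_lit 12)),((nat_lit 7), (nat_lit 14)),((nat_lit 7), (nat_lit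 15)),((nat_lit 8), (nat_lit 1)),((nat_lit 8), (nat_lit 6)),((nat_lit 8), (nat_lit 7)),((nat_lit 8), (nat_lit 8)),((nat_lit 8), (nat_lit 9)),((nat_lit 8), (nat_lit 10)),((nat_lit 8), (nat_lit 11)),((nat_lit 8), (nat_lit 16)),((nat_lit 9), (nat_lit 2)),((nat_lit 9), (nat_lit 4)),((nat_lit 9), (nat_lit 6)),((nat_lit 9), (nat_lit 7)),((nat_lit 9), (nat_lit 10)),((nat_lit 9), (nat_lit 11)),((nat_lit 9), (nat_lit 13)),((nat_lit 9), (nat_lit 15)),((nat_lit 10), (nat_lit 0)),((nat_lit 10), (nat_lit 3)),((nat_lit 10), (nat_lit 5)),((nat_lit 10), (nat_lit 7)),((nat_lit 10), (nat_lit 8)),((nat_lit 10), (nat_lit 9)),((nat_lit 10), (nat_lit 10)),((nat_lit 10), (nat_lit 12)),((nat_lit 10), (nat_lit 14)),((nat_lit 11), (nat_lit 0)),((nat_lit 11), (nat_lit 1)),((nat_lit 11), (nat_lit 3)),((nat_lit 11), (nat_lit 6)),((nat_lit 11), (nat_lit 7)),((nat_lit 11), (nat_lit 10)),((nat_lit 11),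 (nat_lit 11)),((nat_lit 11), (nat_lit 14)),((nat_lit 11), (nat_lit 16)),((nat_lit 12), (nat_lit 0)),((nat_lit 12), (nat_lit 1)),((nat_lit 12), (nat_lit 2)),((nat_lit 12), (nat_lit 4)),((nat_lit 12), (nat_lit 5)),((nat_lit 12), (nat_lit 12)),((nat_lit 12), (nat_lit 13)),((nat_lit 12), (nat_lit 15)),((nat_lit 12), (nat_lit 16)),((nat_lit 13), (nat_lit 2)),((nat_lit 13), (nat_lit 5)),((nat_lit 13), (nat_lit 7)),((nat_lit 13), (nat_lit 8)),((nat_lit 13), (nat_lit 9)),((nat_lit 13), (nat_lit 10)),((nat_lit 13), (nat_lit 12)),((nat_lit 13), (nat_lit 15)),((nat_lit 14), (nat_lit 0)),((nat_lit 14), (nat_lit 1)),((nat_lit 14), (nat_lit 2)),((nat_lit 14), (nat_lit 6)),((nat_lit 14), (nat_lit 8)),((nat_lit 14), (nat_lit 9)),((nat_lit 14), (nat_lit 11)),((nat_lit 14), (nat_lit 15)),((nat_lit 14), (nat_lit 16)),((nat_lit 15), (nat_lit 3)),((nat_lit 15), (nat_lit 4)),((nat_lit 15), (nat_lit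 5)),((nat_lit 15), (nat_lit 8)),((nat_lit 15), (nat_lit 9)),((nat_lit 15), (nat_lit 12)),((nat_lit 15), (nat_lit 13)),((nat_lit 15), (nat_lit 14)),((nat_lit 16), (nat_lit 1)),((nat_lit 16), (nat_lit 3)),((nat_lit 16), (nat_lit 4)),((nat_lit 16), (nat_lit 7)),((nat_lit 16), (nat_lit 10)),((nat_lit 16), (nat_lit 13)),((nat_lit 16), (nat_lit 14)),((nat_lit 16), (nat_lit 16))]

lemma memB_17 : memCheck (nat_lit 17) (clB (nat_lit 17)) CB_17 = true := by decide +kernel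

/-- classes -/
def CB_19 : List (ℕ × ℕ) := [((nat_lit 1), (nat_lit 2)),((nat_lit 1), (nat_lit 3)),((nat_lit 1), (nat_lit 5)),((nat_lit 1), (nat_lit 6)),((nat_lit 1), (nat_lit 7)),((nat_lit 1), (nat_lit 12)),((nat_lit 1), (nat_lit 13)),((nat_lit 1), (nat_lit 14)),((nat_lit 1), (nat_lit 16)),((nat_lit 1), (nat_lit 17)),((nat_lit 2), (nat_lit 0)),((nat_lit 2), (nat_lit 1)),((nat_lit 2), (nat_lit 4)),((nat_lit 2), (nat_lit 5)),((nat_lit 2), (nat_lit 7)),((nat_lit 2), (nat_lit 12)),((nat_lit 2), (nat_lit 14)),((nat_lit 2), (nat_lit 15)),((nat_lit 2), (nat_lit 18)),((nat_lit 3), (nat_lit 0)),((nat_lit 3), (nat_lit 1)),((nat_lit 3), (nat_lit 2)),((nat_lit 3), (nat_lit 6)),((nat_lit 3), (nat_lit 8)),((nat_lit 3), (nat_lit 11)),((nat_lit 3), (nat_lit 13)),((nat_lit 3), (nat_lit 17)),((nat_lit 3), (nat_lit 18)),((nat_lit 4), (nat_lit 1)),((nat_lit 4), (nat_lit 3)),((nat_lit 4), (nat_lit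 6)),((nat_lit 4), (nat_lit 7)),((nat_lit 4), (nat_lit 8)),((nat_lit 4), (nat_lit 11)),((nat_lit 4), (nat_lit 12)),((nat_lit 4), (nat_lit 13)),((nat_lit 4), (nat_lit 16)),((nat_lit 4), (nat_lit 18)),((nat_lit 5), (nat_lit 4)),((nat_lit 5), (nat_lit 5)),((nat_lit 5), (nat_lit 6)),((nat_lit 5), (nat_lit 7)),((nat_lit 5), (nat_lit 9)),((nat_lit 5), (nat_lit 10)),((nat_lit 5), (nat_lit 12)),((nat_lit 5), (nat_lit 13)),((nat_lit 5), (nat_lit 14)),((nat_lit 5), (nat_lit 15)),((nat_lit 6), (nat_lit 1)),((nat_lit 6), (nat_lit 5)),((nat_lit 6), (nat_lit 7)),((nat_lit 6), (nat_lit 8)),((nat_lit 6), (nat_lit 9)),((nat_lit 6), (nat_lit 10)),((nat_lit 6), (nat_lit 11)),((nat_lit 6), (nat_lit 12)),((nat_lit 6), (nat_lit 14)),((nat_lit 6), (nat_lit 18)),((nat_lit 7), (nat_lit 2)),((nat_lit 7), (nat_lit 3)),((nat_lit 7), (nat_lit 4)),((nat_lit 7), (nat_lit 5)),((nat_lit 7), (nat_lit 8)),((nat_lit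 7), (nat_lit 11)),((nat_lit 7), (nat_lit 14)),((nat_lit 7), (nat_lit 15)),((nat_lit 7), (nat_lit 16)),((nat_lit 7), (nat_lit 17)),((nat_lit 8), (nat_lit 0)),((nat_lit 8), (nat_lit 2)),((nat_lit 8), (nat_lit 6)),((nat_lit 8), (nat_lit 7)),((nat_lit 8), (nat_lit 9)),((nat_lit 8), (nat_lit 10)),((nat_lit 8), (nat_lit 12)),((nat_lit 8), (nat_lit 13)),((nat_lit 8), (nat_lit 17)),((nat_lit 9), (nat_lit 1)),((nat_lit 9), (nat_lit 2)),((nat_lit 9), (nat_lit 4)),((nat_lit 9), (nat_lit 7)),((nat_lit 9), (nat_lit 8)),((nat_lit 9), (nat_lit 11)),((nat_lit 9), (nat_lit 12)),((nat_lit 9), (nat_lit 15)),((nat_lit 9), (nat_lit 17)),((nat_lit 9), (nat_lit 18)),((nat_lit 10), (nat_lit 0)),((nat_lit 10), (nat_lit 2)),((nat_lit 10), (nat_lit 5)),((nat_lit 10), (nat_lit 8)),((nat_lit 10), (nat_lit 9)),((nat_lit 10), (nat_lit 10)),((nat_lit 10), (nat_lit 11)),((nat_lit 10), (nat_lit 14)),((nat_lit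 10), (nat_lit 17)),((nat_lit 11), (nat_lit 1)),((nat_lit 11), (nat_lit 2)),((nat_lit 11), (nat_lit 3)),((nat_lit 11), (nat_lit 5)),((nat_lit 11), (nat_lit 9)),((nat_lit 11), (nat_lit 10)),((nat_lit 11), (nat_lit 14)),((nat_lit 11), (nat_lit 16)),((nat_lit 11), (nat_lit 17)),((nat_lit 11), (nat_lit 18)),((nat_lit 12), (nat_lit 0)),((nat_lit 12), (nat_lit 1)),((nat_lit 12), (nat_lit 3)),((nat_lit 12), (nat_lit 4)),((nat_lit 12), (nat_lit 9)),((nat_lit 12), (nat_lit 10)),((nat_lit 12), (nat_lit 15)),((nat_lit 12), (nat_lit 16)),((nat_lit 12), (nat_lit 18)),((nat_lit 13), (nat_lit 0)),((nat_lit 13), (nat_lit 1)),((nat_lit 13), (nat_lit 3)),((nat_lit 13), (nat_lit 5)),((nat_lit 13), (nat_lit 6)),((nat_lit 13), (nat_lit 13)),((nat_lit 13), (nat_lit 14)),((nat_lit 13), (nat_lit 16)),((nat_lit 13), (nat_lit 18)),((nat_lit 14), (nat_lit 0)),((nat_lit 14), (nat_lit 3)),((nat_lit 14),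 (nat_lit 7)),((nat_lit 14), (nat_lit 8)),((nat_lit 14), (nat_lit 9)),((nat_lit 14), (nat_lit 10)),((nat_lit 14), (nat_lit 11)),((nat_lit 14), (nat_lit 12)),((nat_lit 14), (nat_lit 16)),((nat_lit 15), (nat_lit 0)),((nat_lit 15), (nat_lit 2)),((nat_lit 15), (nat_lit 3)),((nat_lit 15), (nat_lit 4)),((nat_lit 15), (nat_lit 7)),((nat_lit 15), (nat_lit 12)),((nat_lit 15), (nat_lit 15)),((nat_lit 15), (nat_lit 16)),((nat_lit 15), (nat_lit 17)),((nat_lit 16), (nat_lit 3)),((nat_lit 16), (nat_lit 4)),((nat_lit 16), (nat_lit 6)),((nat_lit 16), (nat_lit 8)),((nat_lit 16), (nat_lit 9)),((nat_lit 16), (nat_lit 10)),((nat_lit 16), (nat_lit 11)),((nat_lit 16), (nat_lit 13)),((nat_lit 16), (nat_lit 15)),((nat_lit 16), (nat_lit 16)),((nat_lit 17), (nat_lit 1)),((nat_lit 17), (nat_lit 2)),((nat_lit 17), (nat_lit 4)),((nat_lit 17), (nat_lit 6)),((nat_lit 17), (nat_lit 9)),((nat_lit 17), (nat_lit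 10)),((nat_lit 17), (nat_lit 13)),((nat_lit 17), (nat_lit 15)),((nat_lit 17), (nat_lit 17)),((nat_lit 17), (nat_lit 18)),((nat_lit 18), (nat_lit 0)),((nat_lit 18), (nat_lit 4)),((nat_lit 18), (nat_lit 5)),((nat_lit 18), (nat_lit 6)),((nat_lit 18), (nat_lit 8)),((nat_lit 18), (nat_lit 11)),((nat_lit 18), (nat_lit 13)),((nat_lit 18), (nat_lit 14)),((nat_lit 18), (nat_lit 15))]

lemma memB_19 : memCheck (nat_lit 19) (clB (nat_lit 19)) CB_19 = true := by decide +kernel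

end Pool.Agent.LibH4.KF
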