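import Pool.Agent.Lib_helper4.KCls

/-! generated data -/

namespace Pool.Agent.LibH4.KF

open Ker T6

/-- representatives -/
def P3 : List (ℕ × ℕ) := [((nat_lit 1), (nat_lit 0)),((nat_lit 1), (nat_lit 1)),((nat_lit 1), (nat_lit 2)),((nat_lit 0), (nat_lit 1))]

lemma isP1_3 : IsP1 3 P3 := by
  have := isP1_prime_pow (p := 3) (k := 1) (by norm_num) (by norm_num)
  have e : p1List 3 (3 ^ 1) = P3 := by decide +kernel
  rw [e] at this
  exact this

/-- representatives -/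
def P8 : List (ℕ × ℕ) := [((nat_lit 1), (nat_lit 0)),((nat_lit 1), (nat_lit 1)),((nat_lit 1), (nat_lit 2)),((nat_lit 1), (nat_lit 3)),((nat_lit 1), (nat_lit 4)),((nat_lit 1), (nat_lit 5)),((nat_lit 1), (nat_lit 6)),((nat_lit 1), (nat_lit 7)),((nat_lit 0), (nat_lit 1)),((nat_lit 2), (nat_lit 1)),((nat_lit 4), (nat_lit 1)),((nat_lit 6), (nat_lit 1))]

lemma isP1_8 : IsP1 8 P8 := by
  have := isP1_prime_pow (p := 2) (k := 3) (by norm_num) (by norm_num)
  have e : p1List 2 (2 ^ 3) = P8 := by decide +kernel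
  rw [e] at this
  exact this

/-- representatives -/
def P19 : List (ℕ × ℕ) := [((nat_lit 1), (nat_lit 0)),((nat_lit 1), (nat_lit 1)),((nat_lit 1), (nat_lit 2)),((nat_lit 1), (nat_lit 3)),((nat_lit 1), (nat_lit 4)),((nat_lit 1), (nat_lit 5)),((nat_lit 1), (nat_lit 6)),((nat_lit 1), (nat_lit 7)),((nat_lit 1), (nat_lit 8)),((nat_lit 1), (nat_lit 9)),((nat_lit 1), (nat_lit 10)),((nat_lit 1), (nat_lit 11)),((nat_lit 1), (nat_lit 12)),((nat_lit 1), (nat_lit 13)),((nat_lit 1), (nat_lit 14)),((nat_lit 1), (nat_lit 15)),((nat_lit 1), (nat_lit 16)),((nat_lit 1), (nat_lit 17)),((nat_lit 1), (nat_lit 18)),((nat_lit 0), (nat_lit 1))]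

lemma isP1_19 : IsP1 19 P19 := by
  have := isP1_prime_pow (p := 19) (k := 1) (by norm_num) (by norm_num)
  have e : p1List 19 (19 ^ 1) = P19 := by decide +kernel
  rw [e] at this
  exact this

/-- representatives -/
def P23 : List (ℕ × ℕ) := [((nat_lit 1), (nat_lit 0)),((nat_lit 1), (nat_lit 1)),((nat_lit 1), (nat_lit 2)),((nat_lit 1), (nat_lit 3)),((nat_lit 1), (nat_lit 4)),((nat_lit 1), (nat_lit 5)),((nat_lit 1), (nat_lit 6)),((nat_lit 1), (nat_lit 7)),((nat_lit 1), (nat_lit 8)),((nat_lit 1), (nat_lit 9)),((nat_lit 1), (nat_lit 10)),((nat_lit 1), (nat_lit 11)),((nat_lit 1), (nat_lit 12)),((nat_lit 1), (nat_lit 13)),((nat_lit 1), (nat_lit 14)),((nat_lit 1), (nat_lit 15)),((nat_lit 1), (nat_lit 16)),((nat_lit 1), (nat_lit 17)),((nat_lit 1), (nat_lit 18)),((nat_lit 1), (nat_lit 19)),((nat_lit 1), (nat_lit 20)),((nat_lit 1), (nat_lit 21)),((nat_lit 1), (nat_lit 22)),((nat_lit 0), (nat_lit 1))]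

lemma isP1_23 : IsP1 23 P23 := by
  have := isP1_prime_pow (p := 23) (k := 1) (by norm_num) (by norm_num)
  have e : p1List 23 (23 ^ 1) = P23 := by decide +kernel
  rw [e] at this
  exact this

/-- representatives -/
def P29 : List (ℕ × ℕ) := [((nat_lit 1), (nat_lit 0)),((nat_lit 1), (nat_lit 1)),((nat_lit 1), (nat_lit 2)),((nat_lit 1), (nat_lit 3)),((nat_lit 1), (nat_lit 4)),((nat_lit 1), (nat_lit 5)),((nat_lit 1), (nat_lit 6)),((nat_lit 1), (nat_lit 7)),((nat_lit 1), (nat_lit 8)),((nat_lit 1), (nat_lit 9)),((nat_lit 1), (nat_lit 10)),((nat_lit 1), (nat_lit 11)),((nat_lit 1), (nat_lit 12)),((nat_lit 1), (nat_lit 13)),((nat_lit 1), (nat_lit 14)),((nat_lit 1), (nat_lit 15)),((nat_lit 1), (nat_lit 16)),((nat_lit 1), (nat_lit 17)),((nat_lit 1), (nat_lit 18)),((nat_lit 1), (nat_lit 19)),((nat_lit 1), (nat_lit 20)),((nat_lit 1), (nat_lit 21)),((nat_lit 1), (nat_lit 22)),((nat_lit 1), (nat_lit 23)),((nat_lit 1), (nat_lit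 24)),((nat_lit 1), (nat_lit 25)),((nat_lit 1), (nat_lit 26)),((nat_lit 1), (nat_lit 27)),((nat_lit 1), (nat_lit 28)),((nat_lit 0), (nat_lit 1))]

lemma isP1_29 : IsP1 29 P29 := by
  have := isP1_prime_pow (p := 29) (k := 1) (by norm_num) (by norm_num)
  have e : p1List 29 (29 ^ 1) = P29 := by decide +kernel
  rw [e] at this
  exact this

end Pool.Agent.LibH4.KF
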