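import Pool.Agent.Lib_helper4.KFSound
import Pool.Agent.Lib_helper5.EvenBL

/-!
The families `d = (an)² - 4a` and `d = (an)² + 4a`: relations and final checks.
-/

namespace Pool.Agent.LibH4.KF

open Finset Ker T6 Pool.Agent.Lib_helper5

/-! ### digits -/

lemma dg24_triple {x y z : ℕ} (hx : x < 2 ^ 24) (hy : y < 2 ^ 24) (hz : z < 2 ^ 24) :
    dg 24 (x + 2 ^ 24 * y + 2 ^ 48 * z) 0 = x ∧ dg 24 (x + 2 ^ 24 * y + 2 ^ 48 * z) 1 = y ∧
    dg 24 (x + 2 ^ 24 * y + 2 ^ 48 * z) 2 = z := by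
  simp only [dg_eq]
  norm_num
  norm_num at hx hy hz
  omega

/-! ### sums over ranges -/

section Range

variable {q l : ℕ} [NeZero q]

/-- a term of the analytic relation -/
lemma range_term (chi : ZMod q → ZMod l) (P R S : ℤ) (c : ZMod l) :
    ∑ r ∈ range q, ∑ s ∈ range q,
      chi ((P * (r : ℤ) ^ 2 + R * r * s - S * (s : ℤ) ^ 2 : ℤ) : ZMod q)
        * (3 * ((bZ q r : ZMod l) * bZ q s) - c * b2Z q r) =
      3 * XX chi P R (-S) - c * YX chi P R (-S) := by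
  rw [sum_range_zmod2 (q := q) (K := ZMod l)]
  unfold XX YX
  rw [Finset.mul_sum, Finset.mul_sum, ← Finset.sum_sub_distrib]
  apply Finset.sum_congr rfl
  intro x _
  rw [Finset.mul_sum, Finset.mul_sum, ← Finset.sum_sub_distrib]
  apply Finset.sum_congr rfl
  intro y _
  have e : ((P * ((x.val : ℕ) : ℤ) ^ 2 + R * (x.val : ℕ) * (y.val : ℕ) -
      S * ((y.val : ℕ) : ℤ) ^ 2 : ℤ) : ZMod q) = fz q P R (-S) x y := by
    unfold fz
    push_cast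
    rw [ZMod.natCast_zmod_val, ZMod.natCast_zmod_val]
    ring
  rw [e]
  have h1 : ∀ r : ℕ, ((bZ q r : ℤ) : ZMod l) = bI q l r := by
    intro r
    unfold bZ bI
    split_ifs <;> push_cast <;> ring
  have h2 : ∀ s : ℕ, ((b2Z q s : ℤ) : ZMod l) = b2I q l s := by
    intro s
    unfold b2Z b2I
    push_cast
    ring
  rw [h1, h1, h2]
  unfold bz gz
  ring

end Range

/-! ### the family `(an)² - 4a` -/

/-- `an - a - 1` modulo `N` -/
def eW (N a n : ℕ) : ℕ := Nat.mod (Nat.add (Nat.mul a n)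
  (Nat.mul (Nat.sub N (nat_lit 1)) (Nat.add a (nat_lit 1)))) N
/-- `an - 2` modulo `N` -/
def eR1 (N a n : ℕ) : ℕ := Nat.mod (Nat.add (Nat.mul a n)
  (Nat.mul (nat_lit 2) (Nat.sub N (nat_lit 1)))) N
/-- `an - 2a` modulo `N` -/
def eR3 (N a n : ℕ) : ℕ := Nat.mod (Nat.add (Nat.mul a n)
  (Nat.mul (nat_lit 2) (Nat.mul (Nat.sub N (nat_lit 1)) a))) N
/-- `-a` modulo `N` -/
def eS3 (N a : ℕ) : ℕ := Nat.mod (Nat.mul (Nat.sub N (nat_lit 1)) a) N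

/-- first form -/
def cfE1 : CF (ℕ × ℕ) := fun N c k => strict (eW N c.1 c.2) fun P => strict (eR1 N c.1 c.2) fun R =>
  k P R (Nat.sub N (nat_lit 1))
/-- second form -/
def cfE3 : CF (ℕ × ℕ) := fun N c k => strict (eW N c.1 c.2) fun P => strict (eR3 N c.1 c.2) fun R =>
  strict (eS3 N c.1) fun S => k P R S

/-- the forms with their weights -/
def formsE : List (WF (ℕ × ℕ)) := [(cfE1, nat_lit 6, nat_lit 1, nat_lit 16777218),
  (cfE3, nat_lit 6, nat_lit 1, nat_lit 281474976710658)]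

lemma cast_pred {N : ℕ} [NeZero N] : ((N - 1 : ℕ) : ZMod N) = -1 := by
  rw [Nat.cast_sub (Nat.pos_of_ne_zero (NeZero.ne N))]
  simp

lemma repE1 {N : ℕ} [NeZero N] (a n : ℕ) : Rep cfE1 N (a % N, n % N) ((a : ℤ) * n - a - 1)
    ((a : ℤ) * n - 2) (-1) := by
  refine ⟨eW N (a % N) (n % N), eR1 N (a % N) (n % N), N - 1, ?_, ?_, ?_, ?_⟩
  · intro k
    unfold cfE1
    rw [strict_eq, strict_eq]
    rfl
  · have : eW N (a % N) (n % N) = (a % N * (n % N) + (N - 1) * (a % N + 1)) % N := rfl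
    rw [this, ZMod.natCast_mod]
    push_cast
    rw [cast_pred, ZMod.natCast_mod, ZMod.natCast_mod]
    ring
  · have : eR1 N (a % N) (n % N) = (a % N * (n % N) + 2 * (N - 1)) % N := rfl
    rw [this, ZMod.natCast_mod]
    push_cast
    rw [cast_pred, ZMod.natCast_mod, ZMod.natCast_mod]
    ring
  · rw [cast_pred]; push_cast; ring

lemma repE3 {N : ℕ} [NeZero N] (a n : ℕ) : Rep cfE3 N (a % N, n % N) ((a : ℤ) * n - a - 1)
    ((a : ℤ) * n - 2 * a) (-a) := by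
  refine ⟨eW N (a % N) (n % N), eR3 N (a % N) (n % N), eS3 N (a % N), ?_, ?_, ?_, ?_⟩
  · intro k
    unfold cfE3
    rw [strict_eq, strict_eq, strict_eq]
  · have : eW N (a % N) (n % N) = (a % N * (n % N) + (N - 1) * (a % N + 1)) % N := rfl
    rw [this, ZMod.natCast_mod]
    push_cast
    rw [cast_pred, ZMod.natCast_mod, ZMod.natCast_mod]
    ring
  · have : eR3 N (a % N) (n % N) = (a % N * (n % N) + 2 * ((N - 1) * (a % N))) % N := rfl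
    rw [this, ZMod.natCast_mod]
    push_cast
    rw [cast_pred, ZMod.natCast_mod, ZMod.natCast_mod]
    ring
  · have : eS3 N (a % N) = ((N - 1) * (a % N)) % N := rfl
    rw [this, ZMod.natCast_mod]
    push_cast
    rw [cast_pred, ZMod.natCast_mod]
    ring

/-- final check -/
def chkE (l e a n : ℕ) : Bool := strict e fun e => strict (Nat.mod (Nat.mul a n) l) fun an =>
  Nat.beq (Nat.mod (Nat.add (dg (nat_lit 4) e (nat_lit 0)) (Nat.mul (Nat.sub l (nat_lit 1))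
    (Nat.add (Nat.mul an (dg (nat_lit 4) e (nat_lit 1)))
      (Nat.mul n (dg (nat_lit 4) e (nat_lit 2)))))) l) (nat_lit 0)

/-- the relation of the family -/
def RelE (a n q l : ℕ) [NeZero q] (chi : ZMod q → ZMod l) : Prop :=
  (6 * XX chi ((a : ℤ) * n - a - 1) ((a : ℤ) * n - 2) (-1) +
    YY chi ((a : ℤ) * n - a - 1) ((a : ℤ) * n - 2) (-1) +
    2 * YX chi ((a : ℤ) * n - a - 1) ((a : ℤ) * n - 2) (-1) +
    6 * XX chi ((a : ℤ) * n - a - 1) ((a : ℤ) * n - 2 * a) (-a) +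
    YY chi ((a : ℤ) * n - a - 1) ((a : ℤ) * n - 2 * a) (-a) +
    2 * YX chi ((a : ℤ) * n - a - 1) ((a : ℤ) * n - 2 * a) (-a)) -
    (a * n * YX chi ((a : ℤ) * n - a - 1) ((a : ℤ) * n - 2) (-1) +
    n * YX chi ((a : ℤ) * n - a - 1) ((a : ℤ) * n - 2 * a) (-a)) = 0

/-- all relations -/
def AllE (a n d : ℕ) : Prop := ∀ (q l : ℕ) [NeZero q], l.Prime → Nat.Coprime q d →
  ¬ l ∣ 6 → ¬ l ∣ d → ∀ chi : ZMod q → ZMod l, (∀ x, chi (-x) = - chi x) →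
  (∀ x y, chi (x * y) = chi x * chi y) →
  (∑ u ∈ range q, (u : ZMod l) * chi (u : ZMod q) = 0) → RelE a n q l chi

theorem allE (a n : ℕ) (ha : 2 ≤ a) (ha2 : a % 2 = 1) (hn : 3 ≤ n) (hn2 : n % 2 = 1)
    [IsDomain (QuadraticAlgebra ℤ (E1.w a n) (a * n - 2))]
    [UniqueFactorizationMonoid (QuadraticAlgebra ℤ (E1.w a n) (a * n - 2))]
    {d : ℕ} (hd : (d : ℤ) = ((a : ℤ) * n) ^ 2 - 4 * a) : AllE a n d := by
  intro q l _ hl hco hl6 hld chi hodd hmul hsum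
  have : Fact l.Prime := ⟨hl⟩
  have h := E1.T5 a n ha ha2 hn hn2 hd q l (Nat.pos_of_ne_zero (NeZero.ne q)) hco hl6 hld chi
    hodd hmul hsum
  rw [range_term, range_term, range_term, range_term] at h
  have s1 := XX_swap chi hodd ((a : ℤ) * n - a - 1) ((a : ℤ) * n - 2) (-1)
  have s2 := YX_swap chi hodd ((a : ℤ) * n - a - 1) ((a : ℤ) * n - 2) (-1)
  have s3 := XX_swap chi hodd ((a : ℤ) * n - a - 1) ((a : ℤ) * n - 2 * a) (-a)
  have s4 := YX_swap chi hodd ((a : ℤ) * n - a - 1) ((a : ℤ) * n - 2 * a) (-a)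
  rw [neg_neg] at s1 s2 s3 s4
  rw [s1, s2, s3, s4] at h
  unfold RelE
  linear_combination h

section EntryE

variable {n1 n2 l e1 e2 T1 T2 : ℕ} {L1 L2 : List (ℕ × ℕ)} [NeZero n1] [NeZero n2]
    [NeZero (n1 * n2)]

lemma entE_digits (H : Hyp n1 n2 l e1 e2 T1 T2 L1 L2) (c c2 : ℕ × ℕ) (h1 : CFok cfE1 n2 c2)
    (h3 : CFok cfE3 n2 c2) :
    entA n1 n2 l e1 e2 T1 T2 L1 L2 formsE c c2 =
      (6 * zW n1 n2 l T1 T2 L1 L2 (wD n1 n2 l e1 e2 T1 T2) cfE1 c c2 +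
        zW n1 n2 l T1 T2 L1 L2 (wE1 n1 n2 l e1 e2 T1 T2) cfE1 c c2 +
        2 * zW n1 n2 l T1 T2 L1 L2 (wE2 n1 n2 l e1 e2 T1 T2) cfE1 c c2 +
        6 * zW n1 n2 l T1 T2 L1 L2 (wD n1 n2 l e1 e2 T1 T2) cfE3 c c2 +
        zW n1 n2 l T1 T2 L1 L2 (wE1 n1 n2 l e1 e2 T1 T2) cfE3 c c2 +
        2 * zW n1 n2 l T1 T2 L1 L2 (wE2 n1 n2 l e1 e2 T1 T2) cfE3 c c2) +
      2 ^ 24 * zW n1 n2 l T1 T2 L1 L2 (wE2 n1 n2 l e1 e2 T1 T2) cfE1 c c2 +
      2 ^ 48 * zW n1 n2 l T1 T2 L1 L2 (wE2 n1 n2 l e1 e2 T1 T2) cfE3 c c2 ∧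
    (6 * zW n1 n2 l T1 T2 L1 L2 (wD n1 n2 l e1 e2 T1 T2) cfE1 c c2 +
        zW n1 n2 l T1 T2 L1 L2 (wE1 n1 n2 l e1 e2 T1 T2) cfE1 c c2 +
        2 * zW n1 n2 l T1 T2 L1 L2 (wE2 n1 n2 l e1 e2 T1 T2) cfE1 c c2 +
        6 * zW n1 n2 l T1 T2 L1 L2 (wD n1 n2 l e1 e2 T1 T2) cfE3 c c2 +
        zW n1 n2 l T1 T2 L1 L2 (wE1 n1 n2 l e1 e2 T1 T2) cfE3 c c2 +
        2 * zW n1 n2 l T1 T2 L1 L2 (wE2 n1 n2 l e1 e2 T1 T2) cfE3 c c2) < 2 ^ 24 ∧
    zW n1 n2 l T1 T2 L1 L2 (wE2 n1 n2 l e1 e2 T1 T2) cfE1 c c2 < 2 ^ 24 ∧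
    zW n1 n2 l T1 T2 L1 L2 (wE2 n1 n2 l e1 e2 T1 T2) cfE3 c c2 < 2 ^ 24 := by
  have b1 := zW_lt (n1 := n1) (T1 := T1) (T2 := T2) (L1 := L1) (c := c) H.l3 H.l16 H.len2
    (wD n1 n2 l e1 e2 T1 T2) h1
  have b2 := zW_lt (n1 := n1) (T1 := T1) (T2 := T2) (L1 := L1) (c := c) H.l3 H.l16 H.len2
    (wE1 n1 n2 l e1 e2 T1 T2) h1
  have b3 := zW_lt (n1 := n1) (T1 := T1) (T2 := T2) (L1 := L1) (c := c) H.l3 H.l16 H.len2
    (wE2 n1 n2 l e1 e2 T1 T2) h1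
  have b4 := zW_lt (n1 := n1) (T1 := T1) (T2 := T2) (L1 := L1) (c := c) H.l3 H.l16 H.len2
    (wD n1 n2 l e1 e2 T1 T2) h3
  have b5 := zW_lt (n1 := n1) (T1 := T1) (T2 := T2) (L1 := L1) (c := c) H.l3 H.l16 H.len2
    (wE1 n1 n2 l e1 e2 T1 T2) h3
  have b6 := zW_lt (n1 := n1) (T1 := T1) (T2 := T2) (L1 := L1) (c := c) H.l3 H.l16 H.len2
    (wE2 n1 n2 l e1 e2 T1 T2) h3
  refine ⟨?_, by norm_num; omega, by norm_num; omega, by norm_num; omega⟩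
  unfold entA formsE
  simp only [List.map_cons, List.map_nil, List.sum_cons, List.sum_nil]
  unfold entF
  simp only
  ring

/-- **soundness** for the family `(an)² - 4a` -/
theorem soundE (H : Hyp n1 n2 l e1 e2 T1 T2 L1 L2) {W : ℕ} {D1 D2 : List (ℕ × ℕ)} {TB : ℕ}
    {DRs : List ((ℕ × ℕ) × ℕ)} (hDR : DRs = DRstd n1 n2 l e1 e2 T1 T2 L1 L2)
    (hc : checkR W n1 n2 l T1 T2 DRs formsE L2 D1 D2 TB = true) {a n : ℕ}
    (hrel : RelE a n (n1 * n2) l (chiF n1 n2 l T1 T2)) {i j : ℕ} (hi : i < D1.length)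
    (hj : j < D2.length) (h1 : D1[i] = (a % n1, n % n1)) (h2 : D2[j] = (a % n2, n % n2)) :
    chkE l (dg 12 (dg W TB i) j) (a % l) (n % l) = true := by
  have hok : ∀ (N : ℕ) (c : ℕ × ℕ), CFok cfE1 N c ∧ CFok cfE3 N c := by
    intro N c
    constructor
    · refine ⟨eW N c.1 c.2, eR1 N c.1 c.2, N - 1, ?_⟩
      intro k
      unfold cfE1
      rw [strict_eq, strict_eq]
      rfl
    · refine ⟨eW N c.1 c.2, eR3 N c.1 c.2, eS3 N c.1, ?_⟩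
      intro k
      unfold cfE3
      rw [strict_eq, strict_eq, strict_eq]
  rw [checkR_spec H.l3 H.l16 H.qle H.len1 hDR ?_ ?_ hc i j hi hj, h1, h2]
  · obtain ⟨e, l0, l1, l2⟩ := entE_digits H (a % n1, n % n1) (a % n2, n % n2)
      (hok _ _).1 (hok _ _).2
    have hlpos : 1 ≤ l := by have := H.l3; omega
    obtain ⟨g0, g1, g2⟩ := red_digits hlpos H.l16 l0 l1 l2
    unfold chkE
    rw [strict_eq, strict_eq, e]
    change Nat.beq ((dg 4 _ 0 + (l - 1) * ((a % l * (n % l)) % l * dg 4 _ 1 +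
      n % l * dg 4 _ 2)) % l) 0 = true
    rw [g0, g1, g2, Nat.beq_eq, ← Nat.dvd_iff_mod_eq_zero, ← ZMod.natCast_eq_zero_iff]
    have r1 := repE1 (N := n1) a n
    have r2 := repE1 (N := n2) a n
    have r3 := repE3 (N := n1) a n
    have r4 := repE3 (N := n2) a n
    push_cast [Nat.cast_sub hlpos]
    simp only [ZMod.natCast_mod]
    push_cast
    rw [z0_cast H r1 r2, z1_cast H r1 r2, z2_cast H r1 r2, z0_cast H r3 r4, z1_cast H r3 r4,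
      z2_cast H r3 r4]
    rw [ZMod.natCast_self]
    simp only [ZMod.natCast_mod]
    unfold RelE at hrel
    linear_combination hrel
  · intro c _ f hf
    unfold formsE at hf
    simp only [List.mem_cons, List.not_mem_nil, or_false] at hf
    rcases hf with rfl | rfl
    · exact (hok _ _).1
    · exact (hok _ _).2
  · intro c _ c2 _
    obtain ⟨e, l0, l1, l2⟩ := entE_digits H c c2 (hok _ _).1 (hok _ _).2
    rw [e]
    norm_num at l0 l1 l2 ⊢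
    omega

end EntryE

end Pool.Agent.LibH4.KF
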