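import Pool.Agent.Lib_helper4.T6Cls

/-!
Kernel friendly tables for general cycles of forms.
-/

namespace Pool.Agent.LibH4.KF

open Ker

/-- the value at `(x, y)` of the form with coefficients `P, R, S` modulo `n` -/
def NF (n P R S x y : ℕ) : ℕ :=
  Nat.mod (Nat.add (Nat.mul x (Nat.add (Nat.mul P x) (Nat.mul R y))) (Nat.mul S (Nat.mul y y))) n

/-- coefficients of a form modulo `n` on classes, in continuation style -/
abbrev CF (α : Type) := ℕ → α → (ℕ → ℕ → ℕ → ℕ) → ℕ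

/-- character value of a form at a representative -/
def vF {α : Type} (n T : ℕ) (cf : CF α) (c : α) (Q : ℕ × ℕ) : ℕ :=
  cf n c fun P R S => ch T (NF n P R S Q.1 Q.2)

/-- packed column of a form -/
def colF {α : Type} (V n T : ℕ) (cf : CF α) (D : List α) (Q : ℕ × ℕ) : ℕ :=
  packL V (fun c => cf n c fun P R S => ch T (NF n P R S Q.1 Q.2)) D

/-- combination of the columns with weights -/
def rowS1 (l w0 w1 w2 : ℕ) (Ys : List ((ℕ × ℕ) × ℕ)) : ℕ → ℕ :=
  @List.rec _ (fun _ => ℕ → ℕ) (fun _ => (nat_lit 0)) (fun x _ ih U =>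
    strict (Nat.div U (nat_lit 281474976710656)) fun V =>
    Nat.add
      (Nat.mul (Nat.add (Nat.mul w0 (Nat.mod (dg (nat_lit 16) U (nat_lit 0)) l))
        (Nat.add (Nat.mul w1 (Nat.mod (dg (nat_lit 16) U (nat_lit 1)) l))
          (Nat.mul w2 (Nat.mod (dg (nat_lit 16) U (nat_lit 2)) l)))) x.2)
      (ih V)) Ys

/-- the row of one form -/
def rowF {α : Type} (n l T : ℕ) (cf : CF α) (w0 w1 w2 : ℕ) (DRs Ys : List ((ℕ × ℕ) × ℕ)) (c : α) :
    ℕ :=
  strict (cf n c fun P R S => sumL (fun x => Nat.mul (ch T (NF n P R S x.1.1 x.1.2)) x.2) DRs)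
    fun U => rowS1 l w0 w1 w2 Ys U

/-- a form of a family together with its packed weights -/
abbrev WF (α : Type) := CF α × ℕ × ℕ × ℕ

/-- the row of all forms -/
def rowA {α : Type} (n l T : ℕ) (DRs : List ((ℕ × ℕ) × ℕ))
    (FY : List (WF α × List ((ℕ × ℕ) × ℕ))) (c : α) : ℕ :=
  sumL (fun f => rowF n l T f.1.1 f.1.2.1 f.1.2.2.1 f.1.2.2.2 DRs f.2 c) FY

/-- evaluates all columns -/
def withF {α β : Type} (V n T : ℕ) (D : List α) (L : List (ℕ × ℕ)) (forms : List (WF α)) :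
    (List (WF α × List ((ℕ × ℕ) × ℕ)) → β) → β :=
  @List.rec (WF α) (fun _ => (List (WF α × List ((ℕ × ℕ) × ℕ)) → β) → β) (fun k => k [])
    (fun f _ ih k => mapK (colF V n T f.1 D) L fun Ys => ih fun rest => k ((f, Ys) :: rest)) forms

/-- the table check for a family, from given weights `DRs` -/
def checkF {α : Type} (V W n1 n2 l T1 T2 : ℕ) (DRs : List ((ℕ × ℕ) × ℕ)) (forms : List (WF α))
    (L2 : List (ℕ × ℕ)) (D1 D2 : List α) (TB : ℕ) : Bool :=
  withF V n2 T2 D2 L2 forms fun FY =>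
  allI (fun i c => Nat.beq (dg W TB i) (rowA n1 l T1 DRs FY c)) D1 (nat_lit 0)

/-- reduction of a packed triple -/
def red (l e : ℕ) : ℕ := Nat.add (Nat.mod (dg (nat_lit 24) e (nat_lit 0)) l)
  (Nat.mul (nat_lit 16) (Nat.add (Nat.mod (dg (nat_lit 24) e (nat_lit 1)) l)
    (Nat.mul (nat_lit 16) (Nat.mod (dg (nat_lit 24) e (nat_lit 2)) l))))

/-- the base of the entries -/
def V72 : ℕ := nat_lit 4722366482869645213696


/-- comparison of the reduced lanes -/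
def lanes {α : Type} (l : ℕ) (D : List α) : ℕ → ℕ → Bool :=
  @List.rec α (fun _ => ℕ → ℕ → Bool) (fun _ _ => true) (fun _ _ ih t r =>
    @Bool.rec (fun _ => Bool) false (strict (Nat.div t (nat_lit 4096)) fun t' =>
      strict (Nat.div r V72) fun r' => ih t' r')
      (Nat.beq (Nat.mod t (nat_lit 4096))
        (red l (Nat.mod r V72)))) D

/-- the table check with reduced entries -/
def checkR {α : Type} (W n1 n2 l T1 T2 : ℕ) (DRs : List ((ℕ × ℕ) × ℕ)) (forms : List (WF α))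
    (L2 : List (ℕ × ℕ)) (D1 D2 : List α) (TB : ℕ) : Bool :=
  withF V72 n2 T2 D2 L2 forms fun FY =>
  allI (fun i c => strict (dg W TB i) fun t => strict (rowA n1 l T1 DRs FY c) fun r =>
    lanes l D2 t r) D1 (nat_lit 0)

/-- equality of weight lists -/
def eqW (f : ℕ × ℕ → ℕ) (L : List (ℕ × ℕ)) : List ((ℕ × ℕ) × ℕ) → Bool :=
  @List.rec (ℕ × ℕ) (fun _ => List ((ℕ × ℕ) × ℕ) → Bool)
    (fun M => @List.rec _ (fun _ => Bool) true (fun _ _ _ => false) M)
    (fun P _ ih M => @List.rec _ (fun _ => Bool) false (fun x xs _ =>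
      @Bool.rec (fun _ => Bool) false (@Bool.rec (fun _ => Bool) false
        (@Bool.rec (fun _ => Bool) false (ih xs) (Nat.beq x.1.2 P.2)) (Nat.beq x.1.1 P.1))
        (Nat.beq x.2 (f P))) M) L

/-- check of the weights -/
def drCheck (n1 n2 q l e1 e2 T1 T2 : ℕ) (L1 L2 : List (ℕ × ℕ)) (DRs : List ((ℕ × ℕ) × ℕ)) : Bool :=
  strict (packR (nat_lit 4) (fun x => strict (Nat.mul (ch T1 (Nat.mod x n1)) (ch T2 (Nat.mod x n2)))
    fun y => Nat.mod (Nat.mul y y) l) q) fun CT =>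
  strict (packR (nat_lit 4) (bet q l) q) fun BT =>
  strict (packR (nat_lit 4) (gam q l) q) fun GT =>
  eqW (drow q l e1 e2 CT BT GT L2) L1 DRs

/-! ### specifications -/

open T6

section Spec

variable {n1 n2 l e1 e2 T1 T2 : ℕ} {L1 L2 : List (ℕ × ℕ)}

/-- the standard weights -/
def DRstd (n1 n2 l e1 e2 T1 T2 : ℕ) (L1 L2 : List (ℕ × ℕ)) : List ((ℕ × ℕ) × ℕ) :=
  L1.map fun P => (P, packL (2 ^ 48) (gW n1 n2 l e1 e2 T1 T2 P) L2)

lemma eqW_spec {f : ℕ × ℕ → ℕ} {L : List (ℕ × ℕ)} {M : List ((ℕ × ℕ) × ℕ)}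
    (h : eqW f L M = true) : M = L.map fun P => (P, f P) := by
  induction L generalizing M with
  | nil =>
    cases M with
    | nil => rfl
    | cons x xs => exact absurd h (by simp [eqW])
  | cons P L ih =>
    cases M with
    | nil => exact absurd h (by simp [eqW])
    | cons x xs =>
      have h' : @Bool.rec (fun _ => Bool) false (@Bool.rec (fun _ => Bool) false
        (@Bool.rec (fun _ => Bool) false (eqW f L xs) (Nat.beq x.1.2 P.2)) (Nat.beq x.1.1 P.1))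
        (Nat.beq x.2 (f P)) = true := h
      cases h1 : Nat.beq x.2 (f P) with
      | false => rw [h1] at h'; simp at h'
      | true =>
        rw [h1] at h'
        cases h2 : Nat.beq x.1.1 P.1 with
        | false => rw [h2] at h'; simp at h'
        | true =>
          rw [h2] at h'
          cases h3 : Nat.beq x.1.2 P.2 with
          | false => rw [h3] at h'; simp at h'
          | true =>
            rw [h3] at h'
            have := ih h'
            rw [this, List.map_cons]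
            congr 1
            obtain ⟨⟨x1, x2⟩, x3⟩ := x
            simp only [Nat.beq_eq] at h1 h2 h3
            rw [h1, h2, h3]

lemma drCheck_spec {DRs : List ((ℕ × ℕ) × ℕ)}
    (h : drCheck n1 n2 (n1 * n2) l e1 e2 T1 T2 L1 L2 DRs = true) :
    DRs = DRstd n1 n2 l e1 e2 T1 T2 L1 L2 := by
  unfold drCheck at h
  rw [strict_eq, strict_eq, strict_eq] at h
  have hC : packR 4 (fun x => strict (Nat.mul (ch T1 (Nat.mod x n1)) (ch T2 (Nat.mod x n2)))
      fun y => Nat.mod (Nat.mul y y) l) (n1 * n2) = CTf n1 n2 l T1 T2 := by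
    unfold CTf
    congr 1
    funext x
    rw [strict_eq]
    rfl
  rw [hC] at h
  rw [eqW_spec h]
  unfold DRstd
  apply List.map_congr_left
  intro P _
  congr 1
  unfold drow
  have : (281474976710656 : ℕ) = 2 ^ 48 := by norm_num
  rw [← this]
  apply packL_congr
  intro Q _
  rw [strict_eq, strict_eq]
  rfl

/-- the coefficient of a column -/
def co (l w0 w1 w2 u : ℕ) : ℕ :=
  w0 * (dg 16 u 0 % l) + (w1 * (dg 16 u 1 % l) + w2 * (dg 16 u 2 % l))

lemma rowS1_eq (l w0 w1 w2 : ℕ) (Y f : ℕ × ℕ → ℕ) (L : List (ℕ × ℕ))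
    (h : ∀ Q ∈ L, f Q < 2 ^ 48) :
    rowS1 l w0 w1 w2 (L.map fun Q => (Q, Y Q)) (packL (2 ^ 48) f L) =
      (L.map fun Q => co l w0 w1 w2 (f Q) * Y Q).sum := by
  induction L with
  | nil => rfl
  | cons Q Qs ih =>
    rw [List.map_cons, List.map_cons, List.sum_cons, packL_cons,
      ← ih (fun y hy => h y (by simp [hy]))]
    have g := h Q (by simp)
    set R := packL (2 ^ 48) f Qs with hR
    have key : rowS1 l w0 w1 w2 ((Q, Y Q) :: Qs.map fun Q => (Q, Y Q)) (f Q + 2 ^ 48 * R) =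
        strict ((f Q + 2 ^ 48 * R) / 281474976710656) (fun V =>
        (w0 * (dg 16 (f Q + 2 ^ 48 * R) 0 % l) + (w1 * (dg 16 (f Q + 2 ^ 48 * R) 1 % l) +
          w2 * (dg 16 (f Q + 2 ^ 48 * R) 2 % l))) * Y Q +
          rowS1 l w0 w1 w2 (Qs.map fun Q => (Q, Y Q)) V) := rfl
    rw [key, strict_eq, dg_low _ _ _ (by norm_num) g, dg_low _ _ _ (by norm_num) g,
      dg_low _ _ _ (by norm_num) g]
    have d1 : (f Q + 2 ^ 48 * R) / 281474976710656 = R := by
      norm_num at g ⊢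
      omega
    rw [d1]
    rfl

/-- the coefficient functions are really functions -/
def CFok {α : Type} (cf : CF α) (n : ℕ) (c : α) : Prop :=
  ∃ P R S : ℕ, ∀ k, cf n c k = k P R S

/-- one of the three sums over representatives -/
def zW {α : Type} (n1 n2 l T1 T2 : ℕ) (L1 L2 : List (ℕ × ℕ)) (w : ℕ × ℕ → ℕ × ℕ → ℕ) (cf : CF α)
    (c c2 : α) : ℕ :=
  (L2.map fun Q => ((L1.map fun P => vF n1 T1 cf c P * w P Q).sum % l) * vF n2 T2 cf c2 Q).sum

lemma vF_lt {α : Type} {n T : ℕ} {cf : CF α} {c : α} (h : CFok cf n c) (Q : ℕ × ℕ) :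
    vF n T cf c Q < 16 := by
  obtain ⟨P, R, S, hk⟩ := h
  unfold vF
  rw [hk]
  exact ch_lt _ _

/-- the entry of the table -/
def entF {α : Type} (n1 n2 l e1 e2 T1 T2 : ℕ) (L1 L2 : List (ℕ × ℕ)) (f : WF α) (c c2 : α) : ℕ :=
  f.2.1 * zW n1 n2 l T1 T2 L1 L2 (wD n1 n2 l e1 e2 T1 T2) f.1 c c2 +
  f.2.2.1 * zW n1 n2 l T1 T2 L1 L2 (wE1 n1 n2 l e1 e2 T1 T2) f.1 c c2 +
  f.2.2.2 * zW n1 n2 l T1 T2 L1 L2 (wE2 n1 n2 l e1 e2 T1 T2) f.1 c c2

lemma inner_lt (H3 : 3 ≤ l) (H16 : l ≤ 16) (Hq : n1 * n2 ≤ 1000) (Hl1 : L1.length ≤ 100)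
    (v : ℕ × ℕ → ℕ) (hv : ∀ P, v P < 16) (Q : ℕ × ℕ) :
    (L1.map fun P => v P * gW n1 n2 l e1 e2 T1 T2 P Q).sum < 2 ^ 48 := by
  apply list_sum_lt L1 _ (15 * (15 + 2 ^ 16 * 15 + 2 ^ 32 * 15))
  · intro P _
    have h1 : v P ≤ 15 := by have := hv P; omega
    have h2 := wD_lt (n1 := n1) (n2 := n2) (e1 := e1) (e2 := e2) (T1 := T1) (T2 := T2) H3 H16 P Q
    have h3 := wE1_lt (n1 := n1) (n2 := n2) (e1 := e1) (e2 := e2) (T1 := T1) (T2 := T2) H3 H16 P Q
    have h4 := wE2_lt (n1 := n1) (n2 := n2) (e1 := e1) (e2 := e2) (T1 := T1) (T2 := T2) H3 H16 P Q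
    have hgW : gW n1 n2 l e1 e2 T1 T2 P Q = wD n1 n2 l e1 e2 T1 T2 P Q +
      2 ^ 16 * wE1 n1 n2 l e1 e2 T1 T2 P Q + 2 ^ 32 * wE2 n1 n2 l e1 e2 T1 T2 P Q :=
      dfull_eq _ _ _ _ _ _ _ Hq
    rw [hgW]
    apply Nat.mul_le_mul h1
    have h5 : 2 ^ 16 * wE1 n1 n2 l e1 e2 T1 T2 P Q ≤ 2 ^ 16 * 15 := Nat.mul_le_mul_left _ h3
    have h6 : 2 ^ 32 * wE2 n1 n2 l e1 e2 T1 T2 P Q ≤ 2 ^ 32 * 15 := Nat.mul_le_mul_left _ h4
    omega
  · have : L1.length * (15 * (15 + 2 ^ 16 * 15 + 2 ^ 32 * 15)) ≤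
        100 * (15 * (15 + 2 ^ 16 * 15 + 2 ^ 32 * 15)) := Nat.mul_le_mul_right _ Hl1
    norm_num at this ⊢
    omega

lemma rowF_eq {α : Type} (H3 : 3 ≤ l) (H16 : l ≤ 16) (Hq : n1 * n2 ≤ 1000)
    (Hl1 : L1.length ≤ 100) (V : ℕ) (f : WF α) (D2 : List α) (c : α) (hc : CFok f.1 n1 c) :
    rowF n1 l T1 f.1 f.2.1 f.2.2.1 f.2.2.2 (DRstd n1 n2 l e1 e2 T1 T2 L1 L2)
      (L2.map fun Q => (Q, colF V n2 T2 f.1 D2 Q)) c =
      packL V (entF n1 n2 l e1 e2 T1 T2 L1 L2 f c) D2 := by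
  have hv : ∀ P, vF n1 T1 f.1 c P < 16 := fun P => vF_lt hc P
  obtain ⟨p, r, s, hk⟩ := hc
  have hU : (f.1 n1 c fun P R S => sumL (fun x : (ℕ × ℕ) × ℕ =>
      Nat.mul (ch T1 (NF n1 P R S x.1.1 x.1.2)) x.2) (DRstd n1 n2 l e1 e2 T1 T2 L1 L2)) =
      packL (2 ^ 48) (fun Q => (L1.map fun P => vF n1 T1 f.1 c P *
        gW n1 n2 l e1 e2 T1 T2 P Q).sum) L2 := by
    rw [hk, sumL_eq]
    unfold DRstd
    rw [List.map_map, ← packL_sum]
    congr 1
    apply List.map_congr_left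
    intro P _
    simp only [Function.comp]
    unfold vF
    rw [hk]
    rfl
  unfold rowF
  rw [strict_eq, hU, rowS1_eq _ _ _ _ _ _ _ (fun Q _ => inner_lt H3 H16 Hq Hl1 _ hv Q)]
  have hcol : ∀ Q, colF V n2 T2 f.1 D2 Q = packL V (fun c2 => vF n2 T2 f.1 c2 Q) D2 := fun Q => rfl
  simp only [hcol]
  rw [packL_sum]
  apply packL_congr
  intro c2 _
  unfold entF zW
  rw [← List.sum_map_mul_left, ← List.sum_map_mul_left, ← List.sum_map_mul_left,
    ← List.sum_map_add, ← List.sum_map_add]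
  congr 1
  apply List.map_congr_left
  intro Q _
  obtain ⟨d0, d1, d2⟩ := inner_digits (e1 := e1) (e2 := e2) (T1 := T1) (T2 := T2)
      H3 H16 Hq Hl1 (vF n1 T1 f.1 c) hv Q
  unfold co
  rw [d0, d1, d2]
  ring

/-- the entry for all forms -/
def entA {α : Type} (n1 n2 l e1 e2 T1 T2 : ℕ) (L1 L2 : List (ℕ × ℕ)) (forms : List (WF α))
    (c c2 : α) : ℕ := (forms.map fun f => entF n1 n2 l e1 e2 T1 T2 L1 L2 f c c2).sum

/-- the columns -/
def FYstd {α : Type} (V n2 T2 : ℕ) (D2 : List α) (L2 : List (ℕ × ℕ)) (forms : List (WF α)) :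
    List (WF α × List ((ℕ × ℕ) × ℕ)) :=
  forms.map fun f => (f, L2.map fun Q => (Q, colF V n2 T2 f.1 D2 Q))

lemma withF_eq {α β : Type} (V n T : ℕ) (D : List α) (L : List (ℕ × ℕ)) (forms : List (WF α))
    (k : List (WF α × List ((ℕ × ℕ) × ℕ)) → β) :
    withF V n T D L forms k = k (FYstd V n T D L forms) := by
  induction forms generalizing k with
  | nil => rfl
  | cons f fs ih =>
    have : withF V n T D L (f :: fs) k = mapK (colF V n T f.1 D) L fun Ys =>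
      withF V n T D L fs fun rest => k ((f, Ys) :: rest) := rfl
    rw [this, mapK_eq, ih]
    rfl

lemma rowA_eq {α : Type} (H3 : 3 ≤ l) (H16 : l ≤ 16) (Hq : n1 * n2 ≤ 1000)
    (Hl1 : L1.length ≤ 100) (V : ℕ) (forms : List (WF α)) (D2 : List α) (c : α)
    (hc : ∀ f ∈ forms, CFok f.1 n1 c) :
    rowA n1 l T1 (DRstd n1 n2 l e1 e2 T1 T2 L1 L2) (FYstd V n2 T2 D2 L2 forms) c =
      packL V (entA n1 n2 l e1 e2 T1 T2 L1 L2 forms c) D2 := by
  unfold rowA
  rw [sumL_eq]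
  unfold FYstd
  rw [List.map_map]
  have : (forms.map ((fun f : WF α × List ((ℕ × ℕ) × ℕ) =>
      rowF n1 l T1 f.1.1 f.1.2.1 f.1.2.2.1 f.1.2.2.2 (DRstd n1 n2 l e1 e2 T1 T2 L1 L2) f.2 c) ∘
      fun f => (f, L2.map fun Q => (Q, colF V n2 T2 f.1 D2 Q)))) =
      forms.map fun f => packL V (entF n1 n2 l e1 e2 T1 T2 L1 L2 f c) D2 := by
    apply List.map_congr_left
    intro f hf
    simp only [Function.comp]
    exact rowF_eq H3 H16 Hq Hl1 V f D2 c (hc f hf)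
  rw [this]
  have h2 := packL_sum V (fun _ : WF α => 1) (fun f => entF n1 n2 l e1 e2 T1 T2 L1 L2 f c) forms D2
  simp only [one_mul] at h2
  rw [h2]
  rfl

/-- digits of the table -/
theorem checkF_spec {α : Type} (H3 : 3 ≤ l) (H16 : l ≤ 16) (Hq : n1 * n2 ≤ 1000)
    (Hl1 : L1.length ≤ 100) {v W : ℕ} {forms : List (WF α)} {D1 D2 : List α}
    {TB : ℕ} {DRs : List ((ℕ × ℕ) × ℕ)} (hDR : DRs = DRstd n1 n2 l e1 e2 T1 T2 L1 L2)
    (hok : ∀ c ∈ D1, ∀ f ∈ forms, CFok f.1 n1 c)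
    (hlt : ∀ c ∈ D1, ∀ c2 ∈ D2, entA n1 n2 l e1 e2 T1 T2 L1 L2 forms c c2 < 2 ^ v)
    (h : checkF (2 ^ v) W n1 n2 l T1 T2 DRs forms L2 D1 D2 TB = true) (i j : ℕ)
    (hi : i < D1.length) (hj : j < D2.length) :
    dg v (dg W TB i) j = entA n1 n2 l e1 e2 T1 T2 L1 L2 forms D1[i] D2[j] := by
  unfold checkF at h
  rw [withF_eq] at h
  have h1 := allI_spec (i := 0) h i hi
  rw [zero_add] at h1
  have h2 := Nat.eq_of_beq_eq_true h1
  rw [h2, hDR, rowA_eq H3 H16 Hq Hl1 _ _ _ _ (hok _ (List.getElem_mem hi)), dg_eq, pow_mul]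
  exact packL_digit (hlt _ (List.getElem_mem hi)) j hj

lemma V72_eq : V72 = 2 ^ 72 := by unfold V72; norm_num

lemma lanes_spec {α : Type} {l : ℕ} {D : List α} {t r : ℕ} (h : lanes l D t r = true) :
    ∀ j < D.length, dg 12 t j = red l (dg 72 r j) := by
  induction D generalizing t r with
  | nil => intro j hj; simp at hj
  | cons x xs ih =>
    have h' : @Bool.rec (fun _ => Bool) false (strict (t / 4096) fun t' =>
      strict (r / V72) fun r' => lanes l xs t' r')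
      (Nat.beq (t % 4096) (red l (r % V72))) = true := h
    rw [strict_eq, strict_eq, V72_eq] at h'
    cases h1 : Nat.beq (t % 4096) (red l (r % 2 ^ 72)) with
    | false => rw [h1] at h'; simp at h'
    | true =>
      rw [h1] at h'
      intro j hj
      cases j with
      | zero =>
        have := Nat.eq_of_beq_eq_true h1
        rw [dg_eq, dg_eq, mul_zero, mul_zero, pow_zero, Nat.div_one, Nat.div_one, ← this]
        norm_num
      | succ j =>
        have h2 := ih h' j (by simpa using hj)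
        rw [dg_eq, dg_eq] at h2 ⊢
        have e1 : t / 4096 / 2 ^ (12 * j) = t / 2 ^ (12 * (j + 1)) := by
          rw [Nat.div_div_eq_div_mul, mul_add, pow_add, mul_comm]
          norm_num
        have e2 : r / 2 ^ 72 / 2 ^ (72 * j) = r / 2 ^ (72 * (j + 1)) := by
          rw [Nat.div_div_eq_div_mul, mul_add, pow_add, mul_comm, mul_one]
        rw [e1, e2] at h2
        exact h2

/-- entries of the reduced table -/
theorem checkR_spec {α : Type} (H3 : 3 ≤ l) (H16 : l ≤ 16) (Hq : n1 * n2 ≤ 1000)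
    (Hl1 : L1.length ≤ 100) {W : ℕ} {forms : List (WF α)} {D1 D2 : List α}
    {TB : ℕ} {DRs : List ((ℕ × ℕ) × ℕ)} (hDR : DRs = DRstd n1 n2 l e1 e2 T1 T2 L1 L2)
    (hok : ∀ c ∈ D1, ∀ f ∈ forms, CFok f.1 n1 c)
    (hlt : ∀ c ∈ D1, ∀ c2 ∈ D2, entA n1 n2 l e1 e2 T1 T2 L1 L2 forms c c2 < 2 ^ 72)
    (h : checkR W n1 n2 l T1 T2 DRs forms L2 D1 D2 TB = true) (i j : ℕ)
    (hi : i < D1.length) (hj : j < D2.length) :
    dg 12 (dg W TB i) j = red l (entA n1 n2 l e1 e2 T1 T2 L1 L2 forms D1[i] D2[j]) := by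
  unfold checkR at h
  rw [withF_eq] at h
  have h1 := allI_spec (i := 0) h i hi
  rw [strict_eq, strict_eq, zero_add] at h1
  have h2 := lanes_spec h1 j hj
  rw [h2, hDR, rowA_eq H3 H16 Hq Hl1 _ _ _ _ (hok _ (List.getElem_mem hi)), V72_eq]
  congr 1
  rw [dg_eq, pow_mul]
  exact packL_digit (hlt _ (List.getElem_mem hi)) j hj

/-- digits of a reduced entry -/
lemma red_digits {l x y z : ℕ} (hl : 0 < l) (hl16 : l ≤ 16) (hx : x < 2 ^ 24) (hy : y < 2 ^ 24)
    (hz : z < 2 ^ 24) : dg 4 (red l (x + 2 ^ 24 * y + 2 ^ 48 * z)) 0 = x % l ∧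
      dg 4 (red l (x + 2 ^ 24 * y + 2 ^ 48 * z)) 1 = y % l ∧
      dg 4 (red l (x + 2 ^ 24 * y + 2 ^ 48 * z)) 2 = z % l := by
  have h1 : dg 24 (x + 2 ^ 24 * y + 2 ^ 48 * z) 0 = x ∧ dg 24 (x + 2 ^ 24 * y + 2 ^ 48 * z) 1 = y ∧
      dg 24 (x + 2 ^ 24 * y + 2 ^ 48 * z) 2 = z := by
    simp only [dg_eq]
    norm_num
    norm_num at hx hy hz
    omega
  have h2 : red l (x + 2 ^ 24 * y + 2 ^ 48 * z) = x % l + 16 * (y % l + 16 * (z % l)) := by
    change dg 24 _ 0 % l + 16 * (dg 24 _ 1 % l + 16 * (dg 24 _ 2 % l)) = _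
    rw [h1.1, h1.2.1, h1.2.2]
  rw [h2]
  have m1 := Nat.mod_lt x hl
  have m2 := Nat.mod_lt y hl
  have m3 := Nat.mod_lt z hl
  simp only [dg_eq]
  norm_num
  omega

end Spec

end Pool.Agent.LibH4.KF
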