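import Pool.Agent.Lib_helper4.KF

/-!
Meaning of the table entries.
-/

namespace Pool.Agent.LibH4.KF

open Finset Ker T6

/-- an integral form over `ZMod n` -/
def fz (n : ℕ) (P R S : ℤ) (x y : ZMod n) : ZMod n :=
  (P : ZMod n) * x ^ 2 + (R : ZMod n) * x * y + (S : ZMod n) * y ^ 2

/-- the class `c` represents the form `P, R, S` -/
def Rep {α : Type} (cf : CF α) (n : ℕ) (c : α) (P R S : ℤ) : Prop :=
  ∃ p r s : ℕ, (∀ k, cf n c k = k p r s) ∧ (p : ZMod n) = P ∧ (r : ZMod n) = R ∧ (s : ZMod n) = S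

lemma Rep.ok {α : Type} {cf : CF α} {n : ℕ} {c : α} {P R S : ℤ} (h : Rep cf n c P R S) :
    CFok cf n c := by
  obtain ⟨p, r, s, hk, -⟩ := h
  exact ⟨p, r, s, hk⟩

lemma vF_val {α : Type} {n : ℕ} [NeZero n] {T : ℕ} {cf : CF α} {c : α} {P R S : ℤ}
    (h : Rep cf n c P R S) (Q : ℕ × ℕ) :
    vF n T cf c Q = ch T (fz n P R S (Q.1 : ZMod n) (Q.2 : ZMod n)).val := by
  obtain ⟨p, r, s, hk, hp, hr, hs⟩ := h
  unfold vF
  rw [hk]
  congr 1
  have h1 : NF n p r s Q.1 Q.2 = (Q.1 * (p * Q.1 + r * Q.2) + s * (Q.2 * Q.2)) % n := rfl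
  rw [h1, ← ZMod.val_natCast]
  congr 1
  unfold fz
  push_cast
  rw [hp, hr, hs]
  ring

section Sums

variable {q l : ℕ} [NeZero q]

/-- first sum -/
def XX (chi : ZMod q → ZMod l) (P R S : ℤ) : ZMod l :=
  ∑ x, ∑ y, chi (fz q P R S x y) * (bz q l x * bz q l y)
/-- second sum -/
def YY (chi : ZMod q → ZMod l) (P R S : ℤ) : ZMod l :=
  ∑ x, ∑ y, chi (fz q P R S x y) * gz q l y
/-- third sum -/
def YX (chi : ZMod q → ZMod l) (P R S : ℤ) : ZMod l :=
  ∑ x, ∑ y, chi (fz q P R S x y) * gz q l x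

/-- symmetry -/
lemma XX_swap (chi : ZMod q → ZMod l) (hodd : ∀ x, chi (-x) = - chi x) (P R S : ℤ) :
    XX chi (-S) R (-P) = XX chi P R S := by
  unfold XX
  rw [Finset.sum_comm]
  apply Finset.sum_congr rfl
  intro x _
  rw [← Equiv.sum_comp (Equiv.neg (ZMod q))]
  apply Finset.sum_congr rfl
  intro y _
  have e : fz q (-S) R (-P) ((Equiv.neg (ZMod q)) y) x = - fz q P R S x y := by
    unfold fz
    simp only [Equiv.neg_apply]
    push_cast
    ring
  rw [e, hodd]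
  have hb : bz q l ((Equiv.neg (ZMod q)) y) = - bz q l y := by
    rw [Equiv.neg_apply]
    unfold bz bI
    by_cases hy : y = 0
    · subst hy; simp
    · have : NeZero y := ⟨hy⟩
      have hv : (-y).val = q - y.val := ZMod.val_neg_of_ne_zero y
      have hlt := ZMod.val_lt y
      have hpos : 0 < y.val := by
        rw [Nat.pos_iff_ne_zero, Ne, ZMod.val_eq_zero]
        exact hy
      rw [hv, if_neg (by omega), if_neg (by omega), Nat.cast_sub hlt.le]
      ring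
  rw [hb]
  ring

/-- symmetry -/
lemma YX_swap (chi : ZMod q → ZMod l) (hodd : ∀ x, chi (-x) = - chi x) (P R S : ℤ) :
    YX chi (-S) R (-P) = - YY chi P R S := by
  unfold YX YY
  rw [Finset.sum_comm, ← Finset.sum_neg_distrib]
  apply Finset.sum_congr rfl
  intro x _
  rw [← Equiv.sum_comp (Equiv.neg (ZMod q)), ← Finset.sum_neg_distrib]
  apply Finset.sum_congr rfl
  intro y _
  have e : fz q (-S) R (-P) ((Equiv.neg (ZMod q)) y) x = - fz q P R S x y := by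
    unfold fz
    simp only [Equiv.neg_apply]
    push_cast
    ring
  rw [e, hodd]
  have hb : gz q l ((Equiv.neg (ZMod q)) y) = gz q l y := by
    rw [Equiv.neg_apply]
    unfold gz b2I
    by_cases hy : y = 0
    · subst hy; simp
    · have : NeZero y := ⟨hy⟩
      have hv : (-y).val = q - y.val := ZMod.val_neg_of_ne_zero y
      have hlt := ZMod.val_lt y
      rw [hv, Nat.cast_sub hlt.le]
      ring
  rw [hb]
  ring

end Sums

section Cast

variable {n1 n2 l e1 e2 T1 T2 : ℕ} {L1 L2 : List (ℕ × ℕ)} [NeZero n1] [NeZero n2]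
    [NeZero (n1 * n2)]

omit [NeZero n1] [NeZero n2] [NeZero (n1 * n2)] in
lemma map_fz {R' : ℕ} (h : R' ∣ n1 * n2) (P R S : ℤ) (x y : ZMod (n1 * n2)) :
    ZMod.castHom h (ZMod R') (fz (n1 * n2) P R S x y) = fz R' P R S (ZMod.castHom h (ZMod R') x)
      (ZMod.castHom h (ZMod R') y) := by
  unfold fz
  simp only [map_add, map_mul, map_pow, map_intCast]

/-- values of the character on a form -/
lemma chiF_fz (H : Hyp n1 n2 l e1 e2 T1 T2 L1 L2) (P R S : ℤ) (p Q : ℕ × ℕ) :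
    chiF n1 n2 l T1 T2 (fz (n1 * n2) P R S ((p.1 * e1 + Q.1 * e2 : ℕ) : ZMod (n1 * n2))
      ((p.2 * e1 + Q.2 * e2 : ℕ) : ZMod (n1 * n2))) =
    (ch T1 (fz n1 P R S (p.1 : ZMod n1) (p.2 : ZMod n1)).val : ZMod l) *
    (ch T2 (fz n2 P R S (Q.1 : ZMod n2) (Q.2 : ZMod n2)).val : ZMod l) := by
  rw [chiF_castHom, map_fz, map_fz]
  simp only [map_natCast]
  push_cast
  rw [H.h11, H.h12, H.h21, H.h22]
  simp

/-- sums over residues as double sums over representatives -/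
lemma sum_form (H : Hyp n1 n2 l e1 e2 T1 T2 L1 L2) (P R S : ℤ)
    (w : ZMod (n1 * n2) → ZMod (n1 * n2) → ZMod l) :
    ∑ x, ∑ y, chiF n1 n2 l T1 T2 (fz (n1 * n2) P R S x y) * w x y =
      (L2.map fun Q => (L1.map fun p =>
        ((ch T1 (fz n1 P R S (p.1 : ZMod n1) (p.2 : ZMod n1)).val : ZMod l) *
        (ch T2 (fz n2 P R S (Q.1 : ZMod n2) (Q.2 : ZMod n2)).val : ZMod l)) *
        ∑ z, chiF n1 n2 l T1 T2 z ^ 2 * w (z * ((p.1 * e1 + Q.1 * e2 : ℕ) : ZMod (n1 * n2)))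
          (z * ((p.2 * e1 + Q.2 * e2 : ℕ) : ZMod (n1 * n2)))).sum).sum := by
  have hL := isP1_mul H.co H.h11 H.h12 H.h21 H.h22 H.p1 H.p2
  have h0 := form_sum hL (chiF n1 n2 l T1 T2) (chiF_mul H) (chiF_nu H) (P : ZMod (n1 * n2))
    (R : ZMod (n1 * n2)) (S : ZMod (n1 * n2)) w
  unfold fz at *
  rw [h0, list_sum_comm]
  unfold crtList
  rw [list_sum_flatMap]
  congr 1
  apply List.map_congr_left
  intro p _
  rw [List.map_map]
  congr 1
  apply List.map_congr_left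
  intro Q _
  simp only [Function.comp]
  have := chiF_fz H P R S p Q
  unfold fz at this
  rw [this]

/-- cast of the sums over representatives -/
lemma zW_cast (w : ℕ × ℕ → ℕ × ℕ → ℕ) {α : Type} {cf : CF α} {c c2 : α} {P R S : ℤ}
    (hc : Rep cf n1 c P R S) (hc2 : Rep cf n2 c2 P R S) :
    (zW n1 n2 l T1 T2 L1 L2 w cf c c2 : ZMod l) = (L2.map fun Q => (L1.map fun p =>
        ((ch T1 (fz n1 P R S (p.1 : ZMod n1) (p.2 : ZMod n1)).val : ZMod l) *
        (ch T2 (fz n2 P R S (Q.1 : ZMod n2) (Q.2 : ZMod n2)).val : ZMod l)) *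
        (w p Q : ZMod l)).sum).sum := by
  unfold zW
  rw [Nat.cast_list_sum, List.map_map]
  congr 1
  apply List.map_congr_left
  intro Q _
  simp only [Function.comp]
  push_cast
  rw [ZMod.natCast_mod, Nat.cast_list_sum, List.map_map, ← List.sum_map_mul_right]
  congr 1
  apply List.map_congr_left
  intro p _
  simp only [Function.comp]
  push_cast
  rw [vF_val hc, vF_val hc2]
  ring

lemma z0_cast (H : Hyp n1 n2 l e1 e2 T1 T2 L1 L2) {α : Type} {cf : CF α} {c c2 : α} {P R S : ℤ}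
    (hc : Rep cf n1 c P R S) (hc2 : Rep cf n2 c2 P R S) :
    (zW n1 n2 l T1 T2 L1 L2 (wD n1 n2 l e1 e2 T1 T2) cf c c2 : ZMod l) =
      XX (chiF n1 n2 l T1 T2) P R S := by
  unfold XX
  rw [zW_cast _ hc hc2, sum_form H P R S (fun x y => bz (n1 * n2) l x * bz (n1 * n2) l y)]
  simp only [wD_cast H]
  rfl

lemma z1_cast (H : Hyp n1 n2 l e1 e2 T1 T2 L1 L2) {α : Type} {cf : CF α} {c c2 : α} {P R S : ℤ}
    (hc : Rep cf n1 c P R S) (hc2 : Rep cf n2 c2 P R S) :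
    (zW n1 n2 l T1 T2 L1 L2 (wE1 n1 n2 l e1 e2 T1 T2) cf c c2 : ZMod l) =
      YY (chiF n1 n2 l T1 T2) P R S := by
  unfold YY
  rw [zW_cast _ hc hc2, sum_form H P R S (fun x y => gz (n1 * n2) l y)]
  simp only [wE1_cast H]
  rfl

lemma z2_cast (H : Hyp n1 n2 l e1 e2 T1 T2 L1 L2) {α : Type} {cf : CF α} {c c2 : α} {P R S : ℤ}
    (hc : Rep cf n1 c P R S) (hc2 : Rep cf n2 c2 P R S) :
    (zW n1 n2 l T1 T2 L1 L2 (wE2 n1 n2 l e1 e2 T1 T2) cf c c2 : ZMod l) =
      YX (chiF n1 n2 l T1 T2) P R S := by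
  unfold YX
  rw [zW_cast _ hc hc2, sum_form H P R S (fun x y => gz (n1 * n2) l x)]
  simp only [wE2_cast H]
  rfl

omit [NeZero n1] [NeZero n2] [NeZero (n1 * n2)] in
/-- bound -/
lemma zW_lt (H3 : 3 ≤ l) (H16 : l ≤ 16) (hL2 : L2.length ≤ 32) {α : Type} {cf : CF α} {c c2 : α}
    (w : ℕ × ℕ → ℕ × ℕ → ℕ) (hc2 : CFok cf n2 c2) :
    zW n1 n2 l T1 T2 L1 L2 w cf c c2 ≤ 7200 := by
  unfold zW
  have : (L2.map fun Q => ((L1.map fun P => vF n1 T1 cf c P * w P Q).sum % l) *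
      vF n2 T2 cf c2 Q).sum < 7201 := by
    apply list_sum_lt L2 _ 225
    · intro Q _
      have h1 := Nat.mod_lt ((L1.map fun P => vF n1 T1 cf c P * w P Q).sum) (show 0 < l by omega)
      have h2 := vF_lt (T := T2) hc2 Q
      calc _ ≤ 15 * 15 := Nat.mul_le_mul (by omega) (by omega)
        _ = 225 := by norm_num
    · omega
  omega

end Cast

end Pool.Agent.LibH4.KF
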