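import Pool.Agent.Lib_helper4.KR_16_13_5_0
import Pool.Agent.Lib_helper4.KR_16_13_5_1
import Pool.Agent.Lib_helper4.KR_16_13_5_2
import Pool.Agent.Lib_helper4.KR_16_7_13_0
import Pool.Agent.Lib_helper4.KR_13_23_7_0

/-! generated data -/

namespace Pool.Agent.LibH4.KF

open Ker T6

/-- classes -/
def CB11_16 : List (ℕ × ℕ) := [((nat_lit 11), (nat_lit 1)),((nat_lit 11), (nat_lit 3)),((nat_lit 11), (nat_lit 5)),((nat_lit 11), (nat_lit 7)),((nat_lit 11), (nat_lit 9)),((nat_lit 11), (nat_lit 11)),((nat_lit 11), (nat_lit 13)),((nat_lit 11), (nat_lit 15))]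

lemma memB11_16 : memCheck (nat_lit 16) (spc (nat_lit 11) cl2) CB11_16 = true := by decide +kernel

/-- classes -/
def CB11_13 : List (ℕ × ℕ) := [((nat_lit 11), (nat_lit 0)),((nat_lit 11), (nat_lit 2)),((nat_lit 11), (nat_lit 3)),((nat_lit 11), (nat_lit 6)),((nat_lit 11), (nat_lit 7)),((nat_lit 11), (nat_lit 10)),((nat_lit 11), (nat_lit 11))]

lemma memB11_13 : memCheck (nat_lit 13) (spc (nat_lit 11) (clB (nat_lit 13))) CB11_13 = true := by decide +kernel

/-- classes -/
def CB11_5 : List (ℕ × ℕ) := [((nat_lit 1), (nat_lit 2)),((nat_lit 1), (nat_lit 3))]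

lemma memB11_5 : memCheck (nat_lit 5) (spc (nat_lit 1) (clB (nat_lit 5))) CB11_5 = true := by decide +kernel

/-- classes -/
def CB11_7 : List (ℕ × ℕ) := [((nat_lit 4), (nat_lit 2)),((nat_lit 4), (nat_lit 3)),((nat_lit 4), (nat_lit 4)),((nat_lit 4), (nat_lit 5))]

lemma memB11_7 : memCheck (nat_lit 7) (spc (nat_lit 4) (clB (nat_lit 7))) CB11_7 = true := by decide +kernel

/-- classes -/
def CB11_23 : List (ℕ × ℕ) := [((nat_lit 11), (nat_lit 0)),((nat_lit 11), (nat_lit 2)),((nat_lit 11), (nat_lit 5)),((nat_lit 11), (nat_lit 6)),((nat_lit 11), (nat_lit 8)),((nat_lit 11), (nat_lit 11)),((nat_lit 11), (nat_lit 12)),((nat_lit 11), (nat_lit 15)),((nat_lit 11), (nat_lit 17)),((nat_lit 11), (nat_lit 18)),((nat_lit 11), (nat_lit 21))]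

lemma memB11_23 : memCheck (nat_lit 23) (spc (nat_lit 11) (clB (nat_lit 23))) CB11_23 = true := by decide +kernel

/-- table -/
def TBB11_16_13_5_0 : ℕ := nat_lit 14356869994050413807907226479425853724933833565041439923079018868267986757327936125131399908136950988473035543275837429153543299998865365887103178829974256630679632066869296473388425283476911307104260

theorem ctB11_16_13_5_0 : checkR (nat_lit 84) (nat_lit 16) (nat_lit 13) (nat_lit 5) (nat_lit 1166467763814805520) (nat_lit 1183156957090320)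
    DR_16_13_5_0 formsB P13 CB11_16 CB11_13 TBB11_16_13_5_0 = true := by
  decide +kernel

/-- table -/
def TBB11_16_13_5_1 : ℕ := nat_lit 1169125547500342114837855361723352654574225124215896417407972127251983245551829697570292925929324559560092189999207722552914832891296289389086752074685388797436959358066943506196432366001631264770

theorem ctB11_16_13_5_1 : checkR (nat_lit 84) (nat_lit 16) (nat_lit 13) (nat_lit 5) (nat_lit 1161981756374523920) (nat_lit 1183156957090320)
    DR_16_13_5_1 formsB P13 CB11_16 CB11_13 TBB11_16_13_5_1 = true := by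
  decide +kernel

/-- table -/
def TBB11_16_13_5_2 : ℕ := nat_lit 3504524908280018701615184137951232918711591199645575419034813731364170012396919436493738126450051143368401009507837453388778363263311498128587102049977011413721994476072174655773683292442881687555

theorem ctB11_16_13_5_2 : checkR (nat_lit 84) (nat_lit 16) (nat_lit 13) (nat_lit 5) (nat_lit 4625249869016080400) (nat_lit 353030276977680)
    DR_16_13_5_2 formsB P13 CB11_16 CB11_13 TBB11_16_13_5_2 = true := by
  decide +kernel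

/-- table -/
def TBB11_16_7_13_0 : ℕ := nat_lit 25730540463023800808852305644036740438047173127487971006656955128932201933476450617600065517263498388505545904183931

theorem ctB11_16_7_13_0 : checkR (nat_lit 48) (nat_lit 16) (nat_lit 7) (nat_lit 13) (nat_lit 1175581068095410192) (nat_lit 205760784)
    DR_16_7_13_0 formsB P7 CB11_16 CB11_7 TBB11_16_7_13_0 = true := by
  decide +kernel

/-- table -/
def TBB11_13_23_7_0 : ℕ := nat_lit 11739804040397548875894788719404330631863547187035545014755529161785499074240633190028667634502067774000146121613868248479230807612370377021816322101805685485453865579981637218346661394105729491569710352438135982724738664819950462349593788548632391942213692788396723208113701200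

theorem ctB11_13_23_7_0 : checkR (nat_lit 132) (nat_lit 13) (nat_lit 23) (nat_lit 7) (nat_lit 371936440100112) (nat_lit 1980680358766547984887910672)
    DR_13_23_7_0 formsB P23 CB11_13 CB11_23 TBB11_13_23_7_0 = true := by
  decide +kernel

/-- stage -/
def stB11_4 (a7 r_13_23_7_0 t7 : ℕ) : Bool :=
  allI (fun i23 c23 =>
    imp (chkB (nat_lit 7) (dg (nat_lit 12) r_13_23_7_0 i23) a7 t7) <|
    false) CB11_23 (nat_lit 0)

/-- stage -/
def stB11_3 (a13 r_13_23_7_0 r_16_7_13_0 t13 : ℕ) : Bool :=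
  allI (fun i7 c7 =>
    imp (chkB (nat_lit 13) (dg (nat_lit 12) r_16_7_13_0 i7) a13 t13) <|
    stB11_4 c7.1 r_13_23_7_0 c7.2) CB11_7 (nat_lit 0)

/-- stage -/
def stB11_2 (a13 e_16_13_5_0 e_16_13_5_1 e_16_13_5_2 r_13_23_7_0 r_16_7_13_0 t13 : ℕ) : Bool :=
  allI (fun i5 c5 =>
    imp (chkB (nat_lit 5) e_16_13_5_0 c5.1 c5.2) <|
    imp (chkB (nat_lit 5) e_16_13_5_1 c5.1 c5.2) <|
    imp (chkB (nat_lit 5) e_16_13_5_2 c5.1 c5.2) <|
    stB11_3 a13 r_13_23_7_0 r_16_7_13_0 t13) CB11_5 (nat_lit 0)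

/-- stage -/
def stB11_1 (r_16_13_5_0 r_16_13_5_1 r_16_13_5_2 r_16_7_13_0 : ℕ) : Bool :=
  allI (fun i13 c13 =>
    strict (dg (nat_lit 12) r_16_13_5_0 i13) fun e_16_13_5_0 =>
    strict (dg (nat_lit 12) r_16_13_5_1 i13) fun e_16_13_5_1 =>
    strict (dg (nat_lit 12) r_16_13_5_2 i13) fun e_16_13_5_2 =>
    strict (dg (nat_lit 132) TBB11_13_23_7_0 i13) fun r_13_23_7_0 =>
    stB11_2 c13.1 e_16_13_5_0 e_16_13_5_1 e_16_13_5_2 r_13_23_7_0 r_16_7_13_0 c13.2) CB11_13 (nat_lit 0)

/-- stage -/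
def bdB11 (i16 : ℕ) (c16 : ℕ × ℕ) : Bool :=
    strict (dg (nat_lit 84) TBB11_16_13_5_0 i16) fun r_16_13_5_0 =>
    strict (dg (nat_lit 84) TBB11_16_13_5_1 i16) fun r_16_13_5_1 =>
    strict (dg (nat_lit 84) TBB11_16_13_5_2 i16) fun r_16_13_5_2 =>
    strict (dg (nat_lit 48) TBB11_16_7_13_0 i16) fun r_16_7_13_0 =>
    stB11_1 r_16_13_5_0 r_16_13_5_1 r_16_13_5_2 r_16_7_13_0

theorem allB11 : allI (fun i c => bdB11 i c) CB11_16 (nat_lit 0) = true := by
  decide +kernel

theorem falseB11 {a t : ℕ} {i16 i13 i5 i7 i23 : ℕ}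
    (b16 : i16 < CB11_16.length)
    (b13 : i13 < CB11_13.length)
    (b5 : i5 < CB11_5.length)
    (b7 : i7 < CB11_7.length)
    (b23 : i23 < CB11_23.length)
    (top : bdB11 i16 CB11_16[i16] = true)
    (h16 : CB11_16[i16] = (a % 16, t % 16))
    (h13 : CB11_13[i13] = (a % 13, t % 13))
    (h5 : CB11_5[i5] = (a % 5, t % 5))
    (h7 : CB11_7[i7] = (a % 7, t % 7))
    (h23 : CB11_23[i23] = (a % 23, t % 23))
    (r_16_13_5_0 : chkB 5 (dg 12 (dg 84 TBB11_16_13_5_0 i16) i13) (a % 5) (t % 5) = true)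
    (r_16_13_5_1 : chkB 5 (dg 12 (dg 84 TBB11_16_13_5_1 i16) i13) (a % 5) (t % 5) = true)
    (r_16_13_5_2 : chkB 5 (dg 12 (dg 84 TBB11_16_13_5_2 i16) i13) (a % 5) (t % 5) = true)
    (r_16_7_13_0 : chkB 13 (dg 12 (dg 48 TBB11_16_7_13_0 i16) i7) (a % 13) (t % 13) = true)
    (r_13_23_7_0 : chkB 7 (dg 12 (dg 132 TBB11_13_23_7_0 i13) i23) (a % 7) (t % 7) = true)
    : False := by
  try rw [h16] at top
  unfold bdB11 at top
  simp only [strict_eq] at top
  unfold stB11_1 at top
  replace top := allI_get top b13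
  try rw [h13] at top
  simp only [strict_eq] at top
  unfold stB11_2 at top
  replace top := allI_get top b5
  try rw [h5] at top
  replace top := imp_spec top r_16_13_5_0
  replace top := imp_spec top r_16_13_5_1
  replace top := imp_spec top r_16_13_5_2
  unfold stB11_3 at top
  replace top := allI_get top b7
  try rw [h7] at top
  replace top := imp_spec top r_16_7_13_0
  unfold stB11_4 at top
  replace top := allI_get top b23
  try rw [h23] at top
  replace top := imp_spec top r_13_23_7_0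
  exact Bool.false_ne_true top

/-- no large solution with `a = 11` -/
theorem noB11 {a n d : ℕ} (ha : a = 11) (hn2 : n % 2 = 1)
    (hd : (d : ℤ) = ((a : ℤ) * n) ^ 2 + 4 * a)
    (j5 : jacobiSym d 5 = -1)
    (j7 : jacobiSym d 7 = -1)
    (j13 : jacobiSym d 13 = -1)
    (j23 : jacobiSym d 23 = -1)
    (hT : AllB a n d) : False := by
  have ha2 : a % 2 = 1 := by rw [ha]
  have q2 := d2_B hd ha2 hn2
  have q5 : ¬ 5 ∣ d := nd_of (by norm_num) j5
  have q7 : ¬ 7 ∣ d := nd_of (by norm_num) j7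
  have q13 : ¬ 13 ∣ d := nd_of (by norm_num) j13
  have q23 : ¬ 23 ∣ d := nd_of (by norm_num) j23
  have c16 : Nat.Coprime 16 d := cop_of (p := 2) (k := 4) (by norm_num) q2
  have c13 : Nat.Coprime 13 d := cop_of (p := 13) (k := 1) (by norm_num) q13
  have c5 : Nat.Coprime 5 d := cop_of (p := 5) (k := 1) (by norm_num) q5
  have c7 : Nat.Coprime 7 d := cop_of (p := 7) (k := 1) (by norm_num) q7
  have c23 : Nat.Coprime 23 d := cop_of (p := 23) (k := 1) (by norm_num) q23
  obtain ⟨i16, b16, e16⟩ := memCheck_spec memB11_16 (Nat.mod_lt a (by norm_num))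
    (Nat.mod_lt n (by norm_num)) (spc_of (cl2_of (n := 16) (by norm_num) ha2 hn2) (by rw [ha]))
  obtain ⟨i13, b13, e13⟩ := memCheck_spec memB11_13 (Nat.mod_lt a (by norm_num))
    (Nat.mod_lt n (by norm_num)) (spc_of (clB_of (n := 13) (by norm_num) (by norm_num) hd j13) (by rw [ha]))
  obtain ⟨i5, b5, e5⟩ := memCheck_spec memB11_5 (Nat.mod_lt a (by norm_num))
    (Nat.mod_lt n (by norm_num)) (spc_of (clB_of (n := 5) (by norm_num) (by norm_num) hd j5) (by rw [ha]))
  obtain ⟨i7, b7, e7⟩ := memCheck_spec memB11_7 (Nat.mod_lt a (by norm_num))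
    (Nat.mod_lt n (by norm_num)) (spc_of (clB_of (n := 7) (by norm_num) (by norm_num) hd j7) (by rw [ha]))
  obtain ⟨i23, b23, e23⟩ := memCheck_spec memB11_23 (Nat.mod_lt a (by norm_num))
    (Nat.mod_lt n (by norm_num)) (spc_of (clB_of (n := 23) (by norm_num) (by norm_num) hd j23) (by rw [ha]))
  exact falseB11 b16 b13 b5 b7 b23 (allI_get allB11 b16)
    e16 e13 e5 e7 e23
    (chkB_of hyp_16_13_5_0 dr_16_13_5_0 ctB11_16_13_5_0 hT (by norm_num) (by norm_num) (c16.mul_left c13) q5 b16 b13 e16 e13)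
    (chkB_of hyp_16_13_5_1 dr_16_13_5_1 ctB11_16_13_5_1 hT (by norm_num) (by norm_num) (c16.mul_left c13) q5 b16 b13 e16 e13)
    (chkB_of hyp_16_13_5_2 dr_16_13_5_2 ctB11_16_13_5_2 hT (by norm_num) (by norm_num) (c16.mul_left c13) q5 b16 b13 e16 e13)
    (chkB_of hyp_16_7_13_0 dr_16_7_13_0 ctB11_16_7_13_0 hT (by norm_num) (by norm_num) (c16.mul_left c7) q13 b16 b7 e16 e7)
    (chkB_of hyp_13_23_7_0 dr_13_23_7_0 ctB11_13_23_7_0 hT (by norm_num) (by norm_num) (c13.mul_left c23) q7 b13 b23 e13 e23)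

end Pool.Agent.LibH4.KF
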