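import Pool.Agent.Lib_helper4.KR_3_17_5_0
import Pool.Agent.Lib_helper4.KR_17_19_7_0
import Pool.Agent.Lib_helper4.KR_16_19_5_0

/-! generated data -/

namespace Pool.Agent.LibH4.KF

open Ker T6

/-- classes -/
def CB13_17 : List (ℕ × ℕ) := [((nat_lit 13), (nat_lit 2)),((nat_lit 13), (nat_lit 5)),((nat_lit 13), (nat_lit 7)),((nat_lit 13), (nat_lit 8)),((nat_lit 13), (nat_lit 9)),((nat_lit 13), (nat_lit 10)),((nat_lit 13), (nat_lit 12)),((nat_lit 13), (nat_lit 15))]

lemma memB13_17 : memCheck (nat_lit 17) (spc (nat_lit 13) (clB (nat_lit 17))) CB13_17 = true := by decide +kernel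

/-- classes -/
def CB13_3 : List (ℕ × ℕ) := [((nat_lit 1), (nat_lit 1)),((nat_lit 1), (nat_lit 2))]

lemma memB13_3 : memCheck (nat_lit 3) (spc (nat_lit 1) (clB (nat_lit 3))) CB13_3 = true := by decide +kernel

/-- classes -/
def CB13_5 : List (ℕ × ℕ) := [((nat_lit 3), (nat_lit 0)),((nat_lit 3), (nat_lit 2)),((nat_lit 3), (nat_lit 3))]

lemma memB13_5 : memCheck (nat_lit 5) (spc (nat_lit 3) (clB (nat_lit 5))) CB13_5 = true := by decide +kernel

/-- classes -/
def CB13_19 : List (ℕ × ℕ) := [((nat_lit 13), (nat_lit 0)),((nat_lit 13), (nat_lit 1)),((nat_lit 13), (nat_lit 3)),((nat_lit 13), (nat_lit 5)),((nat_lit 13), (nat_lit 6)),((nat_lit 13), (nat_lit 13)),((nat_lit 13), (nat_lit 14)),((nat_lit 13), (nat_lit 16)),((nat_lit 13), (nat_lit 18))]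

lemma memB13_19 : memCheck (nat_lit 19) (spc (nat_lit 13) (clB (nat_lit 19))) CB13_19 = true := by decide +kernel

/-- classes -/
def CB13_7 : List (ℕ × ℕ) := [((nat_lit 6), (nat_lit 0)),((nat_lit 6), (nat_lit 3)),((nat_lit 6), (nat_lit 4))]

lemma memB13_7 : memCheck (nat_lit 7) (spc (nat_lit 6) (clB (nat_lit 7))) CB13_7 = true := by decide +kernel

/-- classes -/
def CB13_16 : List (ℕ × ℕ) := [((nat_lit 13), (nat_lit 1)),((nat_lit 13), (nat_lit 3)),((nat_lit 13), (nat_lit 5)),((nat_lit 13), (nat_lit 7)),((nat_lit 13), (nat_lit 9)),((nat_lit 13), (nat_lit 11)),((nat_lit 13), (nat_lit 13)),((nat_lit 13), (nat_lit 15))]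

lemma memB13_16 : memCheck (nat_lit 16) (spc (nat_lit 13) cl2) CB13_16 = true := by decide +kernel

/-- table -/
def TBB13_3_17_5_0 : ℕ := nat_lit 4597861041048380288425503416636171823431709026160754690

theorem ctB13_3_17_5_0 : checkR (nat_lit 96) (nat_lit 3) (nat_lit 17) (nat_lit 5) (nat_lit 1040) (nat_lit 23207668197802189840)
    DR_3_17_5_0 formsB P17 CB13_3 CB13_17 TBB13_3_17_5_0 = true := by
  decide +kernel

/-- table -/
def TBB13_17_19_7_0 : ℕ := nat_lit 150165003275637670355672470389890738758541143241446555549158816418151294721514374145051959621156837172690134695147332033177309363550596348113846273977766364836038433118328455720119733390183861657961396072181206717364545262933552662229759295136029543300603904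

theorem ctB13_17_19_7_0 : checkR (nat_lit 108) (nat_lit 17) (nat_lit 19) (nat_lit 7) (nat_lit 20038315816949735696) (nat_lit 28965222469048455157008)
    DR_17_19_7_0 formsB P19 CB13_17 CB13_19 TBB13_17_19_7_0 = true := by
  decide +kernel

/-- table -/
def TBB13_16_19_5_0 : ℕ := nat_lit 32200093514661087875587740825689351023689269124623132142873144921642502314173798125739514282556443345163566120708006949206072378708842301743749227267321230837708012817514689296718940796834985078977819391890899056513998035642044010138231539358991837195093083185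

theorem ctB13_16_19_5_0 : checkR (nat_lit 108) (nat_lit 16) (nat_lit 19) (nat_lit 5) (nat_lit 1161981756374523920) (nat_lit 19207979659501056902160)
    DR_16_19_5_0 formsB P19 CB13_16 CB13_19 TBB13_16_19_5_0 = true := by
  decide +kernel

/-- stage -/
def stB13_5 (a5 i19 t5 : ℕ) : Bool :=
  allI (fun i16 c16 =>
    imp (chkB (nat_lit 5) (dg (nat_lit 12) (dg (nat_lit 108) TBB13_16_19_5_0 i16) i19) a5 t5) <|
    false) CB13_16 (nat_lit 0)

/-- stage -/
def stB13_4 (a5 e_17_19_7_0 i19 t5 : ℕ) : Bool :=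
  allI (fun i7 c7 =>
    imp (chkB (nat_lit 7) e_17_19_7_0 c7.1 c7.2) <|
    stB13_5 a5 i19 t5) CB13_7 (nat_lit 0)

/-- stage -/
def stB13_3 (a5 r_17_19_7_0 t5 : ℕ) : Bool :=
  allI (fun i19 c19 =>
    strict (dg (nat_lit 12) r_17_19_7_0 i19) fun e_17_19_7_0 =>
    stB13_4 a5 e_17_19_7_0 i19 t5) CB13_19 (nat_lit 0)

/-- stage -/
def stB13_2 (e_3_17_5_0 r_17_19_7_0 : ℕ) : Bool :=
  allI (fun i5 c5 =>
    imp (chkB (nat_lit 5) e_3_17_5_0 c5.1 c5.2) <|
    stB13_3 c5.1 r_17_19_7_0 c5.2) CB13_5 (nat_lit 0)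

/-- stage -/
def stB13_1 (i17 r_17_19_7_0 : ℕ) : Bool :=
  allI (fun i3 c3 =>
    strict (dg (nat_lit 12) (dg (nat_lit 96) TBB13_3_17_5_0 i3) i17) fun e_3_17_5_0 =>
    stB13_2 e_3_17_5_0 r_17_19_7_0) CB13_3 (nat_lit 0)

/-- stage -/
def bdB13 (i17 : ℕ) (c17 : ℕ × ℕ) : Bool :=
    strict (dg (nat_lit 108) TBB13_17_19_7_0 i17) fun r_17_19_7_0 =>
    stB13_1 i17 r_17_19_7_0

theorem allB13 : allI (fun i c => bdB13 i c) CB13_17 (nat_lit 0) = true := by
  decide +kernel

theorem falseB13 {a t : ℕ} {i17 i3 i5 i19 i7 i16 : ℕ}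
    (b17 : i17 < CB13_17.length)
    (b3 : i3 < CB13_3.length)
    (b5 : i5 < CB13_5.length)
    (b19 : i19 < CB13_19.length)
    (b7 : i7 < CB13_7.length)
    (b16 : i16 < CB13_16.length)
    (top : bdB13 i17 CB13_17[i17] = true)
    (h17 : CB13_17[i17] = (a % 17, t % 17))
    (h3 : CB13_3[i3] = (a % 3, t % 3))
    (h5 : CB13_5[i5] = (a % 5, t % 5))
    (h19 : CB13_19[i19] = (a % 19, t % 19))
    (h7 : CB13_7[i7] = (a % 7, t % 7))
    (h16 : CB13_16[i16] = (a % 16, t % 16))
    (r_3_17_5_0 : chkB 5 (dg 12 (dg 96 TBB13_3_17_5_0 i3) i17) (a % 5) (t % 5) = true)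
    (r_17_19_7_0 : chkB 7 (dg 12 (dg 108 TBB13_17_19_7_0 i17) i19) (a % 7) (t % 7) = true)
    (r_16_19_5_0 : chkB 5 (dg 12 (dg 108 TBB13_16_19_5_0 i16) i19) (a % 5) (t % 5) = true)
    : False := by
  try rw [h17] at top
  unfold bdB13 at top
  simp only [strict_eq] at top
  unfold stB13_1 at top
  replace top := allI_get top b3
  try rw [h3] at top
  simp only [strict_eq] at top
  unfold stB13_2 at top
  replace top := allI_get top b5
  try rw [h5] at top
  replace top := imp_spec top r_3_17_5_0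
  unfold stB13_3 at top
  replace top := allI_get top b19
  try rw [h19] at top
  simp only [strict_eq] at top
  unfold stB13_4 at top
  replace top := allI_get top b7
  try rw [h7] at top
  replace top := imp_spec top r_17_19_7_0
  unfold stB13_5 at top
  replace top := allI_get top b16
  try rw [h16] at top
  replace top := imp_spec top r_16_19_5_0
  exact Bool.false_ne_true top

/-- no large solution with `a = 13` -/
theorem noB13 {a n d : ℕ} (ha : a = 13) (hn2 : n % 2 = 1)
    (hd : (d : ℤ) = ((a : ℤ) * n) ^ 2 + 4 * a)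
    (j3 : jacobiSym d 3 = -1)
    (j5 : jacobiSym d 5 = -1)
    (j7 : jacobiSym d 7 = -1)
    (j17 : jacobiSym d 17 = -1)
    (j19 : jacobiSym d 19 = -1)
    (hT : AllB a n d) : False := by
  have ha2 : a % 2 = 1 := by rw [ha]
  have q2 := d2_B hd ha2 hn2
  have q3 : ¬ 3 ∣ d := nd_of (by norm_num) j3
  have q5 : ¬ 5 ∣ d := nd_of (by norm_num) j5
  have q7 : ¬ 7 ∣ d := nd_of (by norm_num) j7
  have q17 : ¬ 17 ∣ d := nd_of (by norm_num) j17
  have q19 : ¬ 19 ∣ d := nd_of (by norm_num) j19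
  have c17 : Nat.Coprime 17 d := cop_of (p := 17) (k := 1) (by norm_num) q17
  have c3 : Nat.Coprime 3 d := cop_of (p := 3) (k := 1) (by norm_num) q3
  have c5 : Nat.Coprime 5 d := cop_of (p := 5) (k := 1) (by norm_num) q5
  have c19 : Nat.Coprime 19 d := cop_of (p := 19) (k := 1) (by norm_num) q19
  have c7 : Nat.Coprime 7 d := cop_of (p := 7) (k := 1) (by norm_num) q7
  have c16 : Nat.Coprime 16 d := cop_of (p := 2) (k := 4) (by norm_num) q2
  obtain ⟨i17, b17, e17⟩ := memCheck_spec memB13_17 (Nat.mod_lt a (by norm_num))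
    (Nat.mod_lt n (by norm_num)) (spc_of (clB_of (n := 17) (by norm_num) (by norm_num) hd j17) (by rw [ha]))
  obtain ⟨i3, b3, e3⟩ := memCheck_spec memB13_3 (Nat.mod_lt a (by norm_num))
    (Nat.mod_lt n (by norm_num)) (spc_of (clB_of (n := 3) (by norm_num) (by norm_num) hd j3) (by rw [ha]))
  obtain ⟨i5, b5, e5⟩ := memCheck_spec memB13_5 (Nat.mod_lt a (by norm_num))
    (Nat.mod_lt n (by norm_num)) (spc_of (clB_of (n := 5) (by norm_num) (by norm_num) hd j5) (by rw [ha]))
  obtain ⟨i19, b19, e19⟩ := memCheck_spec memB13_19 (Nat.mod_lt a (by norm_num))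
    (Nat.mod_lt n (by norm_num)) (spc_of (clB_of (n := 19) (by norm_num) (by norm_num) hd j19) (by rw [ha]))
  obtain ⟨i7, b7, e7⟩ := memCheck_spec memB13_7 (Nat.mod_lt a (by norm_num))
    (Nat.mod_lt n (by norm_num)) (spc_of (clB_of (n := 7) (by norm_num) (by norm_num) hd j7) (by rw [ha]))
  obtain ⟨i16, b16, e16⟩ := memCheck_spec memB13_16 (Nat.mod_lt a (by norm_num))
    (Nat.mod_lt n (by norm_num)) (spc_of (cl2_of (n := 16) (by norm_num) ha2 hn2) (by rw [ha]))
  exact falseB13 b17 b3 b5 b19 b7 b16 (allI_get allB13 b17)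
    e17 e3 e5 e19 e7 e16
    (chkB_of hyp_3_17_5_0 dr_3_17_5_0 ctB13_3_17_5_0 hT (by norm_num) (by norm_num) (c3.mul_left c17) q5 b3 b17 e3 e17)
    (chkB_of hyp_17_19_7_0 dr_17_19_7_0 ctB13_17_19_7_0 hT (by norm_num) (by norm_num) (c17.mul_left c19) q7 b17 b19 e17 e19)
    (chkB_of hyp_16_19_5_0 dr_16_19_5_0 ctB13_16_19_5_0 hT (by norm_num) (by norm_num) (c16.mul_left c19) q5 b16 b19 e16 e19)

end Pool.Agent.LibH4.KF
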