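import Pool.Agent.Lib_helper4.KData

/-! generated data -/

namespace Pool.Agent.LibH4.KF

open Ker T6

/-- weights -/
def DR_7_17_13_0 : List ((ℕ × ℕ) × ℕ) := [((nat_lit 1, nat_lit 0), nat_lit 26672057737729584223706626039075282143256506798482617200675828640366118913283749350641444730091134373271763706252820012924308401386660599290511776274069422395555869021728310078356060095003490547807928888093778452783460818601575029097013182464),
  ((nat_lit 1, nat_lit 1), nat_lit 114556052695566182759047286503264730197933214283272356683031241458628755352928298739472002079345697977351533878474280871324473553182641502146287249459466963487250118512211760127492466144723801107137257451209469231807561714374468446970414933681452875777),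
  ((nat_lit 1, nat_lit 2), nat_lit 286393846156355292590943606548611857456789431391664245137206951950963217605493836412762677562416573000103114202698036377934268536035551402691606848044434893030790877551851107508890057258646804871454066105242845017956129382246499688838435099404876644353),
  ((nat_lit 1, nat_lit 3), nat_lit 343671216998311545280407898542640524114562266513999075366089608507050694665501512479103044862418116800287526538763338759694993383887802568112991355218927882563977681080536060750114403104684436022775903278990740416229943786811020321420418443644908863494),
  ((nat_lit 1, nat_lit 4), nat_lit 343668158033354432781499955862471832671757573863777303960832159024787926100314177295195332313373903849765484913019712120192888812067969646596077922231803899348040799984683242546292663704853954489401380300234779381783808893314445664016138146667139432455),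
  ((nat_lit 1, nat_lit 5), nat_lit 286389913201410433663776251674109236050325962077835328154506256727289950106275075934636337614071625391753931933000772026365934973599595620655261941779116985937379014519268934506819481189456606252843793570980618512720934273381175057372918380855054827532),
  ((nat_lit 1, nat_lit 6), nat_lit 114560859640498788111369017387499858182105238182109643935815271621418253480852595380208917333252321614787879491096976855281297372377791328272084536095971150259262175387029465703182053859028292935348213247238222545506468979289939933795035910447522906124),
  ((nat_lit 0, nat_lit 1), nat_lit 114555615673900251807187996182391208122681832583249466537355888145191333849214639225768503041096521263636762829154464456517115488503807409997957241395267602188175008057066340966326809848318455738664672362942291020420210660891960663638248576871756201984)]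

theorem dr_7_17_13_0 : DR_7_17_13_0 = DRstd 7 17 13 85 35 205760784 32865112616832437264 P7 P17 :=
  drCheck_spec (by decide +kernel : drCheck (nat_lit 7) (nat_lit 17) (nat_lit 119) (nat_lit 13)
    (nat_lit 85) (nat_lit 35) (nat_lit 205760784) (nat_lit 32865112616832437264) P7 P17 DR_7_17_13_0 = true)

lemma hyp_7_17_13_0 : Hyp 7 17 13 85 35 205760784 32865112616832437264 P7 P17 :=
  mkHyp (by norm_num) (by norm_num) (by norm_num) (by norm_num) (by norm_num)
    (by decide +kernel : tabCheck (nat_lit 7) (nat_lit 13) (nat_lit 205760784) = true)
    (by decide +kernel : tabCheck (nat_lit 17) (nat_lit 13) (nat_lit 32865112616832437264) = true)
    (by decide +kernel : obCheck (nat_lit 7) (nat_lit 17) (nat_lit 119) (nat_lit 13) (nat_lit 205760784) (nat_lit 32865112616832437264) = true)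
    isP1_7 isP1_17 (by decide) (by decide) (by norm_num) (by norm_num) (by norm_num)

end Pool.Agent.LibH4.KF
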