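import Pool.Agent.Lib_helper4.KR_16_13_5_0
import Pool.Agent.Lib_helper4.KR_16_13_5_1
import Pool.Agent.Lib_helper4.KR_16_13_5_2
import Pool.Agent.Lib_helper4.KR_16_7_13_0
import Pool.Agent.Lib_helper4.KR_7_17_13_0
import Pool.Agent.Lib_helper4.KR_13_23_7_0
import Pool.Agent.Lib_helper4.KR_17_23_7_0

/-! generated data -/

namespace Pool.Agent.LibH4.KF

open Ker T6

/-- classes -/
def CB19_16 : List (ℕ × ℕ) := [((nat_lit 3), (nat_lit 1)),((nat_lit 3), (nat_lit 3)),((nat_lit 3), (nat_lit 5)),((nat_lit 3), (nat_lit 7)),((nat_lit 3), (nat_lit 9)),((nat_lit 3), (nat_lit 11)),((nat_lit 3), (nat_lit 13)),((nat_lit 3), (nat_lit 15))]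

lemma memB19_16 : memCheck (nat_lit 16) (spc (nat_lit 3) cl2) CB19_16 = true := by decide +kernel

/-- classes -/
def CB19_13 : List (ℕ × ℕ) := [((nat_lit 6), (nat_lit 0)),((nat_lit 6), (nat_lit 1)),((nat_lit 6), (nat_lit 4)),((nat_lit 6), (nat_lit 6)),((nat_lit 6), (nat_lit 7)),((nat_lit 6), (nat_lit 9)),((nat_lit 6), (nat_lit 12))]

lemma memB19_13 : memCheck (nat_lit 13) (spc (nat_lit 6) (clB (nat_lit 13))) CB19_13 = true := by decide +kernel

/-- classes -/
def CB19_5 : List (ℕ × ℕ) := [((nat_lit 4), (nat_lit 1)),((nat_lit 4), (nat_lit 4))]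

lemma memB19_5 : memCheck (nat_lit 5) (spc (nat_lit 4) (clB (nat_lit 5))) CB19_5 = true := by decide +kernel

/-- classes -/
def CB19_7 : List (ℕ × ℕ) := [((nat_lit 5), (nat_lit 0)),((nat_lit 5), (nat_lit 1)),((nat_lit 5), (nat_lit 6))]

lemma memB19_7 : memCheck (nat_lit 7) (spc (nat_lit 5) (clB (nat_lit 7))) CB19_7 = true := by decide +kernel

/-- classes -/
def CB19_17 : List (ℕ × ℕ) := [((nat_lit 2), (nat_lit 1)),((nat_lit 2), (nat_lit 2)),((nat_lit 2), (nat_lit 3)),((nat_lit 2), (nat_lit 5)),((nat_lit 2), (nat_lit 12)),((nat_lit 2), (nat_lit 14)),((nat_lit 2), (nat_lit 15)),((nat_lit 2), (nat_lit 16))]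

lemma memB19_17 : memCheck (nat_lit 17) (spc (nat_lit 2) (clB (nat_lit 17))) CB19_17 = true := by decide +kernel

/-- classes -/
def CB19_23 : List (ℕ × ℕ) := [((nat_lit 19), (nat_lit 0)),((nat_lit 19), (nat_lit 4)),((nat_lit 19), (nat_lit 8)),((nat_lit 19), (nat_lit 9)),((nat_lit 19), (nat_lit 10)),((nat_lit 19), (nat_lit 11)),((nat_lit 19), (nat_lit 12)),((nat_lit 19), (nat_lit 13)),((nat_lit 19), (nat_lit 14)),((nat_lit 19), (nat_lit 15)),((nat_lit 19), (nat_lit 19))]

lemma memB19_23 : memCheck (nat_lit 23) (spc (nat_lit 19) (clB (nat_lit 23))) CB19_23 = true := by decide +kernel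

/-- table -/
def TBB19_16_13_5_0 : ℕ := nat_lit 1168555103239490595747402694183264096527966507444178149383830578311006994137042898189721698674325217182025245911133572529445512207168605904421875695947511004881667385331818985056887508301774848000

theorem ctB19_16_13_5_0 : checkR (nat_lit 84) (nat_lit 16) (nat_lit 13) (nat_lit 5) (nat_lit 1166467763814805520) (nat_lit 1183156957090320)
    DR_16_13_5_0 formsB P13 CB19_16 CB19_13 TBB19_16_13_5_0 = true := by
  decide +kernel

/-- table -/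
def TBB19_16_13_5_1 : ℕ := nat_lit 285152555610255571259124237138120823126379004653950213604059777412632047875927967251060729565754578940971109280466257679924410876186989403822286463089264150917787996855256629630340150669082625

theorem ctB19_16_13_5_1 : checkR (nat_lit 84) (nat_lit 16) (nat_lit 13) (nat_lit 5) (nat_lit 1161981756374523920) (nat_lit 1183156957090320)
    DR_16_13_5_1 formsB P13 CB19_16 CB19_13 TBB19_16_13_5_1 = true := by
  decide +kernel

/-- table -/
def TBB19_16_13_5_2 : ℕ := nat_lit 2336539901299770876876233535616690837538827822536353501444737391436382072948204776983239858213175729078285685561292394007966333892480915519610569871710828499153616254635477673656748466430883659780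

theorem ctB19_16_13_5_2 : checkR (nat_lit 84) (nat_lit 16) (nat_lit 13) (nat_lit 5) (nat_lit 4625249869016080400) (nat_lit 353030276977680)
    DR_16_13_5_2 formsB P13 CB19_16 CB19_13 TBB19_16_13_5_2 = true := by
  decide +kernel

/-- table -/
def TBB19_16_7_13_0 : ℕ := nat_lit 387778341063916869744103082784254548036411900001063953374460202431126932681804508251318

theorem ctB19_16_7_13_0 : checkR (nat_lit 36) (nat_lit 16) (nat_lit 7) (nat_lit 13) (nat_lit 1175581068095410192) (nat_lit 205760784)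
    DR_16_7_13_0 formsB P7 CB19_16 CB19_7 TBB19_16_7_13_0 = true := by
  decide +kernel

/-- table -/
def TBB19_7_17_13_0 : ℕ := nat_lit 261694607847907138668726335567778566768334755368043495143876963453452426850900640503586

theorem ctB19_7_17_13_0 : checkR (nat_lit 96) (nat_lit 7) (nat_lit 17) (nat_lit 13) (nat_lit 205760784) (nat_lit 32865112616832437264)
    DR_7_17_13_0 formsB P17 CB19_7 CB19_17 TBB19_7_17_13_0 = true := by
  decide +kernel

/-- table -/
def TBB19_13_23_7_0 : ℕ := nat_lit 38267029320709194927577942599684556598957925550133579819821992571364380256972709194212799801776921997592206151622932813594443760206318114973020063299983741680896524466480350663562837397698711563323392306439043980917711514636145370852455826090937768409556319851627554890264551728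

theorem ctB19_13_23_7_0 : checkR (nat_lit 132) (nat_lit 13) (nat_lit 23) (nat_lit 7) (nat_lit 371936440100112) (nat_lit 1980680358766547984887910672)
    DR_13_23_7_0 formsB P23 CB19_13 CB19_23 TBB19_13_23_7_0 = true := by
  decide +kernel

/-- table -/
def TBB19_17_23_7_0 : ℕ := nat_lit 154420802534848464279474156193539564547975930991281599766745312675835031903440773013656419690070029500598589264870137935773859023855990503270295870926882392043054480272391720810572602265980420044208300296174689312674555131351389919055333248423470072797850849426302349514579582227270561136827010776176600102517987296053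

theorem ctB19_17_23_7_0 : checkR (nat_lit 132) (nat_lit 17) (nat_lit 23) (nat_lit 7) (nat_lit 20038315816949735696) (nat_lit 1980680358766547984887910672)
    DR_17_23_7_0 formsB P23 CB19_17 CB19_23 TBB19_17_23_7_0 = true := by
  decide +kernel

/-- stage -/
def stB19_5 (a7 r_13_23_7_0 r_17_23_7_0 t7 : ℕ) : Bool :=
  allI (fun i23 c23 =>
    imp (chkB (nat_lit 7) (dg (nat_lit 12) r_13_23_7_0 i23) a7 t7) <|
    imp (chkB (nat_lit 7) (dg (nat_lit 12) r_17_23_7_0 i23) a7 t7) <|
    false) CB19_23 (nat_lit 0)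

/-- stage -/
def stB19_4 (a13 a7 r_13_23_7_0 r_7_17_13_0 t13 t7 : ℕ) : Bool :=
  allI (fun i17 c17 =>
    imp (chkB (nat_lit 13) (dg (nat_lit 12) r_7_17_13_0 i17) a13 t13) <|
    strict (dg (nat_lit 132) TBB19_17_23_7_0 i17) fun r_17_23_7_0 =>
    stB19_5 a7 r_13_23_7_0 r_17_23_7_0 t7) CB19_17 (nat_lit 0)

/-- stage -/
def stB19_3 (a13 r_13_23_7_0 r_16_7_13_0 t13 : ℕ) : Bool :=
  allI (fun i7 c7 =>
    imp (chkB (nat_lit 13) (dg (nat_lit 12) r_16_7_13_0 i7) a13 t13) <|
    strict (dg (nat_lit 96) TBB19_7_17_13_0 i7) fun r_7_17_13_0 =>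
    stB19_4 a13 c7.1 r_13_23_7_0 r_7_17_13_0 t13 c7.2) CB19_7 (nat_lit 0)

/-- stage -/
def stB19_2 (a13 e_16_13_5_0 e_16_13_5_1 e_16_13_5_2 r_13_23_7_0 r_16_7_13_0 t13 : ℕ) : Bool :=
  allI (fun i5 c5 =>
    imp (chkB (nat_lit 5) e_16_13_5_0 c5.1 c5.2) <|
    imp (chkB (nat_lit 5) e_16_13_5_1 c5.1 c5.2) <|
    imp (chkB (nat_lit 5) e_16_13_5_2 c5.1 c5.2) <|
    stB19_3 a13 r_13_23_7_0 r_16_7_13_0 t13) CB19_5 (nat_lit 0)

/-- stage -/
def stB19_1 (r_16_13_5_0 r_16_13_5_1 r_16_13_5_2 r_16_7_13_0 : ℕ) : Bool :=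
  allI (fun i13 c13 =>
    strict (dg (nat_lit 12) r_16_13_5_0 i13) fun e_16_13_5_0 =>
    strict (dg (nat_lit 12) r_16_13_5_1 i13) fun e_16_13_5_1 =>
    strict (dg (nat_lit 12) r_16_13_5_2 i13) fun e_16_13_5_2 =>
    strict (dg (nat_lit 132) TBB19_13_23_7_0 i13) fun r_13_23_7_0 =>
    stB19_2 c13.1 e_16_13_5_0 e_16_13_5_1 e_16_13_5_2 r_13_23_7_0 r_16_7_13_0 c13.2) CB19_13 (nat_lit 0)

/-- stage -/
def bdB19 (i16 : ℕ) (c16 : ℕ × ℕ) : Bool :=
    strict (dg (nat_lit 84) TBB19_16_13_5_0 i16) fun r_16_13_5_0 =>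
    strict (dg (nat_lit 84) TBB19_16_13_5_1 i16) fun r_16_13_5_1 =>
    strict (dg (nat_lit 84) TBB19_16_13_5_2 i16) fun r_16_13_5_2 =>
    strict (dg (nat_lit 36) TBB19_16_7_13_0 i16) fun r_16_7_13_0 =>
    stB19_1 r_16_13_5_0 r_16_13_5_1 r_16_13_5_2 r_16_7_13_0

theorem allB19 : allI (fun i c => bdB19 i c) CB19_16 (nat_lit 0) = true := by
  decide +kernel

theorem falseB19 {a t : ℕ} {i16 i13 i5 i7 i17 i23 : ℕ}
    (b16 : i16 < CB19_16.length)
    (b13 : i13 < CB19_13.length)
    (b5 : i5 < CB19_5.length)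
    (b7 : i7 < CB19_7.length)
    (b17 : i17 < CB19_17.length)
    (b23 : i23 < CB19_23.length)
    (top : bdB19 i16 CB19_16[i16] = true)
    (h16 : CB19_16[i16] = (a % 16, t % 16))
    (h13 : CB19_13[i13] = (a % 13, t % 13))
    (h5 : CB19_5[i5] = (a % 5, t % 5))
    (h7 : CB19_7[i7] = (a % 7, t % 7))
    (h17 : CB19_17[i17] = (a % 17, t % 17))
    (h23 : CB19_23[i23] = (a % 23, t % 23))
    (r_16_13_5_0 : chkB 5 (dg 12 (dg 84 TBB19_16_13_5_0 i16) i13) (a % 5) (t % 5) = true)
    (r_16_13_5_1 : chkB 5 (dg 12 (dg 84 TBB19_16_13_5_1 i16) i13) (a % 5) (t % 5) = true)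
    (r_16_13_5_2 : chkB 5 (dg 12 (dg 84 TBB19_16_13_5_2 i16) i13) (a % 5) (t % 5) = true)
    (r_16_7_13_0 : chkB 13 (dg 12 (dg 36 TBB19_16_7_13_0 i16) i7) (a % 13) (t % 13) = true)
    (r_7_17_13_0 : chkB 13 (dg 12 (dg 96 TBB19_7_17_13_0 i7) i17) (a % 13) (t % 13) = true)
    (r_13_23_7_0 : chkB 7 (dg 12 (dg 132 TBB19_13_23_7_0 i13) i23) (a % 7) (t % 7) = true)
    (r_17_23_7_0 : chkB 7 (dg 12 (dg 132 TBB19_17_23_7_0 i17) i23) (a % 7) (t % 7) = true)
    : False := by
  try rw [h16] at top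
  unfold bdB19 at top
  simp only [strict_eq] at top
  unfold stB19_1 at top
  replace top := allI_get top b13
  try rw [h13] at top
  simp only [strict_eq] at top
  unfold stB19_2 at top
  replace top := allI_get top b5
  try rw [h5] at top
  replace top := imp_spec top r_16_13_5_0
  replace top := imp_spec top r_16_13_5_1
  replace top := imp_spec top r_16_13_5_2
  unfold stB19_3 at top
  replace top := allI_get top b7
  try rw [h7] at top
  simp only [strict_eq] at top
  replace top := imp_spec top r_16_7_13_0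
  unfold stB19_4 at top
  replace top := allI_get top b17
  try rw [h17] at top
  simp only [strict_eq] at top
  replace top := imp_spec top r_7_17_13_0
  unfold stB19_5 at top
  replace top := allI_get top b23
  try rw [h23] at top
  replace top := imp_spec top r_13_23_7_0
  replace top := imp_spec top r_17_23_7_0
  exact Bool.false_ne_true top

/-- no large solution with `a = 19` -/
theorem noB19 {a n d : ℕ} (ha : a = 19) (hn2 : n % 2 = 1)
    (hd : (d : ℤ) = ((a : ℤ) * n) ^ 2 + 4 * a)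
    (j5 : jacobiSym d 5 = -1)
    (j7 : jacobiSym d 7 = -1)
    (j13 : jacobiSym d 13 = -1)
    (j17 : jacobiSym d 17 = -1)
    (j23 : jacobiSym d 23 = -1)
    (hT : AllB a n d) : False := by
  have ha2 : a % 2 = 1 := by rw [ha]
  have q2 := d2_B hd ha2 hn2
  have q5 : ¬ 5 ∣ d := nd_of (by norm_num) j5
  have q7 : ¬ 7 ∣ d := nd_of (by norm_num) j7
  have q13 : ¬ 13 ∣ d := nd_of (by norm_num) j13
  have q17 : ¬ 17 ∣ d := nd_of (by norm_num) j17
  have q23 : ¬ 23 ∣ d := nd_of (by norm_num) j23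
  have c16 : Nat.Coprime 16 d := cop_of (p := 2) (k := 4) (by norm_num) q2
  have c13 : Nat.Coprime 13 d := cop_of (p := 13) (k := 1) (by norm_num) q13
  have c5 : Nat.Coprime 5 d := cop_of (p := 5) (k := 1) (by norm_num) q5
  have c7 : Nat.Coprime 7 d := cop_of (p := 7) (k := 1) (by norm_num) q7
  have c17 : Nat.Coprime 17 d := cop_of (p := 17) (k := 1) (by norm_num) q17
  have c23 : Nat.Coprime 23 d := cop_of (p := 23) (k := 1) (by norm_num) q23
  obtain ⟨i16, b16, e16⟩ := memCheck_spec memB19_16 (Nat.mod_lt a (by norm_num))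
    (Nat.mod_lt n (by norm_num)) (spc_of (cl2_of (n := 16) (by norm_num) ha2 hn2) (by rw [ha]))
  obtain ⟨i13, b13, e13⟩ := memCheck_spec memB19_13 (Nat.mod_lt a (by norm_num))
    (Nat.mod_lt n (by norm_num)) (spc_of (clB_of (n := 13) (by norm_num) (by norm_num) hd j13) (by rw [ha]))
  obtain ⟨i5, b5, e5⟩ := memCheck_spec memB19_5 (Nat.mod_lt a (by norm_num))
    (Nat.mod_lt n (by norm_num)) (spc_of (clB_of (n := 5) (by norm_num) (by norm_num) hd j5) (by rw [ha]))
  obtain ⟨i7, b7, e7⟩ := memCheck_spec memB19_7 (Nat.mod_lt a (by norm_num))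
    (Nat.mod_lt n (by norm_num)) (spc_of (clB_of (n := 7) (by norm_num) (by norm_num) hd j7) (by rw [ha]))
  obtain ⟨i17, b17, e17⟩ := memCheck_spec memB19_17 (Nat.mod_lt a (by norm_num))
    (Nat.mod_lt n (by norm_num)) (spc_of (clB_of (n := 17) (by norm_num) (by norm_num) hd j17) (by rw [ha]))
  obtain ⟨i23, b23, e23⟩ := memCheck_spec memB19_23 (Nat.mod_lt a (by norm_num))
    (Nat.mod_lt n (by norm_num)) (spc_of (clB_of (n := 23) (by norm_num) (by norm_num) hd j23) (by rw [ha]))
  exact falseB19 b16 b13 b5 b7 b17 b23 (allI_get allB19 b16)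
    e16 e13 e5 e7 e17 e23
    (chkB_of hyp_16_13_5_0 dr_16_13_5_0 ctB19_16_13_5_0 hT (by norm_num) (by norm_num) (c16.mul_left c13) q5 b16 b13 e16 e13)
    (chkB_of hyp_16_13_5_1 dr_16_13_5_1 ctB19_16_13_5_1 hT (by norm_num) (by norm_num) (c16.mul_left c13) q5 b16 b13 e16 e13)
    (chkB_of hyp_16_13_5_2 dr_16_13_5_2 ctB19_16_13_5_2 hT (by norm_num) (by norm_num) (c16.mul_left c13) q5 b16 b13 e16 e13)
    (chkB_of hyp_16_7_13_0 dr_16_7_13_0 ctB19_16_7_13_0 hT (by norm_num) (by norm_num) (c16.mul_left c7) q13 b16 b7 e16 e7)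
    (chkB_of hyp_7_17_13_0 dr_7_17_13_0 ctB19_7_17_13_0 hT (by norm_num) (by norm_num) (c7.mul_left c17) q13 b7 b17 e7 e17)
    (chkB_of hyp_13_23_7_0 dr_13_23_7_0 ctB19_13_23_7_0 hT (by norm_num) (by norm_num) (c13.mul_left c23) q7 b13 b23 e13 e23)
    (chkB_of hyp_17_23_7_0 dr_17_23_7_0 ctB19_17_23_7_0 hT (by norm_num) (by norm_num) (c17.mul_left c23) q7 b17 b23 e17 e23)

end Pool.Agent.LibH4.KF
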