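import Pool.Agent.Lib_helper4.KR_16_7_13_0
import Pool.Agent.Lib_helper4.KR_13_19_7_0
import Pool.Agent.Lib_helper4.KR_13_19_7_1

/-! generated data -/

namespace Pool.Agent.LibH4.KF

open Ker T6

/-- classes -/
def CB3_16 : List (ℕ × ℕ) := [((nat_lit 3), (nat_lit 1)),((nat_lit 3), (nat_lit 3)),((nat_lit 3), (nat_lit 5)),((nat_lit 3), (nat_lit 7)),((nat_lit 3), (nat_lit 9)),((nat_lit 3), (nat_lit 11)),((nat_lit 3), (nat_lit 13)),((nat_lit 3), (nat_lit 15))]

lemma memB3_16 : memCheck (nat_lit 16) (spc (nat_lit 3) cl2) CB3_16 = true := by decide +kernel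

/-- classes -/
def CB3_7 : List (ℕ × ℕ) := [((nat_lit 3), (nat_lit 0)),((nat_lit 3), (nat_lit 2)),((nat_lit 3), (nat_lit 5))]

lemma memB3_7 : memCheck (nat_lit 7) (spc (nat_lit 3) (clB (nat_lit 7))) CB3_7 = true := by decide +kernel

/-- classes -/
def CB3_13 : List (ℕ × ℕ) := [((nat_lit 3), (nat_lit 1)),((nat_lit 3), (nat_lit 3)),((nat_lit 3), (nat_lit 6)),((nat_lit 3), (nat_lit 7)),((nat_lit 3), (nat_lit 10)),((nat_lit 3), (nat_lit 12))]

lemma memB3_13 : memCheck (nat_lit 13) (spc (nat_lit 3) (clB (nat_lit 13))) CB3_13 = true := by decide +kernel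

/-- classes -/
def CB3_19 : List (ℕ × ℕ) := [((nat_lit 3), (nat_lit 0)),((nat_lit 3), (nat_lit 1)),((nat_lit 3), (nat_lit 2)),((nat_lit 3), (nat_lit 6)),((nat_lit 3), (nat_lit 8)),((nat_lit 3), (nat_lit 11)),((nat_lit 3), (nat_lit 13)),((nat_lit 3), (nat_lit 17)),((nat_lit 3), (nat_lit 18))]

lemma memB3_19 : memCheck (nat_lit 19) (spc (nat_lit 3) (clB (nat_lit 19))) CB3_19 = true := by decide +kernel

/-- table -/
def TBB3_16_7_13_0 : ℕ := nat_lit 395915134226385979741768762668371192832724359210885613054205667269062602316229947102338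

theorem ctB3_16_7_13_0 : checkR (nat_lit 36) (nat_lit 16) (nat_lit 7) (nat_lit 13) (nat_lit 1175581068095410192) (nat_lit 205760784)
    DR_16_7_13_0 formsB P7 CB3_16 CB3_7 TBB3_16_7_13_0 = true := by
  decide +kernel

/-- table -/
def TBB3_13_19_7_0 : ℕ := nat_lit 242490097858148070772128847703920570517961607867520067940567657974264400624199992024169603954611606252452317136610483625029583146080395103866259023986821631216258408792261183848212655017882375520

theorem ctB3_13_19_7_0 : checkR (nat_lit 108) (nat_lit 13) (nat_lit 19) (nat_lit 7) (nat_lit 319138687099408) (nat_lit 28965222469048455157008)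
    DR_13_19_7_0 formsB P19 CB3_13 CB3_19 TBB3_13_19_7_0 = true := by
  decide +kernel

/-- table -/
def TBB3_13_19_7_1 : ℕ := nat_lit 79025134332673021338816323529623182444886595767155781080143852056423714390460820196129460892512092445708656502217840691874502522123733078171600627305613554790599181057082057650625859516504286275

theorem ctB3_13_19_7_1 : checkR (nat_lit 108) (nat_lit 13) (nat_lit 19) (nat_lit 7) (nat_lit 338814222615312) (nat_lit 28965222469048455157008)
    DR_13_19_7_1 formsB P19 CB3_13 CB3_19 TBB3_13_19_7_1 = true := by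
  decide +kernel

/-- stage -/
def stB3_3 (a7 r_13_19_7_0 r_13_19_7_1 t7 : ℕ) : Bool :=
  allI (fun i19 c19 =>
    imp (chkB (nat_lit 7) (dg (nat_lit 12) r_13_19_7_0 i19) a7 t7) <|
    imp (chkB (nat_lit 7) (dg (nat_lit 12) r_13_19_7_1 i19) a7 t7) <|
    false) CB3_19 (nat_lit 0)

/-- stage -/
def stB3_2 (a7 e_16_7_13_0 t7 : ℕ) : Bool :=
  allI (fun i13 c13 =>
    imp (chkB (nat_lit 13) e_16_7_13_0 c13.1 c13.2) <|
    strict (dg (nat_lit 108) TBB3_13_19_7_0 i13) fun r_13_19_7_0 =>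
    strict (dg (nat_lit 108) TBB3_13_19_7_1 i13) fun r_13_19_7_1 =>
    stB3_3 a7 r_13_19_7_0 r_13_19_7_1 t7) CB3_13 (nat_lit 0)

/-- stage -/
def stB3_1 (r_16_7_13_0 : ℕ) : Bool :=
  allI (fun i7 c7 =>
    strict (dg (nat_lit 12) r_16_7_13_0 i7) fun e_16_7_13_0 =>
    stB3_2 c7.1 e_16_7_13_0 c7.2) CB3_7 (nat_lit 0)

/-- stage -/
def bdB3 (i16 : ℕ) (c16 : ℕ × ℕ) : Bool :=
    strict (dg (nat_lit 36) TBB3_16_7_13_0 i16) fun r_16_7_13_0 =>
    stB3_1 r_16_7_13_0

theorem allB3 : allI (fun i c => bdB3 i c) CB3_16 (nat_lit 0) = true := by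
  decide +kernel

theorem falseB3 {a t : ℕ} {i16 i7 i13 i19 : ℕ}
    (b16 : i16 < CB3_16.length)
    (b7 : i7 < CB3_7.length)
    (b13 : i13 < CB3_13.length)
    (b19 : i19 < CB3_19.length)
    (top : bdB3 i16 CB3_16[i16] = true)
    (h16 : CB3_16[i16] = (a % 16, t % 16))
    (h7 : CB3_7[i7] = (a % 7, t % 7))
    (h13 : CB3_13[i13] = (a % 13, t % 13))
    (h19 : CB3_19[i19] = (a % 19, t % 19))
    (r_16_7_13_0 : chkB 13 (dg 12 (dg 36 TBB3_16_7_13_0 i16) i7) (a % 13) (t % 13) = true)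
    (r_13_19_7_0 : chkB 7 (dg 12 (dg 108 TBB3_13_19_7_0 i13) i19) (a % 7) (t % 7) = true)
    (r_13_19_7_1 : chkB 7 (dg 12 (dg 108 TBB3_13_19_7_1 i13) i19) (a % 7) (t % 7) = true)
    : False := by
  try rw [h16] at top
  unfold bdB3 at top
  simp only [strict_eq] at top
  unfold stB3_1 at top
  replace top := allI_get top b7
  try rw [h7] at top
  simp only [strict_eq] at top
  unfold stB3_2 at top
  replace top := allI_get top b13
  try rw [h13] at top
  simp only [strict_eq] at top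
  replace top := imp_spec top r_16_7_13_0
  unfold stB3_3 at top
  replace top := allI_get top b19
  try rw [h19] at top
  replace top := imp_spec top r_13_19_7_0
  replace top := imp_spec top r_13_19_7_1
  exact Bool.false_ne_true top

/-- no large solution with `a = 3` -/
theorem noB3 {a n d : ℕ} (ha : a = 3) (hn2 : n % 2 = 1)
    (hd : (d : ℤ) = ((a : ℤ) * n) ^ 2 + 4 * a)
    (j7 : jacobiSym d 7 = -1)
    (j13 : jacobiSym d 13 = -1)
    (j19 : jacobiSym d 19 = -1)
    (hT : AllB a n d) : False := by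
  have ha2 : a % 2 = 1 := by rw [ha]
  have q2 := d2_B hd ha2 hn2
  have q7 : ¬ 7 ∣ d := nd_of (by norm_num) j7
  have q13 : ¬ 13 ∣ d := nd_of (by norm_num) j13
  have q19 : ¬ 19 ∣ d := nd_of (by norm_num) j19
  have c16 : Nat.Coprime 16 d := cop_of (p := 2) (k := 4) (by norm_num) q2
  have c7 : Nat.Coprime 7 d := cop_of (p := 7) (k := 1) (by norm_num) q7
  have c13 : Nat.Coprime 13 d := cop_of (p := 13) (k := 1) (by norm_num) q13
  have c19 : Nat.Coprime 19 d := cop_of (p := 19) (k := 1) (by norm_num) q19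
  obtain ⟨i16, b16, e16⟩ := memCheck_spec memB3_16 (Nat.mod_lt a (by norm_num))
    (Nat.mod_lt n (by norm_num)) (spc_of (cl2_of (n := 16) (by norm_num) ha2 hn2) (by rw [ha]))
  obtain ⟨i7, b7, e7⟩ := memCheck_spec memB3_7 (Nat.mod_lt a (by norm_num))
    (Nat.mod_lt n (by norm_num)) (spc_of (clB_of (n := 7) (by norm_num) (by norm_num) hd j7) (by rw [ha]))
  obtain ⟨i13, b13, e13⟩ := memCheck_spec memB3_13 (Nat.mod_lt a (by norm_num))
    (Nat.mod_lt n (by norm_num)) (spc_of (clB_of (n := 13) (by norm_num) (by norm_num) hd j13) (by rw [ha]))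
  obtain ⟨i19, b19, e19⟩ := memCheck_spec memB3_19 (Nat.mod_lt a (by norm_num))
    (Nat.mod_lt n (by norm_num)) (spc_of (clB_of (n := 19) (by norm_num) (by norm_num) hd j19) (by rw [ha]))
  exact falseB3 b16 b7 b13 b19 (allI_get allB3 b16)
    e16 e7 e13 e19
    (chkB_of hyp_16_7_13_0 dr_16_7_13_0 ctB3_16_7_13_0 hT (by norm_num) (by norm_num) (c16.mul_left c7) q13 b16 b7 e16 e7)
    (chkB_of hyp_13_19_7_0 dr_13_19_7_0 ctB3_13_19_7_0 hT (by norm_num) (by norm_num) (c13.mul_left c19) q7 b13 b19 e13 e19)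
    (chkB_of hyp_13_19_7_1 dr_13_19_7_1 ctB3_13_19_7_1 hT (by norm_num) (by norm_num) (c13.mul_left c19) q7 b13 b19 e13 e19)

end Pool.Agent.LibH4.KF
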