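import Pool.Agent.Lib_helper4.KR_16_9_13_0
import Pool.Agent.Lib_helper4.KR_16_9_13_1
import Pool.Agent.Lib_helper4.KR_16_7_13_0

/-! generated data -/

namespace Pool.Agent.LibH4.KF

open Ker T6

/-- classes -/
def CB5_16 : List (ℕ × ℕ) := [((nat_lit 5), (nat_lit 1)),((nat_lit 5), (nat_lit 3)),((nat_lit 5), (nat_lit 5)),((nat_lit 5), (nat_lit 7)),((nat_lit 5), (nat_lit 9)),((nat_lit 5), (nat_lit 11)),((nat_lit 5), (nat_lit 13)),((nat_lit 5), (nat_lit 15))]

lemma memB5_16 : memCheck (nat_lit 16) (spc (nat_lit 5) cl2) CB5_16 = true := by decide +kernel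

/-- classes -/
def CB5_13 : List (ℕ × ℕ) := [((nat_lit 5), (nat_lit 0)),((nat_lit 5), (nat_lit 1)),((nat_lit 5), (nat_lit 3)),((nat_lit 5), (nat_lit 5)),((nat_lit 5), (nat_lit 8)),((nat_lit 5), (nat_lit 10)),((nat_lit 5), (nat_lit 12))]

lemma memB5_13 : memCheck (nat_lit 13) (spc (nat_lit 5) (clB (nat_lit 13))) CB5_13 = true := by decide +kernel

/-- classes -/
def CB5_9 : List (ℕ × ℕ) := [((nat_lit 5), (nat_lit 0)),((nat_lit 5), (nat_lit 3)),((nat_lit 5), (nat_lit 6))]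

lemma memB5_9 : memCheck (nat_lit 9) (spc (nat_lit 5) (clB (nat_lit 3))) CB5_9 = true := by decide +kernel

/-- classes -/
def CB5_7 : List (ℕ × ℕ) := [((nat_lit 5), (nat_lit 0)),((nat_lit 5), (nat_lit 1)),((nat_lit 5), (nat_lit 6))]

lemma memB5_7 : memCheck (nat_lit 7) (spc (nat_lit 5) (clB (nat_lit 7))) CB5_7 = true := by decide +kernel

/-- table -/
def TBB5_16_9_13_0 : ℕ := nat_lit 121476163683854210024002533418178586521525172851750304641387485965320564436126187523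

theorem ctB5_16_9_13_0 : checkR (nat_lit 36) (nat_lit 16) (nat_lit 9) (nat_lit 13) (nat_lit 1189039090416254992) (nat_lit 52349700624)
    DR_16_9_13_0 formsB P9 CB5_16 CB5_9 TBB5_16_9_13_0 = true := by
  decide +kernel

/-- table -/
def TBB5_16_9_13_1 : ℕ := nat_lit 295722238409223705162766848960233887849574871699724457949630844602053564808743840426375

theorem ctB5_16_9_13_1 : checkR (nat_lit 36) (nat_lit 16) (nat_lit 9) (nat_lit 13) (nat_lit 13871228414696902672) (nat_lit 6714231056)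
    DR_16_9_13_1 formsB P9 CB5_16 CB5_9 TBB5_16_9_13_1 = true := by
  decide +kernel

/-- table -/
def TBB5_16_7_13_0 : ℕ := nat_lit 385713839296037721027060707657299797212335820002318154383641260595049182640025819829290

theorem ctB5_16_7_13_0 : checkR (nat_lit 36) (nat_lit 16) (nat_lit 7) (nat_lit 13) (nat_lit 1175581068095410192) (nat_lit 205760784)
    DR_16_7_13_0 formsB P7 CB5_16 CB5_7 TBB5_16_7_13_0 = true := by
  decide +kernel

/-- stage -/
def stB5_3 (a13 r_16_7_13_0 t13 : ℕ) : Bool :=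
  allI (fun i7 c7 =>
    imp (chkB (nat_lit 13) (dg (nat_lit 12) r_16_7_13_0 i7) a13 t13) <|
    false) CB5_7 (nat_lit 0)

/-- stage -/
def stB5_2 (a13 r_16_7_13_0 r_16_9_13_0 r_16_9_13_1 t13 : ℕ) : Bool :=
  allI (fun i9 c9 =>
    imp (chkB (nat_lit 13) (dg (nat_lit 12) r_16_9_13_0 i9) a13 t13) <|
    imp (chkB (nat_lit 13) (dg (nat_lit 12) r_16_9_13_1 i9) a13 t13) <|
    stB5_3 a13 r_16_7_13_0 t13) CB5_9 (nat_lit 0)

/-- stage -/
def stB5_1 (r_16_7_13_0 r_16_9_13_0 r_16_9_13_1 : ℕ) : Bool :=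
  allI (fun i13 c13 =>
    stB5_2 c13.1 r_16_7_13_0 r_16_9_13_0 r_16_9_13_1 c13.2) CB5_13 (nat_lit 0)

/-- stage -/
def bdB5 (i16 : ℕ) (c16 : ℕ × ℕ) : Bool :=
    strict (dg (nat_lit 36) TBB5_16_9_13_0 i16) fun r_16_9_13_0 =>
    strict (dg (nat_lit 36) TBB5_16_9_13_1 i16) fun r_16_9_13_1 =>
    strict (dg (nat_lit 36) TBB5_16_7_13_0 i16) fun r_16_7_13_0 =>
    stB5_1 r_16_7_13_0 r_16_9_13_0 r_16_9_13_1

theorem allB5 : allI (fun i c => bdB5 i c) CB5_16 (nat_lit 0) = true := by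
  decide +kernel

theorem falseB5 {a t : ℕ} {i16 i13 i9 i7 : ℕ}
    (b16 : i16 < CB5_16.length)
    (b13 : i13 < CB5_13.length)
    (b9 : i9 < CB5_9.length)
    (b7 : i7 < CB5_7.length)
    (top : bdB5 i16 CB5_16[i16] = true)
    (h16 : CB5_16[i16] = (a % 16, t % 16))
    (h13 : CB5_13[i13] = (a % 13, t % 13))
    (h9 : CB5_9[i9] = (a % 9, t % 9))
    (h7 : CB5_7[i7] = (a % 7, t % 7))
    (r_16_9_13_0 : chkB 13 (dg 12 (dg 36 TBB5_16_9_13_0 i16) i9) (a % 13) (t % 13) = true)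
    (r_16_9_13_1 : chkB 13 (dg 12 (dg 36 TBB5_16_9_13_1 i16) i9) (a % 13) (t % 13) = true)
    (r_16_7_13_0 : chkB 13 (dg 12 (dg 36 TBB5_16_7_13_0 i16) i7) (a % 13) (t % 13) = true)
    : False := by
  try rw [h16] at top
  unfold bdB5 at top
  simp only [strict_eq] at top
  unfold stB5_1 at top
  replace top := allI_get top b13
  try rw [h13] at top
  unfold stB5_2 at top
  replace top := allI_get top b9
  try rw [h9] at top
  replace top := imp_spec top r_16_9_13_0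
  replace top := imp_spec top r_16_9_13_1
  unfold stB5_3 at top
  replace top := allI_get top b7
  try rw [h7] at top
  replace top := imp_spec top r_16_7_13_0
  exact Bool.false_ne_true top

/-- no large solution with `a = 5` -/
theorem noB5 {a n d : ℕ} (ha : a = 5) (hn2 : n % 2 = 1)
    (hd : (d : ℤ) = ((a : ℤ) * n) ^ 2 + 4 * a)
    (j3 : jacobiSym d 3 = -1)
    (j7 : jacobiSym d 7 = -1)
    (j13 : jacobiSym d 13 = -1)
    (hT : AllB a n d) : False := by
  have ha2 : a % 2 = 1 := by rw [ha]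
  have q2 := d2_B hd ha2 hn2
  have q3 : ¬ 3 ∣ d := nd_of (by norm_num) j3
  have q7 : ¬ 7 ∣ d := nd_of (by norm_num) j7
  have q13 : ¬ 13 ∣ d := nd_of (by norm_num) j13
  have c16 : Nat.Coprime 16 d := cop_of (p := 2) (k := 4) (by norm_num) q2
  have c13 : Nat.Coprime 13 d := cop_of (p := 13) (k := 1) (by norm_num) q13
  have c9 : Nat.Coprime 9 d := cop_of (p := 3) (k := 2) (by norm_num) q3
  have c7 : Nat.Coprime 7 d := cop_of (p := 7) (k := 1) (by norm_num) q7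
  obtain ⟨i16, b16, e16⟩ := memCheck_spec memB5_16 (Nat.mod_lt a (by norm_num))
    (Nat.mod_lt n (by norm_num)) (spc_of (cl2_of (n := 16) (by norm_num) ha2 hn2) (by rw [ha]))
  obtain ⟨i13, b13, e13⟩ := memCheck_spec memB5_13 (Nat.mod_lt a (by norm_num))
    (Nat.mod_lt n (by norm_num)) (spc_of (clB_of (n := 13) (by norm_num) (by norm_num) hd j13) (by rw [ha]))
  obtain ⟨i9, b9, e9⟩ := memCheck_spec memB5_9 (Nat.mod_lt a (by norm_num))
    (Nat.mod_lt n (by norm_num)) (spc_of (clB_of (n := 9) (by norm_num) (by norm_num) hd j3) (by rw [ha]))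
  obtain ⟨i7, b7, e7⟩ := memCheck_spec memB5_7 (Nat.mod_lt a (by norm_num))
    (Nat.mod_lt n (by norm_num)) (spc_of (clB_of (n := 7) (by norm_num) (by norm_num) hd j7) (by rw [ha]))
  exact falseB5 b16 b13 b9 b7 (allI_get allB5 b16)
    e16 e13 e9 e7
    (chkB_of hyp_16_9_13_0 dr_16_9_13_0 ctB5_16_9_13_0 hT (by norm_num) (by norm_num) (c16.mul_left c9) q13 b16 b9 e16 e9)
    (chkB_of hyp_16_9_13_1 dr_16_9_13_1 ctB5_16_9_13_1 hT (by norm_num) (by norm_num) (c16.mul_left c9) q13 b16 b9 e16 e9)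
    (chkB_of hyp_16_7_13_0 dr_16_7_13_0 ctB5_16_7_13_0 hT (by norm_num) (by norm_num) (c16.mul_left c7) q13 b16 b7 e16 e7)

end Pool.Agent.LibH4.KF
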