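import Pool.Agent.Lib_helper4.KR_16_13_5_0
import Pool.Agent.Lib_helper4.KR_16_13_5_1
import Pool.Agent.Lib_helper4.KR_16_13_5_2
import Pool.Agent.Lib_helper4.KR_16_9_13_0
import Pool.Agent.Lib_helper4.KR_16_9_13_1
import Pool.Agent.Lib_helper4.KR_8_29_13_0

/-! generated data -/

namespace Pool.Agent.LibH4.KF

open Ker T6

/-- classes -/
def CB7_16 : List (ℕ × ℕ) := [((nat_lit 7), (nat_lit 1)),((nat_lit 7), (nat_lit 3)),((nat_lit 7), (nat_lit 5)),((nat_lit 7), (nat_lit 7)),((nat_lit 7), (nat_lit 9)),((nat_lit 7), (nat_lit 11)),((nat_lit 7), (nat_lit 13)),((nat_lit 7), (nat_lit 15))]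

lemma memB7_16 : memCheck (nat_lit 16) (spc (nat_lit 7) cl2) CB7_16 = true := by decide +kernel

/-- classes -/
def CB7_13 : List (ℕ × ℕ) := [((nat_lit 7), (nat_lit 0)),((nat_lit 7), (nat_lit 4)),((nat_lit 7), (nat_lit 5)),((nat_lit 7), (nat_lit 6)),((nat_lit 7), (nat_lit 7)),((nat_lit 7), (nat_lit 8)),((nat_lit 7), (nat_lit 9))]

lemma memB7_13 : memCheck (nat_lit 13) (spc (nat_lit 7) (clB (nat_lit 13))) CB7_13 = true := by decide +kernel

/-- classes -/
def CB7_5 : List (ℕ × ℕ) := [((nat_lit 2), (nat_lit 0)),((nat_lit 2), (nat_lit 1)),((nat_lit 2), (nat_lit 4))]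

lemma memB7_5 : memCheck (nat_lit 5) (spc (nat_lit 2) (clB (nat_lit 5))) CB7_5 = true := by decide +kernel

/-- classes -/
def CB7_9 : List (ℕ × ℕ) := [((nat_lit 7), (nat_lit 1)),((nat_lit 7), (nat_lit 2)),((nat_lit 7), (nat_lit 4)),((nat_lit 7), (nat_lit 5)),((nat_lit 7), (nat_lit 7)),((nat_lit 7), (nat_lit 8))]

lemma memB7_9 : memCheck (nat_lit 9) (spc (nat_lit 7) (clB (nat_lit 3))) CB7_9 = true := by decide +kernel

/-- classes -/
def CB7_8 : List (ℕ × ℕ) := [((nat_lit 7), (nat_lit 1)),((nat_lit 7), (nat_lit 3)),((nat_lit 7), (nat_lit 5)),((nat_lit 7), (nat_lit 7))]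

lemma memB7_8 : memCheck (nat_lit 8) (spc (nat_lit 7) cl2) CB7_8 = true := by decide +kernel

/-- classes -/
def CB7_29 : List (ℕ × ℕ) := [((nat_lit 7), (nat_lit 1)),((nat_lit 7), (nat_lit 2)),((nat_lit 7), (nat_lit 8)),((nat_lit 7), (nat_lit 10)),((nat_lit 7), (nat_lit 11)),((nat_lit 7), (nat_lit 12)),((nat_lit 7), (nat_lit 13)),((nat_lit 7), (nat_lit 16)),((nat_lit 7), (nat_lit 17)),((nat_lit 7), (nat_lit 18)),((nat_lit 7), (nat_lit 19)),((nat_lit 7), (nat_lit 21)),((nat_lit 7), (nat_lit 27)),((nat_lit 7), (nat_lit 28))]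

lemma memB7_29 : memCheck (nat_lit 29) (spc (nat_lit 7) (clB (nat_lit 29))) CB7_29 = true := by decide +kernel

/-- table -/
def TBB7_16_13_5_0 : ℕ := nat_lit 3503954394333845930955863096880816157495398280048315949500749718039538172928615065502604020635189875244699588168723226389072337309663627816414407985355127684198363898346210564022921056625767743490

theorem ctB7_16_13_5_0 : checkR (nat_lit 84) (nat_lit 16) (nat_lit 13) (nat_lit 5) (nat_lit 1166467763814805520) (nat_lit 1183156957090320)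
    DR_16_13_5_0 formsB P13 CB7_16 CB7_13 TBB7_16_13_5_0 = true := by
  decide +kernel

/-- table -/
def TBB7_16_13_5_1 : ℕ := nat_lit 1167984798111281975972634712688000945457295348350820214348926530096308145188948621691868023621220272200717725138035591578282248186519658460864861429836178762309183571237880957311536782536427438080

theorem ctB7_16_13_5_1 : checkR (nat_lit 84) (nat_lit 16) (nat_lit 13) (nat_lit 5) (nat_lit 1161981756374523920) (nat_lit 1183156957090320)
    DR_16_13_5_1 formsB P13 CB7_16 CB7_13 TBB7_16_13_5_1 = true := by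
  decide +kernel

/-- table -/
def TBB7_16_13_5_2 : ℕ := nat_lit 9568132036502333477796969775176008890581857856961298824659222968266123879613049160990913145359299924666620167075968917997983039838006604712705069289467202021467813282245511106630335430817977846476800

theorem ctB7_16_13_5_2 : checkR (nat_lit 84) (nat_lit 16) (nat_lit 13) (nat_lit 5) (nat_lit 4625249869016080400) (nat_lit 353030276977680)
    DR_16_13_5_2 formsB P13 CB7_16 CB7_13 TBB7_16_13_5_2 = true := by
  decide +kernel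

/-- table -/
def TBB7_16_9_13_0 : ℕ := nat_lit 76720098471219528188279604762538398110174781957549291991780148781169086449037875865666252370935033309482494260230656991270945764510822030465459814400

theorem ctB7_16_9_13_0 : checkR (nat_lit 72) (nat_lit 16) (nat_lit 9) (nat_lit 13) (nat_lit 1189039090416254992) (nat_lit 52349700624)
    DR_16_9_13_0 formsB P9 CB7_16 CB7_9 TBB7_16_9_13_0 = true := by
  decide +kernel

/-- table -/
def TBB7_16_9_13_1 : ℕ := nat_lit 84562175916214707501506159095707843020875077029282033661820830531585337820546150733484956816771093143659094974183671172284820826202868934701465133018797800010685497417078133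

theorem ctB7_16_9_13_1 : checkR (nat_lit 72) (nat_lit 16) (nat_lit 9) (nat_lit 13) (nat_lit 13871228414696902672) (nat_lit 6714231056)
    DR_16_9_13_1 formsB P9 CB7_16 CB7_9 TBB7_16_9_13_1 = true := by
  decide +kernel

/-- table -/
def TBB7_8_29_13_0 : ℕ := nat_lit 7929132743126988241855385975825627308743019093614660029247589444151496030696776415227270583230902417269269678236257125191983305366938671011095390826792157269012215331053437356856175686123970221631293044

theorem ctB7_8_29_13_0 : checkR (nat_lit 168) (nat_lit 8) (nat_lit 29) (nat_lit 13) (nat_lit 281067536) (nat_lit 65067325651197639677023877956654352)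
    DR_8_29_13_0 formsB P29 CB7_8 CB7_29 TBB7_8_29_13_0 = true := by
  decide +kernel

/-- stage -/
def stB7_5 (a13 r_8_29_13_0 t13 : ℕ) : Bool :=
  allI (fun i29 c29 =>
    imp (chkB (nat_lit 13) (dg (nat_lit 12) r_8_29_13_0 i29) a13 t13) <|
    false) CB7_29 (nat_lit 0)

/-- stage -/
def stB7_4 (a13 a16 t13 t16 : ℕ) : Bool :=
  allI (fun i8 c8 =>
    imp (Nat.beq (Nat.mod a16 (nat_lit 8)) c8.1) <| imp (Nat.beq (Nat.mod t16 (nat_lit 8)) c8.2) <|
    strict (dg (nat_lit 168) TBB7_8_29_13_0 i8) fun r_8_29_13_0 =>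
    stB7_5 a13 r_8_29_13_0 t13) CB7_8 (nat_lit 0)

/-- stage -/
def stB7_3 (a13 a16 r_16_9_13_0 r_16_9_13_1 t13 t16 : ℕ) : Bool :=
  allI (fun i9 c9 =>
    imp (chkB (nat_lit 13) (dg (nat_lit 12) r_16_9_13_0 i9) a13 t13) <|
    imp (chkB (nat_lit 13) (dg (nat_lit 12) r_16_9_13_1 i9) a13 t13) <|
    stB7_4 a13 a16 t13 t16) CB7_9 (nat_lit 0)

/-- stage -/
def stB7_2 (a13 a16 e_16_13_5_0 e_16_13_5_1 e_16_13_5_2 r_16_9_13_0 r_16_9_13_1 t13 t16 : ℕ) : Bool :=
  allI (fun i5 c5 =>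
    imp (chkB (nat_lit 5) e_16_13_5_0 c5.1 c5.2) <|
    imp (chkB (nat_lit 5) e_16_13_5_1 c5.1 c5.2) <|
    imp (chkB (nat_lit 5) e_16_13_5_2 c5.1 c5.2) <|
    stB7_3 a13 a16 r_16_9_13_0 r_16_9_13_1 t13 t16) CB7_5 (nat_lit 0)

/-- stage -/
def stB7_1 (a16 r_16_13_5_0 r_16_13_5_1 r_16_13_5_2 r_16_9_13_0 r_16_9_13_1 t16 : ℕ) : Bool :=
  allI (fun i13 c13 =>
    strict (dg (nat_lit 12) r_16_13_5_0 i13) fun e_16_13_5_0 =>
    strict (dg (nat_lit 12) r_16_13_5_1 i13) fun e_16_13_5_1 =>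
    strict (dg (nat_lit 12) r_16_13_5_2 i13) fun e_16_13_5_2 =>
    stB7_2 c13.1 a16 e_16_13_5_0 e_16_13_5_1 e_16_13_5_2 r_16_9_13_0 r_16_9_13_1 c13.2 t16) CB7_13 (nat_lit 0)

/-- stage -/
def bdB7 (i16 : ℕ) (c16 : ℕ × ℕ) : Bool :=
    strict (dg (nat_lit 84) TBB7_16_13_5_0 i16) fun r_16_13_5_0 =>
    strict (dg (nat_lit 84) TBB7_16_13_5_1 i16) fun r_16_13_5_1 =>
    strict (dg (nat_lit 84) TBB7_16_13_5_2 i16) fun r_16_13_5_2 =>
    strict (dg (nat_lit 72) TBB7_16_9_13_0 i16) fun r_16_9_13_0 =>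
    strict (dg (nat_lit 72) TBB7_16_9_13_1 i16) fun r_16_9_13_1 =>
    stB7_1 c16.1 r_16_13_5_0 r_16_13_5_1 r_16_13_5_2 r_16_9_13_0 r_16_9_13_1 c16.2

theorem allB7 : allI (fun i c => bdB7 i c) CB7_16 (nat_lit 0) = true := by
  decide +kernel

theorem falseB7 {a t : ℕ} {i16 i13 i5 i9 i8 i29 : ℕ}
    (b16 : i16 < CB7_16.length)
    (b13 : i13 < CB7_13.length)
    (b5 : i5 < CB7_5.length)
    (b9 : i9 < CB7_9.length)
    (b8 : i8 < CB7_8.length)
    (b29 : i29 < CB7_29.length)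
    (top : bdB7 i16 CB7_16[i16] = true)
    (h16 : CB7_16[i16] = (a % 16, t % 16))
    (h13 : CB7_13[i13] = (a % 13, t % 13))
    (h5 : CB7_5[i5] = (a % 5, t % 5))
    (h9 : CB7_9[i9] = (a % 9, t % 9))
    (h8 : CB7_8[i8] = (a % 8, t % 8))
    (h29 : CB7_29[i29] = (a % 29, t % 29))
    (r_16_13_5_0 : chkB 5 (dg 12 (dg 84 TBB7_16_13_5_0 i16) i13) (a % 5) (t % 5) = true)
    (r_16_13_5_1 : chkB 5 (dg 12 (dg 84 TBB7_16_13_5_1 i16) i13) (a % 5) (t % 5) = true)
    (r_16_13_5_2 : chkB 5 (dg 12 (dg 84 TBB7_16_13_5_2 i16) i13) (a % 5) (t % 5) = true)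
    (r_16_9_13_0 : chkB 13 (dg 12 (dg 72 TBB7_16_9_13_0 i16) i9) (a % 13) (t % 13) = true)
    (r_16_9_13_1 : chkB 13 (dg 12 (dg 72 TBB7_16_9_13_1 i16) i9) (a % 13) (t % 13) = true)
    (r_8_29_13_0 : chkB 13 (dg 12 (dg 168 TBB7_8_29_13_0 i8) i29) (a % 13) (t % 13) = true)
    : False := by
  try rw [h16] at top
  unfold bdB7 at top
  simp only [strict_eq] at top
  unfold stB7_1 at top
  replace top := allI_get top b13
  try rw [h13] at top
  simp only [strict_eq] at top
  unfold stB7_2 at top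
  replace top := allI_get top b5
  try rw [h5] at top
  replace top := imp_spec top r_16_13_5_0
  replace top := imp_spec top r_16_13_5_1
  replace top := imp_spec top r_16_13_5_2
  unfold stB7_3 at top
  replace top := allI_get top b9
  try rw [h9] at top
  replace top := imp_spec top r_16_9_13_0
  replace top := imp_spec top r_16_9_13_1
  unfold stB7_4 at top
  replace top := allI_get top b8
  try rw [h8] at top
  simp only [strict_eq] at top
  have f1 : Nat.beq (Nat.mod (a % 16) (nat_lit 8)) (a % 8) = true := by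
    rw [Nat.beq_eq]; have : a % 16 % 8 = a % 8 := by omega
    exact this
  have f2 : Nat.beq (Nat.mod (t % 16) (nat_lit 8)) (t % 8) = true := by
    rw [Nat.beq_eq]; have : t % 16 % 8 = t % 8 := by omega
    exact this
  replace top := imp_spec (imp_spec top f1) f2
  unfold stB7_5 at top
  replace top := allI_get top b29
  try rw [h29] at top
  replace top := imp_spec top r_8_29_13_0
  exact Bool.false_ne_true top

/-- no large solution with `a = 7` -/
theorem noB7 {a n d : ℕ} (ha : a = 7) (hn2 : n % 2 = 1)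
    (hd : (d : ℤ) = ((a : ℤ) * n) ^ 2 + 4 * a)
    (j3 : jacobiSym d 3 = -1)
    (j5 : jacobiSym d 5 = -1)
    (j13 : jacobiSym d 13 = -1)
    (j29 : jacobiSym d 29 = -1)
    (hT : AllB a n d) : False := by
  have ha2 : a % 2 = 1 := by rw [ha]
  have q2 := d2_B hd ha2 hn2
  have q3 : ¬ 3 ∣ d := nd_of (by norm_num) j3
  have q5 : ¬ 5 ∣ d := nd_of (by norm_num) j5
  have q13 : ¬ 13 ∣ d := nd_of (by norm_num) j13
  have q29 : ¬ 29 ∣ d := nd_of (by norm_num) j29
  have c16 : Nat.Coprime 16 d := cop_of (p := 2) (k := 4) (by norm_num) q2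
  have c13 : Nat.Coprime 13 d := cop_of (p := 13) (k := 1) (by norm_num) q13
  have c5 : Nat.Coprime 5 d := cop_of (p := 5) (k := 1) (by norm_num) q5
  have c9 : Nat.Coprime 9 d := cop_of (p := 3) (k := 2) (by norm_num) q3
  have c8 : Nat.Coprime 8 d := cop_of (p := 2) (k := 3) (by norm_num) q2
  have c29 : Nat.Coprime 29 d := cop_of (p := 29) (k := 1) (by norm_num) q29
  obtain ⟨i16, b16, e16⟩ := memCheck_spec memB7_16 (Nat.mod_lt a (by norm_num))
    (Nat.mod_lt n (by norm_num)) (spc_of (cl2_of (n := 16) (by norm_num) ha2 hn2) (by rw [ha]))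
  obtain ⟨i13, b13, e13⟩ := memCheck_spec memB7_13 (Nat.mod_lt a (by norm_num))
    (Nat.mod_lt n (by norm_num)) (spc_of (clB_of (n := 13) (by norm_num) (by norm_num) hd j13) (by rw [ha]))
  obtain ⟨i5, b5, e5⟩ := memCheck_spec memB7_5 (Nat.mod_lt a (by norm_num))
    (Nat.mod_lt n (by norm_num)) (spc_of (clB_of (n := 5) (by norm_num) (by norm_num) hd j5) (by rw [ha]))
  obtain ⟨i9, b9, e9⟩ := memCheck_spec memB7_9 (Nat.mod_lt a (by norm_num))
    (Nat.mod_lt n (by norm_num)) (spc_of (clB_of (n := 9) (by norm_num) (by norm_num) hd j3) (by rw [ha]))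
  obtain ⟨i8, b8, e8⟩ := memCheck_spec memB7_8 (Nat.mod_lt a (by norm_num))
    (Nat.mod_lt n (by norm_num)) (spc_of (cl2_of (n := 8) (by norm_num) ha2 hn2) (by rw [ha]))
  obtain ⟨i29, b29, e29⟩ := memCheck_spec memB7_29 (Nat.mod_lt a (by norm_num))
    (Nat.mod_lt n (by norm_num)) (spc_of (clB_of (n := 29) (by norm_num) (by norm_num) hd j29) (by rw [ha]))
  exact falseB7 b16 b13 b5 b9 b8 b29 (allI_get allB7 b16)
    e16 e13 e5 e9 e8 e29
    (chkB_of hyp_16_13_5_0 dr_16_13_5_0 ctB7_16_13_5_0 hT (by norm_num) (by norm_num) (c16.mul_left c13) q5 b16 b13 e16 e13)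
    (chkB_of hyp_16_13_5_1 dr_16_13_5_1 ctB7_16_13_5_1 hT (by norm_num) (by norm_num) (c16.mul_left c13) q5 b16 b13 e16 e13)
    (chkB_of hyp_16_13_5_2 dr_16_13_5_2 ctB7_16_13_5_2 hT (by norm_num) (by norm_num) (c16.mul_left c13) q5 b16 b13 e16 e13)
    (chkB_of hyp_16_9_13_0 dr_16_9_13_0 ctB7_16_9_13_0 hT (by norm_num) (by norm_num) (c16.mul_left c9) q13 b16 b9 e16 e9)
    (chkB_of hyp_16_9_13_1 dr_16_9_13_1 ctB7_16_9_13_1 hT (by norm_num) (by norm_num) (c16.mul_left c9) q13 b16 b9 e16 e9)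
    (chkB_of hyp_8_29_13_0 dr_8_29_13_0 ctB7_8_29_13_0 hT (by norm_num) (by norm_num) (c8.mul_left c29) q13 b8 b29 e8 e29)

end Pool.Agent.LibH4.KF
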