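import Pool.Agent.Lib_helper4.KR_16_13_5_0
import Pool.Agent.Lib_helper4.KR_16_13_5_1
import Pool.Agent.Lib_helper4.KR_16_13_5_2
import Pool.Agent.Lib_helper4.KR_16_9_13_0
import Pool.Agent.Lib_helper4.KR_16_9_13_1

/-! generated data -/

namespace Pool.Agent.LibH4.KF

open Ker T6

/-- classes -/
def CE11_16 : List (ℕ × ℕ) := [((nat_lit 11), (nat_lit 1)),((nat_lit 11), (nat_lit 3)),((nat_lit 11), (nat_lit 5)),((nat_lit 11), (nat_lit 7)),((nat_lit 11), (nat_lit 9)),((nat_lit 11), (nat_lit 11)),((nat_lit 11), (nat_lit 13)),((nat_lit 11), (nat_lit 15))]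

lemma memE11_16 : memCheck (nat_lit 16) (spc (nat_lit 11) cl2) CE11_16 = true := by decide +kernel

/-- classes -/
def CE11_13 : List (ℕ × ℕ) := [((nat_lit 11), (nat_lit 0)),((nat_lit 11), (nat_lit 2)),((nat_lit 11), (nat_lit 3)),((nat_lit 11), (nat_lit 4)),((nat_lit 11), (nat_lit 9)),((nat_lit 11), (nat_lit 10)),((nat_lit 11), (nat_lit 11))]

lemma memE11_13 : memCheck (nat_lit 13) (spc (nat_lit 11) (clE (nat_lit 13))) CE11_13 = true := by decide +kernel

/-- classes -/
def CE11_5 : List (ℕ × ℕ) := [((nat_lit 1), (nat_lit 1)),((nat_lit 1), (nat_lit 4))]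

lemma memE11_5 : memCheck (nat_lit 5) (spc (nat_lit 1) (clE (nat_lit 5))) CE11_5 = true := by decide +kernel

/-- classes -/
def CE11_9 : List (ℕ × ℕ) := [((nat_lit 2), (nat_lit 1)),((nat_lit 2), (nat_lit 2)),((nat_lit 2), (nat_lit 4)),((nat_lit 2), (nat_lit 5)),((nat_lit 2), (nat_lit 7)),((nat_lit 2), (nat_lit 8))]

lemma memE11_9 : memCheck (nat_lit 9) (spc (nat_lit 2) (clE (nat_lit 3))) CE11_9 = true := by decide +kernel

/-- table -/
def TBE11_16_13_5_0 : ℕ := nat_lit 69668312393331406391204161652694938531779415734635057405508701035827477487553006415923087211836028729329790081807887230065068215067179935465684135153153030535523945789198499136292962435075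

theorem ctE11_16_13_5_0 : checkR (nat_lit 84) (nat_lit 16) (nat_lit 13) (nat_lit 5) (nat_lit 1166467763814805520) (nat_lit 1183156957090320)
    DR_16_13_5_0 formsE P13 CE11_16 CE11_13 TBE11_16_13_5_0 = true := by
  decide +kernel

/-- table -/
def TBE11_16_13_5_1 : ℕ := nat_lit 19138599757448333896846831191129413928159344164712677102508400613559816964399242067348490346063741320972010517968044073011445869230610388788471913958240995011622252019948284184569856582961393125298180

theorem ctE11_16_13_5_1 : checkR (nat_lit 84) (nat_lit 16) (nat_lit 13) (nat_lit 5) (nat_lit 1161981756374523920) (nat_lit 1183156957090320)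
    DR_16_13_5_1 formsE P13 CE11_16 CE11_13 TBE11_16_13_5_1 = true := by
  decide +kernel

/-- table -/
def TBE11_16_13_5_2 : ℕ := nat_lit 9569299451064967875430772125334822906553071152010332494925781444727775645747696909320832097387026579371601438998164951435807104958365137918812184804509551565314122319657447539330552459691100355964930

theorem ctE11_16_13_5_2 : checkR (nat_lit 84) (nat_lit 16) (nat_lit 13) (nat_lit 5) (nat_lit 4625249869016080400) (nat_lit 353030276977680)
    DR_16_13_5_2 formsE P13 CE11_16 CE11_13 TBE11_16_13_5_2 = true := by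
  decide +kernel

/-- table -/
def TBE11_16_9_13_0 : ℕ := nat_lit 132714368354249008121856211659585401223175739175753821481561645638462295111274839991616518164496821765071113497998207607189205007843796898661155445561504649767532118016

theorem ctE11_16_9_13_0 : checkR (nat_lit 72) (nat_lit 16) (nat_lit 9) (nat_lit 13) (nat_lit 1189039090416254992) (nat_lit 52349700624)
    DR_16_9_13_0 formsE P9 CE11_16 CE11_9 TBE11_16_9_13_0 = true := by
  decide +kernel

/-- table -/
def TBE11_16_9_13_1 : ℕ := nat_lit 22257654276349033761082479767848171154174376125679817868642749780834405897977633824596837413616573427573357571971123297970255097573798471539707468658094447406241362019549552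

theorem ctE11_16_9_13_1 : checkR (nat_lit 72) (nat_lit 16) (nat_lit 9) (nat_lit 13) (nat_lit 13871228414696902672) (nat_lit 6714231056)
    DR_16_9_13_1 formsE P9 CE11_16 CE11_9 TBE11_16_9_13_1 = true := by
  decide +kernel

/-- stage -/
def stE11_3 (a13 r_16_9_13_0 r_16_9_13_1 t13 : ℕ) : Bool :=
  allI (fun i9 c9 =>
    imp (chkE (nat_lit 13) (dg (nat_lit 12) r_16_9_13_0 i9) a13 t13) <|
    imp (chkE (nat_lit 13) (dg (nat_lit 12) r_16_9_13_1 i9) a13 t13) <|
    false) CE11_9 (nat_lit 0)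

/-- stage -/
def stE11_2 (a13 e_16_13_5_0 e_16_13_5_1 e_16_13_5_2 r_16_9_13_0 r_16_9_13_1 t13 : ℕ) : Bool :=
  allI (fun i5 c5 =>
    imp (chkE (nat_lit 5) e_16_13_5_0 c5.1 c5.2) <|
    imp (chkE (nat_lit 5) e_16_13_5_1 c5.1 c5.2) <|
    imp (chkE (nat_lit 5) e_16_13_5_2 c5.1 c5.2) <|
    stE11_3 a13 r_16_9_13_0 r_16_9_13_1 t13) CE11_5 (nat_lit 0)

/-- stage -/
def stE11_1 (r_16_13_5_0 r_16_13_5_1 r_16_13_5_2 r_16_9_13_0 r_16_9_13_1 : ℕ) : Bool :=
  allI (fun i13 c13 =>
    strict (dg (nat_lit 12) r_16_13_5_0 i13) fun e_16_13_5_0 =>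
    strict (dg (nat_lit 12) r_16_13_5_1 i13) fun e_16_13_5_1 =>
    strict (dg (nat_lit 12) r_16_13_5_2 i13) fun e_16_13_5_2 =>
    stE11_2 c13.1 e_16_13_5_0 e_16_13_5_1 e_16_13_5_2 r_16_9_13_0 r_16_9_13_1 c13.2) CE11_13 (nat_lit 0)

/-- stage -/
def bdE11 (i16 : ℕ) (c16 : ℕ × ℕ) : Bool :=
    strict (dg (nat_lit 84) TBE11_16_13_5_0 i16) fun r_16_13_5_0 =>
    strict (dg (nat_lit 84) TBE11_16_13_5_1 i16) fun r_16_13_5_1 =>
    strict (dg (nat_lit 84) TBE11_16_13_5_2 i16) fun r_16_13_5_2 =>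
    strict (dg (nat_lit 72) TBE11_16_9_13_0 i16) fun r_16_9_13_0 =>
    strict (dg (nat_lit 72) TBE11_16_9_13_1 i16) fun r_16_9_13_1 =>
    stE11_1 r_16_13_5_0 r_16_13_5_1 r_16_13_5_2 r_16_9_13_0 r_16_9_13_1

theorem allE11 : allI (fun i c => bdE11 i c) CE11_16 (nat_lit 0) = true := by
  decide +kernel

theorem falseE11 {a t : ℕ} {i16 i13 i5 i9 : ℕ}
    (b16 : i16 < CE11_16.length)
    (b13 : i13 < CE11_13.length)
    (b5 : i5 < CE11_5.length)
    (b9 : i9 < CE11_9.length)
    (top : bdE11 i16 CE11_16[i16] = true)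
    (h16 : CE11_16[i16] = (a % 16, t % 16))
    (h13 : CE11_13[i13] = (a % 13, t % 13))
    (h5 : CE11_5[i5] = (a % 5, t % 5))
    (h9 : CE11_9[i9] = (a % 9, t % 9))
    (r_16_13_5_0 : chkE 5 (dg 12 (dg 84 TBE11_16_13_5_0 i16) i13) (a % 5) (t % 5) = true)
    (r_16_13_5_1 : chkE 5 (dg 12 (dg 84 TBE11_16_13_5_1 i16) i13) (a % 5) (t % 5) = true)
    (r_16_13_5_2 : chkE 5 (dg 12 (dg 84 TBE11_16_13_5_2 i16) i13) (a % 5) (t % 5) = true)
    (r_16_9_13_0 : chkE 13 (dg 12 (dg 72 TBE11_16_9_13_0 i16) i9) (a % 13) (t % 13) = true)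
    (r_16_9_13_1 : chkE 13 (dg 12 (dg 72 TBE11_16_9_13_1 i16) i9) (a % 13) (t % 13) = true)
    : False := by
  try rw [h16] at top
  unfold bdE11 at top
  simp only [strict_eq] at top
  unfold stE11_1 at top
  replace top := allI_get top b13
  try rw [h13] at top
  simp only [strict_eq] at top
  unfold stE11_2 at top
  replace top := allI_get top b5
  try rw [h5] at top
  replace top := imp_spec top r_16_13_5_0
  replace top := imp_spec top r_16_13_5_1
  replace top := imp_spec top r_16_13_5_2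
  unfold stE11_3 at top
  replace top := allI_get top b9
  try rw [h9] at top
  replace top := imp_spec top r_16_9_13_0
  replace top := imp_spec top r_16_9_13_1
  exact Bool.false_ne_true top

/-- no large solution with `a = 11` -/
theorem noE11 {a n d : ℕ} (ha : a = 11) (hn2 : n % 2 = 1)
    (hd : (d : ℤ) = ((a : ℤ) * n) ^ 2 - 4 * a)
    (j3 : jacobiSym d 3 = -1)
    (j5 : jacobiSym d 5 = -1)
    (j13 : jacobiSym d 13 = -1)
    (hT : AllE a n d) : False := by
  have ha2 : a % 2 = 1 := by rw [ha]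
  have q2 := d2_E hd ha2 hn2
  have q3 : ¬ 3 ∣ d := nd_of (by norm_num) j3
  have q5 : ¬ 5 ∣ d := nd_of (by norm_num) j5
  have q13 : ¬ 13 ∣ d := nd_of (by norm_num) j13
  have c16 : Nat.Coprime 16 d := cop_of (p := 2) (k := 4) (by norm_num) q2
  have c13 : Nat.Coprime 13 d := cop_of (p := 13) (k := 1) (by norm_num) q13
  have c5 : Nat.Coprime 5 d := cop_of (p := 5) (k := 1) (by norm_num) q5
  have c9 : Nat.Coprime 9 d := cop_of (p := 3) (k := 2) (by norm_num) q3
  obtain ⟨i16, b16, e16⟩ := memCheck_spec memE11_16 (Nat.mod_lt a (by norm_num))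
    (Nat.mod_lt n (by norm_num)) (spc_of (cl2_of (n := 16) (by norm_num) ha2 hn2) (by rw [ha]))
  obtain ⟨i13, b13, e13⟩ := memCheck_spec memE11_13 (Nat.mod_lt a (by norm_num))
    (Nat.mod_lt n (by norm_num)) (spc_of (clE_of (n := 13) (by norm_num) (by norm_num) hd j13) (by rw [ha]))
  obtain ⟨i5, b5, e5⟩ := memCheck_spec memE11_5 (Nat.mod_lt a (by norm_num))
    (Nat.mod_lt n (by norm_num)) (spc_of (clE_of (n := 5) (by norm_num) (by norm_num) hd j5) (by rw [ha]))
  obtain ⟨i9, b9, e9⟩ := memCheck_spec memE11_9 (Nat.mod_lt a (by norm_num))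
    (Nat.mod_lt n (by norm_num)) (spc_of (clE_of (n := 9) (by norm_num) (by norm_num) hd j3) (by rw [ha]))
  exact falseE11 b16 b13 b5 b9 (allI_get allE11 b16)
    e16 e13 e5 e9
    (chkE_of hyp_16_13_5_0 dr_16_13_5_0 ctE11_16_13_5_0 hT (by norm_num) (by norm_num) (c16.mul_left c13) q5 b16 b13 e16 e13)
    (chkE_of hyp_16_13_5_1 dr_16_13_5_1 ctE11_16_13_5_1 hT (by norm_num) (by norm_num) (c16.mul_left c13) q5 b16 b13 e16 e13)
    (chkE_of hyp_16_13_5_2 dr_16_13_5_2 ctE11_16_13_5_2 hT (by norm_num) (by norm_num) (c16.mul_left c13) q5 b16 b13 e16 e13)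
    (chkE_of hyp_16_9_13_0 dr_16_9_13_0 ctE11_16_9_13_0 hT (by norm_num) (by norm_num) (c16.mul_left c9) q13 b16 b9 e16 e9)
    (chkE_of hyp_16_9_13_1 dr_16_9_13_1 ctE11_16_9_13_1 hT (by norm_num) (by norm_num) (c16.mul_left c9) q13 b16 b9 e16 e9)

end Pool.Agent.LibH4.KF
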