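import Pool.Agent.Lib_helper4.KR_3_17_5_0
import Pool.Agent.Lib_helper4.KR_17_19_7_0
import Pool.Agent.Lib_helper4.KR_9_19_7_0

/-! generated data -/

namespace Pool.Agent.LibH4.KF

open Ker T6

/-- classes -/
def CE13_17 : List (ℕ × ℕ) := [((nat_lit 13), (nat_lit 2)),((nat_lit 13), (nat_lit 3)),((nat_lit 13), (nat_lit 6)),((nat_lit 13), (nat_lit 8)),((nat_lit 13), (nat_lit 9)),((nat_lit 13), (nat_lit 11)),((nat_lit 13), (nat_lit 14)),((nat_lit 13), (nat_lit 15))]

lemma memE13_17 : memCheck (nat_lit 17) (spc (nat_lit 13) (clE (nat_lit 17))) CE13_17 = true := by decide +kernel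

/-- classes -/
def CE13_3 : List (ℕ × ℕ) := [((nat_lit 1), (nat_lit 0))]

lemma memE13_3 : memCheck (nat_lit 3) (spc (nat_lit 1) (clE (nat_lit 3))) CE13_3 = true := by decide +kernel

/-- classes -/
def CE13_5 : List (ℕ × ℕ) := [((nat_lit 3), (nat_lit 0)),((nat_lit 3), (nat_lit 1)),((nat_lit 3), (nat_lit 4))]

lemma memE13_5 : memCheck (nat_lit 5) (spc (nat_lit 3) (clE (nat_lit 5))) CE13_5 = true := by decide +kernel

/-- classes -/
def CE13_19 : List (ℕ × ℕ) := [((nat_lit 13), (nat_lit 1)),((nat_lit 13), (nat_lit 5)),((nat_lit 13), (nat_lit 7)),((nat_lit 13), (nat_lit 8)),((nat_lit 13), (nat_lit 9)),((nat_lit 13), (nat_lit 10)),((nat_lit 13), (nat_lit 11)),((nat_lit 13), (nat_lit 12)),((nat_lit 13), (nat_lit 14)),((nat_lit 13), (nat_lit 18))]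

lemma memE13_19 : memCheck (nat_lit 19) (spc (nat_lit 13) (clE (nat_lit 19))) CE13_19 = true := by decide +kernel

/-- classes -/
def CE13_7 : List (ℕ × ℕ) := [((nat_lit 6), (nat_lit 1)),((nat_lit 6), (nat_lit 3)),((nat_lit 6), (nat_lit 4)),((nat_lit 6), (nat_lit 6))]

lemma memE13_7 : memCheck (nat_lit 7) (spc (nat_lit 6) (clE (nat_lit 7))) CE13_7 = true := by decide +kernel

/-- classes -/
def CE13_9 : List (ℕ × ℕ) := [((nat_lit 4), (nat_lit 0)),((nat_lit 4), (nat_lit 3)),((nat_lit 4), (nat_lit 6))]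

lemma memE13_9 : memCheck (nat_lit 9) (spc (nat_lit 4) (clE (nat_lit 3))) CE13_9 = true := by decide +kernel

/-- table -/
def TBE13_3_17_5_0 : ℕ := nat_lit 77375974822382292938276865

theorem ctE13_3_17_5_0 : checkR (nat_lit 96) (nat_lit 3) (nat_lit 17) (nat_lit 5) (nat_lit 1040) (nat_lit 23207668197802189840)
    DR_3_17_5_0 formsE P17 CE13_3 CE13_17 TBE13_3_17_5_0 = true := by
  decide +kernel

/-- table -/
def TBE13_17_19_7_0 : ℕ := nat_lit 2382132234341723785029035018286553659950320812336024639651865709177853401926254203324992917080902669257438285520018539527719781368638772877306059065274331620844195646918625488479131606635452432444728596077793512340682425720626225036522353716828146958151979853163802151573368159101526022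

theorem ctE13_17_19_7_0 : checkR (nat_lit 120) (nat_lit 17) (nat_lit 19) (nat_lit 7) (nat_lit 20038315816949735696) (nat_lit 28965222469048455157008)
    DR_17_19_7_0 formsE P19 CE13_17 CE13_19 TBE13_17_19_7_0 = true := by
  decide +kernel

/-- table -/
def TBE13_9_19_7_0 : ℕ := nat_lit 636489158811079967770023392087837710496624637925890861564644807198900065154670110499942262516940450464732240

theorem ctE13_9_19_7_0 : checkR (nat_lit 120) (nat_lit 9) (nat_lit 19) (nat_lit 7) (nat_lit 5370938384) (nat_lit 29594582504636525196048)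
    DR_9_19_7_0 formsE P19 CE13_9 CE13_19 TBE13_9_19_7_0 = true := by
  decide +kernel

/-- stage -/
def stE13_5 (a3 a7 i19 t3 t7 : ℕ) : Bool :=
  allI (fun i9 c9 =>
    imp (Nat.beq (Nat.mod c9.1 (nat_lit 3)) a3) <| imp (Nat.beq (Nat.mod c9.2 (nat_lit 3)) t3) <|
    imp (chkE (nat_lit 7) (dg (nat_lit 12) (dg (nat_lit 120) TBE13_9_19_7_0 i9) i19) a7 t7) <|
    false) CE13_9 (nat_lit 0)

/-- stage -/
def stE13_4 (a3 e_17_19_7_0 i19 t3 : ℕ) : Bool :=
  allI (fun i7 c7 =>
    imp (chkE (nat_lit 7) e_17_19_7_0 c7.1 c7.2) <|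
    stE13_5 a3 c7.1 i19 t3 c7.2) CE13_7 (nat_lit 0)

/-- stage -/
def stE13_3 (a3 r_17_19_7_0 t3 : ℕ) : Bool :=
  allI (fun i19 c19 =>
    strict (dg (nat_lit 12) r_17_19_7_0 i19) fun e_17_19_7_0 =>
    stE13_4 a3 e_17_19_7_0 i19 t3) CE13_19 (nat_lit 0)

/-- stage -/
def stE13_2 (a3 e_3_17_5_0 r_17_19_7_0 t3 : ℕ) : Bool :=
  allI (fun i5 c5 =>
    imp (chkE (nat_lit 5) e_3_17_5_0 c5.1 c5.2) <|
    stE13_3 a3 r_17_19_7_0 t3) CE13_5 (nat_lit 0)

/-- stage -/
def stE13_1 (i17 r_17_19_7_0 : ℕ) : Bool :=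
  allI (fun i3 c3 =>
    strict (dg (nat_lit 12) (dg (nat_lit 96) TBE13_3_17_5_0 i3) i17) fun e_3_17_5_0 =>
    stE13_2 c3.1 e_3_17_5_0 r_17_19_7_0 c3.2) CE13_3 (nat_lit 0)

/-- stage -/
def bdE13 (i17 : ℕ) (c17 : ℕ × ℕ) : Bool :=
    strict (dg (nat_lit 120) TBE13_17_19_7_0 i17) fun r_17_19_7_0 =>
    stE13_1 i17 r_17_19_7_0

theorem allE13 : allI (fun i c => bdE13 i c) CE13_17 (nat_lit 0) = true := by
  decide +kernel

theorem falseE13 {a t : ℕ} {i17 i3 i5 i19 i7 i9 : ℕ}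
    (b17 : i17 < CE13_17.length)
    (b3 : i3 < CE13_3.length)
    (b5 : i5 < CE13_5.length)
    (b19 : i19 < CE13_19.length)
    (b7 : i7 < CE13_7.length)
    (b9 : i9 < CE13_9.length)
    (top : bdE13 i17 CE13_17[i17] = true)
    (h17 : CE13_17[i17] = (a % 17, t % 17))
    (h3 : CE13_3[i3] = (a % 3, t % 3))
    (h5 : CE13_5[i5] = (a % 5, t % 5))
    (h19 : CE13_19[i19] = (a % 19, t % 19))
    (h7 : CE13_7[i7] = (a % 7, t % 7))
    (h9 : CE13_9[i9] = (a % 9, t % 9))
    (r_3_17_5_0 : chkE 5 (dg 12 (dg 96 TBE13_3_17_5_0 i3) i17) (a % 5) (t % 5) = true)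
    (r_17_19_7_0 : chkE 7 (dg 12 (dg 120 TBE13_17_19_7_0 i17) i19) (a % 7) (t % 7) = true)
    (r_9_19_7_0 : chkE 7 (dg 12 (dg 120 TBE13_9_19_7_0 i9) i19) (a % 7) (t % 7) = true)
    : False := by
  try rw [h17] at top
  unfold bdE13 at top
  simp only [strict_eq] at top
  unfold stE13_1 at top
  replace top := allI_get top b3
  try rw [h3] at top
  simp only [strict_eq] at top
  unfold stE13_2 at top
  replace top := allI_get top b5
  try rw [h5] at top
  replace top := imp_spec top r_3_17_5_0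
  unfold stE13_3 at top
  replace top := allI_get top b19
  try rw [h19] at top
  simp only [strict_eq] at top
  unfold stE13_4 at top
  replace top := allI_get top b7
  try rw [h7] at top
  replace top := imp_spec top r_17_19_7_0
  unfold stE13_5 at top
  replace top := allI_get top b9
  try rw [h9] at top
  have f1 : Nat.beq (Nat.mod (a % 9) (nat_lit 3)) (a % 3) = true := by
    rw [Nat.beq_eq]; have : a % 9 % 3 = a % 3 := by omega
    exact this
  have f2 : Nat.beq (Nat.mod (t % 9) (nat_lit 3)) (t % 3) = true := by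
    rw [Nat.beq_eq]; have : t % 9 % 3 = t % 3 := by omega
    exact this
  replace top := imp_spec (imp_spec top f1) f2
  replace top := imp_spec top r_9_19_7_0
  exact Bool.false_ne_true top

/-- no large solution with `a = 13` -/
theorem noE13 {a n d : ℕ} (ha : a = 13) (hn2 : n % 2 = 1)
    (hd : (d : ℤ) = ((a : ℤ) * n) ^ 2 - 4 * a)
    (j3 : jacobiSym d 3 = -1)
    (j5 : jacobiSym d 5 = -1)
    (j7 : jacobiSym d 7 = -1)
    (j17 : jacobiSym d 17 = -1)
    (j19 : jacobiSym d 19 = -1)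
    (hT : AllE a n d) : False := by
  have ha2 : a % 2 = 1 := by rw [ha]
  have q2 := d2_E hd ha2 hn2
  have q3 : ¬ 3 ∣ d := nd_of (by norm_num) j3
  have q5 : ¬ 5 ∣ d := nd_of (by norm_num) j5
  have q7 : ¬ 7 ∣ d := nd_of (by norm_num) j7
  have q17 : ¬ 17 ∣ d := nd_of (by norm_num) j17
  have q19 : ¬ 19 ∣ d := nd_of (by norm_num) j19
  have c17 : Nat.Coprime 17 d := cop_of (p := 17) (k := 1) (by norm_num) q17
  have c3 : Nat.Coprime 3 d := cop_of (p := 3) (k := 1) (by norm_num) q3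
  have c5 : Nat.Coprime 5 d := cop_of (p := 5) (k := 1) (by norm_num) q5
  have c19 : Nat.Coprime 19 d := cop_of (p := 19) (k := 1) (by norm_num) q19
  have c7 : Nat.Coprime 7 d := cop_of (p := 7) (k := 1) (by norm_num) q7
  have c9 : Nat.Coprime 9 d := cop_of (p := 3) (k := 2) (by norm_num) q3
  obtain ⟨i17, b17, e17⟩ := memCheck_spec memE13_17 (Nat.mod_lt a (by norm_num))
    (Nat.mod_lt n (by norm_num)) (spc_of (clE_of (n := 17) (by norm_num) (by norm_num) hd j17) (by rw [ha]))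
  obtain ⟨i3, b3, e3⟩ := memCheck_spec memE13_3 (Nat.mod_lt a (by norm_num))
    (Nat.mod_lt n (by norm_num)) (spc_of (clE_of (n := 3) (by norm_num) (by norm_num) hd j3) (by rw [ha]))
  obtain ⟨i5, b5, e5⟩ := memCheck_spec memE13_5 (Nat.mod_lt a (by norm_num))
    (Nat.mod_lt n (by norm_num)) (spc_of (clE_of (n := 5) (by norm_num) (by norm_num) hd j5) (by rw [ha]))
  obtain ⟨i19, b19, e19⟩ := memCheck_spec memE13_19 (Nat.mod_lt a (by norm_num))
    (Nat.mod_lt n (by norm_num)) (spc_of (clE_of (n := 19) (by norm_num) (by norm_num) hd j19) (by rw [ha]))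
  obtain ⟨i7, b7, e7⟩ := memCheck_spec memE13_7 (Nat.mod_lt a (by norm_num))
    (Nat.mod_lt n (by norm_num)) (spc_of (clE_of (n := 7) (by norm_num) (by norm_num) hd j7) (by rw [ha]))
  obtain ⟨i9, b9, e9⟩ := memCheck_spec memE13_9 (Nat.mod_lt a (by norm_num))
    (Nat.mod_lt n (by norm_num)) (spc_of (clE_of (n := 9) (by norm_num) (by norm_num) hd j3) (by rw [ha]))
  exact falseE13 b17 b3 b5 b19 b7 b9 (allI_get allE13 b17)
    e17 e3 e5 e19 e7 e9
    (chkE_of hyp_3_17_5_0 dr_3_17_5_0 ctE13_3_17_5_0 hT (by norm_num) (by norm_num) (c3.mul_left c17) q5 b3 b17 e3 e17)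
    (chkE_of hyp_17_19_7_0 dr_17_19_7_0 ctE13_17_19_7_0 hT (by norm_num) (by norm_num) (c17.mul_left c19) q7 b17 b19 e17 e19)
    (chkE_of hyp_9_19_7_0 dr_9_19_7_0 ctE13_9_19_7_0 hT (by norm_num) (by norm_num) (c9.mul_left c19) q7 b9 b19 e9 e19)

end Pool.Agent.LibH4.KF
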