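import Pool.Agent.Lib_helper4.KR_16_13_5_0
import Pool.Agent.Lib_helper4.KR_16_13_5_1
import Pool.Agent.Lib_helper4.KR_16_13_5_2

/-! generated data -/

namespace Pool.Agent.LibH4.KF

open Ker T6

/-- classes -/
def CE17_16 : List (ℕ × ℕ) := [((nat_lit 1), (nat_lit 1)),((nat_lit 1), (nat_lit 3)),((nat_lit 1), (nat_lit 5)),((nat_lit 1), (nat_lit 7)),((nat_lit 1), (nat_lit 9)),((nat_lit 1), (nat_lit 11)),((nat_lit 1), (nat_lit 13)),((nat_lit 1), (nat_lit 15))]

lemma memE17_16 : memCheck (nat_lit 16) (spc (nat_lit 1) cl2) CE17_16 = true := by decide +kernel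

/-- classes -/
def CE17_13 : List (ℕ × ℕ) := [((nat_lit 4), (nat_lit 3)),((nat_lit 4), (nat_lit 4)),((nat_lit 4), (nat_lit 5)),((nat_lit 4), (nat_lit 8)),((nat_lit 4), (nat_lit 9)),((nat_lit 4), (nat_lit 10))]

lemma memE17_13 : memCheck (nat_lit 13) (spc (nat_lit 4) (clE (nat_lit 13))) CE17_13 = true := by decide +kernel

/-- classes -/
def CE17_5 : List (ℕ × ℕ) := [((nat_lit 2), (nat_lit 0)),((nat_lit 2), (nat_lit 2)),((nat_lit 2), (nat_lit 3))]

lemma memE17_5 : memCheck (nat_lit 5) (spc (nat_lit 2) (clE (nat_lit 5))) CE17_5 = true := by decide +kernel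

/-- table -/
def TBE17_16_13_5_0 : ℕ := nat_lit 44226122166306539987948653378067619042474947412825191176041456770799125682911974157957871969492861996803638717214187969265785999473162954123582543767531449169832058880

theorem ctE17_16_13_5_0 : checkR (nat_lit 72) (nat_lit 16) (nat_lit 13) (nat_lit 5) (nat_lit 1166467763814805520) (nat_lit 1183156957090320)
    DR_16_13_5_0 formsE P13 CE17_16 CE17_13 TBE17_16_13_5_0 = true := by
  decide +kernel

/-- table -/
def TBE17_16_13_5_1 : ℕ := nat_lit 14742041601511450859933639250571998958012099744142108776934719305695800257996001814086393219608568638395836038066591430215302914583435872858961153558525041971398983680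

theorem ctE17_16_13_5_1 : checkR (nat_lit 72) (nat_lit 16) (nat_lit 13) (nat_lit 5) (nat_lit 1161981756374523920) (nat_lit 1183156957090320)
    DR_16_13_5_1 formsE P13 CE17_16 CE17_13 TBE17_16_13_5_1 = true := by
  decide +kernel

/-- table -/
def TBE17_16_13_5_2 : ℕ := nat_lit 120811034517363513117388679092211269575855108219551779636473676484472591240849199915266408966833468014367238301375062533824731574744395248086091154476851110804683594145795

theorem ctE17_16_13_5_2 : checkR (nat_lit 72) (nat_lit 16) (nat_lit 13) (nat_lit 5) (nat_lit 4625249869016080400) (nat_lit 353030276977680)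
    DR_16_13_5_2 formsE P13 CE17_16 CE17_13 TBE17_16_13_5_2 = true := by
  decide +kernel

/-- stage -/
def stE17_2 (e_16_13_5_0 e_16_13_5_1 e_16_13_5_2 : ℕ) : Bool :=
  allI (fun i5 c5 =>
    imp (chkE (nat_lit 5) e_16_13_5_0 c5.1 c5.2) <|
    imp (chkE (nat_lit 5) e_16_13_5_1 c5.1 c5.2) <|
    imp (chkE (nat_lit 5) e_16_13_5_2 c5.1 c5.2) <|
    false) CE17_5 (nat_lit 0)

/-- stage -/
def stE17_1 (r_16_13_5_0 r_16_13_5_1 r_16_13_5_2 : ℕ) : Bool :=
  allI (fun i13 c13 =>
    strict (dg (nat_lit 12) r_16_13_5_0 i13) fun e_16_13_5_0 =>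
    strict (dg (nat_lit 12) r_16_13_5_1 i13) fun e_16_13_5_1 =>
    strict (dg (nat_lit 12) r_16_13_5_2 i13) fun e_16_13_5_2 =>
    stE17_2 e_16_13_5_0 e_16_13_5_1 e_16_13_5_2) CE17_13 (nat_lit 0)

/-- stage -/
def bdE17 (i16 : ℕ) (c16 : ℕ × ℕ) : Bool :=
    strict (dg (nat_lit 72) TBE17_16_13_5_0 i16) fun r_16_13_5_0 =>
    strict (dg (nat_lit 72) TBE17_16_13_5_1 i16) fun r_16_13_5_1 =>
    strict (dg (nat_lit 72) TBE17_16_13_5_2 i16) fun r_16_13_5_2 =>
    stE17_1 r_16_13_5_0 r_16_13_5_1 r_16_13_5_2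

theorem allE17 : allI (fun i c => bdE17 i c) CE17_16 (nat_lit 0) = true := by
  decide +kernel

theorem falseE17 {a t : ℕ} {i16 i13 i5 : ℕ}
    (b16 : i16 < CE17_16.length)
    (b13 : i13 < CE17_13.length)
    (b5 : i5 < CE17_5.length)
    (top : bdE17 i16 CE17_16[i16] = true)
    (h16 : CE17_16[i16] = (a % 16, t % 16))
    (h13 : CE17_13[i13] = (a % 13, t % 13))
    (h5 : CE17_5[i5] = (a % 5, t % 5))
    (r_16_13_5_0 : chkE 5 (dg 12 (dg 72 TBE17_16_13_5_0 i16) i13) (a % 5) (t % 5) = true)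
    (r_16_13_5_1 : chkE 5 (dg 12 (dg 72 TBE17_16_13_5_1 i16) i13) (a % 5) (t % 5) = true)
    (r_16_13_5_2 : chkE 5 (dg 12 (dg 72 TBE17_16_13_5_2 i16) i13) (a % 5) (t % 5) = true)
    : False := by
  try rw [h16] at top
  unfold bdE17 at top
  simp only [strict_eq] at top
  unfold stE17_1 at top
  replace top := allI_get top b13
  try rw [h13] at top
  simp only [strict_eq] at top
  unfold stE17_2 at top
  replace top := allI_get top b5
  try rw [h5] at top
  replace top := imp_spec top r_16_13_5_0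
  replace top := imp_spec top r_16_13_5_1
  replace top := imp_spec top r_16_13_5_2
  exact Bool.false_ne_true top

/-- no large solution with `a = 17` -/
theorem noE17 {a n d : ℕ} (ha : a = 17) (hn2 : n % 2 = 1)
    (hd : (d : ℤ) = ((a : ℤ) * n) ^ 2 - 4 * a)
    (j5 : jacobiSym d 5 = -1)
    (j13 : jacobiSym d 13 = -1)
    (hT : AllE a n d) : False := by
  have ha2 : a % 2 = 1 := by rw [ha]
  have q2 := d2_E hd ha2 hn2
  have q5 : ¬ 5 ∣ d := nd_of (by norm_num) j5
  have q13 : ¬ 13 ∣ d := nd_of (by norm_num) j13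
  have c16 : Nat.Coprime 16 d := cop_of (p := 2) (k := 4) (by norm_num) q2
  have c13 : Nat.Coprime 13 d := cop_of (p := 13) (k := 1) (by norm_num) q13
  have c5 : Nat.Coprime 5 d := cop_of (p := 5) (k := 1) (by norm_num) q5
  obtain ⟨i16, b16, e16⟩ := memCheck_spec memE17_16 (Nat.mod_lt a (by norm_num))
    (Nat.mod_lt n (by norm_num)) (spc_of (cl2_of (n := 16) (by norm_num) ha2 hn2) (by rw [ha]))
  obtain ⟨i13, b13, e13⟩ := memCheck_spec memE17_13 (Nat.mod_lt a (by norm_num))
    (Nat.mod_lt n (by norm_num)) (spc_of (clE_of (n := 13) (by norm_num) (by norm_num) hd j13) (by rw [ha]))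
  obtain ⟨i5, b5, e5⟩ := memCheck_spec memE17_5 (Nat.mod_lt a (by norm_num))
    (Nat.mod_lt n (by norm_num)) (spc_of (clE_of (n := 5) (by norm_num) (by norm_num) hd j5) (by rw [ha]))
  exact falseE17 b16 b13 b5 (allI_get allE17 b16)
    e16 e13 e5
    (chkE_of hyp_16_13_5_0 dr_16_13_5_0 ctE17_16_13_5_0 hT (by norm_num) (by norm_num) (c16.mul_left c13) q5 b16 b13 e16 e13)
    (chkE_of hyp_16_13_5_1 dr_16_13_5_1 ctE17_16_13_5_1 hT (by norm_num) (by norm_num) (c16.mul_left c13) q5 b16 b13 e16 e13)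
    (chkE_of hyp_16_13_5_2 dr_16_13_5_2 ctE17_16_13_5_2 hT (by norm_num) (by norm_num) (c16.mul_left c13) q5 b16 b13 e16 e13)

end Pool.Agent.LibH4.KF
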