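import Pool.Agent.Lib_helper4.KR_16_13_5_0
import Pool.Agent.Lib_helper4.KR_16_13_5_1
import Pool.Agent.Lib_helper4.KR_16_13_5_2
import Pool.Agent.Lib_helper4.KR_16_9_13_0
import Pool.Agent.Lib_helper4.KR_16_9_13_1
import Pool.Agent.Lib_helper4.KR_16_7_13_0

/-! generated data -/

namespace Pool.Agent.LibH4.KF

open Ker T6

/-- classes -/
def CE19_16 : List (ℕ × ℕ) := [((nat_lit 3), (nat_lit 1)),((nat_lit 3), (nat_lit 3)),((nat_lit 3), (nat_lit 5)),((nat_lit 3), (nat_lit 7)),((nat_lit 3), (nat_lit 9)),((nat_lit 3), (nat_lit 11)),((nat_lit 3), (nat_lit 13)),((nat_lit 3), (nat_lit 15))]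

lemma memE19_16 : memCheck (nat_lit 16) (spc (nat_lit 3) cl2) CE19_16 = true := by decide +kernel

/-- classes -/
def CE19_13 : List (ℕ × ℕ) := [((nat_lit 6), (nat_lit 0)),((nat_lit 6), (nat_lit 4)),((nat_lit 6), (nat_lit 5)),((nat_lit 6), (nat_lit 6)),((nat_lit 6), (nat_lit 7)),((nat_lit 6), (nat_lit 8)),((nat_lit 6), (nat_lit 9))]

lemma memE19_13 : memCheck (nat_lit 13) (spc (nat_lit 6) (clE (nat_lit 13))) CE19_13 = true := by decide +kernel

/-- classes -/
def CE19_5 : List (ℕ × ℕ) := [((nat_lit 4), (nat_lit 2)),((nat_lit 4), (nat_lit 3))]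

lemma memE19_5 : memCheck (nat_lit 5) (spc (nat_lit 4) (clE (nat_lit 5))) CE19_5 = true := by decide +kernel

/-- classes -/
def CE19_9 : List (ℕ × ℕ) := [((nat_lit 1), (nat_lit 0)),((nat_lit 1), (nat_lit 3)),((nat_lit 1), (nat_lit 6))]

lemma memE19_9 : memCheck (nat_lit 9) (spc (nat_lit 1) (clE (nat_lit 3))) CE19_9 = true := by decide +kernel

/-- classes -/
def CE19_7 : List (ℕ × ℕ) := [((nat_lit 5), (nat_lit 1)),((nat_lit 5), (nat_lit 2)),((nat_lit 5), (nat_lit 5)),((nat_lit 5), (nat_lit 6))]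

lemma memE19_7 : memCheck (nat_lit 7) (spc (nat_lit 5) (clE (nat_lit 7))) CE19_7 = true := by decide +kernel

/-- table -/
def TBE19_16_13_5_0 : ℕ := nat_lit 3504239616489766311623012916246160144836185806167210462485572762007634696814242784922338634718354253605181315449653870816828778831031476920656781943290878506697926136057551811952178027554366554115

theorem ctE19_16_13_5_0 : checkR (nat_lit 84) (nat_lit 16) (nat_lit 13) (nat_lit 5) (nat_lit 1166467763814805520) (nat_lit 1183156957090320)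
    DR_16_13_5_0 formsE P13 CE19_16 CE19_13 TBE19_16_13_5_0 = true := by
  decide +kernel

/-- table -/
def TBE19_16_13_5_1 : ℕ := nat_lit 285431007881516660300692035821502801832231815044866083158926344639414491704322257198630838253209767765959745473552366598394957642055729932635144478719845949264592266262765244402583340761219075

theorem ctE19_16_13_5_1 : checkR (nat_lit 84) (nat_lit 16) (nat_lit 13) (nat_lit 5) (nat_lit 1161981756374523920) (nat_lit 1183156957090320)
    DR_16_13_5_1 formsE P13 CE19_16 CE19_13 TBE19_16_13_5_1 = true := by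
  decide +kernel

/-- table -/
def TBE19_16_13_5_2 : ℕ := nat_lit 9572803975694761613438655286480228407162768014867925243251227869081739663284997820152047645352435153889267290496196928508780822462812372895516109958341871404705872089130259236859146403461028208717825

theorem ctE19_16_13_5_2 : checkR (nat_lit 84) (nat_lit 16) (nat_lit 13) (nat_lit 5) (nat_lit 4625249869016080400) (nat_lit 353030276977680)
    DR_16_13_5_2 formsE P13 CE19_16 CE19_13 TBE19_16_13_5_2 = true := by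
  decide +kernel

/-- table -/
def TBE19_16_9_13_0 : ℕ := nat_lit 607202643352559069665010761321984996190293283847212018099156132080621248021035778055

theorem ctE19_16_9_13_0 : checkR (nat_lit 36) (nat_lit 16) (nat_lit 9) (nat_lit 13) (nat_lit 1189039090416254992) (nat_lit 52349700624)
    DR_16_9_13_0 formsE P9 CE19_16 CE19_9 TBE19_16_9_13_0 = true := by
  decide +kernel

/-- table -/
def TBE19_16_9_13_1 : ℕ := nat_lit 139420234720449195736169625609373506117250559184547508298081871057467189443383309833328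

theorem ctE19_16_9_13_1 : checkR (nat_lit 36) (nat_lit 16) (nat_lit 9) (nat_lit 13) (nat_lit 13871228414696902672) (nat_lit 6714231056)
    DR_16_9_13_1 formsE P9 CE19_16 CE19_9 TBE19_16_9_13_1 = true := by
  decide +kernel

/-- table -/
def TBE19_16_7_13_0 : ℕ := nat_lit 25461009925916347188838371830867897134614472478011359894244977211630324678148346459815984437886773398239968269576791

theorem ctE19_16_7_13_0 : checkR (nat_lit 48) (nat_lit 16) (nat_lit 7) (nat_lit 13) (nat_lit 1175581068095410192) (nat_lit 205760784)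
    DR_16_7_13_0 formsE P7 CE19_16 CE19_7 TBE19_16_7_13_0 = true := by
  decide +kernel

/-- stage -/
def stE19_4 (a13 r_16_7_13_0 t13 : ℕ) : Bool :=
  allI (fun i7 c7 =>
    imp (chkE (nat_lit 13) (dg (nat_lit 12) r_16_7_13_0 i7) a13 t13) <|
    false) CE19_7 (nat_lit 0)

/-- stage -/
def stE19_3 (a13 r_16_7_13_0 r_16_9_13_0 r_16_9_13_1 t13 : ℕ) : Bool :=
  allI (fun i9 c9 =>
    imp (chkE (nat_lit 13) (dg (nat_lit 12) r_16_9_13_0 i9) a13 t13) <|
    imp (chkE (nat_lit 13) (dg (nat_lit 12) r_16_9_13_1 i9) a13 t13) <|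
    stE19_4 a13 r_16_7_13_0 t13) CE19_9 (nat_lit 0)

/-- stage -/
def stE19_2 (a13 e_16_13_5_0 e_16_13_5_1 e_16_13_5_2 r_16_7_13_0 r_16_9_13_0 r_16_9_13_1 t13 : ℕ) : Bool :=
  allI (fun i5 c5 =>
    imp (chkE (nat_lit 5) e_16_13_5_0 c5.1 c5.2) <|
    imp (chkE (nat_lit 5) e_16_13_5_1 c5.1 c5.2) <|
    imp (chkE (nat_lit 5) e_16_13_5_2 c5.1 c5.2) <|
    stE19_3 a13 r_16_7_13_0 r_16_9_13_0 r_16_9_13_1 t13) CE19_5 (nat_lit 0)

/-- stage -/
def stE19_1 (r_16_13_5_0 r_16_13_5_1 r_16_13_5_2 r_16_7_13_0 r_16_9_13_0 r_16_9_13_1 : ℕ) : Bool :=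
  allI (fun i13 c13 =>
    strict (dg (nat_lit 12) r_16_13_5_0 i13) fun e_16_13_5_0 =>
    strict (dg (nat_lit 12) r_16_13_5_1 i13) fun e_16_13_5_1 =>
    strict (dg (nat_lit 12) r_16_13_5_2 i13) fun e_16_13_5_2 =>
    stE19_2 c13.1 e_16_13_5_0 e_16_13_5_1 e_16_13_5_2 r_16_7_13_0 r_16_9_13_0 r_16_9_13_1 c13.2) CE19_13 (nat_lit 0)

/-- stage -/
def bdE19 (i16 : ℕ) (c16 : ℕ × ℕ) : Bool :=
    strict (dg (nat_lit 84) TBE19_16_13_5_0 i16) fun r_16_13_5_0 =>
    strict (dg (nat_lit 84) TBE19_16_13_5_1 i16) fun r_16_13_5_1 =>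
    strict (dg (nat_lit 84) TBE19_16_13_5_2 i16) fun r_16_13_5_2 =>
    strict (dg (nat_lit 36) TBE19_16_9_13_0 i16) fun r_16_9_13_0 =>
    strict (dg (nat_lit 36) TBE19_16_9_13_1 i16) fun r_16_9_13_1 =>
    strict (dg (nat_lit 48) TBE19_16_7_13_0 i16) fun r_16_7_13_0 =>
    stE19_1 r_16_13_5_0 r_16_13_5_1 r_16_13_5_2 r_16_7_13_0 r_16_9_13_0 r_16_9_13_1

theorem allE19 : allI (fun i c => bdE19 i c) CE19_16 (nat_lit 0) = true := by
  decide +kernel

theorem falseE19 {a t : ℕ} {i16 i13 i5 i9 i7 : ℕ}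
    (b16 : i16 < CE19_16.length)
    (b13 : i13 < CE19_13.length)
    (b5 : i5 < CE19_5.length)
    (b9 : i9 < CE19_9.length)
    (b7 : i7 < CE19_7.length)
    (top : bdE19 i16 CE19_16[i16] = true)
    (h16 : CE19_16[i16] = (a % 16, t % 16))
    (h13 : CE19_13[i13] = (a % 13, t % 13))
    (h5 : CE19_5[i5] = (a % 5, t % 5))
    (h9 : CE19_9[i9] = (a % 9, t % 9))
    (h7 : CE19_7[i7] = (a % 7, t % 7))
    (r_16_13_5_0 : chkE 5 (dg 12 (dg 84 TBE19_16_13_5_0 i16) i13) (a % 5) (t % 5) = true)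
    (r_16_13_5_1 : chkE 5 (dg 12 (dg 84 TBE19_16_13_5_1 i16) i13) (a % 5) (t % 5) = true)
    (r_16_13_5_2 : chkE 5 (dg 12 (dg 84 TBE19_16_13_5_2 i16) i13) (a % 5) (t % 5) = true)
    (r_16_9_13_0 : chkE 13 (dg 12 (dg 36 TBE19_16_9_13_0 i16) i9) (a % 13) (t % 13) = true)
    (r_16_9_13_1 : chkE 13 (dg 12 (dg 36 TBE19_16_9_13_1 i16) i9) (a % 13) (t % 13) = true)
    (r_16_7_13_0 : chkE 13 (dg 12 (dg 48 TBE19_16_7_13_0 i16) i7) (a % 13) (t % 13) = true)
    : False := by
  try rw [h16] at top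
  unfold bdE19 at top
  simp only [strict_eq] at top
  unfold stE19_1 at top
  replace top := allI_get top b13
  try rw [h13] at top
  simp only [strict_eq] at top
  unfold stE19_2 at top
  replace top := allI_get top b5
  try rw [h5] at top
  replace top := imp_spec top r_16_13_5_0
  replace top := imp_spec top r_16_13_5_1
  replace top := imp_spec top r_16_13_5_2
  unfold stE19_3 at top
  replace top := allI_get top b9
  try rw [h9] at top
  replace top := imp_spec top r_16_9_13_0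
  replace top := imp_spec top r_16_9_13_1
  unfold stE19_4 at top
  replace top := allI_get top b7
  try rw [h7] at top
  replace top := imp_spec top r_16_7_13_0
  exact Bool.false_ne_true top

/-- no large solution with `a = 19` -/
theorem noE19 {a n d : ℕ} (ha : a = 19) (hn2 : n % 2 = 1)
    (hd : (d : ℤ) = ((a : ℤ) * n) ^ 2 - 4 * a)
    (j3 : jacobiSym d 3 = -1)
    (j5 : jacobiSym d 5 = -1)
    (j7 : jacobiSym d 7 = -1)
    (j13 : jacobiSym d 13 = -1)
    (hT : AllE a n d) : False := by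
  have ha2 : a % 2 = 1 := by rw [ha]
  have q2 := d2_E hd ha2 hn2
  have q3 : ¬ 3 ∣ d := nd_of (by norm_num) j3
  have q5 : ¬ 5 ∣ d := nd_of (by norm_num) j5
  have q7 : ¬ 7 ∣ d := nd_of (by norm_num) j7
  have q13 : ¬ 13 ∣ d := nd_of (by norm_num) j13
  have c16 : Nat.Coprime 16 d := cop_of (p := 2) (k := 4) (by norm_num) q2
  have c13 : Nat.Coprime 13 d := cop_of (p := 13) (k := 1) (by norm_num) q13
  have c5 : Nat.Coprime 5 d := cop_of (p := 5) (k := 1) (by norm_num) q5
  have c9 : Nat.Coprime 9 d := cop_of (p := 3) (k := 2) (by norm_num) q3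
  have c7 : Nat.Coprime 7 d := cop_of (p := 7) (k := 1) (by norm_num) q7
  obtain ⟨i16, b16, e16⟩ := memCheck_spec memE19_16 (Nat.mod_lt a (by norm_num))
    (Nat.mod_lt n (by norm_num)) (spc_of (cl2_of (n := 16) (by norm_num) ha2 hn2) (by rw [ha]))
  obtain ⟨i13, b13, e13⟩ := memCheck_spec memE19_13 (Nat.mod_lt a (by norm_num))
    (Nat.mod_lt n (by norm_num)) (spc_of (clE_of (n := 13) (by norm_num) (by norm_num) hd j13) (by rw [ha]))
  obtain ⟨i5, b5, e5⟩ := memCheck_spec memE19_5 (Nat.mod_lt a (by norm_num))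
    (Nat.mod_lt n (by norm_num)) (spc_of (clE_of (n := 5) (by norm_num) (by norm_num) hd j5) (by rw [ha]))
  obtain ⟨i9, b9, e9⟩ := memCheck_spec memE19_9 (Nat.mod_lt a (by norm_num))
    (Nat.mod_lt n (by norm_num)) (spc_of (clE_of (n := 9) (by norm_num) (by norm_num) hd j3) (by rw [ha]))
  obtain ⟨i7, b7, e7⟩ := memCheck_spec memE19_7 (Nat.mod_lt a (by norm_num))
    (Nat.mod_lt n (by norm_num)) (spc_of (clE_of (n := 7) (by norm_num) (by norm_num) hd j7) (by rw [ha]))
  exact falseE19 b16 b13 b5 b9 b7 (allI_get allE19 b16)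
    e16 e13 e5 e9 e7
    (chkE_of hyp_16_13_5_0 dr_16_13_5_0 ctE19_16_13_5_0 hT (by norm_num) (by norm_num) (c16.mul_left c13) q5 b16 b13 e16 e13)
    (chkE_of hyp_16_13_5_1 dr_16_13_5_1 ctE19_16_13_5_1 hT (by norm_num) (by norm_num) (c16.mul_left c13) q5 b16 b13 e16 e13)
    (chkE_of hyp_16_13_5_2 dr_16_13_5_2 ctE19_16_13_5_2 hT (by norm_num) (by norm_num) (c16.mul_left c13) q5 b16 b13 e16 e13)
    (chkE_of hyp_16_9_13_0 dr_16_9_13_0 ctE19_16_9_13_0 hT (by norm_num) (by norm_num) (c16.mul_left c9) q13 b16 b9 e16 e9)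
    (chkE_of hyp_16_9_13_1 dr_16_9_13_1 ctE19_16_9_13_1 hT (by norm_num) (by norm_num) (c16.mul_left c9) q13 b16 b9 e16 e9)
    (chkE_of hyp_16_7_13_0 dr_16_7_13_0 ctE19_16_7_13_0 hT (by norm_num) (by norm_num) (c16.mul_left c7) q13 b16 b7 e16 e7)

end Pool.Agent.LibH4.KF
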