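import Pool.Agent.Lib_helper4.KData

/-! generated data -/

namespace Pool.Agent.LibH4.KF

open Ker T6

/-- weights -/
def DR_13_11_7_0 : List ((ℕ × ℕ) × ℕ) := [((nat_lit 1, nat_lit 0), nat_lit 15095849699286165408966227689198726511710923099116350767839642976379796290201642778541862971918097595264865573776343164862402847265374755159936007076579514515241788506112),
  ((nat_lit 1, nat_lit 1), nat_lit 15095849701043553609959670019731193748226950489602336091498012080961005606044217071501422420384849336608316101446078208632074683127750650323635341263194776353777683529730),
  ((nat_lit 1, nat_lit 2), nat_lit 15095849701043553609959670019731193748226950489602335973291993491777148017067938432283778248308232999213251705770656909114157218826047706681737182170351220587695123333124),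
  ((nat_lit 1, nat_lit 3), nat_lit 15095849702800941810953090498023808772841720924013645821941483179511567293460935352446961356065568084266476649233900136252436333376627536650935324755432170029768109064194),
  ((nat_lit 1, nat_lit 4), nat_lit 15095849701922247710456378698003226102565946712950584248134385094172985182534019141027247442638032714367114063129062841511722206323216301905274565635052198760022150283270),
  ((nat_lit 1, nat_lit 5), nat_lit 15095849703679635911449827272032793971033164830301579182800393743767666842250526839381085461966332320328477727930193099605463664249946295808142282966964295245035148148738),
  ((nat_lit 1, nat_lit 6), nat_lit 15095849704558330011946532828556276009391020350829080805708774665118776008814854362364576562270923077636409316903003839565412389536531882287546150367923228331406862123011),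
  ((nat_lit 1, nat_lit 7), nat_lit 15095849700164859509462945732716409813926797358267938969030110324757892752559502364917380332386648957481105797558195378820108656270493892757634242758223777707457914142724),
  ((nat_lit 1, nat_lit 8), nat_lit 15095849701043553609959673141479744064197000513646599286983678123296765208737024008241828222710669422722166374546729275828531074253678487887052273351694757112000559710213),
  ((nat_lit 1, nat_lit 9), nat_lit 15095849702800941810953090498023808772863902281566612380220116689379191175367466949690904930156454299838092979022800218987932542782242128631631652634992698593354480418817),
  ((nat_lit 1, nat_lit 10), nat_lit 15095849701922247710456375576254675786518261937470938118374504865497501631215099439224511207863573515060055130809241764409818250501557368656188110776318736133212506030085),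
  ((nat_lit 1, nat_lit 11), nat_lit 15095849703679635911449811663290042391072007922315430216968865000776813533348386430833127494965104460580059301946707301582564061779577267220648272913749815265593863045123),
  ((nat_lit 1, nat_lit 12), nat_lit 15095849703679635911449808541541492075090867219494683643838866712520763990911941221823350276453453090445915213107655808235194779156984171128615295522922091623452051243013),
  ((nat_lit 0, nat_lit 1), nat_lit 9365245650947998875502344655898375544559267992616680102412860688165553984122481696058389392439075034354049843031857566133292766152210941034627072)]

theorem dr_13_11_7_0 : DR_13_11_7_0 = DRstd 13 11 7 66 78 356384072942608 6693271442960 P13 P11 :=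
  drCheck_spec (by decide +kernel : drCheck (nat_lit 13) (nat_lit 11) (nat_lit 143) (nat_lit 7)
    (nat_lit 66) (nat_lit 78) (nat_lit 356384072942608) (nat_lit 6693271442960) P13 P11 DR_13_11_7_0 = true)

lemma hyp_13_11_7_0 : Hyp 13 11 7 66 78 356384072942608 6693271442960 P13 P11 :=
  mkHyp (by norm_num) (by norm_num) (by norm_num) (by norm_num) (by norm_num)
    (by decide +kernel : tabCheck (nat_lit 13) (nat_lit 7) (nat_lit 356384072942608) = true)
    (by decide +kernel : tabCheck (nat_lit 11) (nat_lit 7) (nat_lit 6693271442960) = true)
    (by decide +kernel : obCheck (nat_lit 13) (nat_lit 11) (nat_lit 143) (nat_lit 7) (nat_lit 356384072942608) (nat_lit 6693271442960) = true)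
    isP1_13 isP1_11 (by decide) (by decide) (by norm_num) (by norm_num) (by norm_num)

end Pool.Agent.LibH4.KF
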