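import Pool.Agent.Lib_helper4.KR_16_7_13_0
import Pool.Agent.Lib_helper4.KR_13_11_7_0
import Pool.Agent.Lib_helper4.KR_7_17_13_0

/-! generated data -/

namespace Pool.Agent.LibH4.KF

open Ker T6

/-- classes -/
def CE5_16 : List (ℕ × ℕ) := [((nat_lit 5), (nat_lit 1)),((nat_lit 5), (nat_lit 3)),((nat_lit 5), (nat_lit 5)),((nat_lit 5), (nat_lit 7)),((nat_lit 5), (nat_lit 9)),((nat_lit 5), (nat_lit 11)),((nat_lit 5), (nat_lit 13)),((nat_lit 5), (nat_lit 15))]

lemma memE5_16 : memCheck (nat_lit 16) (spc (nat_lit 5) cl2) CE5_16 = true := by decide +kernel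

/-- classes -/
def CE5_7 : List (ℕ × ℕ) := [((nat_lit 5), (nat_lit 1)),((nat_lit 5), (nat_lit 2)),((nat_lit 5), (nat_lit 5)),((nat_lit 5), (nat_lit 6))]

lemma memE5_7 : memCheck (nat_lit 7) (spc (nat_lit 5) (clE (nat_lit 7))) CE5_7 = true := by decide +kernel

/-- classes -/
def CE5_13 : List (ℕ × ℕ) := [((nat_lit 5), (nat_lit 0)),((nat_lit 5), (nat_lit 1)),((nat_lit 5), (nat_lit 2)),((nat_lit 5), (nat_lit 5)),((nat_lit 5), (nat_lit 8)),((nat_lit 5), (nat_lit 11)),((nat_lit 5), (nat_lit 12))]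

lemma memE5_13 : memCheck (nat_lit 13) (spc (nat_lit 5) (clE (nat_lit 13))) CE5_13 = true := by decide +kernel

/-- classes -/
def CE5_11 : List (ℕ × ℕ) := [((nat_lit 5), (nat_lit 0)),((nat_lit 5), (nat_lit 3)),((nat_lit 5), (nat_lit 4)),((nat_lit 5), (nat_lit 7)),((nat_lit 5), (nat_lit 8))]

lemma memE5_11 : memCheck (nat_lit 11) (spc (nat_lit 5) (clE (nat_lit 11))) CE5_11 = true := by decide +kernel

/-- classes -/
def CE5_17 : List (ℕ × ℕ) := [((nat_lit 5), (nat_lit 0)),((nat_lit 5), (nat_lit 1)),((nat_lit 5), (nat_lit 2)),((nat_lit 5), (nat_lit 4)),((nat_lit 5), (nat_lit 5)),((nat_lit 5), (nat_lit 12)),((nat_lit 5), (nat_lit 13)),((nat_lit 5), (nat_lit 15)),((nat_lit 5), (nat_lit 16))]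

lemma memE5_17 : memCheck (nat_lit 17) (spc (nat_lit 5) (clE (nat_lit 17))) CE5_17 = true := by decide +kernel

/-- table -/
def TBE5_16_7_13_0 : ℕ := nat_lit 25884297155521310524056242969257095502389433624210786351789657744410975143390542336501600949255494161116119651814027

theorem ctE5_16_7_13_0 : checkR (nat_lit 48) (nat_lit 16) (nat_lit 7) (nat_lit 13) (nat_lit 1175581068095410192) (nat_lit 205760784)
    DR_16_7_13_0 formsE P7 CE5_16 CE5_7 TBE5_16_7_13_0 = true := by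
  decide +kernel

/-- table -/
def TBE5_13_11_7_0 : ℕ := nat_lit 1081090285600083376521397566134349302137132446705165634414964907059705714011427326583466371771890086543905640994519760231540048

theorem ctE5_13_11_7_0 : checkR (nat_lit 60) (nat_lit 13) (nat_lit 11) (nat_lit 7) (nat_lit 356384072942608) (nat_lit 6693271442960)
    DR_13_11_7_0 formsE P11 CE5_13 CE5_11 TBE5_13_11_7_0 = true := by
  decide +kernel

/-- table -/
def TBE5_7_17_13_0 : ℕ := nat_lit 2326467926491026986274616512094538405618150679597490567565200000386766013228436679598934414139382234782704964369567595745651270485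

theorem ctE5_7_17_13_0 : checkR (nat_lit 108) (nat_lit 7) (nat_lit 17) (nat_lit 13) (nat_lit 205760784) (nat_lit 32865112616832437264)
    DR_7_17_13_0 formsE P17 CE5_7 CE5_17 TBE5_7_17_13_0 = true := by
  decide +kernel

/-- stage -/
def stE5_4 (a13 r_7_17_13_0 t13 : ℕ) : Bool :=
  allI (fun i17 c17 =>
    imp (chkE (nat_lit 13) (dg (nat_lit 12) r_7_17_13_0 i17) a13 t13) <|
    false) CE5_17 (nat_lit 0)

/-- stage -/
def stE5_3 (a13 a7 r_13_11_7_0 r_7_17_13_0 t13 t7 : ℕ) : Bool :=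
  allI (fun i11 c11 =>
    imp (chkE (nat_lit 7) (dg (nat_lit 12) r_13_11_7_0 i11) a7 t7) <|
    stE5_4 a13 r_7_17_13_0 t13) CE5_11 (nat_lit 0)

/-- stage -/
def stE5_2 (a7 e_16_7_13_0 r_7_17_13_0 t7 : ℕ) : Bool :=
  allI (fun i13 c13 =>
    imp (chkE (nat_lit 13) e_16_7_13_0 c13.1 c13.2) <|
    strict (dg (nat_lit 60) TBE5_13_11_7_0 i13) fun r_13_11_7_0 =>
    stE5_3 c13.1 a7 r_13_11_7_0 r_7_17_13_0 c13.2 t7) CE5_13 (nat_lit 0)

/-- stage -/
def stE5_1 (r_16_7_13_0 : ℕ) : Bool :=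
  allI (fun i7 c7 =>
    strict (dg (nat_lit 12) r_16_7_13_0 i7) fun e_16_7_13_0 =>
    strict (dg (nat_lit 108) TBE5_7_17_13_0 i7) fun r_7_17_13_0 =>
    stE5_2 c7.1 e_16_7_13_0 r_7_17_13_0 c7.2) CE5_7 (nat_lit 0)

/-- stage -/
def bdE5 (i16 : ℕ) (c16 : ℕ × ℕ) : Bool :=
    strict (dg (nat_lit 48) TBE5_16_7_13_0 i16) fun r_16_7_13_0 =>
    stE5_1 r_16_7_13_0

theorem allE5 : allI (fun i c => bdE5 i c) CE5_16 (nat_lit 0) = true := by
  decide +kernel

theorem falseE5 {a t : ℕ} {i16 i7 i13 i11 i17 : ℕ}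
    (b16 : i16 < CE5_16.length)
    (b7 : i7 < CE5_7.length)
    (b13 : i13 < CE5_13.length)
    (b11 : i11 < CE5_11.length)
    (b17 : i17 < CE5_17.length)
    (top : bdE5 i16 CE5_16[i16] = true)
    (h16 : CE5_16[i16] = (a % 16, t % 16))
    (h7 : CE5_7[i7] = (a % 7, t % 7))
    (h13 : CE5_13[i13] = (a % 13, t % 13))
    (h11 : CE5_11[i11] = (a % 11, t % 11))
    (h17 : CE5_17[i17] = (a % 17, t % 17))
    (r_16_7_13_0 : chkE 13 (dg 12 (dg 48 TBE5_16_7_13_0 i16) i7) (a % 13) (t % 13) = true)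
    (r_13_11_7_0 : chkE 7 (dg 12 (dg 60 TBE5_13_11_7_0 i13) i11) (a % 7) (t % 7) = true)
    (r_7_17_13_0 : chkE 13 (dg 12 (dg 108 TBE5_7_17_13_0 i7) i17) (a % 13) (t % 13) = true)
    : False := by
  try rw [h16] at top
  unfold bdE5 at top
  simp only [strict_eq] at top
  unfold stE5_1 at top
  replace top := allI_get top b7
  try rw [h7] at top
  simp only [strict_eq] at top
  unfold stE5_2 at top
  replace top := allI_get top b13
  try rw [h13] at top
  simp only [strict_eq] at top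
  replace top := imp_spec top r_16_7_13_0
  unfold stE5_3 at top
  replace top := allI_get top b11
  try rw [h11] at top
  replace top := imp_spec top r_13_11_7_0
  unfold stE5_4 at top
  replace top := allI_get top b17
  try rw [h17] at top
  replace top := imp_spec top r_7_17_13_0
  exact Bool.false_ne_true top

/-- no large solution with `a = 5` -/
theorem noE5 {a n d : ℕ} (ha : a = 5) (hn2 : n % 2 = 1)
    (hd : (d : ℤ) = ((a : ℤ) * n) ^ 2 - 4 * a)
    (j7 : jacobiSym d 7 = -1)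
    (j11 : jacobiSym d 11 = -1)
    (j13 : jacobiSym d 13 = -1)
    (j17 : jacobiSym d 17 = -1)
    (hT : AllE a n d) : False := by
  have ha2 : a % 2 = 1 := by rw [ha]
  have q2 := d2_E hd ha2 hn2
  have q7 : ¬ 7 ∣ d := nd_of (by norm_num) j7
  have q11 : ¬ 11 ∣ d := nd_of (by norm_num) j11
  have q13 : ¬ 13 ∣ d := nd_of (by norm_num) j13
  have q17 : ¬ 17 ∣ d := nd_of (by norm_num) j17
  have c16 : Nat.Coprime 16 d := cop_of (p := 2) (k := 4) (by norm_num) q2
  have c7 : Nat.Coprime 7 d := cop_of (p := 7) (k := 1) (by norm_num) q7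
  have c13 : Nat.Coprime 13 d := cop_of (p := 13) (k := 1) (by norm_num) q13
  have c11 : Nat.Coprime 11 d := cop_of (p := 11) (k := 1) (by norm_num) q11
  have c17 : Nat.Coprime 17 d := cop_of (p := 17) (k := 1) (by norm_num) q17
  obtain ⟨i16, b16, e16⟩ := memCheck_spec memE5_16 (Nat.mod_lt a (by norm_num))
    (Nat.mod_lt n (by norm_num)) (spc_of (cl2_of (n := 16) (by norm_num) ha2 hn2) (by rw [ha]))
  obtain ⟨i7, b7, e7⟩ := memCheck_spec memE5_7 (Nat.mod_lt a (by norm_num))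
    (Nat.mod_lt n (by norm_num)) (spc_of (clE_of (n := 7) (by norm_num) (by norm_num) hd j7) (by rw [ha]))
  obtain ⟨i13, b13, e13⟩ := memCheck_spec memE5_13 (Nat.mod_lt a (by norm_num))
    (Nat.mod_lt n (by norm_num)) (spc_of (clE_of (n := 13) (by norm_num) (by norm_num) hd j13) (by rw [ha]))
  obtain ⟨i11, b11, e11⟩ := memCheck_spec memE5_11 (Nat.mod_lt a (by norm_num))
    (Nat.mod_lt n (by norm_num)) (spc_of (clE_of (n := 11) (by norm_num) (by norm_num) hd j11) (by rw [ha]))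
  obtain ⟨i17, b17, e17⟩ := memCheck_spec memE5_17 (Nat.mod_lt a (by norm_num))
    (Nat.mod_lt n (by norm_num)) (spc_of (clE_of (n := 17) (by norm_num) (by norm_num) hd j17) (by rw [ha]))
  exact falseE5 b16 b7 b13 b11 b17 (allI_get allE5 b16)
    e16 e7 e13 e11 e17
    (chkE_of hyp_16_7_13_0 dr_16_7_13_0 ctE5_16_7_13_0 hT (by norm_num) (by norm_num) (c16.mul_left c7) q13 b16 b7 e16 e7)
    (chkE_of hyp_13_11_7_0 dr_13_11_7_0 ctE5_13_11_7_0 hT (by norm_num) (by norm_num) (c13.mul_left c11) q7 b13 b11 e13 e11)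
    (chkE_of hyp_7_17_13_0 dr_7_17_13_0 ctE5_7_17_13_0 hT (by norm_num) (by norm_num) (c7.mul_left c17) q13 b7 b17 e7 e17)

end Pool.Agent.LibH4.KF
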