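import Pool.Agent.Lib_helper4.KR_16_9_13_0
import Pool.Agent.Lib_helper4.KR_16_9_13_1

/-! generated data -/

namespace Pool.Agent.LibH4.KF

open Ker T6

/-- classes -/
def CE7_16 : List (ℕ × ℕ) := [((nat_lit 7), (nat_lit 1)),((nat_lit 7), (nat_lit 3)),((nat_lit 7), (nat_lit 5)),((nat_lit 7), (nat_lit 7)),((nat_lit 7), (nat_lit 9)),((nat_lit 7), (nat_lit 11)),((nat_lit 7), (nat_lit 13)),((nat_lit 7), (nat_lit 15))]

lemma memE7_16 : memCheck (nat_lit 16) (spc (nat_lit 7) cl2) CE7_16 = true := by decide +kernel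

/-- classes -/
def CE7_13 : List (ℕ × ℕ) := [((nat_lit 7), (nat_lit 0)),((nat_lit 7), (nat_lit 1)),((nat_lit 7), (nat_lit 4)),((nat_lit 7), (nat_lit 6)),((nat_lit 7), (nat_lit 7)),((nat_lit 7), (nat_lit 9)),((nat_lit 7), (nat_lit 12))]

lemma memE7_13 : memCheck (nat_lit 13) (spc (nat_lit 7) (clE (nat_lit 13))) CE7_13 = true := by decide +kernel

/-- classes -/
def CE7_9 : List (ℕ × ℕ) := [((nat_lit 7), (nat_lit 0)),((nat_lit 7), (nat_lit 3)),((nat_lit 7), (nat_lit 6))]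

lemma memE7_9 : memCheck (nat_lit 9) (spc (nat_lit 7) (clE (nat_lit 3))) CE7_9 = true := by decide +kernel

/-- table -/
def TBE7_16_9_13_0 : ℕ := nat_lit 1335644148954880831041253061375722161689931503742355595294807820305013070233172189184

theorem ctE7_16_9_13_0 : checkR (nat_lit 36) (nat_lit 16) (nat_lit 9) (nat_lit 13) (nat_lit 1189039090416254992) (nat_lit 52349700624)
    DR_16_9_13_0 formsE P9 CE7_16 CE7_9 TBE7_16_9_13_0 = true := by
  decide +kernel

/-- table -/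
def TBE7_16_9_13_1 : ℕ := nat_lit 190671202371194440357355501117989090748709675889712100226934180837912254121673404626473

theorem ctE7_16_9_13_1 : checkR (nat_lit 36) (nat_lit 16) (nat_lit 9) (nat_lit 13) (nat_lit 13871228414696902672) (nat_lit 6714231056)
    DR_16_9_13_1 formsE P9 CE7_16 CE7_9 TBE7_16_9_13_1 = true := by
  decide +kernel

/-- stage -/
def stE7_2 (a13 r_16_9_13_0 r_16_9_13_1 t13 : ℕ) : Bool :=
  allI (fun i9 c9 =>
    imp (chkE (nat_lit 13) (dg (nat_lit 12) r_16_9_13_0 i9) a13 t13) <|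
    imp (chkE (nat_lit 13) (dg (nat_lit 12) r_16_9_13_1 i9) a13 t13) <|
    false) CE7_9 (nat_lit 0)

/-- stage -/
def stE7_1 (r_16_9_13_0 r_16_9_13_1 : ℕ) : Bool :=
  allI (fun i13 c13 =>
    stE7_2 c13.1 r_16_9_13_0 r_16_9_13_1 c13.2) CE7_13 (nat_lit 0)

/-- stage -/
def bdE7 (i16 : ℕ) (c16 : ℕ × ℕ) : Bool :=
    strict (dg (nat_lit 36) TBE7_16_9_13_0 i16) fun r_16_9_13_0 =>
    strict (dg (nat_lit 36) TBE7_16_9_13_1 i16) fun r_16_9_13_1 =>
    stE7_1 r_16_9_13_0 r_16_9_13_1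

theorem allE7 : allI (fun i c => bdE7 i c) CE7_16 (nat_lit 0) = true := by
  decide +kernel

theorem falseE7 {a t : ℕ} {i16 i13 i9 : ℕ}
    (b16 : i16 < CE7_16.length)
    (b13 : i13 < CE7_13.length)
    (b9 : i9 < CE7_9.length)
    (top : bdE7 i16 CE7_16[i16] = true)
    (h16 : CE7_16[i16] = (a % 16, t % 16))
    (h13 : CE7_13[i13] = (a % 13, t % 13))
    (h9 : CE7_9[i9] = (a % 9, t % 9))
    (r_16_9_13_0 : chkE 13 (dg 12 (dg 36 TBE7_16_9_13_0 i16) i9) (a % 13) (t % 13) = true)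
    (r_16_9_13_1 : chkE 13 (dg 12 (dg 36 TBE7_16_9_13_1 i16) i9) (a % 13) (t % 13) = true)
    : False := by
  try rw [h16] at top
  unfold bdE7 at top
  simp only [strict_eq] at top
  unfold stE7_1 at top
  replace top := allI_get top b13
  try rw [h13] at top
  unfold stE7_2 at top
  replace top := allI_get top b9
  try rw [h9] at top
  replace top := imp_spec top r_16_9_13_0
  replace top := imp_spec top r_16_9_13_1
  exact Bool.false_ne_true top

/-- no large solution with `a = 7` -/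
theorem noE7 {a n d : ℕ} (ha : a = 7) (hn2 : n % 2 = 1)
    (hd : (d : ℤ) = ((a : ℤ) * n) ^ 2 - 4 * a)
    (j3 : jacobiSym d 3 = -1)
    (j13 : jacobiSym d 13 = -1)
    (hT : AllE a n d) : False := by
  have ha2 : a % 2 = 1 := by rw [ha]
  have q2 := d2_E hd ha2 hn2
  have q3 : ¬ 3 ∣ d := nd_of (by norm_num) j3
  have q13 : ¬ 13 ∣ d := nd_of (by norm_num) j13
  have c16 : Nat.Coprime 16 d := cop_of (p := 2) (k := 4) (by norm_num) q2
  have c13 : Nat.Coprime 13 d := cop_of (p := 13) (k := 1) (by norm_num) q13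
  have c9 : Nat.Coprime 9 d := cop_of (p := 3) (k := 2) (by norm_num) q3
  obtain ⟨i16, b16, e16⟩ := memCheck_spec memE7_16 (Nat.mod_lt a (by norm_num))
    (Nat.mod_lt n (by norm_num)) (spc_of (cl2_of (n := 16) (by norm_num) ha2 hn2) (by rw [ha]))
  obtain ⟨i13, b13, e13⟩ := memCheck_spec memE7_13 (Nat.mod_lt a (by norm_num))
    (Nat.mod_lt n (by norm_num)) (spc_of (clE_of (n := 13) (by norm_num) (by norm_num) hd j13) (by rw [ha]))
  obtain ⟨i9, b9, e9⟩ := memCheck_spec memE7_9 (Nat.mod_lt a (by norm_num))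
    (Nat.mod_lt n (by norm_num)) (spc_of (clE_of (n := 9) (by norm_num) (by norm_num) hd j3) (by rw [ha]))
  exact falseE7 b16 b13 b9 (allI_get allE7 b16)
    e16 e13 e9
    (chkE_of hyp_16_9_13_0 dr_16_9_13_0 ctE7_16_9_13_0 hT (by norm_num) (by norm_num) (c16.mul_left c9) q13 b16 b9 e16 e9)
    (chkE_of hyp_16_9_13_1 dr_16_9_13_1 ctE7_16_9_13_1 hT (by norm_num) (by norm_num) (c16.mul_left c9) q13 b16 b9 e16 e9)

end Pool.Agent.LibH4.KF
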