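import Pool.Agent.Lib_helper4.KS_E3
import Pool.Agent.Lib_helper4.KS_E5
import Pool.Agent.Lib_helper4.KS_E7
import Pool.Agent.Lib_helper4.KS_E11
import Pool.Agent.Lib_helper4.KS_E13
import Pool.Agent.Lib_helper4.KS_E17
import Pool.Agent.Lib_helper4.KS_E19
import Pool.Agent.Lib_helper4.KS_B3
import Pool.Agent.Lib_helper4.KS_B5
import Pool.Agent.Lib_helper4.KS_B7
import Pool.Agent.Lib_helper4.KS_B11
import Pool.Agent.Lib_helper4.KS_B13
import Pool.Agent.Lib_helper4.KS_B17
import Pool.Agent.Lib_helper4.KS_B19
import Pool.Agent.Lib_helper4.KN_E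
import Pool.Agent.Lib_helper4.KN_B

/-!
No field of the families `(an)² ∓ 4a` in which all the primes up to `29`, except possibly `a`, are inert
satisfies all the relations.
-/

namespace Pool.Agent.LibH4.KF

/-- **no large field** in the family `(an)² - 4a` -/
theorem noLargeE {a n d : ℕ} (ha2 : a % 2 = 1) (hn2 : n % 2 = 1)
    (hd : (d : ℤ) = ((a : ℤ) * n) ^ 2 - 4 * a)
    (hin : ∀ p : ℕ, p.Prime → p ≠ 2 → p ≤ 29 → p ≠ a → jacobiSym d p = -1)
    (hT : AllE a n d) : False := by
  by_cases h3 : a = 3
  · exact noE3 h3 hn2 hd (hin 5 (by norm_num) (by norm_num) (by norm_num) (by omega)) (hin 7 (by norm_num) (by norm_num) (by norm_num) (by omega)) (hin 13 (by norm_num) (by norm_num) (by norm_num) (by omega)) (hin 17 (by norm_num) (by norm_num) (by norm_num) (by omega)) (hin 23 (by norm_num) (by norm_num) (by norm_num) (by omega)) (hin 29 (by norm_num) (by norm_num) (by norm_num) (by omega)) hT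
  by_cases h5 : a = 5
  · exact noE5 h5 hn2 hd (hin 7 (by norm_num) (by norm_num) (by norm_num) (by omega)) (hin 11 (by norm_num) (by norm_num) (by norm_num) (by omega)) (hin 13 (by norm_num) (by norm_num) (by norm_num) (by omega)) (hin 17 (by norm_num) (by norm_num) (by norm_num) (by omega)) hT
  by_cases h7 : a = 7
  · exact noE7 h7 hn2 hd (hin 3 (by norm_num) (by norm_num) (by norm_num) (by omega)) (hin 13 (by norm_num) (by norm_num) (by norm_num) (by omega)) hT
  by_cases h11 : a = 11
  · exact noE11 h11 hn2 hd (hin 3 (by norm_num) (by norm_num) (by norm_num) (by omega)) (hin 5 (by norm_num) (by norm_num) (by norm_num) (by omega)) (hin 13 (by norm_num) (by norm_num) (by norm_num) (by omega)) hT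
  by_cases h13 : a = 13
  · exact noE13 h13 hn2 hd (hin 3 (by norm_num) (by norm_num) (by norm_num) (by omega)) (hin 5 (by norm_num) (by norm_num) (by norm_num) (by omega)) (hin 7 (by norm_num) (by norm_num) (by norm_num) (by omega)) (hin 17 (by norm_num) (by norm_num) (by norm_num) (by omega)) (hin 19 (by norm_num) (by norm_num) (by norm_num) (by omega)) hT
  by_cases h17 : a = 17
  · exact noE17 h17 hn2 hd (hin 5 (by norm_num) (by norm_num) (by norm_num) (by omega)) (hin 13 (by norm_num) (by norm_num) (by norm_num) (by omega)) hT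
  by_cases h19 : a = 19
  · exact noE19 h19 hn2 hd (hin 3 (by norm_num) (by norm_num) (by norm_num) (by omega)) (hin 5 (by norm_num) (by norm_num) (by norm_num) (by omega)) (hin 7 (by norm_num) (by norm_num) (by norm_num) (by omega)) (hin 13 (by norm_num) (by norm_num) (by norm_num) (by omega)) hT
  exact noE ha2 hn2 hd (hin 3 (by norm_num) (by norm_num) (by norm_num) (by omega)) (hin 5 (by norm_num) (by norm_num) (by norm_num) (by omega)) (hin 7 (by norm_num) (by norm_num) (by norm_num) (by omega)) (hin 11 (by norm_num) (by norm_num) (by norm_num) (by omega)) (hin 13 (by norm_num) (by norm_num) (by norm_num) (by omega)) (hin 17 (by norm_num) (by norm_num) (by norm_num) (by omega)) (hin 19 (by norm_num) (by norm_num) (by norm_num) (by omega)) hT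

/-- **no large field** in the family `(an)² + 4a` -/
theorem noLargeB {a n d : ℕ} (ha2 : a % 2 = 1) (hn2 : n % 2 = 1)
    (hd : (d : ℤ) = ((a : ℤ) * n) ^ 2 + 4 * a)
    (hin : ∀ p : ℕ, p.Prime → p ≠ 2 → p ≤ 29 → p ≠ a → jacobiSym d p = -1)
    (hT : AllB a n d) : False := by
  by_cases h3 : a = 3
  · exact noB3 h3 hn2 hd (hin 7 (by norm_num) (by norm_num) (by norm_num) (by omega)) (hin 13 (by norm_num) (by norm_num) (by norm_num) (by omega)) (hin 19 (by norm_num) (by norm_num) (by norm_num) (by omega)) hT
  by_cases h5 : a = 5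
  · exact noB5 h5 hn2 hd (hin 3 (by norm_num) (by norm_num) (by norm_num) (by omega)) (hin 7 (by norm_num) (by norm_num) (by norm_num) (by omega)) (hin 13 (by norm_num) (by norm_num) (by norm_num) (by omega)) hT
  by_cases h7 : a = 7
  · exact noB7 h7 hn2 hd (hin 3 (by norm_num) (by norm_num) (by norm_num) (by omega)) (hin 5 (by norm_num) (by norm_num) (by norm_num) (by omega)) (hin 13 (by norm_num) (by norm_num) (by norm_num) (by omega)) (hin 29 (by norm_num) (by norm_num) (by norm_num) (by omega)) hT
  by_cases h11 : a = 11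
  · exact noB11 h11 hn2 hd (hin 5 (by norm_num) (by norm_num) (by norm_num) (by omega)) (hin 7 (by norm_num) (by norm_num) (by norm_num) (by omega)) (hin 13 (by norm_num) (by norm_num) (by norm_num) (by omega)) (hin 23 (by norm_num) (by norm_num) (by norm_num) (by omega)) hT
  by_cases h13 : a = 13
  · exact noB13 h13 hn2 hd (hin 3 (by norm_num) (by norm_num) (by norm_num) (by omega)) (hin 5 (by norm_num) (by norm_num) (by norm_num) (by omega)) (hin 7 (by norm_num) (by norm_num) (by norm_num) (by omega)) (hin 17 (by norm_num) (by norm_num) (by norm_num) (by omega)) (hin 19 (by norm_num) (by norm_num) (by norm_num) (by omega)) hT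
  by_cases h17 : a = 17
  · exact noB17 h17 hn2 hd (hin 5 (by norm_num) (by norm_num) (by norm_num) (by omega)) (hin 13 (by norm_num) (by norm_num) (by norm_num) (by omega)) hT
  by_cases h19 : a = 19
  · exact noB19 h19 hn2 hd (hin 5 (by norm_num) (by norm_num) (by norm_num) (by omega)) (hin 7 (by norm_num) (by norm_num) (by norm_num) (by omega)) (hin 13 (by norm_num) (by norm_num) (by norm_num) (by omega)) (hin 17 (by norm_num) (by norm_num) (by norm_num) (by omega)) (hin 23 (by norm_num) (by norm_num) (by norm_num) (by omega)) hT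
  exact noB ha2 hn2 hd (hin 3 (by norm_num) (by norm_num) (by norm_num) (by omega)) (hin 5 (by norm_num) (by norm_num) (by norm_num) (by omega)) (hin 7 (by norm_num) (by norm_num) (by norm_num) (by omega)) (hin 11 (by norm_num) (by norm_num) (by norm_num) (by omega)) (hin 13 (by norm_num) (by norm_num) (by norm_num) (by omega)) (hin 17 (by norm_num) (by norm_num) (by norm_num) (by omega)) (hin 19 (by norm_num) (by norm_num) (by norm_num) (by omega)) hT

end Pool.Agent.LibH4.KF
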