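import Pool.Agent.Lib_helper4.KX_E

/-! generated data -/

namespace Pool.Agent.LibH4.KF

open Ker T6

theorem elimE_1 : allI (fun i c => bdE i c) ((CE_16.drop 16).take 16) (nat_lit 16) = true := by
  decide +kernel

end Pool.Agent.LibH4.KF
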