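import Pool.Agent.Lib_helper4.KX_E_0
import Pool.Agent.Lib_helper4.KX_E_1
import Pool.Agent.Lib_helper4.KX_E_2
import Pool.Agent.Lib_helper4.KX_E_3

/-! generated data -/

namespace Pool.Agent.LibH4.KF

open Ker T6

lemma topE {i : ℕ} (hi : i < CE_16.length) : bdE i CE_16[i] = true := by
  have hlen : CE_16.length = 64 := by decide +kernel
  rcases lt_or_ge i 16 with h | h
  · exact allI_take elimE_0 hi (by omega) (by omega)
  rcases lt_or_ge i 32 with h | h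
  · exact allI_take elimE_1 hi (by omega) (by omega)
  rcases lt_or_ge i 48 with h | h
  · exact allI_take elimE_2 hi (by omega) (by omega)
  exact allI_take elimE_3 hi (by omega) (by omega)

/-- no large solution -/
theorem noE {a n d : ℕ} (ha2 : a % 2 = 1) (hn2 : n % 2 = 1)
    (hd : (d : ℤ) = ((a : ℤ) * n) ^ 2 - 4 * a)
    (j3 : jacobiSym d 3 = -1)
    (j5 : jacobiSym d 5 = -1)
    (j7 : jacobiSym d 7 = -1)
    (j11 : jacobiSym d 11 = -1)
    (j13 : jacobiSym d 13 = -1)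
    (j17 : jacobiSym d 17 = -1)
    (j19 : jacobiSym d 19 = -1)
    (hT : AllE a n d) : False := by
  have q2 := d2_E hd ha2 hn2
  have q3 : ¬ 3 ∣ d := nd_of (by norm_num) j3
  have q5 : ¬ 5 ∣ d := nd_of (by norm_num) j5
  have q7 : ¬ 7 ∣ d := nd_of (by norm_num) j7
  have q11 : ¬ 11 ∣ d := nd_of (by norm_num) j11
  have q13 : ¬ 13 ∣ d := nd_of (by norm_num) j13
  have q17 : ¬ 17 ∣ d := nd_of (by norm_num) j17
  have q19 : ¬ 19 ∣ d := nd_of (by norm_num) j19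
  have c16 : Nat.Coprime 16 d := cop_of (p := 2) (k := 4) (by norm_num) q2
  have c13 : Nat.Coprime 13 d := cop_of (p := 13) (k := 1) (by norm_num) q13
  have c5 : Nat.Coprime 5 d := cop_of (p := 5) (k := 1) (by norm_num) q5
  have c7 : Nat.Coprime 7 d := cop_of (p := 7) (k := 1) (by norm_num) q7
  have c9 : Nat.Coprime 9 d := cop_of (p := 3) (k := 2) (by norm_num) q3
  have c11 : Nat.Coprime 11 d := cop_of (p := 11) (k := 1) (by norm_num) q11
  have c17 : Nat.Coprime 17 d := cop_of (p := 17) (k := 1) (by norm_num) q17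
  have c19 : Nat.Coprime 19 d := cop_of (p := 19) (k := 1) (by norm_num) q19
  obtain ⟨i16, b16, e16⟩ := memCheck_spec memE_16 (Nat.mod_lt a (by norm_num))
    (Nat.mod_lt n (by norm_num)) (cl2_of (n := 16) (by norm_num) ha2 hn2)
  obtain ⟨i13, b13, e13⟩ := memCheck_spec memE_13 (Nat.mod_lt a (by norm_num))
    (Nat.mod_lt n (by norm_num)) (clE_of (n := 13) (by norm_num) (by norm_num) hd j13)
  obtain ⟨i5, b5, e5⟩ := memCheck_spec memE_5 (Nat.mod_lt a (by norm_num))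
    (Nat.mod_lt n (by norm_num)) (clE_of (n := 5) (by norm_num) (by norm_num) hd j5)
  obtain ⟨i7, b7, e7⟩ := memCheck_spec memE_7 (Nat.mod_lt a (by norm_num))
    (Nat.mod_lt n (by norm_num)) (clE_of (n := 7) (by norm_num) (by norm_num) hd j7)
  obtain ⟨i9, b9, e9⟩ := memCheck_spec memE_9 (Nat.mod_lt a (by norm_num))
    (Nat.mod_lt n (by norm_num)) (clE_of (n := 9) (by norm_num) (by norm_num) hd j3)
  obtain ⟨i11, b11, e11⟩ := memCheck_spec memE_11 (Nat.mod_lt a (by norm_num))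
    (Nat.mod_lt n (by norm_num)) (clE_of (n := 11) (by norm_num) (by norm_num) hd j11)
  obtain ⟨i17, b17, e17⟩ := memCheck_spec memE_17 (Nat.mod_lt a (by norm_num))
    (Nat.mod_lt n (by norm_num)) (clE_of (n := 17) (by norm_num) (by norm_num) hd j17)
  obtain ⟨i19, b19, e19⟩ := memCheck_spec memE_19 (Nat.mod_lt a (by norm_num))
    (Nat.mod_lt n (by norm_num)) (clE_of (n := 19) (by norm_num) (by norm_num) hd j19)
  exact falseE b16 b13 b5 b7 b9 b11 b17 b19 (topE b16)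
    e16 e13 e5 e7 e9 e11 e17 e19
    (chkE_of hyp_16_13_5_0 dr_16_13_5_0 ctE_16_13_5_0 hT (by norm_num) (by norm_num) (c16.mul_left c13) q5 b16 b13 e16 e13)
    (chkE_of hyp_16_13_5_1 dr_16_13_5_1 ctE_16_13_5_1 hT (by norm_num) (by norm_num) (c16.mul_left c13) q5 b16 b13 e16 e13)
    (chkE_of hyp_16_13_5_2 dr_16_13_5_2 ctE_16_13_5_2 hT (by norm_num) (by norm_num) (c16.mul_left c13) q5 b16 b13 e16 e13)
    (chkE_of hyp_16_7_13_0 dr_16_7_13_0 ctE_16_7_13_0 hT (by norm_num) (by norm_num) (c16.mul_left c7) q13 b16 b7 e16 e7)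
    (chkE_of hyp_16_9_13_0 dr_16_9_13_0 ctE_16_9_13_0 hT (by norm_num) (by norm_num) (c16.mul_left c9) q13 b16 b9 e16 e9)
    (chkE_of hyp_16_9_13_1 dr_16_9_13_1 ctE_16_9_13_1 hT (by norm_num) (by norm_num) (c16.mul_left c9) q13 b16 b9 e16 e9)
    (chkE_of hyp_13_9_7_0 dr_13_9_7_0 ctE_13_9_7_0 hT (by norm_num) (by norm_num) (c13.mul_left c9) q7 b13 b9 e13 e9)
    (chkE_of hyp_13_11_5_0 dr_13_11_5_0 ctE_13_11_5_0 hT (by norm_num) (by norm_num) (c13.mul_left c11) q5 b13 b11 e13 e11)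
    (chkE_of hyp_13_11_7_0 dr_13_11_7_0 ctE_13_11_7_0 hT (by norm_num) (by norm_num) (c13.mul_left c11) q7 b13 b11 e13 e11)
    (chkE_of hyp_16_11_5_0 dr_16_11_5_0 ctE_16_11_5_0 hT (by norm_num) (by norm_num) (c16.mul_left c11) q5 b16 b11 e16 e11)
    (chkE_of hyp_7_17_5_0 dr_7_17_5_0 ctE_7_17_5_0 hT (by norm_num) (by norm_num) (c7.mul_left c17) q5 b7 b17 e7 e17)
    (chkE_of hyp_7_17_13_0 dr_7_17_13_0 ctE_7_17_13_0 hT (by norm_num) (by norm_num) (c7.mul_left c17) q13 b7 b17 e7 e17)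
    (chkE_of hyp_17_19_7_0 dr_17_19_7_0 ctE_17_19_7_0 hT (by norm_num) (by norm_num) (c17.mul_left c19) q7 b17 b19 e17 e19)
    (chkE_of hyp_9_19_7_0 dr_9_19_7_0 ctE_9_19_7_0 hT (by norm_num) (by norm_num) (c9.mul_left c19) q7 b9 b19 e9 e19)
    (chkE_of hyp_13_19_7_0 dr_13_19_7_0 ctE_13_19_7_0 hT (by norm_num) (by norm_num) (c13.mul_left c19) q7 b13 b19 e13 e19)
    (chkE_of hyp_13_19_7_1 dr_13_19_7_1 ctE_13_19_7_1 hT (by norm_num) (by norm_num) (c13.mul_left c19) q7 b13 b19 e13 e19)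
    (chkE_of hyp_16_19_5_0 dr_16_19_5_0 ctE_16_19_5_0 hT (by norm_num) (by norm_num) (c16.mul_left c19) q5 b16 b19 e16 e19)

end Pool.Agent.LibH4.KF
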