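import Pool.Agent.Lib_helper4.KData

/-! generated data -/

namespace Pool.Agent.LibH4.KF

open Ker T6

/-- weights -/
def DR_13_11_5_0 : List ((ℕ × ℕ) × ℕ) := [((nat_lit 1, nat_lit 0), nat_lit 118206018589183997573022664753472773721448508257934464186197078920555602383240105665940800537570227152190723713925120),
  ((nat_lit 1, nat_lit 1), nat_lit 44362715105933155959273216130146928231261632423657237279345777531963114997195096254831181546301781751995627642535798059719154728960),
  ((nat_lit 1, nat_lit 2), nat_lit 3514776401986872174070733209129673327241950991879390958793542911986504525082894099707653977498045888192775616762360852151871053820252105156425361292275419709440),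
  ((nat_lit 1, nat_lit 3), nat_lit 878694100496721165266233618307921749737167289899589811210910928373682082589008759515614319807192170417450262945672080568009148198758027039969573152227613212675),
  ((nat_lit 1, nat_lit 4), nat_lit 1757388200993445452281017552541530808412664973943628216177327489581112033989780518597122093478743895079312343375931989022579672216412262021645820133221498617860),
  ((nat_lit 1, nat_lit 5), nat_lit 1757388200993442330532467236593662141921368060922552308947557314748783766967055501699368989832853574142434416066757903524895249915409276249527443781893427822595),
  ((nat_lit 1, nat_lit 6), nat_lit 12486994201263980016205165402432103536651129142994698349184929341767787637197384938966468188959930817987662793416908026730098368925935611846590465),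
  ((nat_lit 1, nat_lit 7), nat_lit 22181357552966558278633509868043834045689935036099858108709690412511446941469906017835314702474439015208577399922841543097362415620),
  ((nat_lit 1, nat_lit 8), nat_lit 2636082301490160374050150538842808437402406001025954431140331633083296051029415386698376095877485381079312106642258441627987824215049185174810139384631837851650),
  ((nat_lit 1, nat_lit 9), nat_lit 2636082301490157252301600222839486377028693106029359811383533482414559842156114769705764104182599676363547213941689146358321091437892874604259307408500786724865),
  ((nat_lit 1, nat_lit 10), nat_lit 3514776401986881539316384157106367472033640253172289615404953222201995138423118135372109106385055504447270666027463356834876559466884770953441044968775759167490),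
  ((nat_lit 1, nat_lit 11), nat_lit 878694100496730530511884566251343858199406891083566086795061982660352965594708185388004606380358187111406692366410152103868634649821067234194772492784521707520),
  ((nat_lit 1, nat_lit 12), nat_lit 44362715105933155959273216130146928231261632423657237279345777531963114997195096254831181546301781751995627642535798059719154728960),
  ((nat_lit 0, nat_lit 1), nat_lit 11090678776483417046338442314909136069064487165438007047245583486392965567681819733614115398106492322656251578747132931480035000320)]

theorem dr_13_11_5_0 : DR_13_11_5_0 = DRstd 13 11 5 66 78 353030276977680 4485087826960 P13 P11 :=
  drCheck_spec (by decide +kernel : drCheck (nat_lit 13) (nat_lit 11) (nat_lit 143) (nat_lit 5)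
    (nat_lit 66) (nat_lit 78) (nat_lit 353030276977680) (nat_lit 4485087826960) P13 P11 DR_13_11_5_0 = true)

lemma hyp_13_11_5_0 : Hyp 13 11 5 66 78 353030276977680 4485087826960 P13 P11 :=
  mkHyp (by norm_num) (by norm_num) (by norm_num) (by norm_num) (by norm_num)
    (by decide +kernel : tabCheck (nat_lit 13) (nat_lit 5) (nat_lit 353030276977680) = true)
    (by decide +kernel : tabCheck (nat_lit 11) (nat_lit 5) (nat_lit 4485087826960) = true)
    (by decide +kernel : obCheck (nat_lit 13) (nat_lit 11) (nat_lit 143) (nat_lit 5) (nat_lit 353030276977680) (nat_lit 4485087826960) = true)
    isP1_13 isP1_11 (by decide) (by decide) (by norm_num) (by norm_num) (by norm_num)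

end Pool.Agent.LibH4.KF
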