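import Pool.Agent.Lib_helper4.KData

/-! generated data -/

namespace Pool.Agent.LibH4.KF

open Ker T6

/-- weights -/
def DR_13_9_7_0 : List ((ℕ × ℕ) × ℕ) := [((nat_lit 1, nat_lit 0), nat_lit 878694100496736774008985198235806959854522537426668897569544364777051225918629602084661937473508252585778881911556944102698941737977160601704057741625142542336),
  ((nat_lit 1, nat_lit 1), nat_lit 115172193140306236583141018466896585741565926902538161346647695933945863606520853078944000795985869703067980009941999152041729901476013073076380100699257401843384324),
  ((nat_lit 1, nat_lit 2), nat_lit 230349658445215453455812651731710823879064460830531719922922923142136241935847179761063493805568735942251908597117833063601433059652367507085714540589237276359262212),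
  ((nat_lit 1, nat_lit 3), nat_lit 230345264974712969881203806066779395125670947507424336363517374543516846434002193065849595420033644434573581930356300349215607259792462268129922058992083611284406272),
  ((nat_lit 1, nat_lit 4), nat_lit 57588732652454608441018439457881129597517676431226013859223276871202099319222561730922536999346382501191996724010558044278136652529977796957155443296827685438750726),
  ((nat_lit 1, nat_lit 5), nat_lit 115174829222607726740393320067119414137264179112227144368016764558292209101877335725415888665598796732631300967041756478513554161077984523428917206970014978132672516),
  ((nat_lit 1, nat_lit 6), nat_lit 57587853958354111722974921774578902632579748359922993103003740259238090260398238385937770545889928937382283070471009649654468582311433130384574251469181506501476352),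
  ((nat_lit 1, nat_lit 7), nat_lit 57586096570153118302496629159554265680787784083594868992198927314488395198195373616415453703885009713127370819507152506328631829383785724645303469143887738711310336),
  ((nat_lit 1, nat_lit 8), nat_lit 115174829222607726740393320067119425227942955595486582681673501270611069233738400388522331888345427768054547586764943231931544442724010254608087834584635213030096899),
  ((nat_lit 1, nat_lit 9), nat_lit 57586096570153118299374880609238251268048633887282826059136856447105935714178400453014317994454056706093279823775564465406114314765354134041964987491289156747788289),
  ((nat_lit 1, nat_lit 10), nat_lit 230346143668813466602369072300397703047420684674635431940935795796100430105323662987216697598026616113882759555921642271708306301849561623672141387847924816801693696),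
  ((nat_lit 1, nat_lit 11), nat_lit 230344386280612473150673294182213121600455195133896170151527922759243675083130282612531092811813931371659890962596245105434764194289925507328803595092457802365403139),
  ((nat_lit 1, nat_lit 12), nat_lit 115175707916708223445949843549157727630069600680733495481918380419694960366206825975840831055442425131278617843916619619628729642674092389974904933478607226954317827),
  ((nat_lit 0, nat_lit 1), nat_lit 115174829222607726740393320067119380864889389006388818935732976924203686240314952886658498934389797318503369986956114743148744817517030033584988408401156127366053888)]

theorem dr_13_9_7_0 : DR_13_9_7_0 = DRstd 13 9 7 27 91 319138687099408 26310083856 P13 P9 :=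
  drCheck_spec (by decide +kernel : drCheck (nat_lit 13) (nat_lit 9) (nat_lit 117) (nat_lit 7)
    (nat_lit 27) (nat_lit 91) (nat_lit 319138687099408) (nat_lit 26310083856) P13 P9 DR_13_9_7_0 = true)

lemma hyp_13_9_7_0 : Hyp 13 9 7 27 91 319138687099408 26310083856 P13 P9 :=
  mkHyp (by norm_num) (by norm_num) (by norm_num) (by norm_num) (by norm_num)
    (by decide +kernel : tabCheck (nat_lit 13) (nat_lit 7) (nat_lit 319138687099408) = true)
    (by decide +kernel : tabCheck (nat_lit 9) (nat_lit 7) (nat_lit 26310083856) = true)
    (by decide +kernel : obCheck (nat_lit 13) (nat_lit 9) (nat_lit 117) (nat_lit 7) (nat_lit 319138687099408) (nat_lit 26310083856) = true)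
    isP1_13 isP1_9 (by decide) (by decide) (by norm_num) (by norm_num) (by norm_num)

end Pool.Agent.LibH4.KF
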