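import Pool.Agent.Lib_helper4.KData

/-! generated data -/

namespace Pool.Agent.LibH4.KF

open Ker T6

/-- weights -/
def DR_3_17_5_0 : List ((ℕ × ℕ) × ℕ) := [((nat_lit 1, nat_lit 0), nat_lit 57277807850286154772458790203048900533921766130903206231947863655528364572292212961847847772908800068936939691419461305898794035687644176569627333217545011090684152528375075194099647357331157835099632925064369975586319015877748287134347309175355211776),
  ((nat_lit 1, nat_lit 1), nat_lit 57278681840273901199165684305082088468517984694241630081220754734356865678223124411312438072675132847004667658611265993811270652795717839504066666229459169370209703995243311950298932534836597759737717358210449631026658024894625894051002477843729874946),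
  ((nat_lit 1, nat_lit 2), nat_lit 57279118835267774411742872309948347273024525088595945212292224638341448242523534193656479013452027413464609692541299149690816469742226288840665251444841424233745684543429838845579536624152983488909965520167907410006540007409672989878122234321743904771),
  ((nat_lit 0, nat_lit 1), nat_lit 57277807850286154772458790203048883986964976824862927912792723814178493147051162313396727964212187744112831686762294858764781007492209043693368398606378652046117991589285144982819980894715934918265064387472921541991583815054760009666551574840083480576)]

theorem dr_3_17_5_0 : DR_3_17_5_0 = DRstd 3 17 5 34 18 1040 23207668197802189840 P3 P17 :=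
  drCheck_spec (by decide +kernel : drCheck (nat_lit 3) (nat_lit 17) (nat_lit 51) (nat_lit 5)
    (nat_lit 34) (nat_lit 18) (nat_lit 1040) (nat_lit 23207668197802189840) P3 P17 DR_3_17_5_0 = true)

lemma hyp_3_17_5_0 : Hyp 3 17 5 34 18 1040 23207668197802189840 P3 P17 :=
  mkHyp (by norm_num) (by norm_num) (by norm_num) (by norm_num) (by norm_num)
    (by decide +kernel : tabCheck (nat_lit 3) (nat_lit 5) (nat_lit 1040) = true)
    (by decide +kernel : tabCheck (nat_lit 17) (nat_lit 5) (nat_lit 23207668197802189840) = true)
    (by decide +kernel : obCheck (nat_lit 3) (nat_lit 17) (nat_lit 51) (nat_lit 5) (nat_lit 1040) (nat_lit 23207668197802189840) = true)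
    isP1_3 isP1_17 (by decide) (by decide) (by norm_num) (by norm_num) (by norm_num)

end Pool.Agent.LibH4.KF
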