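import Pool.Agent.Lib_helper4.KData

/-! generated data -/

namespace Pool.Agent.LibH4.KF

open Ker T6

/-- weights -/
def DR_7_17_5_0 : List ((ℕ × ℕ) × ℕ) := [((nat_lit 1, nat_lit 0), nat_lit 3753815692210213737169215513782666430723323026321347616507809529702539011998316920882613308494673309957418852305007072809908024500677200557993130425597361661824467389593888432822305306538847252469666002290859725360765902584815558365238197054707082486415360),
  ((nat_lit 1, nat_lit 1), nat_lit 3753872971766030662787969416532777091310203696896537344974873392762482330762667984744311819595456657062958974909433822987638911997838867395453920337386027291328217223068263892688618356470681880305613013423425197068184196928783289484777598525580620819726340),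
  ((nat_lit 1, nat_lit 2), nat_lit 3753872971766030662787972521568961692722558342592412282681255178327085650360282149491972357871359347665912420031771311091084511485631681528787857486592753928010261942134810948684840764415268723488048480635141154352831907294449320936000800382965517763346435),
  ((nat_lit 1, nat_lit 3), nat_lit 3753872970892040675041539604602490456665789236877283209645878993906092367881886194188985746718409393018113949149302163888406897633298100173938124444595837568962072462142094456505770920580852560639477435660858379725517879009712964640635077478920272532865025),
  ((nat_lit 1, nat_lit 4), nat_lit 3753872971329035668914758391862864525765849991598733381674426578498125985255101557567455684807813937371068536643226523775298580227083438759170495873929722441671963485961907658036980762162216611342125244477095098803236636979908311597628222594262753570062340),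
  ((nat_lit 1, nat_lit 5), nat_lit 3753872970455045681168325474896393289731143494936012277429498549535947636474561743613390977279951399550817873842616937491795101711047159429115126033788295738108267786968941001960606202801187746081846451505547082331532334924917457300461240901161942438248450),
  ((nat_lit 1, nat_lit 6), nat_lit 3753872970455045681168328579932577891137982488368785169050551879005150033540351937026610032346992162242805280704953499169770282289914750643256314404392832159038935717891701441133256557057362443064692104764384724026868644738277325175347175524305078816210945),
  ((nat_lit 0, nat_lit 1), nat_lit 1876993762816862293773460819111331557680909278942879179959703130556076422438824639892231738019444453315271371634802499749208742919923541222151986832772136892370068597483085380893964296472068424728635537419546863806562224093578200855401913135407708093153280)]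

theorem dr_7_17_5_0 : DR_7_17_5_0 = DRstd 7 17 5 85 35 71385360 19893600294952583440 P7 P17 :=
  drCheck_spec (by decide +kernel : drCheck (nat_lit 7) (nat_lit 17) (nat_lit 119) (nat_lit 5)
    (nat_lit 85) (nat_lit 35) (nat_lit 71385360) (nat_lit 19893600294952583440) P7 P17 DR_7_17_5_0 = true)

lemma hyp_7_17_5_0 : Hyp 7 17 5 85 35 71385360 19893600294952583440 P7 P17 :=
  mkHyp (by norm_num) (by norm_num) (by norm_num) (by norm_num) (by norm_num)
    (by decide +kernel : tabCheck (nat_lit 7) (nat_lit 5) (nat_lit 71385360) = true)
    (by decide +kernel : tabCheck (nat_lit 17) (nat_lit 5) (nat_lit 19893600294952583440) = true)
    (by decide +kernel : obCheck (nat_lit 7) (nat_lit 17) (nat_lit 119) (nat_lit 5) (nat_lit 71385360) (nat_lit 19893600294952583440) = true)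
    isP1_7 isP1_17 (by decide) (by decide) (by norm_num) (by norm_num) (by norm_num)

end Pool.Agent.LibH4.KF
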