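import Pool.Agent.Lib_helper4.KR_16_13_5_0
import Pool.Agent.Lib_helper4.KR_16_13_5_1
import Pool.Agent.Lib_helper4.KR_16_13_5_2
import Pool.Agent.Lib_helper4.KR_16_7_13_0
import Pool.Agent.Lib_helper4.KR_7_17_13_0
import Pool.Agent.Lib_helper4.KR_17_23_7_0
import Pool.Agent.Lib_helper4.KR_8_29_13_0

/-! generated data -/

namespace Pool.Agent.LibH4.KF

open Ker T6

/-- classes -/
def CE3_16 : List (ℕ × ℕ) := [((nat_lit 3), (nat_lit 1)),((nat_lit 3), (nat_lit 3)),((nat_lit 3), (nat_lit 5)),((nat_lit 3), (nat_lit 7)),((nat_lit 3), (nat_lit 9)),((nat_lit 3), (nat_lit 11)),((nat_lit 3), (nat_lit 13)),((nat_lit 3), (nat_lit 15))]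

lemma memE3_16 : memCheck (nat_lit 16) (spc (nat_lit 3) cl2) CE3_16 = true := by decide +kernel

/-- classes -/
def CE3_13 : List (ℕ × ℕ) := [((nat_lit 3), (nat_lit 2)),((nat_lit 3), (nat_lit 4)),((nat_lit 3), (nat_lit 5)),((nat_lit 3), (nat_lit 8)),((nat_lit 3), (nat_lit 9)),((nat_lit 3), (nat_lit 11))]

lemma memE3_13 : memCheck (nat_lit 13) (spc (nat_lit 3) (clE (nat_lit 13))) CE3_13 = true := by decide +kernel

/-- classes -/
def CE3_5 : List (ℕ × ℕ) := [((nat_lit 3), (nat_lit 0)),((nat_lit 3), (nat_lit 1)),((nat_lit 3), (nat_lit 4))]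

lemma memE3_5 : memCheck (nat_lit 5) (spc (nat_lit 3) (clE (nat_lit 5))) CE3_5 = true := by decide +kernel

/-- classes -/
def CE3_7 : List (ℕ × ℕ) := [((nat_lit 3), (nat_lit 2)),((nat_lit 3), (nat_lit 3)),((nat_lit 3), (nat_lit 4)),((nat_lit 3), (nat_lit 5))]

lemma memE3_7 : memCheck (nat_lit 7) (spc (nat_lit 3) (clE (nat_lit 7))) CE3_7 = true := by decide +kernel

/-- classes -/
def CE3_17 : List (ℕ × ℕ) := [((nat_lit 3), (nat_lit 0)),((nat_lit 3), (nat_lit 1)),((nat_lit 3), (nat_lit 2)),((nat_lit 3), (nat_lit 6)),((nat_lit 3), (nat_lit 8)),((nat_lit 3), (nat_lit 9)),((nat_lit 3), (nat_lit 11)),((nat_lit 3), (nat_lit 15)),((nat_lit 3), (nat_lit 16))]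

lemma memE3_17 : memCheck (nat_lit 17) (spc (nat_lit 3) (clE (nat_lit 17))) CE3_17 = true := by decide +kernel

/-- classes -/
def CE3_23 : List (ℕ × ℕ) := [((nat_lit 3), (nat_lit 0)),((nat_lit 3), (nat_lit 1)),((nat_lit 3), (nat_lit 4)),((nat_lit 3), (nat_lit 7)),((nat_lit 3), (nat_lit 10)),((nat_lit 3), (nat_lit 11)),((nat_lit 3), (nat_lit 12)),((nat_lit 3), (nat_lit 13)),((nat_lit 3), (nat_lit 16)),((nat_lit 3), (nat_lit 19)),((nat_lit 3), (nat_lit 22))]

lemma memE3_23 : memCheck (nat_lit 23) (spc (nat_lit 3) (clE (nat_lit 23))) CE3_23 = true := by decide +kernel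

/-- classes -/
def CE3_8 : List (ℕ × ℕ) := [((nat_lit 3), (nat_lit 1)),((nat_lit 3), (nat_lit 3)),((nat_lit 3), (nat_lit 5)),((nat_lit 3), (nat_lit 7))]

lemma memE3_8 : memCheck (nat_lit 8) (spc (nat_lit 3) cl2) CE3_8 = true := by decide +kernel

/-- classes -/
def CE3_29 : List (ℕ × ℕ) := [((nat_lit 3), (nat_lit 0)),((nat_lit 3), (nat_lit 1)),((nat_lit 3), (nat_lit 3)),((nat_lit 3), (nat_lit 5)),((nat_lit 3), (nat_lit 9)),((nat_lit 3), (nat_lit 10)),((nat_lit 3), (nat_lit 12)),((nat_lit 3), (nat_lit 14)),((nat_lit 3), (nat_lit 15)),((nat_lit 3), (nat_lit 17)),((nat_lit 3), (nat_lit 19)),((nat_lit 3), (nat_lit 20)),((nat_lit 3), (nat_lit 24)),((nat_lit 3), (nat_lit 26)),((nat_lit 3), (nat_lit 28))]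

lemma memE3_29 : memCheck (nat_lit 29) (spc (nat_lit 3) (clE (nat_lit 29))) CE3_29 = true := by decide +kernel

/-- table -/
def TBE3_16_13_5_0 : ℕ := nat_lit 44233322185336960229052392868283631836788426862675359734825539314499457978651288681337422267236768725611008062764416624725095225667462022727384375828649087342118707200

theorem ctE3_16_13_5_0 : checkR (nat_lit 72) (nat_lit 16) (nat_lit 13) (nat_lit 5) (nat_lit 1166467763814805520) (nat_lit 1183156957090320)
    DR_16_13_5_0 formsE P13 CE3_16 CE3_13 TBE3_16_13_5_0 = true := by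
  decide +kernel

/-- table -/
def TBE3_16_13_5_1 : ℕ := nat_lit 241548351626703871377945591078689984804703894111958122357081638295635751306733038403948204942464240366099687918036189343640299978614134468554944231159324597605875318800385

theorem ctE3_16_13_5_1 : checkR (nat_lit 72) (nat_lit 16) (nat_lit 13) (nat_lit 5) (nat_lit 1161981756374523920) (nat_lit 1183156957090320)
    DR_16_13_5_1 formsE P13 CE3_16 CE3_13 TBE3_16_13_5_1 = true := by
  decide +kernel

/-- table -/
def TBE3_16_13_5_2 : ℕ := nat_lit 181194436911882251236632614422842628309996838270094944815877791578135214610796824213173296683471203017918440932428252098984389106229253250798990846996779478276085137809410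

theorem ctE3_16_13_5_2 : checkR (nat_lit 72) (nat_lit 16) (nat_lit 13) (nat_lit 5) (nat_lit 4625249869016080400) (nat_lit 353030276977680)
    DR_16_13_5_2 formsE P13 CE3_16 CE3_13 TBE3_16_13_5_2 = true := by
  decide +kernel

/-- table -/
def TBE3_16_7_13_0 : ℕ := nat_lit 25653242799574125799335264154376494876856984595698257259244449232177813708976033305770186051219601470354085940193891

theorem ctE3_16_7_13_0 : checkR (nat_lit 48) (nat_lit 16) (nat_lit 7) (nat_lit 13) (nat_lit 1175581068095410192) (nat_lit 205760784)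
    DR_16_7_13_0 formsE P7 CE3_16 CE3_7 TBE3_16_7_13_0 = true := by
  decide +kernel

/-- table -/
def TBE3_7_17_13_0 : ℕ := nat_lit 2354747237932839640390122885835400545733264498110424880713436833034456302237447443687830680890304203700325434594060572731832173408

theorem ctE3_7_17_13_0 : checkR (nat_lit 108) (nat_lit 7) (nat_lit 17) (nat_lit 13) (nat_lit 205760784) (nat_lit 32865112616832437264)
    DR_7_17_13_0 formsE P17 CE3_7 CE3_17 TBE3_7_17_13_0 = true := by
  decide +kernel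

/-- table -/
def TBE3_17_23_7_0 : ℕ := nat_lit 1101490519564034460517598272206491377989144303656143713835315420646714999202685497360443287327576105671529910057568461939398747056686134385685318524938168896349525499533426729136092683729673715380940292362031364532162608443766204911684925080626263508141400960891551918545166045153912199569960699015594542455697815265939895417715497330542550997027121940083760

theorem ctE3_17_23_7_0 : checkR (nat_lit 132) (nat_lit 17) (nat_lit 23) (nat_lit 7) (nat_lit 20038315816949735696) (nat_lit 1980680358766547984887910672)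
    DR_17_23_7_0 formsE P23 CE3_17 CE3_23 TBE3_17_23_7_0 = true := by
  decide +kernel

/-- table -/
def TBE3_8_29_13_0 : ℕ := nat_lit 1514370203866674776778298174742997941030146733542167518619415441307373361637435285228371014779636391339343036063284566714923181552688099819727609010340125342272828616824300833836939585727830009204538143236977500526964

theorem ctE3_8_29_13_0 : checkR (nat_lit 180) (nat_lit 8) (nat_lit 29) (nat_lit 13) (nat_lit 281067536) (nat_lit 65067325651197639677023877956654352)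
    DR_8_29_13_0 formsE P29 CE3_8 CE3_29 TBE3_8_29_13_0 = true := by
  decide +kernel

/-- stage -/
def stE3_7 (a13 r_8_29_13_0 t13 : ℕ) : Bool :=
  allI (fun i29 c29 =>
    imp (chkE (nat_lit 13) (dg (nat_lit 12) r_8_29_13_0 i29) a13 t13) <|
    false) CE3_29 (nat_lit 0)

/-- stage -/
def stE3_6 (a13 a16 t13 t16 : ℕ) : Bool :=
  allI (fun i8 c8 =>
    imp (Nat.beq (Nat.mod a16 (nat_lit 8)) c8.1) <| imp (Nat.beq (Nat.mod t16 (nat_lit 8)) c8.2) <|
    strict (dg (nat_lit 180) TBE3_8_29_13_0 i8) fun r_8_29_13_0 =>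
    stE3_7 a13 r_8_29_13_0 t13) CE3_8 (nat_lit 0)

/-- stage -/
def stE3_5 (a13 a16 a7 r_17_23_7_0 t13 t16 t7 : ℕ) : Bool :=
  allI (fun i23 c23 =>
    imp (chkE (nat_lit 7) (dg (nat_lit 12) r_17_23_7_0 i23) a7 t7) <|
    stE3_6 a13 a16 t13 t16) CE3_23 (nat_lit 0)

/-- stage -/
def stE3_4 (a13 a16 a7 r_7_17_13_0 t13 t16 t7 : ℕ) : Bool :=
  allI (fun i17 c17 =>
    imp (chkE (nat_lit 13) (dg (nat_lit 12) r_7_17_13_0 i17) a13 t13) <|
    strict (dg (nat_lit 132) TBE3_17_23_7_0 i17) fun r_17_23_7_0 =>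
    stE3_5 a13 a16 a7 r_17_23_7_0 t13 t16 t7) CE3_17 (nat_lit 0)

/-- stage -/
def stE3_3 (a13 a16 r_16_7_13_0 t13 t16 : ℕ) : Bool :=
  allI (fun i7 c7 =>
    imp (chkE (nat_lit 13) (dg (nat_lit 12) r_16_7_13_0 i7) a13 t13) <|
    strict (dg (nat_lit 108) TBE3_7_17_13_0 i7) fun r_7_17_13_0 =>
    stE3_4 a13 a16 c7.1 r_7_17_13_0 t13 t16 c7.2) CE3_7 (nat_lit 0)

/-- stage -/
def stE3_2 (a13 a16 e_16_13_5_0 e_16_13_5_1 e_16_13_5_2 r_16_7_13_0 t13 t16 : ℕ) : Bool :=
  allI (fun i5 c5 =>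
    imp (chkE (nat_lit 5) e_16_13_5_0 c5.1 c5.2) <|
    imp (chkE (nat_lit 5) e_16_13_5_1 c5.1 c5.2) <|
    imp (chkE (nat_lit 5) e_16_13_5_2 c5.1 c5.2) <|
    stE3_3 a13 a16 r_16_7_13_0 t13 t16) CE3_5 (nat_lit 0)

/-- stage -/
def stE3_1 (a16 r_16_13_5_0 r_16_13_5_1 r_16_13_5_2 r_16_7_13_0 t16 : ℕ) : Bool :=
  allI (fun i13 c13 =>
    strict (dg (nat_lit 12) r_16_13_5_0 i13) fun e_16_13_5_0 =>
    strict (dg (nat_lit 12) r_16_13_5_1 i13) fun e_16_13_5_1 =>
    strict (dg (nat_lit 12) r_16_13_5_2 i13) fun e_16_13_5_2 =>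
    stE3_2 c13.1 a16 e_16_13_5_0 e_16_13_5_1 e_16_13_5_2 r_16_7_13_0 c13.2 t16) CE3_13 (nat_lit 0)

/-- stage -/
def bdE3 (i16 : ℕ) (c16 : ℕ × ℕ) : Bool :=
    strict (dg (nat_lit 72) TBE3_16_13_5_0 i16) fun r_16_13_5_0 =>
    strict (dg (nat_lit 72) TBE3_16_13_5_1 i16) fun r_16_13_5_1 =>
    strict (dg (nat_lit 72) TBE3_16_13_5_2 i16) fun r_16_13_5_2 =>
    strict (dg (nat_lit 48) TBE3_16_7_13_0 i16) fun r_16_7_13_0 =>
    stE3_1 c16.1 r_16_13_5_0 r_16_13_5_1 r_16_13_5_2 r_16_7_13_0 c16.2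

theorem allE3 : allI (fun i c => bdE3 i c) CE3_16 (nat_lit 0) = true := by
  decide +kernel

theorem falseE3 {a t : ℕ} {i16 i13 i5 i7 i17 i23 i8 i29 : ℕ}
    (b16 : i16 < CE3_16.length)
    (b13 : i13 < CE3_13.length)
    (b5 : i5 < CE3_5.length)
    (b7 : i7 < CE3_7.length)
    (b17 : i17 < CE3_17.length)
    (b23 : i23 < CE3_23.length)
    (b8 : i8 < CE3_8.length)
    (b29 : i29 < CE3_29.length)
    (top : bdE3 i16 CE3_16[i16] = true)
    (h16 : CE3_16[i16] = (a % 16, t % 16))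
    (h13 : CE3_13[i13] = (a % 13, t % 13))
    (h5 : CE3_5[i5] = (a % 5, t % 5))
    (h7 : CE3_7[i7] = (a % 7, t % 7))
    (h17 : CE3_17[i17] = (a % 17, t % 17))
    (h23 : CE3_23[i23] = (a % 23, t % 23))
    (h8 : CE3_8[i8] = (a % 8, t % 8))
    (h29 : CE3_29[i29] = (a % 29, t % 29))
    (r_16_13_5_0 : chkE 5 (dg 12 (dg 72 TBE3_16_13_5_0 i16) i13) (a % 5) (t % 5) = true)
    (r_16_13_5_1 : chkE 5 (dg 12 (dg 72 TBE3_16_13_5_1 i16) i13) (a % 5) (t % 5) = true)
    (r_16_13_5_2 : chkE 5 (dg 12 (dg 72 TBE3_16_13_5_2 i16) i13) (a % 5) (t % 5) = true)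
    (r_16_7_13_0 : chkE 13 (dg 12 (dg 48 TBE3_16_7_13_0 i16) i7) (a % 13) (t % 13) = true)
    (r_7_17_13_0 : chkE 13 (dg 12 (dg 108 TBE3_7_17_13_0 i7) i17) (a % 13) (t % 13) = true)
    (r_17_23_7_0 : chkE 7 (dg 12 (dg 132 TBE3_17_23_7_0 i17) i23) (a % 7) (t % 7) = true)
    (r_8_29_13_0 : chkE 13 (dg 12 (dg 180 TBE3_8_29_13_0 i8) i29) (a % 13) (t % 13) = true)
    : False := by
  try rw [h16] at top
  unfold bdE3 at top
  simp only [strict_eq] at top
  unfold stE3_1 at top
  replace top := allI_get top b13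
  try rw [h13] at top
  simp only [strict_eq] at top
  unfold stE3_2 at top
  replace top := allI_get top b5
  try rw [h5] at top
  replace top := imp_spec top r_16_13_5_0
  replace top := imp_spec top r_16_13_5_1
  replace top := imp_spec top r_16_13_5_2
  unfold stE3_3 at top
  replace top := allI_get top b7
  try rw [h7] at top
  simp only [strict_eq] at top
  replace top := imp_spec top r_16_7_13_0
  unfold stE3_4 at top
  replace top := allI_get top b17
  try rw [h17] at top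
  simp only [strict_eq] at top
  replace top := imp_spec top r_7_17_13_0
  unfold stE3_5 at top
  replace top := allI_get top b23
  try rw [h23] at top
  replace top := imp_spec top r_17_23_7_0
  unfold stE3_6 at top
  replace top := allI_get top b8
  try rw [h8] at top
  simp only [strict_eq] at top
  have f1 : Nat.beq (Nat.mod (a % 16) (nat_lit 8)) (a % 8) = true := by
    rw [Nat.beq_eq]; have : a % 16 % 8 = a % 8 := by omega
    exact this
  have f2 : Nat.beq (Nat.mod (t % 16) (nat_lit 8)) (t % 8) = true := by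
    rw [Nat.beq_eq]; have : t % 16 % 8 = t % 8 := by omega
    exact this
  replace top := imp_spec (imp_spec top f1) f2
  unfold stE3_7 at top
  replace top := allI_get top b29
  try rw [h29] at top
  replace top := imp_spec top r_8_29_13_0
  exact Bool.false_ne_true top

/-- no large solution with `a = 3` -/
theorem noE3 {a n d : ℕ} (ha : a = 3) (hn2 : n % 2 = 1)
    (hd : (d : ℤ) = ((a : ℤ) * n) ^ 2 - 4 * a)
    (j5 : jacobiSym d 5 = -1)
    (j7 : jacobiSym d 7 = -1)
    (j13 : jacobiSym d 13 = -1)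
    (j17 : jacobiSym d 17 = -1)
    (j23 : jacobiSym d 23 = -1)
    (j29 : jacobiSym d 29 = -1)
    (hT : AllE a n d) : False := by
  have ha2 : a % 2 = 1 := by rw [ha]
  have q2 := d2_E hd ha2 hn2
  have q5 : ¬ 5 ∣ d := nd_of (by norm_num) j5
  have q7 : ¬ 7 ∣ d := nd_of (by norm_num) j7
  have q13 : ¬ 13 ∣ d := nd_of (by norm_num) j13
  have q17 : ¬ 17 ∣ d := nd_of (by norm_num) j17
  have q23 : ¬ 23 ∣ d := nd_of (by norm_num) j23
  have q29 : ¬ 29 ∣ d := nd_of (by norm_num) j29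
  have c16 : Nat.Coprime 16 d := cop_of (p := 2) (k := 4) (by norm_num) q2
  have c13 : Nat.Coprime 13 d := cop_of (p := 13) (k := 1) (by norm_num) q13
  have c5 : Nat.Coprime 5 d := cop_of (p := 5) (k := 1) (by norm_num) q5
  have c7 : Nat.Coprime 7 d := cop_of (p := 7) (k := 1) (by norm_num) q7
  have c17 : Nat.Coprime 17 d := cop_of (p := 17) (k := 1) (by norm_num) q17
  have c23 : Nat.Coprime 23 d := cop_of (p := 23) (k := 1) (by norm_num) q23
  have c8 : Nat.Coprime 8 d := cop_of (p := 2) (k := 3) (by norm_num) q2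
  have c29 : Nat.Coprime 29 d := cop_of (p := 29) (k := 1) (by norm_num) q29
  obtain ⟨i16, b16, e16⟩ := memCheck_spec memE3_16 (Nat.mod_lt a (by norm_num))
    (Nat.mod_lt n (by norm_num)) (spc_of (cl2_of (n := 16) (by norm_num) ha2 hn2) (by rw [ha]))
  obtain ⟨i13, b13, e13⟩ := memCheck_spec memE3_13 (Nat.mod_lt a (by norm_num))
    (Nat.mod_lt n (by norm_num)) (spc_of (clE_of (n := 13) (by norm_num) (by norm_num) hd j13) (by rw [ha]))
  obtain ⟨i5, b5, e5⟩ := memCheck_spec memE3_5 (Nat.mod_lt a (by norm_num))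
    (Nat.mod_lt n (by norm_num)) (spc_of (clE_of (n := 5) (by norm_num) (by norm_num) hd j5) (by rw [ha]))
  obtain ⟨i7, b7, e7⟩ := memCheck_spec memE3_7 (Nat.mod_lt a (by norm_num))
    (Nat.mod_lt n (by norm_num)) (spc_of (clE_of (n := 7) (by norm_num) (by norm_num) hd j7) (by rw [ha]))
  obtain ⟨i17, b17, e17⟩ := memCheck_spec memE3_17 (Nat.mod_lt a (by norm_num))
    (Nat.mod_lt n (by norm_num)) (spc_of (clE_of (n := 17) (by norm_num) (by norm_num) hd j17) (by rw [ha]))
  obtain ⟨i23, b23, e23⟩ := memCheck_spec memE3_23 (Nat.mod_lt a (by norm_num))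
    (Nat.mod_lt n (by norm_num)) (spc_of (clE_of (n := 23) (by norm_num) (by norm_num) hd j23) (by rw [ha]))
  obtain ⟨i8, b8, e8⟩ := memCheck_spec memE3_8 (Nat.mod_lt a (by norm_num))
    (Nat.mod_lt n (by norm_num)) (spc_of (cl2_of (n := 8) (by norm_num) ha2 hn2) (by rw [ha]))
  obtain ⟨i29, b29, e29⟩ := memCheck_spec memE3_29 (Nat.mod_lt a (by norm_num))
    (Nat.mod_lt n (by norm_num)) (spc_of (clE_of (n := 29) (by norm_num) (by norm_num) hd j29) (by rw [ha]))
  exact falseE3 b16 b13 b5 b7 b17 b23 b8 b29 (allI_get allE3 b16)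
    e16 e13 e5 e7 e17 e23 e8 e29
    (chkE_of hyp_16_13_5_0 dr_16_13_5_0 ctE3_16_13_5_0 hT (by norm_num) (by norm_num) (c16.mul_left c13) q5 b16 b13 e16 e13)
    (chkE_of hyp_16_13_5_1 dr_16_13_5_1 ctE3_16_13_5_1 hT (by norm_num) (by norm_num) (c16.mul_left c13) q5 b16 b13 e16 e13)
    (chkE_of hyp_16_13_5_2 dr_16_13_5_2 ctE3_16_13_5_2 hT (by norm_num) (by norm_num) (c16.mul_left c13) q5 b16 b13 e16 e13)
    (chkE_of hyp_16_7_13_0 dr_16_7_13_0 ctE3_16_7_13_0 hT (by norm_num) (by norm_num) (c16.mul_left c7) q13 b16 b7 e16 e7)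
    (chkE_of hyp_7_17_13_0 dr_7_17_13_0 ctE3_7_17_13_0 hT (by norm_num) (by norm_num) (c7.mul_left c17) q13 b7 b17 e7 e17)
    (chkE_of hyp_17_23_7_0 dr_17_23_7_0 ctE3_17_23_7_0 hT (by norm_num) (by norm_num) (c17.mul_left c23) q7 b17 b23 e17 e23)
    (chkE_of hyp_8_29_13_0 dr_8_29_13_0 ctE3_8_29_13_0 hT (by norm_num) (by norm_num) (c8.mul_left c29) q13 b8 b29 e8 e29)

end Pool.Agent.LibH4.KF
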