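import Pool.Agent.Lib_helper4.KT_E_16_13_5_0
import Pool.Agent.Lib_helper4.KT_E_16_13_5_1
import Pool.Agent.Lib_helper4.KT_E_16_13_5_2
import Pool.Agent.Lib_helper4.KT_E_16_7_13_0
import Pool.Agent.Lib_helper4.KT_E_16_9_13_0
import Pool.Agent.Lib_helper4.KT_E_16_9_13_1
import Pool.Agent.Lib_helper4.KT_E_13_9_7_0
import Pool.Agent.Lib_helper4.KT_E_13_11_5_0
import Pool.Agent.Lib_helper4.KT_E_13_11_7_0
import Pool.Agent.Lib_helper4.KT_E_16_11_5_0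
import Pool.Agent.Lib_helper4.KT_E_7_17_5_0
import Pool.Agent.Lib_helper4.KT_E_7_17_13_0
import Pool.Agent.Lib_helper4.KT_E_17_19_7_0
import Pool.Agent.Lib_helper4.KT_E_9_19_7_0
import Pool.Agent.Lib_helper4.KT_E_13_19_7_0
import Pool.Agent.Lib_helper4.KT_E_13_19_7_1
import Pool.Agent.Lib_helper4.KT_E_16_19_5_0

/-! generated data -/

namespace Pool.Agent.LibH4.KF

open Ker T6

/-- stage -/
def stE_7 (a5 a7 r_13_19_7_0 r_13_19_7_1 r_16_19_5_0 r_17_19_7_0 r_9_19_7_0 t5 t7 : ℕ) : Bool :=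
  allI (fun i19 c19 =>
    imp (chkE (nat_lit 7) (dg (nat_lit 12) r_17_19_7_0 i19) a7 t7) <|
    imp (chkE (nat_lit 7) (dg (nat_lit 12) r_9_19_7_0 i19) a7 t7) <|
    imp (chkE (nat_lit 7) (dg (nat_lit 12) r_13_19_7_0 i19) a7 t7) <|
    imp (chkE (nat_lit 7) (dg (nat_lit 12) r_13_19_7_1 i19) a7 t7) <|
    imp (chkE (nat_lit 5) (dg (nat_lit 12) r_16_19_5_0 i19) a5 t5) <|
    false) CE_19 (nat_lit 0)

/-- stage -/
def stE_6 (a13 a5 a7 r_13_19_7_0 r_13_19_7_1 r_16_19_5_0 r_7_17_13_0 r_7_17_5_0 r_9_19_7_0 t13 t5 t7 : ℕ) : Bool :=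
  allI (fun i17 c17 =>
    imp (chkE (nat_lit 5) (dg (nat_lit 12) r_7_17_5_0 i17) a5 t5) <|
    imp (chkE (nat_lit 13) (dg (nat_lit 12) r_7_17_13_0 i17) a13 t13) <|
    strict (dg (nat_lit 2052) TBE_17_19_7_0 i17) fun r_17_19_7_0 =>
    stE_7 a5 a7 r_13_19_7_0 r_13_19_7_1 r_16_19_5_0 r_17_19_7_0 r_9_19_7_0 t5 t7) CE_17 (nat_lit 0)

/-- stage -/
def stE_5 (a13 a5 a7 r_13_11_5_0 r_13_11_7_0 r_13_19_7_0 r_13_19_7_1 r_16_11_5_0 r_16_19_5_0 r_7_17_13_0 r_7_17_5_0 r_9_19_7_0 t13 t5 t7 : ℕ) : Bool :=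
  allI (fun i11 c11 =>
    imp (chkE (nat_lit 5) (dg (nat_lit 12) r_13_11_5_0 i11) a5 t5) <|
    imp (chkE (nat_lit 7) (dg (nat_lit 12) r_13_11_7_0 i11) a7 t7) <|
    imp (chkE (nat_lit 5) (dg (nat_lit 12) r_16_11_5_0 i11) a5 t5) <|
    stE_6 a13 a5 a7 r_13_19_7_0 r_13_19_7_1 r_16_19_5_0 r_7_17_13_0 r_7_17_5_0 r_9_19_7_0 t13 t5 t7) CE_11 (nat_lit 0)

/-- stage -/
def stE_4 (a13 a5 a7 r_13_11_5_0 r_13_11_7_0 r_13_19_7_0 r_13_19_7_1 r_13_9_7_0 r_16_11_5_0 r_16_19_5_0 r_16_9_13_0 r_16_9_13_1 r_7_17_13_0 r_7_17_5_0 t13 t5 t7 : ℕ) : Bool :=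
  allI (fun i9 c9 =>
    imp (chkE (nat_lit 13) (dg (nat_lit 12) r_16_9_13_0 i9) a13 t13) <|
    imp (chkE (nat_lit 13) (dg (nat_lit 12) r_16_9_13_1 i9) a13 t13) <|
    imp (chkE (nat_lit 7) (dg (nat_lit 12) r_13_9_7_0 i9) a7 t7) <|
    strict (dg (nat_lit 2052) TBE_9_19_7_0 i9) fun r_9_19_7_0 =>
    stE_5 a13 a5 a7 r_13_11_5_0 r_13_11_7_0 r_13_19_7_0 r_13_19_7_1 r_16_11_5_0 r_16_19_5_0 r_7_17_13_0 r_7_17_5_0 r_9_19_7_0 t13 t5 t7) CE_9 (nat_lit 0)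

/-- stage -/
def stE_3 (a13 a5 r_13_11_5_0 r_13_11_7_0 r_13_19_7_0 r_13_19_7_1 r_13_9_7_0 r_16_11_5_0 r_16_19_5_0 r_16_7_13_0 r_16_9_13_0 r_16_9_13_1 t13 t5 : ℕ) : Bool :=
  allI (fun i7 c7 =>
    imp (chkE (nat_lit 13) (dg (nat_lit 12) r_16_7_13_0 i7) a13 t13) <|
    strict (dg (nat_lit 1632) TBE_7_17_5_0 i7) fun r_7_17_5_0 =>
    strict (dg (nat_lit 1632) TBE_7_17_13_0 i7) fun r_7_17_13_0 =>
    stE_4 a13 a5 c7.1 r_13_11_5_0 r_13_11_7_0 r_13_19_7_0 r_13_19_7_1 r_13_9_7_0 r_16_11_5_0 r_16_19_5_0 r_16_9_13_0 r_16_9_13_1 r_7_17_13_0 r_7_17_5_0 t13 t5 c7.2) CE_7 (nat_lit 0)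

/-- stage -/
def stE_2 (a13 e_16_13_5_0 e_16_13_5_1 e_16_13_5_2 r_13_11_5_0 r_13_11_7_0 r_13_19_7_0 r_13_19_7_1 r_13_9_7_0 r_16_11_5_0 r_16_19_5_0 r_16_7_13_0 r_16_9_13_0 r_16_9_13_1 t13 : ℕ) : Bool :=
  allI (fun i5 c5 =>
    imp (chkE (nat_lit 5) e_16_13_5_0 c5.1 c5.2) <|
    imp (chkE (nat_lit 5) e_16_13_5_1 c5.1 c5.2) <|
    imp (chkE (nat_lit 5) e_16_13_5_2 c5.1 c5.2) <|
    stE_3 a13 c5.1 r_13_11_5_0 r_13_11_7_0 r_13_19_7_0 r_13_19_7_1 r_13_9_7_0 r_16_11_5_0 r_16_19_5_0 r_16_7_13_0 r_16_9_13_0 r_16_9_13_1 t13 c5.2) CE_5 (nat_lit 0)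

/-- stage -/
def stE_1 (r_16_11_5_0 r_16_13_5_0 r_16_13_5_1 r_16_13_5_2 r_16_19_5_0 r_16_7_13_0 r_16_9_13_0 r_16_9_13_1 : ℕ) : Bool :=
  allI (fun i13 c13 =>
    strict (dg (nat_lit 12) r_16_13_5_0 i13) fun e_16_13_5_0 =>
    strict (dg (nat_lit 12) r_16_13_5_1 i13) fun e_16_13_5_1 =>
    strict (dg (nat_lit 12) r_16_13_5_2 i13) fun e_16_13_5_2 =>
    strict (dg (nat_lit 324) TBE_13_9_7_0 i13) fun r_13_9_7_0 =>
    strict (dg (nat_lit 660) TBE_13_11_5_0 i13) fun r_13_11_5_0 =>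
    strict (dg (nat_lit 660) TBE_13_11_7_0 i13) fun r_13_11_7_0 =>
    strict (dg (nat_lit 2052) TBE_13_19_7_0 i13) fun r_13_19_7_0 =>
    strict (dg (nat_lit 2052) TBE_13_19_7_1 i13) fun r_13_19_7_1 =>
    stE_2 c13.1 e_16_13_5_0 e_16_13_5_1 e_16_13_5_2 r_13_11_5_0 r_13_11_7_0 r_13_19_7_0 r_13_19_7_1 r_13_9_7_0 r_16_11_5_0 r_16_19_5_0 r_16_7_13_0 r_16_9_13_0 r_16_9_13_1 c13.2) CE_13 (nat_lit 0)

/-- stage -/
def bdE (i16 : ℕ) (c16 : ℕ × ℕ) : Bool :=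
    strict (dg (nat_lit 936) TBE_16_13_5_0 i16) fun r_16_13_5_0 =>
    strict (dg (nat_lit 936) TBE_16_13_5_1 i16) fun r_16_13_5_1 =>
    strict (dg (nat_lit 936) TBE_16_13_5_2 i16) fun r_16_13_5_2 =>
    strict (dg (nat_lit 252) TBE_16_7_13_0 i16) fun r_16_7_13_0 =>
    strict (dg (nat_lit 324) TBE_16_9_13_0 i16) fun r_16_9_13_0 =>
    strict (dg (nat_lit 324) TBE_16_9_13_1 i16) fun r_16_9_13_1 =>
    strict (dg (nat_lit 660) TBE_16_11_5_0 i16) fun r_16_11_5_0 =>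
    strict (dg (nat_lit 2052) TBE_16_19_5_0 i16) fun r_16_19_5_0 =>
    stE_1 r_16_11_5_0 r_16_13_5_0 r_16_13_5_1 r_16_13_5_2 r_16_19_5_0 r_16_7_13_0 r_16_9_13_0 r_16_9_13_1

theorem falseE {a t : ℕ} {i16 i13 i5 i7 i9 i11 i17 i19 : ℕ}
    (b16 : i16 < CE_16.length)
    (b13 : i13 < CE_13.length)
    (b5 : i5 < CE_5.length)
    (b7 : i7 < CE_7.length)
    (b9 : i9 < CE_9.length)
    (b11 : i11 < CE_11.length)
    (b17 : i17 < CE_17.length)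
    (b19 : i19 < CE_19.length)
    (top : bdE i16 CE_16[i16] = true)
    (h16 : CE_16[i16] = (a % 16, t % 16))
    (h13 : CE_13[i13] = (a % 13, t % 13))
    (h5 : CE_5[i5] = (a % 5, t % 5))
    (h7 : CE_7[i7] = (a % 7, t % 7))
    (h9 : CE_9[i9] = (a % 9, t % 9))
    (h11 : CE_11[i11] = (a % 11, t % 11))
    (h17 : CE_17[i17] = (a % 17, t % 17))
    (h19 : CE_19[i19] = (a % 19, t % 19))
    (r_16_13_5_0 : chkE 5 (dg 12 (dg 936 TBE_16_13_5_0 i16) i13) (a % 5) (t % 5) = true)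
    (r_16_13_5_1 : chkE 5 (dg 12 (dg 936 TBE_16_13_5_1 i16) i13) (a % 5) (t % 5) = true)
    (r_16_13_5_2 : chkE 5 (dg 12 (dg 936 TBE_16_13_5_2 i16) i13) (a % 5) (t % 5) = true)
    (r_16_7_13_0 : chkE 13 (dg 12 (dg 252 TBE_16_7_13_0 i16) i7) (a % 13) (t % 13) = true)
    (r_16_9_13_0 : chkE 13 (dg 12 (dg 324 TBE_16_9_13_0 i16) i9) (a % 13) (t % 13) = true)
    (r_16_9_13_1 : chkE 13 (dg 12 (dg 324 TBE_16_9_13_1 i16) i9) (a % 13) (t % 13) = true)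
    (r_13_9_7_0 : chkE 7 (dg 12 (dg 324 TBE_13_9_7_0 i13) i9) (a % 7) (t % 7) = true)
    (r_13_11_5_0 : chkE 5 (dg 12 (dg 660 TBE_13_11_5_0 i13) i11) (a % 5) (t % 5) = true)
    (r_13_11_7_0 : chkE 7 (dg 12 (dg 660 TBE_13_11_7_0 i13) i11) (a % 7) (t % 7) = true)
    (r_16_11_5_0 : chkE 5 (dg 12 (dg 660 TBE_16_11_5_0 i16) i11) (a % 5) (t % 5) = true)
    (r_7_17_5_0 : chkE 5 (dg 12 (dg 1632 TBE_7_17_5_0 i7) i17) (a % 5) (t % 5) = true)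
    (r_7_17_13_0 : chkE 13 (dg 12 (dg 1632 TBE_7_17_13_0 i7) i17) (a % 13) (t % 13) = true)
    (r_17_19_7_0 : chkE 7 (dg 12 (dg 2052 TBE_17_19_7_0 i17) i19) (a % 7) (t % 7) = true)
    (r_9_19_7_0 : chkE 7 (dg 12 (dg 2052 TBE_9_19_7_0 i9) i19) (a % 7) (t % 7) = true)
    (r_13_19_7_0 : chkE 7 (dg 12 (dg 2052 TBE_13_19_7_0 i13) i19) (a % 7) (t % 7) = true)
    (r_13_19_7_1 : chkE 7 (dg 12 (dg 2052 TBE_13_19_7_1 i13) i19) (a % 7) (t % 7) = true)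
    (r_16_19_5_0 : chkE 5 (dg 12 (dg 2052 TBE_16_19_5_0 i16) i19) (a % 5) (t % 5) = true)
    : False := by
  try rw [h16] at top
  unfold bdE at top
  simp only [strict_eq] at top
  unfold stE_1 at top
  replace top := allI_get top b13
  try rw [h13] at top
  simp only [strict_eq] at top
  unfold stE_2 at top
  replace top := allI_get top b5
  try rw [h5] at top
  replace top := imp_spec top r_16_13_5_0
  replace top := imp_spec top r_16_13_5_1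
  replace top := imp_spec top r_16_13_5_2
  unfold stE_3 at top
  replace top := allI_get top b7
  try rw [h7] at top
  simp only [strict_eq] at top
  replace top := imp_spec top r_16_7_13_0
  unfold stE_4 at top
  replace top := allI_get top b9
  try rw [h9] at top
  simp only [strict_eq] at top
  replace top := imp_spec top r_16_9_13_0
  replace top := imp_spec top r_16_9_13_1
  replace top := imp_spec top r_13_9_7_0
  unfold stE_5 at top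
  replace top := allI_get top b11
  try rw [h11] at top
  replace top := imp_spec top r_13_11_5_0
  replace top := imp_spec top r_13_11_7_0
  replace top := imp_spec top r_16_11_5_0
  unfold stE_6 at top
  replace top := allI_get top b17
  try rw [h17] at top
  simp only [strict_eq] at top
  replace top := imp_spec top r_7_17_5_0
  replace top := imp_spec top r_7_17_13_0
  unfold stE_7 at top
  replace top := allI_get top b19
  try rw [h19] at top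
  replace top := imp_spec top r_17_19_7_0
  replace top := imp_spec top r_9_19_7_0
  replace top := imp_spec top r_13_19_7_0
  replace top := imp_spec top r_13_19_7_1
  replace top := imp_spec top r_16_19_5_0
  exact Bool.false_ne_true top

end Pool.Agent.LibH4.KF
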