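import Mathlib

/-!
Kernel friendly functions for the elimination.
All digits are in base `2 ^ 16`, character tables in base `16`.
-/

namespace Pool.Agent.LibH4.Ker

/-- sum over a list -/
def sumL {α : Type} (f : α → ℕ) (L : List α) : ℕ :=
  @List.rec α (fun _ => ℕ) (nat_lit 0) (fun x _ ih => Nat.add (f x) ih) L

/-- sum over `0, …, n-1` -/
def sumR (f : ℕ → ℕ) (n : ℕ) : ℕ :=
  @Nat.rec (fun _ => ℕ) (nat_lit 0) (fun m ih => Nat.add (f m) ih) n

/-- packing of the values on a list in base `V` -/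
def packL {α : Type} (V : ℕ) (f : α → ℕ) (L : List α) : ℕ :=
  @List.rec α (fun _ => ℕ) (nat_lit 0) (fun x _ ih => Nat.add (f x) (Nat.mul V ih)) L

/-- packing of the values `f 0, …, f (n-1)` in base `2 ^ w` -/
def packR (w : ℕ) (f : ℕ → ℕ) (n : ℕ) : ℕ :=
  @Nat.rec (fun _ => ℕ) (nat_lit 0)
    (fun m ih => Nat.add (Nat.mul (f m) (Nat.pow (nat_lit 2) (Nat.mul w m))) ih) n

/-- universal quantification over a list -/
def allL {α : Type} (p : α → Bool) (L : List α) : Bool :=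
  @List.rec α (fun _ => Bool) true (fun x _ ih => @Bool.rec (fun _ => Bool) false ih (p x)) L

/-- universal quantification over `0, …, n-1` -/
def allR (p : ℕ → Bool) (n : ℕ) : Bool :=
  @Nat.rec (fun _ => Bool) true (fun m ih => @Bool.rec (fun _ => Bool) false ih (p m)) n

/-- universal quantification over a list, with index -/
def allI {α : Type} (p : ℕ → α → Bool) (L : List α) : ℕ → Bool :=
  @List.rec α (fun _ => ℕ → Bool) (fun _ => true)
    (fun x _ ih i => @Bool.rec (fun _ => Bool) false (ih (Nat.succ i)) (p i x)) L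

/-- forces the evaluation of a natural number -/
def strict {β : Type} (n : ℕ) (k : ℕ → β) : β :=
  @Nat.rec (fun _ => β) (k (nat_lit 0)) (fun m _ => k (Nat.succ m)) n

/-- forces the evaluation of a mapped list -/
def mapK {α β : Type} (f : α → ℕ) (L : List α) : (List (α × ℕ) → β) → β :=
  @List.rec α (fun _ => (List (α × ℕ) → β) → β) (fun k => k [])
    (fun x _ ih k => strict (f x) fun v => ih fun rest => k ((x, v) :: rest)) L

/-- character lookup -/
def ch (T x : ℕ) : ℕ := Nat.mod (Nat.shiftRight T (Nat.mul (nat_lit 4) x)) (nat_lit 16)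

/-- digit `i` in base `2 ^ w` -/
def dg (w X i : ℕ) : ℕ := Nat.mod (Nat.shiftRight X (Nat.mul w i)) (Nat.pow (nat_lit 2) w)

/-- the first quadratic form modulo `n` -/
def N1 (n B nm x y : ℕ) : ℕ :=
  Nat.mod (Nat.add (Nat.mul x (Nat.add x (Nat.mul B y))) (Nat.mul nm (Nat.mul y y))) n

/-- the second quadratic form modulo `n` -/
def N3 (n m k nm x y : ℕ) : ℕ :=
  Nat.mod (Nat.add (Nat.mul x (Nat.add (Nat.mul m x) (Nat.mul k y))) (Nat.mul nm (Nat.mul y y))) n

/-- `B` modulo `n` -/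
def fB (n a t : ℕ) : ℕ :=
  Nat.mod (Nat.add (Nat.mul (Nat.add (Nat.mul a a) (nat_lit 1)) t) a) n
/-- `m` modulo `n` -/
def fm (n a t : ℕ) : ℕ := Nat.mod (Nat.add (Nat.mul a t) (nat_lit 1)) n
/-- `-m` modulo `n` -/
def fnm (n m : ℕ) : ℕ := Nat.sub n m
/-- `2 m a - B` modulo `n` -/
def fk (n a m B : ℕ) : ℕ :=
  Nat.mod (Nat.add (Nat.mul (Nat.mul (nat_lit 2) m) a) (Nat.mul (Nat.sub n (nat_lit 1)) B)) n

/-- continuation with the coefficients of the class `(a, t)` modulo `n` -/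
def withC {β : Type} (n a t : ℕ) (k : ℕ → ℕ → ℕ → ℕ → β) : β :=
  strict (fB n a t) fun B => strict (fm n a t) fun m => strict (fnm n m) fun nm =>
    strict (fk n a m B) fun kk => k B m nm kk

/-- the linear weight modulo `l` -/
def bet (q l r : ℕ) : ℕ := @Nat.rec (fun _ => ℕ) (nat_lit 0)
  (fun _ _ => Nat.mod (Nat.add q (Nat.mul (Nat.sub l (nat_lit 2)) r)) l) r

/-- the quadratic weight modulo `l` -/
def gam (q l r : ℕ) : ℕ := Nat.mod (Nat.add (Nat.add (Nat.mul (nat_lit 6) (Nat.mul r r))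
  (Nat.mul (Nat.mul (nat_lit 6) (Nat.sub l (nat_lit 1))) (Nat.mul q r))) (Nat.mul q q)) l

/-- term of the weight sum at `lam`, with tables -/
def dterm (q CT BT GT X Y lam : ℕ) : ℕ :=
  @Nat.rec (fun _ => ℕ) (nat_lit 0) (fun c _ =>
    strict (Nat.mod (Nat.mul lam X) q) fun x => strict (Nat.mod (Nat.mul lam Y) q) fun y =>
      Nat.mul (Nat.succ c) (Nat.add (Nat.mul (ch BT x) (ch BT y))
        (Nat.add (Nat.mul (nat_lit 16777216) (ch GT y))
          (Nat.mul (nat_lit 281474976710656) (ch GT x))))) (ch CT lam)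

/-- the weights `D`, `E1`, `E2` modulo `l` in base `2 ^ 16` -/
def dfull (q l CT BT GT X Y : ℕ) : ℕ :=
  strict (sumR (dterm q CT BT GT X Y) q) fun s =>
    Nat.add (Nat.mod (Nat.mod s (nat_lit 16777216)) l)
      (Nat.add (Nat.mul (nat_lit 65536) (Nat.mod (dg (nat_lit 24) s (nat_lit 1)) l))
        (Nat.mul (nat_lit 4294967296) (Nat.mod (dg (nat_lit 24) s (nat_lit 2)) l)))

/-- the packed row of weights for the first representative `P` -/
def drow (q l e1 e2 CT BT GT : ℕ) (L2 : List (ℕ × ℕ)) (P : ℕ × ℕ) : ℕ :=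
  packL (nat_lit 281474976710656) (fun Q => strict (Nat.mod (Nat.add (Nat.mul P.1 e1) (Nat.mul Q.1 e2)) q) fun X =>
    strict (Nat.mod (Nat.add (Nat.mul P.2 e1) (Nat.mul Q.2 e2)) q) fun Y =>
      dfull q l CT BT GT X Y) L2

/-- packed column for the first form -/
def ycol1 (n T : ℕ) (D : List (ℕ × ℕ)) (Q : ℕ × ℕ) : ℕ :=
  packL (nat_lit 281474976710656) (fun c => withC n c.1 c.2 fun B _ nm _ =>
    ch T (N1 n B nm Q.1 Q.2)) D

/-- packed column for the second form -/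
def ycol3 (n T : ℕ) (D : List (ℕ × ℕ)) (Q : ℕ × ℕ) : ℕ :=
  packL (nat_lit 281474976710656) (fun c => withC n c.1 c.2 fun _ m nm k =>
    ch T (N3 n m k nm Q.1 Q.2)) D

/-- combination of the columns -/
def rowS (l : ℕ) (Ys : List (((ℕ × ℕ) × ℕ) × ℕ)) : ℕ → ℕ → ℕ :=
  @List.rec _ (fun _ => ℕ → ℕ → ℕ) (fun _ _ => (nat_lit 0)) (fun x _ ih U1 U3 =>
    strict (Nat.div U1 (nat_lit 281474976710656)) fun V1 =>
    strict (Nat.div U3 (nat_lit 281474976710656)) fun V3 =>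
    Nat.add (Nat.add
      (Nat.mul (Nat.add (Nat.mul (nat_lit 6) (Nat.mod (dg (nat_lit 16) U1 (nat_lit 0)) l))
        (Nat.add (Nat.mul (nat_lit 65536) (Nat.mod (dg (nat_lit 16) U1 (nat_lit 1)) l))
          (Nat.mul (nat_lit 4294967296) (Nat.mod (dg (nat_lit 16) U1 (nat_lit 2)) l)))) x.1.2)
      (Nat.mul (Nat.mul (nat_lit 3) (Nat.mod (dg (nat_lit 16) U3 (nat_lit 0)) l)) x.2))
      (ih V1 V3)) Ys

/-- the row of the class `c` -/
def row (n l T : ℕ) (DRs : List ((ℕ × ℕ) × ℕ)) (Ys : List (((ℕ × ℕ) × ℕ) × ℕ)) (c : ℕ × ℕ) : ℕ :=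
  withC n c.1 c.2 fun B m nm k =>
    strict (sumL (fun x => Nat.mul (ch T (N1 n B nm x.1.1 x.1.2)) x.2) DRs) fun U1 =>
    strict (sumL (fun x => Nat.mul (ch T (N3 n m k nm x.1.1 x.1.2)) x.2) DRs) fun U3 =>
      rowS l Ys U1 U3

/-- the table check -/
def check (n1 n2 q l e1 e2 T1 T2 J : ℕ) (L1 L2 D1 D2 : List (ℕ × ℕ)) (TB : ℕ) : Bool :=
  strict (packR (nat_lit 4) (fun x => strict (Nat.mul (ch T1 (Nat.mod x n1)) (ch T2 (Nat.mod x n2)))
    fun y => Nat.mod (Nat.mul y y) l) q) fun CT =>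
  strict (packR (nat_lit 4) (bet q l) q) fun BT =>
  strict (packR (nat_lit 4) (gam q l) q) fun GT =>
  mapK (drow q l e1 e2 CT BT GT L2) L1 fun DRs =>
  mapK (ycol1 n2 T2 D2) L2 fun Y1s =>
  mapK (fun x => ycol3 n2 T2 D2 x.1) Y1s fun Ys =>
  allI (fun i c => Nat.beq (dg (Nat.mul (nat_lit 48) J) TB i) (row n1 l T1 DRs Ys c)) D1 (nat_lit 0)

end Pool.Agent.LibH4.Ker
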