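import Pool.Agent.Lib_helper4.Ker

/-!
Specifications of the kernel friendly functions.
-/

namespace Pool.Agent.LibH4.Ker

open Finset

lemma strict_eq {β : Type} (n : ℕ) (k : ℕ → β) : strict n k = k n := by
  cases n <;> rfl

lemma sumL_eq {α : Type} (f : α → ℕ) (L : List α) : sumL f L = (L.map f).sum := by
  induction L with
  | nil => rfl
  | cons x xs ih =>
    rw [List.map_cons, List.sum_cons, ← ih]
    rfl

lemma sumR_eq (f : ℕ → ℕ) (n : ℕ) : sumR f n = ∑ m ∈ range n, f m := by
  induction n with
  | zero => rfl
  | succ n ih =>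
    have h : sumR f (n + 1) = f n + sumR f n := rfl
    rw [sum_range_succ, ← ih, h, add_comm]

lemma allL_spec {α : Type} {p : α → Bool} {L : List α} (h : allL p L = true) :
    ∀ x ∈ L, p x = true := by
  induction L with
  | nil => intro x hx; simp at hx
  | cons y ys ih =>
    have h' : @Bool.rec (fun _ => Bool) false (allL p ys) (p y) = true := h
    cases hy : p y with
    | false => rw [hy] at h'; simp at h'
    | true =>
      rw [hy] at h'
      intro x hx
      rcases List.mem_cons.mp hx with rfl | hx
      · exact hy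
      · exact ih h' x hx

lemma allR_spec {p : ℕ → Bool} {n : ℕ} (h : allR p n = true) : ∀ m < n, p m = true := by
  induction n with
  | zero => intro m hm; omega
  | succ n ih =>
    have h' : @Bool.rec (fun _ => Bool) false (allR p n) (p n) = true := h
    cases hy : p n with
    | false => rw [hy] at h'; simp at h'
    | true =>
      rw [hy] at h'
      intro m hm
      rcases Nat.lt_succ_iff_lt_or_eq.mp hm with hm | rfl
      · exact ih h' m hm
      · exact hy

lemma allI_spec {α : Type} {p : ℕ → α → Bool} {L : List α} {i : ℕ} (h : allI p L i = true) :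
    ∀ j (hj : j < L.length), p (i + j) L[j] = true := by
  induction L generalizing i with
  | nil => intro j hj; simp at hj
  | cons y ys ih =>
    have h' : @Bool.rec (fun _ => Bool) false (allI p ys (Nat.succ i)) (p i y) = true := h
    cases hy : p i y with
    | false => rw [hy] at h'; simp at h'
    | true =>
      rw [hy] at h'
      intro j hj
      cases j with
      | zero => simpa using hy
      | succ j =>
        have := ih h' j (by simpa using hj)
        simp only [List.getElem_cons_succ]
        rw [show i + (j + 1) = Nat.succ i + j by omega]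
        exact this

lemma mapK_eq {α β : Type} (f : α → ℕ) (L : List α) (k : List (α × ℕ) → β) :
    mapK f L k = k (L.map fun x => (x, f x)) := by
  induction L generalizing k with
  | nil => rfl
  | cons x xs ih =>
    have : mapK f (x :: xs) k = strict (f x) fun v => mapK f xs fun rest => k ((x, v) :: rest) := rfl
    rw [this, strict_eq, ih]
    rfl

lemma packL_cons {α : Type} (V : ℕ) (f : α → ℕ) (x : α) (xs : List α) :
    packL V f (x :: xs) = f x + V * packL V f xs := rfl

lemma packL_nil {α : Type} (V : ℕ) (f : α → ℕ) : packL V f [] = 0 := rfl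

lemma packL_digit {α : Type} {V : ℕ} {f : α → ℕ} {L : List α} (h : ∀ x ∈ L, f x < V) :
    ∀ j (hj : j < L.length), packL V f L / V ^ j % V = f L[j] := by
  induction L with
  | nil => intro j hj; simp at hj
  | cons x xs ih =>
    intro j hj
    have hx : f x < V := h x (by simp)
    have hV : 0 < V := by omega
    rw [packL_cons]
    cases j with
    | zero =>
      simp only [pow_zero, Nat.div_one, List.getElem_cons_zero]
      rw [Nat.add_mul_mod_self_left, Nat.mod_eq_of_lt hx]
    | succ j =>
      rw [pow_succ', ← Nat.div_div_eq_div_mul, Nat.add_mul_div_left _ _ hV,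
        Nat.div_eq_of_lt hx, zero_add, List.getElem_cons_succ]
      exact ih (fun y hy => h y (by simp [hy])) j (by simpa using hj)

lemma packL_add {α : Type} (V : ℕ) (f g : α → ℕ) (L : List α) :
    packL V (fun x => f x + g x) L = packL V f L + packL V g L := by
  induction L with
  | nil => rfl
  | cons x xs ih => rw [packL_cons, packL_cons, packL_cons, ih]; ring

lemma packL_mul {α : Type} (V c : ℕ) (f : α → ℕ) (L : List α) :
    packL V (fun x => c * f x) L = c * packL V f L := by
  induction L with
  | nil => rfl
  | cons x xs ih => rw [packL_cons, packL_cons, ih]; ring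

lemma packL_zero {α : Type} (V : ℕ) (L : List α) : packL V (fun _ => 0) L = 0 := by
  induction L with
  | nil => rfl
  | cons x xs ih => rw [packL_cons, ih]; ring

lemma packL_sum {α β : Type} (V : ℕ) (s : β → ℕ) (f : β → α → ℕ) (M : List β) (L : List α) :
    (M.map fun k => s k * packL V (f k) L).sum =
      packL V (fun x => (M.map fun k => s k * f k x).sum) L := by
  induction M with
  | nil => simp [packL_zero]
  | cons k ks ih =>
    simp only [List.map_cons, List.sum_cons]
    rw [ih, packL_add, packL_mul]

lemma packL_congr {α : Type} (V : ℕ) {f g : α → ℕ} {L : List α} (h : ∀ x ∈ L, f x = g x) :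
    packL V f L = packL V g L := by
  induction L with
  | nil => rfl
  | cons x xs ih =>
    rw [packL_cons, packL_cons, h x (by simp), ih (fun y hy => h y (by simp [hy]))]

lemma packR_succ (w : ℕ) (f : ℕ → ℕ) (n : ℕ) :
    packR w f (n + 1) = f n * 2 ^ (w * n) + packR w f n := rfl

lemma packR_lt {w : ℕ} {f : ℕ → ℕ} (h : ∀ m, f m < 2 ^ w) (n : ℕ) :
    packR w f n < 2 ^ (w * n) := by
  induction n with
  | zero => simp [packR]
  | succ n ih =>
    rw [packR_succ]
    have h1 : f n + 1 ≤ 2 ^ w := h n
    calc f n * 2 ^ (w * n) + packR w f n < f n * 2 ^ (w * n) + 2 ^ (w * n) := by omega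
      _ = (f n + 1) * 2 ^ (w * n) := by ring
      _ ≤ 2 ^ w * 2 ^ (w * n) := Nat.mul_le_mul_right _ h1
      _ = 2 ^ (w * (n + 1)) := by rw [← pow_add]; congr 1; ring

lemma packR_digit {w : ℕ} {f : ℕ → ℕ} (h : ∀ m, f m < 2 ^ w) {n : ℕ} :
    ∀ m < n, packR w f n / 2 ^ (w * m) % 2 ^ w = f m := by
  induction n with
  | zero => intro m hm; omega
  | succ n ih =>
    intro m hm
    rw [packR_succ]
    rcases Nat.lt_succ_iff_lt_or_eq.mp hm with hm | rfl
    · rw [← ih m hm]
      have e : f n * 2 ^ (w * n) = (f n * 2 ^ (w * (n - m - 1)) * 2 ^ w) * 2 ^ (w * m) := by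
        rw [mul_assoc, mul_assoc, ← pow_add, ← pow_add]
        congr 2
        have : n = (n - m - 1) + 1 + m := by omega
        conv_lhs => rw [this]
        ring
      rw [e, add_comm, Nat.add_mul_div_right _ _ (by positivity), Nat.add_mul_mod_self_right]
    · rw [add_comm, Nat.add_mul_div_right _ _ (by positivity), Nat.div_eq_of_lt (packR_lt h _),
        zero_add, Nat.mod_eq_of_lt (h _)]

lemma dg_eq (w X i : ℕ) : dg w X i = X / 2 ^ (w * i) % 2 ^ w := by
  unfold dg
  change (X >>> (w * i)) % (2 ^ w) = _
  rw [Nat.shiftRight_eq_div_pow]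

lemma ch_eq (T x : ℕ) : ch T x = T / 2 ^ (4 * x) % 2 ^ 4 := by
  unfold ch
  change (T >>> (4 * x)) % 16 = _
  rw [Nat.shiftRight_eq_div_pow]
  norm_num

lemma ch_lt (T x : ℕ) : ch T x < 16 := by
  rw [ch_eq]; exact Nat.mod_lt _ (by norm_num)

lemma ch_packR {f : ℕ → ℕ} (h : ∀ m, f m < 16) {n m : ℕ} (hm : m < n) :
    ch (packR (nat_lit 4) f n) m = f m := by
  rw [ch_eq]
  exact packR_digit (w := 4) (by simpa using h) m hm

end Pool.Agent.LibH4.Ker
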