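import Mathlib

/-!
Squarefree values of `n² + 4`, `n = 2k+1` odd: at least a positive proportion.
-/

namespace Pool.Agent.LibH4

/-- `aval k = (2k+1)² + 4`. -/
def aval (k : ℕ) : ℕ := (2 * k + 1) ^ 2 + 4

/-- number of `k < K` with `q² ∣ aval k` is at most `2 (K / q² + 1)` -/
lemma card_roots (q K : ℕ) (hq : q.Prime) (hq2 : q ≠ 2) :
    ((Finset.range K).filter (fun k => q ^ 2 ∣ aval k)).card ≤ 2 * (K / q ^ 2 + 1) := by
  set s := (Finset.range K).filter (fun k => q ^ 2 ∣ aval k) with hs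
  have hqpos : 0 < q ^ 2 := pow_pos hq.pos 2
  have hq' : Prime (q : ℤ) := Nat.prime_iff_prime_int.mp hq
  have hq2' : ¬ (q : ℤ) ∣ 2 := by
    intro h
    have : q ∣ 2 := by exact_mod_cast h
    exact hq2 ((Nat.prime_dvd_prime_iff_eq hq Nat.prime_two).mp this)
  have hfib : ∀ a ∈ s.image (fun k => k / q ^ 2), (s.filter (fun k => k / q ^ 2 = a)).card ≤ 2 := by
    intro a _
    by_contra hlt
    push Not at hlt
    rw [Finset.two_lt_card] at hlt
    obtain ⟨x, hx, y, hy, z, hz, hxy, hxz, hyz⟩ := hlt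
    simp only [Finset.mem_filter, hs, Finset.mem_range] at hx hy hz
    -- pairwise relation
    have key : ∀ u v : ℕ, q ^ 2 ∣ aval u → q ^ 2 ∣ aval v → u / q ^ 2 = a → v / q ^ 2 = a → u ≠ v →
        ((q : ℤ) ^ 2) ∣ ((u : ℤ) + v + 1) := by
      intro u v hu hv hua hva huv
      have hu' : ((q : ℤ) ^ 2) ∣ (2 * (u : ℤ) + 1) ^ 2 + 4 := by
        have := (Int.natCast_dvd_natCast.mpr hu)
        simpa [aval] using this
      have hv' : ((q : ℤ) ^ 2) ∣ (2 * (v : ℤ) + 1) ^ 2 + 4 := by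
        have := (Int.natCast_dvd_natCast.mpr hv)
        simpa [aval] using this
      have h4 : ((q : ℤ) ^ 2) ∣ 4 * (((u : ℤ) - v) * (u + v + 1)) := by
        have := dvd_sub hu' hv'
        have e : (2 * (u : ℤ) + 1) ^ 2 + 4 - ((2 * (v : ℤ) + 1) ^ 2 + 4) =
          4 * (((u : ℤ) - v) * (u + v + 1)) := by ring
        rwa [e] at this
      have hcop4 : IsCoprime ((q : ℤ) ^ 2) 4 := by
        have h2 : IsCoprime (q : ℤ) 2 := (Irreducible.coprime_iff_not_dvd hq'.irreducible).mpr hq2'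
        have : (4 : ℤ) = 2 ^ 2 := by norm_num
        rw [this]
        exact h2.pow
      have h5 : ((q : ℤ) ^ 2) ∣ ((u : ℤ) - v) * (u + v + 1) := hcop4.dvd_of_dvd_mul_left h4
      by_cases hA : (q : ℤ) ∣ (u : ℤ) - v
      · -- then q ∤ u+v+1, so q² ∣ u - v, so u = v
        exfalso
        have hB : ¬ (q : ℤ) ∣ (u : ℤ) + v + 1 := by
          intro hB
          have h6 : (q : ℤ) ∣ 2 * (u : ℤ) + 1 := by
            have := dvd_add hA hB
            have e : (u : ℤ) - v + (u + v + 1) = 2 * u + 1 := by ring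
            rwa [e] at this
          have h7 : (q : ℤ) ∣ (2 * (u : ℤ) + 1) ^ 2 + 4 := (dvd_pow_self _ two_ne_zero).trans hu'
          have h8 : (q : ℤ) ∣ 4 := by
            have := dvd_sub h7 (h6.trans (Dvd.intro_left ((2 * (u : ℤ) + 1)) (by ring : (2 * (u : ℤ) + 1) * (2 * (u : ℤ) + 1) = (2 * (u : ℤ) + 1) ^ 2)))
            simpa using this
          have : (q : ℤ) ∣ 2 * 2 := by norm_num; exact h8
          rcases hq'.dvd_or_dvd this with h | h <;> exact hq2' h
        have hcop : IsCoprime ((q : ℤ) ^ 2) ((u : ℤ) + v + 1) :=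
          IsCoprime.pow_left ((Irreducible.coprime_iff_not_dvd hq'.irreducible).mpr hB)
        have h9 : ((q : ℤ) ^ 2) ∣ (u : ℤ) - v := hcop.dvd_of_dvd_mul_right h5
        have h10 : u % q ^ 2 = v % q ^ 2 := by
          have : (u : ℤ) % ((q ^ 2 : ℕ) : ℤ) = (v : ℤ) % ((q ^ 2 : ℕ) : ℤ) := by
            apply Int.ModEq.symm
            rw [Int.modEq_iff_dvd]
            push_cast
            exact h9
          exact_mod_cast this
        apply huv
        rw [← Nat.div_add_mod u (q ^ 2), ← Nat.div_add_mod v (q ^ 2), hua, hva, h10]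
      · have hcop : IsCoprime ((q : ℤ) ^ 2) ((u : ℤ) - v) :=
          IsCoprime.pow_left ((Irreducible.coprime_iff_not_dvd hq'.irreducible).mpr hA)
        exact hcop.dvd_of_dvd_mul_left h5
    have hxy' := key x y hx.1.2 hy.1.2 hx.2 hy.2 hxy
    have hxz' := key x z hx.1.2 hz.1.2 hx.2 hz.2 hxz
    have hyz' : ((q : ℤ) ^ 2) ∣ (y : ℤ) - z := by
      have := dvd_sub hxy' hxz'
      have e : (x : ℤ) + y + 1 - (x + z + 1) = y - z := by ring
      rwa [e] at this
    have h10 : y % q ^ 2 = z % q ^ 2 := by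
      have : (y : ℤ) % ((q ^ 2 : ℕ) : ℤ) = (z : ℤ) % ((q ^ 2 : ℕ) : ℤ) := by
        apply Int.ModEq.symm
        rw [Int.modEq_iff_dvd]
        push_cast
        exact hyz'
      exact_mod_cast this
    apply hyz
    rw [← Nat.div_add_mod y (q ^ 2), ← Nat.div_add_mod z (q ^ 2), hy.2, hz.2, h10]
  have h1 := Finset.card_le_mul_card_image s 2 hfib
  have h2 : (s.image (fun k => k / q ^ 2)).card ≤ K / q ^ 2 + 1 := by
    have : s.image (fun k => k / q ^ 2) ⊆ Finset.range (K / q ^ 2 + 1) := by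
      intro a ha
      rw [Finset.mem_image] at ha
      obtain ⟨k, hk, rfl⟩ := ha
      rw [Finset.mem_range]
      simp only [hs, Finset.mem_filter, Finset.mem_range] at hk
      exact Nat.lt_succ_of_le (Nat.div_le_div_right hk.1.le)
    simpa using Finset.card_le_card this
  calc s.card ≤ 2 * (s.image (fun k => k / q ^ 2)).card := h1
    _ ≤ 2 * (K / q ^ 2 + 1) := Nat.mul_le_mul_left 2 h2


lemma aval_odd (k : ℕ) : ¬ 2 ∣ aval k := by
  unfold aval
  intro h
  have : (2 * k + 1) ^ 2 + 4 = 2 * (2 * k ^ 2 + 2 * k + 2) + 1 := by ring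
  omega

lemma prime_mod_twelve (q k : ℕ) (hq : q.Prime) (h : q ∣ aval k) :
    q % 12 = 1 ∨ q % 12 = 5 := by
  have : Fact q.Prime := ⟨hq⟩
  have hq2 : q ≠ 2 := by
    rintro rfl
    exact aval_odd k h
  have hodd : q % 2 = 1 := (hq.eq_two_or_odd).resolve_left hq2
  have h2 : (2 : ZMod q) ≠ 0 := by
    intro h2
    have : ((2 : ℕ) : ZMod q) = 0 := by exact_mod_cast h2
    rw [ZMod.natCast_eq_zero_iff] at this
    exact hq2 ((Nat.prime_dvd_prime_iff_eq hq Nat.prime_two).mp this)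
  have hx : ((2 * (k : ZMod q) + 1)) ^ 2 = -(2 : ZMod q) ^ 2 := by
    have : ((aval k : ℕ) : ZMod q) = 0 := by rwa [ZMod.natCast_eq_zero_iff]
    unfold aval at this
    push_cast at this
    linear_combination this
  have h4 : q % 4 ≠ 3 := ZMod.mod_four_ne_three_of_sq_eq_neg_sq' h2 hx
  have h3 : q % 3 ≠ 0 := by
    intro h3
    have : 3 ∣ q := Nat.dvd_of_mod_eq_zero h3
    have : 3 = q := (Nat.prime_dvd_prime_iff_eq Nat.prime_three hq).mp this
    omega
  omega

/-- candidate primes -/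
def Qset (K : ℕ) : Finset ℕ :=
  (Finset.range (2 * K + 1)).filter (fun q => q.Prime ∧ (q % 12 = 1 ∨ q % 12 = 5))

lemma card_Qset (K : ℕ) : (Qset K).card ≤ 2 * (K / 6 + 1) := by
  have hfib : ∀ a ∈ (Qset K).image (fun q => q / 12),
      ((Qset K).filter (fun q => q / 12 = a)).card ≤ 2 := by
    intro a _
    have : (Qset K).filter (fun q => q / 12 = a) ⊆ {12 * a + 1, 12 * a + 5} := by
      intro q hq
      simp only [Qset, Finset.mem_filter, Finset.mem_range] at hq
      simp only [Finset.mem_insert, Finset.mem_singleton]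
      omega
    exact (Finset.card_le_card this).trans (Finset.card_le_two)
  have h1 := Finset.card_le_mul_card_image (Qset K) 2 hfib
  have h2 : ((Qset K).image (fun q => q / 12)).card ≤ K / 6 + 1 := by
    have : (Qset K).image (fun q => q / 12) ⊆ Finset.range (K / 6 + 1) := by
      intro a ha
      rw [Finset.mem_image] at ha
      obtain ⟨q, hq, rfl⟩ := ha
      simp only [Qset, Finset.mem_filter, Finset.mem_range] at hq
      rw [Finset.mem_range]
      omega
    simpa using Finset.card_le_card this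
  calc (Qset K).card ≤ 2 * ((Qset K).image (fun q => q / 12)).card := h1
    _ ≤ 2 * (K / 6 + 1) := Nat.mul_le_mul_left 2 h2

lemma sum_inv_sq (J : ℕ) : ∑ j ∈ Finset.range J, (1 : ℝ) / (4 * ((j : ℝ) + 1) + 1) ^ 2 ≤
    1 / 12 - 1 / (4 * (4 * (J : ℝ) + 3)) := by
  induction J with
  | zero => norm_num
  | succ J IH =>
    rw [Finset.sum_range_succ]
    have h : (1 : ℝ) / (4 * ((J : ℝ) + 1) + 1) ^ 2 ≤
        1 / (4 * (4 * (J : ℝ) + 3)) - 1 / (4 * (4 * ((J : ℝ) + 1) + 3)) := by
      have hJ : (0 : ℝ) ≤ J := Nat.cast_nonneg J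
      rw [div_sub_div _ _ (by positivity) (by positivity), div_le_div_iff₀ (by positivity) (by positivity)]
      nlinarith [mul_nonneg hJ hJ, mul_nonneg hJ (mul_nonneg hJ hJ)]
    push_cast
    linarith

lemma sum_Qset (K : ℕ) : ∑ q ∈ Qset K, (1 : ℝ) / q ^ 2 ≤ 1 / 12 := by
  have h1 : ∑ q ∈ Qset K, (1 : ℝ) / (q : ℝ) ^ 2 ≤
      ∑ j ∈ Finset.range (K + 1), (1 : ℝ) / (4 * ((j : ℝ) + 1) + 1) ^ 2 := by
    have hinj : ∑ q ∈ Qset K, (1 : ℝ) / (q : ℝ) ^ 2 =
        ∑ j ∈ (Qset K).image (fun q : ℕ => q / 4 - 1), (1 : ℝ) / (4 * ((j : ℝ) + 1) + 1) ^ 2 := by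
      rw [Finset.sum_image]
      · apply Finset.sum_congr rfl
        intro q hq
        simp only [Qset, Finset.mem_filter, Finset.mem_range] at hq
        have hq1 : 1 < q := hq.2.1.one_lt
        have : q = 4 * ((q / 4 - 1) + 1) + 1 := by omega
        have h' : (q : ℝ) = 4 * (((q / 4 - 1 : ℕ) : ℝ) + 1) + 1 := by exact_mod_cast this
        rw [← h']
      · intro q hq q' hq' h
        simp only [Qset, Finset.coe_filter, Finset.mem_range, Set.mem_ofPred_eq] at hq hq'
        have hq1 : 1 < q := hq.2.1.one_lt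
        have hq1' : 1 < q' := hq'.2.1.one_lt
        simp only at h
        omega
    rw [hinj]
    apply Finset.sum_le_sum_of_subset_of_nonneg
    · intro j hj
      rw [Finset.mem_image] at hj
      obtain ⟨q, hq, rfl⟩ := hj
      simp only [Qset, Finset.mem_filter, Finset.mem_range] at hq
      rw [Finset.mem_range]
      omega
    · intro i _ _
      positivity
  have h2 := sum_inv_sq (K + 1)
  have h3 : (0 : ℝ) ≤ 1 / (4 * (4 * ((K + 1 : ℕ) : ℝ) + 3)) := by positivity
  linarith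

lemma bad_subset (K : ℕ) (hK : 2 ≤ K) :
    (Finset.range K).filter (fun k => ¬ Squarefree (aval k)) ⊆
      (Qset K).biUnion (fun q => (Finset.range K).filter (fun k => q ^ 2 ∣ aval k)) := by
  intro k hk
  rw [Finset.mem_filter, Finset.mem_range] at hk
  rw [Finset.mem_biUnion]
  obtain ⟨hkK, hns⟩ := hk
  rw [Nat.squarefree_iff_prime_squarefree] at hns
  push Not at hns
  obtain ⟨q, hq, hdvd⟩ := hns
  have hdvd' : q ^ 2 ∣ aval k := by rw [sq]; exact hdvd
  refine ⟨q, ?_, ?_⟩
  · simp only [Qset, Finset.mem_filter, Finset.mem_range]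
    refine ⟨?_, hq, prime_mod_twelve q k hq ((dvd_pow_self q two_ne_zero).trans hdvd')⟩
    have hle : q ^ 2 ≤ aval k := Nat.le_of_dvd (by unfold aval; positivity) hdvd'
    unfold aval at hle
    have : k + 1 ≤ K := hkK
    by_contra hge
    push Not at hge
    have h1 : (2 * K + 1) ^ 2 ≤ q ^ 2 := Nat.pow_le_pow_left hge 2
    have h2 : (2 * k + 1) ^ 2 + 4 < (2 * K + 1) ^ 2 := by nlinarith
    omega
  · rw [Finset.mem_filter, Finset.mem_range]
    exact ⟨hkK, hdvd'⟩

lemma card_bad (K : ℕ) (hK : 2 ≤ K) :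
    (((Finset.range K).filter (fun k => ¬ Squarefree (aval k))).card : ℝ) ≤ 5 * K / 6 + 4 := by
  have h1 : ((Finset.range K).filter (fun k => ¬ Squarefree (aval k))).card ≤
      ∑ q ∈ Qset K, 2 * (K / q ^ 2 + 1) := by
    refine (Finset.card_le_card (bad_subset K hK)).trans ?_
    refine Finset.card_biUnion_le.trans ?_
    apply Finset.sum_le_sum
    intro q hq
    simp only [Qset, Finset.mem_filter, Finset.mem_range] at hq
    exact card_roots q K hq.2.1 (by rintro rfl; omega)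
  have h2 : ((∑ q ∈ Qset K, 2 * (K / q ^ 2 + 1) : ℕ) : ℝ) ≤
      2 * (K * ∑ q ∈ Qset K, (1 : ℝ) / q ^ 2) + 2 * (Qset K).card := by
    push_cast
    rw [Finset.mul_sum, Finset.mul_sum, Finset.card_eq_sum_ones, Nat.cast_sum, Finset.mul_sum,
      ← Finset.sum_add_distrib]
    apply Finset.sum_le_sum
    intro q hq
    have : ((K / q ^ 2 : ℕ) : ℝ) ≤ K / (q ^ 2 : ℕ) := Nat.cast_div_le
    push_cast at this ⊢
    have e : (K : ℝ) * (1 / (q : ℝ) ^ 2) = K / (q : ℝ) ^ 2 := by ring
    rw [e]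
    linarith
  have h3 : ((Qset K).card : ℝ) ≤ 2 * (K / 6 + 1) := by
    have := card_Qset K
    have h' : ((Qset K).card : ℝ) ≤ ((2 * (K / 6 + 1) : ℕ) : ℝ) := by exact_mod_cast this
    refine h'.trans ?_
    push_cast
    have : ((K / 6 : ℕ) : ℝ) ≤ K / (6 : ℕ) := Nat.cast_div_le
    push_cast at this
    linarith
  have h4 := sum_Qset K
  have hK0 : (0 : ℝ) ≤ K := Nat.cast_nonneg K
  have h5 : (((Finset.range K).filter (fun k => ¬ Squarefree (aval k))).card : ℝ) ≤
      ((∑ q ∈ Qset K, 2 * (K / q ^ 2 + 1) : ℕ) : ℝ) := by exact_mod_cast h1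
  nlinarith [mul_le_mul_of_nonneg_left h4 hK0]

/-- At least `K/6 - 4` of the `k < K` give squarefree `(2k+1)² + 4`. -/
lemma card_good (K : ℕ) (hK : 2 ≤ K) :
    (K : ℝ) / 6 - 4 ≤ (((Finset.range K).filter (fun k => Squarefree (aval k))).card : ℝ) := by
  have h := Finset.card_filter_add_card_filter_not (s := Finset.range K) (fun k => Squarefree (aval k))
  rw [Finset.card_range] at h
  have h' : (((Finset.range K).filter (fun k => Squarefree (aval k))).card : ℝ) +
      (((Finset.range K).filter (fun k => ¬ Squarefree (aval k))).card : ℝ) = K := by exact_mod_cast h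
  have := card_bad K hK
  linarith

end Pool.Agent.LibH4
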