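import Pool.Agent.Lib_helper4.SmallNorm
import Pool.Agent.Lib_helper4.SqfreeValues

/-!
For at least `c √x` squarefree `d ≤ x`, every nonzero element of the ring of integers of `ℚ(√d)` of
absolute norm `< d - 4` factors uniquely into irreducibles.
-/

namespace Pool.Agent.Lib_helper4.NormGap

open scoped NumberField
open Pool.Agent.LibH4

/-- The property of `d` proved for many `d`. -/
def GoodD (d : ℕ) : Prop :=
  1 < d ∧ Squarefree d ∧ ∀ α : 𝓞 (KQ d), α ≠ 0 →
    |Algebra.norm ℚ (algebraMap (𝓞 (KQ d)) (KQ d) α)| < (d : ℚ) - 4 → FactorsUniquely α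

lemma goodD_aval (k : ℕ) (hs : Squarefree (aval k)) : GoodD (aval k) := by
  have h1 : 1 < aval k := by unfold aval; nlinarith
  refine ⟨h1, hs, ?_⟩
  intro α hα hn
  have hmod : aval k % 4 = 1 := by
    unfold aval
    have : (2 * k + 1) ^ 2 + 4 = 4 * (k ^ 2 + k + 1) + 1 := by ring
    omega
  have hA : Aq (aval k) = (k : ℤ) ^ 2 + k + 1 := by
    unfold Aq
    rw [if_pos hmod]
    have : ((aval k : ℕ) : ℤ) - 1 = 4 * ((k : ℤ) ^ 2 + k + 1) := by
      unfold aval; push_cast; ring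
    rw [this]
    exact Int.mul_ediv_cancel_left _ (by norm_num)
  have hB : Bq (aval k) = 1 := by
    unfold Bq
    rw [if_pos hmod]
  obtain ⟨z, rfl⟩ := (eqvO hs h1).surjective α
  rw [norm_eqvO] at hn
  rw [factorsUniquely_equiv_iff]
  have hz : z ≠ 0 := by
    rintro rfl
    exact hα (map_zero _)
  have hdom : IsDomain (QI (aval k)) := isDomain_QI hs h1
  have hwf : WfDvdMonoid (QI (aval k)) := by
    have : IsNoetherianRing (QI (aval k)) :=
      isNoetherianRing_of_ringEquiv (𝓞 (KQ (aval k))) (eqvO hs h1).symm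
    infer_instance
  have hN : ∀ z : QI (aval k), z ≠ 0 → z.norm ≠ 0 := by
    intro z hz h0
    have h2 := norm_eqvO hs h1 z
    rw [h0, Int.cast_zero, Algebra.norm_eq_zero_iff] at h2
    exact hz ((eqvO hs h1).injective (by
      rw [map_zero]
      exact NumberField.RingOfIntegers.coe_eq_zero_iff.mp h2))
  have hn' : |z.norm| < (2 * (k : ℤ) + 1) ^ 2 := by
    have : ((aval k : ℕ) : ℚ) - 4 = (((2 * (k : ℤ) + 1) ^ 2 : ℤ) : ℚ) := by
      unfold aval; push_cast; ring
    rw [this] at hn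
    exact_mod_cast hn
  exact factorsUniquely_of_norm_lt' (k : ℤ) (by positivity) _ _ hA hB hdom hwf hN z hz hn'

/-- There is `c > 0` such that for all large `x` at least `c √x` squarefree `1 < d ≤ x` have the
property that every nonzero `α ∈ 𝓞(ℚ(√d))` with `|N(α)| < d - 4` factors uniquely. -/
theorem result : ∃ c : ℝ, 0 < c ∧ ∀ᶠ x : ℕ in Filter.atTop,
    c * Real.sqrt x ≤ (Set.ncard {d : ℕ | d ≤ x ∧ 1 < d ∧ Squarefree d ∧
      ∀ α : 𝓞 (KQ d), α ≠ 0 → |Algebra.norm ℚ (α : KQ d)| < (d : ℚ) - 4 →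
        FactorsUniquely α} : ℝ) := by
  refine ⟨1 / 24, by norm_num, ?_⟩
  filter_upwards [Filter.eventually_ge_atTop 100000] with x hx
  -- K with 4 K² + 5 ≤ x, K ≥ √x/2 - 2
  set K : ℕ := Nat.sqrt x / 2 with hK
  have hsq1 : Nat.sqrt x * Nat.sqrt x ≤ x := Nat.sqrt_le x
  have hsq2 : x < (Nat.sqrt x + 1) * (Nat.sqrt x + 1) := Nat.lt_succ_sqrt x
  have hs316 : 316 ≤ Nat.sqrt x := by
    rw [Nat.le_sqrt]; omega
  have hK2 : 2 ≤ K := by omega
  have hKs : 2 * K ≤ Nat.sqrt x := by omega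
  have hKs' : Nat.sqrt x ≤ 2 * K + 1 := by omega
  have hcard := card_good K hK2
  have hinj : Set.InjOn aval (((Finset.range K).filter (fun k => Squarefree (aval k)) : Finset ℕ) : Set ℕ) := by
    intro a _ b _ hab
    unfold aval at hab
    have h2 : (2 * a + 1) ^ 2 = (2 * b + 1) ^ 2 := by omega
    have h3 : 2 * a + 1 = 2 * b + 1 := Nat.pow_left_injective (n := 2) (by norm_num) h2
    omega
  have hfin : Set.Finite {d : ℕ | d ≤ x ∧ 1 < d ∧ Squarefree d ∧
      ∀ α : 𝓞 (KQ d), α ≠ 0 → |Algebra.norm ℚ (α : KQ d)| < (d : ℚ) - 4 →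
        FactorsUniquely α} := by
    apply Set.Finite.subset (Set.finite_Iic x)
    intro d hd
    exact hd.1
  have hsub : ((((Finset.range K).filter (fun k => Squarefree (aval k))).image aval : Finset ℕ) : Set ℕ) ⊆
      {d : ℕ | d ≤ x ∧ 1 < d ∧ Squarefree d ∧
      ∀ α : 𝓞 (KQ d), α ≠ 0 → |Algebra.norm ℚ (α : KQ d)| < (d : ℚ) - 4 →
        FactorsUniquely α} := by
    intro d hd
    rw [Finset.mem_coe, Finset.mem_image] at hd
    obtain ⟨k, hk, rfl⟩ := hd
    rw [Finset.mem_filter, Finset.mem_range] at hk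
    refine ⟨?_, goodD_aval k hk.2⟩
    unfold aval
    have h1 : 2 * k + 2 ≤ Nat.sqrt x := by omega
    nlinarith
  have h1 := Set.ncard_le_ncard hsub hfin
  rw [Set.ncard_coe_finset, Finset.card_image_of_injOn hinj] at h1
  have h2 : (((Finset.range K).filter (fun k => Squarefree (aval k))).card : ℝ) ≤
      (Set.ncard {d : ℕ | d ≤ x ∧ 1 < d ∧ Squarefree d ∧
      ∀ α : 𝓞 (KQ d), α ≠ 0 → |Algebra.norm ℚ (α : KQ d)| < (d : ℚ) - 4 →
        FactorsUniquely α} : ℝ) := by exact_mod_cast h1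
  refine le_trans ?_ (hcard.trans h2)
  have h3 : Real.sqrt x ≤ Nat.sqrt x + 1 := by
    rw [Real.sqrt_le_left (by positivity)]
    have : (x : ℝ) < (Nat.sqrt x + 1) * (Nat.sqrt x + 1) := by exact_mod_cast hsq2
    nlinarith
  have h4 : (Nat.sqrt x : ℝ) ≤ 2 * K + 1 := by exact_mod_cast hKs'
  have h5 : (158 : ℝ) ≤ K := by
    have : 158 ≤ K := by omega
    exact_mod_cast this
  linarith

end Pool.Agent.Lib_helper4.NormGap
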