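import Pool.Agent.Lib_helper4.P4Small
import Pool.Agent.Lib_helper4.PerOf
import Pool.Agent.Lib_helper4.FieldsU

/-!
Eight real quadratic fields with unique factorisation and period length four.
-/

namespace Pool.Agent.LibH4.P4

open scoped NumberField
open Real Function Pool.Agent.LibH4 Pool.Agent.Lib_helper5

/-- the discriminant is constant along the cycle -/
lemma disc {a b B : ℕ} {m r : ℤ} (h : E4.Par a b B m r) (k : ℕ) (hk : k ≤ 4) :
    (E4.R a B m k) ^ 2 + 4 * E4.P m r k * E4.S m r k = (B : ℤ) ^ 2 + 4 * m := by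
  have hC := E4.cyc h
  induction k with
  | zero => rw [hC.RB, hC.Pm, hC.S1]; ring
  | succ k ih =>
    have ih' := ih (by omega)
    rw [hC.hP k (by omega), hC.hR k (by omega), hC.hS k (by omega), ← ih']
    ring

/-- period length and first partial quotient -/
theorem period_four {a b B : ℕ} {m r : ℤ} (h : E4.Par a b B m r) {d : ℕ}
    (hd : (d : ℤ) = (B : ℤ) ^ 2 + 4 * m) (h1 : 1 < d) (hsq : Squarefree d) (hB : B % 2 = 1)
    (hred : ∀ k < 4, E4.S m r (k + 1) < E4.R a B m (k + 1) + E4.S m r k) :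
    minimalPeriod gsh (gsh (omg d)) = 4 ∧ ⌊gsh (omg d)⌋ = a := by
  have hC := E4.cyc h
  have hm := h.hm
  have hr := h.hr
  set s : ℝ := √(d : ℝ) with hs
  have hirr : Irrational s := irrational_sqrt_sqfree h1 hsq
  have hs0 : 0 ≤ s := sqrt_nonneg _
  have hs2 : s ^ 2 = d := sq_sqrt (by positivity)
  have hs2' : ∀ k ≤ 4, s ^ 2 = (E4.R a B m k : ℝ) ^ 2 + 4 * E4.P m r k * E4.S m r k := by
    intro k hk
    rw [hs2]
    have := disc h k hk
    rw [← hd] at this
    exact_mod_cast this.symm
  obtain ⟨x, hx⟩ : ∃ x : ℕ → ℝ, ∀ k, x k = (s + E4.R a B m k) / (2 * E4.S m r k) :=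
    ⟨_, fun k => rfl⟩
  have hst : ∀ k < 4, Int.fract (x k) = (s - E4.R a B m (k + 1)) / (2 * E4.S m r k) ∧
      gsh (x k) = x (k + 1) := by
    intro k hk
    rw [hx, hx]
    refine PO.step hs0 (hC.Spos k (by omega)) (hC.Spos (k + 1) (by omega)) (hC.hR k (by omega)) ?_
      (hred k hk)
    rw [hs2' (k + 1) (by omega), hC.hP k (by omega)]
  have hstep : ∀ k < 4, gsh (x k) = x (k + 1) := fun k hk => (hst k hk).2
  have hiter : ∀ j ≤ 4, gsh^[j] (x 0) = x j := by
    intro j hj
    induction j with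
    | zero => rfl
    | succ j ih => rw [iterate_succ_apply', ih (by omega), hstep j (by omega)]
  have hxL : x 4 = x 0 := by
    rw [hx, hx]
    rfl
  have hper : IsPeriodicPt gsh 4 (x 0) := by
    show gsh^[4] (x 0) = x 0
    rw [hiter _ le_rfl, hxL]
  have hmin : minimalPeriod gsh (x 0) = 4 := by
    have hle := hper.minimalPeriod_le (by omega)
    rcases hle.eq_or_lt with he | hlt
    · exact he
    · exfalso
      have hpos := hper.minimalPeriod_pos (by omega)
      obtain ⟨n, hn⟩ : ∃ n, n = minimalPeriod gsh (x 0) := ⟨_, rfl⟩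
      rw [← hn] at hlt hpos
      have hpn : gsh^[n] (x 0) = x 0 := by rw [hn]; exact isPeriodicPt_minimalPeriod gsh (x 0)
      rw [hiter n hlt.le, hx, hx, hC.S1, hC.RB] at hpn
      have hSn := hC.Spos n (by omega)
      have hSnR : (0 : ℝ) < E4.S m r n := by exact_mod_cast hSn
      rw [div_eq_div_iff (by positivity) (by norm_num)] at hpn
      have hlin : ((2 * E4.R a B m n - 2 * E4.S m r n * B : ℤ) : ℝ) +
          s * ((2 - 2 * E4.S m r n : ℤ) : ℝ) = 0 := by
        push_cast at hpn ⊢
        linear_combination hpn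
      obtain ⟨e1, -⟩ := irr_lin hirr hlin
      have hS1 : E4.S m r n = 1 := by linarith
      have hn4 : n = 1 ∨ n = 2 ∨ n = 3 := by omega
      rcases hn4 with h4 | h4 | h4 <;> rw [h4] at hS1 <;> simp only [E4.S] at hS1 <;> omega
  have hd4 : d % 4 = 1 := by
    obtain ⟨e, he⟩ : ∃ e, B = 2 * e + 1 := ⟨B / 2, by omega⟩
    have : (d : ℤ) = 4 * ((e : ℤ) ^ 2 + e + m) + 1 := by rw [hd, he]; push_cast; ring
    omega
  have hom : gsh (omg d) = x 1 := by
    have e0 : omg d = (s + 1) / 2 := by
      unfold omg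
      rw [if_pos hd4, ← hs, add_comm]
    obtain ⟨e, he⟩ : ∃ e, B = 2 * e + 1 := ⟨B / 2, by omega⟩
    have e2 := hstep 0 (by omega)
    rw [zero_add] at e2
    rw [← e2]
    unfold gsh
    congr 1
    rw [e0, hx, hC.S1, hC.RB, he]
    have : ((s : ℝ) + (((2 * e + 1 : ℕ) : ℤ) : ℝ)) / (2 * ((1 : ℤ) : ℝ)) =
        (s + 1) / 2 + (e : ℤ) := by
      push_cast; ring
    rw [this, Int.fract_add_intCast]
  refine ⟨?_, ?_⟩
  · rw [hom, ← hstep 0 (by omega)]
    rw [minimalPeriod_apply]
    · exact hmin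
    · exact ⟨4, by omega, hper⟩
  · rw [hom, Int.floor_eq_iff]
    have e3 := (hst 1 (by omega)).1
    have e4 := Int.fract_nonneg (x 1)
    have e5 := Int.fract_lt_one (x 1)
    have hSR : (0 : ℝ) < E4.S m r 1 := by exact_mod_cast hC.Spos 1 (by omega)
    have e6 : x 1 = a + Int.fract (x 1) := by
      rw [e3, hx, hC.hR 1 (by omega)]
      have hc1 : E4.c a b B 1 = a := rfl
      rw [hc1]
      push_cast
      field_simp
      ring
    constructor
    · push_cast; linarith
    · push_cast; linarith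

/-- a field of the family -/
lemma field {a b B : ℕ} {m r : ℤ} {d : ℕ} (h : E4.Par a b B m r)
    (hd : (d : ℤ) = (B : ℤ) ^ 2 + 4 * m) (hB : B % 2 = 1) (h1 : 1 < d) (hsq : Squarefree d)
    (hred : ∀ k < 4, E4.S m r (k + 1) < E4.R a B m (k + 1) + E4.S m r k) (ha : (a : ℤ) % 4 ≠ 2)
    (W : List (ℕ × ℤ × ℤ)) (hW : FU.chk d W = true) :
    (minimalPeriod gsh (gsh (omg d)) = 4 ∧ ⌊gsh (omg d)⌋ % 4 ≠ 2) ∧
      UniqueFactorizationMonoid (𝓞 (KQ d)) := by
  obtain ⟨p1, p2⟩ := period_four h hd h1 hsq hB hred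
  refine ⟨⟨p1, by rw [p2]; exact ha⟩, FU.ufd_of_chk hW hsq h1⟩

/-- **the eight fields** -/
theorem fields {d : ℕ} (h : d ∈ l8) (hsq : Squarefree d) :
    (minimalPeriod gsh (gsh (omg d)) = 4 ∧ ⌊gsh (omg d)⌋ % 4 ≠ 2) ∧
      UniqueFactorizationMonoid (𝓞 (KQ d)) := by
  simp only [l8, List.mem_cons, List.not_mem_nil, or_false] at h
  rcases h with rfl | rfl | rfl | rfl | rfl | rfl | rfl | rfl
  · exact field (a := 1) (b := 1) (B := 7) (m := 5) (r := 3) ⟨by norm_num, by norm_num,
      by norm_num, by norm_num, by norm_num, by norm_num, by norm_num⟩ (by norm_num) (by norm_num)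
      (by norm_num) hsq (by decide) (by norm_num) [(3, 4, 1)] (by decide +kernel)
  · exact field (a := 3) (b := 1) (B := 11) (m := 3) (r := 7) ⟨by norm_num, by norm_num,
      by norm_num, by norm_num, by norm_num, by norm_num, by norm_num⟩ (by norm_num) (by norm_num)
      (by norm_num) hsq (by decide) (by norm_num) [(3, 5, 1)] (by decide +kernel)
  · exact field (a := 1) (b := 3) (B := 13) (m := 11) (r := 3) ⟨by norm_num, by norm_num,
      by norm_num, by norm_num, by norm_num, by norm_num, by norm_num⟩ (by norm_num) (by norm_num)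
      (by norm_num) hsq (by decide) (by norm_num) [(3, 7, 1)] (by decide +kernel)
  · exact field (a := 1) (b := 1) (B := 19) (m := 13) (r := 7) ⟨by norm_num, by norm_num,
      by norm_num, by norm_num, by norm_num, by norm_num, by norm_num⟩ (by norm_num) (by norm_num)
      (by norm_num) hsq (by decide) (by norm_num) [(7, 10, 1)] (by decide +kernel)
  · exact field (a := 1) (b := 7) (B := 25) (m := 23) (r := 3) ⟨by norm_num, by norm_num,
      by norm_num, by norm_num, by norm_num, by norm_num, by norm_num⟩ (by norm_num) (by norm_num)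
      (by norm_num) hsq (by decide) (by norm_num) [(3, 13, 1)] (by decide +kernel)
  · exact field (a := 1) (b := 9) (B := 31) (m := 29) (r := 3) ⟨by norm_num, by norm_num,
      by norm_num, by norm_num, by norm_num, by norm_num, by norm_num⟩ (by norm_num) (by norm_num)
      (by norm_num) hsq (by decide) (by norm_num) [(3, 16, 1)] (by decide +kernel)
  · exact field (a := 5) (b := 3) (B := 37) (m := 7) (r := 11) ⟨by norm_num, by norm_num,
      by norm_num, by norm_num, by norm_num, by norm_num, by norm_num⟩ (by norm_num) (by norm_num)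
      (by norm_num) hsq (by decide) (by norm_num) [(7, 18, 1), (11, 91, 5)] (by decide +kernel)
  · exact field (a := 7) (b := 1) (B := 55) (m := 7) (r := 43) ⟨by norm_num, by norm_num,
      by norm_num, by norm_num, by norm_num, by norm_num, by norm_num⟩ (by norm_num) (by norm_num)
      (by norm_num) hsq (by decide) (by norm_num) [(7, 27, 1)] (by decide +kernel)

end Pool.Agent.LibH4.P4
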