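import Pool.Agent.Lib_helper4.P4Fields
import Pool.Agent.Lib_helper4.Genus4
import Pool.Agent.Lib_helper5.RDMain

/-!
Assembly of the period four theorem from the elimination of large parameters.
-/

namespace Pool.Agent.LibH4.P4

open scoped NumberField
open Function Pool.Agent.LibH4 Pool.Agent.Lib_helper5 CFO

/-- finite check for `a = 1` -/
lemma rd_check : ∀ d ∈ rdList, ∀ B ∈ List.range 36, ∀ m ∈ List.range 36,
    (m < B ∧ 1 < m ∧ B ^ 2 + 4 * m = d) → ∀ b ∈ List.range 36,
      b * (1 + B - m) + B = 2 * m → d ∈ l8 := by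
  decide +kernel

/-- the case `a = 1` -/
lemma one_case {b B : ℕ} {m r : ℤ} {d : ℕ} (h : E4.Par 1 b B m r) (hB : B % 2 = 1)
    (hd : (d : ℤ) = (B : ℤ) ^ 2 + 4 * m) (h1 : 1 < d) (hsq : Squarefree d)
    (hU : UniqueFactorizationMonoid (𝓞 (KQ d))) : d ∈ l8 := by
  have hr := h.hr
  have hm := h.hm
  have hb := h.hb
  have e1 := h.e1
  have e2 := h.e2
  push_cast at e1 e2
  obtain ⟨R, rfl⟩ := Int.eq_ofNat_of_zero_le (by omega : 0 ≤ r)
  obtain ⟨M, rfl⟩ := Int.eq_ofNat_of_zero_le (by omega : 0 ≤ m)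
  have hR : R = 1 + B - M := by omega
  have hMB : M < B := by omega
  have hb2 : (b + 2) * R = B + 2 := by
    zify
    linear_combination e2 + 2 * e1
  have hrd := (rdFinal d (B + 2) R (by omega) ⟨b + 2, by rw [← hb2]; ring⟩ (Or.inr (by
    zify
    rw [hd]
    linear_combination 4 * e1)) hsq h1).1 hU
  have hlt : ∀ e ∈ rdList, e < 36 ^ 2 := by decide
  have hd36 := hlt d hrd
  have hBM : B ^ 2 + 4 * M = d := by zify; rw [hd]
  have hB36 : B < 36 := by nlinarith
  have hbR : b * R + B = 2 * M := by zify; linarith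
  have hb36 : b < 36 := by nlinarith
  exact rd_check d hrd B (List.mem_range.2 hB36) M (List.mem_range.2 (by omega))
    ⟨hMB, by omega, hBM⟩ b (List.mem_range.2 hb36) (by rw [← hR]; exact hbR)

/-- class number one and period four, given the elimination of large parameters -/
theorem four_iff (hbig : ∀ (a b B : ℕ) (m r : ℤ), E4.Par a b B m r → m % 2 = 1 → B % 2 = 1 →
      a % 2 = 1 → 3 ≤ a → 19 < m →
      ∀ [IsDomain (QuadraticAlgebra ℤ m (B : ℤ))]
        [UniqueFactorizationMonoid (QuadraticAlgebra ℤ m (B : ℤ))], False)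
    (d : ℕ) (h1 : 1 < d) (hsq : Squarefree d) :
    (((d % 4 = 1 ∧ ⌊gsh (omg d)⌋ % 4 ≠ 2) ∨ (d % 4 ≠ 1 ∧ ⌊gsh (omg d)⌋ ≠ 1)) ∧
      minimalPeriod gsh (gsh (omg d)) = 4 ∧ UniqueFactorizationMonoid (𝓞 (KQ d))) ↔ d ∈ l8 := by
  constructor
  · rintro ⟨hcase, hper, hU⟩
    obtain ⟨a, b, B, m, r, hP, hfl, ⟨h4, hd, hB⟩ | ⟨h4, hd, hB⟩⟩ := exists_par_four d h1 hsq hper
    · obtain ⟨e⟩ := exists_equiv_QI hd (by exact_mod_cast hB)
      have e' := e.symm.trans (eqvO hsq h1)
      have i1 : IsDomain (QuadraticAlgebra ℤ m (B : ℤ)) := e'.toMulEquiv.isDomain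
      have i2 : UniqueFactorizationMonoid (QuadraticAlgebra ℤ m (B : ℤ)) :=
        e'.symm.toMulEquiv.uniqueFactorizationMonoid hU
      have ha2 : a % 4 ≠ 2 := by
        rcases hcase with ⟨-, h⟩ | ⟨h, -⟩
        · rw [← hfl] at h
          omega
        · exact absurd h4 h
      have hm2 := m_odd hP hB ha2
      have hsq' : Squarefree ((B : ℤ) ^ 2 + 4 * m) := by
        rw [← hd]
        exact Int.squarefree_natCast.2 hsq
      have hr4 := G4.mod_four hP hm2 hB hsq'
      have ha0 : a % 4 ≠ 0 := by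
        intro h0
        obtain ⟨k, hk⟩ := Nat.dvd_of_mod_eq_zero h0
        have e1 := hP.e1
        have : r = 1 + 4 * (k * (B - m * a)) := by
          rw [e1, hk]; push_cast; ring
        omega
      by_cases ha1 : a = 1
      · subst ha1
        exact one_case hP hB hd h1 hsq hU
      · by_cases h19 : m ≤ 19
        · obtain ⟨d', hd', he⟩ := small hP (by have := hP.ha; omega) (by omega) hm2 hr4 h19
          rw [← hd] at he
          have : d' = d := by exact_mod_cast he
          rw [← this]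
          exact hd'
        · exact (hbig a b B m r hP hm2 (by exact_mod_cast hB) (by omega)
            (by have := hP.ha; omega) (by omega)).elim
    · exfalso
      obtain ⟨e⟩ := exists_equiv_QI_even hd h4 (by exact_mod_cast hB)
      have e' := e.symm.trans (eqvO hsq h1)
      have i1 : IsDomain (QuadraticAlgebra ℤ m (B : ℤ)) := e'.toMulEquiv.isDomain
      have i2 : UniqueFactorizationMonoid (QuadraticAlgebra ℤ m (B : ℤ)) :=
        e'.symm.toMulEquiv.uniqueFactorizationMonoid hU
      have ha := B_even hP hB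
      subst ha
      rcases hcase with ⟨h, -⟩ | ⟨-, h⟩
      · exact h4 h
      · rw [← hfl] at h
        exact h (by norm_num)
  · intro h
    obtain ⟨⟨p1, p2⟩, p3⟩ := fields h hsq
    have h4 : ∀ e ∈ l8, e % 4 = 1 := by decide
    exact ⟨Or.inl ⟨h4 d h, p2⟩, p1, p3⟩

end Pool.Agent.LibH4.P4
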