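import Pool.Agent.Lib_helper4.CFFour
import Pool.Agent.Lib_helper5.E4

/-!
Period four: norms of elements, small cases.
-/

namespace Pool.Agent.LibH4.P4

open Finset (range)
open Pool.Agent.LibH4 Pool.Agent.LibH4.FA Pool.Agent.Lib_helper5 Pool.Agent.Lib_helper5.CG

section
variable {m B : ℤ} {K : ℕ} {P R S : ℕ → ℤ} {c : ℕ → ℕ}

/-- every element of nonzero norm is represented, up to a unit, on one of the edges -/
theorem even_repr (hm : 0 < m) (h : CycM m B K P R S c) (J : ℕ) (hK : K = 2 * J) (hJ : 0 < J)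
    (hcl : rho m B c K = rho m B c (K + 1) * om m B)
    (β : QuadraticAlgebra ℤ m B) (n : ℕ) (hn : n ≠ 0) (hβ : β.norm.natAbs = n) :
    ∃ k < K, ∃ x y : ℕ, 1 ≤ x ∧ y < c k * x ∧
      P k * (x : ℤ) ^ 2 + R k * x * y - S k * (y : ℤ) ^ 2 = n := by
  obtain ⟨u, hu⟩ := isUnit_u h J hK
  have hu1 : 0 < s1 hm (u : QuadraticAlgebra ℤ m B) := by
    rw [hu]; exact s1_rho hm h (K + 1) le_rfl
  have hsgK : sg (K + 1) = 1 := by
    rw [hK, add_comm, sg_even, sg_one]
  have hu2 : 0 < s2 hm (u : QuadraticAlgebra ℤ m B) := by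
    rw [hu]
    have := (s2_rho (B := B) hm c K).2
    rwa [hsgK, one_mul] at this
  have hul : sl hm 1 (u : QuadraticAlgebra ℤ m B) < 1 := by
    have a1 := sl_chain hm h 3 (J - 1) (by omega)
    have a2 := sl_step hm h 1 (by omega)
    rw [show 3 + 2 * (J - 1) = K + 1 by omega] at a1
    have h3 : sg 3 = 1 := by unfold sg; norm_num
    rw [h3] at a1
    rw [sg_one, rho_one] at a2
    have h4 : sl hm 1 (1 : QuadraticAlgebra ℤ m B) = 1 := by simp [sl]
    rw [hu]
    linarith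
  have hom1 : 0 < s1 hm (om m B) := by
    have := s1_rho hm h 0 (by omega)
    rwa [rho_zero] at this
  have hom2 : 0 < (-1 : ℝ) * s2 hm (om m B) := by
    have := (s2_rho (B := B) hm c 0).1
    rwa [rho_zero, sg_zero] at this
  have hone1 : 0 < s1 hm (1 : QuadraticAlgebra ℤ m B) := by simp
  have hone2 : 0 < (1 : ℝ) * s2 hm (1 : QuadraticAlgebra ℤ m B) := by simp
  have chP := Gs_chain hm h 1 J (by omega) n
  rw [show 1 + 2 * J = K + 1 by omega, sg_one, rho_one] at chP
  have chN := Gs_chain hm h 0 J (by omega) n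
  rw [zero_add, ← hK, sg_zero, rho_zero] at chN
  obtain ⟨fP, nP⟩ := chP
  obtain ⟨fN, nN⟩ := chN
  have hne : s1 hm β * s2 hm β ≠ 0 := by
    rw [← norm_eq]
    intro h0
    have h1 : β.norm = 0 := by exact_mod_cast h0
    rw [h1] at hβ
    exact hn (by simpa using hβ.symm)
  have hne1 : s1 hm β ≠ 0 := left_ne_zero_of_mul hne
  have hne2 : s2 hm β ≠ 0 := right_ne_zero_of_mul hne
  obtain ⟨β', hβ', hassoc, hne2'⟩ : ∃ β', 0 < s1 hm β' ∧ Associated β' β ∧
      s2 hm β' ≠ 0 := by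
    rcases lt_or_gt_of_ne hne1 with h | h
    · refine ⟨-β, ?_, (Associated.refl β).neg_left, ?_⟩
      · rw [map_neg]; linarith
      · rw [map_neg]; exact neg_ne_zero.mpr hne2
    · exact ⟨β, h, Associated.refl β, hne2⟩
  have hnat : ∀ γ : QuadraticAlgebra ℤ m B, Associated γ β → γ.norm.natAbs = n := by
    intro γ hγ
    have := congrArg absN (Associates.mk_eq_mk_iff_associated.mpr hγ)
    rw [absN_mk, absN_mk, hβ] at this
    exact this
  rcases lt_or_gt_of_ne hne2' with h2 | h2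
  · obtain ⟨γ, hγ, hγ'⟩ := exists_in_cone hm (-1) u hu1 hu2 hul (om m B) hom1 hom2 β' hβ'
      (by linarith)
    rw [hu, ← hcl] at hγ
    have hmem : γ ∈ Gs hm (-1) (om m B) (rho m B c K) n := ⟨hγ, hnat γ (hγ'.trans hassoc)⟩
    have h3 : (Gs hm (-1) (om m B) (rho m B c K) n).ncard ≠ 0 := by
      rw [Ne, Set.ncard_eq_zero fN, ← Ne, ← Set.nonempty_iff_ne_empty]
      exact ⟨γ, hmem⟩
    rw [nN] at h3
    obtain ⟨i, hi, hi'⟩ := Finset.exists_ne_zero_of_sum_ne_zero h3
    have hi2 : i < J := Finset.mem_range.1 hi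
    obtain ⟨⟨x, y⟩, hx, hy, he⟩ :
        (edgeSet (P (0 + 2 * i)) (R (0 + 2 * i)) (S (0 + 2 * i)) (c (0 + 2 * i)) n).Nonempty :=
      Set.nonempty_of_ncard_ne_zero hi'
    exact ⟨0 + 2 * i, by omega, x, y, hx, hy, he⟩
  · obtain ⟨γ, hγ, hγ'⟩ := exists_in_cone hm 1 u hu1 hu2 hul 1 hone1 hone2 β' hβ'
      (by linarith)
    rw [hu, mul_one] at hγ
    have hmem : γ ∈ Gs hm 1 1 (rho m B c (K + 1)) n := ⟨hγ, hnat γ (hγ'.trans hassoc)⟩
    have h3 : (Gs hm 1 1 (rho m B c (K + 1)) n).ncard ≠ 0 := by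
      rw [Ne, Set.ncard_eq_zero fP, ← Ne, ← Set.nonempty_iff_ne_empty]
      exact ⟨γ, hmem⟩
    rw [nP] at h3
    obtain ⟨i, hi, hi'⟩ := Finset.exists_ne_zero_of_sum_ne_zero h3
    have hi2 : i < J := Finset.mem_range.1 hi
    obtain ⟨⟨x, y⟩, hx, hy, he⟩ :
        (edgeSet (P (1 + 2 * i)) (R (1 + 2 * i)) (S (1 + 2 * i)) (c (1 + 2 * i)) n).Nonempty :=
      Set.nonempty_of_ncard_ne_zero hi'
    exact ⟨1 + 2 * i, by omega, x, y, hx, hy, he⟩

end

section par

variable {a b B : ℕ} {m r : ℤ}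

/-- elements of norm below `m` have norm `x²` or `r x²` -/
lemma norm_small (h : E4.Par a b B m r) {n : ℕ} (hn : n ≠ 0) (h1 : (n : ℤ) < m)
    (β : QuadraticAlgebra ℤ m (B : ℤ)) (hβ : β.norm.natAbs = n) :
    ∃ x : ℕ, (n : ℤ) = (x : ℤ) ^ 2 ∨ (n : ℤ) = r * (x : ℤ) ^ 2 := by
  have hm0 : 0 < m := by have := h.hm; omega
  have hr0 : 0 < r := by have := h.hr; omega
  have hC := E4.cyc h
  obtain ⟨k, hk, x, y, hx, hy, he⟩ := even_repr hm0 hC 2 rfl (by norm_num) (E4.closing h) β n hn hβ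
  have hx' : (1 : ℤ) ≤ x := by exact_mod_cast hx
  have hxx : (1 : ℤ) ≤ (x : ℤ) ^ 2 := by nlinarith
  rcases Nat.eq_zero_or_pos y with hy0 | hy0
  · subst hy0
    have he' : E4.P m r k * (x : ℤ) ^ 2 = n := by rw [← he]; push_cast; ring
    refine ⟨x, ?_⟩
    interval_cases k <;> simp only [E4.P] at he'
    · exfalso; nlinarith
    · left; linarith
    · exfalso; nlinarith
    · right; linarith
  · exfalso
    have hy1 : (1 : ℤ) ≤ y := by exact_mod_cast hy0
    have hyc : (y : ℤ) + 1 ≤ E4.c a b B k * x := by exact_mod_cast hy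
    interval_cases k
    · simp only [E4.P, E4.R, E4.S, E4.c] at he hyc
      have h1 : m ≤ m * (x : ℤ) ^ 2 := by nlinarith
      have h2 : 0 ≤ (y : ℤ) * (B * x - y) := mul_nonneg (by linarith) (by linarith)
      nlinarith
    · have h1 := E5.edge_gt (hC.cpos 1 (by omega)) (hC.toCyc.Ppos (k := 1) (by omega))
        (hC.Spos 1 (by omega)) (CG.hAend hC 1 (by omega)) hy1 hyc
      rw [he] at h1
      simp only [E4.S] at h1
      omega
    · simp only [E4.P, E4.R, E4.S, E4.c] at he hyc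
      have h1 : m ≤ m * (x : ℤ) ^ 2 := by nlinarith
      have h2 : 0 ≤ r * ((y : ℤ) * (b * x - y)) :=
        mul_nonneg hr0.le (mul_nonneg (by linarith) (by linarith))
      have h3 : (2 * (a : ℤ) * m - B) * x * y - r * (y : ℤ) ^ 2 = r * ((y : ℤ) * (b * x - y)) := by
        rw [← h.e2]; ring
      nlinarith
    · have h1 := E5.edge_gt (hC.cpos 3 (by omega)) (hC.toCyc.Ppos (k := 3) (by omega))
        (hC.Spos 3 (by omega)) (CG.hAend hC 3 (by omega)) hy1 hyc
      rw [he] at h1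
      simp only [E4.S] at h1
      omega

/-- primes below `m` with a root are equal to `r` -/
theorem eq_of_root (h : E4.Par a b B m r)
    [IsDomain (QuadraticAlgebra ℤ m (B : ℤ))]
    [UniqueFactorizationMonoid (QuadraticAlgebra ℤ m (B : ℤ))]
    {p : ℕ} (hp : p.Prime) (h1 : (p : ℤ) < m) (x : ℤ)
    (hx : (p : ℤ) ∣ x ^ 2 + B * x - m) : r = p := by
  obtain ⟨π, hπ⟩ := exists_norm_of_root hp hx
  obtain ⟨z, hz | hz⟩ := norm_small h hp.ne_zero h1 π hπ
  · exfalso
    apply hp.prime.irreducible.not_isSquare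
    exact ⟨z, by zify; rw [hz]; ring⟩
  · exact eq_of_prime_mul_sq hp hz.symm

/-- all parameters in terms of three positive integers -/
lemma params (h : E4.Par a b B m r) : ∃ u s : ℕ, 1 ≤ u ∧ 1 ≤ s ∧ s * a = b + u ∧
    m = (u * b + s : ℕ) ∧ r = (1 + a * u : ℕ) ∧ B = u + a * (u * b + s) := by
  have ha : (1 : ℤ) ≤ a := by exact_mod_cast h.ha
  have hb : (1 : ℤ) ≤ b := by exact_mod_cast h.hb
  have e1 := h.e1
  have e2 := h.e2
  have hm := h.hm
  have hr := h.hr
  obtain ⟨U, hU⟩ : ∃ U : ℤ, U = B - a * m := ⟨_, rfl⟩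
  obtain ⟨T, hT⟩ : ∃ T : ℤ, T = m - U * b := ⟨_, rfl⟩
  have f1 : r = 1 + a * U := by rw [hU, e1]; ring
  have hU1 : 1 ≤ U := by
    have : 0 < a * U := by rw [f1] at hr; linarith
    have := (mul_pos_iff_of_pos_left (by linarith : (0 : ℤ) < a)).1 this
    linarith
  have f2 : T * a = b + U := by
    rw [f1] at e2
    have hB : (B : ℤ) = U + a * m := by rw [hU]; ring
    rw [hB] at e2
    rw [hT]
    linear_combination -e2
  have hT1 : 1 ≤ T := by
    have h3 : 0 < T * a := by rw [f2]; positivity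
    have := (mul_pos_iff_of_pos_right (by linarith : (0 : ℤ) < a)).1 h3
    linarith
  obtain ⟨u, hu⟩ := Int.eq_ofNat_of_zero_le (by linarith : 0 ≤ U)
  obtain ⟨s, hs⟩ := Int.eq_ofNat_of_zero_le (by linarith : 0 ≤ T)
  subst hu hs
  refine ⟨u, s, by exact_mod_cast hU1, by exact_mod_cast hT1, by exact_mod_cast f2, ?_, ?_, ?_⟩
  · push_cast; linarith
  · push_cast; linarith
  · have : (B : ℤ) = u + a * (u * b + s) := by
      have h5 : m = u * b + s := by linarith
      rw [← h5, hU]; ring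
    exact_mod_cast this

end par

/-! ### The finite check -/

/-- the eight discriminants -/
def l8 : List ℕ := [69, 133, 213, 413, 717, 1077, 1397, 3053]

/-- one class of parameters -/
def tst (a b u s : ℕ) : Bool :=
  (l8.contains ((u + a * (u * b + s)) * (u + a * (u * b + s)) + 4 * (u * b + s))) ||
  (decide ((1 + a * u) % 4 ≠ 3)) ||
  (([3, 5, 7, 11, 13, 17] : List ℕ).any fun p => decide (p < u * b + s) &&
    (decide (p ≠ 1 + a * u) && ((List.range p).any fun x =>
      decide ((x * x + (u + a * (u * b + s)) * x) % p = (u * b + s) % p))))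

/-- the whole range -/
def chk : Bool :=
  (List.range 20).all fun u => (List.range 20).all fun b => (b == 0) || ((u == 0) ||
    (decide (19 < u * b) || ((List.range (20 - u * b)).all fun s => (s == 0) ||
      (decide (s * ((b + u) / s) ≠ b + u) || (decide ((b + u) / s % 2 ≠ 1) ||
        (decide ((b + u) / s = 1) || (decide ((u * b + s) % 2 ≠ 1) ||
          tst ((b + u) / s) b u s)))))))

set_option maxRecDepth 100000 in
lemma chk_true : chk = true := by decide +kernel

lemma chk_sound {a b u s : ℕ} (ha : 1 < a) (ha2 : a % 2 = 1) (hb : 1 ≤ b) (hu : 1 ≤ u)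
    (hs : 1 ≤ s) (he : s * a = b + u) (h19 : u * b + s ≤ 19) (hm2 : (u * b + s) % 2 = 1) :
    tst a b u s = true := by
  have hu20 : u < 20 := by nlinarith
  have hb20 : b < 20 := by nlinarith
  have h3 : (b + u) / s = a := by
    rw [← he, Nat.mul_div_cancel_left _ (by omega)]
  have h := chk_true
  unfold chk at h
  rw [List.all_eq_true] at h
  have g1 := h u (List.mem_range.2 hu20)
  rw [List.all_eq_true] at g1
  have g2 := g1 b (List.mem_range.2 hb20)
  rw [Bool.or_eq_true, Bool.or_eq_true, Bool.or_eq_true, beq_iff_eq, beq_iff_eq, decide_eq_true_eq,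
    List.all_eq_true] at g2
  rcases g2 with g2 | g2 | g2 | g2
  · omega
  · omega
  · omega
  have g3 := g2 s (List.mem_range.2 (by omega))
  rw [Bool.or_eq_true, Bool.or_eq_true, Bool.or_eq_true, Bool.or_eq_true, Bool.or_eq_true,
    beq_iff_eq, decide_eq_true_eq, decide_eq_true_eq, decide_eq_true_eq, decide_eq_true_eq,
    h3] at g3
  rcases g3 with g3 | g3 | g3 | g3 | g3 | g3
  · omega
  · exact absurd he g3
  · omega
  · omega
  · omega
  · exact g3

/-- what the test means -/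
lemma tst_sound {a b u s : ℕ} (ht : tst a b u s = true) {B : ℕ} {m r : ℤ}
    (h : E4.Par a b B m r)
    [IsDomain (QuadraticAlgebra ℤ m (B : ℤ))]
    [UniqueFactorizationMonoid (QuadraticAlgebra ℤ m (B : ℤ))]
    (hm : m = (u * b + s : ℕ)) (hr : r = (1 + a * u : ℕ)) (hB : B = u + a * (u * b + s))
    (hr4 : r % 4 = 3) :
    ∃ d ∈ l8, (d : ℤ) = (B : ℤ) ^ 2 + 4 * m := by
  unfold tst at ht
  rw [Bool.or_eq_true, Bool.or_eq_true, List.contains_iff_mem, decide_eq_true_eq,
    List.any_eq_true, ← hB] at ht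
  rcases ht with (ht | ht) | ⟨p, hp, ht⟩
  · refine ⟨_, ht, ?_⟩
    rw [hm]; push_cast; ring
  · exfalso
    apply ht
    rw [hr] at hr4
    exact_mod_cast hr4
  · exfalso
    rw [Bool.and_eq_true, Bool.and_eq_true, decide_eq_true_eq, decide_eq_true_eq,
      List.any_eq_true] at ht
    obtain ⟨h1, h2, x, -, hx⟩ := ht
    rw [decide_eq_true_eq] at hx
    have hpp : p.Prime := by
      simp only [List.mem_cons, List.not_mem_nil, or_false] at hp
      rcases hp with rfl | rfl | rfl | rfl | rfl | rfl <;> norm_num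
    have h5 := eq_of_root h hpp (by rw [hm]; exact_mod_cast h1) (x : ℤ) (by
      rw [hm]
      have h3 := (Nat.modEq_iff_dvd (n := p) (a := u * b + s) (b := x * x + B * x)).1 hx.symm
      have h4 : ((x * x + B * x : ℕ) : ℤ) - ((u * b + s : ℕ) : ℤ) =
        (x : ℤ) ^ 2 + B * x - ((u * b + s : ℕ) : ℤ) := by push_cast; ring
      rw [← h4]
      exact h3)
    rw [hr] at h5
    apply h2
    exact_mod_cast h5.symm

/-- small cases -/
theorem small {a b B : ℕ} {m r : ℤ} (h : E4.Par a b B m r)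
    [IsDomain (QuadraticAlgebra ℤ m (B : ℤ))]
    [UniqueFactorizationMonoid (QuadraticAlgebra ℤ m (B : ℤ))] (ha : 1 < a) (ha2 : a % 2 = 1)
    (hm2 : m % 2 = 1) (hr4 : r % 4 = 3) (h19 : m ≤ 19) :
    ∃ d ∈ l8, (d : ℤ) = (B : ℤ) ^ 2 + 4 * m := by
  obtain ⟨u, s, hu, hs, he, hm, hr, hB⟩ := params h
  have h19' : u * b + s ≤ 19 := by rw [hm] at h19; exact_mod_cast h19
  have hm2' : (u * b + s) % 2 = 1 := by rw [hm] at hm2; exact_mod_cast hm2
  exact tst_sound (chk_sound ha ha2 h.hb hu hs he h19' hm2') h hm hr hB hr4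

/-- even `m` with odd `B` -/
theorem m_odd {a b B : ℕ} {m r : ℤ} (h : E4.Par a b B m r)
    [IsDomain (QuadraticAlgebra ℤ m (B : ℤ))]
    [UniqueFactorizationMonoid (QuadraticAlgebra ℤ m (B : ℤ))] (hB : B % 2 = 1)
    (ha : a % 4 ≠ 2) : m % 2 = 1 := by
  by_contra hc
  have hm := h.hm
  have e2 := h.e2
  rcases eq_or_lt_of_le (show (2 : ℤ) ≤ m by omega) with h2 | h2
  · obtain ⟨u, s, hu, hs, he, hm', hr, hB'⟩ := params h
    have hub : u * b + s = 2 := by rw [← h2] at hm'; exact_mod_cast hm'.symm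
    have hb := h.hb
    have h6 : 1 ≤ u * b := Nat.mul_pos hu hb
    have hs1 : s = 1 := by omega
    have hub1 : u * b = 1 := by omega
    have hu1 : u = 1 := Nat.eq_one_of_mul_eq_one_right hub1
    have hb1 : b = 1 := Nat.eq_one_of_mul_eq_one_left hub1
    subst hs1 hu1 hb1
    omega
  · have hr := eq_of_root h Nat.prime_two (by push_cast; exact h2) 0 (by
      push_cast
      omega)
    push_cast at hr
    rw [hr] at e2
    have h5 : (B : ℤ) = 2 * (a * m - b) := by linarith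
    omega

/-- even `B`: only `a = 1` is possible -/
theorem B_even {a b B : ℕ} {m r : ℤ} (h : E4.Par a b B m r)
    [IsDomain (QuadraticAlgebra ℤ m (B : ℤ))]
    [UniqueFactorizationMonoid (QuadraticAlgebra ℤ m (B : ℤ))] (hB : B % 2 = 0) : a = 1 := by
  have hm := h.hm
  have e1 := h.e1
  rcases eq_or_lt_of_le (show (2 : ℤ) ≤ m by omega) with h2 | h2
  · obtain ⟨u, s, hu, hs, he, hm', hr, hB'⟩ := params h
    have hub : u * b + s = 2 := by rw [← h2] at hm'; exact_mod_cast hm'.symm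
    have hb := h.hb
    have h6 : 1 ≤ u * b := Nat.mul_pos hu hb
    have hs1 : s = 1 := by omega
    have hub1 : u * b = 1 := by omega
    have hu1 : u = 1 := Nat.eq_one_of_mul_eq_one_right hub1
    have hb1 : b = 1 := Nat.eq_one_of_mul_eq_one_left hub1
    subst hs1 hu1 hb1
    omega
  · have hr := eq_of_root h Nat.prime_two (by push_cast; exact h2) m (by
      obtain ⟨k, hk⟩ := Nat.dvd_of_mod_eq_zero hB
      have h1 : (2 : ℤ) ∣ m * (m - 1) := (Int.even_mul_pred_self m).two_dvd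
      have h3 : m ^ 2 + (B : ℤ) * m - m = m * (m - 1) + 2 * (k * m) := by
        rw [hk]; push_cast; ring
      rw [h3]
      exact_mod_cast dvd_add h1 (Dvd.intro _ rfl))
    push_cast at hr
    rw [hr] at e1
    have h5 : (a : ℤ) * (B - m * a) = 1 := by linarith
    have h6 : (a : ℤ) ∣ 1 := Dvd.intro _ h5
    have h7 : a ∣ 1 := by exact_mod_cast h6
    exact Nat.dvd_one.1 h7

end Pool.Agent.LibH4.P4
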