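import Pool.Agent.Lib_helper4.P5Small
import Pool.Agent.Lib_helper4.PerOf
import Pool.Agent.Lib_helper4.FieldsU

/-!
Twelve real quadratic fields with unique factorisation and period length five.
-/

namespace Pool.Agent.LibH4.P5

open scoped NumberField
open Function Pool.Agent.LibH4 Pool.Agent.Lib_helper5

/-- a field of the family -/
lemma field {a b B : ℕ} {m m' : ℤ} {d : ℕ} (h : E5.Par a b B m m')
    (hd : (d : ℤ) = (B : ℤ) ^ 2 + 4 * m) (hB : B % 2 = 1) (h1 : 1 < d) (hsq : Squarefree d)
    (hred : ∀ k < 5, E5.S m m' (k + 1) < E5.R a b B m m' (k + 1) + E5.S m m' k)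
    (W : List (ℕ × ℤ × ℤ)) (hW : FU.chk d W = true) :
    minimalPeriod gsh (gsh (omg d)) = 5 ∧ UniqueFactorizationMonoid (𝓞 (KQ d)) :=
  ⟨PO.period_of_cyc (E5.cyc h) hd h1 hsq (by exact_mod_cast hB) hred, FU.ufd_of_chk hW hsq h1⟩

/-- **the twelve fields** -/
theorem fields {d : ℕ} (h : d ∈ l12) (hsq : Squarefree d) :
    minimalPeriod gsh (gsh (omg d)) = 5 ∧ UniqueFactorizationMonoid (𝓞 (KQ d)) := by
  simp only [l12, List.mem_cons, List.not_mem_nil, or_false] at h
  rcases h with rfl | rfl | rfl | rfl | rfl | rfl | rfl | rfl | rfl | rfl | rfl | rfl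
  · exact field (a := 1) (b := 2) (B := 5) (m := 4) (m' := 2) ⟨by norm_num, by norm_num,
      by norm_num, by norm_num, by norm_num, by norm_num, by norm_num⟩ (by norm_num) (by norm_num)
      (by norm_num) hsq (by decide) [(2, -4, 1)] (by decide +kernel)
  · exact field (a := 1) (b := 1) (B := 11) (m := 7) (m' := 5) ⟨by norm_num, by norm_num,
      by norm_num, by norm_num, by norm_num, by norm_num, by norm_num⟩ (by norm_num) (by norm_num)
      (by norm_num) hsq (by decide) [(5, -7, 1)] (by decide +kernel)
  · exact field (a := 1) (b := 3) (B := 11) (m := 9) (m' := 3) ⟨by norm_num, by norm_num,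
      by norm_num, by norm_num, by norm_num, by norm_num, by norm_num⟩ (by norm_num) (by norm_num)
      (by norm_num) hsq (by decide) [(3, -7, 1)] (by decide +kernel)
  · exact field (a := 4) (b := 2) (B := 13) (m := 3) (m' := 5) ⟨by norm_num, by norm_num,
      by norm_num, by norm_num, by norm_num, by norm_num, by norm_num⟩ (by norm_num) (by norm_num)
      (by norm_num) hsq (by decide) [(3, -7, 1), (5, -29, 4)] (by decide +kernel)
  · exact field (a := 1) (b := 2) (B := 15) (m := 11) (m' := 5) ⟨by norm_num, by norm_num,
      by norm_num, by norm_num, by norm_num, by norm_num, by norm_num⟩ (by norm_num) (by norm_num)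
      (by norm_num) hsq (by decide) [(5, -9, 1)] (by decide +kernel)
  · exact field (a := 2) (b := 6) (B := 19) (m := 9) (m' := 3) ⟨by norm_num, by norm_num,
      by norm_num, by norm_num, by norm_num, by norm_num, by norm_num⟩ (by norm_num) (by norm_num)
      (by norm_num) hsq (by decide) [(3, -21, 2)] (by decide +kernel)
  · exact field (a := 1) (b := 5) (B := 29) (m := 25) (m' := 5) ⟨by norm_num, by norm_num,
      by norm_num, by norm_num, by norm_num, by norm_num, by norm_num⟩ (by norm_num) (by norm_num)
      (by norm_num) hsq (by decide) [(5, -16, 1)] (by decide +kernel)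
  · exact field (a := 2) (b := 2) (B := 31) (m := 13) (m' := 11) ⟨by norm_num, by norm_num,
      by norm_num, by norm_num, by norm_num, by norm_num, by norm_num⟩ (by norm_num) (by norm_num)
      (by norm_num) hsq (by decide) [(11, -33, 2), (13, -16, 1)] (by decide +kernel)
  · exact field (a := 2) (b := 1) (B := 49) (m := 19) (m' := 23) ⟨by norm_num, by norm_num,
      by norm_num, by norm_num, by norm_num, by norm_num, by norm_num⟩ (by norm_num) (by norm_num)
      (by norm_num) hsq (by decide) [(19, -25, 1), (23, -51, 2)] (by decide +kernel)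
  · exact field (a := 2) (b := 4) (B := 51) (m := 23) (m' := 11) ⟨by norm_num, by norm_num,
      by norm_num, by norm_num, by norm_num, by norm_num, by norm_num⟩ (by norm_num) (by norm_num)
      (by norm_num) hsq (by decide) [(11, -53, 2), (23, -26, 1)] (by decide +kernel)
  · exact field (a := 4) (b := 1) (B := 59) (m := 13) (m' := 29) ⟨by norm_num, by norm_num,
      by norm_num, by norm_num, by norm_num, by norm_num, by norm_num⟩ (by norm_num) (by norm_num)
      (by norm_num) hsq (by decide) [(13, -30, 1), (29, -121, 4)] (by decide +kernel)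
  · exact field (a := 9) (b := 3) (B := 65) (m := 7) (m' := 19) ⟨by norm_num, by norm_num,
      by norm_num, by norm_num, by norm_num, by norm_num, by norm_num⟩ (by norm_num) (by norm_num)
      (by norm_num) hsq (by decide) [(7, -33, 1), (19, -298, 9)] (by decide +kernel)

end Pool.Agent.LibH4.P5
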