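import Pool.Agent.Lib_helper4.CFFive

/-!
Odd cycles: every element is represented on an edge, and consequences for the prime two.
-/

namespace Pool.Agent.LibH4.P5

open Finset (range)
open Pool.Agent.LibH4 Pool.Agent.LibH4.FA Pool.Agent.Lib_helper5 Pool.Agent.Lib_helper5.CG

variable {m B : ℤ} {P R S : ℕ → ℤ} {c : ℕ → ℕ}

/-- every element of nonzero norm is represented, up to a unit, on one of the edges -/
theorem odd_repr (hm : 0 < m) {I : ℕ} (h : OddCyc m B I P R S c)
    (β : QuadraticAlgebra ℤ m B) (n : ℕ) (hn : n ≠ 0) (hβ : β.norm.natAbs = n) :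
    ∃ k < 2 * I + 1, ∃ x y : ℕ, 1 ≤ x ∧ y < c k * x ∧
      P k * (x : ℤ) ^ 2 + R k * x * y - S k * (y : ℤ) ^ 2 = n := by
  obtain ⟨J, hJ⟩ : ∃ J, J = 2 * I + 1 := ⟨_, rfl⟩
  have hC : CycM m B (2 * J) P R S c := by rw [hJ]; exact h.toCycM
  have hu : IsUnit (rho m B c (2 * J + 1)) := isUnit_u hC J rfl
  obtain ⟨u, hu⟩ := hu
  have hu1 : 0 < s1 hm (u : QuadraticAlgebra ℤ m B) := by
    rw [hu]; exact s1_rho hm hC (2 * J + 1) le_rfl
  have hsgK : sg (2 * J + 1) = 1 := by
    rw [add_comm, sg_even, sg_one]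
  have hu2 : 0 < s2 hm (u : QuadraticAlgebra ℤ m B) := by
    rw [hu]
    have := (s2_rho (B := B) hm c (2 * J)).2
    rwa [hsgK, one_mul] at this
  have hul : sl hm 1 (u : QuadraticAlgebra ℤ m B) < 1 := by
    have a1 := sl_chain hm hC 3 (J - 1) (by omega)
    have a2 := sl_step hm hC 1 (by omega)
    rw [show 3 + 2 * (J - 1) = 2 * J + 1 by omega] at a1
    have h3 : sg 3 = 1 := by unfold sg; norm_num
    rw [h3] at a1
    rw [sg_one, rho_one] at a2
    have h4 : sl hm 1 (1 : QuadraticAlgebra ℤ m B) = 1 := by simp [sl]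
    rw [hu]
    linarith
  have hone1 : 0 < s1 hm (1 : QuadraticAlgebra ℤ m B) := by simp
  have hone2 : 0 < (1 : ℝ) * s2 hm (1 : QuadraticAlgebra ℤ m B) := by simp
  -- the unit of norm -1
  have hSJ : S J = 1 := by
    have := h.perS 0 (by omega)
    rw [zero_add] at this
    rw [hJ, this, h.S1]
  have hv : IsUnit (rho m B c (J + 1)) := by
    rw [QuadraticAlgebra.isUnit_iff_norm_isUnit, norm_rho hC J (by omega), hSJ, mul_one]
    rw [Int.isUnit_iff_natAbs_eq, Int.natAbs_pow]
    simp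
  obtain ⟨v, hv⟩ := hv
  have hv1 : 0 < s1 hm (v : QuadraticAlgebra ℤ m B) := by
    rw [hv]; exact s1_rho hm hC (J + 1) (by omega)
  have hv2 : s2 hm (v : QuadraticAlgebra ℤ m B) < 0 := by
    rw [hv]
    have h1 := (s2_rho (B := B) hm c J).2
    have h2 : sg (J + 1) = -1 := by
      unfold sg
      rw [hJ, show 2 * I + 1 + 1 + 1 = 2 * (I + 1) + 1 by ring, pow_succ, pow_mul]
      norm_num
    rw [h2] at h1
    linarith
  have hne : s1 hm β * s2 hm β ≠ 0 := by
    rw [← norm_eq]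
    intro h0
    have h1 : β.norm = 0 := by exact_mod_cast h0
    rw [h1] at hβ
    exact hn (by simpa using hβ.symm)
  have hne1 : s1 hm β ≠ 0 := left_ne_zero_of_mul hne
  have hne2 : s2 hm β ≠ 0 := right_ne_zero_of_mul hne
  obtain ⟨β', hβ', hassoc, hne2'⟩ : ∃ β', 0 < s1 hm β' ∧ Associated β' β ∧
      s2 hm β' ≠ 0 := by
    rcases lt_or_gt_of_ne hne1 with h | h
    · refine ⟨-β, ?_, (Associated.refl β).neg_left, ?_⟩
      · rw [map_neg]; linarith
      · rw [map_neg]; exact neg_ne_zero.mpr hne2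
    · exact ⟨β, h, Associated.refl β, hne2⟩
  obtain ⟨β'', hβ1, hassoc', hβ2⟩ : ∃ β'', 0 < s1 hm β'' ∧ Associated β'' β ∧
      0 < s2 hm β'' := by
    rcases lt_or_gt_of_ne hne2' with h2 | h2
    · refine ⟨β' * v, ?_, ?_, ?_⟩
      · rw [map_mul]; exact mul_pos hβ' hv1
      · exact (associated_mul_unit_left β' _ (Units.isUnit v)).trans hassoc
      · rw [map_mul]; exact mul_pos_of_neg_of_neg h2 hv2
    · exact ⟨β', hβ', hassoc, h2⟩
  have hnat : ∀ γ : QuadraticAlgebra ℤ m B, Associated γ β → γ.norm.natAbs = n := by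
    intro γ hγ
    have := congrArg absN (Associates.mk_eq_mk_iff_associated.mpr hγ)
    rw [absN_mk, absN_mk, hβ] at this
    exact this
  obtain ⟨γ, hγ, hγ'⟩ := exists_in_cone hm 1 u hu1 hu2 hul 1 hone1 hone2 β'' hβ1
      (by linarith)
  rw [hu, mul_one] at hγ
  have hmem : γ ∈ Gs hm 1 1 (rho m B c (2 * J + 1)) n := ⟨hγ, hnat γ (hγ'.trans hassoc')⟩
  have chP := Gs_chain hm hC 1 J (by omega) n
  rw [show 1 + 2 * J = 2 * J + 1 by omega, sg_one, rho_one] at chP
  obtain ⟨fP, nP⟩ := chP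
  have h3 : (Gs hm 1 1 (rho m B c (2 * J + 1)) n).ncard ≠ 0 := by
    rw [Ne, Set.ncard_eq_zero fP, ← Ne, ← Set.nonempty_iff_ne_empty]
    exact ⟨γ, hmem⟩
  rw [nP] at h3
  obtain ⟨i, hi, hi'⟩ := Finset.exists_ne_zero_of_sum_ne_zero h3
  have hi2 : i < J := Finset.mem_range.1 hi
  have hne : (edgeSet (P (1 + 2 * i)) (R (1 + 2 * i)) (S (1 + 2 * i)) (c (1 + 2 * i)) n).Nonempty :=
    Set.nonempty_of_ncard_ne_zero hi'
  obtain ⟨⟨x, y⟩, hx, hy, he⟩ := hne
  by_cases hlt : 1 + 2 * i < 2 * I + 1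
  · exact ⟨1 + 2 * i, hlt, x, y, hx, hy, he⟩
  · obtain ⟨k, hk⟩ : ∃ k, 1 + 2 * i = k + (2 * I + 1) := ⟨1 + 2 * i - (2 * I + 1), by omega⟩
    simp only at hx hy he
    rw [hk, h.perP k (by omega), h.perR k (by omega), h.perS k (by omega)] at he
    rw [hk, h.perc k (by omega)] at hy
    exact ⟨k, by omega, x, y, hx, hy, he⟩

section par

variable {a b B : ℕ} {m m' : ℤ}

/-- elements of small norm have square norm -/
lemma isSquare_of_small (h : E5.Par a b B m m') {n : ℕ} (hn : n ≠ 0) (h1 : (n : ℤ) < m)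
    (h2 : (n : ℤ) < m') (β : QuadraticAlgebra ℤ m (B : ℤ)) (hβ : β.norm.natAbs = n) :
    IsSquare n := by
  have hm0 : 0 < m := by have := h.hm; omega
  have hm1 := h.hm
  have hm1' := h.hm'
  obtain ⟨k, hk, x, y, hx, hy, he⟩ := odd_repr hm0 (E5.cyc h) β n hn hβ
  have hC := (E5.cyc h).toCycM
  have hk5 : k < 5 := hk
  have hx' : (1 : ℤ) ≤ x := by exact_mod_cast hx
  have hxx : (1 : ℤ) ≤ (x : ℤ) ^ 2 := by nlinarith
  rcases Nat.eq_zero_or_pos y with hy0 | hy0
  · subst hy0
    have he' : E5.P m m' k * (x : ℤ) ^ 2 = n := by rw [← he]; push_cast; ring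
    have hP : E5.P m m' k = 1 ∨ E5.P m m' k = m ∨ E5.P m m' k = m' := by
      clear hk
      interval_cases k <;> simp [E5.P]
    rcases hP with hP | hP | hP
    · rw [hP, one_mul] at he'
      have : x ^ 2 = n := by exact_mod_cast he'
      exact ⟨x, by rw [← this]; ring⟩
    · exfalso
      rw [hP] at he'
      nlinarith
    · exfalso
      rw [hP] at he'
      nlinarith
  · exfalso
    have hy1 : (1 : ℤ) ≤ y := by exact_mod_cast hy0
    have hyc : (y : ℤ) + 1 ≤ E5.c a b B k * x := by exact_mod_cast hy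
    rcases Nat.eq_zero_or_pos k with hk0 | hk0
    · subst hk0
      simp only [E5.P, E5.R, E5.S, E5.c, Nat.zero_mod] at he hyc
      have h1 : m ≤ m * (x : ℤ) ^ 2 := by nlinarith
      have h2 : 0 ≤ (y : ℤ) * (B * x - y) := mul_nonneg (by linarith) (by linarith)
      nlinarith
    · have h3 := E5.edge_gt (hC.cpos k (by omega)) (hC.toCyc.Ppos (by omega)) (hC.Spos k (by omega))
        (hAend hC k (by omega)) hy1 hyc
      rw [he] at h3
      clear hk
      interval_cases k <;> simp only [E5.S, Nat.reduceMod] at h3 <;> omega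

/-- primes below `min m m'` are inert -/
theorem no_root (h : E5.Par a b B m m')
    [IsDomain (QuadraticAlgebra ℤ m (B : ℤ))]
    [UniqueFactorizationMonoid (QuadraticAlgebra ℤ m (B : ℤ))]
    {p : ℕ} (hp : p.Prime) (h1 : (p : ℤ) < m) (h2 : (p : ℤ) < m') (x : ℤ) :
    ¬ (p : ℤ) ∣ x ^ 2 + B * x - m := by
  intro hx
  obtain ⟨π, hπ⟩ := exists_norm_of_root hp hx
  obtain ⟨r, hr⟩ := isSquare_of_small h hp.ne_zero h1 h2 π hπ
  exact hp.prime.irreducible.not_isSquare ⟨r, hr⟩

/-- all parameters in terms of four positive integers -/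
lemma params (h : E5.Par a b B m m') : ∃ u s : ℕ, 1 ≤ u ∧ 1 ≤ s ∧ s * (1 + a * b) = 1 + b ^ 2 + a * u ∧
    m = (u * b + s : ℕ) ∧ m' = (1 + a * u : ℕ) ∧ B = u + a * (u * b + s) := by
  have ha : (1 : ℤ) ≤ a := by exact_mod_cast h.ha
  have hb : (1 : ℤ) ≤ b := by exact_mod_cast h.hb
  have e1 := h.e1
  have e2 := h.e2
  have hm := h.hm
  have hm' := h.hm'
  obtain ⟨U, hU⟩ : ∃ U : ℤ, U = B - a * m := ⟨_, rfl⟩
  obtain ⟨T, hT⟩ : ∃ T : ℤ, T = m - U * b := ⟨_, rfl⟩
  have f1 : m' = 1 + a * U := by rw [hU, e1]; ring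
  have f2 : T * (1 + a * b) = 1 + b ^ 2 + a * U := by
    have : (1 + a * U) * (1 + (b : ℤ) ^ 2) = m + (2 * a * m - B) * b := by rw [← f1]; exact e2
    rw [hT]
    have hB : (B : ℤ) = U + a * m := by rw [hU]; ring
    rw [hB] at this
    linear_combination -this
  have hU1 : 1 ≤ U := by
    have : 0 < a * U := by rw [f1] at hm'; linarith
    have := (mul_pos_iff_of_pos_left (by linarith : (0 : ℤ) < a)).1 this
    linarith
  have hT1 : 1 ≤ T := by
    have h3 : 0 < T * (1 + a * b) := by rw [f2]; positivity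
    have h4 : (0 : ℤ) < 1 + a * b := by positivity
    have := (mul_pos_iff_of_pos_right h4).1 h3
    linarith
  obtain ⟨u, hu⟩ := Int.eq_ofNat_of_zero_le (by linarith : 0 ≤ U)
  obtain ⟨s, hs⟩ := Int.eq_ofNat_of_zero_le (by linarith : 0 ≤ T)
  subst hu hs
  refine ⟨u, s, by exact_mod_cast hU1, by exact_mod_cast hT1, by exact_mod_cast f2, ?_, ?_, ?_⟩
  · push_cast; linarith
  · push_cast; linarith
  · have : (B : ℤ) = u + a * (u * b + s) := by
      have h5 : m = u * b + s := by linarith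
      rw [← h5, hU]; ring
    exact_mod_cast this

end par

/-! ### The finite check -/

/-- the twelve discriminants -/
def l12 : List ℕ := [41, 149, 157, 181, 269, 397, 941, 1013, 2477, 2693, 3533, 4253]

/-- parameters of eight further fields -/
def ext8 : List (ℕ × ℕ × ℕ × ℕ) :=
  [(1, 8, 16, 9), (1, 13, 12, 13), (2, 14, 3, 7), (2, 22, 5, 11), (3, 21, 2, 7), (4, 20, 1, 5),
    (5, 55, 2, 11), (12, 156, 1, 13)]

/-- the test -/
def tst (a b u s : ℕ) : Bool :=
  (l12.contains ((u + a * (u * b + s)) * (u + a * (u * b + s)) + 4 * (u * b + s))) ||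
  (ext8.contains (a, b, u, s)) ||
  (([2, 3, 5, 7, 11, 13, 17] : List ℕ).any fun p => decide (p < u * b + s) &&
    (decide (p < 1 + a * u) && ((List.range p).any fun x =>
      decide ((x * x + (u + a * (u * b + s)) * x) % p = (u * b + s) % p))))

/-- first range -/
def chkA : Bool :=
  (List.range 19).all fun a => (List.range 19).all fun u => (a == 0) || ((u == 0) ||
    (decide (18 < a * u) || ((List.range (19 * a + 1)).all fun b => (b == 0) ||
      ((decide ((1 + b * b + a * u) % (1 + a * b) ≠ 0)) ||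
        tst a b u ((1 + b * b + a * u) / (1 + a * b))))))

/-- second range -/
def chkB : Bool :=
  (List.range 20).all fun u => (List.range 20).all fun b => (b == 0) || ((u == 0) ||
    (decide (19 < u * b) || ((List.range (20 - u * b)).all fun s => (s == 0) ||
      (decide (s * (1 + ((1 + b * b : ℤ) - s).natAbs / ((s * b : ℤ) - u).natAbs * b) ≠
        1 + b * b + ((1 + b * b : ℤ) - s).natAbs / ((s * b : ℤ) - u).natAbs * u) ||
      (decide (((1 + b * b : ℤ) - s).natAbs / ((s * b : ℤ) - u).natAbs = 0) ||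
        tst (((1 + b * b : ℤ) - s).natAbs / ((s * b : ℤ) - u).natAbs) b u s)))))

set_option maxRecDepth 100000 in
lemma chkA_true : chkA = true := by decide +kernel

set_option maxRecDepth 100000 in
lemma chkB_true : chkB = true := by decide +kernel

lemma chkA_sound {a b u s : ℕ} (ha : 1 ≤ a) (hb : 1 ≤ b) (hu : 1 ≤ u)
    (he : s * (1 + a * b) = 1 + b ^ 2 + a * u) (h18 : a * u ≤ 18) : tst a b u s = true := by
  have ha19 : a < 19 := by nlinarith
  have hu19 : u < 19 := by nlinarith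
  have hb19 : b < 19 * a + 1 := by
    have h1 : (s : ℤ) * (1 + a * b) = 1 + b ^ 2 + a * u := by exact_mod_cast he
    have h2 : (1 + (a : ℤ) * b) * (a ^ 2 * s - a * b + 1) = 1 + a ^ 2 + a ^ 3 * u := by
      linear_combination (a : ℤ) ^ 2 * h1
    have h3 : (0 : ℤ) < 1 + a * b := by positivity
    have h4 : (0 : ℤ) < (1 + (a : ℤ) * b) * (a ^ 2 * s - a * b + 1) := by rw [h2]; positivity
    have h5 : (1 : ℤ) ≤ a ^ 2 * s - a * b + 1 := by
      have := (mul_pos_iff_of_pos_left h3).1 h4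
      linarith
    have h6 : (1 + (a : ℤ) * b) ≤ 1 + a ^ 2 + a ^ 3 * u := by
      rw [← h2]; nlinarith
    have h7 : (a : ℤ) * u ≤ 18 := by exact_mod_cast h18
    have ha' : (1 : ℤ) ≤ a := by exact_mod_cast ha
    have h8 : (a : ℤ) * b ≤ a * (19 * a) := by
      have h9 : (a : ℤ) ^ 3 * u ≤ a ^ 2 * 18 := by
        have : (a : ℤ) ^ 2 * (a * u) ≤ a ^ 2 * 18 := mul_le_mul_of_nonneg_left h7 (by positivity)
        calc (a : ℤ) ^ 3 * u = a ^ 2 * (a * u) := by ring
          _ ≤ _ := this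
      nlinarith
    have h10 : (b : ℤ) ≤ 19 * a := le_of_mul_le_mul_left h8 (by linarith)
    omega
  have hpos : 0 < 1 + a * b := by positivity
  have he' : 1 + b * b + a * u = s * (1 + a * b) := by rw [he]; ring
  have h := chkA_true
  unfold chkA at h
  rw [List.all_eq_true] at h
  have h1 := h a (List.mem_range.2 ha19)
  rw [List.all_eq_true] at h1
  have h2 := h1 u (List.mem_range.2 hu19)
  rw [Bool.or_eq_true, Bool.or_eq_true, Bool.or_eq_true, beq_iff_eq, beq_iff_eq, decide_eq_true_eq,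
    List.all_eq_true] at h2
  rcases h2 with h2 | h2 | h2 | h2
  · omega
  · omega
  · omega
  have h3 := h2 b (List.mem_range.2 hb19)
  rw [Bool.or_eq_true, Bool.or_eq_true, beq_iff_eq, decide_eq_true_eq, he', Nat.mul_mod_left,
    Nat.mul_div_cancel _ hpos] at h3
  rcases h3 with h3 | h3 | h3
  · omega
  · exact absurd rfl h3
  · exact h3

lemma chkB_sound {a b u s : ℕ} (ha : 1 ≤ a) (hb : 1 ≤ b) (hu : 1 ≤ u) (hs : 1 ≤ s)
    (he : s * (1 + a * b) = 1 + b ^ 2 + a * u) (h19 : u * b + s ≤ 19) (hne : s * b ≠ u) :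
    tst a b u s = true := by
  have hu20 : u < 20 := by nlinarith
  have hb20 : b < 20 := by nlinarith
  have h1 : (a : ℤ) * ((s * b : ℤ) - u) = (1 + b * b : ℤ) - s := by
    have h1 : (s : ℤ) * (1 + a * b) = 1 + b ^ 2 + a * u := by exact_mod_cast he
    linear_combination h1
  have h2 : a * ((s * b : ℤ) - u).natAbs = ((1 + b * b : ℤ) - s).natAbs := by
    rw [← h1, Int.natAbs_mul, Int.natAbs_natCast]
  have hpos : 0 < ((s * b : ℤ) - u).natAbs := by
    have : (s * b : ℤ) - u ≠ 0 := by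
      intro h0
      apply hne
      have : (s * b : ℤ) = u := by linarith
      exact_mod_cast this
    omega
  have h3 : ((1 + b * b : ℤ) - s).natAbs / ((s * b : ℤ) - u).natAbs = a := by
    rw [← h2, Nat.mul_div_cancel _ hpos]
  have h := chkB_true
  unfold chkB at h
  rw [List.all_eq_true] at h
  have g1 := h u (List.mem_range.2 hu20)
  rw [List.all_eq_true] at g1
  have g2 := g1 b (List.mem_range.2 hb20)
  rw [Bool.or_eq_true, Bool.or_eq_true, Bool.or_eq_true, beq_iff_eq, beq_iff_eq, decide_eq_true_eq,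
    List.all_eq_true] at g2
  rcases g2 with g2 | g2 | g2 | g2
  · omega
  · omega
  · omega
  have g3 := g2 s (List.mem_range.2 (by omega))
  rw [Bool.or_eq_true, Bool.or_eq_true, Bool.or_eq_true, beq_iff_eq, decide_eq_true_eq,
    decide_eq_true_eq, h3] at g3
  rcases g3 with g3 | g3 | g3 | g3
  · omega
  · exfalso; apply g3; rw [he]; ring
  · omega
  · exact g3

/-- what the test means -/
lemma tst_sound {a b u s : ℕ} (ht : tst a b u s = true) {B : ℕ} {m m' : ℤ}
    (h : E5.Par a b B m m')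
    [IsDomain (QuadraticAlgebra ℤ m (B : ℤ))]
    [UniqueFactorizationMonoid (QuadraticAlgebra ℤ m (B : ℤ))]
    (hm : m = (u * b + s : ℕ)) (hm' : m' = (1 + a * u : ℕ)) (hB : B = u + a * (u * b + s)) :
    (∃ d ∈ l12, (d : ℤ) = (B : ℤ) ^ 2 + 4 * m) ∨ (a, b, u, s) ∈ ext8 := by
  unfold tst at ht
  rw [Bool.or_eq_true, Bool.or_eq_true, List.contains_iff_mem, List.contains_iff_mem,
    List.any_eq_true, ← hB] at ht
  rcases ht with (ht | ht) | ⟨p, hp, ht⟩
  · left
    refine ⟨_, ht, ?_⟩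
    rw [hm]; push_cast; ring
  · right; exact ht
  · exfalso
    rw [Bool.and_eq_true, Bool.and_eq_true, decide_eq_true_eq, decide_eq_true_eq,
      List.any_eq_true] at ht
    obtain ⟨h1, h2, x, -, hx⟩ := ht
    rw [decide_eq_true_eq] at hx
    have hpp : p.Prime := by
      simp only [List.mem_cons, List.not_mem_nil, or_false] at hp
      rcases hp with rfl | rfl | rfl | rfl | rfl | rfl | rfl <;> norm_num
    apply no_root h hpp (by rw [hm]; exact_mod_cast h1) (by rw [hm']; exact_mod_cast h2) (x : ℤ)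
    rw [hm]
    have h3 := (Nat.modEq_iff_dvd (n := p) (a := u * b + s) (b := x * x + B * x)).1 hx.symm
    have h4 : ((x * x + B * x : ℕ) : ℤ) - ((u * b + s : ℕ) : ℤ) =
      (x : ℤ) ^ 2 + B * x - ((u * b + s : ℕ) : ℤ) := by push_cast; ring
    rw [← h4]
    exact h3

/-- small cases -/
theorem small {a b B : ℕ} {m m' : ℤ} (h : E5.Par a b B m m')
    [IsDomain (QuadraticAlgebra ℤ m (B : ℤ))]
    [UniqueFactorizationMonoid (QuadraticAlgebra ℤ m (B : ℤ))] (hmin : m ≤ 19 ∨ m' ≤ 19) :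
    (∃ d ∈ l12, (d : ℤ) = (B : ℤ) ^ 2 + 4 * m) ∨
      ∃ u s : ℕ, (a, b, u, s) ∈ ext8 ∧ m = (u * b + s : ℕ) ∧ m' = (1 + a * u : ℕ) ∧
        B = u + a * (u * b + s) := by
  obtain ⟨u, s, hu, hs, he, hm, hm', hB⟩ := params h
  have key : tst a b u s = true → (∃ d ∈ l12, (d : ℤ) = (B : ℤ) ^ 2 + 4 * m) ∨
      ∃ u s : ℕ, (a, b, u, s) ∈ ext8 ∧ m = (u * b + s : ℕ) ∧ m' = (1 + a * u : ℕ) ∧
        B = u + a * (u * b + s) := by
    intro ht
    rcases tst_sound ht h hm hm' hB with h1 | h1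
    · exact Or.inl h1
    · exact Or.inr ⟨u, s, h1, hm, hm', hB⟩
  rcases hmin with h19 | h19
  · have h19' : u * b + s ≤ 19 := by rw [hm] at h19; exact_mod_cast h19
    by_cases hne : s * b = u
    · exfalso
      have e1 : s = 1 + b ^ 2 := by
        rw [← hne] at he
        have : s * (1 + a * b) = 1 + b ^ 2 + a * b * s := by rw [he]; ring
        have h3 : s + s * (a * b) = 1 + b ^ 2 + s * (a * b) := by rw [← mul_one_add, this]; ring
        omega
      have hb := h.hb
      have hb1 : b = 1 := by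
        by_contra hb1
        have hb2 : 2 ≤ b := by omega
        have hs5 : 5 ≤ s := by rw [e1]; nlinarith
        have : u * b + s = s * s := by rw [← hne, e1]; ring
        rw [this] at h19'
        nlinarith
      subst hb1
      have hs2 : s = 2 := by rw [e1]; norm_num
      subst hs2
      have hu2 : u = 2 := by omega
      subst hu2
      apply no_root h Nat.prime_two (by rw [hm]; norm_num) (by
        rw [hm']
        have ha := h.ha
        push_cast
        have : (1 : ℤ) ≤ a := by exact_mod_cast ha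
        linarith) 0
      rw [hm]
      norm_num
    · exact key (chkB_sound h.ha h.hb hu hs he h19' hne)
  · have h18 : a * u ≤ 18 := by
      rw [hm'] at h19
      have : 1 + a * u ≤ 19 := by exact_mod_cast h19
      omega
    exact key (chkA_sound h.ha h.hb hu he h18)

/-! ### The eight further fields -/

/-- check that a prime is not represented on an edge -/
def chkK (a b B m m' p : ℕ) : Bool :=
  (List.range 5).all fun k => (List.range (p + 1)).all fun x => (decide (p < x * x)) ||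
    ((List.range (p + 1)).all fun y =>
      decide (¬ (y < E5.c a b B k * x ∧
        E5.P m m' k * (x : ℤ) ^ 2 + E5.R a b B m m' k * x * y - E5.S m m' k * (y : ℤ) ^ 2 = p)))

lemma kill {a b B m m' : ℕ} (p : ℕ) (hp : p.Prime) (x : ℕ)
    (hx : (x * x + B * x) % p = m % p) (hchk : chkK a b B m m' p = true)
    (h : E5.Par a b B m m')
    [IsDomain (QuadraticAlgebra ℤ (m : ℤ) (B : ℤ))]
    [UniqueFactorizationMonoid (QuadraticAlgebra ℤ (m : ℤ) (B : ℤ))] : False := by
  have hm0 : (0 : ℤ) < m := by have := h.hm; omega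
  obtain ⟨π, hπ⟩ := exists_norm_of_root (m := (m : ℤ)) (B := (B : ℤ)) hp (x := (x : ℤ)) (by
    have h3 := (Nat.modEq_iff_dvd (n := p) (a := m) (b := x * x + B * x)).1 hx.symm
    have h4 : ((x * x + B * x : ℕ) : ℤ) - ((m : ℕ) : ℤ) =
      (x : ℤ) ^ 2 + B * x - (m : ℤ) := by push_cast; ring
    rw [← h4]
    exact h3)
  obtain ⟨k, hk, X, Y, hX, hY, he⟩ := odd_repr hm0 (E5.cyc h) π p hp.ne_zero hπ
  have hC := (E5.cyc h).toCycM
  have hX' : (1 : ℤ) ≤ X := by exact_mod_cast hX
  have hY' : (Y : ℤ) < E5.c a b B k * X := by exact_mod_cast hY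
  have hY0 : (0 : ℤ) ≤ Y := by positivity
  have hf := form_pos (hC.cpos k (by omega)) (hC.toCyc.Ppos (by omega)) (hC.Spos k (by omega))
    (hAend hC k (by omega)) hY0 hY'.le
  rw [he] at hf
  have hS := hC.Spos k (by omega)
  have h0 : 0 ≤ E5.S m m' k * ((Y : ℤ) * (E5.c a b B k * X - Y)) :=
    mul_nonneg hS.le (mul_nonneg hY0 (by linarith))
  have hXp : X * X ≤ p := by
    have : (X : ℤ) * X ≤ p := by nlinarith
    exact_mod_cast this
  have hYp : Y ≤ p := by
    have h1 : (Y : ℤ) ≤ (Y : ℤ) * (E5.c a b B k * X - Y) := by nlinarith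
    have h2 : (Y : ℤ) * (E5.c a b B k * X - Y) ≤ E5.S m m' k * ((Y : ℤ) * (E5.c a b B k * X - Y)) := by
      have h3 : 0 ≤ (Y : ℤ) * (E5.c a b B k * X - Y) := mul_nonneg hY0 (by linarith)
      nlinarith
    have : (Y : ℤ) ≤ p := by nlinarith
    exact_mod_cast this
  unfold chkK at hchk
  rw [List.all_eq_true] at hchk
  have g1 := hchk k (List.mem_range.2 (by omega))
  rw [List.all_eq_true] at g1
  have g2 := g1 X (List.mem_range.2 (by nlinarith))
  rw [Bool.or_eq_true, decide_eq_true_eq, List.all_eq_true] at g2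
  rcases g2 with g2 | g2
  · omega
  have g3 := g2 Y (List.mem_range.2 (by omega))
  rw [decide_eq_true_eq] at g3
  exact g3 ⟨hY, he⟩

/-- **small cases for period five** -/
theorem small_cases {a b B : ℕ} {m m' : ℤ} (h : E5.Par a b B m m')
    [IsDomain (QuadraticAlgebra ℤ m (B : ℤ))]
    [UniqueFactorizationMonoid (QuadraticAlgebra ℤ m (B : ℤ))] :
    (∃ d ∈ l12, (d : ℤ) = (B : ℤ) ^ 2 + 4 * m) ∨
      (B % 2 = 1 ∧ m % 2 = 1 ∧ 19 < m ∧ 19 < m') := by
  by_cases hmin : m ≤ 19 ∨ m' ≤ 19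
  · left
    rcases small h hmin with h1 | ⟨u, s, h1, hm, hm', hB⟩
    · exact h1
    · exfalso
      simp only [ext8, List.mem_cons, List.not_mem_nil, or_false, Prod.mk.injEq] at h1
      rcases h1 with ⟨rfl, rfl, rfl, rfl⟩ | ⟨rfl, rfl, rfl, rfl⟩ | ⟨rfl, rfl, rfl, rfl⟩ |
        ⟨rfl, rfl, rfl, rfl⟩ | ⟨rfl, rfl, rfl, rfl⟩ | ⟨rfl, rfl, rfl, rfl⟩ |
        ⟨rfl, rfl, rfl, rfl⟩ | ⟨rfl, rfl, rfl, rfl⟩
      all_goals subst hm hm' hB
      · exact kill 19 (by norm_num) 6 (by norm_num) (by decide +kernel) h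
      · exact kill 17 (by norm_num) 8 (by norm_num) (by decide +kernel) h
      · exact kill 13 (by norm_num) 5 (by norm_num) (by decide +kernel) h
      · exact kill 13 (by norm_num) 2 (by norm_num) (by decide +kernel) h
      · exact kill 11 (by norm_num) 2 (by norm_num) (by decide +kernel) h
      · exact kill 7 (by norm_num) 1 (by norm_num) (by decide +kernel) h
      · exact kill 17 (by norm_num) 9 (by norm_num) (by decide +kernel) h
      · exact kill 17 (by norm_num) 2 (by norm_num) (by decide +kernel) h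
  · right
    push Not at hmin
    obtain ⟨h1, h2⟩ := hmin
    have r0 := no_root h Nat.prime_two (by push_cast; linarith) (by push_cast; linarith) 0
    have r1 := no_root h Nat.prime_two (by push_cast; linarith) (by push_cast; linarith) 1
    push_cast at r0 r1
    refine ⟨?_, ?_, h1, h2⟩ <;> omega

end Pool.Agent.LibH4.P5
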