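import Pool.Agent.Lib_helper4.P7Fields
import Pool.Agent.Lib_helper4.CFSeven

/-!
Assembly of the period seven theorem from the elimination of large parameters.
-/

namespace Pool.Agent.LibH4.P7

open scoped NumberField
open Function Pool.Agent.LibH4 Pool.Agent.Lib_helper5 CFO

/-- class number one and period seven, given the elimination of large parameters -/
theorem seven_iff (hbig : ∀ (a b c B : ℕ) (m m2 m3 : ℤ), E7.Par a b c B m m2 m3 →
      m % 2 = 1 → B % 2 = 1 →
      ∀ [IsDomain (QuadraticAlgebra ℤ m (B : ℤ))]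
        [UniqueFactorizationMonoid (QuadraticAlgebra ℤ m (B : ℤ))],
      23 < m → 23 < m2 → 23 < m3 → False)
    (d : ℕ) (h1 : 1 < d) (hsq : Squarefree d) :
    (minimalPeriod gsh (gsh (omg d)) = 7 ∧ UniqueFactorizationMonoid (𝓞 (KQ d))) ↔ d ∈ l17 := by
  constructor
  · rintro ⟨hper, hU⟩
    obtain ⟨a, b, c, B, m, m2, m3, hP, ⟨h4, hd, hB⟩ | ⟨h4, hd, hB⟩⟩ := exists_par_seven d h1 hsq hper
    · obtain ⟨e⟩ := exists_equiv_QI hd (by exact_mod_cast hB)
      have e' := e.symm.trans (eqvO hsq h1)
      have i1 : IsDomain (QuadraticAlgebra ℤ m (B : ℤ)) := e'.toMulEquiv.isDomain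
      have i2 : UniqueFactorizationMonoid (QuadraticAlgebra ℤ m (B : ℤ)) :=
        e'.symm.toMulEquiv.uniqueFactorizationMonoid hU
      rcases small_cases hP with ⟨d', hd', he⟩ | ⟨hB2, hm2, g1, g2, g3⟩
      · rw [← hd] at he
        have : d' = d := by exact_mod_cast he
        rw [← this]
        exact hd'
      · exact (hbig a b c B m m2 m3 hP hm2 hB2 g1 g2 g3).elim
    · exfalso
      obtain ⟨e⟩ := exists_equiv_QI_even hd h4 (by exact_mod_cast hB)
      have e' := e.symm.trans (eqvO hsq h1)
      have i1 : IsDomain (QuadraticAlgebra ℤ m (B : ℤ)) := e'.toMulEquiv.isDomain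
      have i2 : UniqueFactorizationMonoid (QuadraticAlgebra ℤ m (B : ℤ)) :=
        e'.symm.toMulEquiv.uniqueFactorizationMonoid hU
      rcases small_cases hP with ⟨d', hd', he⟩ | ⟨hB2, hm2, g1, g2, g3⟩
      · rw [← hd] at he
        have hd4 : d' = 4 * d := by exact_mod_cast he
        have hall : ∀ e ∈ l17, e % 4 ≠ 0 := by decide
        have := hall d' hd'
        omega
      · omega
  · intro h
    exact fields h hsq

end Pool.Agent.LibH4.P7
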