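import Pool.Agent.Lib_helper4.E7

/-!
Period seven: the parameters with a small norm.
-/

namespace Pool.Agent.LibH4.P7

open Finset (range)
open Pool.Agent.LibH4 Pool.Agent.LibH4.FA Pool.Agent.Lib_helper5 Pool.Agent.Lib_helper5.CG

variable {a b c B : ℕ} {m m2 m3 : ℤ}

/-- the parameters in terms of positive integers -/
lemma params (h : E7.Par a b c B m m2 m3) : ∃ u w e M3 : ℕ, 1 ≤ u ∧ 1 ≤ w ∧ 2 ≤ M3 ∧
    e + b = a * w ∧ m = (b * u + w : ℕ) ∧ m2 = (1 + a * u : ℕ) ∧ m3 = (M3 : ℕ) ∧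
    B = u + a * (b * u + w) ∧ M3 + b * b = w * (1 + a * b) ∧
    (1 + c * c) * M3 + a * c * w = 1 + 2 * b * c + a * u * (1 + b * c) + c * u := by
  have ha : (1 : ℤ) ≤ a := by exact_mod_cast h.ha
  have hb : (1 : ℤ) ≤ b := by exact_mod_cast h.hb
  have e1 := h.e1
  have e2 := h.e2
  have e3 := h.e3
  have hm := h.hm
  have hm2 := h.hm2
  have hm3 := h.hm3
  obtain ⟨U, hU⟩ : ∃ U : ℤ, U = B - a * m := ⟨_, rfl⟩
  obtain ⟨W, hW⟩ : ∃ W : ℤ, W = m - b * U := ⟨_, rfl⟩
  have hm' : m = b * U + W := by rw [hW]; ring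
  have hB : (B : ℤ) = U + a * (b * U + W) := by rw [← hm', hU]; ring
  have f1 : m2 = 1 + a * U := by rw [hU, e1]; ring
  have f2 : m3 = W * (1 + a * b) - b * b := by
    rw [e2, f1, hB, hm']; ring
  have f3 : (1 + (c : ℤ) * c) * m3 + a * c * W = 1 + 2 * b * c + a * U * (1 + b * c) + c * U := by
    rw [f1, hB, hm'] at e3
    linear_combination e3
  have hU1 : 1 ≤ U := by
    have h1 : 0 < a * U := by rw [f1] at hm2; linarith
    have := (mul_pos_iff_of_pos_left (by linarith : (0 : ℤ) < a)).1 h1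
    linarith
  have hab : (0 : ℤ) < 1 + a * b := by positivity
  have hW1 : 1 ≤ W := by
    have h1 : 0 < W * (1 + a * b) := by nlinarith
    have := (mul_pos_iff_of_pos_right hab).1 h1
    linarith
  have hE : 0 ≤ a * W - b := by
    have h1 : (a * W - b) * (1 + a * b) = a * m3 - b := by rw [f2]; ring
    have h2 : -(1 + (a : ℤ) * b) < a * m3 - b := by nlinarith
    by_contra hneg
    push Not at hneg
    have : (a * W - b) * (1 + a * b) ≤ -(1 + (a : ℤ) * b) := by nlinarith
    linarith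
  obtain ⟨u, hu⟩ := Int.eq_ofNat_of_zero_le (by linarith : 0 ≤ U)
  obtain ⟨w, hw⟩ := Int.eq_ofNat_of_zero_le (by linarith : 0 ≤ W)
  obtain ⟨e, he⟩ := Int.eq_ofNat_of_zero_le hE
  obtain ⟨M3, hM3⟩ := Int.eq_ofNat_of_zero_le (by linarith : 0 ≤ m3)
  subst hu hw
  refine ⟨u, w, e, M3, by exact_mod_cast hU1, by exact_mod_cast hW1, ?_, ?_, ?_, ?_, hM3, ?_, ?_, ?_⟩
  · rw [hM3] at hm3; exact_mod_cast hm3
  · have : (e : ℤ) + b = a * w := by rw [← he]; ring
    exact_mod_cast this
  · rw [hm']; push_cast; ring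
  · rw [f1]; push_cast; ring
  · exact_mod_cast hB
  · rw [hM3] at f2
    have : (M3 : ℤ) + b * b = w * (1 + a * b) := by linarith
    exact_mod_cast this
  · rw [hM3] at f3
    exact_mod_cast f3

/-! ### The finite check -/

/-- the seventeen discriminants -/
def l17 : List ℕ := [89, 109, 113, 137, 373, 389, 509, 653, 797, 853, 997, 1493, 1997, 2309, 2621,
  3797, 4973]

/-- parameters `(a, b, c, u, w)` of further fields -/
def ext : List (ℕ × ℕ × ℕ × ℕ × ℕ) :=
  [(1, 1, 8, 52, 7), (1, 1, 33, 280, 9), (1, 9, 3, 2, 9), (1, 25, 5, 4, 25), (1, 49, 7, 6, 49),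
    (2, 1, 14, 23, 2), (2, 18, 6, 1, 9), (2, 98, 14, 3, 49), (3, 1, 11, 8, 1), (3, 147, 21, 2, 49),
    (4, 100, 20, 1, 25), (5, 1, 29, 24, 1), (5, 2, 38, 24, 1), (5, 4, 26, 6, 1), (6, 294, 42, 1, 49),
    (7, 1, 55, 48, 1), (7, 2, 82, 60, 1), (17, 16, 290, 18, 1), (22, 10, 1, 1, 1), (25, 1, 4, 4, 1),
    (26, 2, 3, 3, 1), (62, 2, 5, 5, 1)]

/-- the test, with the norms `m`, `m2`, `m3` as further arguments -/
def tst' (a b c u w m m2 m3 : ℕ) : Bool :=
  decide (w * (1 + a * b) < b * b + 2) ||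
  (decide ((1 + c * c) * m3 + a * c * w ≠ 1 + 2 * b * c + a * u * (1 + b * c) + c * u) ||
  (l17.contains ((u + a * m) * (u + a * m) + 4 * m) || (ext.contains (a, b, c, u, w) ||
  (([2, 3, 5, 7, 11, 13, 17, 19] : List ℕ).any fun p => decide (p < m) && (decide (p < m2) &&
    (decide (p < m3) && ((List.range p).any fun x =>
      decide ((x * x + (u + a * m) * x) % p = m % p))))))))

/-- the test -/
def tst (a b c u w : ℕ) : Bool := (a == 0) || ((b == 0) || ((c == 0) || ((u == 0) ||
  tst' a b c u w (b * u + w) (1 + a * u) (w * (1 + a * b) - b * b))))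

/-- what the test means -/
lemma tst_sound {u w M3 : ℕ} (ht : tst a b c u w = true)
    (h : E7.Par a b c B m m2 m3)
    [IsDomain (QuadraticAlgebra ℤ m (B : ℤ))]
    [UniqueFactorizationMonoid (QuadraticAlgebra ℤ m (B : ℤ))]
    (hu : 1 ≤ u) (hM : 2 ≤ M3) (hm : m = (b * u + w : ℕ)) (hm2 : m2 = (1 + a * u : ℕ)) (hm3 : m3 = (M3 : ℕ))
    (hB : B = u + a * (b * u + w)) (q1 : M3 + b * b = w * (1 + a * b))
    (q2 : (1 + c * c) * M3 + a * c * w = 1 + 2 * b * c + a * u * (1 + b * c) + c * u) :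
    (∃ d ∈ l17, (d : ℤ) = (B : ℤ) ^ 2 + 4 * m) ∨ (a, b, c, u, w) ∈ ext := by
  have e3 : w * (1 + a * b) - b * b = M3 := by rw [← q1]; omega
  have ha := h.ha
  have hb := h.hb
  have hc := h.hc
  unfold tst tst' at ht
  rw [e3, ← q1, Bool.or_eq_true, Bool.or_eq_true, Bool.or_eq_true, Bool.or_eq_true,
    Bool.or_eq_true, Bool.or_eq_true, Bool.or_eq_true, Bool.or_eq_true, beq_iff_eq, beq_iff_eq,
    beq_iff_eq, beq_iff_eq,
    List.contains_iff_mem, List.contains_iff_mem, List.any_eq_true, decide_eq_true_eq,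
    decide_eq_true_eq, ← hB] at ht
  rcases ht with ht | ht | ht | ht | ht | ht | ht | ht | ⟨p, hp, ht⟩
  · omega
  · omega
  · omega
  · omega
  · omega
  · exact absurd q2 ht
  · left
    refine ⟨_, ht, ?_⟩
    rw [hm]; push_cast; ring
  · right; exact ht
  · exfalso
    rw [Bool.and_eq_true, Bool.and_eq_true, Bool.and_eq_true, decide_eq_true_eq, decide_eq_true_eq,
      decide_eq_true_eq, List.any_eq_true] at ht
    obtain ⟨h1, h2, h3, x, -, hx⟩ := ht
    rw [decide_eq_true_eq] at hx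
    have hpp : p.Prime := by
      simp only [List.mem_cons, List.not_mem_nil, or_false] at hp
      rcases hp with rfl | rfl | rfl | rfl | rfl | rfl | rfl | rfl <;> norm_num
    apply E7.no_root h hpp (by rw [hm]; exact_mod_cast h1) (by rw [hm2]; exact_mod_cast h2)
      (by rw [hm3]; exact_mod_cast h3) (x : ℤ)
    rw [hm]
    have h3 := (Nat.modEq_iff_dvd (n := p) (a := b * u + w) (b := x * x + B * x)).1 hx.symm
    have h4 : ((x * x + B * x : ℕ) : ℤ) - ((b * u + w : ℕ) : ℤ) =
      (x : ℤ) ^ 2 + B * x - ((b * u + w : ℕ) : ℤ) := by push_cast; ring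
    rw [← h4]
    exact h3

/-! #### first case: `m ≤ 23` -/

/-- numerator and denominator of `a` -/
def D1 (b c u w : ℕ) : ℤ := (1 + c * c) * w * b + c * w - u * (1 + b * c)
/-- numerator of `a` -/
def N1 (b c u w : ℕ) : ℤ := 1 + 2 * b * c + c * u + (1 + c * c) * (b * b - w)
/-- a bound -/
def F1 (b u w : ℕ) : ℕ := w * b + w * b * b + w * w + u * b * b + u * b * b * b + u + u * b

/-- check in the first case -/
def chk1 : Bool :=
  (List.range 24).all fun b => (List.range 24).all fun u => (b == 0) || ((u == 0) ||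
    (decide (23 < b * u) || ((List.range (24 - b * u)).all fun w => (w == 0) ||
      ((List.range (F1 b u w / (w * b) + 1)).all fun c => (c == 0) ||
        (if D1 b c u w = 0 then decide (N1 b c u w ≠ 0) else
          tst (N1 b c u w / D1 b c u w).toNat b c u w)))))

/-! #### second case: `m2 ≤ 23` -/

/-- denominator of `b` -/
def D2 (a c e m2 : ℕ) : ℤ := (1 + e * a) * (1 + c * c) - a * m2 * c
/-- numerator of `b` -/
def N2 (a c e u m2 : ℕ) : ℤ := a * m2 + a * u * c - e * (1 + c * c + a * c)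

/-- check in the second case, given `a`, `u`, `e`, `c` -/
def inner2 (a u e c : ℕ) : Bool := (c == 0) ||
  (if D2 a c e (1 + a * u) = 0 then decide (N2 a c e u (1 + a * u) ≠ 0) else
    tst a (N2 a c e u (1 + a * u) / D2 a c e (1 + a * u)).toNat c u
      ((e + (N2 a c e u (1 + a * u) / D2 a c e (1 + a * u)).toNat) / a))

/-- check in the second case -/
def chk2 : Bool :=
  (List.range 23).all fun a => (List.range 23).all fun u => (a == 0) || ((u == 0) ||
    (decide (22 < a * u) ||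
    (((List.range (a * (1 + a * u) + a * u + 1)).all fun c => inner2 a u 0 c) &&
    ((List.range (1 + a * u + u + 1)).all fun e => (e == 0) ||
      ((List.range (1 + a * u + u + 1)).all fun c => inner2 a u e c)))))

/-! #### third case: `m3 ≤ 23 < m2` -/

/-- denominator of `c` -/
def D3 (a b y M3 : ℕ) : ℤ := a * (M3 - b * y) - y
/-- numerator of `c` -/
def N3 (a b y M3 w : ℕ) : ℤ := M3 - 1 + a * (y + b * M3 + b - a * w)
/-- value of `u` -/
def u3 (a b y M3 w : ℕ) (c : ℤ) : ℤ := c * (M3 - b * y) - y - b * M3 - b + a * w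

/-- check in the third case -/
def chk3 : Bool :=
  (List.range 24).all fun M3 => (List.range 23).all fun b => (List.range 23).all fun y =>
    (b == 0) || ((y == 0) || (decide (M3 ≤ b * y) || ((List.range (M3 + b + 1)).all fun a =>
      (a == 0) || (decide ((M3 + b * b) % (1 + a * b) ≠ 0) ||
        (decide (D3 a b y M3 ≤ 0) ||
        tst a b (N3 a b y M3 ((M3 + b * b) / (1 + a * b)) / D3 a b y M3).toNat
          (u3 a b y M3 ((M3 + b * b) / (1 + a * b))
            (N3 a b y M3 ((M3 + b * b) / (1 + a * b)) / D3 a b y M3)).toNat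
          ((M3 + b * b) / (1 + a * b)))))))

set_option maxRecDepth 100000 in
lemma chk1_true : chk1 = true := by decide +kernel

set_option maxRecDepth 100000 in
lemma chk2_true : chk2 = true := by decide +kernel

set_option maxRecDepth 100000 in
lemma chk3_true : chk3 = true := by decide +kernel

/-! #### soundness -/

lemma case1 {a b c u w M3 : ℕ} (hb : 1 ≤ b) (hc : 1 ≤ c) (hu : 1 ≤ u) (hw : 1 ≤ w)
    (hM : 2 ≤ M3) (q1 : M3 + b * b = w * (1 + a * b))
    (q2 : (1 + c * c) * M3 + a * c * w = 1 + 2 * b * c + a * u * (1 + b * c) + c * u)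
    (h23 : b * u + w ≤ 23) : tst a b c u w = true := by
  have hbZ : (1 : ℤ) ≤ b := by exact_mod_cast hb
  have hcZ : (1 : ℤ) ≤ c := by exact_mod_cast hc
  have huZ : (1 : ℤ) ≤ u := by exact_mod_cast hu
  have hwZ : (1 : ℤ) ≤ w := by exact_mod_cast hw
  have hMZ : (2 : ℤ) ≤ M3 := by exact_mod_cast hM
  have p1 : (M3 : ℤ) + b * b = w * (1 + a * b) := by exact_mod_cast q1
  have p2 : (1 + (c : ℤ) * c) * M3 + a * c * w = 1 + 2 * b * c + a * u * (1 + b * c) + c * u := by
    exact_mod_cast q2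
  have k1 : (a : ℤ) * D1 b c u w = N1 b c u w := by
    unfold D1 N1
    linear_combination p2 - (1 + (c : ℤ) * c) * p1
  have k2 : (M3 : ℤ) * D1 b c u w = w * b + c * w * (b * b + w) + u * (b * b * (1 + b * c) - w) := by
    have h1 : (M3 : ℤ) = w * b * a - (b * b - w) := by linarith
    rw [h1]
    have : ((w : ℤ) * b * a - (b * b - w)) * D1 b c u w
        = w * b * (a * D1 b c u w) - (b * b - w) * D1 b c u w := by ring
    rw [this, k1]
    unfold N1 D1
    ring
  have k3 : (c : ℤ) * (w * b) ≤ F1 b u w := by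
    have hF : ((F1 b u w : ℕ) : ℤ) = w * b + w * b * b + w * w + u * b * b + u * b * b * b + u + u * b := by
      unfold F1; push_cast; ring
    have hD : D1 b c u w = (1 + c * c) * w * b + c * w - u * (1 + b * c) := rfl
    have g1 : (0 : ℤ) ≤ w * b := by positivity
    have g2 : (0 : ℤ) ≤ u * b * b := by positivity
    have g3 : (0 : ℤ) ≤ u * b := by positivity
    have g4 : (0 : ℤ) ≤ w * w := by positivity
    have g5 : (0 : ℤ) ≤ w * b * b := by positivity
    have g6 : (0 : ℤ) ≤ u * b * b * b := by positivity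
    have m1 := mul_le_mul_of_nonneg_right hcZ g1
    have m2 := mul_le_mul_of_nonneg_right hcZ g2
    have m3 := mul_le_mul_of_nonneg_right hcZ (by linarith : (0 : ℤ) ≤ u)
    have m7 : (0 : ℤ) ≤ c * w := by positivity
    have m8 : (0 : ℤ) ≤ u * w := by positivity
    have m4 : (0 : ℤ) ≤ c * (w * b) := by positivity
    have m5 : (0 : ℤ) ≤ c * (w * b * b) := by positivity
    have m6 : (0 : ℤ) ≤ c * (w * w) := by positivity
    have m9 : (0 : ℤ) ≤ c * (u * b * b) := by positivity
    have m10 : (0 : ℤ) ≤ c * (u * b * b * b) := by positivity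
    have m11 : (0 : ℤ) ≤ c * (u * b) := by positivity
    have key : (c : ℤ) * (c * (w * b)) ≤ c * F1 b u w := by
      rw [hF]
      rcases le_or_gt (D1 b c u w) 0 with h0 | h0
      · rw [hD] at h0
        linarith
      · have h1 : 1 * D1 b c u w ≤ M3 * D1 b c u w :=
          mul_le_mul_of_nonneg_right (by linarith) h0.le
        rw [k2, one_mul] at h1
        rw [hD] at h1
        linarith
    exact le_of_mul_le_mul_left key (by linarith)
  have k4 : c ≤ F1 b u w / (w * b) := by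
    rw [Nat.le_div_iff_mul_le (by positivity)]
    exact_mod_cast k3
  have hb24 : b < 24 := by nlinarith
  have hu24 : u < 24 := by nlinarith
  have h := chk1_true
  unfold chk1 at h
  rw [List.all_eq_true] at h
  have g1 := h b (List.mem_range.2 hb24)
  rw [List.all_eq_true] at g1
  have g2 := g1 u (List.mem_range.2 hu24)
  rw [Bool.or_eq_true, Bool.or_eq_true, Bool.or_eq_true, beq_iff_eq, beq_iff_eq, decide_eq_true_eq,
    List.all_eq_true] at g2
  rcases g2 with g2 | g2 | g2 | g2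
  · omega
  · omega
  · omega
  have g3 := g2 w (List.mem_range.2 (by omega))
  rw [Bool.or_eq_true, beq_iff_eq, List.all_eq_true] at g3
  rcases g3 with g3 | g3
  · omega
  have g4 := g3 c (List.mem_range.2 (by omega))
  rw [Bool.or_eq_true, beq_iff_eq] at g4
  rcases g4 with g4 | g4
  · omega
  by_cases hD0 : D1 b c u w = 0
  · exfalso
    rw [if_pos hD0, decide_eq_true_eq] at g4
    apply g4
    rw [← k1, hD0, mul_zero]
  · rw [if_neg hD0, ← k1, Int.mul_ediv_cancel _ hD0, Int.toNat_natCast] at g4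
    exact g4

lemma case2 {a b c u w e M3 : ℕ} (ha : 1 ≤ a) (hb : 1 ≤ b) (hc : 1 ≤ c) (hu : 1 ≤ u)
    (he : e + b = a * w) (q1 : M3 + b * b = w * (1 + a * b))
    (q2 : (1 + c * c) * M3 + a * c * w = 1 + 2 * b * c + a * u * (1 + b * c) + c * u)
    (h22 : a * u ≤ 22) : tst a b c u w = true := by
  have haZ : (1 : ℤ) ≤ a := by exact_mod_cast ha
  have hbZ : (1 : ℤ) ≤ b := by exact_mod_cast hb
  have hcZ : (1 : ℤ) ≤ c := by exact_mod_cast hc
  have huZ : (1 : ℤ) ≤ u := by exact_mod_cast hu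
  have heZ : (0 : ℤ) ≤ e := by positivity
  have p0 : (e : ℤ) + b = a * w := by exact_mod_cast he
  have p1 : (M3 : ℤ) + b * b = w * (1 + a * b) := by exact_mod_cast q1
  have p2 : (1 + (c : ℤ) * c) * M3 + a * c * w = 1 + 2 * b * c + a * u * (1 + b * c) + c * u := by
    exact_mod_cast q2
  have p3 : (a : ℤ) * M3 = e * (1 + a * b) + b := by
    linear_combination (a : ℤ) * p1 - (1 + (a : ℤ) * b) * p0
  -- the positive form
  have k0 : (1 + (c : ℤ) * c) * (e * (1 + a * b)) + (1 + c * c) * b + a * c * e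
      = a * (1 + a * u) * (1 + b * c) + a * c * u := by
    linear_combination (a : ℤ) * p2 - (1 + (c : ℤ) * c) * p3 + (a : ℤ) * c * p0
  have k1 : (b : ℤ) * D2 a c e (1 + a * u) = N2 a c e u (1 + a * u) := by
    unfold D2 N2
    push_cast
    linear_combination k0
  -- the inner check
  have inner : inner2 a u e c = true → tst a b c u w = true := by
    intro g4
    unfold inner2 at g4
    rw [Bool.or_eq_true, beq_iff_eq] at g4
    rcases g4 with g4 | g4
    · omega
    by_cases hD0 : D2 a c e (1 + a * u) = 0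
    · exfalso
      rw [if_pos hD0, decide_eq_true_eq] at g4
      apply g4
      rw [← k1, hD0, mul_zero]
    · rw [if_neg hD0, ← k1, Int.mul_ediv_cancel _ hD0, Int.toNat_natCast, he,
        Nat.mul_div_cancel_left _ (by omega)] at g4
      exact g4
  apply inner
  have c1 : (0 : ℤ) ≤ a * c * e := by positivity
  have c2 : (0 : ℤ) ≤ (1 + c * c) * b := by positivity
  have c3 : (0 : ℤ) ≤ (1 + (c : ℤ) * c) * e := by positivity
  have ha23 : a < 23 := by nlinarith
  have hu23 : u < 23 := by nlinarith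
  -- bounds
  have bd0 : e = 0 → c ≤ a * (1 + a * u) + a * u := by
    intro he0
    by_contra hgt
    push Not at hgt
    have hgt' : (a : ℤ) * (1 + a * u) + a * u + 1 ≤ c := by exact_mod_cast hgt
    rw [he0] at k0
    push_cast at k0
    have h1 : (b : ℤ) * c * (a * (1 + a * u) + a * u + 1) ≤ b * c * c :=
      mul_le_mul_of_nonneg_left hgt' (by positivity)
    have h2 : (a : ℤ) * c * u ≤ b * c * (a * u) := by
      have h5 : (0 : ℤ) ≤ a * c * u := by positivity
      have h6 := mul_le_mul_of_nonneg_right hbZ h5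
      linarith
    have h3 : (c : ℤ) ≤ b * c := by
      have h6 := mul_le_mul_of_nonneg_right hbZ (by linarith : (0 : ℤ) ≤ c)
      linarith
    have h4 : (0 : ℤ) ≤ a * u := by positivity
    linarith
  have bd1 : 1 ≤ e → c ≤ 1 + a * u + u ∧ e ≤ 1 + a * u + u := by
    intro he1
    have he1Z : (1 : ℤ) ≤ e := by exact_mod_cast he1
    have h0 : (a : ℤ) * ((1 + c * c) * e * b) ≤ a * ((1 + a * u) * (1 + b * c) + c * u) := by
      linarith
    have h1 : (1 + (c : ℤ) * c) * e * b ≤ (1 + a * u) * (1 + b * c) + c * u :=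
      le_of_mul_le_mul_left h0 (by linarith)
    constructor
    · by_contra hgt
      push Not at hgt
      have hgt' : 1 + (a : ℤ) * u + u + 1 ≤ c := by exact_mod_cast hgt
      have h2 : (b : ℤ) * c * (1 + a * u + u + 1) ≤ b * c * c :=
        mul_le_mul_of_nonneg_left hgt' (by positivity)
      have h3 : (b : ℤ) * c * c ≤ (1 + c * c) * e * b := by
        have : (0 : ℤ) ≤ b * c * c := by positivity
        have h5 : (b : ℤ) * c * c * 1 ≤ b * c * c * e := mul_le_mul_of_nonneg_left he1Z this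
        have h6 : (0 : ℤ) ≤ e * b := by positivity
        linarith
      have h4 : (c : ℤ) * u ≤ b * c * u := by
        have h5 : (0 : ℤ) ≤ c * u := by positivity
        have h6 := mul_le_mul_of_nonneg_right hbZ h5
        linarith
      have h5 : (c : ℤ) ≤ b * c := by
        have h6 := mul_le_mul_of_nonneg_right hbZ (by linarith : (0 : ℤ) ≤ c)
        linarith
      linarith
    · by_contra hgt
      push Not at hgt
      have hgt' : 1 + (a : ℤ) * u + u + 1 ≤ e := by exact_mod_cast hgt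
      have h2 : (1 + (c : ℤ) * c) * b * (1 + a * u + u + 1) ≤ (1 + c * c) * b * e :=
        mul_le_mul_of_nonneg_left hgt' c2
      have h7 : (c : ℤ) ≤ c * c := by nlinarith
      have h8 := mul_le_mul_of_nonneg_left h7 (by linarith : (0 : ℤ) ≤ b)
      have h3 : 1 + (b : ℤ) * c ≤ (1 + c * c) * b := by linarith
      have h9 := mul_le_mul_of_nonneg_right hbZ (by linarith : (0 : ℤ) ≤ c)
      have h4 : (c : ℤ) ≤ (1 + c * c) * b := by linarith
      have h5 : (1 + (a : ℤ) * u) * (1 + b * c) ≤ (1 + a * u) * ((1 + c * c) * b) :=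
        mul_le_mul_of_nonneg_left h3 (by positivity)
      have h6 : (c : ℤ) * u ≤ (1 + c * c) * b * u := mul_le_mul_of_nonneg_right h4 (by linarith)
      have h10 : (0 : ℤ) < (1 + c * c) * b := by positivity
      linarith
  have h := chk2_true
  unfold chk2 at h
  rw [List.all_eq_true] at h
  have g1 := h a (List.mem_range.2 ha23)
  rw [List.all_eq_true] at g1
  have g2 := g1 u (List.mem_range.2 hu23)
  rw [Bool.or_eq_true, Bool.or_eq_true, Bool.or_eq_true, beq_iff_eq, beq_iff_eq, decide_eq_true_eq,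
    Bool.and_eq_true, List.all_eq_true, List.all_eq_true] at g2
  rcases g2 with g2 | g2 | g2 | ⟨g2, g3⟩
  · omega
  · omega
  · omega
  rcases Nat.eq_zero_or_pos e with he0 | he1
  · have := g2 c (List.mem_range.2 (by have := bd0 he0; omega))
    rw [he0]
    exact this
  · obtain ⟨b1, b2⟩ := bd1 he1
    have g4 := g3 e (List.mem_range.2 (by omega))
    rw [Bool.or_eq_true, beq_iff_eq, List.all_eq_true] at g4
    rcases g4 with g4 | g4
    · omega
    exact g4 c (List.mem_range.2 (by omega))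

lemma case3 {a b c u w M3 : ℕ} (ha : 1 ≤ a) (hb : 1 ≤ b) (hc : 1 ≤ c)
    (hw : 1 ≤ w) (hM : 2 ≤ M3) (q1 : M3 + b * b = w * (1 + a * b))
    (q2 : (1 + c * c) * M3 + a * c * w = 1 + 2 * b * c + a * u * (1 + b * c) + c * u)
    (h23 : M3 ≤ 23) (hlt : M3 < 1 + a * u) : tst a b c u w = true := by
  have haZ : (1 : ℤ) ≤ a := by exact_mod_cast ha
  have hbZ : (1 : ℤ) ≤ b := by exact_mod_cast hb
  have hcZ : (1 : ℤ) ≤ c := by exact_mod_cast hc
  have hwZ : (1 : ℤ) ≤ w := by exact_mod_cast hw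
  have hMZ : (2 : ℤ) ≤ M3 := by exact_mod_cast hM
  have hltZ : (M3 : ℤ) < 1 + a * u := by exact_mod_cast hlt
  have p1 : (M3 : ℤ) + b * b = w * (1 + a * b) := by exact_mod_cast q1
  have p2 : (1 + (c : ℤ) * c) * M3 + a * c * w = 1 + 2 * b * c + a * u * (1 + b * c) + c * u := by
    exact_mod_cast q2
  obtain ⟨Y, hY⟩ : ∃ Y : ℤ, Y = c * M3 + a * w - 2 * b - a * b * u - u := ⟨_, rfl⟩
  have hcY : (c : ℤ) * Y = 1 + a * u - M3 := by rw [hY]; linear_combination p2
  have hY1 : 1 ≤ Y := by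
    have h1 : 0 < (c : ℤ) * Y := by rw [hcY]; linarith
    have := (mul_pos_iff_of_pos_left (by linarith : (0 : ℤ) < c)).1 h1
    linarith
  obtain ⟨y, hy⟩ := Int.eq_ofNat_of_zero_le (by linarith : 0 ≤ Y)
  rw [hy] at hY hcY hY1
  have hu : (u : ℤ) = u3 a b y M3 w c := by
    unfold u3
    linear_combination hY + (b : ℤ) * hcY
  have k1 : (c : ℤ) * D3 a b y M3 = N3 a b y M3 w := by
    unfold D3 N3
    have h1 : (a : ℤ) * u = a * u3 a b y M3 w c := by rw [← hu]
    unfold u3 at h1
    linear_combination (-1) * hcY - h1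
  have k2 : 0 < N3 a b y M3 w := by
    have h1 : N3 a b y M3 w * (1 + a * b) = M3 * ((1 + a * b) ^ 2 - a ^ 2) + a * y * (1 + a * b) - 1 := by
      unfold N3
      linear_combination (a : ℤ) ^ 2 * p1
    have h2 : (a : ℤ) + 1 ≤ 1 + a * b := by nlinarith
    have h3 : (1 : ℤ) ≤ (1 + a * b) ^ 2 - a ^ 2 := by nlinarith
    have h4 : (0 : ℤ) < a * y * (1 + a * b) := by positivity
    have h5 : (0 : ℤ) < N3 a b y M3 w * (1 + a * b) := by rw [h1]; nlinarith
    exact (mul_pos_iff_of_pos_right (by positivity)).1 h5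
  have k3 : 0 < D3 a b y M3 := by
    have h1 : 0 < (c : ℤ) * D3 a b y M3 := by rw [k1]; exact k2
    exact (mul_pos_iff_of_pos_left (by linarith : (0 : ℤ) < c)).1 h1
  have k4 : b * y < M3 := by
    have h1 : 0 < (a : ℤ) * (M3 - b * y) := by
      have : D3 a b y M3 = a * (M3 - b * y) - y := rfl
      rw [this] at k3
      linarith
    have := (mul_pos_iff_of_pos_left (by linarith : (0 : ℤ) < a)).1 h1
    have h2 : (b : ℤ) * y < M3 := by linarith
    exact_mod_cast h2
  have hy1 : 1 ≤ y := by exact_mod_cast hY1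
  have hb23 : b < 23 := by
    have h1 : b * 1 ≤ b * y := Nat.mul_le_mul_left b hy1
    omega
  have hy23 : y < 23 := by
    have h1 : 1 * y ≤ b * y := Nat.mul_le_mul_right y hb
    omega
  have k5 : a < M3 + b + 1 := by
    have h0 : (0 : ℤ) ≤ 1 + a * b := by positivity
    have h4 := mul_le_mul_of_nonneg_right hwZ h0
    have h1 : (1 + (a : ℤ) * b) ≤ M3 + b * b := by rw [p1]; linarith only [h4]
    have h6 : (0 : ℤ) ≤ M3 := by linarith only [hMZ]
    have h5 := mul_le_mul_of_nonneg_right hbZ h6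
    have h2 : (b : ℤ) * a ≤ b * (M3 + b) := by linarith only [h1, h5]
    have h7 : (0 : ℤ) < b := by linarith only [hbZ]
    have h3 : (a : ℤ) ≤ M3 + b := le_of_mul_le_mul_left h2 h7
    omega
  have hpos : 0 < 1 + a * b := by positivity
  have hq : (M3 + b * b) / (1 + a * b) = w := by rw [q1, Nat.mul_div_cancel _ hpos]
  have hq0 : (M3 + b * b) % (1 + a * b) = 0 := by rw [q1, Nat.mul_mod_left]
  have h := chk3_true
  unfold chk3 at h
  rw [List.all_eq_true] at h
  have g1 := h M3 (List.mem_range.2 (by omega))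
  rw [List.all_eq_true] at g1
  have g2 := g1 b (List.mem_range.2 hb23)
  rw [List.all_eq_true] at g2
  have g3 := g2 y (List.mem_range.2 hy23)
  rw [Bool.or_eq_true, Bool.or_eq_true, Bool.or_eq_true, beq_iff_eq, beq_iff_eq, decide_eq_true_eq,
    List.all_eq_true] at g3
  rcases g3 with g3 | g3 | g3 | g3
  · omega
  · omega
  · omega
  have g4 := g3 a (List.mem_range.2 k5)
  rw [Bool.or_eq_true, Bool.or_eq_true, Bool.or_eq_true, beq_iff_eq, decide_eq_true_eq,
    decide_eq_true_eq, hq, hq0] at g4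
  rcases g4 with g4 | g4 | g4 | g4
  · omega
  · exact absurd rfl g4
  · exact absurd g4 (by linarith)
  rw [← k1, Int.mul_ediv_cancel _ k3.ne', ← hu, Int.toNat_natCast, Int.toNat_natCast] at g4
  exact g4

/-- small cases -/
theorem small (h : E7.Par a b c B m m2 m3)
    [IsDomain (QuadraticAlgebra ℤ m (B : ℤ))]
    [UniqueFactorizationMonoid (QuadraticAlgebra ℤ m (B : ℤ))] (hmin : m ≤ 23 ∨ m2 ≤ 23 ∨ m3 ≤ 23) :
    (∃ d ∈ l17, (d : ℤ) = (B : ℤ) ^ 2 + 4 * m) ∨
      ∃ u w : ℕ, (a, b, c, u, w) ∈ ext ∧ m = (b * u + w : ℕ) ∧ m2 = (1 + a * u : ℕ) ∧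
        m3 = w * (1 + a * b) - b * b ∧ B = u + a * (b * u + w) := by
  obtain ⟨u, w, e, M3, hu, hw, hM, he, hm, hm2, hm3, hB, q1, q2⟩ := params h
  have hq : (M3 : ℤ) + b * b = w * (1 + a * b) := by exact_mod_cast q1
  have key : tst a b c u w = true → (∃ d ∈ l17, (d : ℤ) = (B : ℤ) ^ 2 + 4 * m) ∨
      ∃ u w : ℕ, (a, b, c, u, w) ∈ ext ∧ m = (b * u + w : ℕ) ∧ m2 = (1 + a * u : ℕ) ∧
        m3 = w * (1 + a * b) - b * b ∧ B = u + a * (b * u + w) := by
    intro ht
    rcases tst_sound ht h hu hM hm hm2 hm3 hB q1 q2 with h1 | h1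
    · exact Or.inl h1
    · exact Or.inr ⟨u, w, h1, hm, hm2, by rw [hm3]; linarith, hB⟩
  apply key
  by_cases h2 : m2 ≤ 23
  · apply case2 h.ha h.hb h.hc hu he q1 q2
    rw [hm2] at h2
    have : 1 + a * u ≤ 23 := by exact_mod_cast h2
    omega
  · rcases hmin with h1 | h1 | h1
    · apply case1 h.hb h.hc hu hw hM q1 q2
      rw [hm] at h1
      exact_mod_cast h1
    · exact absurd h1 h2
    · apply case3 h.ha h.hb h.hc hw hM q1 q2
      · rw [hm3] at h1
        exact_mod_cast h1
      · rw [hm2] at h2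
        rw [hm3] at h1
        have h3 : M3 ≤ 23 := by exact_mod_cast h1
        have h4 : ¬ (1 + a * u ≤ 23) := by exact_mod_cast h2
        omega

/-! ### The further fields -/

/-- check that a prime is not represented on an edge -/
def chkK (a b c B : ℕ) (m m2 m3 : ℤ) (p : ℕ) : Bool :=
  (List.range 7).all fun k => (List.range (p + 1)).all fun x => (decide (p < x * x)) ||
    ((List.range (p + 1)).all fun y =>
      decide (¬ (y < E7.C a b c B k * x ∧
        E7.P m m2 m3 k * (x : ℤ) ^ 2 + E7.R a b c B m m2 m3 k * x * y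
          - E7.S m m2 m3 k * (y : ℤ) ^ 2 = p)))

lemma kill (p : ℕ) (hp : p.Prime) (x : ℤ)
    (hx : (p : ℤ) ∣ x ^ 2 + B * x - m) (hchk : chkK a b c B m m2 m3 p = true)
    (h : E7.Par a b c B m m2 m3)
    [IsDomain (QuadraticAlgebra ℤ m (B : ℤ))]
    [UniqueFactorizationMonoid (QuadraticAlgebra ℤ m (B : ℤ))] : False := by
  have hm0 : (0 : ℤ) < m := by have := h.hm; omega
  obtain ⟨π, hπ⟩ := exists_norm_of_root hp hx
  obtain ⟨k, hk, X, Y, hX, hY, he⟩ := P5.odd_repr hm0 (E7.cyc h) π p hp.ne_zero hπ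
  have hC := (E7.cyc h).toCycM
  have hX' : (1 : ℤ) ≤ X := by exact_mod_cast hX
  have hY' : (Y : ℤ) < E7.C a b c B k * X := by exact_mod_cast hY
  have hY0 : (0 : ℤ) ≤ Y := by positivity
  have hf := form_pos (hC.cpos k (by omega)) (hC.toCyc.Ppos (by omega)) (hC.Spos k (by omega))
    (hAend hC k (by omega)) hY0 hY'.le
  rw [he] at hf
  have hS := hC.Spos k (by omega)
  have h0 : 0 ≤ E7.S m m2 m3 k * ((Y : ℤ) * (E7.C a b c B k * X - Y)) :=
    mul_nonneg hS.le (mul_nonneg hY0 (by linarith))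
  have hXp : X * X ≤ p := by
    have : (X : ℤ) * X ≤ p := by nlinarith
    exact_mod_cast this
  have hYp : Y ≤ p := by
    have h1 : (Y : ℤ) ≤ (Y : ℤ) * (E7.C a b c B k * X - Y) := by nlinarith
    have h2 : (Y : ℤ) * (E7.C a b c B k * X - Y)
        ≤ E7.S m m2 m3 k * ((Y : ℤ) * (E7.C a b c B k * X - Y)) := by
      have h3 : 0 ≤ (Y : ℤ) * (E7.C a b c B k * X - Y) := mul_nonneg hY0 (by linarith)
      nlinarith
    have : (Y : ℤ) ≤ p := by nlinarith
    exact_mod_cast this
  unfold chkK at hchk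
  rw [List.all_eq_true] at hchk
  have g1 := hchk k (List.mem_range.2 (by omega))
  rw [List.all_eq_true] at g1
  have g2 := g1 X (List.mem_range.2 (by nlinarith))
  rw [Bool.or_eq_true, decide_eq_true_eq, List.all_eq_true] at g2
  rcases g2 with g2 | g2
  · omega
  have g3 := g2 Y (List.mem_range.2 (by omega))
  rw [decide_eq_true_eq] at g3
  exact g3 ⟨hY, he⟩

/-- **small cases for period seven** -/
theorem small_cases (h : E7.Par a b c B m m2 m3)
    [IsDomain (QuadraticAlgebra ℤ m (B : ℤ))]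
    [UniqueFactorizationMonoid (QuadraticAlgebra ℤ m (B : ℤ))] :
    (∃ d ∈ l17, (d : ℤ) = (B : ℤ) ^ 2 + 4 * m) ∨
      (B % 2 = 1 ∧ m % 2 = 1 ∧ 23 < m ∧ 23 < m2 ∧ 23 < m3) := by
  by_cases hmin : m ≤ 23 ∨ m2 ≤ 23 ∨ m3 ≤ 23
  · left
    rcases small h hmin with h1 | ⟨u, w, h1, hm, hm2, hm3, hB⟩
    · exact h1
    · exfalso
      simp only [ext, List.mem_cons, List.not_mem_nil, or_false, Prod.mk.injEq] at h1
      rcases h1 with ⟨rfl, rfl, rfl, rfl, rfl⟩ | ⟨rfl, rfl, rfl, rfl, rfl⟩ | ⟨rfl, rfl, rfl, rfl, rfl⟩ |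
        ⟨rfl, rfl, rfl, rfl, rfl⟩ | ⟨rfl, rfl, rfl, rfl, rfl⟩ | ⟨rfl, rfl, rfl, rfl, rfl⟩ |
        ⟨rfl, rfl, rfl, rfl, rfl⟩ | ⟨rfl, rfl, rfl, rfl, rfl⟩ | ⟨rfl, rfl, rfl, rfl, rfl⟩ |
        ⟨rfl, rfl, rfl, rfl, rfl⟩ | ⟨rfl, rfl, rfl, rfl, rfl⟩ | ⟨rfl, rfl, rfl, rfl, rfl⟩ |
        ⟨rfl, rfl, rfl, rfl, rfl⟩ | ⟨rfl, rfl, rfl, rfl, rfl⟩ | ⟨rfl, rfl, rfl, rfl, rfl⟩ |
        ⟨rfl, rfl, rfl, rfl, rfl⟩ | ⟨rfl, rfl, rfl, rfl, rfl⟩ | ⟨rfl, rfl, rfl, rfl, rfl⟩ |
        ⟨rfl, rfl, rfl, rfl, rfl⟩ | ⟨rfl, rfl, rfl, rfl, rfl⟩ | ⟨rfl, rfl, rfl, rfl, rfl⟩ |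
        ⟨rfl, rfl, rfl, rfl, rfl⟩
      all_goals norm_num at hm hm2 hm3 hB
      all_goals subst hm hm2 hm3 hB
      · exact kill 19 (by norm_num) 8 (by norm_num) (by decide +kernel) h
      · exact kill 19 (by norm_num) 7 (by norm_num) (by decide +kernel) h
      · exact kill 5 (by norm_num) 2 (by norm_num) (by decide +kernel) h
      · exact kill 11 (by norm_num) 4 (by norm_num) (by decide +kernel) h
      · exact kill 17 (by norm_num) 10 (by norm_num) (by decide +kernel) h
      · exact kill 7 (by norm_num) 1 (by norm_num) (by decide +kernel) h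
      · exact kill 7 (by norm_num) 3 (by norm_num) (by decide +kernel) h
      · exact kill 17 (by norm_num) 10 (by norm_num) (by decide +kernel) h
      · exact kill 5 (by norm_num) 2 (by norm_num) (by decide +kernel) h
      · exact kill 13 (by norm_num) 1 (by norm_num) (by decide +kernel) h
      · exact kill 13 (by norm_num) 1 (by norm_num) (by decide +kernel) h
      · exact kill 11 (by norm_num) 7 (by norm_num) (by decide +kernel) h
      · exact kill 11 (by norm_num) 8 (by norm_num) (by decide +kernel) h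
      · exact kill 13 (by norm_num) 3 (by norm_num) (by decide +kernel) h
      · exact kill 11 (by norm_num) 4 (by norm_num) (by decide +kernel) h
      · exact kill 11 (by norm_num) 2 (by norm_num) (by decide +kernel) h
      · exact kill 13 (by norm_num) 4 (by norm_num) (by decide +kernel) h
      · exact kill 23 (by norm_num) 3 (by norm_num) (by decide +kernel) h
      · exact kill 17 (by norm_num) 14 (by norm_num) (by decide +kernel) h
      · exact kill 7 (by norm_num) 5 (by norm_num) (by decide +kernel) h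
      · exact kill 17 (by norm_num) 6 (by norm_num) (by decide +kernel) h
      · exact kill 13 (by norm_num) 6 (by norm_num) (by decide +kernel) h
  · right
    push Not at hmin
    obtain ⟨h1, h2, h3⟩ := hmin
    have r0 := E7.no_root h Nat.prime_two (by push_cast; linarith) (by push_cast; linarith)
      (by push_cast; linarith) 0
    have r1 := E7.no_root h Nat.prime_two (by push_cast; linarith) (by push_cast; linarith)
      (by push_cast; linarith) 1
    push_cast at r0 r1
    refine ⟨?_, ?_, h1, h2, h3⟩ <;> omega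

end Pool.Agent.LibH4.P7
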