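import Pool.Agent.Lib_helper4.FinalT
import Pool.Agent.Lib_helper5.TFive

/-!
The period three theorem without hypotheses.
-/

namespace Pool.Agent.LibH4

open scoped NumberField
open Finset T6 Pool.Agent.Lib_helper5

lemma bI_eq (q l r : ℕ) : ((bZ q r : ℤ) : ZMod l) = bI q l r := by
  unfold bZ bI
  split_ifs <;> push_cast <;> ring

lemma b2I_eq (q l s : ℕ) : ((b2Z q s : ℤ) : ZMod l) = b2I q l s := by
  unfold b2Z b2I
  push_cast
  ring

/-- all the relations of the analytic part hold under unique factorisation -/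
theorem t5all (a t d : ℕ) (ha : 1 ≤ a) (ht : 1 ≤ t)
    (hd : d = ((a ^ 2 + 1) * t + a) ^ 2 + 4 * (1 + a * t)) (h8 : d % 8 = 5)
    [IsDomain (QuadraticAlgebra ℤ ((1 + a * t : ℕ) : ℤ) (((a ^ 2 + 1) * t + a : ℕ) : ℤ))]
    [UniqueFactorizationMonoid
      (QuadraticAlgebra ℤ ((1 + a * t : ℕ) : ℤ) (((a ^ 2 + 1) * t + a : ℕ) : ℤ))] :
    T5All a t d := by
  intro q l hq hl hco hlqd chi hodd hmul hsum
  have : Fact l.Prime := ⟨hl⟩
  have h6 : ¬ l ∣ 6 := fun h => hlqd (Dvd.dvd.mul_right (Dvd.dvd.mul_right h q) d)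
  have hld : ¬ l ∣ d := fun h => hlqd (Dvd.dvd.mul_left h (6 * q))
  have key := T5 a t d ha ht hd h8 q l hq hco h6 hld chi hodd hmul hsum
    ((1 + a * t : ℕ) : ℤ) ((((a ^ 2 + 1) * t + a : ℕ)) : ℤ) (by push_cast; ring) (by push_cast; ring)
  unfold T5Eq
  rw [← key]
  congr 1
  · congr 1
    · refine Finset.sum_congr rfl fun r _ => Finset.sum_congr rfl fun s _ => ?_
      rw [bI_eq, bI_eq, b2I_eq, one_mul, mul_assoc 6]
      push_cast
      rfl
    · refine Finset.sum_congr rfl fun r _ => Finset.sum_congr rfl fun s _ => ?_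
      rw [bI_eq, bI_eq, mul_assoc 3]
  · refine Finset.sum_congr rfl fun r _ => Finset.sum_congr rfl fun s _ => ?_
    rw [b2I_eq]
    congr 3
    ring

/-- **the period three theorem** -/
theorem periodThree (a t d : ℕ) (ha : 1 ≤ a) (ht : 1 ≤ t)
    (hd : d = ((a ^ 2 + 1) * t + a) ^ 2 + 4 * (1 + a * t)) (hsq : Squarefree d) :
    UniqueFactorizationMonoid (𝓞 (KQ d)) ↔ d ∈ discs :=
  finalT (fun a t d ha ht hd _ h8 _ _ => t5all a t d ha ht hd h8) a t d ha ht hd hsq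

end Pool.Agent.LibH4
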