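import Mathlib

/-!
Sums over pairs of residues modulo `n` of functions vanishing on non primitive pairs,
organised by the projective line over `ZMod n`.
-/

namespace Pool.Agent.LibH4

open Finset

/-- `L` is a list of representatives of the projective line over `ZMod n` -/
def IsP1 (n : ℕ) [NeZero n] (L : List (ℕ × ℕ)) : Prop :=
  ∀ (K : Type) [CommRing K] (F : ZMod n → ZMod n → K), (∀ x y, ¬ IsCoprime x y → F x y = 0) →
    ∑ x, ∑ y, F x y =
      (L.map fun P => ∑ u : (ZMod n)ˣ, F (u * (P.1 : ZMod n)) (u * (P.2 : ZMod n))).sum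

/-- the standard list for a prime power -/
def p1List (p n : ℕ) : List (ℕ × ℕ) :=
  (List.range n).map (fun y => (1, y)) ++ (List.range (n / p)).map (fun j => (p * j, 1))

lemma sum_units_eq {R K : Type} [CommRing R] [Fintype R] [DecidableEq R] [AddCommMonoid K]
    (g : R → K) (h : ∀ x, ¬ IsUnit x → g x = 0) : ∑ u : Rˣ, g u = ∑ x, g x := by
  apply Fintype.sum_of_injective (fun u : Rˣ => (u : R)) Units.val_injective
  · intro x hx
    apply h
    rintro ⟨u, rfl⟩
    exact hx ⟨u, rfl⟩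
  · intro u; rfl

lemma sum_range_cast {n : ℕ} [NeZero n] {K : Type} [AddCommMonoid K] (g : ZMod n → K) :
    ∑ x : ZMod n, g x = ((List.range n).map (fun y : ℕ => g (y : ZMod n))).sum := by
  rw [← List.sum_toFinset _ List.nodup_range, List.toFinset_range]
  symm
  refine Finset.sum_nbij' (fun r : ℕ => (r : ZMod n)) (fun z => z.val) ?_ ?_ ?_ ?_ ?_
  · intro r _; exact mem_univ _
  · intro z _; exact mem_range.mpr (ZMod.val_lt z)
  · intro r hr; exact ZMod.val_cast_of_lt (mem_range.mp hr)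
  · intro z _; exact ZMod.natCast_zmod_val z
  · intro r _; rfl

lemma sum_list_comm {ι α K : Type} [AddCommMonoid K] (s : Finset ι) (L : List α) (f : ι → α → K) :
    ∑ u ∈ s, (L.map (f u)).sum = (L.map fun x => ∑ u ∈ s, f u x).sum := by
  induction L with
  | nil => simp
  | cons x xs ih => simp [Finset.sum_add_distrib, ih]

lemma isP1_prime_pow {p k : ℕ} (hp : p.Prime) (hk : 0 < k) [NeZero (p ^ k)] :
    IsP1 (p ^ k) (p1List p (p ^ k)) := by
  intro K _ F hF
  classical
  have hunit : ∀ x : ZMod (p ^ k), IsUnit x ↔ ¬ p ∣ x.val := by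
    intro x
    conv_lhs => rw [← ZMod.natCast_zmod_val x]
    exact ZMod.isUnit_natCast_iff_not_dvd_pow hp hk
  have hnc : ∀ x y : ZMod (p ^ k), ¬ IsUnit x → ¬ IsUnit y → ¬ IsCoprime x y := by
    rintro x y hx hy ⟨a, b, hab⟩
    rw [hunit, not_not] at hx hy
    obtain ⟨x', hx'⟩ := hx
    obtain ⟨y', hy'⟩ := hy
    have ex : x = (p : ZMod (p ^ k)) * x' := by
      rw [← ZMod.natCast_zmod_val x, hx']; push_cast; ring
    have ey : y = (p : ZMod (p ^ k)) * y' := by
      rw [← ZMod.natCast_zmod_val y, hy']; push_cast; ring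
    apply ZMod.prime_natCast_not_isUnit_pow hp hk
    apply IsUnit.of_mul_eq_one (a * x' + b * y')
    rw [← hab, ex, ey]; ring
  -- split the sum
  have h1 : ∑ x : ZMod (p ^ k), ∑ y, F x y =
      ∑ x : ZMod (p ^ k), (if IsUnit x then ∑ y, F x y else 0) +
      ∑ x : ZMod (p ^ k), (if IsUnit x then 0 else ∑ y, F x y) := by
    rw [← Finset.sum_add_distrib]
    apply Finset.sum_congr rfl
    intro x _
    split_ifs <;> simp
  have h2 : ∑ x : ZMod (p ^ k), (if IsUnit x then ∑ y, F x y else 0) =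
      ∑ u : (ZMod (p ^ k))ˣ, ∑ y, F u (u * y) := by
    rw [← sum_units_eq]
    · apply Finset.sum_congr rfl
      intro u _
      rw [if_pos u.isUnit]
      exact (Equiv.sum_comp (Units.mulLeft u) (fun y => F u y)).symm
    · intro x hx
      rw [if_neg hx]
  have h3 : ∑ x : ZMod (p ^ k), (if IsUnit x then 0 else ∑ y, F x y) =
      ∑ u : (ZMod (p ^ k))ˣ, ∑ x : ZMod (p ^ k), (if IsUnit x then 0 else F (u * x) u) := by
    have : ∀ x : ZMod (p ^ k), (if IsUnit x then 0 else ∑ y, F x y) =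
        ∑ u : (ZMod (p ^ k))ˣ, (if IsUnit x then 0 else F x u) := by
      intro x
      split_ifs with hx
      · simp
      · rw [sum_units_eq (fun y => F x y)]
        intro y hy
        exact hF x y (hnc x y hx hy)
    rw [Finset.sum_congr rfl (fun x _ => this x), Finset.sum_comm]
    apply Finset.sum_congr rfl
    intro u _
    rw [← Equiv.sum_comp (Units.mulLeft u)]
    apply Finset.sum_congr rfl
    intro x _
    have : IsUnit ((Units.mulLeft u) x) ↔ IsUnit x := by
      simp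
    simp only [this]
    rfl
  -- the list
  have h4 : ∀ u : (ZMod (p ^ k))ˣ, ∑ y : ZMod (p ^ k), F u (u * y) =
      ((List.range (p ^ k)).map (fun y : ℕ => F (u * ((1 : ℕ) : ZMod (p ^ k))) (u * (y : ZMod (p ^ k))))).sum := by
    intro u
    rw [sum_range_cast]
    simp
  have hpk : p * (p ^ k / p) = p ^ k := Nat.mul_div_cancel' (dvd_pow_self p hk.ne')
  have h5 : ∀ u : (ZMod (p ^ k))ˣ, ∑ x : ZMod (p ^ k), (if IsUnit x then 0 else F (u * x) u) =
      ((List.range (p ^ k / p)).map (fun j : ℕ => F (u * ((p * j : ℕ) : ZMod (p ^ k)))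
        (u * ((1 : ℕ) : ZMod (p ^ k))))).sum := by
    intro u
    have e1 : ((List.range (p ^ k / p)).map (fun j : ℕ => F (u * ((p * j : ℕ) : ZMod (p ^ k)))
        (u * ((1 : ℕ) : ZMod (p ^ k))))).sum =
        ∑ j ∈ range (p ^ k / p), F (u * ((p * j : ℕ) : ZMod (p ^ k))) u := by
      rw [← List.toFinset_range, List.sum_toFinset _ List.nodup_range]
      simp
    rw [e1]
    symm
    apply Finset.sum_of_injOn (fun j : ℕ => ((p * j : ℕ) : ZMod (p ^ k)))
    · intro i hi j hj hij
      rw [mem_coe, mem_range] at hi hj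
      have hi' : p * i < p ^ k := by
        calc p * i < p * (p ^ k / p) := Nat.mul_lt_mul_of_pos_left hi hp.pos
          _ = p ^ k := hpk
      have hj' : p * j < p ^ k := by
        calc p * j < p * (p ^ k / p) := Nat.mul_lt_mul_of_pos_left hj hp.pos
          _ = p ^ k := hpk
      have := congrArg ZMod.val hij
      simp only at this
      rw [ZMod.val_cast_of_lt hi', ZMod.val_cast_of_lt hj'] at this
      exact Nat.eq_of_mul_eq_mul_left hp.pos this
    · intro j _; exact Finset.mem_coe.mpr (mem_univ _)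
    · intro x _ hx
      rw [if_pos]
      by_contra hnu
      apply hx
      rw [hunit, not_not] at hnu
      obtain ⟨j, hj⟩ := hnu
      refine ⟨j, ?_, ?_⟩
      · rw [mem_coe, mem_range]
        have := ZMod.val_lt x
        rw [hj] at this
        rw [← hpk] at this
        exact Nat.lt_of_mul_lt_mul_left this
      · simp only
        rw [← hj, ZMod.natCast_zmod_val]
    · intro j _
      rw [if_neg]
      rw [ZMod.isUnit_natCast_iff_not_dvd_pow hp hk, not_not]
      exact dvd_mul_right p j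
  rw [h1, h2, h3, Finset.sum_congr rfl (fun u _ => h4 u), Finset.sum_congr rfl (fun u _ => h5 u)]
  unfold p1List
  rw [List.map_append, List.sum_append, List.map_map, List.map_map]
  congr 1
  · rw [sum_list_comm]
    rfl
  · rw [sum_list_comm]
    rfl

lemma list_sum_flatMap {α β K : Type} [AddCommMonoid K] (L : List α) (f : α → List β) (g : β → K) :
    ((L.flatMap f).map g).sum = (L.map fun x => ((f x).map g).sum).sum := by
  induction L with
  | nil => simp
  | cons x xs ih => simp [List.flatMap_cons, ih]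

/-- the product of two lists of representatives, by the Chinese remainder theorem with
idempotents `e1`, `e2` -/
def crtList (e1 e2 : ℕ) (L1 L2 : List (ℕ × ℕ)) : List (ℕ × ℕ) :=
  L1.flatMap fun P => L2.map fun Q => (P.1 * e1 + Q.1 * e2, P.2 * e1 + Q.2 * e2)

lemma isP1_mul {n1 n2 : ℕ} [NeZero n1] [NeZero n2] [NeZero (n1 * n2)] (hco : n1.Coprime n2)
    {e1 e2 : ℕ} (h11 : (e1 : ZMod n1) = 1) (h12 : (e1 : ZMod n2) = 0)
    (h21 : (e2 : ZMod n1) = 0) (h22 : (e2 : ZMod n2) = 1) {L1 L2 : List (ℕ × ℕ)}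
    (H1 : IsP1 n1 L1) (H2 : IsP1 n2 L2) : IsP1 (n1 * n2) (crtList e1 e2 L1 L2) := by
  intro K _ F hF
  set e := ZMod.chineseRemainder hco with he
  have hfst : ∀ x : ℕ, (e x).1 = (x : ZMod n1) := by intro x; simp [he]
  have hsnd : ∀ x : ℕ, (e x).2 = (x : ZMod n2) := by intro x; simp [he]
  -- expand
  have hexp : ∀ g : ZMod (n1 * n2) → K, ∑ x, g x = ∑ x1 : ZMod n1, ∑ x2 : ZMod n2,
      g (e.symm (x1, x2)) := by
    intro g
    rw [← Fintype.sum_prod_type' (fun x1 x2 => g (e.symm (x1, x2)))]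
    exact (Equiv.sum_comp e.symm.toEquiv g).symm
  have h1 : ∑ x, ∑ y, F x y = ∑ x1 : ZMod n1, ∑ y1 : ZMod n1, ∑ x2 : ZMod n2, ∑ y2 : ZMod n2,
      F (e.symm (x1, x2)) (e.symm (y1, y2)) := by
    rw [hexp]
    apply Finset.sum_congr rfl
    intro x1 _
    rw [Finset.sum_congr rfl (fun x2 _ => hexp (fun y => F (e.symm (x1, x2)) y)), Finset.sum_comm]
  have hcop : ∀ x1 y1 x2 y2, IsCoprime (e.symm (x1, x2)) (e.symm (y1, y2)) →
      IsCoprime x1 y1 ∧ IsCoprime x2 y2 := by
    rintro x1 y1 x2 y2 ⟨a, b, hab⟩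
    have hab' := congrArg e hab
    rw [map_add, map_mul, map_mul, map_one, RingEquiv.apply_symm_apply,
      RingEquiv.apply_symm_apply] at hab'
    exact ⟨⟨(e a).1, (e b).1, congrArg Prod.fst hab'⟩, ⟨(e a).2, (e b).2, congrArg Prod.snd hab'⟩⟩
  rw [h1, H1 K (fun x1 y1 => ∑ x2 : ZMod n2, ∑ y2 : ZMod n2, F (e.symm (x1, x2)) (e.symm (y1, y2)))]
  swap
  · intro x1 y1 hnc
    apply Finset.sum_eq_zero
    intro x2 _
    apply Finset.sum_eq_zero
    intro y2 _
    apply hF
    intro hc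
    exact hnc (hcop _ _ _ _ hc).1
  have h2 : ∀ x1 y1 : ZMod n1, ∑ x2 : ZMod n2, ∑ y2 : ZMod n2, F (e.symm (x1, x2)) (e.symm (y1, y2)) =
      (L2.map fun Q => ∑ u : (ZMod n2)ˣ, F (e.symm (x1, u * (Q.1 : ZMod n2)))
        (e.symm (y1, u * (Q.2 : ZMod n2)))).sum := by
    intro x1 y1
    apply H2
    intro x2 y2 hnc
    apply hF
    intro hc
    exact hnc (hcop _ _ _ _ hc).2
  simp only [h2]
  unfold crtList
  rw [list_sum_flatMap]
  congr 1
  apply List.map_congr_left
  intro P _
  rw [sum_list_comm, List.map_map]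
  congr 1
  apply List.map_congr_left
  intro Q _
  simp only [Function.comp]
  -- units
  let eu : (ZMod (n1 * n2))ˣ ≃ (ZMod n1)ˣ × (ZMod n2)ˣ :=
    ((Units.mapEquiv e.toMulEquiv).trans MulEquiv.prodUnits).toEquiv
  rw [← Fintype.sum_prod_type' (fun (u1 : (ZMod n1)ˣ) (u2 : (ZMod n2)ˣ) =>
    F (e.symm ((u1 : ZMod n1) * (P.1 : ZMod n1), (u2 : ZMod n2) * (Q.1 : ZMod n2)))
      (e.symm ((u1 : ZMod n1) * (P.2 : ZMod n1), (u2 : ZMod n2) * (Q.2 : ZMod n2)))),
    ← Equiv.sum_comp eu]
  apply Finset.sum_congr rfl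
  intro u _
  have eu1 : ((eu u).1 : ZMod n1) = (e (u : ZMod (n1 * n2))).1 := rfl
  have eu2 : ((eu u).2 : ZMod n2) = (e (u : ZMod (n1 * n2))).2 := rfl
  have key : ∀ x y : ℕ, e.symm (((eu u).1 : ZMod n1) * (x : ZMod n1), ((eu u).2 : ZMod n2) *
      (y : ZMod n2)) = (u : ZMod (n1 * n2)) * ((x * e1 + y * e2 : ℕ) : ZMod (n1 * n2)) := by
    intro x y
    rw [RingEquiv.symm_apply_eq, map_mul]
    ext
    · rw [Prod.fst_mul, hfst, eu1]
      push_cast
      rw [h11, h21]
      simp
    · rw [Prod.snd_mul, hsnd, eu2]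
      push_cast
      rw [h12, h22]
      simp
  rw [key, key]

end Pool.Agent.LibH4
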