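import Pool.Agent.Lib_helper4.FactDefs

/-!
Ring of integers of the real quadratic field `ℚ(√d) ⊂ ℝ`, `d > 1` squarefree.
-/

namespace Pool.Agent.LibH4

open scoped NumberField

/-- `√d` as an element of `ℚ(√d)`. -/
noncomputable def rt (d : ℕ) : KQ d :=
  ⟨Real.sqrt (d : ℝ), IntermediateField.mem_adjoin_simple_self ℚ _⟩

lemma rt_mul_rt (d : ℕ) : rt d * rt d = (d : KQ d) := by
  apply Subtype.ext
  simp [rt]

lemma coe_rt (d : ℕ) : ((rt d : KQ d) : ℝ) = Real.sqrt d := rfl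

lemma irrational_sqrt {d : ℕ} (hd : Squarefree d) (h1 : 1 < d) : Irrational (Real.sqrt (d : ℝ)) := by
  rw [irrational_sqrt_natCast_iff]
  rintro ⟨k, hk⟩
  have hk' : k * k ∣ d := ⟨1, by simpa using hk⟩
  have := hd k hk'
  rw [Nat.isUnit_iff] at this
  subst this
  omega

/-- the algebra map `ℚ[ω]/(ω² - d) → ℚ(√d)` -/
noncomputable def toK (d : ℕ) : QuadraticAlgebra ℚ (d : ℚ) 0 →ₐ[ℚ] KQ d :=
  QuadraticAlgebra.lift ⟨rt d, by
    rw [rt_mul_rt]; simp [Algebra.smul_def]⟩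

lemma toK_apply (d : ℕ) (z : QuadraticAlgebra ℚ (d : ℚ) 0) :
    toK d z = (z.re : KQ d) + (z.im : KQ d) * rt d := by
  simp [toK, QuadraticAlgebra.lift, Algebra.smul_def]

lemma coe_toK (d : ℕ) (z : QuadraticAlgebra ℚ (d : ℚ) 0) :
    ((toK d z : KQ d) : ℝ) = (z.re : ℝ) + (z.im : ℝ) * Real.sqrt d := by
  rw [toK_apply]; simp [coe_rt]

lemma toK_injective {d : ℕ} (hd : Squarefree d) (h1 : 1 < d) : Function.Injective (toK d) := by
  rw [injective_iff_map_eq_zero]
  intro z hz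
  have h := congrArg (fun x : KQ d => (x : ℝ)) hz
  simp only [coe_toK, ZeroMemClass.coe_zero] at h
  have hirr := irrational_sqrt hd h1
  have him : z.im = 0 := by
    by_contra hne
    apply hirr
    refine ⟨-z.re / z.im, ?_⟩
    have : (z.im : ℝ) ≠ 0 := by exact_mod_cast hne
    push_cast
    field_simp
    linarith
  have hre : z.re = 0 := by
    rw [him] at h
    simp at h
    exact_mod_cast h
  ext <;> simp [him, hre]

lemma isIntegral_sqrt (d : ℕ) : IsIntegral ℚ (Real.sqrt (d : ℝ)) := by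
  refine ⟨Polynomial.X ^ 2 - Polynomial.C (d : ℚ), ?_, ?_⟩
  · exact Polynomial.monic_X_pow_sub_C _ (by norm_num)
  · simp

lemma exists_toK_of_mem_adjoin (d : ℕ) (x : ℝ) (hx : x ∈ Algebra.adjoin ℚ {Real.sqrt (d : ℝ)}) :
    ∃ z : QuadraticAlgebra ℚ (d : ℚ) 0, ((toK d z : KQ d) : ℝ) = x := by
  induction hx using Algebra.adjoin_induction with
  | mem x hx =>
    refine ⟨⟨0, 1⟩, ?_⟩
    rw [coe_toK]
    simp only [Set.mem_singleton_iff] at hx
    simp [hx]
  | algebraMap r =>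
    refine ⟨⟨r, 0⟩, ?_⟩
    rw [coe_toK]
    simp
  | add x y hx hy ihx ihy =>
    obtain ⟨a, ha⟩ := ihx
    obtain ⟨b, hb⟩ := ihy
    exact ⟨a + b, by rw [map_add]; push_cast; rw [ha, hb]⟩
  | mul x y hx hy ihx ihy =>
    obtain ⟨a, ha⟩ := ihx
    obtain ⟨b, hb⟩ := ihy
    exact ⟨a * b, by rw [map_mul]; push_cast; rw [ha, hb]⟩

lemma toK_surjective (d : ℕ) : Function.Surjective (toK d) := by
  rintro ⟨x, hx⟩
  have hx' : x ∈ Algebra.adjoin ℚ {Real.sqrt (d : ℝ)} := by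
    rw [← IntermediateField.adjoin_simple_toSubalgebra_of_isAlgebraic
      (isIntegral_sqrt d).isAlgebraic]
    exact hx
  obtain ⟨z, hz⟩ := exists_toK_of_mem_adjoin d x hx'
  exact ⟨z, Subtype.ext hz⟩

/-- `ℚ[ω]/(ω² - d) ≃ ℚ(√d)`. -/
noncomputable def eqvK {d : ℕ} (hd : Squarefree d) (h1 : 1 < d) :
    QuadraticAlgebra ℚ (d : ℚ) 0 ≃ₐ[ℚ] KQ d :=
  AlgEquiv.ofBijective (toK d) ⟨toK_injective hd h1, toK_surjective d⟩

lemma norm_quadAlg (a b : ℚ) (z : QuadraticAlgebra ℚ a b) :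
    Algebra.norm ℚ z = z.norm := by
  rw [Algebra.norm_apply, ← QuadraticAlgebra.det_toLinearMap_eq_norm]
  rfl

lemma norm_toK {d : ℕ} (hd : Squarefree d) (h1 : 1 < d) (z : QuadraticAlgebra ℚ (d : ℚ) 0) :
    Algebra.norm ℚ (toK d z) = z.re ^ 2 - d * z.im ^ 2 := by
  have := Algebra.norm_eq_of_algEquiv (eqvK hd h1) z
  rw [norm_quadAlg] at this
  have h2 : eqvK hd h1 z = toK d z := rfl
  rw [← h2, this, QuadraticAlgebra.norm_def]
  simp; ring

lemma rat_int_of_sq_mul {d : ℕ} (hd : Squarefree d) (q : ℚ) (m : ℤ) (h : q ^ 2 * d = m) :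
    ∃ u : ℤ, q = u := by
  have hden : (q.den : ℤ) ≠ 0 := by exact_mod_cast q.den_ne_zero
  have h1 : q.num ^ 2 * (d : ℤ) = m * (q.den : ℤ) ^ 2 := by
    have hq : q = q.num / q.den := (Rat.num_div_den q).symm
    have hden' : (q.den : ℚ) ≠ 0 := by exact_mod_cast q.den_ne_zero
    rw [hq] at h
    field_simp at h
    have h' : (q.num : ℚ) ^ 2 * d = m * (q.den : ℚ) ^ 2 := by linarith
    exact_mod_cast h'
  have hcop : IsCoprime ((q.den : ℤ) ^ 2) (q.num ^ 2) := by
    apply IsCoprime.pow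
    rw [Int.isCoprime_iff_nat_coprime]
    simpa using q.reduced.symm
  have hdvd : ((q.den : ℤ) ^ 2) ∣ (d : ℤ) := by
    apply hcop.dvd_of_dvd_mul_left
    rw [h1]
    exact Dvd.intro_left m rfl
  have hdvd' : q.den * q.den ∣ d := by
    have : ((q.den * q.den : ℕ) : ℤ) ∣ (d : ℤ) := by
      push_cast
      rw [← sq]
      exact hdvd
    exact_mod_cast this
  have hu := hd _ hdvd'
  rw [Nat.isUnit_iff] at hu
  refine ⟨q.num, ?_⟩
  have hq : q = q.num / q.den := (Rat.num_div_den q).symm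
  rw [hu] at hq
  simpa using hq

lemma int_of_isIntegral {K : Type*} [Field K] [CharZero K] (q : ℚ) (h : IsIntegral ℤ (q : K)) :
    ∃ m : ℤ, q = m := by
  have h2 : IsIntegral ℤ (algebraMap ℚ K q) := by simpa using h
  rw [isIntegral_algebraMap_iff (algebraMap ℚ K).injective] at h2
  obtain ⟨m, hm⟩ := IsIntegrallyClosed.isIntegral_iff.mp h2
  exact ⟨m, by simpa using hm.symm⟩

instance finiteDimensional_KQ (d : ℕ) : FiniteDimensional ℚ (KQ d) :=
  IntermediateField.adjoin.finiteDimensional (isIntegral_sqrt d)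

instance numberField_KQ (d : ℕ) : NumberField (KQ d) where
  to_charZero := inferInstance
  to_finiteDimensional := finiteDimensional_KQ d

lemma integral_norm {d : ℕ} (hd : Squarefree d) (h1 : 1 < d) (z : QuadraticAlgebra ℚ (d : ℚ) 0)
    (hz : IsIntegral ℤ (toK d z)) : ∃ m : ℤ, z.re ^ 2 - d * z.im ^ 2 = m := by
  have h := Algebra.isIntegral_norm ℚ hz
  rw [norm_toK hd h1] at h
  obtain ⟨m, hm⟩ := IsIntegrallyClosed.isIntegral_iff.mp h
  exact ⟨m, by simpa using hm.symm⟩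

lemma integral_coords {d : ℕ} (hd : Squarefree d) (h1 : 1 < d) (z : QuadraticAlgebra ℚ (d : ℚ) 0)
    (hz : IsIntegral ℤ (toK d z)) : ∃ s u t : ℤ, 2 * z.re = s ∧ 2 * z.im = u ∧
      s ^ 2 - d * u ^ 2 = 4 * t := by
  obtain ⟨t, ht⟩ := integral_norm hd h1 z hz
  have hz1 : IsIntegral ℤ (toK d (1 + z)) := by
    rw [map_add, map_one]
    exact isIntegral_one.add hz
  obtain ⟨t', ht'⟩ := integral_norm hd h1 (1 + z) hz1
  have hs : 2 * z.re = ((t' - 1 - t : ℤ) : ℚ) := by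
    have e1 : (1 + z).re = 1 + z.re := by simp [QuadraticAlgebra.re_one]
    have e2 : (1 + z).im = z.im := by simp [QuadraticAlgebra.im_one]
    rw [e1, e2] at ht'
    push_cast
    rw [← ht, ← ht']
    ring
  have hu : (2 * z.im) ^ 2 * d = (((t' - 1 - t) ^ 2 - 4 * t : ℤ) : ℚ) := by
    push_cast
    push_cast at hs
    rw [← hs, ← ht]
    ring
  obtain ⟨u, hu'⟩ := rat_int_of_sq_mul hd _ _ hu
  refine ⟨t' - 1 - t, u, t, hs, hu', ?_⟩
  have : (((t' - 1 - t) ^ 2 - d * u ^ 2 : ℤ) : ℚ) = ((4 * t : ℤ) : ℚ) := by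
    push_cast
    push_cast at hs
    rw [← hs, ← hu', ← ht]
    ring
  exact_mod_cast this

/-- constant coefficient data of the ring of integers: `θ² = A d + B d * θ`. -/
def Bq (d : ℕ) : ℤ := if d % 4 = 1 then 1 else 0

/-- see `Bq` -/
def Aq (d : ℕ) : ℤ := if d % 4 = 1 then ((d : ℤ) - 1) / 4 else d

/-- discriminant -/
def Dq (d : ℕ) : ℤ := if d % 4 = 1 then d else 4 * d

lemma Bq_Aq (d : ℕ) : (Bq d) ^ 2 + 4 * Aq d = Dq d := by
  unfold Bq Aq Dq
  split_ifs with h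
  · have : (4 : ℤ) ∣ (d : ℤ) - 1 := by omega
    have := Int.mul_ediv_cancel' this
    linarith
  · ring

/-- The generator `θ` of the ring of integers as an element of `ℚ[ω]/(ω²-d)`. -/
def thq (d : ℕ) : QuadraticAlgebra ℚ (d : ℚ) 0 := if d % 4 = 1 then ⟨1/2, 1/2⟩ else ⟨0, 1⟩

lemma thq_mul (d : ℕ) : thq d * thq d = (Aq d : ℚ) • (1 : QuadraticAlgebra ℚ (d : ℚ) 0) + (Bq d : ℚ) • thq d := by
  unfold thq Aq Bq
  split_ifs with h
  · have h4 : (4 : ℤ) ∣ (d : ℤ) - 1 := by omega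
    obtain ⟨k, hk⟩ := h4
    have hk' : (d : ℚ) = 4 * k + 1 := by
      have : (d : ℤ) = 4 * k + 1 := by omega
      exact_mod_cast this
    rw [hk, Int.mul_ediv_cancel_left _ (by norm_num)]
    ext
    · simp [hk', QuadraticAlgebra.re_one]; ring
    · simp [QuadraticAlgebra.im_one]; norm_num
  · ext <;> simp [QuadraticAlgebra.re_one, QuadraticAlgebra.im_one]

lemma thK_mul (d : ℕ) : toK d (thq d) * toK d (thq d) =
    (Aq d : ℤ) • (1 : KQ d) + (Bq d : ℤ) • toK d (thq d) := by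
  rw [← map_mul, thq_mul, map_add, map_smul, map_smul, map_one]
  simp [Algebra.smul_def]

lemma isIntegral_thK (d : ℕ) : IsIntegral ℤ (toK d (thq d)) := by
  refine ⟨Polynomial.X ^ 2 - (Polynomial.C (Bq d) * Polynomial.X + Polynomial.C (Aq d)), ?_, ?_⟩
  · apply Polynomial.monic_X_pow_sub
    exact lt_of_le_of_lt Polynomial.degree_linear_le (by norm_num)
  · simp only [Polynomial.eval₂_sub, Polynomial.eval₂_add, Polynomial.eval₂_mul,
      Polynomial.eval₂_pow, Polynomial.eval₂_X, Polynomial.eval₂_C]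
    rw [sq, thK_mul]
    simp [Algebra.smul_def]
    ring

/-- `θ` in the ring of integers -/
noncomputable def thO (d : ℕ) : 𝓞 (KQ d) := ⟨toK d (thq d), isIntegral_thK d⟩

lemma coe_thO (d : ℕ) : algebraMap (𝓞 (KQ d)) (KQ d) (thO d) = toK d (thq d) := rfl

/-- The concrete model of the ring of integers `ℤ[θ]`. -/
abbrev QI (d : ℕ) := QuadraticAlgebra ℤ (Aq d) (Bq d)

/-- the comparison map -/
noncomputable def toO (d : ℕ) : QI d →ₐ[ℤ] 𝓞 (KQ d) :=
  QuadraticAlgebra.lift ⟨thO d, by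
    apply NumberField.RingOfIntegers.coe_injective
    have := thK_mul d
    simp only [zsmul_eq_mul, mul_one] at this ⊢
    rw [map_mul, map_add, map_mul, map_intCast, map_intCast, coe_thO]
    exact this⟩

lemma toO_apply (d : ℕ) (z : QI d) :
    algebraMap (𝓞 (KQ d)) (KQ d) (toO d z) = (z.re : KQ d) + (z.im : KQ d) * toK d (thq d) := by
  have h : toO d z = (z.re : 𝓞 (KQ d)) + (z.im : 𝓞 (KQ d)) * thO d := by
    simp [toO, QuadraticAlgebra.lift, Algebra.smul_def]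
  rw [h, map_add, map_mul, map_intCast, map_intCast, coe_thO]

/-- rational coordinates of an element of `QI d` -/
def toQ (d : ℕ) (z : QI d) : QuadraticAlgebra ℚ (d : ℚ) 0 :=
  QuadraticAlgebra.mk (z.re : ℚ) 0 + (z.im : ℚ) • thq d

lemma toO_eq (d : ℕ) (z : QI d) :
    algebraMap (𝓞 (KQ d)) (KQ d) (toO d z) = toK d (toQ d z) := by
  have h : toK d (QuadraticAlgebra.mk (z.re : ℚ) 0) = (z.re : KQ d) := by
    rw [toK_apply]; simp
  rw [toO_apply, toQ, map_add, map_smul, h]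
  simp [Algebra.smul_def]

lemma norm_toO {d : ℕ} (hd : Squarefree d) (h1 : 1 < d) (z : QI d) :
    Algebra.norm ℚ (algebraMap (𝓞 (KQ d)) (KQ d) (toO d z)) = (z.norm : ℚ) := by
  rw [toO_eq, norm_toK hd h1, QuadraticAlgebra.norm_def]
  unfold toQ thq
  by_cases h : d % 4 = 1
  · obtain ⟨k, hk⟩ : (4 : ℤ) ∣ (d : ℤ) - 1 := by omega
    have hk' : (d : ℚ) = 4 * k + 1 := by
      have : (d : ℤ) = 4 * k + 1 := by omega
      exact_mod_cast this
    have hA : ((Aq d : ℤ) : ℚ) = k := by simp [Aq, h, hk]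
    have hB : ((Bq d : ℤ) : ℚ) = 1 := by simp [Bq, h]
    push_cast
    rw [hA, hB]
    simp [h, hk']
    ring
  · have hA : ((Aq d : ℤ) : ℚ) = d := by simp [Aq, h]
    have hB : ((Bq d : ℤ) : ℚ) = 0 := by simp [Bq, h]
    push_cast
    rw [hA, hB]
    simp [h]
    ring

lemma toO_injective {d : ℕ} (hd : Squarefree d) (h1 : 1 < d) : Function.Injective (toO d) := by
  rw [injective_iff_map_eq_zero]
  intro z hz
  have h : toK d (toQ d z) = 0 := by rw [← toO_eq, hz]; simp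
  have h' : toQ d z = 0 := toK_injective hd h1 (by rw [h, map_zero])
  have hre := congrArg QuadraticAlgebra.re h'
  have him := congrArg QuadraticAlgebra.im h'
  unfold toQ thq at hre him
  by_cases hm : d % 4 = 1
  · simp [hm] at hre him
    rw [him] at hre
    simp at hre
    ext <;> simp [him, hre]
  · simp [hm] at hre him
    ext <;> simp [him, hre]

lemma toO_surjective {d : ℕ} (hd : Squarefree d) (h1 : 1 < d) : Function.Surjective (toO d) := by
  intro x
  obtain ⟨z, hz⟩ := toK_surjective d (algebraMap (𝓞 (KQ d)) (KQ d) x)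
  have hint : IsIntegral ℤ (toK d z) := by rw [hz]; exact x.isIntegral_coe
  obtain ⟨s, u, t, hs, hu, ht⟩ := integral_coords hd h1 z hint
  have hre : z.re = s / 2 := by linarith
  have him : z.im = u / 2 := by linarith
  by_cases hm : d % 4 = 1
  · have hpar : (2 : ℤ) ∣ s - u := by
      obtain ⟨k, hk⟩ : (4 : ℤ) ∣ (d : ℤ) - 1 := by omega
      have hd' : (d : ℤ) = 4 * k + 1 := by omega
      rw [hd'] at ht
      have h2 : (2 : ℤ) ∣ (s - u) * (s + u) := ⟨2 * (t + k * u ^ 2), by linarith⟩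
      rcases Int.Prime.dvd_mul' Nat.prime_two h2 with h3 | h3
      · exact h3
      · have : s - u = (s + u) - 2 * u := by ring
        rw [this]
        exact dvd_sub h3 (dvd_mul_right _ _)
    obtain ⟨w, hw⟩ := hpar
    refine ⟨⟨w, u⟩, ?_⟩
    apply NumberField.RingOfIntegers.coe_injective
    rw [toO_eq, ← hz]
    congr 1
    have hs' : (s : ℚ) = 2 * w + u := by
      have : s = 2 * w + u := by linarith
      exact_mod_cast this
    ext
    · simp [toQ, thq, hm, hre, hs']; ring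
    · simp [toQ, thq, hm, him]; ring
  · have hd4 : d % 4 ≠ 0 := by
      intro h0
      have : 2 * 2 ∣ d := by omega
      have := hd 2 this
      rw [Nat.isUnit_iff] at this
      omega
    have hev : (2 : ℤ) ∣ s ∧ (2 : ℤ) ∣ u := by
      have hsm : s % 4 = 0 ∨ s % 4 = 1 ∨ s % 4 = 2 ∨ s % 4 = 3 := by omega
      have hum : u % 4 = 0 ∨ u % 4 = 1 ∨ u % 4 = 2 ∨ u % 4 = 3 := by omega
      have hdm : d % 4 = 2 ∨ d % 4 = 3 := by omega
      have hdm' : (d : ℤ) % 4 = 2 ∨ (d : ℤ) % 4 = 3 := by omega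
      have h4 : (s ^ 2 - d * u ^ 2) % 4 = 0 := by rw [ht]; omega
      rcases hsm with h | h | h | h <;> rcases hum with h' | h' | h' | h' <;>
        rcases hdm' with h'' | h'' <;>
        simp [Int.sub_emod, Int.mul_emod, pow_two, h, h', h''] at h4 <;> omega
    obtain ⟨⟨a, ha⟩, ⟨b, hb⟩⟩ := hev
    refine ⟨⟨a, b⟩, ?_⟩
    apply NumberField.RingOfIntegers.coe_injective
    rw [toO_eq, ← hz]
    congr 1
    ext
    · simp [toQ, thq, hm, hre, ha]
    · simp [toQ, thq, hm, him, hb]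

/-- The ring of integers of `ℚ(√d)` is `ℤ[θ]`. -/
noncomputable def eqvO {d : ℕ} (hd : Squarefree d) (h1 : 1 < d) : QI d ≃+* 𝓞 (KQ d) :=
  RingEquiv.ofBijective (toO d) ⟨toO_injective hd h1, toO_surjective hd h1⟩

lemma norm_eqvO {d : ℕ} (hd : Squarefree d) (h1 : 1 < d) (z : QI d) :
    Algebra.norm ℚ (algebraMap (𝓞 (KQ d)) (KQ d) (eqvO hd h1 z)) = (z.norm : ℚ) :=
  norm_toO hd h1 z

end Pool.Agent.LibH4
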