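import Pool.Agent.Lib_helper4.Transfer

/-!
Elements of small norm in the ring of integers of `ℚ(√(n²+4))`, `n = 2k+1`.
-/

namespace Pool.Agent.LibH4

/-- the inequality behind everything -/
lemma key_ineq (n X Y : ℤ) (hn : 1 ≤ n) (hY : Y ≠ 0) (h1 : |Y| ≤ |X|) (h2 : |Y| ≤ |X + n * Y|) :
    n ≤ |X ^ 2 + n * X * Y - Y ^ 2| := by
  wlog hpos : 0 < Y generalizing X Y
  · have hneg : 0 < -Y := by omega
    have := this (-X) (-Y) (by omega) (by simpa using h1)
      (by rw [show -X + n * -Y = -(X + n * Y) by ring, abs_neg, abs_neg]; exact h2) hneg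
    rw [show (-X) ^ 2 + n * (-X) * (-Y) - (-Y) ^ 2 = X ^ 2 + n * X * Y - Y ^ 2 by ring] at this
    exact this
  rw [abs_of_pos hpos] at h1 h2
  have hY1 : 1 ≤ Y := hpos
  rcases le_abs.mp h1 with hX | hX
  · -- X ≥ Y
    refine le_trans ?_ (le_abs_self _)
    nlinarith [mul_le_mul hX (le_refl Y) (by omega) (by omega), mul_pos hpos hpos,
      mul_nonneg (sub_nonneg.mpr hX) hpos.le, mul_nonneg (sub_nonneg.mpr hn) (mul_nonneg hpos.le hpos.le),
      mul_nonneg (sub_nonneg.mpr hn) (mul_nonneg (sub_nonneg.mpr hX) hpos.le)]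
  · rcases le_abs.mp h2 with h3 | h3
    · -- Y ≤ -X, Y ≤ X + nY
      refine le_trans ?_ (neg_le_abs _)
      nlinarith [mul_nonneg (sub_nonneg.mpr hX) (sub_nonneg.mpr h3), mul_pos hpos hpos,
        mul_nonneg (sub_nonneg.mpr hn) (mul_nonneg (sub_nonneg.mpr hY1) hpos.le)]
    · -- Y ≤ -X, Y ≤ -(X + nY)
      refine le_trans ?_ (le_abs_self _)
      nlinarith [mul_nonneg (sub_nonneg.mpr hX) (sub_nonneg.mpr h3), mul_pos hpos hpos,
        mul_nonneg (sub_nonneg.mpr hn) (mul_nonneg (sub_nonneg.mpr hY1) hpos.le)]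

/-- The working model `ℤ[θ]`, `θ² = θ + (k²+k+1)`, of the ring of integers of `ℚ(√((2k+1)²+4))`. -/
abbrev Rk (k : ℤ) := QuadraticAlgebra ℤ (k ^ 2 + k + 1) 1

lemma norm_Rk (k : ℤ) (z : Rk k) :
    z.norm = (z.re - k * z.im) ^ 2 + (2 * k + 1) * (z.re - k * z.im) * z.im - z.im ^ 2 := by
  rw [QuadraticAlgebra.norm_def]; ring

/-- the fundamental unit `ε = k + θ` -/
def ep (k : ℤ) : Rk k := ⟨k, 1⟩

/-- its inverse -/
def epi (k : ℤ) : Rk k := ⟨-k - 1, 1⟩

lemma ep_mul_epi (k : ℤ) : ep k * epi k = 1 := by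
  ext
  · simp [ep, epi, QuadraticAlgebra.re_one]; ring
  · simp [ep, epi, QuadraticAlgebra.im_one]; ring

lemma isUnit_ep (k : ℤ) : IsUnit (ep k) := IsUnit.of_mul_eq_one _ (ep_mul_epi k)

lemma isUnit_epi (k : ℤ) : IsUnit (epi k) :=
  IsUnit.of_mul_eq_one _ (by rw [mul_comm]; exact ep_mul_epi k)

/-- Elements of norm `< n = 2k+1` in absolute value are unit multiples of rational integers. -/
lemma small_norm (k : ℤ) (hk : 0 ≤ k) (z : Rk k) (hz : z ≠ 0) (hn : |z.norm| < 2 * k + 1) :
    ∃ m : ℕ, 0 < m ∧ Associated z (m : Rk k) := by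
  induction hN : z.im.natAbs using Nat.strong_induction_on generalizing z with
  | _ N IH =>
    by_cases him : z.im = 0
    · refine ⟨z.re.natAbs, ?_, ?_⟩
      · rw [Nat.pos_iff_ne_zero, Ne, Int.natAbs_eq_zero]
        intro h
        exact hz (by ext <;> simp [h, him])
      · rcases Int.natAbs_eq z.re with h | h
        · have : z = ((z.re.natAbs : ℕ) : Rk k) := by
            ext
            · simp only [QuadraticAlgebra.re_natCast]; exact h
            · simp [him]
          rw [← this]
        · have : z = -((z.re.natAbs : ℕ) : Rk k) := by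
            ext
            · simp only [QuadraticAlgebra.re_neg, QuadraticAlgebra.re_natCast]; exact h
            · simp [him]
          exact (Associated.of_eq this).trans
            (Associated.refl ((z.re.natAbs : ℕ) : Rk k)).neg_left
    · have hnorm := norm_Rk k z
      by_cases h1 : |z.im| ≤ |z.re - k * z.im|
      · by_cases h2 : |z.im| ≤ |(z.re - k * z.im) + (2 * k + 1) * z.im|
        · exfalso
          have := key_ineq (2 * k + 1) (z.re - k * z.im) z.im (by omega) him h1 h2
          rw [← hnorm] at this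
          omega
        · push Not at h2
          have him' : (z * ep k).im = (z.re - k * z.im) + (2 * k + 1) * z.im := by
            simp [ep]; ring
          have hass0 : Associated (z * ep k) z := associated_mul_unit_left z _ (isUnit_ep k)
          obtain ⟨m, hm, hass⟩ := IH (z * ep k).im.natAbs (by
            rw [← hN, him']
            zify
            exact h2) (z * ep k)
            (by
              intro h0
              rw [h0] at hass0
              exact hz (hass0.symm.eq_zero_iff.mpr rfl))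
            (by rw [abs_norm_eq_of_associated hass0]; exact hn) rfl
          exact ⟨m, hm, hass0.symm.trans hass⟩
      · push Not at h1
        have him' : (z * epi k).im = z.re - k * z.im := by
          simp [epi]; ring
        have hass0 : Associated (z * epi k) z := associated_mul_unit_left z _ (isUnit_epi k)
        obtain ⟨m, hm, hass⟩ := IH (z * epi k).im.natAbs (by
            rw [← hN, him']
            zify
            exact h1) (z * epi k)
            (by
              intro h0
              rw [h0] at hass0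
              exact hz (hass0.symm.eq_zero_iff.mpr rfl))
            (by rw [abs_norm_eq_of_associated hass0]; exact hn) rfl
        exact ⟨m, hm, hass0.symm.trans hass⟩

/-- `z` is primitive: no rational integer `> 1` divides it -/
def Prim (k : ℤ) (z : Rk k) : Prop := ∀ m : ℕ, (m : Rk k) ∣ z → m = 1

lemma natCast_isUnit_iff (k : ℤ) (m : ℕ) : IsUnit (m : Rk k) ↔ m = 1 := by
  rw [isUnit_iff_norm, norm_natCast', abs_of_nonneg (by positivity)]
  constructor
  · intro h
    have : m ^ 2 = 1 := by exact_mod_cast h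
    simpa using this
  · rintro rfl; norm_num

lemma prime_of_irreducible_natCast (k : ℤ) (m : ℕ) (hm : Irreducible (m : Rk k)) : m.Prime := by
  rw [← Nat.irreducible_iff_nat_prime]
  refine ⟨fun h => hm.1 ?_, ?_⟩
  · rw [Nat.isUnit_iff] at h
    rw [h]; simp
  · intro a b hab
    rw [hab] at hm
    have := hm.2 (a := (a : Rk k)) (b := (b : Rk k)) (by push_cast; rfl)
    rw [natCast_isUnit_iff, natCast_isUnit_iff] at this
    simpa [Nat.isUnit_iff] using this

lemma prim_of_irreducible (k : ℤ) (z : Rk k) (hz : Irreducible z)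
    (hna : ¬ ∃ m : ℕ, Associated z (m : Rk k)) : Prim k z := by
  rintro m ⟨w, hw⟩
  rcases hz.2 hw with h | h
  · rwa [natCast_isUnit_iff] at h
  · exfalso
    apply hna
    refine ⟨m, ?_⟩
    rw [hw]
    exact associated_mul_unit_left _ _ h

lemma prime_dvd_mul_prim (k : ℤ) (p Q : ℕ) (hp : p.Prime) (z : Rk k) (hz : Prim k z)
    (h : (p : Rk k) ∣ (Q : Rk k) * z) : p ∣ Q := by
  by_contra hpQ
  rw [natCast_dvd_iff] at h
  obtain ⟨h1, h2⟩ := h
  have hp' : Prime (p : ℤ) := Nat.prime_iff_prime_int.mp hp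
  have e1 : ((Q : Rk k) * z).re = Q * z.re := by simp
  have e2 : ((Q : Rk k) * z).im = Q * z.im := by simp
  rw [e1] at h1
  rw [e2] at h2
  have hQ : ¬ (p : ℤ) ∣ (Q : ℤ) := by rwa [Int.natCast_dvd_natCast]
  have h3 := (hp'.dvd_or_dvd h1).resolve_left hQ
  have h4 := (hp'.dvd_or_dvd h2).resolve_left hQ
  have := hz p ((natCast_dvd_iff p z).mpr ⟨h3, h4⟩)
  exact hp.one_lt.ne' this

/-- no rational prime divides a product of rational primes times ... -/
lemma prime_dvd_natCast (k : ℤ) (p Q : ℕ) (h : (p : Rk k) ∣ (Q : Rk k)) : p ∣ Q := by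
  rw [natCast_dvd_iff] at h
  have := h.1
  simpa [Int.natCast_dvd_natCast] using this


lemma one_le_abs_norm (k : ℤ) [IsDomain (Rk k)] (hN : ∀ z : Rk k, z ≠ 0 → z.norm ≠ 0)
    (z : Rk k) (hz : z ≠ 0) : 1 ≤ |z.norm| := by
  exact Int.one_le_abs (hN z hz)

/-- Key divisibility lemma. -/
lemma exists_mem_associated (k : ℤ) (hk : 0 ≤ k) [IsDomain (Rk k)]
    (hN : ∀ z : Rk k, z ≠ 0 → z.norm ≠ 0)
    (g : Multiset (Rk k)) (hg : ∀ x ∈ g, Irreducible x)
    (hnorm : |g.prod.norm| < (2 * k + 1) ^ 2) (p : ℕ) (hp : p.Prime)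
    (hdvd : (p : Rk k) ∣ g.prod) : ∃ ρ ∈ g, Associated ρ (p : Rk k) := by
  induction g using Multiset.induction_on with
  | empty =>
    exfalso
    rw [Multiset.prod_zero] at hdvd
    have := isUnit_of_dvd_one hdvd
    rw [natCast_isUnit_iff] at this
    exact hp.one_lt.ne' this
  | cons ρ g' IH =>
    have hρ : Irreducible ρ := hg ρ (Multiset.mem_cons_self ρ g')
    have hg' : ∀ x ∈ g', Irreducible x := fun x hx => hg x (Multiset.mem_cons_of_mem hx)
    rw [Multiset.prod_cons] at hdvd hnorm
    rw [map_mul, abs_mul] at hnorm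
    have hg'0 : g'.prod ≠ 0 := by
      rw [Ne, Multiset.prod_eq_zero_iff]
      intro h
      exact (hg' 0 h).ne_zero rfl
    have h1 : 1 ≤ |ρ.norm| := one_le_abs_norm k hN ρ hρ.ne_zero
    have h2 : 1 ≤ |g'.prod.norm| := one_le_abs_norm k hN _ hg'0
    have hnorm' : |g'.prod.norm| < (2 * k + 1) ^ 2 := by nlinarith
    -- it suffices to show `p ∣ g'.prod` or `ρ ~ p`
    by_cases hS : ∃ m : ℕ, Associated ρ (m : Rk k)
    · obtain ⟨q, hq⟩ := hS
      have hqp : q.Prime := prime_of_irreducible_natCast k q (hq.irreducible hρ)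
      by_cases hpq : p = q
      · exact ⟨ρ, Multiset.mem_cons_self _ _, by rw [hpq]; exact hq⟩
      · have hdvd' : (p : Rk k) ∣ (q : Rk k) * g'.prod := by
          have : Associated (ρ * g'.prod) ((q : Rk k) * g'.prod) := hq.mul_right _
          exact this.dvd_iff_dvd_right.mp hdvd
        have hdvd'' : (p : Rk k) ∣ g'.prod := by
          rw [natCast_dvd_iff] at hdvd' ⊢
          have hp' : Prime (p : ℤ) := Nat.prime_iff_prime_int.mp hp
          have e1 : ((q : Rk k) * g'.prod).re = q * g'.prod.re := by simp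
          have e2 : ((q : Rk k) * g'.prod).im = q * g'.prod.im := by simp
          rw [e1, e2] at hdvd'
          have hpq' : ¬ (p : ℤ) ∣ (q : ℤ) := by
            rw [Int.natCast_dvd_natCast]
            intro h
            exact hpq ((Nat.prime_dvd_prime_iff_eq hp hqp).mp h)
          exact ⟨(hp'.dvd_or_dvd hdvd'.1).resolve_left hpq',
            (hp'.dvd_or_dvd hdvd'.2).resolve_left hpq'⟩
        obtain ⟨σ, hσ, hσp⟩ := IH hg' hnorm' hdvd''
        exact ⟨σ, Multiset.mem_cons_of_mem hσ, hσp⟩
    · have hprim : Prim k ρ := prim_of_irreducible k ρ hρ hS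
      have hρn : 2 * k + 1 ≤ |ρ.norm| := by
        by_contra hlt
        push Not at hlt
        obtain ⟨m, _, hm⟩ := small_norm k hk ρ hρ.ne_zero hlt
        exact hS ⟨m, hm⟩
      have hsmall : |g'.prod.norm| < 2 * k + 1 := by
        by_contra hge
        push Not at hge
        nlinarith
      obtain ⟨Q, hQ0, hQ⟩ := small_norm k hk g'.prod hg'0 hsmall
      have hdvd' : (p : Rk k) ∣ (Q : Rk k) * ρ := by
        have : Associated (ρ * g'.prod) ((Q : Rk k) * ρ) := by
          rw [mul_comm]
          exact hQ.mul_right _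
        exact this.dvd_iff_dvd_right.mp hdvd
      have hpQ : p ∣ Q := prime_dvd_mul_prim k p Q hp ρ hprim hdvd'
      have hdvd'' : (p : Rk k) ∣ g'.prod := by
        rw [hQ.dvd_iff_dvd_right]
        exact_mod_cast Nat.cast_dvd_cast hpQ
      obtain ⟨σ, hσ, hσp⟩ := IH hg' hnorm' hdvd''
      exact ⟨σ, Multiset.mem_cons_of_mem hσ, hσp⟩

lemma unique_aux (k : ℤ) (hk : 0 ≤ k) [IsDomain (Rk k)]
    (hN : ∀ z : Rk k, z ≠ 0 → z.norm ≠ 0) (c : ℕ) :
    ∀ f g : Multiset (Rk k), f.card = c → (∀ x ∈ f, Irreducible x) → (∀ x ∈ g, Irreducible x) →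
      Associated f.prod g.prod → |f.prod.norm| < (2 * k + 1) ^ 2 →
      Multiset.Rel Associated f g := by
  induction c with
  | zero =>
    intro f g hc hf hg hfg hn
    rw [Multiset.card_eq_zero] at hc
    subst hc
    rw [Multiset.prod_zero] at hfg
    have hu : IsUnit g.prod := hfg.isUnit isUnit_one
    have hg0 : g = 0 := by
      by_contra hne
      obtain ⟨x, hx⟩ := Multiset.exists_mem_of_ne_zero hne
      exact (hg x hx).1 (isUnit_of_dvd_unit (Multiset.dvd_prod hx) hu)
    rw [hg0]
    exact Multiset.Rel.zero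
  | succ c IH =>
    intro f g hc hf hg hfg hn
    by_cases hS : ∃ π ∈ f, ∃ m : ℕ, Associated π (m : Rk k)
    · obtain ⟨π, hπ, p, hp⟩ := hS
      have hpp : p.Prime := prime_of_irreducible_natCast k p (hp.irreducible (hf π hπ))
      have hdvd : (p : Rk k) ∣ g.prod := by
        rw [← hfg.dvd_iff_dvd_right]
        exact hp.symm.dvd.trans (Multiset.dvd_prod hπ)
      have hng : |g.prod.norm| < (2 * k + 1) ^ 2 := by
        rw [← abs_norm_eq_of_associated hfg]; exact hn
      obtain ⟨ρ, hρ, hρp⟩ := exists_mem_associated k hk hN g hg hng p hpp hdvd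
      obtain ⟨f', rfl⟩ := Multiset.exists_cons_of_mem hπ
      obtain ⟨g', rfl⟩ := Multiset.exists_cons_of_mem hρ
      have hπρ : Associated π ρ := hp.trans hρp.symm
      have hf' : ∀ x ∈ f', Irreducible x := fun x hx => hf x (Multiset.mem_cons_of_mem hx)
      have hg' : ∀ x ∈ g', Irreducible x := fun x hx => hg x (Multiset.mem_cons_of_mem hx)
      have hπ0 : π ≠ 0 := (hf π (Multiset.mem_cons_self _ _)).ne_zero
      have hass : Associated f'.prod g'.prod := by
        rw [Multiset.prod_cons, Multiset.prod_cons] at hfg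
        exact hfg.of_mul_left hπρ hπ0
      have hn' : |f'.prod.norm| < (2 * k + 1) ^ 2 := by
        rw [Multiset.prod_cons, map_mul, abs_mul] at hn
        have h1 : 1 ≤ |π.norm| := one_le_abs_norm k hN π hπ0
        nlinarith [abs_nonneg f'.prod.norm]
      refine Multiset.Rel.cons hπρ (IH f' g' ?_ hf' hg' hass hn')
      simpa using hc
    · push Not at hS
      have hbig : ∀ π ∈ f, 2 * k + 1 ≤ |π.norm| := by
        intro π hπ
        by_contra hlt
        push Not at hlt
        obtain ⟨m, _, hm⟩ := small_norm k hk π (hf π hπ).ne_zero hlt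
        exact hS π hπ m hm
      have hcpos : f ≠ 0 := by
        intro h; rw [h] at hc; simp at hc
      obtain ⟨π, hπ⟩ := Multiset.exists_mem_of_ne_zero hcpos
      obtain ⟨f', rfl⟩ := Multiset.exists_cons_of_mem hπ
      have hf'0 : f' = 0 := by
        by_contra hne
        obtain ⟨π', hπ'⟩ := Multiset.exists_mem_of_ne_zero hne
        obtain ⟨f'', rfl⟩ := Multiset.exists_cons_of_mem hπ'
        have h1 := hbig π hπ
        have h2 := hbig π' (Multiset.mem_cons_of_mem hπ')
        have h3 : f''.prod ≠ 0 := by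
          rw [Ne, Multiset.prod_eq_zero_iff]
          intro h
          exact (hf 0 (Multiset.mem_cons_of_mem (Multiset.mem_cons_of_mem h))).ne_zero rfl
        have h4 : 1 ≤ |f''.prod.norm| := one_le_abs_norm k hN _ h3
        rw [Multiset.prod_cons, Multiset.prod_cons, map_mul, map_mul, abs_mul, abs_mul] at hn
        have h5 : (2 * k + 1) * (2 * k + 1) ≤ |π.norm| * |π'.norm| :=
          mul_le_mul h1 h2 (by omega) (by positivity)
        nlinarith [mul_nonneg (abs_nonneg π.norm) (abs_nonneg π'.norm)]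
      subst hf'0
      have hirr : Irreducible g.prod := by
        rw [Multiset.prod_cons, Multiset.prod_zero, mul_one] at hfg
        exact hfg.irreducible (hf π hπ)
      have hg0 : g ≠ 0 := by
        rintro rfl
        rw [Multiset.prod_zero] at hirr
        exact hirr.1 isUnit_one
      obtain ⟨ρ, hρ⟩ := Multiset.exists_mem_of_ne_zero hg0
      obtain ⟨g', rfl⟩ := Multiset.exists_cons_of_mem hρ
      have hg'0 : g' = 0 := by
        by_contra hne
        obtain ⟨x, hx⟩ := Multiset.exists_mem_of_ne_zero hne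
        rw [Multiset.prod_cons] at hirr
        rcases hirr.2 rfl with h | h
        · exact (hg ρ hρ).1 h
        · exact (hg x (Multiset.mem_cons_of_mem hx)).1
            (isUnit_of_dvd_unit (Multiset.dvd_prod hx) h)
      subst hg'0
      refine Multiset.Rel.cons ?_ Multiset.Rel.zero
      simpa using hfg

/-- Elements of norm `< n² = (2k+1)²` factor uniquely. -/
theorem factorsUniquely_of_norm_lt (k : ℤ) (hk : 0 ≤ k) [IsDomain (Rk k)] [WfDvdMonoid (Rk k)]
    (hN : ∀ z : Rk k, z ≠ 0 → z.norm ≠ 0) (z : Rk k) (hz : z ≠ 0)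
    (hn : |z.norm| < (2 * k + 1) ^ 2) : FactorsUniquely z := by
  refine ⟨WfDvdMonoid.exists_factors z hz, ?_⟩
  intro f g hf hg hfz hgz
  exact unique_aux k hk hN _ f g rfl hf hg (hfz.trans hgz.symm)
    (by rw [abs_norm_eq_of_associated hfz]; exact hn)

/-- version with unfolded parameters -/
theorem factorsUniquely_of_norm_lt' (k : ℤ) (hk : 0 ≤ k) (a b : ℤ) (ha : a = k ^ 2 + k + 1)
    (hb : b = 1) (hdom : IsDomain (QuadraticAlgebra ℤ a b))
    (hwf : WfDvdMonoid (QuadraticAlgebra ℤ a b))
    (hN : ∀ z : QuadraticAlgebra ℤ a b, z ≠ 0 → z.norm ≠ 0) (z : QuadraticAlgebra ℤ a b)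
    (hz : z ≠ 0) (hn : |z.norm| < (2 * k + 1) ^ 2) : FactorsUniquely z := by
  subst ha
  subst hb
  exact factorsUniquely_of_norm_lt k hk hN z hz hn

end Pool.Agent.LibH4
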