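import Pool.Agent.Lib_helper4.T6Hyp

/-!
Classes of parameters, and the relation checks for actual parameters.
-/

namespace Pool.Agent.LibH4.T6

open Finset Ker

/-- implication -/
def imp (b x : Bool) : Bool := @Bool.rec (fun _ => Bool) true x b

lemma imp_spec {b x : Bool} (h : imp b x = true) (hb : b = true) : x = true := by
  subst hb; exact h

/-- membership test -/
def memL (u v : ℕ) (C : List (ℕ × ℕ)) : Bool :=
  @List.rec (ℕ × ℕ) (fun _ => Bool) false (fun x _ ih => @Bool.rec (fun _ => Bool) ih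
    (@Bool.rec (fun _ => Bool) ih true (Nat.beq x.2 v)) (Nat.beq x.1 u)) C

lemma memL_spec {u v : ℕ} {C : List (ℕ × ℕ)} (h : memL u v C = true) :
    ∃ (i : ℕ) (hi : i < C.length), C[i] = (u, v) := by
  induction C with
  | nil => simp [memL] at h
  | cons x xs ih =>
    have h' : @Bool.rec (fun _ => Bool) (memL u v xs)
      (@Bool.rec (fun _ => Bool) (memL u v xs) true (Nat.beq x.2 v)) (Nat.beq x.1 u) = true := h
    have hrec : memL u v xs = true → ∃ (i : ℕ) (hi : i < (x :: xs).length), (x :: xs)[i] = (u, v) := by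
      intro h2
      obtain ⟨i, hi, he⟩ := ih h2
      exact ⟨i + 1, by simpa using hi, by simpa using he⟩
    cases h1 : Nat.beq x.1 u with
    | false => rw [h1] at h'; exact hrec h'
    | true =>
      rw [h1] at h'
      cases h2 : Nat.beq x.2 v with
      | false => rw [h2] at h'; exact hrec h'
      | true =>
        refine ⟨0, by simp, ?_⟩
        rw [List.getElem_cons_zero]
        exact Prod.ext (Nat.eq_of_beq_eq_true h1) (Nat.eq_of_beq_eq_true h2)

/-- completeness check of a class list -/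
def memCheck (n : ℕ) (cls : ℕ → ℕ → Bool) (C : List (ℕ × ℕ)) : Bool :=
  allR (fun u => allR (fun v => imp (cls u v) (memL u v C)) n) n

lemma memCheck_spec {n : ℕ} {cls : ℕ → ℕ → Bool} {C : List (ℕ × ℕ)}
    (h : memCheck n cls C = true) {u v : ℕ} (hu : u < n) (hv : v < n) (hc : cls u v = true) :
    ∃ (i : ℕ) (hi : i < C.length), C[i] = (u, v) :=
  memL_spec (imp_spec (allR_spec (allR_spec h u hu) v hv) hc)

/-- discriminant modulo `p` -/
def dmod (p u v : ℕ) : ℕ := Nat.mod (Nat.add (Nat.mul (fB p u v) (fB p u v))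
  (Nat.mul (nat_lit 4) (fm p u v))) p

/-- inert classes for an odd prime -/
def clsO (p u v : ℕ) : Bool := strict (dmod p u v) fun d =>
  allR (fun x => @Bool.rec (fun _ => Bool) true false (Nat.beq (Nat.mod (Nat.mul x x) p) d)) p

/-- odd classes -/
def clsE (u v : ℕ) : Bool := @Bool.rec (fun _ => Bool) false
  (Nat.beq (fm (nat_lit 2) u v) (nat_lit 1)) (Nat.beq (fB (nat_lit 2) u v) (nat_lit 1))

lemma allR_of {p : ℕ → Bool} {n : ℕ} (h : ∀ m < n, p m = true) : allR p n = true := by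
  induction n with
  | zero => rfl
  | succ n ih =>
    have : allR p (n + 1) = @Bool.rec (fun _ => Bool) false (allR p n) (p n) := rfl
    rw [this, h n (by omega)]
    exact ih (fun m hm => h m (by omega))

lemma clsO_of {p n a t d : ℕ} (hp : p.Prime) (hpn : p ∣ n)
    (hd : d = ((a ^ 2 + 1) * t + a) ^ 2 + 4 * (1 + a * t)) (hj : jacobiSym d p = -1) :
    clsO p (a % n) (t % n) = true := by
  unfold clsO
  rw [strict_eq]
  apply allR_of
  intro x hx
  have : Fact p.Prime := ⟨hp⟩
  have hne : ¬ (x * x % p = dmod p (a % n) (t % n)) := by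
    intro h
    rw [← jacobiSym.legendreSym.to_jacobiSym, legendreSym.eq_neg_one_iff] at hj
    apply hj
    refine ⟨(x : ZMod p), ?_⟩
    have h1 := congrArg (fun y : ℕ => (y : ZMod p)) h
    have ca : ∀ a : ℕ, ((a % n : ℕ) : ZMod p) = (a : ZMod p) := by
      intro a
      rw [ZMod.natCast_eq_natCast_iff]
      exact (Nat.mod_modEq a n).of_dvd hpn
    have cB : ((fB p (a % n) (t % n) : ℕ) : ZMod p) = ((a : ZMod p) ^ 2 + 1) * t + a := by
      have : fB p (a % n) (t % n) = ((a % n * (a % n) + 1) * (t % n) + a % n) % p := rfl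
      rw [this, ZMod.natCast_mod]
      push_cast
      rw [ca, ca]; ring
    have cm : ((fm p (a % n) (t % n) : ℕ) : ZMod p) = 1 + (a : ZMod p) * t := by
      have : fm p (a % n) (t % n) = (a % n * (t % n) + 1) % p := rfl
      rw [this, ZMod.natCast_mod]
      push_cast
      rw [ca, ca]; ring
    have h2 : dmod p (a % n) (t % n) = (fB p (a % n) (t % n) * fB p (a % n) (t % n) +
      4 * fm p (a % n) (t % n)) % p := rfl
    simp only [h2, ZMod.natCast_mod] at h1
    push_cast at h1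
    rw [cB, cm] at h1
    rw [h1, hd]
    push_cast
    ring
  cases hb : Nat.beq (Nat.mod (Nat.mul x x) p) (dmod p (a % n) (t % n)) with
  | false => rfl
  | true => exact absurd (Nat.eq_of_beq_eq_true hb) hne

lemma clsE_of {n a t : ℕ} (h2n : 2 ∣ n) (hB : ((a ^ 2 + 1) * t + a) % 2 = 1)
    (hm : (1 + a * t) % 2 = 1) : clsE (a % n) (t % n) = true := by
  have e1 : fB 2 (a % n) (t % n) = 1 := by
    have : fB 2 (a % n) (t % n) = ((a % n * (a % n) + 1) * (t % n) + a % n) % 2 := rfl
    rw [this]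
    refine Eq.trans ?_ hB
    have ha : a % n ≡ a [MOD 2] := (Nat.mod_modEq a n).of_dvd h2n
    have ht : t % n ≡ t [MOD 2] := (Nat.mod_modEq t n).of_dvd h2n
    have : (a % n * (a % n) + 1) * (t % n) + a % n ≡ (a ^ 2 + 1) * t + a [MOD 2] := by
      rw [sq]
      exact (((ha.mul ha).add_right 1).mul ht).add ha
    exact this
  have e2 : fm 2 (a % n) (t % n) = 1 := by
    have : fm 2 (a % n) (t % n) = (a % n * (t % n) + 1) % 2 := rfl
    rw [this]
    refine Eq.trans ?_ hm
    have ha : a % n ≡ a [MOD 2] := (Nat.mod_modEq a n).of_dvd h2n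
    have ht : t % n ≡ t [MOD 2] := (Nat.mod_modEq t n).of_dvd h2n
    have : a % n * (t % n) + 1 ≡ 1 + a * t [MOD 2] := by
      rw [add_comm 1]
      exact (ha.mul ht).add_right 1
    exact this
  unfold clsE
  have e1' : fB (nat_lit 2) (a % n) (t % n) = 1 := e1
  have e2' : fm (nat_lit 2) (a % n) (t % n) = 1 := e2
  rw [e1', e2']
  rfl

/-- all the relations coming from the analytic part -/
def T5All (a t d : ℕ) : Prop := ∀ (q l : ℕ), 0 < q → l.Prime → Nat.Coprime q d →
  ¬ l ∣ 6 * q * d → ∀ chi : ZMod q → ZMod l, (∀ x, chi (-x) = - chi x) →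
  (∀ x y, chi (x * y) = chi x * chi y) →
  (∑ u ∈ range q, (u : ZMod l) * chi (u : ZMod q) = 0) → T5Eq a t q l chi

lemma rel_chk {n1 n2 l e1 e2 T1 T2 : ℕ} {L1 L2 : List (ℕ × ℕ)} [NeZero n1] [NeZero n2]
    [NeZero (n1 * n2)] (H : Hyp n1 n2 l e1 e2 T1 T2 L1 L2) {J : ℕ} {D1 D2 : List (ℕ × ℕ)}
    {TB : ℕ} (hc : check n1 n2 (n1 * n2) l e1 e2 T1 T2 J L1 L2 D1 D2 TB = true) {a t d : ℕ}
    (hT5 : T5All a t d) (hl : l.Prime) (hco : Nat.Coprime (n1 * n2) d)
    (hl6 : ¬ l ∣ 6 * (n1 * n2)) (hld : ¬ l ∣ d) {i j : ℕ} (hi : i < D1.length)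
    (hj : j < D2.length) (h1 : D1[i] = (a % n1, t % n1)) (h2 : D2[j] = (a % n2, t % n2)) :
    chk l (dg 48 (dg (48 * J) TB i) j) (a % l) (t % l) = true := by
  refine check_sound H J D1 D2 TB hc a t ?_ i j hi hj h1 h2
  apply hT5 (n1 * n2) l (Nat.pos_of_ne_zero (NeZero.ne _)) hl hco
  · intro h
    rcases (Nat.Prime.dvd_mul hl).mp h with h | h
    · exact hl6 h
    · exact hld h
  · exact chiF_neg H
  · exact chiF_mul H
  · exact chiF_bern H

end Pool.Agent.LibH4.T6
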