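import Pool.Agent.Lib_helper4.Ker

/-! generated data -/

namespace Pool.Agent.LibH4.T6

/-- representatives -/
def P16 : List (ℕ × ℕ) := [((nat_lit 1), (nat_lit 0)),((nat_lit 1), (nat_lit 1)),((nat_lit 1), (nat_lit 2)),((nat_lit 1), (nat_lit 3)),((nat_lit 1), (nat_lit 4)),((nat_lit 1), (nat_lit 5)),((nat_lit 1), (nat_lit 6)),((nat_lit 1), (nat_lit 7)),((nat_lit 1), (nat_lit 8)),((nat_lit 1), (nat_lit 9)),((nat_lit 1), (nat_lit 10)),((nat_lit 1), (nat_lit 11)),((nat_lit 1), (nat_lit 12)),((nat_lit 1), (nat_lit 13)),((nat_lit 1), (nat_lit 14)),((nat_lit 1), (nat_lit 15)),((nat_lit 0), (nat_lit 1)),((nat_lit 2), (nat_lit 1)),((nat_lit 4), (nat_lit 1)),((nat_lit 6), (nat_lit 1)),((nat_lit 8), (nat_lit 1)),((nat_lit 10), (nat_lit 1)),((nat_lit 12), (nat_lit 1)),((nat_lit 14), (nat_lit 1))]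
/-- classes -/
def C16 : List (ℕ × ℕ) := [((nat_lit 0), (nat_lit 1)),((nat_lit 0), (nat_lit 3)),((nat_lit 0), (nat_lit 5)),((nat_lit 0), (nat_lit 7)),((nat_lit 0), (nat_lit 9)),((nat_lit 0), (nat_lit 11)),((nat_lit 0), (nat_lit 13)),((nat_lit 0), (nat_lit 15)),((nat_lit 1), (nat_lit 0)),((nat_lit 1), (nat_lit 2)),((nat_lit 1), (nat_lit 4)),((nat_lit 1), (nat_lit 6)),((nat_lit 1), (nat_lit 8)),((nat_lit 1), (nat_lit 10)),((nat_lit 1), (nat_lit 12)),((nat_lit 1), (nat_lit 14)),((nat_lit 2), (nat_lit 1)),((nat_lit 2), (nat_lit 3)),((nat_lit 2), (nat_lit 5)),((nat_lit 2), (nat_lit 7)),((nat_lit 2), (nat_lit 9)),((nat_lit 2), (nat_lit 11)),((nat_lit 2), (nat_lit 13)),((nat_lit 2), (nat_lit 15)),((nat_lit 3), (nat_lit 0)),((nat_lit 3), (nat_lit 2)),((nat_lit 3), (nat_lit 4)),((nat_lit 3), (nat_lit 6)),((nat_lit 3), (nat_lit 8)),((nat_lit 3), (nat_lit 10)),((nat_lit 3), (nat_lit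 12)),((nat_lit 3), (nat_lit 14)),((nat_lit 4), (nat_lit 1)),((nat_lit 4), (nat_lit 3)),((nat_lit 4), (nat_lit 5)),((nat_lit 4), (nat_lit 7)),((nat_lit 4), (nat_lit 9)),((nat_lit 4), (nat_lit 11)),((nat_lit 4), (nat_lit 13)),((nat_lit 4), (nat_lit 15)),((nat_lit 5), (nat_lit 0)),((nat_lit 5), (nat_lit 2)),((nat_lit 5), (nat_lit 4)),((nat_lit 5), (nat_lit 6)),((nat_lit 5), (nat_lit 8)),((nat_lit 5), (nat_lit 10)),((nat_lit 5), (nat_lit 12)),((nat_lit 5), (nat_lit 14)),((nat_lit 6), (nat_lit 1)),((nat_lit 6), (nat_lit 3)),((nat_lit 6), (nat_lit 5)),((nat_lit 6), (nat_lit 7)),((nat_lit 6), (nat_lit 9)),((nat_lit 6), (nat_lit 11)),((nat_lit 6), (nat_lit 13)),((nat_lit 6), (nat_lit 15)),((nat_lit 7), (nat_lit 0)),((nat_lit 7), (nat_lit 2)),((nat_lit 7), (nat_lit 4)),((nat_lit 7), (nat_lit 6)),((nat_lit 7), (nat_lit 8)),((nat_lit 7), (nat_lit 10)),((nat_lit 7), (nat_lit 12)),((nat_lit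 7), (nat_lit 14)),((nat_lit 8), (nat_lit 1)),((nat_lit 8), (nat_lit 3)),((nat_lit 8), (nat_lit 5)),((nat_lit 8), (nat_lit 7)),((nat_lit 8), (nat_lit 9)),((nat_lit 8), (nat_lit 11)),((nat_lit 8), (nat_lit 13)),((nat_lit 8), (nat_lit 15)),((nat_lit 9), (nat_lit 0)),((nat_lit 9), (nat_lit 2)),((nat_lit 9), (nat_lit 4)),((nat_lit 9), (nat_lit 6)),((nat_lit 9), (nat_lit 8)),((nat_lit 9), (nat_lit 10)),((nat_lit 9), (nat_lit 12)),((nat_lit 9), (nat_lit 14)),((nat_lit 10), (nat_lit 1)),((nat_lit 10), (nat_lit 3)),((nat_lit 10), (nat_lit 5)),((nat_lit 10), (nat_lit 7)),((nat_lit 10), (nat_lit 9)),((nat_lit 10), (nat_lit 11)),((nat_lit 10), (nat_lit 13)),((nat_lit 10), (nat_lit 15)),((nat_lit 11), (nat_lit 0)),((nat_lit 11), (nat_lit 2)),((nat_lit 11), (nat_lit 4)),((nat_lit 11), (nat_lit 6)),((nat_lit 11), (nat_lit 8)),((nat_lit 11), (nat_lit 10)),((nat_lit 11), (nat_lit 12)),((nat_lit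 11), (nat_lit 14)),((nat_lit 12), (nat_lit 1)),((nat_lit 12), (nat_lit 3)),((nat_lit 12), (nat_lit 5)),((nat_lit 12), (nat_lit 7)),((nat_lit 12), (nat_lit 9)),((nat_lit 12), (nat_lit 11)),((nat_lit 12), (nat_lit 13)),((nat_lit 12), (nat_lit 15)),((nat_lit 13), (nat_lit 0)),((nat_lit 13), (nat_lit 2)),((nat_lit 13), (nat_lit 4)),((nat_lit 13), (nat_lit 6)),((nat_lit 13), (nat_lit 8)),((nat_lit 13), (nat_lit 10)),((nat_lit 13), (nat_lit 12)),((nat_lit 13), (nat_lit 14)),((nat_lit 14), (nat_lit 1)),((nat_lit 14), (nat_lit 3)),((nat_lit 14), (nat_lit 5)),((nat_lit 14), (nat_lit 7)),((nat_lit 14), (nat_lit 9)),((nat_lit 14), (nat_lit 11)),((nat_lit 14), (nat_lit 13)),((nat_lit 14), (nat_lit 15)),((nat_lit 15), (nat_lit 0)),((nat_lit 15), (nat_lit 2)),((nat_lit 15), (nat_lit 4)),((nat_lit 15), (nat_lit 6)),((nat_lit 15), (nat_lit 8)),((nat_lit 15), (nat_lit 10)),((nat_lit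 15), (nat_lit 12)),((nat_lit 15), (nat_lit 14))]

/-- representatives -/
def P7 : List (ℕ × ℕ) := [((nat_lit 1), (nat_lit 0)),((nat_lit 1), (nat_lit 1)),((nat_lit 1), (nat_lit 2)),((nat_lit 1), (nat_lit 3)),((nat_lit 1), (nat_lit 4)),((nat_lit 1), (nat_lit 5)),((nat_lit 1), (nat_lit 6)),((nat_lit 0), (nat_lit 1))]
/-- classes -/
def C7 : List (ℕ × ℕ) := [((nat_lit 0), (nat_lit 1)),((nat_lit 0), (nat_lit 3)),((nat_lit 0), (nat_lit 4)),((nat_lit 0), (nat_lit 6)),((nat_lit 1), (nat_lit 0)),((nat_lit 1), (nat_lit 1)),((nat_lit 1), (nat_lit 4)),((nat_lit 1), (nat_lit 5)),((nat_lit 2), (nat_lit 1)),((nat_lit 2), (nat_lit 2)),((nat_lit 2), (nat_lit 5)),((nat_lit 2), (nat_lit 6)),((nat_lit 3), (nat_lit 0)),((nat_lit 3), (nat_lit 1)),((nat_lit 3), (nat_lit 5)),((nat_lit 3), (nat_lit 6)),((nat_lit 4), (nat_lit 0)),((nat_lit 4), (nat_lit 1)),((nat_lit 4), (nat_lit 2)),((nat_lit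 4), (nat_lit 6)),((nat_lit 5), (nat_lit 1)),((nat_lit 5), (nat_lit 2)),((nat_lit 5), (nat_lit 5)),((nat_lit 5), (nat_lit 6)),((nat_lit 6), (nat_lit 0)),((nat_lit 6), (nat_lit 2)),((nat_lit 6), (nat_lit 3)),((nat_lit 6), (nat_lit 6))]

/-- representatives -/
def P20 : List (ℕ × ℕ) := [((nat_lit 21), (nat_lit 0)),((nat_lit 21), (nat_lit 16)),((nat_lit 21), (nat_lit 32)),((nat_lit 21), (nat_lit 48)),((nat_lit 21), (nat_lit 64)),((nat_lit 5), (nat_lit 16)),((nat_lit 21), (nat_lit 5)),((nat_lit 21), (nat_lit 21)),((nat_lit 21), (nat_lit 37)),((nat_lit 21), (nat_lit 53)),((nat_lit 21), (nat_lit 69)),((nat_lit 5), (nat_lit 21)),((nat_lit 21), (nat_lit 10)),((nat_lit 21), (nat_lit 26)),((nat_lit 21), (nat_lit 42)),((nat_lit 21), (nat_lit 58)),((nat_lit 21), (nat_lit 74)),((nat_lit 5), (nat_lit 26)),((nat_lit 21), (nat_lit 15)),((nat_lit 21), (nat_lit 31)),((nat_lit 21), (nat_lit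 47)),((nat_lit 21), (nat_lit 63)),((nat_lit 21), (nat_lit 79)),((nat_lit 5), (nat_lit 31)),((nat_lit 16), (nat_lit 5)),((nat_lit 16), (nat_lit 21)),((nat_lit 16), (nat_lit 37)),((nat_lit 16), (nat_lit 53)),((nat_lit 16), (nat_lit 69)),((nat_lit 0), (nat_lit 21)),((nat_lit 26), (nat_lit 5)),((nat_lit 26), (nat_lit 21)),((nat_lit 26), (nat_lit 37)),((nat_lit 26), (nat_lit 53)),((nat_lit 26), (nat_lit 69)),((nat_lit 10), (nat_lit 21))]
/-- classes -/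
def C20 : List (ℕ × ℕ) := [((nat_lit 0), (nat_lit 3)),((nat_lit 0), (nat_lit 7)),((nat_lit 0), (nat_lit 13)),((nat_lit 0), (nat_lit 17)),((nat_lit 1), (nat_lit 2)),((nat_lit 1), (nat_lit 6)),((nat_lit 1), (nat_lit 12)),((nat_lit 1), (nat_lit 16)),((nat_lit 2), (nat_lit 3)),((nat_lit 2), (nat_lit 5)),((nat_lit 2), (nat_lit 13)),((nat_lit 2), (nat_lit 15)),((nat_lit 3), (nat_lit 0)),((nat_lit 3), (nat_lit 2)),((nat_lit 3), (nat_lit 10)),((nat_lit 3), (nat_lit 12)),((nat_lit 4), (nat_lit 3)),((nat_lit 4), (nat_lit 9)),((nat_lit 4), (nat_lit 13)),((nat_lit 4), (nat_lit 19)),((nat_lit 5), (nat_lit 2)),((nat_lit 5), (nat_lit 8)),((nat_lit 5), (nat_lit 12)),((nat_lit 5), (nat_lit 18)),((nat_lit 6), (nat_lit 1)),((nat_lit 6), (nat_lit 7)),((nat_lit 6), (nat_lit 11)),((nat_lit 6), (nat_lit 17)),((nat_lit 7), (nat_lit 0)),((nat_lit 7), (nat_lit 8)),((nat_lit 7), (nat_lit 10)),((nat_lit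 7), (nat_lit 18)),((nat_lit 8), (nat_lit 5)),((nat_lit 8), (nat_lit 7)),((nat_lit 8), (nat_lit 15)),((nat_lit 8), (nat_lit 17)),((nat_lit 9), (nat_lit 4)),((nat_lit 9), (nat_lit 8)),((nat_lit 9), (nat_lit 14)),((nat_lit 9), (nat_lit 18)),((nat_lit 10), (nat_lit 3)),((nat_lit 10), (nat_lit 7)),((nat_lit 10), (nat_lit 13)),((nat_lit 10), (nat_lit 17)),((nat_lit 11), (nat_lit 2)),((nat_lit 11), (nat_lit 6)),((nat_lit 11), (nat_lit 12)),((nat_lit 11), (nat_lit 16)),((nat_lit 12), (nat_lit 3)),((nat_lit 12), (nat_lit 5)),((nat_lit 12), (nat_lit 13)),((nat_lit 12), (nat_lit 15)),((nat_lit 13), (nat_lit 0)),((nat_lit 13), (nat_lit 2)),((nat_lit 13), (nat_lit 10)),((nat_lit 13), (nat_lit 12)),((nat_lit 14), (nat_lit 3)),((nat_lit 14), (nat_lit 9)),((nat_lit 14), (nat_lit 13)),((nat_lit 14), (nat_lit 19)),((nat_lit 15), (nat_lit 2)),((nat_lit 15), (nat_lit 8)),((nat_lit 15),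 (nat_lit 12)),((nat_lit 15), (nat_lit 18)),((nat_lit 16), (nat_lit 1)),((nat_lit 16), (nat_lit 7)),((nat_lit 16), (nat_lit 11)),((nat_lit 16), (nat_lit 17)),((nat_lit 17), (nat_lit 0)),((nat_lit 17), (nat_lit 8)),((nat_lit 17), (nat_lit 10)),((nat_lit 17), (nat_lit 18)),((nat_lit 18), (nat_lit 5)),((nat_lit 18), (nat_lit 7)),((nat_lit 18), (nat_lit 15)),((nat_lit 18), (nat_lit 17)),((nat_lit 19), (nat_lit 4)),((nat_lit 19), (nat_lit 8)),((nat_lit 19), (nat_lit 14)),((nat_lit 19), (nat_lit 18))]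

/-- representatives -/
def P15 : List (ℕ × ℕ) := [((nat_lit 16), (nat_lit 0)),((nat_lit 16), (nat_lit 6)),((nat_lit 16), (nat_lit 12)),((nat_lit 16), (nat_lit 18)),((nat_lit 16), (nat_lit 24)),((nat_lit 10), (nat_lit 6)),((nat_lit 16), (nat_lit 10)),((nat_lit 16), (nat_lit 16)),((nat_lit 16), (nat_lit 22)),((nat_lit 16), (nat_lit 28)),((nat_lit 16), (nat_lit 34)),((nat_lit 10), (nat_lit 16)),((nat_lit 16), (nat_lit 20)),((nat_lit 16), (nat_lit 26)),((nat_lit 16), (nat_lit 32)),((nat_lit 16), (nat_lit 38)),((nat_lit 16), (nat_lit 44)),((nat_lit 10), (nat_lit 26)),((nat_lit 6), (nat_lit 10)),((nat_lit 6), (nat_lit 16)),((nat_lit 6), (nat_lit 22)),((nat_lit 6), (nat_lit 28)),((nat_lit 6), (nat_lit 34)),((nat_lit 0), (nat_lit 16))]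
/-- classes -/
def C15 : List (ℕ × ℕ) := [((nat_lit 0), (nat_lit 2)),((nat_lit 0), (nat_lit 7)),((nat_lit 0), (nat_lit 8)),((nat_lit 0), (nat_lit 13)),((nat_lit 1), (nat_lit 1)),((nat_lit 1), (nat_lit 6)),((nat_lit 1), (nat_lit 7)),((nat_lit 1), (nat_lit 12)),((nat_lit 2), (nat_lit 0)),((nat_lit 2), (nat_lit 3)),((nat_lit 2), (nat_lit 5)),((nat_lit 2), (nat_lit 8)),((nat_lit 3), (nat_lit 2)),((nat_lit 3), (nat_lit 5)),((nat_lit 3), (nat_lit 7)),((nat_lit 3), (nat_lit 10)),((nat_lit 4), (nat_lit 3)),((nat_lit 4), (nat_lit 4)),((nat_lit 4), (nat_lit 9)),((nat_lit 4), (nat_lit 13)),((nat_lit 5), (nat_lit 2)),((nat_lit 5), (nat_lit 3)),((nat_lit 5), (nat_lit 8)),((nat_lit 5), (nat_lit 12)),((nat_lit 6), (nat_lit 1)),((nat_lit 6), (nat_lit 2)),((nat_lit 6), (nat_lit 7)),((nat_lit 6), (nat_lit 11)),((nat_lit 7), (nat_lit 0)),((nat_lit 7), (nat_lit 3)),((nat_lit 7), (nat_lit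 10)),((nat_lit 7), (nat_lit 13)),((nat_lit 8), (nat_lit 0)),((nat_lit 8), (nat_lit 2)),((nat_lit 8), (nat_lit 5)),((nat_lit 8), (nat_lit 12)),((nat_lit 9), (nat_lit 4)),((nat_lit 9), (nat_lit 8)),((nat_lit 9), (nat_lit 13)),((nat_lit 9), (nat_lit 14)),((nat_lit 10), (nat_lit 3)),((nat_lit 10), (nat_lit 7)),((nat_lit 10), (nat_lit 12)),((nat_lit 10), (nat_lit 13)),((nat_lit 11), (nat_lit 2)),((nat_lit 11), (nat_lit 6)),((nat_lit 11), (nat_lit 11)),((nat_lit 11), (nat_lit 12)),((nat_lit 12), (nat_lit 5)),((nat_lit 12), (nat_lit 8)),((nat_lit 12), (nat_lit 10)),((nat_lit 12), (nat_lit 13)),((nat_lit 13), (nat_lit 0)),((nat_lit 13), (nat_lit 7)),((nat_lit 13), (nat_lit 10)),((nat_lit 13), (nat_lit 12)),((nat_lit 14), (nat_lit 3)),((nat_lit 14), (nat_lit 8)),((nat_lit 14), (nat_lit 9)),((nat_lit 14), (nat_lit 14))]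

/-- representatives -/
def P9 : List (ℕ × ℕ) := [((nat_lit 1), (nat_lit 0)),((nat_lit 1), (nat_lit 1)),((nat_lit 1), (nat_lit 2)),((nat_lit 1), (nat_lit 3)),((nat_lit 1), (nat_lit 4)),((nat_lit 1), (nat_lit 5)),((nat_lit 1), (nat_lit 6)),((nat_lit 1), (nat_lit 7)),((nat_lit 1), (nat_lit 8)),((nat_lit 0), (nat_lit 1)),((nat_lit 3), (nat_lit 1)),((nat_lit 6), (nat_lit 1))]
/-- classes -/
def C9 : List (ℕ × ℕ) := [((nat_lit 0), (nat_lit 1)),((nat_lit 0), (nat_lit 2)),((nat_lit 0), (nat_lit 4)),((nat_lit 0), (nat_lit 5)),((nat_lit 0), (nat_lit 7)),((nat_lit 0), (nat_lit 8)),((nat_lit 1), (nat_lit 0)),((nat_lit 1), (nat_lit 1)),((nat_lit 1), (nat_lit 3)),((nat_lit 1), (nat_lit 4)),((nat_lit 1), (nat_lit 6)),((nat_lit 1), (nat_lit 7)),((nat_lit 2), (nat_lit 0)),((nat_lit 2), (nat_lit 2)),((nat_lit 2), (nat_lit 3)),((nat_lit 2), (nat_lit 5)),((nat_lit 2), (nat_lit 6)),((nat_lit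 2), (nat_lit 8)),((nat_lit 3), (nat_lit 1)),((nat_lit 3), (nat_lit 2)),((nat_lit 3), (nat_lit 4)),((nat_lit 3), (nat_lit 5)),((nat_lit 3), (nat_lit 7)),((nat_lit 3), (nat_lit 8)),((nat_lit 4), (nat_lit 0)),((nat_lit 4), (nat_lit 1)),((nat_lit 4), (nat_lit 3)),((nat_lit 4), (nat_lit 4)),((nat_lit 4), (nat_lit 6)),((nat_lit 4), (nat_lit 7)),((nat_lit 5), (nat_lit 0)),((nat_lit 5), (nat_lit 2)),((nat_lit 5), (nat_lit 3)),((nat_lit 5), (nat_lit 5)),((nat_lit 5), (nat_lit 6)),((nat_lit 5), (nat_lit 8)),((nat_lit 6), (nat_lit 1)),((nat_lit 6), (nat_lit 2)),((nat_lit 6), (nat_lit 4)),((nat_lit 6), (nat_lit 5)),((nat_lit 6), (nat_lit 7)),((nat_lit 6), (nat_lit 8)),((nat_lit 7), (nat_lit 0)),((nat_lit 7), (nat_lit 1)),((nat_lit 7), (nat_lit 3)),((nat_lit 7), (nat_lit 4)),((nat_lit 7), (nat_lit 6)),((nat_lit 7), (nat_lit 7)),((nat_lit 8), (nat_lit 0)),((nat_lit 8), (nat_lit 2)),((nat_lit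 8), (nat_lit 3)),((nat_lit 8), (nat_lit 5)),((nat_lit 8), (nat_lit 6)),((nat_lit 8), (nat_lit 8))]

/-- representatives -/
def P13 : List (ℕ × ℕ) := [((nat_lit 1), (nat_lit 0)),((nat_lit 1), (nat_lit 1)),((nat_lit 1), (nat_lit 2)),((nat_lit 1), (nat_lit 3)),((nat_lit 1), (nat_lit 4)),((nat_lit 1), (nat_lit 5)),((nat_lit 1), (nat_lit 6)),((nat_lit 1), (nat_lit 7)),((nat_lit 1), (nat_lit 8)),((nat_lit 1), (nat_lit 9)),((nat_lit 1), (nat_lit 10)),((nat_lit 1), (nat_lit 11)),((nat_lit 1), (nat_lit 12)),((nat_lit 0), (nat_lit 1))]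
/-- classes -/
def C13 : List (ℕ × ℕ) := [((nat_lit 0), (nat_lit 1)),((nat_lit 0), (nat_lit 2)),((nat_lit 0), (nat_lit 4)),((nat_lit 0), (nat_lit 9)),((nat_lit 0), (nat_lit 11)),((nat_lit 0), (nat_lit 12)),((nat_lit 1), (nat_lit 0)),((nat_lit 1), (nat_lit 2)),((nat_lit 1), (nat_lit 5)),((nat_lit 1), (nat_lit 6)),((nat_lit 1), (nat_lit 9)),((nat_lit 1), (nat_lit 11)),((nat_lit 2), (nat_lit 0)),((nat_lit 2), (nat_lit 2)),((nat_lit 2), (nat_lit 3)),((nat_lit 2), (nat_lit 5)),((nat_lit 2), (nat_lit 10)),((nat_lit 2), (nat_lit 12)),((nat_lit 3), (nat_lit 2)),((nat_lit 3), (nat_lit 3)),((nat_lit 3), (nat_lit 6)),((nat_lit 3), (nat_lit 8)),((nat_lit 3), (nat_lit 10)),((nat_lit 3), (nat_lit 12)),((nat_lit 4), (nat_lit 0)),((nat_lit 4), (nat_lit 1)),((nat_lit 4), (nat_lit 2)),((nat_lit 4), (nat_lit 8)),((nat_lit 4), (nat_lit 9)),((nat_lit 4), (nat_lit 10)),((nat_lit 5), (nat_lit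 3)),((nat_lit 5), (nat_lit 4)),((nat_lit 5), (nat_lit 6)),((nat_lit 5), (nat_lit 8)),((nat_lit 5), (nat_lit 10)),((nat_lit 5), (nat_lit 11)),((nat_lit 6), (nat_lit 1)),((nat_lit 6), (nat_lit 3)),((nat_lit 6), (nat_lit 6)),((nat_lit 6), (nat_lit 7)),((nat_lit 6), (nat_lit 10)),((nat_lit 6), (nat_lit 12)),((nat_lit 7), (nat_lit 1)),((nat_lit 7), (nat_lit 3)),((nat_lit 7), (nat_lit 6)),((nat_lit 7), (nat_lit 7)),((nat_lit 7), (nat_lit 10)),((nat_lit 7), (nat_lit 12)),((nat_lit 8), (nat_lit 2)),((nat_lit 8), (nat_lit 3)),((nat_lit 8), (nat_lit 5)),((nat_lit 8), (nat_lit 7)),((nat_lit 8), (nat_lit 9)),((nat_lit 8), (nat_lit 10)),((nat_lit 9), (nat_lit 0)),((nat_lit 9), (nat_lit 3)),((nat_lit 9), (nat_lit 4)),((nat_lit 9), (nat_lit 5)),((nat_lit 9), (nat_lit 11)),((nat_lit 9), (nat_lit 12)),((nat_lit 10), (nat_lit 1)),((nat_lit 10), (nat_lit 3)),((nat_lit 10), (nat_lit 5)),((nat_lit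 10), (nat_lit 7)),((nat_lit 10), (nat_lit 10)),((nat_lit 10), (nat_lit 11)),((nat_lit 11), (nat_lit 0)),((nat_lit 11), (nat_lit 1)),((nat_lit 11), (nat_lit 3)),((nat_lit 11), (nat_lit 8)),((nat_lit 11), (nat_lit 10)),((nat_lit 11), (nat_lit 11)),((nat_lit 12), (nat_lit 0)),((nat_lit 12), (nat_lit 2)),((nat_lit 12), (nat_lit 4)),((nat_lit 12), (nat_lit 7)),((nat_lit 12), (nat_lit 8)),((nat_lit 12), (nat_lit 11))]

/-- representatives -/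
def P11 : List (ℕ × ℕ) := [((nat_lit 1), (nat_lit 0)),((nat_lit 1), (nat_lit 1)),((nat_lit 1), (nat_lit 2)),((nat_lit 1), (nat_lit 3)),((nat_lit 1), (nat_lit 4)),((nat_lit 1), (nat_lit 5)),((nat_lit 1), (nat_lit 6)),((nat_lit 1), (nat_lit 7)),((nat_lit 1), (nat_lit 8)),((nat_lit 1), (nat_lit 9)),((nat_lit 1), (nat_lit 10)),((nat_lit 0), (nat_lit 1))]
/-- classes -/
def C11 : List (ℕ × ℕ) := [((nat_lit 0), (nat_lit 2)),((nat_lit 0), (nat_lit 3)),((nat_lit 0), (nat_lit 5)),((nat_lit 0), (nat_lit 6)),((nat_lit 0), (nat_lit 8)),((nat_lit 0), (nat_lit 9)),((nat_lit 1), (nat_lit 1)),((nat_lit 1), (nat_lit 3)),((nat_lit 1), (nat_lit 4)),((nat_lit 1), (nat_lit 5)),((nat_lit 1), (nat_lit 6)),((nat_lit 1), (nat_lit 8)),((nat_lit 2), (nat_lit 0)),((nat_lit 2), (nat_lit 1)),((nat_lit 2), (nat_lit 2)),((nat_lit 2), (nat_lit 7)),((nat_lit 2), (nat_lit 8)),((nat_lit 2), (nat_lit 9)),((nat_lit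 3), (nat_lit 0)),((nat_lit 3), (nat_lit 2)),((nat_lit 3), (nat_lit 3)),((nat_lit 3), (nat_lit 5)),((nat_lit 3), (nat_lit 6)),((nat_lit 3), (nat_lit 10)),((nat_lit 4), (nat_lit 1)),((nat_lit 4), (nat_lit 2)),((nat_lit 4), (nat_lit 3)),((nat_lit 4), (nat_lit 5)),((nat_lit 4), (nat_lit 6)),((nat_lit 4), (nat_lit 7)),((nat_lit 5), (nat_lit 0)),((nat_lit 5), (nat_lit 1)),((nat_lit 5), (nat_lit 4)),((nat_lit 5), (nat_lit 6)),((nat_lit 5), (nat_lit 9)),((nat_lit 5), (nat_lit 10)),((nat_lit 6), (nat_lit 0)),((nat_lit 6), (nat_lit 1)),((nat_lit 6), (nat_lit 2)),((nat_lit 6), (nat_lit 5)),((nat_lit 6), (nat_lit 7)),((nat_lit 6), (nat_lit 10)),((nat_lit 7), (nat_lit 4)),((nat_lit 7), (nat_lit 5)),((nat_lit 7), (nat_lit 6)),((nat_lit 7), (nat_lit 8)),((nat_lit 7), (nat_lit 9)),((nat_lit 7), (nat_lit 10)),((nat_lit 8), (nat_lit 0)),((nat_lit 8), (nat_lit 1)),((nat_lit 8), (nat_lit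 5)),((nat_lit 8), (nat_lit 6)),((nat_lit 8), (nat_lit 8)),((nat_lit 8), (nat_lit 9)),((nat_lit 9), (nat_lit 0)),((nat_lit 9), (nat_lit 2)),((nat_lit 9), (nat_lit 3)),((nat_lit 9), (nat_lit 4)),((nat_lit 9), (nat_lit 9)),((nat_lit 9), (nat_lit 10)),((nat_lit 10), (nat_lit 3)),((nat_lit 10), (nat_lit 5)),((nat_lit 10), (nat_lit 6)),((nat_lit 10), (nat_lit 7)),((nat_lit 10), (nat_lit 8)),((nat_lit 10), (nat_lit 10))]

/-- representatives -/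
def P17 : List (ℕ × ℕ) := [((nat_lit 1), (nat_lit 0)),((nat_lit 1), (nat_lit 1)),((nat_lit 1), (nat_lit 2)),((nat_lit 1), (nat_lit 3)),((nat_lit 1), (nat_lit 4)),((nat_lit 1), (nat_lit 5)),((nat_lit 1), (nat_lit 6)),((nat_lit 1), (nat_lit 7)),((nat_lit 1), (nat_lit 8)),((nat_lit 1), (nat_lit 9)),((nat_lit 1), (nat_lit 10)),((nat_lit 1), (nat_lit 11)),((nat_lit 1), (nat_lit 12)),((nat_lit 1), (nat_lit 13)),((nat_lit 1), (nat_lit 14)),((nat_lit 1), (nat_lit 15)),((nat_lit 1), (nat_lit 16)),((nat_lit 0), (nat_lit 1))]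
/-- classes -/
def C17 : List (ℕ × ℕ) := [((nat_lit 0), (nat_lit 1)),((nat_lit 0), (nat_lit 4)),((nat_lit 0), (nat_lit 5)),((nat_lit 0), (nat_lit 6)),((nat_lit 0), (nat_lit 11)),((nat_lit 0), (nat_lit 12)),((nat_lit 0), (nat_lit 13)),((nat_lit 0), (nat_lit 16)),((nat_lit 1), (nat_lit 0)),((nat_lit 1), (nat_lit 2)),((nat_lit 1), (nat_lit 3)),((nat_lit 1), (nat_lit 6)),((nat_lit 1), (nat_lit 9)),((nat_lit 1), (nat_lit 12)),((nat_lit 1), (nat_lit 13)),((nat_lit 1), (nat_lit 15)),((nat_lit 2), (nat_lit 1)),((nat_lit 2), (nat_lit 2)),((nat_lit 2), (nat_lit 3)),((nat_lit 2), (nat_lit 4)),((nat_lit 2), (nat_lit 6)),((nat_lit 2), (nat_lit 9)),((nat_lit 2), (nat_lit 13)),((nat_lit 2), (nat_lit 16)),((nat_lit 3), (nat_lit 3)),((nat_lit 3), (nat_lit 4)),((nat_lit 3), (nat_lit 7)),((nat_lit 3), (nat_lit 9)),((nat_lit 3), (nat_lit 10)),((nat_lit 3), (nat_lit 12)),((nat_lit 3), (nat_lit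 15)),((nat_lit 3), (nat_lit 16)),((nat_lit 4), (nat_lit 0)),((nat_lit 4), (nat_lit 6)),((nat_lit 4), (nat_lit 8)),((nat_lit 4), (nat_lit 9)),((nat_lit 4), (nat_lit 10)),((nat_lit 4), (nat_lit 13)),((nat_lit 4), (nat_lit 14)),((nat_lit 4), (nat_lit 15)),((nat_lit 5), (nat_lit 0)),((nat_lit 5), (nat_lit 2)),((nat_lit 5), (nat_lit 4)),((nat_lit 5), (nat_lit 5)),((nat_lit 5), (nat_lit 8)),((nat_lit 5), (nat_lit 11)),((nat_lit 5), (nat_lit 14)),((nat_lit 5), (nat_lit 15)),((nat_lit 6), (nat_lit 0)),((nat_lit 6), (nat_lit 1)),((nat_lit 6), (nat_lit 3)),((nat_lit 6), (nat_lit 6)),((nat_lit 6), (nat_lit 10)),((nat_lit 6), (nat_lit 13)),((nat_lit 6), (nat_lit 15)),((nat_lit 6), (nat_lit 16)),((nat_lit 7), (nat_lit 4)),((nat_lit 7), (nat_lit 5)),((nat_lit 7), (nat_lit 6)),((nat_lit 7), (nat_lit 9)),((nat_lit 7), (nat_lit 11)),((nat_lit 7), (nat_lit 14)),((nat_lit 7), (nat_lit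 15)),((nat_lit 7), (nat_lit 16)),((nat_lit 8), (nat_lit 1)),((nat_lit 8), (nat_lit 4)),((nat_lit 8), (nat_lit 6)),((nat_lit 8), (nat_lit 7)),((nat_lit 8), (nat_lit 8)),((nat_lit 8), (nat_lit 9)),((nat_lit 8), (nat_lit 11)),((nat_lit 8), (nat_lit 14)),((nat_lit 9), (nat_lit 3)),((nat_lit 9), (nat_lit 6)),((nat_lit 9), (nat_lit 8)),((nat_lit 9), (nat_lit 9)),((nat_lit 9), (nat_lit 10)),((nat_lit 9), (nat_lit 11)),((nat_lit 9), (nat_lit 13)),((nat_lit 9), (nat_lit 16)),((nat_lit 10), (nat_lit 1)),((nat_lit 10), (nat_lit 2)),((nat_lit 10), (nat_lit 3)),((nat_lit 10), (nat_lit 6)),((nat_lit 10), (nat_lit 8)),((nat_lit 10), (nat_lit 11)),((nat_lit 10), (nat_lit 12)),((nat_lit 10), (nat_lit 13)),((nat_lit 11), (nat_lit 0)),((nat_lit 11), (nat_lit 1)),((nat_lit 11), (nat_lit 2)),((nat_lit 11), (nat_lit 4)),((nat_lit 11), (nat_lit 7)),((nat_lit 11), (nat_lit 11)),((nat_lit 11),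 (nat_lit 14)),((nat_lit 11), (nat_lit 16)),((nat_lit 12), (nat_lit 0)),((nat_lit 12), (nat_lit 2)),((nat_lit 12), (nat_lit 3)),((nat_lit 12), (nat_lit 6)),((nat_lit 12), (nat_lit 9)),((nat_lit 12), (nat_lit 12)),((nat_lit 12), (nat_lit 13)),((nat_lit 12), (nat_lit 15)),((nat_lit 13), (nat_lit 0)),((nat_lit 13), (nat_lit 2)),((nat_lit 13), (nat_lit 3)),((nat_lit 13), (nat_lit 4)),((nat_lit 13), (nat_lit 7)),((nat_lit 13), (nat_lit 8)),((nat_lit 13), (nat_lit 9)),((nat_lit 13), (nat_lit 11)),((nat_lit 14), (nat_lit 1)),((nat_lit 14), (nat_lit 2)),((nat_lit 14), (nat_lit 5)),((nat_lit 14), (nat_lit 7)),((nat_lit 14), (nat_lit 8)),((nat_lit 14), (nat_lit 10)),((nat_lit 14), (nat_lit 13)),((nat_lit 14), (nat_lit 14)),((nat_lit 15), (nat_lit 1)),((nat_lit 15), (nat_lit 4)),((nat_lit 15), (nat_lit 8)),((nat_lit 15), (nat_lit 11)),((nat_lit 15), (nat_lit 13)),((nat_lit 15),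 (nat_lit 14)),((nat_lit 15), (nat_lit 15)),((nat_lit 15), (nat_lit 16)),((nat_lit 16), (nat_lit 0)),((nat_lit 16), (nat_lit 2)),((nat_lit 16), (nat_lit 4)),((nat_lit 16), (nat_lit 5)),((nat_lit 16), (nat_lit 8)),((nat_lit 16), (nat_lit 11)),((nat_lit 16), (nat_lit 14)),((nat_lit 16), (nat_lit 15))]

end Pool.Agent.LibH4.T6
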