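import Pool.Agent.Lib_helper4.T6Rel

/-! the elimination -/

namespace Pool.Agent.LibH4.T6

open Ker

/-- lists for the small moduli -/
def C5 : List (ℕ × ℕ) := [((nat_lit 0), (nat_lit 2)),((nat_lit 0), (nat_lit 3)),((nat_lit 1), (nat_lit 1)),((nat_lit 1), (nat_lit 2)),((nat_lit 2), (nat_lit 0)),((nat_lit 2), (nat_lit 3)),((nat_lit 3), (nat_lit 0)),((nat_lit 3), (nat_lit 2)),((nat_lit 4), (nat_lit 3)),((nat_lit 4), (nat_lit 4))]
/-- lists for the small moduli -/
def C3 : List (ℕ × ℕ) := [((nat_lit 0), (nat_lit 1)),((nat_lit 0), (nat_lit 2)),((nat_lit 1), (nat_lit 0)),((nat_lit 1), (nat_lit 1)),((nat_lit 2), (nat_lit 0)),((nat_lit 2), (nat_lit 2))]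

/-- index of classes modulo 20 -/
def IX20 : ℕ := nat_lit 2383050718315502003759692703670294548091067658436931205993676563995900409931154075065964626690133131992656693910732956780018688095082515541755371707839453433842460266973192466858091110088069221066606889950588277318496547266215223882543699318282564835498218465571080965315444933113193801402223089747553934004999197777517991762569285140435034884701500157442758333099716026318641003939784220227415021075104506460940655407428250916449407101865518327170243196629355704772303151686374598318212387595819254665111328725751737435231427849035263745343785833562192102502662059297898846425919930357333046695186731838721656715427832765406005573588847402370388383200943650538232558438366012101092820449880895834382941690860293739463280156002909450664351433518242741604552934043960331243289374118137591483040054235133474803711640756701096804409189869374087268820108214096775462559313365306643959092820735416246561241987115650735427299206354145789256334773977895332540296724480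
/-- index of classes modulo 15 -/
def IX15 : ℕ := nat_lit 16466611586058069186596064340593331619043302354186504015887339630691102706477553265703409102095622848584868384624445275327234340029285005805769414324113752706875134320306805702380071731231487205423053930757477636423599211762605508408108893797652319393775230555036198622050789453469283970421212646915910944072823139910090508294411075741872790804379623247095348167241172944005729094264803772161091174014282234468501559958016716754199799379954798797458487024426166343150441892542614387483235385103825690400833416645512226771422483805805939261440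

/-- innermost stage: classes modulo 11 -/
def st11 (i16 i13 a5 t5 a7 t7 : ℕ) : Bool :=
  allI (fun i11 _ =>
    imp (chk (nat_lit 5) (dg (nat_lit 48) (dg (nat_lit 3168) TB_13_11_5_0 i13) i11) a5 t5) <|
    imp (chk (nat_lit 7) (dg (nat_lit 48) (dg (nat_lit 3168) TB_13_11_7_0 i13) i11) a7 t7) <|
    imp (chk (nat_lit 5) (dg (nat_lit 48) (dg (nat_lit 3168) TB_16_11_5_0 i16) i11) a5 t5) false)
    C11 (nat_lit 0)

/-- stage: classes modulo 17 -/
def st17 (i16 i13 a13 t13 a5 t5 i7 a7 t7 : ℕ) : Bool :=
  allI (fun i17 _ =>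
    imp (chk (nat_lit 5) (dg (nat_lit 48) (dg (nat_lit 6528) TB_7_17_5_0 i7) i17) a5 t5) <|
    imp (chk (nat_lit 13) (dg (nat_lit 48) (dg (nat_lit 6528) TB_7_17_13_0 i7) i17) a13 t13) <|
    imp (chk (nat_lit 5) (dg (nat_lit 48) (dg (nat_lit 6528) TB_13_17_5_0 i13) i17) a5 t5) <|
    imp (chk (nat_lit 13) (dg (nat_lit 48) (dg (nat_lit 6528) TB_16_17_13_0 i16) i17) a13 t13) <|
      st11 i16 i13 a5 t5 a7 t7) C17 (nat_lit 0)

/-- stage: classes modulo 9 -/
def st9 (i16 r144a r144b i13 a13 t13 a5 t5 i7 a7 t7 a3 t3 : ℕ) : Bool :=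
  allI (fun i9 c9 =>
    imp (Nat.beq (Nat.mod c9.1 (nat_lit 3)) a3) <| imp (Nat.beq (Nat.mod c9.2 (nat_lit 3)) t3) <|
    imp (chk (nat_lit 7) (dg (nat_lit 48) (dg (nat_lit 3744) TB_9_13_7_0 i9) i13) a7 t7) <|
    imp (chk (nat_lit 13) (dg (nat_lit 48) r144a i9) a13 t13) <|
    imp (chk (nat_lit 13) (dg (nat_lit 48) r144b i9) a13 t13) <|
      st17 i16 i13 a13 t13 a5 t5 i7 a7 t7) C9 (nat_lit 0)

/-- stage: classes modulo 3 -/
def st3 (i16 r144a r144b i13 a13 t13 a5 t5 i7 a7 t7 : ℕ) : Bool :=
  allL (fun c3 =>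
    strict (dg (nat_lit 8) IX15 (Nat.add (Nat.mul (nat_lit 15)
      (Nat.mod (Nat.add (Nat.mul (nat_lit 10) c3.1) (Nat.mul (nat_lit 6) a5)) (nat_lit 15)))
      (Nat.mod (Nat.add (Nat.mul (nat_lit 10) c3.2) (Nat.mul (nat_lit 6) t5)) (nat_lit 15)))) fun i15 =>
    imp (chk (nat_lit 13) (dg (nat_lit 48) (dg (nat_lit 1344) TB_15_7_13_0 i15) i7) a13 t13) <|
      st9 i16 r144a r144b i13 a13 t13 a5 t5 i7 a7 t7 c3.1 c3.2) C3

/-- stage: classes modulo 7 -/
def st7 (i16 a16 t16 r112 r144a r144b i13 a13 t13 a5 t5 : ℕ) : Bool :=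
  strict (dg (nat_lit 8) IX20 (Nat.add (Nat.mul (nat_lit 20)
      (Nat.mod (Nat.add (Nat.mul (nat_lit 5) a16) (Nat.mul (nat_lit 16) a5)) (nat_lit 20)))
      (Nat.mod (Nat.add (Nat.mul (nat_lit 5) t16) (Nat.mul (nat_lit 16) t5)) (nat_lit 20)))) fun i20 =>
  strict (dg (nat_lit 1344) TB_20_7_13_0 i20) fun r140 =>
  allI (fun i7 c7 =>
    imp (chk (nat_lit 13) (dg (nat_lit 48) r140 i7) a13 t13) <|
    imp (chk (nat_lit 13) (dg (nat_lit 48) r112 i7) a13 t13) <|
      st3 i16 r144a r144b i13 a13 t13 a5 t5 i7 c7.1 c7.2) C7 (nat_lit 0)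

/-- stage: classes modulo 5 -/
def st5 (i16 a16 t16 r112 r144a r144b i13 a13 t13 e1 e2 e3 : ℕ) : Bool :=
  allL (fun c5 =>
    imp (chk (nat_lit 5) e1 c5.1 c5.2) <| imp (chk (nat_lit 5) e2 c5.1 c5.2) <|
    imp (chk (nat_lit 5) e3 c5.1 c5.2) <|
      st7 i16 a16 t16 r112 r144a r144b i13 a13 t13 c5.1 c5.2) C5

/-- stage: classes modulo 13 -/
def st13 (i16 a16 t16 ra rb rc r112 r144a r144b : ℕ) : Bool :=
  allI (fun i13 c13 =>
    strict (dg (nat_lit 48) ra i13) fun e1 => strict (dg (nat_lit 48) rb i13) fun e2 =>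
    strict (dg (nat_lit 48) rc i13) fun e3 =>
      st5 i16 a16 t16 r112 r144a r144b i13 c13.1 c13.2 e1 e2 e3) C13 (nat_lit 0)

/-- first stage: one class modulo 16 -/
def st16 (i16 : ℕ) (c16 : ℕ × ℕ) : Bool :=
  strict (dg (nat_lit 3744) TB_16_13_5_0 i16) fun ra => strict (dg (nat_lit 3744) TB_16_13_5_1 i16) fun rb =>
  strict (dg (nat_lit 3744) TB_16_13_5_2 i16) fun rc => strict (dg (nat_lit 1344) TB_16_7_13_0 i16) fun r112 =>
  strict (dg (nat_lit 2592) TB_16_9_13_0 i16) fun r144a => strict (dg (nat_lit 2592) TB_16_9_13_1 i16) fun r144b =>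
    st13 i16 c16.1 c16.2 ra rb rc r112 r144a r144b

theorem elim0 : allI (fun i c => st16 i c) ((C16.drop 0).take 16) (nat_lit 0) = true := by
  decide +kernel

theorem elim1 : allI (fun i c => st16 i c) ((C16.drop 16).take 16) (nat_lit 16) = true := by
  decide +kernel

theorem elim2 : allI (fun i c => st16 i c) ((C16.drop 32).take 16) (nat_lit 32) = true := by
  decide +kernel

theorem elim3 : allI (fun i c => st16 i c) ((C16.drop 48).take 16) (nat_lit 48) = true := by
  decide +kernel

theorem elim4 : allI (fun i c => st16 i c) ((C16.drop 64).take 16) (nat_lit 64) = true := by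
  decide +kernel

theorem elim5 : allI (fun i c => st16 i c) ((C16.drop 80).take 16) (nat_lit 80) = true := by
  decide +kernel

theorem elim6 : allI (fun i c => st16 i c) ((C16.drop 96).take 16) (nat_lit 96) = true := by
  decide +kernel

theorem elim7 : allI (fun i c => st16 i c) ((C16.drop 112).take 16) (nat_lit 112) = true := by
  decide +kernel

end Pool.Agent.LibH4.T6
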