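import Pool.Agent.Lib_helper4.T6Elim

/-!
T6: no field of the family with large `m` has unique factorisation.
-/

namespace Pool.Agent.LibH4.T6

open Ker

lemma st16_chunk {k : ℕ} (h : allI (fun i c => st16 i c) ((C16.drop k).take 16) k = true)
    {i : ℕ} (hi : i < C16.length) (h1 : k ≤ i) (h2 : i < k + 16) : st16 i C16[i] = true := by
  have hlen : i - k < ((C16.drop k).take 16).length := by
    rw [List.length_take, List.length_drop]
    omega
  have h3 := allI_spec h (i - k) hlen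
  have e : ((C16.drop k).take 16)[i - k] = C16[i] := by
    rw [List.getElem_take, List.getElem_drop]
    congr 1
    omega
  rw [e] at h3
  have e2 : k + (i - k) = i := by omega
  rw [e2] at h3
  exact h3

lemma st16_all {i : ℕ} (hi : i < C16.length) : st16 i C16[i] = true := by
  have hlen : C16.length = 128 := by decide +kernel
  rcases lt_or_ge i 16 with h | h
  · exact st16_chunk elim0 hi (by omega) (by omega)
  rcases lt_or_ge i 32 with h | h
  · exact st16_chunk elim1 hi (by omega) (by omega)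
  rcases lt_or_ge i 48 with h | h
  · exact st16_chunk elim2 hi (by omega) (by omega)
  rcases lt_or_ge i 64 with h | h
  · exact st16_chunk elim3 hi (by omega) (by omega)
  rcases lt_or_ge i 80 with h | h
  · exact st16_chunk elim4 hi (by omega) (by omega)
  rcases lt_or_ge i 96 with h | h
  · exact st16_chunk elim5 hi (by omega) (by omega)
  rcases lt_or_ge i 112 with h | h
  · exact st16_chunk elim6 hi (by omega) (by omega)
  · exact st16_chunk elim7 hi (by omega) (by omega)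

lemma ix20_check : allI (fun i c => Nat.beq (dg (nat_lit 8) IX20 (Nat.add (Nat.mul (nat_lit 20) c.1) c.2)) i)
    C20 (nat_lit 0) = true := by decide +kernel

lemma ix15_check : allI (fun i c => Nat.beq (dg (nat_lit 8) IX15 (Nat.add (Nat.mul (nat_lit 15) c.1) c.2)) i)
    C15 (nat_lit 0) = true := by decide +kernel

lemma ix20 {i u v : ℕ} (hi : i < C20.length) (h : C20[i] = (u, v)) : dg 8 IX20 (20 * u + v) = i := by
  have h1 := Nat.eq_of_beq_eq_true (allI_spec ix20_check i hi)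
  have h2 : dg (nat_lit 8) IX20 (Nat.add (Nat.mul (nat_lit 20) C20[i].1) C20[i].2) = i := by
    have : nat_lit 0 + i = i := Nat.zero_add i
    rw [this] at h1
    exact h1
  rw [h] at h2
  exact h2

lemma ix15 {i u v : ℕ} (hi : i < C15.length) (h : C15[i] = (u, v)) : dg 8 IX15 (15 * u + v) = i := by
  have h1 := Nat.eq_of_beq_eq_true (allI_spec ix15_check i hi)
  have h2 : dg (nat_lit 8) IX15 (Nat.add (Nat.mul (nat_lit 15) C15[i].1) C15[i].2) = i := by
    have : nat_lit 0 + i = i := Nat.zero_add i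
    rw [this] at h1
    exact h1
  rw [h] at h2
  exact h2

lemma allI_spec0 {α : Type} {p : ℕ → α → Bool} {L : List α} (h : allI p L 0 = true)
    {j : ℕ} (hj : j < L.length) : p j L[j] = true := by
  have := allI_spec h j hj
  rw [zero_add] at this
  exact this

/-- the trace through the elimination -/
theorem elim_false {a t : ℕ} {i16 i13 i5 i7 i3 i9 i17 i11 i20 i15 : ℕ}
    (b16 : i16 < C16.length) (b13 : i13 < C13.length) (b5 : i5 < C5.length) (b7 : i7 < C7.length)
    (b3 : i3 < C3.length) (b9 : i9 < C9.length) (b17 : i17 < C17.length) (b11 : i11 < C11.length)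
    (b20 : i20 < C20.length) (b15 : i15 < C15.length)
    (h16 : C16[i16] = (a % 16, t % 16)) (h13 : C13[i13] = (a % 13, t % 13))
    (h5 : C5[i5] = (a % 5, t % 5)) (h7 : C7[i7] = (a % 7, t % 7)) (h3 : C3[i3] = (a % 3, t % 3))
    (h9 : C9[i9] = (a % 9, t % 9))
    (h20 : C20[i20] = (a % 20, t % 20)) (h15 : C15[i15] = (a % 15, t % 15))
    (r1 : chk 5 (dg 48 (dg 3744 TB_16_13_5_0 i16) i13) (a % 5) (t % 5) = true)
    (r2 : chk 5 (dg 48 (dg 3744 TB_16_13_5_1 i16) i13) (a % 5) (t % 5) = true)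
    (r3 : chk 5 (dg 48 (dg 3744 TB_16_13_5_2 i16) i13) (a % 5) (t % 5) = true)
    (r4 : chk 13 (dg 48 (dg 1344 TB_20_7_13_0 i20) i7) (a % 13) (t % 13) = true)
    (r5 : chk 13 (dg 48 (dg 1344 TB_16_7_13_0 i16) i7) (a % 13) (t % 13) = true)
    (r6 : chk 13 (dg 48 (dg 1344 TB_15_7_13_0 i15) i7) (a % 13) (t % 13) = true)
    (r7 : chk 7 (dg 48 (dg 3744 TB_9_13_7_0 i9) i13) (a % 7) (t % 7) = true)
    (r8 : chk 13 (dg 48 (dg 2592 TB_16_9_13_0 i16) i9) (a % 13) (t % 13) = true)
    (r9 : chk 13 (dg 48 (dg 2592 TB_16_9_13_1 i16) i9) (a % 13) (t % 13) = true)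
    (r10 : chk 5 (dg 48 (dg 6528 TB_7_17_5_0 i7) i17) (a % 5) (t % 5) = true)
    (r11 : chk 13 (dg 48 (dg 6528 TB_7_17_13_0 i7) i17) (a % 13) (t % 13) = true)
    (r12 : chk 5 (dg 48 (dg 6528 TB_13_17_5_0 i13) i17) (a % 5) (t % 5) = true)
    (r13 : chk 13 (dg 48 (dg 6528 TB_16_17_13_0 i16) i17) (a % 13) (t % 13) = true)
    (r14 : chk 5 (dg 48 (dg 3168 TB_13_11_5_0 i13) i11) (a % 5) (t % 5) = true)
    (r15 : chk 7 (dg 48 (dg 3168 TB_13_11_7_0 i13) i11) (a % 7) (t % 7) = true)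
    (r16 : chk 5 (dg 48 (dg 3168 TB_16_11_5_0 i16) i11) (a % 5) (t % 5) = true) : False := by
  have s16 := st16_all b16
  rw [h16] at s16
  unfold st16 at s16
  simp only [strict_eq] at s16
  -- modulo 13
  unfold st13 at s16
  have s13 := allI_spec0 s16 b13
  simp only [strict_eq] at s13
  rw [h13] at s13
  -- modulo 5
  unfold st5 at s13
  have s5 := allL_spec s13 C5[i5] (List.getElem_mem b5)
  rw [h5] at s5
  replace s5 := imp_spec (imp_spec (imp_spec s5 r1) r2) r3
  -- modulo 7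
  unfold st7 at s5
  simp only [strict_eq] at s5
  have e20 : dg (nat_lit 8) IX20 (Nat.add (Nat.mul (nat_lit 20)
      (Nat.mod (Nat.add (Nat.mul (nat_lit 5) (a % 16)) (Nat.mul (nat_lit 16) (a % 5))) (nat_lit 20)))
      (Nat.mod (Nat.add (Nat.mul (nat_lit 5) (t % 16)) (Nat.mul (nat_lit 16) (t % 5)))
        (nat_lit 20))) = i20 := by
    have g1 : (5 * (a % 16) + 16 * (a % 5)) % 20 = a % 20 := by omega
    have g2 : (5 * (t % 16) + 16 * (t % 5)) % 20 = t % 20 := by omega
    have g := ix20 b20 h20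
    rw [← g1, ← g2] at g
    exact g
  rw [e20] at s5
  have s7 := allI_spec0 s5 b7
  rw [h7] at s7
  replace s7 := imp_spec (imp_spec s7 r4) r5
  -- modulo 3
  unfold st3 at s7
  have s3 := allL_spec s7 C3[i3] (List.getElem_mem b3)
  rw [h3] at s3
  simp only [strict_eq] at s3
  have e15 : dg (nat_lit 8) IX15 (Nat.add (Nat.mul (nat_lit 15)
      (Nat.mod (Nat.add (Nat.mul (nat_lit 10) (a % 3)) (Nat.mul (nat_lit 6) (a % 5))) (nat_lit 15)))
      (Nat.mod (Nat.add (Nat.mul (nat_lit 10) (t % 3)) (Nat.mul (nat_lit 6) (t % 5)))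
        (nat_lit 15))) = i15 := by
    have g1 : (10 * (a % 3) + 6 * (a % 5)) % 15 = a % 15 := by omega
    have g2 : (10 * (t % 3) + 6 * (t % 5)) % 15 = t % 15 := by omega
    have g := ix15 b15 h15
    rw [← g1, ← g2] at g
    exact g
  rw [e15] at s3
  replace s3 := imp_spec s3 r6
  -- modulo 9
  unfold st9 at s3
  have s9 := allI_spec0 s3 b9
  rw [h9] at s9
  have m1 : Nat.beq (Nat.mod (a % 9) (nat_lit 3)) (a % 3) = true := by
    have : a % 9 % 3 = a % 3 := by omega
    rw [Nat.beq_eq]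
    exact this
  have m2 : Nat.beq (Nat.mod (t % 9) (nat_lit 3)) (t % 3) = true := by
    have : t % 9 % 3 = t % 3 := by omega
    rw [Nat.beq_eq]
    exact this
  replace s9 := imp_spec (imp_spec (imp_spec (imp_spec (imp_spec s9 m1) m2) r7) r8) r9
  -- modulo 17
  unfold st17 at s9
  have s17 := allI_spec0 s9 b17
  replace s17 := imp_spec (imp_spec (imp_spec (imp_spec s17 r10) r11) r12) r13
  -- modulo 11
  unfold st11 at s17
  have s11 := allI_spec0 s17 b11
  replace s11 := imp_spec (imp_spec (imp_spec s11 r14) r15) r16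
  exact Bool.false_ne_true s11

lemma mem3 : memCheck (nat_lit 3) (clsO (nat_lit 3)) C3 = true := by decide +kernel
lemma mem5 : memCheck (nat_lit 5) (clsO (nat_lit 5)) C5 = true := by decide +kernel
lemma mem7 : memCheck (nat_lit 7) (clsO (nat_lit 7)) C7 = true := by decide +kernel
lemma mem9 : memCheck (nat_lit 9) (clsO (nat_lit 3)) C9 = true := by decide +kernel
lemma mem11 : memCheck (nat_lit 11) (clsO (nat_lit 11)) C11 = true := by decide +kernel
lemma mem13 : memCheck (nat_lit 13) (clsO (nat_lit 13)) C13 = true := by decide +kernel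
lemma mem16 : memCheck (nat_lit 16) clsE C16 = true := by decide +kernel
lemma mem17 : memCheck (nat_lit 17) (clsO (nat_lit 17)) C17 = true := by decide +kernel
lemma mem15 : memCheck (nat_lit 15) (fun u v => @Bool.rec (fun _ => Bool) false
  (clsO (nat_lit 5) u v) (clsO (nat_lit 3) u v)) C15 = true := by decide +kernel
lemma mem20 : memCheck (nat_lit 20) (fun u v => @Bool.rec (fun _ => Bool) false
  (clsO (nat_lit 5) u v) (clsE u v)) C20 = true := by decide +kernel

/-- **T6** -/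
theorem no_large (a t d : ℕ)
    (hd : d = ((a ^ 2 + 1) * t + a) ^ 2 + 4 * (1 + a * t))
    (hB : ((a ^ 2 + 1) * t + a) % 2 = 1) (hm : (1 + a * t) % 2 = 1)
    (h3 : jacobiSym d 3 = -1) (h5 : jacobiSym d 5 = -1) (h7 : jacobiSym d 7 = -1)
    (h11 : jacobiSym d 11 = -1) (h13 : jacobiSym d 13 = -1) (h17 : jacobiSym d 17 = -1)
    (hT5 : T5All a t d) : False := by
  have nd : ∀ p : ℕ, p.Prime → jacobiSym d p = -1 → ¬ p ∣ d := by
    intro p hp hj hdvd
    have : jacobiSym d p = 0 := by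
      rw [jacobiSym.eq_zero_iff]
      refine ⟨hp.ne_zero, ?_⟩
      rw [Int.gcd_natCast_natCast, Nat.gcd_eq_right hdvd]
      exact hp.one_lt.ne'
    rw [this] at hj
    norm_num at hj
  have nd5 := nd 5 (by norm_num) h5
  have nd7 := nd 7 (by norm_num) h7
  have nd13 := nd 13 (by norm_num) h13
  have hd2 : ¬ 2 ∣ d := by
    intro h
    have h1 : (((a ^ 2 + 1) * t + a) ^ 2) % 2 = 1 := by rw [Nat.pow_mod, hB]
    rw [hd] at h
    omega
  have cop : ∀ p : ℕ, p.Prime → ¬ p ∣ d → Nat.Coprime p d := fun p hp h =>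
    (Nat.Prime.coprime_iff_not_dvd hp).mpr h
  have c2 := cop 2 (by norm_num) hd2
  have c3 := cop 3 (by norm_num) (nd 3 (by norm_num) h3)
  have c5 := cop 5 (by norm_num) nd5
  have c7 := cop 7 (by norm_num) nd7
  have c11 := cop 11 (by norm_num) (nd 11 (by norm_num) h11)
  have c13 := cop 13 (by norm_num) nd13
  have c17 := cop 17 (by norm_num) (nd 17 (by norm_num) h17)
  have c16 : Nat.Coprime 16 d := by
    have : (16 : ℕ) = 2 ^ 4 := by norm_num
    rw [this]; exact c2.pow_left 4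
  have c9 : Nat.Coprime 9 d := by
    have : (9 : ℕ) = 3 ^ 2 := by norm_num
    rw [this]; exact c3.pow_left 2
  have c15 : Nat.Coprime 15 d := by
    have : (15 : ℕ) = 3 * 5 := by norm_num
    rw [this]; exact c3.mul_left c5
  have c20 : Nat.Coprime 20 d := by
    have : (20 : ℕ) = 2 ^ 2 * 5 := by norm_num
    rw [this]; exact (c2.pow_left 2).mul_left c5
  -- classes
  obtain ⟨i16, b16, e16⟩ := memCheck_spec mem16 (Nat.mod_lt a (by norm_num)) (Nat.mod_lt t (by norm_num))
    (clsE_of (n := 16) (by norm_num) hB hm)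
  obtain ⟨i3, b3, e3⟩ := memCheck_spec mem3 (Nat.mod_lt a (by norm_num)) (Nat.mod_lt t (by norm_num))
    (clsO_of (n := 3) (by norm_num) (by norm_num) hd h3)
  obtain ⟨i5, b5, e5⟩ := memCheck_spec mem5 (Nat.mod_lt a (by norm_num)) (Nat.mod_lt t (by norm_num))
    (clsO_of (n := 5) (by norm_num) (by norm_num) hd h5)
  obtain ⟨i7, b7, e7⟩ := memCheck_spec mem7 (Nat.mod_lt a (by norm_num)) (Nat.mod_lt t (by norm_num))
    (clsO_of (n := 7) (by norm_num) (by norm_num) hd h7)
  obtain ⟨i9, b9, e9⟩ := memCheck_spec mem9 (Nat.mod_lt a (by norm_num)) (Nat.mod_lt t (by norm_num))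
    (clsO_of (n := 9) (by norm_num) (by norm_num) hd h3)
  obtain ⟨i11, b11, e11⟩ := memCheck_spec mem11 (Nat.mod_lt a (by norm_num)) (Nat.mod_lt t (by norm_num))
    (clsO_of (n := 11) (by norm_num) (by norm_num) hd h11)
  obtain ⟨i13, b13, e13⟩ := memCheck_spec mem13 (Nat.mod_lt a (by norm_num)) (Nat.mod_lt t (by norm_num))
    (clsO_of (n := 13) (by norm_num) (by norm_num) hd h13)
  obtain ⟨i17, b17, e17⟩ := memCheck_spec mem17 (Nat.mod_lt a (by norm_num)) (Nat.mod_lt t (by norm_num))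
    (clsO_of (n := 17) (by norm_num) (by norm_num) hd h17)
  obtain ⟨i15, b15, e15⟩ := memCheck_spec mem15 (u := a % 15) (v := t % 15)
    (Nat.mod_lt a (by norm_num)) (Nat.mod_lt t (by norm_num)) (by
      have g3 := clsO_of (n := 15) (p := 3) (by norm_num) (by norm_num) hd h3
      have g5 := clsO_of (n := 15) (p := 5) (by norm_num) (by norm_num) hd h5
      change @Bool.rec (fun _ => Bool) false (clsO 5 (a % 15) (t % 15)) (clsO 3 (a % 15) (t % 15)) = true
      rw [g3]; exact g5)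
  obtain ⟨i20, b20, e20⟩ := memCheck_spec mem20 (u := a % 20) (v := t % 20)
    (Nat.mod_lt a (by norm_num)) (Nat.mod_lt t (by norm_num)) (by
      have g2 := clsE_of (n := 20) (by norm_num) hB hm
      have g5 := clsO_of (n := 20) (p := 5) (by norm_num) (by norm_num) hd h5
      change @Bool.rec (fun _ => Bool) false (clsO 5 (a % 20) (t % 20)) (clsE (a % 20) (t % 20)) = true
      rw [g2]; exact g5)
  exact elim_false b16 b13 b5 b7 b3 b9 b17 b11 b20 b15 e16 e13 e5 e7 e3 e9 e20 e15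
    (chk_16_13_5_0 hT5 (c16.mul_left c13) nd5 b16 b13 e16 e13)
    (chk_16_13_5_1 hT5 (c16.mul_left c13) nd5 b16 b13 e16 e13)
    (chk_16_13_5_2 hT5 (c16.mul_left c13) nd5 b16 b13 e16 e13)
    (chk_20_7_13_0 hT5 (c20.mul_left c7) nd13 b20 b7 e20 e7)
    (chk_16_7_13_0 hT5 (c16.mul_left c7) nd13 b16 b7 e16 e7)
    (chk_15_7_13_0 hT5 (c15.mul_left c7) nd13 b15 b7 e15 e7)
    (chk_9_13_7_0 hT5 (c9.mul_left c13) nd7 b9 b13 e9 e13)
    (chk_16_9_13_0 hT5 (c16.mul_left c9) nd13 b16 b9 e16 e9)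
    (chk_16_9_13_1 hT5 (c16.mul_left c9) nd13 b16 b9 e16 e9)
    (chk_7_17_5_0 hT5 (c7.mul_left c17) nd5 b7 b17 e7 e17)
    (chk_7_17_13_0 hT5 (c7.mul_left c17) nd13 b7 b17 e7 e17)
    (chk_13_17_5_0 hT5 (c13.mul_left c17) nd5 b13 b17 e13 e17)
    (chk_16_17_13_0 hT5 (c16.mul_left c17) nd13 b16 b17 e16 e17)
    (chk_13_11_5_0 hT5 (c13.mul_left c11) nd5 b13 b11 e13 e11)
    (chk_13_11_7_0 hT5 (c13.mul_left c11) nd7 b13 b11 e13 e11)
    (chk_16_11_5_0 hT5 (c16.mul_left c11) nd5 b16 b11 e16 e11)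

end Pool.Agent.LibH4.T6
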