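import Pool.Agent.Lib_helper4.T6Sound4
import Pool.Agent.Lib_helper4.T6Data

/-!
Kernel checks of the hypotheses on the characters, and class membership.
-/

namespace Pool.Agent.LibH4.T6

open Finset Ker

/-- multiplicativity and support check for one table -/
def tabCheck (n l T : ℕ) : Bool :=
  @Bool.rec (fun _ => Bool) false
    (allR (fun u => @Bool.rec (fun _ => Bool) (Nat.beq (ch T u) (nat_lit 0)) true
      (Nat.beq (Nat.gcd u n) (nat_lit 1))) n)
    (allR (fun u => allR (fun v => Nat.beq (Nat.mod (ch T (Nat.mod (Nat.mul u v) n)) l)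
      (Nat.mod (Nat.mul (ch T u) (ch T v)) l)) n) n)

lemma tabCheck_mul {n l T : ℕ} (h : tabCheck n l T = true) : ∀ u < n, ∀ v < n,
    (ch T (u * v % n) : ZMod l) = ch T u * ch T v := by
  intro u hu v hv
  unfold tabCheck at h
  cases h1 : (allR (fun u => allR (fun v => Nat.beq (Nat.mod (ch T (Nat.mod (Nat.mul u v) n)) l)
      (Nat.mod (Nat.mul (ch T u) (ch T v)) l)) n) n) with
  | false => rw [h1] at h; simp at h
  | true =>
    have h2 := allR_spec (allR_spec h1 u hu) v hv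
    have h3 : ch T (u * v % n) % l = ch T u * ch T v % l := Nat.eq_of_beq_eq_true h2
    have h4 := congrArg (fun x : ℕ => (x : ZMod l)) h3
    simp only [ZMod.natCast_mod] at h4
    rw [h4]; push_cast; rfl

lemma tabCheck_nu {n l T : ℕ} (h : tabCheck n l T = true) : ∀ u < n, ¬ u.Coprime n →
    ch T u = 0 := by
  intro u hu hc
  unfold tabCheck at h
  cases h1 : (allR (fun u => allR (fun v => Nat.beq (Nat.mod (ch T (Nat.mod (Nat.mul u v) n)) l)
      (Nat.mod (Nat.mul (ch T u) (ch T v)) l)) n) n) with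
  | false => rw [h1] at h; simp at h
  | true =>
    rw [h1] at h
    have h2 := allR_spec h u hu
    cases h3 : Nat.beq (Nat.gcd u n) (nat_lit 1) with
    | false =>
      rw [h3] at h2
      exact Nat.eq_of_beq_eq_true h2
    | true =>
      exact absurd (Nat.eq_of_beq_eq_true h3) hc

/-- parity and Bernoulli check -/
def obCheck (n1 n2 q l T1 T2 : ℕ) : Bool :=
  @Bool.rec (fun _ => Bool) false
    (Nat.beq (Nat.mod (sumR (fun u => Nat.mul u (Nat.mul (ch T1 (Nat.mod u n1))
      (ch T2 (Nat.mod u n2)))) q) l) (nat_lit 0))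
    (Nat.beq (Nat.mod (Nat.add (Nat.mul (ch T1 (Nat.sub n1 (nat_lit 1)))
      (ch T2 (Nat.sub n2 (nat_lit 1)))) (nat_lit 1)) l) (nat_lit 0))

lemma obCheck_odd {n1 n2 q l T1 T2 : ℕ} (h : obCheck n1 n2 q l T1 T2 = true) :
    (ch T1 (n1 - 1) : ZMod l) * (ch T2 (n2 - 1) : ZMod l) = -1 := by
  unfold obCheck at h
  cases h1 : (Nat.beq (Nat.mod (Nat.add (Nat.mul (ch T1 (Nat.sub n1 (nat_lit 1)))
      (ch T2 (Nat.sub n2 (nat_lit 1)))) (nat_lit 1)) l) (nat_lit 0)) with
  | false => rw [h1] at h; simp at h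
  | true =>
    have h2 : (ch T1 (n1 - 1) * ch T2 (n2 - 1) + 1) % l = 0 := Nat.eq_of_beq_eq_true h1
    rw [← Nat.dvd_iff_mod_eq_zero, ← ZMod.natCast_eq_zero_iff] at h2
    push_cast at h2
    linear_combination h2

lemma obCheck_bern {n1 n2 q l T1 T2 : ℕ} (h : obCheck n1 n2 q l T1 T2 = true) :
    ∑ u ∈ range q, (u : ZMod l) * ((ch T1 (u % n1) : ZMod l) * (ch T2 (u % n2) : ZMod l)) = 0 := by
  unfold obCheck at h
  cases h1 : (Nat.beq (Nat.mod (Nat.add (Nat.mul (ch T1 (Nat.sub n1 (nat_lit 1)))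
      (ch T2 (Nat.sub n2 (nat_lit 1)))) (nat_lit 1)) l) (nat_lit 0)) with
  | false => rw [h1] at h; simp at h
  | true =>
    rw [h1] at h
    have h2 : (sumR (fun u => u * (ch T1 (u % n1) * ch T2 (u % n2))) q) % l = 0 :=
      Nat.eq_of_beq_eq_true h
    rw [← Nat.dvd_iff_mod_eq_zero, ← ZMod.natCast_eq_zero_iff, sumR_eq] at h2
    push_cast at h2
    exact h2

lemma mkHyp {n1 n2 l e1 e2 T1 T2 : ℕ} {L1 L2 : List (ℕ × ℕ)} [NeZero n1] [NeZero n2]
    [NeZero (n1 * n2)] (co : n1.Coprime n2) (h11 : e1 % n1 = 1 % n1) (h12 : e1 % n2 = 0)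
    (h21 : e2 % n1 = 0) (h22 : e2 % n2 = 1 % n2) (t1 : tabCheck n1 l T1 = true)
    (t2 : tabCheck n2 l T2 = true) (ob : obCheck n1 n2 (n1 * n2) l T1 T2 = true)
    (p1 : IsP1 n1 L1) (p2 : IsP1 n2 L2) (len1 : L1.length ≤ 100) (len2 : L2.length ≤ 32)
    (l3 : 3 ≤ l) (l16 : l ≤ 16) (qle : n1 * n2 ≤ 1000) :
    Hyp n1 n2 l e1 e2 T1 T2 L1 L2 where
  co := co
  h11 := by
    rw [← Nat.cast_one, ZMod.natCast_eq_natCast_iff]; exact h11
  h12 := by
    rw [ZMod.natCast_eq_zero_iff]; exact Nat.dvd_of_mod_eq_zero h12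
  h21 := by
    rw [ZMod.natCast_eq_zero_iff]; exact Nat.dvd_of_mod_eq_zero h21
  h22 := by
    rw [← Nat.cast_one, ZMod.natCast_eq_natCast_iff]; exact h22
  mul1 := tabCheck_mul t1
  mul2 := tabCheck_mul t2
  nu1 := tabCheck_nu t1
  nu2 := tabCheck_nu t2
  odd := obCheck_odd ob
  bern := obCheck_bern ob
  p1 := p1
  p2 := p2
  len1 := len1
  len2 := len2
  l3 := l3
  l16 := l16
  qle := qle

/-! ### projective lines for the small moduli -/

lemma isP1_7 : IsP1 7 P7 := by
  have := isP1_prime_pow (p := 7) (k := 1) (by norm_num) (by norm_num)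
  have e : p1List 7 (7 ^ 1) = P7 := by decide +kernel
  rw [e] at this
  exact this

lemma isP1_13 : IsP1 13 P13 := by
  have := isP1_prime_pow (p := 13) (k := 1) (by norm_num) (by norm_num)
  have e : p1List 13 (13 ^ 1) = P13 := by decide +kernel
  rw [e] at this
  exact this

lemma isP1_11 : IsP1 11 P11 := by
  have := isP1_prime_pow (p := 11) (k := 1) (by norm_num) (by norm_num)
  have e : p1List 11 (11 ^ 1) = P11 := by decide +kernel
  rw [e] at this
  exact this

lemma isP1_17 : IsP1 17 P17 := by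
  have := isP1_prime_pow (p := 17) (k := 1) (by norm_num) (by norm_num)
  have e : p1List 17 (17 ^ 1) = P17 := by decide +kernel
  rw [e] at this
  exact this

lemma isP1_9 : IsP1 9 P9 := by
  have := isP1_prime_pow (p := 3) (k := 2) (by norm_num) (by norm_num)
  have e : p1List 3 (3 ^ 2) = P9 := by decide +kernel
  rw [e] at this
  exact this

lemma isP1_16 : IsP1 16 P16 := by
  have := isP1_prime_pow (p := 2) (k := 4) (by norm_num) (by norm_num)
  have e : p1List 2 (2 ^ 4) = P16 := by decide +kernel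
  rw [e] at this
  exact this

lemma isP1_15 : IsP1 15 P15 := by
  have h3 := isP1_prime_pow (p := 3) (k := 1) (by norm_num) (by norm_num)
  have h5 := isP1_prime_pow (p := 5) (k := 1) (by norm_num) (by norm_num)
  have := isP1_mul (n1 := 3 ^ 1) (n2 := 5 ^ 1) (by norm_num) (e1 := 10) (e2 := 6) (by decide)
    (by decide) (by decide) (by decide) h3 h5
  have e : crtList 10 6 (p1List 3 (3 ^ 1)) (p1List 5 (5 ^ 1)) = P15 := by decide +kernel
  rw [e] at this
  exact this

lemma isP1_20 : IsP1 20 P20 := by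
  have h3 := isP1_prime_pow (p := 2) (k := 2) (by norm_num) (by norm_num)
  have h5 := isP1_prime_pow (p := 5) (k := 1) (by norm_num) (by norm_num)
  have := isP1_mul (n1 := 2 ^ 2) (n2 := 5 ^ 1) (by norm_num) (e1 := 5) (e2 := 16) (by decide)
    (by decide) (by decide) (by decide) h3 h5
  have e : crtList 5 16 (p1List 2 (2 ^ 2)) (p1List 5 (5 ^ 1)) = P20 := by decide +kernel
  rw [e] at this
  exact this

end Pool.Agent.LibH4.T6
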