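import Pool.Agent.Lib_helper4.T6R_16_13_5_0
import Pool.Agent.Lib_helper4.T6R_16_13_5_1
import Pool.Agent.Lib_helper4.T6R_16_13_5_2
import Pool.Agent.Lib_helper4.T6R_20_7_13_0
import Pool.Agent.Lib_helper4.T6R_16_7_13_0
import Pool.Agent.Lib_helper4.T6R_15_7_13_0
import Pool.Agent.Lib_helper4.T6R_9_13_7_0
import Pool.Agent.Lib_helper4.T6R_16_9_13_0
import Pool.Agent.Lib_helper4.T6R_16_9_13_1
import Pool.Agent.Lib_helper4.T6R_7_17_5_0
import Pool.Agent.Lib_helper4.T6R_7_17_13_0
import Pool.Agent.Lib_helper4.T6R_13_17_5_0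
import Pool.Agent.Lib_helper4.T6R_16_17_13_0
import Pool.Agent.Lib_helper4.T6R_13_11_5_0
import Pool.Agent.Lib_helper4.T6R_13_11_7_0
import Pool.Agent.Lib_helper4.T6R_16_11_5_0
import Pool.Agent.Lib_helper4.T6Cls

/-! generated: hypotheses and relation checks for all characters -/

namespace Pool.Agent.LibH4.T6

open Ker

lemma hyp_16_13_5_0 : Hyp 16 13 5 65 144 1166467763814805520 1183156957090320 P16 P13 :=
  mkHyp (by norm_num) (by norm_num) (by norm_num) (by norm_num) (by norm_num)
    (by decide +kernel : tabCheck (nat_lit 16) (nat_lit 5) (nat_lit 1166467763814805520) = true)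
    (by decide +kernel : tabCheck (nat_lit 13) (nat_lit 5) (nat_lit 1183156957090320) = true)
    (by decide +kernel : obCheck (nat_lit 16) (nat_lit 13) (nat_lit 208) (nat_lit 5) (nat_lit 1166467763814805520) (nat_lit 1183156957090320) = true)
    isP1_16 isP1_13 (by decide) (by decide) (by norm_num) (by norm_num) (by norm_num)

lemma chk_16_13_5_0 {a t d : ℕ} (hT5 : T5All a t d) (hco : Nat.Coprime (16 * 13) d)
    (hld : ¬ 5 ∣ d) {i j : ℕ} (hi : i < C16.length)
    (hj : j < C13.length) (h1 : C16[i] = (a % 16, t % 16)) (h2 : C13[j] = (a % 13, t % 13)) :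
    chk 5 (dg 48 (dg 3744 TB_16_13_5_0 i) j) (a % 5) (t % 5) = true :=
  rel_chk hyp_16_13_5_0 (J := 78) (D1 := C16) (D2 := C13) (TB := TB_16_13_5_0) check_16_13_5_0 hT5 (by norm_num) hco
    (by norm_num) hld hi hj h1 h2

lemma hyp_16_13_5_1 : Hyp 16 13 5 65 144 1161981756374523920 1183156957090320 P16 P13 :=
  mkHyp (by norm_num) (by norm_num) (by norm_num) (by norm_num) (by norm_num)
    (by decide +kernel : tabCheck (nat_lit 16) (nat_lit 5) (nat_lit 1161981756374523920) = true)
    (by decide +kernel : tabCheck (nat_lit 13) (nat_lit 5) (nat_lit 1183156957090320) = true)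
    (by decide +kernel : obCheck (nat_lit 16) (nat_lit 13) (nat_lit 208) (nat_lit 5) (nat_lit 1161981756374523920) (nat_lit 1183156957090320) = true)
    isP1_16 isP1_13 (by decide) (by decide) (by norm_num) (by norm_num) (by norm_num)

lemma chk_16_13_5_1 {a t d : ℕ} (hT5 : T5All a t d) (hco : Nat.Coprime (16 * 13) d)
    (hld : ¬ 5 ∣ d) {i j : ℕ} (hi : i < C16.length)
    (hj : j < C13.length) (h1 : C16[i] = (a % 16, t % 16)) (h2 : C13[j] = (a % 13, t % 13)) :
    chk 5 (dg 48 (dg 3744 TB_16_13_5_1 i) j) (a % 5) (t % 5) = true :=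
  rel_chk hyp_16_13_5_1 (J := 78) (D1 := C16) (D2 := C13) (TB := TB_16_13_5_1) check_16_13_5_1 hT5 (by norm_num) hco
    (by norm_num) hld hi hj h1 h2

lemma hyp_16_13_5_2 : Hyp 16 13 5 65 144 4625249869016080400 353030276977680 P16 P13 :=
  mkHyp (by norm_num) (by norm_num) (by norm_num) (by norm_num) (by norm_num)
    (by decide +kernel : tabCheck (nat_lit 16) (nat_lit 5) (nat_lit 4625249869016080400) = true)
    (by decide +kernel : tabCheck (nat_lit 13) (nat_lit 5) (nat_lit 353030276977680) = true)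
    (by decide +kernel : obCheck (nat_lit 16) (nat_lit 13) (nat_lit 208) (nat_lit 5) (nat_lit 4625249869016080400) (nat_lit 353030276977680) = true)
    isP1_16 isP1_13 (by decide) (by decide) (by norm_num) (by norm_num) (by norm_num)

lemma chk_16_13_5_2 {a t d : ℕ} (hT5 : T5All a t d) (hco : Nat.Coprime (16 * 13) d)
    (hld : ¬ 5 ∣ d) {i j : ℕ} (hi : i < C16.length)
    (hj : j < C13.length) (h1 : C16[i] = (a % 16, t % 16)) (h2 : C13[j] = (a % 13, t % 13)) :
    chk 5 (dg 48 (dg 3744 TB_16_13_5_2 i) j) (a % 5) (t % 5) = true :=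
  rel_chk hyp_16_13_5_2 (J := 78) (D1 := C16) (D2 := C13) (TB := TB_16_13_5_2) check_16_13_5_2 hT5 (by norm_num) hco
    (by norm_num) hld hi hj h1 h2

lemma hyp_20_7_13_0 : Hyp 20 7 13 21 120 77033639492541120270352 205760784 P20 P7 :=
  mkHyp (by norm_num) (by norm_num) (by norm_num) (by norm_num) (by norm_num)
    (by decide +kernel : tabCheck (nat_lit 20) (nat_lit 13) (nat_lit 77033639492541120270352) = true)
    (by decide +kernel : tabCheck (nat_lit 7) (nat_lit 13) (nat_lit 205760784) = true)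
    (by decide +kernel : obCheck (nat_lit 20) (nat_lit 7) (nat_lit 140) (nat_lit 13) (nat_lit 77033639492541120270352) (nat_lit 205760784) = true)
    isP1_20 isP1_7 (by decide) (by decide) (by norm_num) (by norm_num) (by norm_num)

lemma chk_20_7_13_0 {a t d : ℕ} (hT5 : T5All a t d) (hco : Nat.Coprime (20 * 7) d)
    (hld : ¬ 13 ∣ d) {i j : ℕ} (hi : i < C20.length)
    (hj : j < C7.length) (h1 : C20[i] = (a % 20, t % 20)) (h2 : C7[j] = (a % 7, t % 7)) :
    chk 13 (dg 48 (dg 1344 TB_20_7_13_0 i) j) (a % 13) (t % 13) = true :=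
  rel_chk hyp_20_7_13_0 (J := 28) (D1 := C20) (D2 := C7) (TB := TB_20_7_13_0) check_20_7_13_0 hT5 (by norm_num) hco
    (by norm_num) hld hi hj h1 h2

lemma hyp_16_7_13_0 : Hyp 16 7 13 49 64 1175581068095410192 205760784 P16 P7 :=
  mkHyp (by norm_num) (by norm_num) (by norm_num) (by norm_num) (by norm_num)
    (by decide +kernel : tabCheck (nat_lit 16) (nat_lit 13) (nat_lit 1175581068095410192) = true)
    (by decide +kernel : tabCheck (nat_lit 7) (nat_lit 13) (nat_lit 205760784) = true)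
    (by decide +kernel : obCheck (nat_lit 16) (nat_lit 7) (nat_lit 112) (nat_lit 13) (nat_lit 1175581068095410192) (nat_lit 205760784) = true)
    isP1_16 isP1_7 (by decide) (by decide) (by norm_num) (by norm_num) (by norm_num)

lemma chk_16_7_13_0 {a t d : ℕ} (hT5 : T5All a t d) (hco : Nat.Coprime (16 * 7) d)
    (hld : ¬ 13 ∣ d) {i j : ℕ} (hi : i < C16.length)
    (hj : j < C7.length) (h1 : C16[i] = (a % 16, t % 16)) (h2 : C7[j] = (a % 7, t % 7)) :
    chk 13 (dg 48 (dg 1344 TB_16_7_13_0 i) j) (a % 13) (t % 13) = true :=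
  rel_chk hyp_16_7_13_0 (J := 28) (D1 := C16) (D2 := C7) (TB := TB_16_7_13_0) check_16_7_13_0 hT5 (by norm_num) hco
    (by norm_num) hld hi hj h1 h2

lemma hyp_15_7_13_0 : Hyp 15 7 13 91 15 108297520107227152 212419344 P15 P7 :=
  mkHyp (by norm_num) (by norm_num) (by norm_num) (by norm_num) (by norm_num)
    (by decide +kernel : tabCheck (nat_lit 15) (nat_lit 13) (nat_lit 108297520107227152) = true)
    (by decide +kernel : tabCheck (nat_lit 7) (nat_lit 13) (nat_lit 212419344) = true)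
    (by decide +kernel : obCheck (nat_lit 15) (nat_lit 7) (nat_lit 105) (nat_lit 13) (nat_lit 108297520107227152) (nat_lit 212419344) = true)
    isP1_15 isP1_7 (by decide) (by decide) (by norm_num) (by norm_num) (by norm_num)

lemma chk_15_7_13_0 {a t d : ℕ} (hT5 : T5All a t d) (hco : Nat.Coprime (15 * 7) d)
    (hld : ¬ 13 ∣ d) {i j : ℕ} (hi : i < C15.length)
    (hj : j < C7.length) (h1 : C15[i] = (a % 15, t % 15)) (h2 : C7[j] = (a % 7, t % 7)) :
    chk 13 (dg 48 (dg 1344 TB_15_7_13_0 i) j) (a % 13) (t % 13) = true :=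
  rel_chk hyp_15_7_13_0 (J := 28) (D1 := C15) (D2 := C7) (TB := TB_15_7_13_0) check_15_7_13_0 hT5 (by norm_num) hco
    (by norm_num) hld hi hj h1 h2

lemma hyp_9_13_7_0 : Hyp 9 13 7 91 27 26310083856 319138687099408 P9 P13 :=
  mkHyp (by norm_num) (by norm_num) (by norm_num) (by norm_num) (by norm_num)
    (by decide +kernel : tabCheck (nat_lit 9) (nat_lit 7) (nat_lit 26310083856) = true)
    (by decide +kernel : tabCheck (nat_lit 13) (nat_lit 7) (nat_lit 319138687099408) = true)
    (by decide +kernel : obCheck (nat_lit 9) (nat_lit 13) (nat_lit 117) (nat_lit 7) (nat_lit 26310083856) (nat_lit 319138687099408) = true)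
    isP1_9 isP1_13 (by decide) (by decide) (by norm_num) (by norm_num) (by norm_num)

lemma chk_9_13_7_0 {a t d : ℕ} (hT5 : T5All a t d) (hco : Nat.Coprime (9 * 13) d)
    (hld : ¬ 7 ∣ d) {i j : ℕ} (hi : i < C9.length)
    (hj : j < C13.length) (h1 : C9[i] = (a % 9, t % 9)) (h2 : C13[j] = (a % 13, t % 13)) :
    chk 7 (dg 48 (dg 3744 TB_9_13_7_0 i) j) (a % 7) (t % 7) = true :=
  rel_chk hyp_9_13_7_0 (J := 78) (D1 := C9) (D2 := C13) (TB := TB_9_13_7_0) check_9_13_7_0 hT5 (by norm_num) hco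
    (by norm_num) hld hi hj h1 h2

lemma hyp_16_9_13_0 : Hyp 16 9 13 81 64 1189039090416254992 52349700624 P16 P9 :=
  mkHyp (by norm_num) (by norm_num) (by norm_num) (by norm_num) (by norm_num)
    (by decide +kernel : tabCheck (nat_lit 16) (nat_lit 13) (nat_lit 1189039090416254992) = true)
    (by decide +kernel : tabCheck (nat_lit 9) (nat_lit 13) (nat_lit 52349700624) = true)
    (by decide +kernel : obCheck (nat_lit 16) (nat_lit 9) (nat_lit 144) (nat_lit 13) (nat_lit 1189039090416254992) (nat_lit 52349700624) = true)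
    isP1_16 isP1_9 (by decide) (by decide) (by norm_num) (by norm_num) (by norm_num)

lemma chk_16_9_13_0 {a t d : ℕ} (hT5 : T5All a t d) (hco : Nat.Coprime (16 * 9) d)
    (hld : ¬ 13 ∣ d) {i j : ℕ} (hi : i < C16.length)
    (hj : j < C9.length) (h1 : C16[i] = (a % 16, t % 16)) (h2 : C9[j] = (a % 9, t % 9)) :
    chk 13 (dg 48 (dg 2592 TB_16_9_13_0 i) j) (a % 13) (t % 13) = true :=
  rel_chk hyp_16_9_13_0 (J := 54) (D1 := C16) (D2 := C9) (TB := TB_16_9_13_0) check_16_9_13_0 hT5 (by norm_num) hco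
    (by norm_num) hld hi hj h1 h2

lemma hyp_16_9_13_1 : Hyp 16 9 13 81 64 13871228414696902672 6714231056 P16 P9 :=
  mkHyp (by norm_num) (by norm_num) (by norm_num) (by norm_num) (by norm_num)
    (by decide +kernel : tabCheck (nat_lit 16) (nat_lit 13) (nat_lit 13871228414696902672) = true)
    (by decide +kernel : tabCheck (nat_lit 9) (nat_lit 13) (nat_lit 6714231056) = true)
    (by decide +kernel : obCheck (nat_lit 16) (nat_lit 9) (nat_lit 144) (nat_lit 13) (nat_lit 13871228414696902672) (nat_lit 6714231056) = true)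
    isP1_16 isP1_9 (by decide) (by decide) (by norm_num) (by norm_num) (by norm_num)

lemma chk_16_9_13_1 {a t d : ℕ} (hT5 : T5All a t d) (hco : Nat.Coprime (16 * 9) d)
    (hld : ¬ 13 ∣ d) {i j : ℕ} (hi : i < C16.length)
    (hj : j < C9.length) (h1 : C16[i] = (a % 16, t % 16)) (h2 : C9[j] = (a % 9, t % 9)) :
    chk 13 (dg 48 (dg 2592 TB_16_9_13_1 i) j) (a % 13) (t % 13) = true :=
  rel_chk hyp_16_9_13_1 (J := 54) (D1 := C16) (D2 := C9) (TB := TB_16_9_13_1) check_16_9_13_1 hT5 (by norm_num) hco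
    (by norm_num) hld hi hj h1 h2

lemma hyp_7_17_5_0 : Hyp 7 17 5 85 35 71385360 19893600294952583440 P7 P17 :=
  mkHyp (by norm_num) (by norm_num) (by norm_num) (by norm_num) (by norm_num)
    (by decide +kernel : tabCheck (nat_lit 7) (nat_lit 5) (nat_lit 71385360) = true)
    (by decide +kernel : tabCheck (nat_lit 17) (nat_lit 5) (nat_lit 19893600294952583440) = true)
    (by decide +kernel : obCheck (nat_lit 7) (nat_lit 17) (nat_lit 119) (nat_lit 5) (nat_lit 71385360) (nat_lit 19893600294952583440) = true)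
    isP1_7 isP1_17 (by decide) (by decide) (by norm_num) (by norm_num) (by norm_num)

lemma chk_7_17_5_0 {a t d : ℕ} (hT5 : T5All a t d) (hco : Nat.Coprime (7 * 17) d)
    (hld : ¬ 5 ∣ d) {i j : ℕ} (hi : i < C7.length)
    (hj : j < C17.length) (h1 : C7[i] = (a % 7, t % 7)) (h2 : C17[j] = (a % 17, t % 17)) :
    chk 5 (dg 48 (dg 6528 TB_7_17_5_0 i) j) (a % 5) (t % 5) = true :=
  rel_chk hyp_7_17_5_0 (J := 136) (D1 := C7) (D2 := C17) (TB := TB_7_17_5_0) check_7_17_5_0 hT5 (by norm_num) hco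
    (by norm_num) hld hi hj h1 h2

lemma hyp_7_17_13_0 : Hyp 7 17 13 85 35 205760784 32865112616832437264 P7 P17 :=
  mkHyp (by norm_num) (by norm_num) (by norm_num) (by norm_num) (by norm_num)
    (by decide +kernel : tabCheck (nat_lit 7) (nat_lit 13) (nat_lit 205760784) = true)
    (by decide +kernel : tabCheck (nat_lit 17) (nat_lit 13) (nat_lit 32865112616832437264) = true)
    (by decide +kernel : obCheck (nat_lit 7) (nat_lit 17) (nat_lit 119) (nat_lit 13) (nat_lit 205760784) (nat_lit 32865112616832437264) = true)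
    isP1_7 isP1_17 (by decide) (by decide) (by norm_num) (by norm_num) (by norm_num)

lemma chk_7_17_13_0 {a t d : ℕ} (hT5 : T5All a t d) (hco : Nat.Coprime (7 * 17) d)
    (hld : ¬ 13 ∣ d) {i j : ℕ} (hi : i < C7.length)
    (hj : j < C17.length) (h1 : C7[i] = (a % 7, t % 7)) (h2 : C17[j] = (a % 17, t % 17)) :
    chk 13 (dg 48 (dg 6528 TB_7_17_13_0 i) j) (a % 13) (t % 13) = true :=
  rel_chk hyp_7_17_13_0 (J := 136) (D1 := C7) (D2 := C17) (TB := TB_7_17_13_0) check_7_17_13_0 hT5 (by norm_num) hco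
    (by norm_num) hld hi hj h1 h2

lemma hyp_13_17_5_0 : Hyp 13 17 5 170 52 1165560225469200 23207668197802189840 P13 P17 :=
  mkHyp (by norm_num) (by norm_num) (by norm_num) (by norm_num) (by norm_num)
    (by decide +kernel : tabCheck (nat_lit 13) (nat_lit 5) (nat_lit 1165560225469200) = true)
    (by decide +kernel : tabCheck (nat_lit 17) (nat_lit 5) (nat_lit 23207668197802189840) = true)
    (by decide +kernel : obCheck (nat_lit 13) (nat_lit 17) (nat_lit 221) (nat_lit 5) (nat_lit 1165560225469200) (nat_lit 23207668197802189840) = true)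
    isP1_13 isP1_17 (by decide) (by decide) (by norm_num) (by norm_num) (by norm_num)

lemma chk_13_17_5_0 {a t d : ℕ} (hT5 : T5All a t d) (hco : Nat.Coprime (13 * 17) d)
    (hld : ¬ 5 ∣ d) {i j : ℕ} (hi : i < C13.length)
    (hj : j < C17.length) (h1 : C13[i] = (a % 13, t % 13)) (h2 : C17[j] = (a % 17, t % 17)) :
    chk 5 (dg 48 (dg 6528 TB_13_17_5_0 i) j) (a % 5) (t % 5) = true :=
  rel_chk hyp_13_17_5_0 (J := 136) (D1 := C13) (D2 := C17) (TB := TB_13_17_5_0) check_13_17_5_0 hT5 (by norm_num) hco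
    (by norm_num) hld hi hj h1 h2

lemma hyp_16_17_13_0 : Hyp 16 17 13 17 256 13857664839259815952 32648151485734018064 P16 P17 :=
  mkHyp (by norm_num) (by norm_num) (by norm_num) (by norm_num) (by norm_num)
    (by decide +kernel : tabCheck (nat_lit 16) (nat_lit 13) (nat_lit 13857664839259815952) = true)
    (by decide +kernel : tabCheck (nat_lit 17) (nat_lit 13) (nat_lit 32648151485734018064) = true)
    (by decide +kernel : obCheck (nat_lit 16) (nat_lit 17) (nat_lit 272) (nat_lit 13) (nat_lit 13857664839259815952) (nat_lit 32648151485734018064) = true)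
    isP1_16 isP1_17 (by decide) (by decide) (by norm_num) (by norm_num) (by norm_num)

lemma chk_16_17_13_0 {a t d : ℕ} (hT5 : T5All a t d) (hco : Nat.Coprime (16 * 17) d)
    (hld : ¬ 13 ∣ d) {i j : ℕ} (hi : i < C16.length)
    (hj : j < C17.length) (h1 : C16[i] = (a % 16, t % 16)) (h2 : C17[j] = (a % 17, t % 17)) :
    chk 13 (dg 48 (dg 6528 TB_16_17_13_0 i) j) (a % 13) (t % 13) = true :=
  rel_chk hyp_16_17_13_0 (J := 136) (D1 := C16) (D2 := C17) (TB := TB_16_17_13_0) check_16_17_13_0 hT5 (by norm_num) hco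
    (by norm_num) hld hi hj h1 h2

lemma hyp_13_11_5_0 : Hyp 13 11 5 66 78 353030276977680 4485087826960 P13 P11 :=
  mkHyp (by norm_num) (by norm_num) (by norm_num) (by norm_num) (by norm_num)
    (by decide +kernel : tabCheck (nat_lit 13) (nat_lit 5) (nat_lit 353030276977680) = true)
    (by decide +kernel : tabCheck (nat_lit 11) (nat_lit 5) (nat_lit 4485087826960) = true)
    (by decide +kernel : obCheck (nat_lit 13) (nat_lit 11) (nat_lit 143) (nat_lit 5) (nat_lit 353030276977680) (nat_lit 4485087826960) = true)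
    isP1_13 isP1_11 (by decide) (by decide) (by norm_num) (by norm_num) (by norm_num)

lemma chk_13_11_5_0 {a t d : ℕ} (hT5 : T5All a t d) (hco : Nat.Coprime (13 * 11) d)
    (hld : ¬ 5 ∣ d) {i j : ℕ} (hi : i < C13.length)
    (hj : j < C11.length) (h1 : C13[i] = (a % 13, t % 13)) (h2 : C11[j] = (a % 11, t % 11)) :
    chk 5 (dg 48 (dg 3168 TB_13_11_5_0 i) j) (a % 5) (t % 5) = true :=
  rel_chk hyp_13_11_5_0 (J := 66) (D1 := C13) (D2 := C11) (TB := TB_13_11_5_0) check_13_11_5_0 hT5 (by norm_num) hco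
    (by norm_num) hld hi hj h1 h2

lemma hyp_13_11_7_0 : Hyp 13 11 7 66 78 356384072942608 6693271442960 P13 P11 :=
  mkHyp (by norm_num) (by norm_num) (by norm_num) (by norm_num) (by norm_num)
    (by decide +kernel : tabCheck (nat_lit 13) (nat_lit 7) (nat_lit 356384072942608) = true)
    (by decide +kernel : tabCheck (nat_lit 11) (nat_lit 7) (nat_lit 6693271442960) = true)
    (by decide +kernel : obCheck (nat_lit 13) (nat_lit 11) (nat_lit 143) (nat_lit 7) (nat_lit 356384072942608) (nat_lit 6693271442960) = true)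
    isP1_13 isP1_11 (by decide) (by decide) (by norm_num) (by norm_num) (by norm_num)

lemma chk_13_11_7_0 {a t d : ℕ} (hT5 : T5All a t d) (hco : Nat.Coprime (13 * 11) d)
    (hld : ¬ 7 ∣ d) {i j : ℕ} (hi : i < C13.length)
    (hj : j < C11.length) (h1 : C13[i] = (a % 13, t % 13)) (h2 : C11[j] = (a % 11, t % 11)) :
    chk 7 (dg 48 (dg 3168 TB_13_11_7_0 i) j) (a % 7) (t % 7) = true :=
  rel_chk hyp_13_11_7_0 (J := 66) (D1 := C13) (D2 := C11) (TB := TB_13_11_7_0) check_13_11_7_0 hT5 (by norm_num) hco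
    (by norm_num) hld hi hj h1 h2

lemma hyp_16_11_5_0 : Hyp 16 11 5 33 144 1166467763814805520 4485087826960 P16 P11 :=
  mkHyp (by norm_num) (by norm_num) (by norm_num) (by norm_num) (by norm_num)
    (by decide +kernel : tabCheck (nat_lit 16) (nat_lit 5) (nat_lit 1166467763814805520) = true)
    (by decide +kernel : tabCheck (nat_lit 11) (nat_lit 5) (nat_lit 4485087826960) = true)
    (by decide +kernel : obCheck (nat_lit 16) (nat_lit 11) (nat_lit 176) (nat_lit 5) (nat_lit 1166467763814805520) (nat_lit 4485087826960) = true)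
    isP1_16 isP1_11 (by decide) (by decide) (by norm_num) (by norm_num) (by norm_num)

lemma chk_16_11_5_0 {a t d : ℕ} (hT5 : T5All a t d) (hco : Nat.Coprime (16 * 11) d)
    (hld : ¬ 5 ∣ d) {i j : ℕ} (hi : i < C16.length)
    (hj : j < C11.length) (h1 : C16[i] = (a % 16, t % 16)) (h2 : C11[j] = (a % 11, t % 11)) :
    chk 5 (dg 48 (dg 3168 TB_16_11_5_0 i) j) (a % 5) (t % 5) = true :=
  rel_chk hyp_16_11_5_0 (J := 66) (D1 := C16) (D2 := C11) (TB := TB_16_11_5_0) check_16_11_5_0 hT5 (by norm_num) hco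
    (by norm_num) hld hi hj h1 h2

end Pool.Agent.LibH4.T6
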