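import Pool.Agent.Lib_helper4.Inert
import Pool.Agent.Lib_helper4.T6Final

/-!
The finite list of small parameters and the conclusion.
-/

namespace Pool.Agent.LibH4

open Cone

/-- no element of norm `13` for `d = 3293` -/
lemma no_norm_13 (π : QuadraticAlgebra ℤ ((1 + 5 * 2 : ℕ) : ℤ) (((5 ^ 2 + 1) * 2 + 5 : ℕ) : ℤ)) :
    π.norm.natAbs ≠ 13 := by
  intro h
  obtain ⟨⟨f1, f2, f3⟩, hc⟩ := cone_count 5 2 13 (by norm_num) (by norm_num) (by norm_num)
  have hne : (SN ((1 + 5 * 2 : ℕ) : ℤ) (((5 ^ 2 + 1) * 2 + 5 : ℕ) : ℤ) 13).Nonempty :=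
    ⟨Associates.mk π, h⟩
  have z1 : E1 5 2 13 = ∅ := by
    rw [Set.eq_empty_iff_forall_notMem]
    rintro ⟨x, y⟩ ⟨hx, hy, he⟩
    simp only at hx hy he
    push_cast at he
    have hyx : (y : ℤ) < 5 * x := by exact_mod_cast hy
    have hx1 : (1 : ℤ) ≤ x := by exact_mod_cast hx
    have := form1_ge (a := 5) (t := 2) (by norm_num) (by norm_num) hx1 (by positivity) hyx
    have hx3 : x ≤ 3 := by
      by_contra hcon
      push Not at hcon
      have : (4 : ℤ) ≤ x := by exact_mod_cast hcon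
      nlinarith
    interval_cases x <;> interval_cases y <;> norm_num at he
  have z2 : E2 5 2 13 = ∅ := by
    rw [Set.eq_empty_iff_forall_notMem]
    rintro ⟨x, y⟩ ⟨hx, hy, he⟩
    simp only at hx hy he
    push_cast at he
    have hyx : (y : ℤ) < ((5 ^ 2 + 1) * 2 + 5) * x := by exact_mod_cast hy
    have := form2_ge (a := 5) (t := 2) (x := (x : ℤ)) (y := (y : ℤ)) (by positivity) hyx
    have hx3 : x ≤ 1 := by
      by_contra hcon
      push Not at hcon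
      have : (2 : ℤ) ≤ x := by exact_mod_cast hcon
      nlinarith
    interval_cases x
    interval_cases y <;> norm_num at he
  have z3 : E3 5 2 13 = ∅ := by
    rw [Set.eq_empty_iff_forall_notMem]
    rintro ⟨x, y⟩ ⟨hx, hy, he⟩
    simp only at hx hy he
    push_cast at he
    have hyx : (y : ℤ) < 5 * x := by exact_mod_cast hy
    have hx1 : (1 : ℤ) ≤ x := by exact_mod_cast hx
    have := form3_ge' (a := 5) (t := 2) (by norm_num) (by norm_num) hx1 (by positivity) hyx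
    have hx3 : x ≤ 3 := by
      by_contra hcon
      push Not at hcon
      have : (4 : ℤ) ≤ x := by exact_mod_cast hcon
      nlinarith
    interval_cases x <;> interval_cases y <;> norm_num at he
  rw [z1, z2, z3, Set.ncard_empty] at hc
  have hfin : (SN ((1 + 5 * 2 : ℕ) : ℤ) (((5 ^ 2 + 1) * 2 + 5 : ℕ) : ℤ) 13).Finite := by
    have e : SN (1 + (5 : ℤ) * 2) (((5 : ℤ) ^ 2 + 1) * 2 + 5) 13 =
      Associates.mk '' G (a := 5) (t := 2) (by norm_num) (by norm_num) 13 :=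
      (image_G (a := 5) (t := 2) (by norm_num) (by norm_num) 13 (by norm_num)).symm
    have : (SN (1 + (5 : ℤ) * 2) (((5 : ℤ) ^ 2 + 1) * 2 + 5) 13).Finite := by
      rw [e, G_eq]
      exact ((((I1_finite (by norm_num) (by norm_num) 13).image _).union
        ((I2_finite (by norm_num) (by norm_num) 13).image _)).union
        ((I3_finite (by norm_num) (by norm_num) 13).image _)).image _
    exact this
  have := (Set.ncard_pos hfin).mpr hne
  omega

/-- use of inertness of an odd prime -/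
lemma use_odd (a t d : ℕ) (ha : 1 ≤ a) (ht : 1 ≤ t)
    (hd : d = ((a ^ 2 + 1) * t + a) ^ 2 + 4 * (1 + a * t)) (hsq : Squarefree d)
    [IsDomain (QuadraticAlgebra ℤ ((1 + a * t : ℕ) : ℤ) (((a ^ 2 + 1) * t + a : ℕ) : ℤ))]
    [UniqueFactorizationMonoid
      (QuadraticAlgebra ℤ ((1 + a * t : ℕ) : ℤ) (((a ^ 2 + 1) * t + a : ℕ) : ℤ))]
    (p : ℕ) (hp : p.Prime) (hpm : p < 1 + a * t) (hp2 : p ≠ 2)
    (hj : jacobiSym ((((a ^ 2 + 1) * t + a) ^ 2 + 4 * (1 + a * t) : ℕ) : ℤ) p ≠ -1) : False := by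
  have := (small_primes_inert a t d ha ht hd hsq p hp hpm).1 hp2
  rw [hd] at this
  exact hj this

/-- use of inertness of two -/
lemma use_two (a t d : ℕ) (ha : 1 ≤ a) (ht : 1 ≤ t)
    (hd : d = ((a ^ 2 + 1) * t + a) ^ 2 + 4 * (1 + a * t)) (hsq : Squarefree d)
    [IsDomain (QuadraticAlgebra ℤ ((1 + a * t : ℕ) : ℤ) (((a ^ 2 + 1) * t + a : ℕ) : ℤ))]
    [UniqueFactorizationMonoid
      (QuadraticAlgebra ℤ ((1 + a * t : ℕ) : ℤ) (((a ^ 2 + 1) * t + a : ℕ) : ℤ))]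
    (hpm : 2 < 1 + a * t) (hj : (1 + a * t) % 2 = 0) : False := by
  have := (d_mod_eight_of_ufd a t d ha ht hd hsq hpm).2.1
  omega

/-- the eleven pairs -/
def pairs : List (ℕ × ℕ) :=
  [(1, 1), (1, 2), (1, 4), (1, 6), (1, 12), (2, 1), (2, 3), (2, 5), (3, 2), (4, 1), (6, 1)]

lemma enum_pairs (a t : ℕ) (ha : 1 ≤ a) (ht : 1 ≤ t) (ha16 : a ≤ 16) (ht16 : t ≤ 16)
    (hm : 1 + a * t ≤ 17) (h2 : 2 < 1 + a * t)
    (hB : ((a ^ 2 + 1) * t + a) % 2 = 1) (hmodd : (1 + a * t) % 2 = 1)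
    (e55 : ¬ (a = 1 ∧ t = 8)) (e52 : ¬ (a = 5 ∧ t = 2))
    (h3 : 3 < 1 + a * t → jacobiSym ((((a ^ 2 + 1) * t + a) ^ 2 + 4 * (1 + a * t) : ℕ) : ℤ) 3 = -1)
    (h5 : 5 < 1 + a * t → jacobiSym ((((a ^ 2 + 1) * t + a) ^ 2 + 4 * (1 + a * t) : ℕ) : ℤ) 5 = -1)
    (h7 : 7 < 1 + a * t → jacobiSym ((((a ^ 2 + 1) * t + a) ^ 2 + 4 * (1 + a * t) : ℕ) : ℤ) 7 = -1)
    (h13 : 13 < 1 + a * t → jacobiSym ((((a ^ 2 + 1) * t + a) ^ 2 + 4 * (1 + a * t) : ℕ) : ℤ) 13 = -1) :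
    (a, t) ∈ pairs := by
  interval_cases a <;> interval_cases t <;> first
    | omega
    | decide
    | exact absurd ⟨rfl, rfl⟩ e55
    | exact absurd ⟨rfl, rfl⟩ e52
    | (exfalso; have := h3 (by norm_num); norm_num at this; done)
    | (exfalso; have := h5 (by norm_num); norm_num at this; done)
    | (exfalso; have := h7 (by norm_num); norm_num at this; done)
    | (exfalso; have := h13 (by norm_num); norm_num at this; done)

lemma small_case (a t d : ℕ) (ha : 1 ≤ a) (ht : 1 ≤ t)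
    (hd : d = ((a ^ 2 + 1) * t + a) ^ 2 + 4 * (1 + a * t)) (hsq : Squarefree d)
    [IsDomain (QuadraticAlgebra ℤ ((1 + a * t : ℕ) : ℤ) (((a ^ 2 + 1) * t + a : ℕ) : ℤ))]
    [UniqueFactorizationMonoid
      (QuadraticAlgebra ℤ ((1 + a * t : ℕ) : ℤ) (((a ^ 2 + 1) * t + a : ℕ) : ℤ))]
    (hm : 1 + a * t ≤ 17) : (a, t) ∈ pairs := by
  have hBodd := B_odd hd hsq
  have ha16 : a ≤ 16 := by nlinarith
  have ht16 : t ≤ 16 := by nlinarith
  by_cases h2 : 2 < 1 + a * t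
  · have hmodd := (d_mod_eight_of_ufd a t d ha ht hd hsq h2).2.1
    have e55 : ¬ (a = 1 ∧ t = 8) := by
      rintro ⟨rfl, rfl⟩
      have : 5 * 5 ∣ d := by rw [hd]; norm_num
      have := hsq 5 this
      norm_num at this
    have e52 : ¬ (a = 5 ∧ t = 2) := by
      rintro ⟨rfl, rfl⟩
      have hr : ((13 : ℕ) : ℤ) ∣ (3 : ℤ) ^ 2 + (((5 ^ 2 + 1) * 2 + 5 : ℕ) : ℤ) * 3 -
        ((1 + 5 * 2 : ℕ) : ℤ) := by norm_num
      obtain ⟨π, hπ⟩ := exists_norm_of_root (m := ((1 + 5 * 2 : ℕ) : ℤ))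
        (B := (((5 ^ 2 + 1) * 2 + 5 : ℕ) : ℤ)) (p := 13) (by norm_num) hr
      exact no_norm_13 π hπ
    have h3 : 3 < 1 + a * t → jacobiSym ((((a ^ 2 + 1) * t + a) ^ 2 + 4 * (1 + a * t) : ℕ) : ℤ) 3 = -1 := by
      intro h
      by_contra hne
      exact use_odd a t d ha ht hd hsq 3 (by norm_num) h (by norm_num) hne
    have h5 : 5 < 1 + a * t → jacobiSym ((((a ^ 2 + 1) * t + a) ^ 2 + 4 * (1 + a * t) : ℕ) : ℤ) 5 = -1 := by
      intro h
      by_contra hne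
      exact use_odd a t d ha ht hd hsq 5 (by norm_num) h (by norm_num) hne
    have h7 : 7 < 1 + a * t → jacobiSym ((((a ^ 2 + 1) * t + a) ^ 2 + 4 * (1 + a * t) : ℕ) : ℤ) 7 = -1 := by
      intro h
      by_contra hne
      exact use_odd a t d ha ht hd hsq 7 (by norm_num) h (by norm_num) hne
    have h13 : 13 < 1 + a * t → jacobiSym ((((a ^ 2 + 1) * t + a) ^ 2 + 4 * (1 + a * t) : ℕ) : ℤ) 13 = -1 := by
      intro h
      by_contra hne
      exact use_odd a t d ha ht hd hsq 13 (by norm_num) h (by norm_num) hne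
    exact enum_pairs a t ha ht ha16 ht16 hm h2 hBodd hmodd e55 e52 h3 h5 h7 h13
  · have hat : a * t = 1 := by nlinarith
    have h1 : a = 1 := Nat.eq_one_of_mul_eq_one_right hat
    have h1' : t = 1 := Nat.eq_one_of_mul_eq_one_left hat
    subst h1; subst h1'
    decide

end Pool.Agent.LibH4
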