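import Pool.Agent.Lib_helper4.KerSpec
import Pool.Agent.Lib_helper4.ProjLine

/-!
Soundness of the table computations.
-/

namespace Pool.Agent.LibH4.T6

open Finset Ker

/-- the linear weight -/
def bI (q l r : ℕ) : ZMod l := if r = 0 then 0 else (q : ZMod l) - 2 * (r : ZMod l)

/-- the quadratic weight -/
def b2I (q l s : ℕ) : ZMod l := 6 * (s : ZMod l) ^ 2 - 6 * (s : ZMod l) * q + (q : ZMod l) ^ 2

/-- the relation coming from the analytic part -/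
def T5Eq (a t q l : ℕ) (chi : ZMod q → ZMod l) : Prop :=
  ∑ r ∈ range q, ∑ s ∈ range q,
    chi ((((r : ℤ) ^ 2 + ((((a ^ 2 + 1) * t + a : ℕ)) : ℤ) * r * s
      - ((1 + a * t : ℕ) : ℤ) * (s : ℤ) ^ 2 : ℤ)) : ZMod q) *
      (6 * bI q l r * bI q l s + (((a ^ 2 + 1) * t + a : ℕ) : ZMod l) * b2I q l s) +
  ∑ r ∈ range q, ∑ s ∈ range q,
    chi (((((1 + a * t : ℕ) : ℤ) * (r : ℤ) ^ 2 + (2 * ((1 + a * t : ℕ) : ℤ) * a -
      ((((a ^ 2 + 1) * t + a : ℕ)) : ℤ)) * r * s - ((1 + a * t : ℕ) : ℤ) * (s : ℤ) ^ 2 : ℤ)) : ZMod q) *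
      (3 * bI q l r * bI q l s) -
  ∑ r ∈ range q, ∑ s ∈ range q,
    chi (((-((1 + a * t : ℕ) : ℤ) * (r : ℤ) ^ 2 + ((((a ^ 2 + 1) * t + a : ℕ)) : ℤ) * r * s
      + (s : ℤ) ^ 2 : ℤ)) : ZMod q) * (2 * (a : ZMod l) * b2I q l s) = 0

section FormSum

variable {q : ℕ} [NeZero q] {K : Type} [CommRing K]

lemma sum_range_zmod2 (g : ℕ → ℕ → K) :
    ∑ r ∈ range q, ∑ s ∈ range q, g r s = ∑ x : ZMod q, ∑ y : ZMod q, g x.val y.val := by
  have h1 : ∀ g : ℕ → K, ∑ r ∈ range q, g r = ∑ x : ZMod q, g x.val := by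
    intro g
    refine Finset.sum_nbij' (fun r => (r : ZMod q)) (fun z => z.val) ?_ ?_ ?_ ?_ ?_
    · intro r _; exact mem_univ _
    · intro z _; exact mem_range.mpr (ZMod.val_lt z)
    · intro r hr; exact ZMod.val_cast_of_lt (mem_range.mp hr)
    · intro z _; exact ZMod.natCast_zmod_val z
    · intro r hr; simp only [ZMod.val_cast_of_lt (mem_range.mp hr)]
  rw [h1]
  apply Finset.sum_congr rfl
  intro x _
  exact h1 _

lemma form_sum {L : List (ℕ × ℕ)} (hL : IsP1 q L) (chi : ZMod q → K)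
    (hmul : ∀ x y, chi (x * y) = chi x * chi y) (hnu : ∀ x, ¬ IsUnit x → chi x = 0)
    (p k r : ZMod q) (w : ZMod q → ZMod q → K) :
    ∑ x, ∑ y, chi (p * x ^ 2 + k * x * y + r * y ^ 2) * w x y =
      (L.map fun P => chi (p * (P.1 : ZMod q) ^ 2 + k * (P.1 : ZMod q) * (P.2 : ZMod q)
        + r * (P.2 : ZMod q) ^ 2) *
        ∑ z, chi z ^ 2 * w (z * (P.1 : ZMod q)) (z * (P.2 : ZMod q))).sum := by
  classical
  rw [hL K (fun x y => chi (p * x ^ 2 + k * x * y + r * y ^ 2) * w x y)]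
  · congr 1
    apply List.map_congr_left
    intro P _
    have : ∀ u : (ZMod q)ˣ, chi (p * ((u : ZMod q) * (P.1 : ZMod q)) ^ 2 +
        k * ((u : ZMod q) * (P.1 : ZMod q)) * ((u : ZMod q) * (P.2 : ZMod q)) +
        r * ((u : ZMod q) * (P.2 : ZMod q)) ^ 2) *
        w ((u : ZMod q) * (P.1 : ZMod q)) ((u : ZMod q) * (P.2 : ZMod q)) =
        chi (p * (P.1 : ZMod q) ^ 2 + k * (P.1 : ZMod q) * (P.2 : ZMod q)
        + r * (P.2 : ZMod q) ^ 2) * (chi (u : ZMod q) ^ 2 *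
          w ((u : ZMod q) * (P.1 : ZMod q)) ((u : ZMod q) * (P.2 : ZMod q))) := by
      intro u
      have e : p * ((u : ZMod q) * (P.1 : ZMod q)) ^ 2 +
        k * ((u : ZMod q) * (P.1 : ZMod q)) * ((u : ZMod q) * (P.2 : ZMod q)) +
        r * ((u : ZMod q) * (P.2 : ZMod q)) ^ 2 = (u : ZMod q) * ((u : ZMod q) *
        (p * (P.1 : ZMod q) ^ 2 + k * (P.1 : ZMod q) * (P.2 : ZMod q)
        + r * (P.2 : ZMod q) ^ 2)) := by ring
      rw [e, hmul, hmul]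
      ring
    rw [Finset.sum_congr rfl (fun u _ => this u), ← Finset.mul_sum]
    congr 1
    apply sum_units_eq (fun z => chi z ^ 2 * w (z * (P.1 : ZMod q)) (z * (P.2 : ZMod q)))
    intro x hx
    rw [hnu x hx]
    ring
  · intro x y hnc
    rw [hnu, zero_mul]
    intro hu
    apply hnc
    obtain ⟨v, hv⟩ := hu
    refine ⟨((v⁻¹ : (ZMod q)ˣ) : ZMod q) * (p * x + k * y), ((v⁻¹ : (ZMod q)ˣ) : ZMod q) * (r * y), ?_⟩
    have : ((v⁻¹ : (ZMod q)ˣ) : ZMod q) * (p * x ^ 2 + k * x * y + r * y ^ 2) = 1 := by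
      rw [← hv]; simp
    linear_combination this

end FormSum

/-! ### the character -/

/-- the product character -/
def chiF (n1 n2 l T1 T2 : ℕ) (x : ZMod (n1 * n2)) : ZMod l :=
  (ch T1 (x.val % n1) : ZMod l) * (ch T2 (x.val % n2) : ZMod l)

/-- the hypotheses on the data, all of them checked by the kernel -/
structure Hyp (n1 n2 l e1 e2 T1 T2 : ℕ) (L1 L2 : List (ℕ × ℕ)) [NeZero n1] [NeZero n2]
    [NeZero (n1 * n2)] : Prop where
  co : n1.Coprime n2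
  h11 : (e1 : ZMod n1) = 1
  h12 : (e1 : ZMod n2) = 0
  h21 : (e2 : ZMod n1) = 0
  h22 : (e2 : ZMod n2) = 1
  mul1 : ∀ u < n1, ∀ v < n1, (ch T1 (u * v % n1) : ZMod l) = ch T1 u * ch T1 v
  mul2 : ∀ u < n2, ∀ v < n2, (ch T2 (u * v % n2) : ZMod l) = ch T2 u * ch T2 v
  nu1 : ∀ u < n1, ¬ u.Coprime n1 → ch T1 u = 0
  nu2 : ∀ u < n2, ¬ u.Coprime n2 → ch T2 u = 0
  odd : (ch T1 (n1 - 1) : ZMod l) * (ch T2 (n2 - 1) : ZMod l) = -1
  bern : ∑ u ∈ range (n1 * n2), (u : ZMod l) * ((ch T1 (u % n1) : ZMod l) * (ch T2 (u % n2) : ZMod l)) = 0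
  p1 : IsP1 n1 L1
  p2 : IsP1 n2 L2
  len1 : L1.length ≤ 100
  len2 : L2.length ≤ 32
  l3 : 3 ≤ l
  l16 : l ≤ 16
  qle : n1 * n2 ≤ 1000

section Char

variable {n1 n2 l e1 e2 T1 T2 : ℕ} {L1 L2 : List (ℕ × ℕ)} [NeZero n1] [NeZero n2]
    [NeZero (n1 * n2)] (H : Hyp n1 n2 l e1 e2 T1 T2 L1 L2)

omit [NeZero n1] [NeZero n2] [NeZero (n1 * n2)] in
lemma chiF_natCast (N : ℕ) : chiF n1 n2 l T1 T2 (N : ZMod (n1 * n2)) =
    (ch T1 (N % n1) : ZMod l) * (ch T2 (N % n2) : ZMod l) := by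
  unfold chiF
  rw [ZMod.val_natCast, Nat.mod_mod_of_dvd _ (dvd_mul_right n1 n2),
    Nat.mod_mod_of_dvd _ (dvd_mul_left n2 n1)]

include H

lemma chiF_mul (x y : ZMod (n1 * n2)) : chiF n1 n2 l T1 T2 (x * y) =
    chiF n1 n2 l T1 T2 x * chiF n1 n2 l T1 T2 y := by
  conv_lhs => rw [← ZMod.natCast_zmod_val x, ← ZMod.natCast_zmod_val y, ← Nat.cast_mul, chiF_natCast]
  unfold chiF
  have p1 : 0 < n1 := Nat.pos_of_ne_zero (NeZero.ne n1)
  have p2 : 0 < n2 := Nat.pos_of_ne_zero (NeZero.ne n2)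
  rw [Nat.mul_mod, H.mul1 _ (Nat.mod_lt _ p1) _ (Nat.mod_lt _ p1), Nat.mul_mod x.val y.val n2,
    H.mul2 _ (Nat.mod_lt _ p2) _ (Nat.mod_lt _ p2)]
  ring

lemma chiF_neg (x : ZMod (n1 * n2)) : chiF n1 n2 l T1 T2 (-x) = - chiF n1 n2 l T1 T2 x := by
  have h1 : -x = ((n1 * n2 - 1 : ℕ) : ZMod (n1 * n2)) * x := by
    have hpos : 1 ≤ n1 * n2 := Nat.pos_of_ne_zero (NeZero.ne (n1 * n2))
    have : ((n1 * n2 - 1 : ℕ) : ZMod (n1 * n2)) = -1 := by
      rw [Nat.cast_sub hpos]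
      simp
    rw [this]; ring
  have p1 : 1 ≤ n1 := Nat.pos_of_ne_zero (NeZero.ne n1)
  have p2 : 1 ≤ n2 := Nat.pos_of_ne_zero (NeZero.ne n2)
  have e1' : (n1 * n2 - 1) % n1 = n1 - 1 := by
    have : n1 * n2 - 1 = (n1 - 1) + n1 * (n2 - 1) := by
      obtain ⟨k, rfl⟩ := Nat.exists_eq_add_of_le p2
      rw [Nat.add_sub_cancel_left, mul_add, mul_one]
      omega
    rw [this, Nat.add_mul_mod_self_left, Nat.mod_eq_of_lt (by omega)]
  have e2' : (n1 * n2 - 1) % n2 = n2 - 1 := by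
    have : n1 * n2 - 1 = (n2 - 1) + n2 * (n1 - 1) := by
      obtain ⟨k, rfl⟩ := Nat.exists_eq_add_of_le p1
      rw [Nat.add_sub_cancel_left, add_mul, one_mul, mul_comm k n2]
      omega
    rw [this, Nat.add_mul_mod_self_left, Nat.mod_eq_of_lt (by omega)]
  rw [h1, chiF_mul H, chiF_natCast, e1', e2', H.odd]
  ring

lemma chiF_nu (x : ZMod (n1 * n2)) (hx : ¬ IsUnit x) : chiF n1 n2 l T1 T2 x = 0 := by
  have p1 : 0 < n1 := Nat.pos_of_ne_zero (NeZero.ne n1)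
  have p2 : 0 < n2 := Nat.pos_of_ne_zero (NeZero.ne n2)
  rw [← ZMod.natCast_zmod_val x, ZMod.isUnit_iff_coprime, Nat.coprime_mul_iff_right] at hx
  unfold chiF
  by_cases h : x.val.Coprime n1
  · have h2 : ¬ x.val.Coprime n2 := fun h' => hx ⟨h, h'⟩
    have : ¬ (x.val % n2).Coprime n2 := by rwa [ZMod.coprime_mod_iff_coprime]
    rw [H.nu2 _ (Nat.mod_lt _ p2) this]
    simp
  · have : ¬ (x.val % n1).Coprime n1 := by rwa [ZMod.coprime_mod_iff_coprime]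
    rw [H.nu1 _ (Nat.mod_lt _ p1) this]
    simp

lemma chiF_bern : ∑ u ∈ range (n1 * n2), (u : ZMod l) *
    chiF n1 n2 l T1 T2 (u : ZMod (n1 * n2)) = 0 := by
  rw [← H.bern]
  apply Finset.sum_congr rfl
  intro u _
  rw [chiF_natCast]

end Char

/-! ### from the relation to sums over lists -/

section ZRel

variable {q l : ℕ} [NeZero q]

/-- linear weight on residues -/
def bz (q l : ℕ) (x : ZMod q) : ZMod l := bI q l x.val
/-- quadratic weight on residues -/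
def gz (q l : ℕ) (x : ZMod q) : ZMod l := b2I q l x.val

/-- the weight `D` -/
def DZ (chi : ZMod q → ZMod l) (X Y : ZMod q) : ZMod l :=
  ∑ z, chi z ^ 2 * (bz q l (z * X) * bz q l (z * Y))
/-- the weight `E` -/
def EZ (chi : ZMod q → ZMod l) (Y : ZMod q) : ZMod l := ∑ z, chi z ^ 2 * gz q l (z * Y)

/-- first form -/
def F1 (a t : ℕ) (x y : ZMod q) : ZMod q :=
  1 * x ^ 2 + (((a ^ 2 + 1) * t + a : ℕ) : ZMod q) * x * y + (-((1 + a * t : ℕ) : ZMod q)) * y ^ 2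
/-- second form -/
def F3 (a t : ℕ) (x y : ZMod q) : ZMod q :=
  ((1 + a * t : ℕ) : ZMod q) * x ^ 2 + (2 * ((1 + a * t : ℕ) : ZMod q) * a -
    (((a ^ 2 + 1) * t + a : ℕ) : ZMod q)) * x * y + (-((1 + a * t : ℕ) : ZMod q)) * y ^ 2

lemma zrel {L : List (ℕ × ℕ)} (hL : IsP1 q L) (chi : ZMod q → ZMod l)
    (hmul : ∀ x y, chi (x * y) = chi x * chi y) (hnu : ∀ x, ¬ IsUnit x → chi x = 0)
    (a t : ℕ) (h : T5Eq a t q l chi) :
    (L.map fun P => chi (F1 a t (P.1 : ZMod q) (P.2 : ZMod q)) *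
      (6 * DZ chi (P.1 : ZMod q) (P.2 : ZMod q) + (((a ^ 2 + 1) * t + a : ℕ) : ZMod l) *
        EZ chi (P.2 : ZMod q) - 2 * (a : ZMod l) * EZ chi (P.1 : ZMod q)) +
      chi (F3 a t (P.1 : ZMod q) (P.2 : ZMod q)) * (3 * DZ chi (P.1 : ZMod q) (P.2 : ZMod q))).sum
      = 0 := by
  unfold T5Eq at h
  rw [sum_range_zmod2 (q := q) (K := ZMod l), sum_range_zmod2 (q := q) (K := ZMod l),
    sum_range_zmod2 (q := q) (K := ZMod l)] at h
  have e3 : ∑ x : ZMod q, ∑ y : ZMod q, chi (((-((1 + a * t : ℕ) : ℤ) * ((x.val : ℕ) : ℤ) ^ 2 +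
      ((((a ^ 2 + 1) * t + a : ℕ)) : ℤ) * (x.val : ℕ) * (y.val : ℕ)
      + ((y.val : ℕ) : ℤ) ^ 2 : ℤ)) : ZMod q) * (2 * (a : ZMod l) * b2I q l y.val) =
      ∑ x : ZMod q, ∑ y : ZMod q, chi (F1 a t x y) * (2 * (a : ZMod l) * gz q l x) := by
    rw [Finset.sum_comm]
    apply Finset.sum_congr rfl
    intro x _
    apply Finset.sum_congr rfl
    intro y _
    unfold F1 gz
    congr 2
    push_cast
    rw [ZMod.natCast_zmod_val, ZMod.natCast_zmod_val]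
    ring
  have e1 : ∑ x : ZMod q, ∑ y : ZMod q, chi (((((x.val : ℕ) : ℤ) ^ 2 +
      ((((a ^ 2 + 1) * t + a : ℕ)) : ℤ) * (x.val : ℕ) * (y.val : ℕ)
      - ((1 + a * t : ℕ) : ℤ) * ((y.val : ℕ) : ℤ) ^ 2 : ℤ)) : ZMod q) *
      (6 * bI q l x.val * bI q l y.val + (((a ^ 2 + 1) * t + a : ℕ) : ZMod l) * b2I q l y.val) =
      ∑ x : ZMod q, ∑ y : ZMod q, chi (F1 a t x y) * (6 * (bz q l x * bz q l y) +
        (((a ^ 2 + 1) * t + a : ℕ) : ZMod l) * gz q l y) := by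
    apply Finset.sum_congr rfl
    intro x _
    apply Finset.sum_congr rfl
    intro y _
    unfold F1 gz bz
    rw [← mul_assoc]
    congr 2
    push_cast
    rw [ZMod.natCast_zmod_val, ZMod.natCast_zmod_val]
    ring
  have e2 : ∑ x : ZMod q, ∑ y : ZMod q, chi (((((1 + a * t : ℕ) : ℤ) * ((x.val : ℕ) : ℤ) ^ 2 +
      (2 * ((1 + a * t : ℕ) : ℤ) * a - ((((a ^ 2 + 1) * t + a : ℕ)) : ℤ)) * (x.val : ℕ) *
      (y.val : ℕ) - ((1 + a * t : ℕ) : ℤ) * ((y.val : ℕ) : ℤ) ^ 2 : ℤ)) : ZMod q) *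
      (3 * bI q l x.val * bI q l y.val) =
      ∑ x : ZMod q, ∑ y : ZMod q, chi (F3 a t x y) * (3 * (bz q l x * bz q l y)) := by
    apply Finset.sum_congr rfl
    intro x _
    apply Finset.sum_congr rfl
    intro y _
    have ea : (((((1 + a * t : ℕ) : ℤ) * ((x.val : ℕ) : ℤ) ^ 2 +
      (2 * ((1 + a * t : ℕ) : ℤ) * a - ((((a ^ 2 + 1) * t + a : ℕ)) : ℤ)) * (x.val : ℕ) *
      (y.val : ℕ) - ((1 + a * t : ℕ) : ℤ) * ((y.val : ℕ) : ℤ) ^ 2 : ℤ)) : ZMod q) =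
      F3 a t x y := by
      unfold F3
      push_cast
      rw [ZMod.natCast_zmod_val, ZMod.natCast_zmod_val]
      ring
    rw [ea]
    unfold bz
    ring
  rw [e1, e2, e3] at h
  have h' : ∑ x : ZMod q, ∑ y : ZMod q, chi (F1 a t x y) * (6 * (bz q l x * bz q l y) +
        (((a ^ 2 + 1) * t + a : ℕ) : ZMod l) * gz q l y - 2 * (a : ZMod l) * gz q l x) +
      ∑ x : ZMod q, ∑ y : ZMod q, chi (F3 a t x y) * (3 * (bz q l x * bz q l y)) = 0 := by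
    rw [← h]
    have : ∑ x : ZMod q, ∑ y : ZMod q, chi (F1 a t x y) * (6 * (bz q l x * bz q l y) +
        (((a ^ 2 + 1) * t + a : ℕ) : ZMod l) * gz q l y - 2 * (a : ZMod l) * gz q l x) =
        ∑ x : ZMod q, ∑ y : ZMod q, chi (F1 a t x y) * (6 * (bz q l x * bz q l y) +
        (((a ^ 2 + 1) * t + a : ℕ) : ZMod l) * gz q l y) -
        ∑ x : ZMod q, ∑ y : ZMod q, chi (F1 a t x y) * (2 * (a : ZMod l) * gz q l x) := by
      rw [← Finset.sum_sub_distrib]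
      apply Finset.sum_congr rfl
      intro x _
      rw [← Finset.sum_sub_distrib]
      apply Finset.sum_congr rfl
      intro y _
      ring
    rw [this]
    ring
  unfold F1 F3 at h'
  rw [form_sum hL chi hmul hnu 1 _ _ (fun x y => 6 * (bz q l x * bz q l y) +
        (((a ^ 2 + 1) * t + a : ℕ) : ZMod l) * gz q l y - 2 * (a : ZMod l) * gz q l x),
    form_sum hL chi hmul hnu _ _ _ (fun x y => 3 * (bz q l x * bz q l y)),
    ← List.sum_map_add] at h'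
  rw [← h']
  congr 1
  apply List.map_congr_left
  intro P _
  unfold F1 F3
  congr 2
  · unfold DZ EZ
    rw [Finset.mul_sum, Finset.mul_sum, Finset.mul_sum, ← Finset.sum_add_distrib,
      ← Finset.sum_sub_distrib]
    apply Finset.sum_congr rfl
    intro z _
    ring
  · unfold DZ
    rw [Finset.mul_sum]
    apply Finset.sum_congr rfl
    intro z _
    ring

end ZRel

end Pool.Agent.LibH4.T6
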