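import Pool.Agent.Lib_helper4.T6Sound

/-!
Soundness of the table computations, natural number level.
-/

namespace Pool.Agent.LibH4.T6

open Finset Ker

/-! ### weights -/

lemma bet_cast (q l r : ℕ) (hl : 2 ≤ l) : ((bet q l r : ℕ) : ZMod l) = bI q l r := by
  unfold bI
  cases r with
  | zero => simp [bet]
  | succ r =>
    have : bet q l (r + 1) = (q + (l - 2) * (r + 1)) % l := rfl
    rw [this, ZMod.natCast_mod, if_neg (by omega)]
    push_cast [Nat.cast_sub hl]
    simp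
    ring

lemma bet_lt (q l r : ℕ) (hl : 0 < l) (hl16 : l ≤ 16) : bet q l r < 16 := by
  cases r with
  | zero => simp [bet]
  | succ r =>
    have : bet q l (r + 1) = (q + (l - 2) * (r + 1)) % l := rfl
    rw [this]
    exact (Nat.mod_lt _ hl).trans_le hl16

lemma gam_cast (q l r : ℕ) (hl : 1 ≤ l) : ((gam q l r : ℕ) : ZMod l) = b2I q l r := by
  unfold b2I
  have : gam q l r = (6 * (r * r) + 6 * (l - 1) * (q * r) + q * q) % l := rfl
  rw [this, ZMod.natCast_mod]
  push_cast [Nat.cast_sub hl]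
  simp
  ring

lemma gam_lt (q l r : ℕ) (hl : 0 < l) (hl16 : l ≤ 16) : gam q l r < 16 := by
  have : gam q l r = (6 * (r * r) + 6 * (l - 1) * (q * r) + q * q) % l := rfl
  rw [this]
  exact (Nat.mod_lt _ hl).trans_le hl16

/-! ### the weight sums -/

/-- term of `D` -/
def tD (q CT BT X Y lam : ℕ) : ℕ := ch CT lam * (ch BT (lam * X % q) * ch BT (lam * Y % q))
/-- term of `E` -/
def tE (q CT GT Y lam : ℕ) : ℕ := ch CT lam * ch GT (lam * Y % q)

lemma dterm_eq (q CT BT GT X Y lam : ℕ) : dterm q CT BT GT X Y lam =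
    tD q CT BT X Y lam + 2 ^ 24 * tE q CT GT Y lam + 2 ^ 48 * tE q CT GT X lam := by
  unfold dterm tD tE
  generalize ch CT lam = c
  cases c with
  | zero => simp
  | succ c =>
    change strict (lam * X % q) (fun x => strict (lam * Y % q) fun y => (c + 1) *
      (ch BT x * ch BT y + (16777216 * ch GT y + 281474976710656 * ch GT x))) = _
    rw [strict_eq, strict_eq]
    ring

/-- the sums -/
def sD (q CT BT X Y : ℕ) : ℕ := ∑ lam ∈ range q, tD q CT BT X Y lam
/-- the sums -/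
def sE (q CT GT Y : ℕ) : ℕ := ∑ lam ∈ range q, tE q CT GT Y lam

lemma sD_lt (q CT BT X Y : ℕ) (hq : q ≤ 1000) : sD q CT BT X Y < 2 ^ 24 := by
  have : sD q CT BT X Y ≤ ∑ lam ∈ range q, 3375 := by
    apply Finset.sum_le_sum
    intro lam _
    unfold tD
    have h1 := ch_lt CT lam
    have h2 := ch_lt BT (lam * X % q)
    have h3 := ch_lt BT (lam * Y % q)
    have h4 : ch BT (lam * X % q) * ch BT (lam * Y % q) ≤ 15 * 15 := Nat.mul_le_mul (by omega) (by omega)
    calc ch CT lam * (ch BT (lam * X % q) * ch BT (lam * Y % q)) ≤ 15 * (15 * 15) :=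
          Nat.mul_le_mul (by omega) h4
      _ = 3375 := by norm_num
  rw [sum_const, card_range, smul_eq_mul] at this
  have h5 : q * 3375 ≤ 1000 * 3375 := Nat.mul_le_mul_right _ hq
  calc sD q CT BT X Y ≤ q * 3375 := this
    _ ≤ 1000 * 3375 := h5
    _ < 2 ^ 24 := by norm_num

lemma sE_lt (q CT GT Y : ℕ) (hq : q ≤ 1000) : sE q CT GT Y < 2 ^ 24 := by
  have : sE q CT GT Y ≤ ∑ lam ∈ range q, 225 := by
    apply Finset.sum_le_sum
    intro lam _
    unfold tE
    have h1 := ch_lt CT lam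
    have h3 := ch_lt GT (lam * Y % q)
    calc ch CT lam * ch GT (lam * Y % q) ≤ 15 * 15 :=
          Nat.mul_le_mul (by omega) (by omega)
      _ = 225 := by norm_num
  rw [sum_const, card_range, smul_eq_mul] at this
  have h5 : q * 225 ≤ 1000 * 225 := Nat.mul_le_mul_right _ hq
  calc sE q CT GT Y ≤ q * 225 := this
    _ ≤ 1000 * 225 := h5
    _ < 2 ^ 24 := by norm_num

lemma dfull_eq (q l CT BT GT X Y : ℕ) (hq : q ≤ 1000) : dfull q l CT BT GT X Y =
    sD q CT BT X Y % l + 2 ^ 16 * (sE q CT GT Y % l) + 2 ^ 32 * (sE q CT GT X % l) := by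
  have hs : sumR (dterm q CT BT GT X Y) q =
      sD q CT BT X Y + 2 ^ 24 * (sE q CT GT Y + 2 ^ 24 * sE q CT GT X) := by
    rw [sumR_eq, Finset.sum_congr rfl (fun lam _ => dterm_eq q CT BT GT X Y lam)]
    unfold sD sE
    rw [Finset.sum_add_distrib, Finset.sum_add_distrib, ← Finset.mul_sum, ← Finset.mul_sum]
    ring
  have h1 := sD_lt q CT BT X Y hq
  have h2 := sE_lt q CT GT Y hq
  have h3 := sE_lt q CT GT X hq
  unfold dfull
  rw [strict_eq, hs]
  set A := sD q CT BT X Y with hA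
  set B := sE q CT GT Y with hB
  set C := sE q CT GT X with hC
  change (A + 2 ^ 24 * (B + 2 ^ 24 * C)) % 16777216 % l + (65536 *
    (dg 24 (A + 2 ^ 24 * (B + 2 ^ 24 * C)) 1 % l) + 4294967296 *
    (dg 24 (A + 2 ^ 24 * (B + 2 ^ 24 * C)) 2 % l)) = _
  have d0 : (A + 2 ^ 24 * (B + 2 ^ 24 * C)) % 16777216 = A := by
    have : (16777216 : ℕ) = 2 ^ 24 := by norm_num
    rw [this, Nat.add_mul_mod_self_left, Nat.mod_eq_of_lt h1]
  have d1 : dg 24 (A + 2 ^ 24 * (B + 2 ^ 24 * C)) 1 = B := by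
    rw [dg_eq, mul_one, Nat.add_mul_div_left _ _ (by positivity), Nat.div_eq_of_lt h1, zero_add,
      Nat.add_mul_mod_self_left, Nat.mod_eq_of_lt h2]
  have d2 : dg 24 (A + 2 ^ 24 * (B + 2 ^ 24 * C)) 2 = C := by
    rw [dg_eq]
    have : 2 ^ (24 * 2) = 2 ^ 24 * 2 ^ 24 := by norm_num
    rw [this, ← Nat.div_div_eq_div_mul, Nat.add_mul_div_left _ _ (by positivity),
      Nat.div_eq_of_lt h1, zero_add, Nat.add_mul_div_left _ _ (by positivity),
      Nat.div_eq_of_lt h2, zero_add, Nat.mod_eq_of_lt h3]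
  rw [d0, d1, d2]
  norm_num
  ring

section Cast

variable {q l : ℕ} [NeZero q] (chi : ZMod q → ZMod l) (CT BT GT : ℕ)
  (hC : ∀ z < q, (ch CT z : ZMod l) = chi (z : ZMod q) ^ 2)
  (hB : ∀ z < q, (ch BT z : ZMod l) = bI q l z)
  (hG : ∀ z < q, (ch GT z : ZMod l) = b2I q l z)

include hC hB in
lemma sD_cast (X Y : ℕ) : ((sD q CT BT X Y : ℕ) : ZMod l) = DZ chi (X : ZMod q) (Y : ZMod q) := by
  unfold sD DZ
  push_cast
  symm
  refine Finset.sum_nbij' (fun z => z.val) (fun r => (r : ZMod q)) ?_ ?_ ?_ ?_ ?_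
  · intro z _; exact mem_range.mpr (ZMod.val_lt z)
  · intro r _; exact mem_univ _
  · intro z _; exact ZMod.natCast_zmod_val z
  · intro r hr; exact ZMod.val_cast_of_lt (mem_range.mp hr)
  · intro z _
    have hq : 0 < q := Nat.pos_of_ne_zero (NeZero.ne q)
    unfold tD bz
    push_cast
    rw [hC _ (ZMod.val_lt z), hB _ (Nat.mod_lt _ hq), hB _ (Nat.mod_lt _ hq),
      ZMod.natCast_zmod_val]
    have e : ∀ X : ℕ, (z * (X : ZMod q)).val = z.val * X % q := by
      intro X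
      conv_lhs => rw [← ZMod.natCast_zmod_val z, ← Nat.cast_mul, ZMod.val_natCast]
    rw [e, e]

include hC hG in
lemma sE_cast (Y : ℕ) : ((sE q CT GT Y : ℕ) : ZMod l) = EZ chi (Y : ZMod q) := by
  unfold sE EZ
  push_cast
  symm
  refine Finset.sum_nbij' (fun z => z.val) (fun r => (r : ZMod q)) ?_ ?_ ?_ ?_ ?_
  · intro z _; exact mem_range.mpr (ZMod.val_lt z)
  · intro r _; exact mem_univ _
  · intro z _; exact ZMod.natCast_zmod_val z
  · intro r hr; exact ZMod.val_cast_of_lt (mem_range.mp hr)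
  · intro z _
    have hq : 0 < q := Nat.pos_of_ne_zero (NeZero.ne q)
    unfold tE gz
    push_cast
    rw [hC _ (ZMod.val_lt z), hG _ (Nat.mod_lt _ hq), ZMod.natCast_zmod_val]
    have e : ∀ X : ℕ, (z * (X : ZMod q)).val = z.val * X % q := by
      intro X
      conv_lhs => rw [← ZMod.natCast_zmod_val z, ← Nat.cast_mul, ZMod.val_natCast]
    rw [e]

end Cast

end Pool.Agent.LibH4.T6
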