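import Pool.Agent.Lib_helper4.T6Sound2

/-!
Soundness of the table computations: forms and rows.
-/

namespace Pool.Agent.LibH4.T6

open Finset Ker

/-! ### forms -/

section Forms

variable {n : ℕ} [NeZero n]

omit [NeZero n] in
lemma fB_cast (a t : ℕ) : ((fB n (a % n) (t % n) : ℕ) : ZMod n) =
    (((a ^ 2 + 1) * t + a : ℕ) : ZMod n) := by
  have : fB n (a % n) (t % n) = ((a % n * (a % n) + 1) * (t % n) + a % n) % n := rfl
  rw [this, ZMod.natCast_mod]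
  push_cast
  rw [ZMod.natCast_mod, ZMod.natCast_mod]
  ring

omit [NeZero n] in
lemma fm_cast (a t : ℕ) : ((fm n (a % n) (t % n) : ℕ) : ZMod n) = ((1 + a * t : ℕ) : ZMod n) := by
  have : fm n (a % n) (t % n) = (a % n * (t % n) + 1) % n := rfl
  rw [this, ZMod.natCast_mod]
  push_cast
  rw [ZMod.natCast_mod, ZMod.natCast_mod]
  ring

lemma fnm_cast (a t : ℕ) : ((fnm n (fm n (a % n) (t % n)) : ℕ) : ZMod n) =
    -((1 + a * t : ℕ) : ZMod n) := by
  have hn : 0 < n := Nat.pos_of_ne_zero (NeZero.ne n)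
  have h1 : fm n (a % n) (t % n) ≤ n := (Nat.mod_lt _ hn).le
  have : fnm n (fm n (a % n) (t % n)) = n - fm n (a % n) (t % n) := rfl
  rw [this, Nat.cast_sub h1, fm_cast]
  simp

lemma fk_cast (a t : ℕ) : ((fk n (a % n) (fm n (a % n) (t % n)) (fB n (a % n) (t % n)) : ℕ) : ZMod n) =
    2 * ((1 + a * t : ℕ) : ZMod n) * a - (((a ^ 2 + 1) * t + a : ℕ) : ZMod n) := by
  have hn : 1 ≤ n := Nat.pos_of_ne_zero (NeZero.ne n)
  have : fk n (a % n) (fm n (a % n) (t % n)) (fB n (a % n) (t % n)) =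
    (2 * fm n (a % n) (t % n) * (a % n) + (n - 1) * fB n (a % n) (t % n)) % n := rfl
  rw [this, ZMod.natCast_mod, Nat.cast_add, Nat.cast_mul, Nat.cast_mul, Nat.cast_mul,
    Nat.cast_sub hn, fm_cast, fB_cast, ZMod.natCast_mod]
  simp
  ring

/-- the value of the first form -/
lemma N1_val (a t x y : ℕ) : N1 n (fB n (a % n) (t % n)) (fnm n (fm n (a % n) (t % n))) x y =
    (F1 a t (x : ZMod n) (y : ZMod n)).val := by
  have h1 : N1 n (fB n (a % n) (t % n)) (fnm n (fm n (a % n) (t % n))) x y =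
    (x * (x + fB n (a % n) (t % n) * y) + fnm n (fm n (a % n) (t % n)) * (y * y)) % n := rfl
  rw [h1, ← ZMod.val_natCast]
  congr 1
  unfold F1
  push_cast [fB_cast, fnm_cast]
  ring

/-- the value of the second form -/
lemma N3_val (a t x y : ℕ) : N3 n (fm n (a % n) (t % n))
    (fk n (a % n) (fm n (a % n) (t % n)) (fB n (a % n) (t % n))) (fnm n (fm n (a % n) (t % n))) x y =
    (F3 a t (x : ZMod n) (y : ZMod n)).val := by
  have h1 : N3 n (fm n (a % n) (t % n))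
    (fk n (a % n) (fm n (a % n) (t % n)) (fB n (a % n) (t % n))) (fnm n (fm n (a % n) (t % n))) x y =
    (x * (fm n (a % n) (t % n) * x + fk n (a % n) (fm n (a % n) (t % n)) (fB n (a % n) (t % n)) * y)
      + fnm n (fm n (a % n) (t % n)) * (y * y)) % n := rfl
  rw [h1, ← ZMod.val_natCast]
  congr 1
  unfold F3
  push_cast [fk_cast, fnm_cast, fm_cast]
  ring

end Forms

section Char2

variable {n1 n2 l e1 e2 T1 T2 : ℕ} {L1 L2 : List (ℕ × ℕ)} [NeZero n1] [NeZero n2]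
    [NeZero (n1 * n2)]

omit [NeZero n1] [NeZero n2] in
lemma chiF_castHom (z : ZMod (n1 * n2)) : chiF n1 n2 l T1 T2 z =
    (ch T1 (ZMod.castHom (dvd_mul_right n1 n2) (ZMod n1) z).val : ZMod l) *
    (ch T2 (ZMod.castHom (dvd_mul_left n2 n1) (ZMod n2) z).val : ZMod l) := by
  rw [ZMod.castHom_apply, ZMod.castHom_apply, ZMod.cast_eq_val, ZMod.cast_eq_val,
    ZMod.val_natCast, ZMod.val_natCast]
  rfl

omit [NeZero n1] [NeZero n2] [NeZero (n1 * n2)] in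
lemma map_F1 {R : ℕ} (h : R ∣ n1 * n2) (a t : ℕ) (x y : ZMod (n1 * n2)) :
    ZMod.castHom h (ZMod R) (F1 a t x y) = F1 a t (ZMod.castHom h (ZMod R) x)
      (ZMod.castHom h (ZMod R) y) := by
  unfold F1
  simp only [map_add, map_mul, map_pow, map_neg, map_natCast, map_one]

omit [NeZero n1] [NeZero n2] [NeZero (n1 * n2)] in
lemma map_F3 {R : ℕ} (h : R ∣ n1 * n2) (a t : ℕ) (x y : ZMod (n1 * n2)) :
    ZMod.castHom h (ZMod R) (F3 a t x y) = F3 a t (ZMod.castHom h (ZMod R) x)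
      (ZMod.castHom h (ZMod R) y) := by
  unfold F3
  simp only [map_add, map_sub, map_mul, map_pow, map_neg, map_natCast, map_ofNat]

/-- values of the character on the first form -/
lemma chiF_F1 (H : Hyp n1 n2 l e1 e2 T1 T2 L1 L2) (a t : ℕ) (P Q : ℕ × ℕ) :
    chiF n1 n2 l T1 T2 (F1 a t ((P.1 * e1 + Q.1 * e2 : ℕ) : ZMod (n1 * n2))
      ((P.2 * e1 + Q.2 * e2 : ℕ) : ZMod (n1 * n2))) =
    (ch T1 (N1 n1 (fB n1 (a % n1) (t % n1)) (fnm n1 (fm n1 (a % n1) (t % n1))) P.1 P.2) : ZMod l) *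
    (ch T2 (N1 n2 (fB n2 (a % n2) (t % n2)) (fnm n2 (fm n2 (a % n2) (t % n2))) Q.1 Q.2) : ZMod l) := by
  rw [chiF_castHom, map_F1, map_F1, N1_val, N1_val]
  simp only [map_natCast]
  push_cast
  rw [H.h11, H.h12, H.h21, H.h22]
  simp

/-- values of the character on the second form -/
lemma chiF_F3 (H : Hyp n1 n2 l e1 e2 T1 T2 L1 L2) (a t : ℕ) (P Q : ℕ × ℕ) :
    chiF n1 n2 l T1 T2 (F3 a t ((P.1 * e1 + Q.1 * e2 : ℕ) : ZMod (n1 * n2))
      ((P.2 * e1 + Q.2 * e2 : ℕ) : ZMod (n1 * n2))) =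
    (ch T1 (N3 n1 (fm n1 (a % n1) (t % n1))
      (fk n1 (a % n1) (fm n1 (a % n1) (t % n1)) (fB n1 (a % n1) (t % n1)))
      (fnm n1 (fm n1 (a % n1) (t % n1))) P.1 P.2) : ZMod l) *
    (ch T2 (N3 n2 (fm n2 (a % n2) (t % n2))
      (fk n2 (a % n2) (fm n2 (a % n2) (t % n2)) (fB n2 (a % n2) (t % n2)))
      (fnm n2 (fm n2 (a % n2) (t % n2))) Q.1 Q.2) : ZMod l) := by
  rw [chiF_castHom, map_F3, map_F3, N3_val, N3_val]
  simp only [map_natCast]
  push_cast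
  rw [H.h11, H.h12, H.h21, H.h22]
  simp

/-- first form value of a class -/
def v1 (n T a t : ℕ) (P : ℕ × ℕ) : ℕ :=
  ch T (N1 n (fB n (a % n) (t % n)) (fnm n (fm n (a % n) (t % n))) P.1 P.2)
/-- second form value of a class -/
def v3 (n T a t : ℕ) (P : ℕ × ℕ) : ℕ :=
  ch T (N3 n (fm n (a % n) (t % n))
      (fk n (a % n) (fm n (a % n) (t % n)) (fB n (a % n) (t % n)))
      (fnm n (fm n (a % n) (t % n))) P.1 P.2)

/-- the relation as a double sum over lists -/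
lemma zrel2 (H : Hyp n1 n2 l e1 e2 T1 T2 L1 L2) (a t : ℕ)
    (h : T5Eq a t (n1 * n2) l (chiF n1 n2 l T1 T2)) :
    (L1.map fun P => (L2.map fun Q =>
      ((v1 n1 T1 a t P : ZMod l) * (v1 n2 T2 a t Q : ZMod l)) *
      (6 * DZ (chiF n1 n2 l T1 T2) ((P.1 * e1 + Q.1 * e2 : ℕ) : ZMod (n1 * n2))
          ((P.2 * e1 + Q.2 * e2 : ℕ) : ZMod (n1 * n2)) +
        (((a ^ 2 + 1) * t + a : ℕ) : ZMod l) *
        EZ (chiF n1 n2 l T1 T2) ((P.2 * e1 + Q.2 * e2 : ℕ) : ZMod (n1 * n2)) -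
        2 * (a : ZMod l) * EZ (chiF n1 n2 l T1 T2) ((P.1 * e1 + Q.1 * e2 : ℕ) : ZMod (n1 * n2))) +
      ((v3 n1 T1 a t P : ZMod l) * (v3 n2 T2 a t Q : ZMod l)) *
      (3 * DZ (chiF n1 n2 l T1 T2) ((P.1 * e1 + Q.1 * e2 : ℕ) : ZMod (n1 * n2))
          ((P.2 * e1 + Q.2 * e2 : ℕ) : ZMod (n1 * n2)))).sum).sum = 0 := by
  have hL := isP1_mul H.co H.h11 H.h12 H.h21 H.h22 H.p1 H.p2
  have h0 := zrel hL _ (chiF_mul H) (chiF_nu H) a t h
  unfold crtList at h0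
  rw [list_sum_flatMap] at h0
  rw [← h0]
  congr 1
  apply List.map_congr_left
  intro P _
  rw [List.map_map]
  congr 1
  apply List.map_congr_left
  intro Q _
  simp only [Function.comp]
  rw [chiF_F1 H, chiF_F3 H]
  rfl

end Char2

end Pool.Agent.LibH4.T6
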