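import Pool.Agent.Lib_helper4.T6Sound3

/-!
Soundness of the table computations: the final statement.
-/

namespace Pool.Agent.LibH4.T6

open Finset Ker

/-- relation check -/
def chk (l e a t : ℕ) : Bool := strict e fun e => strict (fB l a t) fun B =>
  Nat.beq (Nat.mod (Nat.add (dg (nat_lit 16) e (nat_lit 0)) (Nat.add (Nat.mul B (dg (nat_lit 16) e (nat_lit 1)))
    (Nat.mul (Nat.mul (Nat.mul (nat_lit 2) (Nat.sub l (nat_lit 1))) a) (dg (nat_lit 16) e (nat_lit 2))))) l) (nat_lit 0)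

lemma list_sum_lt {α : Type} (L : List α) (f : α → ℕ) (c b : ℕ) (h : ∀ x ∈ L, f x ≤ c)
    (hb : L.length * c < b) : (L.map f).sum < b := by
  have : (L.map f).sum ≤ (L.map f).length • c := by
    apply List.sum_le_card_nsmul
    intro y hy
    obtain ⟨x, hx, rfl⟩ := List.mem_map.mp hy
    exact h x hx
  rw [List.length_map, smul_eq_mul] at this
  omega

/-- digits of a triple -/
lemma dg_triple {x y z : ℕ} (hx : x < 2 ^ 16) (hy : y < 2 ^ 16) (hz : z < 2 ^ 16) :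
    dg 16 (x + 2 ^ 16 * y + 2 ^ 32 * z) 0 = x ∧ dg 16 (x + 2 ^ 16 * y + 2 ^ 32 * z) 1 = y ∧
    dg 16 (x + 2 ^ 16 * y + 2 ^ 32 * z) 2 = z := by
  simp only [dg_eq]
  norm_num
  norm_num at hx hy hz
  omega

lemma triple_lt {x y z : ℕ} (hx : x < 2 ^ 16) (hy : y < 2 ^ 16) (hz : z < 2 ^ 16) :
    x + 2 ^ 16 * y + 2 ^ 32 * z < 2 ^ 48 := by
  norm_num at hx hy hz ⊢
  omega

/-- low digits are not changed by higher blocks -/
lemma dg_low (f R i : ℕ) (hi : i < 3) (_hf : f < 2 ^ 48) : dg 16 (f + 2 ^ 48 * R) i = dg 16 f i := by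
  simp only [dg_eq]
  interval_cases i
  · norm_num
    omega
  · norm_num
    omega
  · norm_num
    omega

/-- the combination coefficients -/
def coA (l u : ℕ) : ℕ := 6 * (dg 16 u 0 % l) + (2 ^ 16 * (dg 16 u 1 % l) + 2 ^ 32 * (dg 16 u 2 % l))
/-- the combination coefficients -/
def coC (l u : ℕ) : ℕ := 3 * (dg 16 u 0 % l)

lemma rowS_eq (l : ℕ) (Y1 Y3 : ℕ × ℕ → ℕ) (f1 f3 : ℕ × ℕ → ℕ) (L : List (ℕ × ℕ))
    (h1 : ∀ Q ∈ L, f1 Q < 2 ^ 48) (h3 : ∀ Q ∈ L, f3 Q < 2 ^ 48) :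
    rowS l (L.map fun Q => ((Q, Y1 Q), Y3 Q)) (packL (2 ^ 48) f1 L) (packL (2 ^ 48) f3 L) =
      (L.map fun Q => coA l (f1 Q) * Y1 Q + coC l (f3 Q) * Y3 Q).sum := by
  induction L with
  | nil => rfl
  | cons Q Qs ih =>
    rw [List.map_cons, List.map_cons, List.sum_cons, packL_cons, packL_cons,
      ← ih (fun y hy => h1 y (by simp [hy])) (fun y hy => h3 y (by simp [hy]))]
    have g1 := h1 Q (by simp)
    have g3 := h3 Q (by simp)
    set R1 := packL (2 ^ 48) f1 Qs with hR1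
    set R3 := packL (2 ^ 48) f3 Qs with hR3
    have key : rowS l (((Q, Y1 Q), Y3 Q) :: Qs.map fun Q => ((Q, Y1 Q), Y3 Q))
        (f1 Q + 2 ^ 48 * R1) (f3 Q + 2 ^ 48 * R3) =
        strict ((f1 Q + 2 ^ 48 * R1) / 281474976710656) (fun V1 =>
        strict ((f3 Q + 2 ^ 48 * R3) / 281474976710656) (fun V3 =>
        ((6 * (dg 16 (f1 Q + 2 ^ 48 * R1) 0 % l) + (65536 * (dg 16 (f1 Q + 2 ^ 48 * R1) 1 % l) +
          4294967296 * (dg 16 (f1 Q + 2 ^ 48 * R1) 2 % l))) * Y1 Q +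
          3 * (dg 16 (f3 Q + 2 ^ 48 * R3) 0 % l) * Y3 Q) +
          rowS l (Qs.map fun Q => ((Q, Y1 Q), Y3 Q)) V1 V3)) := rfl
    rw [key, strict_eq, strict_eq, dg_low _ _ _ (by norm_num) g1, dg_low _ _ _ (by norm_num) g1,
      dg_low _ _ _ (by norm_num) g1, dg_low _ _ _ (by norm_num) g3]
    have d1 : (f1 Q + 2 ^ 48 * R1) / 281474976710656 = R1 := by
      norm_num at g1 ⊢
      omega
    have d3 : (f3 Q + 2 ^ 48 * R3) / 281474976710656 = R3 := by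
      norm_num at g3 ⊢
      omega
    rw [d1, d3]
    unfold coA coC
    norm_num

section Main

variable {n1 n2 l e1 e2 T1 T2 : ℕ} {L1 L2 : List (ℕ × ℕ)} [NeZero n1] [NeZero n2]
    [NeZero (n1 * n2)]

/-- table of squares of the character -/
def CTf (n1 n2 l T1 T2 : ℕ) : ℕ := packR 4 (fun x => (ch T1 (x % n1) * ch T2 (x % n2)) *
  (ch T1 (x % n1) * ch T2 (x % n2)) % l) (n1 * n2)
/-- table of linear weights -/
def BTf (q l : ℕ) : ℕ := packR 4 (bet q l) q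
/-- table of quadratic weights -/
def GTf (q l : ℕ) : ℕ := packR 4 (gam q l) q

/-- the weights -/
def gW (n1 n2 l e1 e2 T1 T2 : ℕ) (P Q : ℕ × ℕ) : ℕ :=
  dfull (n1 * n2) l (CTf n1 n2 l T1 T2) (BTf (n1 * n2) l) (GTf (n1 * n2) l)
    ((P.1 * e1 + Q.1 * e2) % (n1 * n2)) ((P.2 * e1 + Q.2 * e2) % (n1 * n2))

/-- the weight components -/
def wD (n1 n2 l e1 e2 T1 T2 : ℕ) (P Q : ℕ × ℕ) : ℕ :=
  sD (n1 * n2) (CTf n1 n2 l T1 T2) (BTf (n1 * n2) l)
    ((P.1 * e1 + Q.1 * e2) % (n1 * n2)) ((P.2 * e1 + Q.2 * e2) % (n1 * n2)) % l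
/-- the weight components -/
def wE1 (n1 n2 l e1 e2 T1 T2 : ℕ) (P Q : ℕ × ℕ) : ℕ :=
  sE (n1 * n2) (CTf n1 n2 l T1 T2) (GTf (n1 * n2) l) ((P.2 * e1 + Q.2 * e2) % (n1 * n2)) % l
/-- the weight components -/
def wE2 (n1 n2 l e1 e2 T1 T2 : ℕ) (P Q : ℕ × ℕ) : ℕ :=
  sE (n1 * n2) (CTf n1 n2 l T1 T2) (GTf (n1 * n2) l) ((P.1 * e1 + Q.1 * e2) % (n1 * n2)) % l

omit [NeZero n1] [NeZero n2] [NeZero (n1 * n2)] in
lemma check_unfold (J : ℕ) (D1 D2 : List (ℕ × ℕ)) (TB : ℕ) :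
    check n1 n2 (n1 * n2) l e1 e2 T1 T2 J L1 L2 D1 D2 TB =
      allI (fun i c => Nat.beq (dg (48 * J) TB i) (row n1 l T1
        (L1.map fun P => (P, packL (2 ^ 48) (gW n1 n2 l e1 e2 T1 T2 P) L2))
        (L2.map fun Q => ((Q, ycol1 n2 T2 D2 Q), ycol3 n2 T2 D2 Q)) c)) D1 0 := by
  unfold check
  rw [strict_eq, strict_eq, strict_eq, mapK_eq, mapK_eq, mapK_eq]
  have hC : packR 4 (fun x => strict (Nat.mul (ch T1 (Nat.mod x n1)) (ch T2 (Nat.mod x n2)))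
      fun y => Nat.mod (Nat.mul y y) l) (n1 * n2) = CTf n1 n2 l T1 T2 := by
    unfold CTf
    congr 1
    funext x
    rw [strict_eq]
    rfl
  have hD : ∀ P, drow (n1 * n2) l e1 e2 (CTf n1 n2 l T1 T2) (BTf (n1 * n2) l) (GTf (n1 * n2) l)
      L2 P = packL (2 ^ 48) (gW n1 n2 l e1 e2 T1 T2 P) L2 := by
    intro P
    unfold drow
    have : (281474976710656 : ℕ) = 2 ^ 48 := by norm_num
    rw [← this]
    apply packL_congr
    intro Q _
    rw [strict_eq, strict_eq]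
    rfl
  rw [hC]
  have hM : (L1.map fun x => (x, drow (n1 * n2) l e1 e2 (CTf n1 n2 l T1 T2)
      (packR 4 (bet (n1 * n2) l) (n1 * n2)) (packR 4 (gam (n1 * n2) l) (n1 * n2)) L2 x)) =
      (L1.map fun P => (P, packL (2 ^ 48) (gW n1 n2 l e1 e2 T1 T2 P) L2)) := by
    apply List.map_congr_left
    intro P _
    rw [← hD]
    rfl
  rw [hM, List.map_map]
  rfl

omit [NeZero n1] [NeZero n2] [NeZero (n1 * n2)] in
/-- the row as a packed list -/
lemma row_eq (H3 : 3 ≤ l) (H16 : l ≤ 16) (Hq : n1 * n2 ≤ 1000) (Hl1 : L1.length ≤ 100)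
    (D2 : List (ℕ × ℕ)) (a t : ℕ) :
    row n1 l T1 (L1.map fun P => (P, packL (2 ^ 48) (gW n1 n2 l e1 e2 T1 T2 P) L2))
        (L2.map fun Q => ((Q, ycol1 n2 T2 D2 Q), ycol3 n2 T2 D2 Q)) (a % n1, t % n1) =
      packL (2 ^ 48) (fun c => (L2.map fun Q =>
        (coA l ((L1.map fun P => v1 n1 T1 a t P * gW n1 n2 l e1 e2 T1 T2 P Q).sum)) *
          ch T2 (N1 n2 (fB n2 c.1 c.2) (fnm n2 (fm n2 c.1 c.2)) Q.1 Q.2) +
        (coC l ((L1.map fun P => v3 n1 T1 a t P * gW n1 n2 l e1 e2 T1 T2 P Q).sum)) *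
          ch T2 (N3 n2 (fm n2 c.1 c.2) (fk n2 c.1 (fm n2 c.1 c.2) (fB n2 c.1 c.2))
            (fnm n2 (fm n2 c.1 c.2)) Q.1 Q.2)).sum) D2 := by
  have hgW : ∀ P Q, gW n1 n2 l e1 e2 T1 T2 P Q = wD n1 n2 l e1 e2 T1 T2 P Q +
      2 ^ 16 * wE1 n1 n2 l e1 e2 T1 T2 P Q + 2 ^ 32 * wE2 n1 n2 l e1 e2 T1 T2 P Q := by
    intro P Q
    exact dfull_eq _ _ _ _ _ _ _ Hq
  have hlt : ∀ (v : ℕ × ℕ → ℕ) (hv : ∀ P, v P < 16) (Q : ℕ × ℕ),
      (L1.map fun P => v P * gW n1 n2 l e1 e2 T1 T2 P Q).sum < 2 ^ 48 := by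
    intro v hv Q
    apply list_sum_lt L1 _ (15 * (15 + 2 ^ 16 * 15 + 2 ^ 32 * 15))
    · intro P _
      have h1 : v P ≤ 15 := by have := hv P; omega
      have hl : 0 < l := by omega
      have h2 : wD n1 n2 l e1 e2 T1 T2 P Q ≤ 15 := by
        have := Nat.mod_lt (sD (n1 * n2) (CTf n1 n2 l T1 T2) (BTf (n1 * n2) l)
          ((P.1 * e1 + Q.1 * e2) % (n1 * n2)) ((P.2 * e1 + Q.2 * e2) % (n1 * n2))) hl
        unfold wD; omega
      have h3 : wE1 n1 n2 l e1 e2 T1 T2 P Q ≤ 15 := by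
        have := Nat.mod_lt (sE (n1 * n2) (CTf n1 n2 l T1 T2) (GTf (n1 * n2) l)
          ((P.2 * e1 + Q.2 * e2) % (n1 * n2))) hl
        unfold wE1; omega
      have h4 : wE2 n1 n2 l e1 e2 T1 T2 P Q ≤ 15 := by
        have := Nat.mod_lt (sE (n1 * n2) (CTf n1 n2 l T1 T2) (GTf (n1 * n2) l)
          ((P.1 * e1 + Q.1 * e2) % (n1 * n2))) hl
        unfold wE2; omega
      rw [hgW]
      apply Nat.mul_le_mul h1
      have h5 : 2 ^ 16 * wE1 n1 n2 l e1 e2 T1 T2 P Q ≤ 2 ^ 16 * 15 := Nat.mul_le_mul_left _ h3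
      have h6 : 2 ^ 32 * wE2 n1 n2 l e1 e2 T1 T2 P Q ≤ 2 ^ 32 * 15 := Nat.mul_le_mul_left _ h4
      omega
    · have : L1.length * (15 * (15 + 2 ^ 16 * 15 + 2 ^ 32 * 15)) ≤
          100 * (15 * (15 + 2 ^ 16 * 15 + 2 ^ 32 * 15)) := Nat.mul_le_mul_right _ Hl1
      norm_num at this ⊢
      omega
  have hv1 : ∀ P, v1 n1 T1 a t P < 16 := fun P => ch_lt _ _
  have hv3 : ∀ P, v3 n1 T1 a t P < 16 := fun P => ch_lt _ _
  have hU1 : sumL (fun x : (ℕ × ℕ) × ℕ => Nat.mul (ch T1 (N1 n1 (fB n1 (a % n1) (t % n1))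
      (fnm n1 (fm n1 (a % n1) (t % n1))) x.1.1 x.1.2)) x.2)
      (L1.map fun P => (P, packL (2 ^ 48) (gW n1 n2 l e1 e2 T1 T2 P) L2)) =
      packL (2 ^ 48) (fun Q => (L1.map fun P => v1 n1 T1 a t P *
        gW n1 n2 l e1 e2 T1 T2 P Q).sum) L2 := by
    rw [sumL_eq, List.map_map, ← packL_sum]
    rfl
  have hU3 : sumL (fun x : (ℕ × ℕ) × ℕ => Nat.mul (ch T1 (N3 n1 (fm n1 (a % n1) (t % n1))
      (fk n1 (a % n1) (fm n1 (a % n1) (t % n1)) (fB n1 (a % n1) (t % n1)))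
      (fnm n1 (fm n1 (a % n1) (t % n1))) x.1.1 x.1.2)) x.2)
      (L1.map fun P => (P, packL (2 ^ 48) (gW n1 n2 l e1 e2 T1 T2 P) L2)) =
      packL (2 ^ 48) (fun Q => (L1.map fun P => v3 n1 T1 a t P *
        gW n1 n2 l e1 e2 T1 T2 P Q).sum) L2 := by
    rw [sumL_eq, List.map_map, ← packL_sum]
    rfl
  unfold row withC
  simp only [strict_eq]
  rw [hU1, hU3, rowS_eq _ _ _ _ _ _ (fun Q _ => hlt _ hv1 Q) (fun Q _ => hlt _ hv3 Q)]
  have hy1 : ∀ Q, ycol1 n2 T2 D2 Q = packL (2 ^ 48) (fun c => ch T2 (N1 n2 (fB n2 c.1 c.2)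
      (fnm n2 (fm n2 c.1 c.2)) Q.1 Q.2)) D2 := by
    intro Q
    unfold ycol1
    have : (281474976710656 : ℕ) = 2 ^ 48 := by norm_num
    rw [← this]
    apply packL_congr
    intro c _
    unfold withC
    simp only [strict_eq]
  have hy3 : ∀ Q, ycol3 n2 T2 D2 Q = packL (2 ^ 48) (fun c => ch T2 (N3 n2 (fm n2 c.1 c.2)
      (fk n2 c.1 (fm n2 c.1 c.2) (fB n2 c.1 c.2)) (fnm n2 (fm n2 c.1 c.2)) Q.1 Q.2)) D2 := by
    intro Q
    unfold ycol3
    have : (281474976710656 : ℕ) = 2 ^ 48 := by norm_num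
    rw [← this]
    apply packL_congr
    intro c _
    unfold withC
    simp only [strict_eq]
  simp only [hy1, hy3]
  rw [List.sum_map_add, packL_sum, packL_sum, ← packL_add]
  apply packL_congr
  intro c _
  rw [← List.sum_map_add]

omit [NeZero n1] [NeZero n2] [NeZero (n1 * n2)] in
lemma list_sum_comm {α β K : Type} [AddCommMonoid K] (L : List α) (M : List β) (f : α → β → K) :
    (L.map fun P => (M.map fun Q => f P Q).sum).sum =
      (M.map fun Q => (L.map fun P => f P Q).sum).sum := by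
  induction L with
  | nil => simp
  | cons P Ps ih =>
    simp only [List.map_cons, List.sum_cons]
    rw [ih, ← List.sum_map_add]

lemma CTf_spec (H : Hyp n1 n2 l e1 e2 T1 T2 L1 L2) (z : ℕ) (hz : z < n1 * n2) :
    (ch (CTf n1 n2 l T1 T2) z : ZMod l) = chiF n1 n2 l T1 T2 (z : ZMod (n1 * n2)) ^ 2 := by
  have h3 := H.l3
  have h16 := H.l16
  unfold CTf
  rw [ch_packR (f := fun x => (ch T1 (x % n1) * ch T2 (x % n2)) *
  (ch T1 (x % n1) * ch T2 (x % n2)) % l) (fun m => (Nat.mod_lt _ (by omega)).trans_le h16) hz,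
    ZMod.natCast_mod, chiF_natCast]
  push_cast
  ring

lemma BTf_spec (H : Hyp n1 n2 l e1 e2 T1 T2 L1 L2) (z : ℕ) (hz : z < n1 * n2) :
    (ch (BTf (n1 * n2) l) z : ZMod l) = bI (n1 * n2) l z := by
  have h3 := H.l3
  have h16 := H.l16
  unfold BTf
  rw [ch_packR (fun m => bet_lt _ _ _ (by omega) h16) hz, bet_cast _ _ _ (by omega)]

lemma GTf_spec (H : Hyp n1 n2 l e1 e2 T1 T2 L1 L2) (z : ℕ) (hz : z < n1 * n2) :
    (ch (GTf (n1 * n2) l) z : ZMod l) = b2I (n1 * n2) l z := by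
  have h3 := H.l3
  have h16 := H.l16
  unfold GTf
  rw [ch_packR (fun m => gam_lt _ _ _ (by omega) h16) hz, gam_cast _ _ _ (by omega)]

lemma natCast_mod_self (q X : ℕ) : ((X % q : ℕ) : ZMod q) = (X : ZMod q) := ZMod.natCast_mod X q

lemma wD_cast (H : Hyp n1 n2 l e1 e2 T1 T2 L1 L2) (P Q : ℕ × ℕ) :
    (wD n1 n2 l e1 e2 T1 T2 P Q : ZMod l) = DZ (chiF n1 n2 l T1 T2)
      ((P.1 * e1 + Q.1 * e2 : ℕ) : ZMod (n1 * n2)) ((P.2 * e1 + Q.2 * e2 : ℕ) : ZMod (n1 * n2)) := by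
  unfold wD
  rw [ZMod.natCast_mod, sD_cast (chiF n1 n2 l T1 T2) _ _ (CTf_spec H) (BTf_spec H),
    natCast_mod_self, natCast_mod_self]

lemma wE1_cast (H : Hyp n1 n2 l e1 e2 T1 T2 L1 L2) (P Q : ℕ × ℕ) :
    (wE1 n1 n2 l e1 e2 T1 T2 P Q : ZMod l) = EZ (chiF n1 n2 l T1 T2)
      ((P.2 * e1 + Q.2 * e2 : ℕ) : ZMod (n1 * n2)) := by
  unfold wE1
  rw [ZMod.natCast_mod, sE_cast (chiF n1 n2 l T1 T2) _ _ (CTf_spec H) (GTf_spec H),
    natCast_mod_self]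

lemma wE2_cast (H : Hyp n1 n2 l e1 e2 T1 T2 L1 L2) (P Q : ℕ × ℕ) :
    (wE2 n1 n2 l e1 e2 T1 T2 P Q : ZMod l) = EZ (chiF n1 n2 l T1 T2)
      ((P.1 * e1 + Q.1 * e2 : ℕ) : ZMod (n1 * n2)) := by
  unfold wE2
  rw [ZMod.natCast_mod, sE_cast (chiF n1 n2 l T1 T2) _ _ (CTf_spec H) (GTf_spec H),
    natCast_mod_self]

omit [NeZero n1] [NeZero n2] [NeZero (n1 * n2)] in
lemma wD_lt (H3 : 3 ≤ l) (H16 : l ≤ 16) (P Q : ℕ × ℕ) : wD n1 n2 l e1 e2 T1 T2 P Q ≤ 15 := by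
  have := Nat.mod_lt (sD (n1 * n2) (CTf n1 n2 l T1 T2) (BTf (n1 * n2) l)
    ((P.1 * e1 + Q.1 * e2) % (n1 * n2)) ((P.2 * e1 + Q.2 * e2) % (n1 * n2))) (show 0 < l by omega)
  unfold wD; omega

omit [NeZero n1] [NeZero n2] [NeZero (n1 * n2)] in
lemma wE1_lt (H3 : 3 ≤ l) (H16 : l ≤ 16) (P Q : ℕ × ℕ) : wE1 n1 n2 l e1 e2 T1 T2 P Q ≤ 15 := by
  have := Nat.mod_lt (sE (n1 * n2) (CTf n1 n2 l T1 T2) (GTf (n1 * n2) l)
    ((P.2 * e1 + Q.2 * e2) % (n1 * n2))) (show 0 < l by omega)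
  unfold wE1; omega

omit [NeZero n1] [NeZero n2] [NeZero (n1 * n2)] in
lemma wE2_lt (H3 : 3 ≤ l) (H16 : l ≤ 16) (P Q : ℕ × ℕ) : wE2 n1 n2 l e1 e2 T1 T2 P Q ≤ 15 := by
  have := Nat.mod_lt (sE (n1 * n2) (CTf n1 n2 l T1 T2) (GTf (n1 * n2) l)
    ((P.1 * e1 + Q.1 * e2) % (n1 * n2))) (show 0 < l by omega)
  unfold wE2; omega

omit [NeZero n1] [NeZero n2] [NeZero (n1 * n2)] in
/-- digits of the inner sums -/
lemma inner_digits (H3 : 3 ≤ l) (H16 : l ≤ 16) (Hq : n1 * n2 ≤ 1000) (Hl1 : L1.length ≤ 100)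
    (v : ℕ × ℕ → ℕ) (hv : ∀ P, v P < 16) (Q : ℕ × ℕ) :
    dg 16 (L1.map fun P => v P * gW n1 n2 l e1 e2 T1 T2 P Q).sum 0 =
      (L1.map fun P => v P * wD n1 n2 l e1 e2 T1 T2 P Q).sum ∧
    dg 16 (L1.map fun P => v P * gW n1 n2 l e1 e2 T1 T2 P Q).sum 1 =
      (L1.map fun P => v P * wE1 n1 n2 l e1 e2 T1 T2 P Q).sum ∧
    dg 16 (L1.map fun P => v P * gW n1 n2 l e1 e2 T1 T2 P Q).sum 2 =
      (L1.map fun P => v P * wE2 n1 n2 l e1 e2 T1 T2 P Q).sum := by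
  have e : (L1.map fun P => v P * gW n1 n2 l e1 e2 T1 T2 P Q).sum =
      (L1.map fun P => v P * wD n1 n2 l e1 e2 T1 T2 P Q).sum +
      2 ^ 16 * (L1.map fun P => v P * wE1 n1 n2 l e1 e2 T1 T2 P Q).sum +
      2 ^ 32 * (L1.map fun P => v P * wE2 n1 n2 l e1 e2 T1 T2 P Q).sum := by
    rw [← List.sum_map_mul_left, ← List.sum_map_mul_left, ← List.sum_map_add, ← List.sum_map_add]
    congr 1
    apply List.map_congr_left
    intro P _
    have : gW n1 n2 l e1 e2 T1 T2 P Q = wD n1 n2 l e1 e2 T1 T2 P Q +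
      2 ^ 16 * wE1 n1 n2 l e1 e2 T1 T2 P Q + 2 ^ 32 * wE2 n1 n2 l e1 e2 T1 T2 P Q :=
      dfull_eq _ _ _ _ _ _ _ Hq
    rw [this]; ring
  have hb : ∀ w : ℕ × ℕ → ℕ, (∀ P, w P ≤ 15) → (L1.map fun P => v P * w P).sum < 2 ^ 16 := by
    intro w hw
    apply list_sum_lt L1 _ (15 * 15)
    · intro P _
      exact Nat.mul_le_mul (by have := hv P; omega) (hw P)
    · norm_num; omega
  rw [e]
  exact dg_triple (hb _ (fun P => wD_lt H3 H16 P Q)) (hb _ (fun P => wE1_lt H3 H16 P Q))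
    (hb _ (fun P => wE2_lt H3 H16 P Q))

/-- **soundness** of the table check -/
theorem check_sound (H : Hyp n1 n2 l e1 e2 T1 T2 L1 L2) (J : ℕ) (D1 D2 : List (ℕ × ℕ)) (TB : ℕ)
    (hc : check n1 n2 (n1 * n2) l e1 e2 T1 T2 J L1 L2 D1 D2 TB = true) (a t : ℕ)
    (h : T5Eq a t (n1 * n2) l (chiF n1 n2 l T1 T2)) (i j : ℕ) (hi : i < D1.length)
    (hj : j < D2.length) (h1 : D1[i] = (a % n1, t % n1)) (h2 : D2[j] = (a % n2, t % n2)) :
    chk l (dg 48 (dg (48 * J) TB i) j) (a % l) (t % l) = true := by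
  have H3 := H.l3
  have H16 := H.l16
  rw [check_unfold] at hc
  have hrow := allI_spec hc i hi
  rw [zero_add, h1] at hrow
  have hrow' := Nat.eq_of_beq_eq_true hrow
  rw [hrow', row_eq H.l3 H.l16 H.qle H.len1]
  set Z : ℕ × ℕ → ℕ := fun c => (L2.map fun Q =>
        (coA l ((L1.map fun P => v1 n1 T1 a t P * gW n1 n2 l e1 e2 T1 T2 P Q).sum)) *
          ch T2 (N1 n2 (fB n2 c.1 c.2) (fnm n2 (fm n2 c.1 c.2)) Q.1 Q.2) +
        (coC l ((L1.map fun P => v3 n1 T1 a t P * gW n1 n2 l e1 e2 T1 T2 P Q).sum)) *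
          ch T2 (N3 n2 (fm n2 c.1 c.2) (fk n2 c.1 (fm n2 c.1 c.2) (fB n2 c.1 c.2))
            (fnm n2 (fm n2 c.1 c.2)) Q.1 Q.2)).sum with hZ
  have hlpos : 0 < l := by omega
  have hZlt : ∀ c ∈ D2, Z c < 2 ^ 48 := by
    intro c _
    apply list_sum_lt L2 _ ((6 * 15 + (2 ^ 16 * 15 + 2 ^ 32 * 15)) * 15 + (3 * 15) * 15)
    · intro Q _
      apply Nat.add_le_add
      · apply Nat.mul_le_mul
        · unfold coA
          have m1 := Nat.mod_lt (dg 16 (L1.map fun P => v1 n1 T1 a t P *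
            gW n1 n2 l e1 e2 T1 T2 P Q).sum 0) hlpos
          have m2 := Nat.mod_lt (dg 16 (L1.map fun P => v1 n1 T1 a t P *
            gW n1 n2 l e1 e2 T1 T2 P Q).sum 1) hlpos
          have m3 := Nat.mod_lt (dg 16 (L1.map fun P => v1 n1 T1 a t P *
            gW n1 n2 l e1 e2 T1 T2 P Q).sum 2) hlpos
          norm_num
          omega
        · have := ch_lt T2 (N1 n2 (fB n2 c.1 c.2) (fnm n2 (fm n2 c.1 c.2)) Q.1 Q.2)
          omega
      · apply Nat.mul_le_mul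
        · unfold coC
          have m1 := Nat.mod_lt (dg 16 (L1.map fun P => v3 n1 T1 a t P *
            gW n1 n2 l e1 e2 T1 T2 P Q).sum 0) hlpos
          omega
        · have := ch_lt T2 (N3 n2 (fm n2 c.1 c.2) (fk n2 c.1 (fm n2 c.1 c.2) (fB n2 c.1 c.2))
            (fnm n2 (fm n2 c.1 c.2)) Q.1 Q.2)
          omega
    · have : L2.length ≤ 32 := H.len2
      norm_num
      omega
  have hdig : dg 48 (packL (2 ^ 48) Z D2) j = Z D2[j] := by
    rw [dg_eq, pow_mul]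
    exact packL_digit hZlt j hj
  rw [hdig, h2]
  -- the components of the entry
  set A := fun Q => (L1.map fun P => v1 n1 T1 a t P * wD n1 n2 l e1 e2 T1 T2 P Q).sum with hA
  set A3 := fun Q => (L1.map fun P => v3 n1 T1 a t P * wD n1 n2 l e1 e2 T1 T2 P Q).sum with hA3
  set B1 := fun Q => (L1.map fun P => v1 n1 T1 a t P * wE1 n1 n2 l e1 e2 T1 T2 P Q).sum with hB1
  set B2 := fun Q => (L1.map fun P => v1 n1 T1 a t P * wE2 n1 n2 l e1 e2 T1 T2 P Q).sum with hB2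
  set z0 := (L2.map fun Q => 6 * (A Q % l) * v1 n2 T2 a t Q + 3 * (A3 Q % l) * v3 n2 T2 a t Q).sum
    with hz0
  set z1 := (L2.map fun Q => (B1 Q % l) * v1 n2 T2 a t Q).sum with hz1
  set z2 := (L2.map fun Q => (B2 Q % l) * v1 n2 T2 a t Q).sum with hz2
  have hv1 : ∀ P, v1 n1 T1 a t P < 16 := fun P => ch_lt _ _
  have hv3 : ∀ P, v3 n1 T1 a t P < 16 := fun P => ch_lt _ _
  have hv1' : ∀ P, v1 n2 T2 a t P < 16 := fun P => ch_lt _ _
  have hv3' : ∀ P, v3 n2 T2 a t P < 16 := fun P => ch_lt _ _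
  have hZe : Z (a % n2, t % n2) = z0 + 2 ^ 16 * z1 + 2 ^ 32 * z2 := by
    rw [hZ, hz0, hz1, hz2, ← List.sum_map_mul_left, ← List.sum_map_mul_left, ← List.sum_map_add,
      ← List.sum_map_add]
    beta_reduce
    congr 1
    apply List.map_congr_left
    intro Q _
    obtain ⟨d0, d1, d2⟩ := inner_digits (e1 := e1) (e2 := e2) (T1 := T1) (T2 := T2)
      H.l3 H.l16 H.qle H.len1 (v1 n1 T1 a t) hv1 Q
    obtain ⟨d0', _, _⟩ := inner_digits (e1 := e1) (e2 := e2) (T1 := T1) (T2 := T2)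
      H.l3 H.l16 H.qle H.len1 (v3 n1 T1 a t) hv3 Q
    unfold coA coC
    rw [d0, d1, d2, d0']
    have g1 : ch T2 (N1 n2 (fB n2 (a % n2) (t % n2)) (fnm n2 (fm n2 (a % n2) (t % n2))) Q.1 Q.2) =
      v1 n2 T2 a t Q := rfl
    have g3 : ch T2 (N3 n2 (fm n2 (a % n2) (t % n2)) (fk n2 (a % n2) (fm n2 (a % n2) (t % n2))
      (fB n2 (a % n2) (t % n2))) (fnm n2 (fm n2 (a % n2) (t % n2))) Q.1 Q.2) =
      v3 n2 T2 a t Q := rfl
    rw [g1, g3]
    simp only [hA, hA3, hB1, hB2]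
    ring
  have hz0lt : z0 < 2 ^ 16 := by
    apply list_sum_lt L2 _ (6 * 15 * 15 + 3 * 15 * 15)
    · intro Q _
      have m1 := Nat.mod_lt (A Q) hlpos
      have m3 := Nat.mod_lt (A3 Q) hlpos
      have := hv1' Q
      have := hv3' Q
      apply Nat.add_le_add
      · exact Nat.mul_le_mul (by omega) (by omega)
      · exact Nat.mul_le_mul (by omega) (by omega)
    · have : L2.length ≤ 32 := H.len2
      norm_num
      omega
  have hz1lt : z1 < 2 ^ 16 := by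
    apply list_sum_lt L2 _ (15 * 15)
    · intro Q _
      have m1 := Nat.mod_lt (B1 Q) hlpos
      have := hv1' Q
      exact Nat.mul_le_mul (by omega) (by omega)
    · have : L2.length ≤ 32 := H.len2
      norm_num
      omega
  have hz2lt : z2 < 2 ^ 16 := by
    apply list_sum_lt L2 _ (15 * 15)
    · intro Q _
      have m1 := Nat.mod_lt (B2 Q) hlpos
      have := hv1' Q
      exact Nat.mul_le_mul (by omega) (by omega)
    · have : L2.length ≤ 32 := H.len2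
      norm_num
      omega
  obtain ⟨g0, g1, g2⟩ := dg_triple hz0lt hz1lt hz2lt
  rw [hZe]
  unfold chk
  rw [strict_eq, strict_eq]
  change Nat.beq ((dg 16 (z0 + 2 ^ 16 * z1 + 2 ^ 32 * z2) 0 + (fB l (a % l) (t % l) *
    dg 16 (z0 + 2 ^ 16 * z1 + 2 ^ 32 * z2) 1 + 2 * (l - 1) * (a % l) *
    dg 16 (z0 + 2 ^ 16 * z1 + 2 ^ 32 * z2) 2)) % l) 0 = true
  rw [g0, g1, g2]
  rw [Nat.beq_eq, ← Nat.dvd_iff_mod_eq_zero, ← ZMod.natCast_eq_zero_iff]
  push_cast [Nat.cast_sub (show 1 ≤ l by omega)]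
  rw [fB_cast, ZMod.natCast_mod, ZMod.natCast_self]
  -- the casts
  have c0 : (z0 : ZMod l) = (L2.map fun Q => (L1.map fun P =>
      6 * ((v1 n1 T1 a t P : ZMod l) * (v1 n2 T2 a t Q : ZMod l)) *
        DZ (chiF n1 n2 l T1 T2) ((P.1 * e1 + Q.1 * e2 : ℕ) : ZMod (n1 * n2))
          ((P.2 * e1 + Q.2 * e2 : ℕ) : ZMod (n1 * n2)) +
      3 * ((v3 n1 T1 a t P : ZMod l) * (v3 n2 T2 a t Q : ZMod l)) *
        DZ (chiF n1 n2 l T1 T2) ((P.1 * e1 + Q.1 * e2 : ℕ) : ZMod (n1 * n2))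
          ((P.2 * e1 + Q.2 * e2 : ℕ) : ZMod (n1 * n2))).sum).sum := by
    rw [hz0, Nat.cast_list_sum, List.map_map]
    congr 1
    apply List.map_congr_left
    intro Q _
    simp only [Function.comp, hA, hA3]
    push_cast
    rw [ZMod.natCast_mod, ZMod.natCast_mod, Nat.cast_list_sum, Nat.cast_list_sum, List.map_map,
      List.map_map, ← List.sum_map_mul_left, ← List.sum_map_mul_left, ← List.sum_map_mul_right,
      ← List.sum_map_mul_right, ← List.sum_map_add]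
    congr 1
    apply List.map_congr_left
    intro P _
    simp only [Function.comp]
    push_cast
    rw [wD_cast H]
    push_cast
    ring
  have c1 : (z1 : ZMod l) = (L2.map fun Q => (L1.map fun P =>
      ((v1 n1 T1 a t P : ZMod l) * (v1 n2 T2 a t Q : ZMod l)) *
        EZ (chiF n1 n2 l T1 T2) ((P.2 * e1 + Q.2 * e2 : ℕ) : ZMod (n1 * n2))).sum).sum := by
    rw [hz1, Nat.cast_list_sum, List.map_map]
    congr 1
    apply List.map_congr_left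
    intro Q _
    simp only [Function.comp, hB1]
    push_cast
    rw [ZMod.natCast_mod, Nat.cast_list_sum, List.map_map, ← List.sum_map_mul_right]
    congr 1
    apply List.map_congr_left
    intro P _
    simp only [Function.comp]
    push_cast
    rw [wE1_cast H]
    push_cast
    ring
  have c2 : (z2 : ZMod l) = (L2.map fun Q => (L1.map fun P =>
      ((v1 n1 T1 a t P : ZMod l) * (v1 n2 T2 a t Q : ZMod l)) *
        EZ (chiF n1 n2 l T1 T2) ((P.1 * e1 + Q.1 * e2 : ℕ) : ZMod (n1 * n2))).sum).sum := by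
    rw [hz2, Nat.cast_list_sum, List.map_map]
    congr 1
    apply List.map_congr_left
    intro Q _
    simp only [Function.comp, hB2]
    push_cast
    rw [ZMod.natCast_mod, Nat.cast_list_sum, List.map_map, ← List.sum_map_mul_right]
    congr 1
    apply List.map_congr_left
    intro P _
    simp only [Function.comp]
    push_cast
    rw [wE2_cast H]
    push_cast
    ring
  have hrel := zrel2 H a t h
  rw [list_sum_comm] at hrel
  rw [c0, c1, c2]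
  rw [← List.sum_map_mul_left, ← List.sum_map_mul_left, ← List.sum_map_add, ← List.sum_map_add]
  refine Eq.trans ?_ hrel
  congr 1
  apply List.map_congr_left
  intro Q _
  rw [← List.sum_map_mul_left, ← List.sum_map_mul_left, ← List.sum_map_add, ← List.sum_map_add]
  congr 1
  apply List.map_congr_left
  intro P _
  push_cast
  ring

end Main

end Pool.Agent.LibH4.T6
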